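import Pool.Agent.H17.COR.Deep

/-!
# The entropies at the places from the numbers of one law

`NumP`: the numbers of a law. `CorA`: the families of the numbers are the digits of the own heights
and velocities. `up_of`: upper bound at the places. `lo_of`: lower bound at the last place.
-/

set_option autoImplicit false

namespace Pool.OWN17

open Finset Real
open Pool.Agent.H49.Ent Pool.Agent.H32.Dense Pool.STK Pool.CH30 Pool.KM7 Pool.OWN68 Pool.SAT43

section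

variable {Ω : Type} [Fintype Ω] {p : Ω → ℝ} {ι Z Y' 𝒮 𝒵' : Type}

/-- **The numbers of a law.** -/
structure NumP (q : Ω → ℝ) (x : ι → ℝ) (z : ι → Ω → Z) (y : Ω → Y') (u v : ι → ι → Ω → ℤ × ℤ)
    (gJ fD : ι → ι → ℝ) (κ e : ℝ) (el : Ω → ℤ) (z' : Ω → 𝒵') (cs : Ω → 𝒮) (T : Ω → ℕ)
    (Y : Ω → ℤ) : Prop where
  J : Add q x z y (fun i k ω => (u i k ω, v i k ω)) gJ κ e
  D : Add q x z y v fD κ e
  N : Nest q x z y e
  r1 : ∀ i j k, x i ≤ x j → x j ≤ x k → CH q (u i j) (fun ω => (u i k ω, (z i ω, y ω))) ≤ e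
  r2 : ∀ i j k, x i ≤ x j → x j ≤ x k →
    CH q (u j k) (fun ω => (u i k ω, (z j ω, (z i ω, y ω)))) ≤ e
  fr : CH q el (fun ω => (cs ω, (T ω, Y ω))) - CH q el (fun ω => (z' ω, (cs ω, (T ω, Y ω)))) ≤ e

/-- The own height of `u` at the time. -/
noncomputable def rXU (J w : ℕ) (l : Ω → Ln) (h : Ω → Cht) (T : Ω → ℕ) (ω : Ω) : ℝ :=
  (l ω).hu (h ω) (tT J w (T ω))

/-- The own height of `v` at the time. -/
noncomputable def rXV (J w : ℕ) (l : Ω → Ln) (h : Ω → Cht) (T : Ω → ℕ) (ω : Ω) : ℝ :=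
  (l ω).hv (h ω) (tT J w (T ω))

/-- The own velocity of `u`. -/
def rVU (l : Ω → Ln) (h : Ω → Cht) (ω : Ω) : ℝ := (l ω).hu' (h ω)

/-- The own velocity of `v`. -/
def rVV (l : Ω → Ln) (h : Ω → Cht) (ω : Ω) : ℝ := (l ω).hv' (h ω)

theorem hgU_fd (J w n : ℕ) (l : Ω → Ln) (h : Ω → Cht) (T : Ω → ℕ) :
    hgU J w n l h T = fd (n : ℝ) (rXU J w l h T) := by
  funext ω
  unfold hgU fd rXU
  rw [Real.rpow_natCast]

theorem hgV_fd (J w n : ℕ) (l : Ω → Ln) (h : Ω → Cht) (T : Ω → ℕ) :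
    hgV J w n l h T = fd (n : ℝ) (rXV J w l h T) := by
  funext ω
  unfold hgV fd rXV
  rw [Real.rpow_natCast]

theorem vU_fd (w n : ℕ) (l : Ω → Ln) (h : Ω → Cht) :
    vU w n l h = fd ((n : ℝ) - w) (rVU l h) := by
  funext ω
  unfold vU fd rVU
  rw [Real.rpow_sub two_pos, Real.rpow_natCast, Real.rpow_natCast]

theorem vV_fd (w n : ℕ) (l : Ω → Ln) (h : Ω → Cht) :
    vV w n l h = fd ((n : ℝ) - w) (rVV l h) := by
  funext ω
  unfold vV fd rVV
  rw [Real.rpow_sub two_pos, Real.rpow_natCast, Real.rpow_natCast]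

/-- **The families of the numbers.** -/
structure CorA (p : Ω → ℝ) (c J w NU NV b N m I : ℕ) (n γ : ℕ → ℕ) (δ : ℝ)
    (l : Ω → Ln) (h : Ω → Cht) (f : Ω → Frm) (T : Ω → ℕ) (Y el : Ω → ℤ) (Au Av : Ω → ℝ)
    (cs : Ω → 𝒮) (zd : Ω → 𝒵') (x : ι → ℝ) (z : ι → Ω → Z) (y : Ω → Y')
    (u v : ι → ι → Ω → ℤ × ℤ) (tX tD : ℕ → ι) (aU aV dU dV : ℕ → ℝ) : Prop where
  dpl : Dpl p c J w NU NV I l h f T Y Au Av
  δ0 : 0 ≤ δ
  nN : ∀ k ≤ m, n k + γ k ≤ N
  NI : N * b ≤ I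
  lam : ∀ k ≤ m, ∀ ω ω', 0 < p ω → 0 < p ω' → el ω = el ω' →
    eD (n k * b) l ω = eD (n k * b) l ω'
  uX : ∀ t ≤ N, ∀ ω, 0 < p ω →
    u (tX 0) (tX t) ω = (fd (aU t) (rXU J w l h T) ω, fd (aV t) (rXV J w l h T) ω)
  vD : ∀ k ≤ m, ∀ ω, 0 < p ω →
    v (tX 0) (tD k) ω = (fd (dU k) (rVU l h) ω, fd (dV k) (rVV l h) ω)
  haU : ∀ t ≤ N, |aU t - ((NU : ℝ) + t * b)| ≤ δ
  haV : ∀ t ≤ N, |aV t - ((NV : ℝ) + t * b)| ≤ δ
  hdU : ∀ k ≤ m, |dU k - ((NU : ℝ) + n k * b - w)| ≤ δ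
  hdV : ∀ k ≤ m, |dV k - ((NV : ℝ) + n k * b - w)| ≤ δ
  mX : ∀ t t', t ≤ t' → t' ≤ N → x (tX t) ≤ x (tX t')
  mD : ∀ k ≤ m, x (tX (n k + γ k)) ≤ x (tD k)
  zy : ∀ ω ω', 0 < p ω → 0 < p ω' → z (tX 0) ω = z (tX 0) ω' → y ω = y ω' →
    el ω = el ω' ∧ cs ω = cs ω' ∧ T ω = T ω' ∧ Y ω = Y ω'
  yz : ∀ ω ω', 0 < p ω → 0 < p ω' → el ω = el ω' → cs ω = cs ω' → T ω = T ω' → Y ω = Y ω' →
    z (tX 0) ω = z (tX 0) ω' ∧ y ω = y ω'
  dd : Det p (fun ω => (zd ω, (cs ω, (T ω, Y ω))))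
    (fun ω => (Au ω, (Av ω, (h ω, (f ω, (T ω, Y ω))))))

/-- The error of the conversions. -/
noncomputable def Ec (c : ℕ) (δ : ℝ) : ℝ :=
  6 * (δ * Real.log 2 + Real.log 9) + 6 * Real.log (2 * ((6 * c : ℕ) + 1) + 1)

theorem log36 (c : ℕ) : 0 ≤ Real.log (2 * ((3 * c : ℕ) + 1) + 1) ∧
    Real.log (2 * ((3 * c : ℕ) + 1) + 1) ≤ Real.log (2 * ((6 * c : ℕ) + 1) + 1) := by
  have h0 : (0 : ℝ) ≤ c := Nat.cast_nonneg c
  push_cast
  constructor
  · exact Real.log_nonneg (by linarith)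
  · exact Real.log_le_log (by linarith) (by linarith)

variable {c J w NU NV b N m I : ℕ} {n γ : ℕ → ℕ} {δ : ℝ}
  {l : Ω → Ln} {h : Ω → Cht} {f : Ω → Frm} {T : Ω → ℕ} {Y el : Ω → ℤ} {Au Av : Ω → ℝ}
  {cs : Ω → 𝒮} {zd : Ω → 𝒵'} {x : ι → ℝ} {z : ι → Ω → Z} {y : Ω → Y'}
  {u v : ι → ι → Ω → ℤ × ℤ} {tX tD : ℕ → ι} {aU aV dU dV : ℕ → ℝ}

/-- Restriction to a law with a smaller support. -/
theorem CorA.sub {q : Ω → ℝ} (hq : ∀ ω, 0 < q ω → 0 < p ω)
    (H : CorA p c J w NU NV b N m I n γ δ l h f T Y el Au Av cs zd x z y u v tX tD aU aV dU dV) :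
    CorA q c J w NU NV b N m I n γ δ l h f T Y el Au Av cs zd x z y u v tX tD aU aV dU dV where
  dpl := ⟨H.dpl.c1, H.dpl.wJ, fun ω hω => H.dpl.geo ω (hq ω hω), fun ω hω => H.dpl.vu ω (hq ω hω),
    fun ω hω => H.dpl.vv ω (hq ω hω), fun ω hω => H.dpl.hu ω (hq ω hω),
    fun ω hω => H.dpl.hv ω (hq ω hω), fun ω hω => H.dpl.yc ω (hq ω hω)⟩
  δ0 := H.δ0
  nN := H.nN
  NI := H.NI
  lam k hk ω ω' h1 h2 := H.lam k hk ω ω' (hq ω h1) (hq ω' h2)
  uX t ht ω hω := H.uX t ht ω (hq ω hω)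
  vD k hk ω hω := H.vD k hk ω (hq ω hω)
  haU := H.haU
  haV := H.haV
  hdU := H.hdU
  hdV := H.hdV
  mX := H.mX
  mD := H.mD
  zy ω ω' h1 h2 := H.zy ω ω' (hq ω h1) (hq ω' h2)
  yz ω ω' h1 h2 := H.yz ω ω' (hq ω h1) (hq ω' h2)
  dd ω ω' h1 h2 := H.dd ω ω' (hq ω h1) (hq ω' h2)

/-- The digits at the places and the digits of the families. -/
theorem CorA.x_to (hp : IsLaw p)
    (H : CorA p c J w NU NV b N m I n γ δ l h f T Y el Au Av cs zd x z y u v tX tD aU aV dU dV)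
    {t : ℕ} (ht : t ≤ N) {S : Type} {Q : Ω → S} (hQ : Det p Q (u (tX 0) (tX t))) :
    CH p (fun ω => (hgU J w (NU + t * b) l h T ω, hgV J w (NV + t * b) l h T ω)) Q ≤
      2 * (δ * Real.log 2 + Real.log 9) := by
  have h1 := abs_le.1 (H.haU t ht)
  have h2 := abs_le.1 (H.haV t ht)
  rw [hgU_fd, hgV_fd]
  refine pr_few hp H.δ0 (a' := aU t) (b' := aV t) ?_ ?_ ?_ ?_
  · push_cast
    linarith [h1.1]
  · push_cast
    linarith [h2.1]
  · intro ω ω' a1 a2 hh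
    have := hQ ω ω' a1 a2 hh
    rw [H.uX t ht ω a1, H.uX t ht ω' a2] at this
    exact (Prod.mk.inj this).1
  · intro ω ω' a1 a2 hh
    have := hQ ω ω' a1 a2 hh
    rw [H.uX t ht ω a1, H.uX t ht ω' a2] at this
    exact (Prod.mk.inj this).2

theorem CorA.x_from (hp : IsLaw p)
    (H : CorA p c J w NU NV b N m I n γ δ l h f T Y el Au Av cs zd x z y u v tX tD aU aV dU dV)
    {t : ℕ} (ht : t ≤ N) {S : Type} {Q : Ω → S}
    (hQ : Det p Q (fun ω => (hgU J w (NU + t * b) l h T ω, hgV J w (NV + t * b) l h T ω))) :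
    CH p (u (tX 0) (tX t)) Q ≤ 2 * (δ * Real.log 2 + Real.log 9) := by
  have h1 := abs_le.1 (H.haU t ht)
  have h2 := abs_le.1 (H.haV t ht)
  have e1 : CH p (u (tX 0) (tX t)) Q ≤ CH p (fun ω => (fd (aU t) (rXU J w l h T) ω,
      fd (aV t) (rXV J w l h T) ω)) Q := CH_mono_left hp.nonneg fun ω ω' a1 a2 hh => by
    simp only [Prod.mk.injEq] at hh
    rw [H.uX t ht ω a1, H.uX t ht ω' a2, hh.1.1, hh.1.2]
  refine e1.trans ?_
  refine pr_few hp H.δ0 (a' := ((NU + t * b : ℕ) : ℝ)) (b' := ((NV + t * b : ℕ) : ℝ)) ?_ ?_ ?_ ?_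
  · push_cast
    linarith [h1.2]
  · push_cast
    linarith [h2.2]
  · intro ω ω' a1 a2 hh
    have := hQ ω ω' a1 a2 hh
    rw [← hgU_fd]
    exact (Prod.mk.inj this).1
  · intro ω ω' a1 a2 hh
    have := hQ ω ω' a1 a2 hh
    rw [← hgV_fd]
    exact (Prod.mk.inj this).2

theorem CorA.d_from (hp : IsLaw p)
    (H : CorA p c J w NU NV b N m I n γ δ l h f T Y el Au Av cs zd x z y u v tX tD aU aV dU dV)
    {k : ℕ} (hk : k ≤ m) {S : Type} {Q : Ω → S}
    (hQ : Det p Q (fun ω => (vU w (NU + n k * b) l h ω, vV w (NV + n k * b) l h ω))) :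
    CH p (v (tX 0) (tD k)) Q ≤ 2 * (δ * Real.log 2 + Real.log 9) := by
  have h1 := abs_le.1 (H.hdU k hk)
  have h2 := abs_le.1 (H.hdV k hk)
  have e1 : CH p (v (tX 0) (tD k)) Q ≤ CH p (fun ω => (fd (dU k) (rVU l h) ω,
      fd (dV k) (rVV l h) ω)) Q := CH_mono_left hp.nonneg fun ω ω' a1 a2 hh => by
    simp only [Prod.mk.injEq] at hh
    rw [H.vD k hk ω a1, H.vD k hk ω' a2, hh.1.1, hh.1.2]
  refine e1.trans ?_
  refine pr_few hp H.δ0 (a' := ((NU + n k * b : ℕ) : ℝ) - w)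
    (b' := ((NV + n k * b : ℕ) : ℝ) - w) ?_ ?_ ?_ ?_
  · push_cast
    linarith [h1.2]
  · push_cast
    linarith [h2.2]
  · intro ω ω' a1 a2 hh
    have := hQ ω ω' a1 a2 hh
    rw [← vU_fd]
    exact (Prod.mk.inj this).1
  · intro ω ω' a1 a2 hh
    have := hQ ω ω' a1 a2 hh
    rw [← vV_fd]
    exact (Prod.mk.inj this).2

theorem CorA.d_to (hp : IsLaw p)
    (H : CorA p c J w NU NV b N m I n γ δ l h f T Y el Au Av cs zd x z y u v tX tD aU aV dU dV)
    {k : ℕ} (hk : k ≤ m) {S : Type} {Q : Ω → S} (hQ : Det p Q (v (tX 0) (tD k))) :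
    CH p (fun ω => (vU w (NU + n k * b) l h ω, vV w (NV + n k * b) l h ω)) Q ≤
      2 * (δ * Real.log 2 + Real.log 9) := by
  have h1 := abs_le.1 (H.hdU k hk)
  have h2 := abs_le.1 (H.hdV k hk)
  rw [vU_fd, vV_fd]
  refine pr_few hp H.δ0 (a' := dU k) (b' := dV k) ?_ ?_ ?_ ?_
  · push_cast
    linarith [h1.1]
  · push_cast
    linarith [h2.1]
  · intro ω ω' a1 a2 hh
    have := hQ ω ω' a1 a2 hh
    rw [H.vD k hk ω a1, H.vD k hk ω' a2] at this
    exact (Prod.mk.inj this).1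
  · intro ω ω' a1 a2 hh
    have := hQ ω ω' a1 a2 hh
    rw [H.vD k hk ω a1, H.vD k hk ω' a2] at this
    exact (Prod.mk.inj this).2

variable {gJ fD : ι → ι → ℝ} {κ e : ℝ}

/-- **Upper bound at the places.** -/
theorem up_of (hp : IsLaw p)
    (H : CorA p c J w NU NV b N m I n γ δ l h f T Y el Au Av cs zd x z y u v tX tD aU aV dU dV)
    (M : NumP p x z y u v gJ fD κ e el zd cs T Y) {k t : ℕ} (hk : k ≤ m) (ht : t ≤ γ k) :
    CH p (fun ω => (hgU J w (NU + n k * b + γ k * b) l h T ω,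
      hgV J w (NV + n k * b + γ k * b) l h T ω))
      (fun ω => ((hgU J w (NU + n k * b + t * b) l h T ω, hgV J w (NV + n k * b + t * b) l h T ω),
        Nd J w NU NV (n k * b) l h T Y cs ω)) ≤
      gJ (tX (n k + t)) (tX (n k + γ k)) - fD (tX (n k + t)) (tX (n k + γ k)) +
        (8 * κ + 7 * e + Ec c δ) := by
  have h0 := hp.nonneg
  have hN := H.nN k hk
  have hb : n k * b ≤ I := (Nat.mul_le_mul_right b (by omega : n k ≤ N)).trans H.NI
  have hb1 : (n k + γ k) * b ≤ I := (Nat.mul_le_mul_right b hN).trans H.NI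
  have hb2 : (n k + t) * b ≤ I := (Nat.mul_le_mul_right b (by omega : n k + t ≤ N)).trans H.NI
  have a1 : ∀ M : ℕ, M + n k * b + γ k * b = M + (n k + γ k) * b := fun M => by ring
  have a2 : ∀ M : ℕ, M + n k * b + t * b = M + (n k + t) * b := fun M => by ring
  rw [a1, a1, a2, a2]
  obtain ⟨L, hL⟩ : ∃ L, L = 2 * (δ * Real.log 2 + Real.log 9) := ⟨_, rfl⟩
  obtain ⟨L₆, hL₆⟩ : ∃ L, L = Real.log (2 * ((6 * c : ℕ) + 1) + 1) := ⟨_, rfl⟩
  have hl36 := log36 c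
  rw [← hL₆] at hl36
  have k1 := near_up hp M.J M.D M.N M.r1 (i := tX 0) (j := tX (n k + t)) (j' := tX (n k + γ k))
    (k := tD k) (H.mX 0 _ (Nat.zero_le _) (by omega)) (H.mX _ _ (by omega) hN) (H.mD k hk)
    (X₁ := fun ω => (hgU J w (NU + (n k + γ k) * b) l h T ω,
      hgV J w (NV + (n k + γ k) * b) l h T ω))
    (X₀ := fun ω => (hgU J w (NU + (n k + t) * b) l h T ω, hgV J w (NV + (n k + t) * b) l h T ω))
    (D := fun ω => (vU w (NU + n k * b) l h ω, vV w (NV + n k * b) l h ω)) (E := el)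
    (Ei := eD (n k * b) l) (R := fun ω => (cs ω, (T ω, Y ω))) (z' := zd) (e₁ := L) (e₀ := L)
    (eD := L) (e₃ := 6 * L₆) (e₄ := e) (by
      intro ω ω' h1 h2 hh
      simp only [Prod.mk.injEq] at hh ⊢
      exact H.yz ω ω' h1 h2 hh.1 hh.2.1 hh.2.2.1 hh.2.2.2) (by
      intro ω ω' h1 h2 hh
      exact H.lam k hk ω ω' h1 h2 hh) (by
      rw [hL]
      refine H.x_to hp hN ?_
      intro ω ω' _ _ hh
      simp only [Prod.mk.injEq] at hh
      exact hh.1) (by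
      rw [hL]
      refine H.x_from hp (by omega) ?_
      intro ω ω' _ _ hh
      simp only [Prod.mk.injEq] at hh ⊢
      exact hh.1) (by
      rw [hL]
      refine H.d_from hp hk ?_
      intro ω ω' _ _ hh
      simp only [Prod.mk.injEq] at hh ⊢
      exact hh.1) (by
      have d1 := CH_subadd h0 (fun ω => (hgU J w (NU + (n k + γ k) * b) l h T ω,
        hgV J w (NV + (n k + γ k) * b) l h T ω)) (fun ω => ((hgU J w (NU + (n k + t) * b) l h T ω,
        hgV J w (NV + (n k + t) * b) l h T ω), (vU w (NU + n k * b) l h ω,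
        vV w (NV + n k * b) l h ω))) (fun ω => (zd ω, (eD (n k * b) l ω, (cs ω, (T ω, Y ω)))))
      have d2 := CH_subadd h0 (fun ω => (hgU J w (NU + (n k + t) * b) l h T ω,
        hgV J w (NV + (n k + t) * b) l h T ω)) (fun ω => (vU w (NU + n k * b) l h ω,
        vV w (NV + n k * b) l h ω)) (fun ω => (zd ω, (eD (n k * b) l ω, (cs ω, (T ω, Y ω)))))
      have hdd : Det p (fun ω => (zd ω, (eD (n k * b) l ω, (cs ω, (T ω, Y ω)))))
          (fun ω => (Au ω, (Av ω, (h ω, (f ω, (T ω, Y ω)))))) := by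
        intro ω ω' h1 h2 hh
        refine H.dd ω ω' h1 h2 ?_
        simp only [Prod.mk.injEq] at hh ⊢
        tauto
      have d3 := H.dpl.x_few hp hb1 hdd
      have d4 := H.dpl.x_few hp hb2 hdd
      have d5 := H.dpl.d_few hp hb (Z := fun ω => (zd ω, (eD (n k * b) l ω, (cs ω, (T ω, Y ω)))))
        (by
        intro ω ω' h1 h2 hh
        have := hdd ω ω' h1 h2 hh
        simp only [Prod.mk.injEq] at this hh ⊢
        tauto)
      rw [← hL₆] at d5
      linarith) M.fr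
  have k2 : CH p (fun ω => (hgU J w (NU + (n k + γ k) * b) l h T ω,
      hgV J w (NV + (n k + γ k) * b) l h T ω))
      (fun ω => ((hgU J w (NU + (n k + t) * b) l h T ω, hgV J w (NV + (n k + t) * b) l h T ω),
        Nd J w NU NV (n k * b) l h T Y cs ω)) ≤
      CH p (fun ω => (hgU J w (NU + (n k + γ k) * b) l h T ω,
      hgV J w (NV + (n k + γ k) * b) l h T ω))
      (fun ω => ((hgU J w (NU + (n k + t) * b) l h T ω, hgV J w (NV + (n k + t) * b) l h T ω),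
        ((vU w (NU + n k * b) l h ω, vV w (NV + n k * b) l h ω),
          (eD (n k * b) l ω, (cs ω, (T ω, Y ω)))))) := CH_mono_cond h0 fun ω ω' _ _ hh => by
    simp only [Nd, Prod.mk.injEq] at hh ⊢
    tauto
  have e1 : Ec c δ = 3 * L + 6 * L₆ := by
    unfold Ec
    rw [hL, hL₆]
    ring
  rw [e1]
  linarith

/-- **Lower bound at the last place.** -/
theorem lo_of (hp : IsLaw p)
    (H : CorA p c J w NU NV b N m I n γ δ l h f T Y el Au Av cs zd x z y u v tX tD aU aV dU dV)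
    (M : NumP p x z y u v gJ fD κ e el zd cs T Y) {𝒵 : Type} {zz : Ω → 𝒵}
    (hzz : Det p (z (tX (n m))) zz) :
    gJ (tX (n m)) (tX (n m + γ m)) - fD (tX (n m)) (tX (n m + γ m)) -
        (8 * κ + 13 * e + Ec c δ) ≤
    CH p (fun ω => (hgU J w (NU + n m * b + γ m * b) l h T ω,
      hgV J w (NV + n m * b + γ m * b) l h T ω))
      (fun ω => ((vU w (NU + n m * b) l h ω, vV w (NV + n m * b) l h ω),
        (Qd J w NU NV (n m * b) l h T Y cs zz ω, el ω))) := by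
  have h0 := hp.nonneg
  have hN := H.nN m le_rfl
  have a1 : ∀ M : ℕ, M + n m * b + γ m * b = M + (n m + γ m) * b := fun M => by ring
  rw [a1, a1]
  obtain ⟨L, hL⟩ : ∃ L, L = 2 * (δ * Real.log 2 + Real.log 9) := ⟨_, rfl⟩
  have hl36 := log36 c
  obtain ⟨Z, hZ⟩ : ∃ Z : Ω → (ℤ × ℤ) × ((ℤ × ℤ) × (_ × (_ × Y'))), Z = fun ω =>
    (u (tX 0) (tX (n m)) ω, (v (tX 0) (tD m) ω, (z (tX (n m)) ω, (z (tX 0) ω, y ω)))) := ⟨_, rfl⟩
  have k1 := near_lo hp M.J M.D M.N M.r2 (i := tX 0) (j := tX (n m)) (j' := tX (n m + γ m))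
    (k := tD m) (H.mX 0 _ (Nat.zero_le _) (by omega)) (H.mX _ _ (by omega) hN) (H.mD m le_rfl)
    (X₁ := fun ω => (hgU J w (NU + (n m + γ m) * b) l h T ω,
      hgV J w (NV + (n m + γ m) * b) l h T ω))
    (C := fun ω => ((vU w (NU + n m * b) l h ω, vV w (NV + n m * b) l h ω),
        (Qd J w NU NV (n m * b) l h T Y cs zz ω, el ω))) (e₁ := 2 * L) (e₂ := L) (by
      rw [← hZ]
      have d1 := CH_le_add h0 (fun ω => ((vU w (NU + n m * b) l h ω, vV w (NV + n m * b) l h ω),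
        (Qd J w NU NV (n m * b) l h T Y cs zz ω, el ω)))
        (fun ω => ((vU w (NU + n m * b) l h ω, vV w (NV + n m * b) l h ω),
          (hgU J w (NU + n m * b) l h T ω, hgV J w (NV + n m * b) l h T ω))) Z
      have d2 := CH_subadd h0 (fun ω => (vU w (NU + n m * b) l h ω, vV w (NV + n m * b) l h ω))
        (fun ω => (hgU J w (NU + n m * b) l h T ω, hgV J w (NV + n m * b) l h T ω)) Z
      have d3 : CH p (fun ω => (vU w (NU + n m * b) l h ω, vV w (NV + n m * b) l h ω)) Z ≤ L := by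
        rw [hL]
        refine H.d_to hp le_rfl ?_
        intro ω ω' _ _ hh
        rw [hZ] at hh
        simp only [Prod.mk.injEq] at hh
        exact hh.2.1
      have d4 : CH p (fun ω => (hgU J w (NU + n m * b) l h T ω, hgV J w (NV + n m * b) l h T ω))
          Z ≤ L := by
        rw [hL]
        refine H.x_to hp (by omega) ?_
        intro ω ω' _ _ hh
        rw [hZ] at hh
        simp only [Prod.mk.injEq] at hh
        exact hh.1
      have d5 : CH p (fun ω => ((vU w (NU + n m * b) l h ω, vV w (NV + n m * b) l h ω),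
          (Qd J w NU NV (n m * b) l h T Y cs zz ω, el ω)))
          (fun ω => (((vU w (NU + n m * b) l h ω, vV w (NV + n m * b) l h ω),
            (hgU J w (NU + n m * b) l h T ω, hgV J w (NV + n m * b) l h T ω)), Z ω)) = 0 := by
        refine CH_eq_zero h0 fun ω ω' h1 h2 hh => ?_
        rw [hZ] at hh
        simp only [Prod.mk.injEq] at hh
        obtain ⟨⟨⟨b1, b2⟩, b3, b4⟩, b5, b6, b7, b8, b9⟩ := hh
        obtain ⟨c1, c2, c3, c4⟩ := H.zy ω ω' h1 h2 b8 b9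
        have c5 := hzz ω ω' h1 h2 b7
        simp only [Qd, Prod.mk.injEq]
        tauto
      linarith) (by
      rw [hL]
      refine H.x_from hp hN ?_
      intro ω ω' _ _ hh
      simp only [Prod.mk.injEq] at hh ⊢
      exact hh.1)
  have e1 : 3 * L ≤ Ec c δ := by
    unfold Ec
    rw [hL]
    linarith
  linarith

/-- **The free digits.** -/
theorem fr_of (hp : IsLaw p)
    (H : CorA p c J w NU NV b N m I n γ δ l h f T Y el Au Av cs zd x z y u v tX tD aU aV dU dV)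
    (M : NumP p x z y u v gJ fD κ e el zd cs T Y) {𝒵 : Type} (zz : Ω → 𝒵) :
    CH p el (Qd J w NU NV (n m * b) l h T Y cs zz) -
      CH p el (Kd J w NU NV (n m * b) (n m * b + γ m * b) l h f T Y cs zd) ≤
        e + Ec c δ := by
  have h0 := hp.nonneg
  have hN := H.nN m le_rfl
  have hb1 : n m * b + γ m * b ≤ I := by
    rw [← add_mul]
    exact (Nat.mul_le_mul_right b hN).trans H.NI
  have hl36 := log36 c
  have k1 := fre_of hp (E := el) (Q := Qd J w NU NV (n m * b) l h T Y cs zz)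
    (K := Kd J w NU NV (n m * b) (n m * b + γ m * b) l h f T Y cs zd)
    (R := fun ω => (cs ω, (T ω, Y ω))) (z' := zd) (e₁ := Ec c δ) (e₂ := e) (by
      intro ω ω' _ _ hh
      simp only [Qd, Prod.mk.injEq] at hh ⊢
      tauto) (by
      have d1 := CH_le_add h0 (Kd J w NU NV (n m * b) (n m * b + γ m * b) l h f T Y cs zd)
        (fun ω => (hgU J w (NU + (n m * b + γ m * b)) l h T ω,
          hgV J w (NV + (n m * b + γ m * b)) l h T ω)) (fun ω => (zd ω, (cs ω, (T ω, Y ω))))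
      have d2 := H.dpl.x_few hp hb1 H.dd
      have d3 : CH p (Kd J w NU NV (n m * b) (n m * b + γ m * b) l h f T Y cs zd)
          (fun ω => ((hgU J w (NU + (n m * b + γ m * b)) l h T ω,
          hgV J w (NV + (n m * b + γ m * b)) l h T ω), (zd ω, (cs ω, (T ω, Y ω))))) = 0 := by
        refine CH_eq_zero h0 fun ω ω' h1 h2 hh => ?_
        simp only [Prod.mk.injEq] at hh
        obtain ⟨⟨b1, b2⟩, b3, b4, b5, b6⟩ := hh
        have := H.dd ω ω' h1 h2 (by simp only [b3, b4, b5, b6])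
        simp only [Prod.mk.injEq] at this
        obtain ⟨-, -, c3, c4, -, -⟩ := this
        simp only [Kd, jU, jV, Prod.mk.injEq]
        rw [c3, c4]
        tauto
      have e1 : 2 * Real.log (2 * ((3 * c : ℕ) + 1) + 1) ≤ Ec c δ := by
        have h2 : 0 ≤ δ * Real.log 2 := mul_nonneg H.δ0 (Real.log_nonneg (by norm_num))
        have h9 : 0 ≤ Real.log 9 := Real.log_nonneg (by norm_num)
        unfold Ec
        linarith [hl36.1, hl36.2]
      linarith) M.fr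
  linarith

end

end Pool.OWN17
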