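import Pool.Agent.H17.COR.Num6
import Pool.Agent.H6.OWN.Afc

/-!
# Small linear functions of an active velocity

`act_law`: if `α + β e` is small on an event, `α`, `β` functions of the condition `Z`, and `e` has
several bits given `Z` on all large parts, then `β` is small on a large part. `act_f`, `act_z`: the
velocity of a coordinate of a class, and of a zoom of a class.
-/

set_option autoImplicit false

namespace Pool.OWN17

open Finset Real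
open Pool.Agent.H49.Ent Pool.Agent.H32.Dense Pool.STK Pool.KA Pool.KSAT Pool.K2S Pool.PB Pool.S6C
  Pool.GEN Pool.REX Pool.MIC6

/-- **A small linear function of an active variable.** -/
theorem act_law {Ω T : Type} [Fintype Ω] {p : Ω → ℝ} (hp : IsLaw p) {A : Ω → Prop} {Z : Ω → T}
    {α β e : Ω → ℝ} {E : ℝ} {X : ℕ} (hE : 0 < E) (hA : 0 < Pe p A)
    (hZ : ∀ ω ω', A ω → A ω' → Z ω = Z ω' → α ω = α ω' ∧ β ω = β ω')
    (hrel : ∀ ω, A ω → |α ω + β ω * e ω| ≤ E)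
    (hact : ∀ B : Ω → Prop, Sub B A → Pe p A ≤ 2 * Pe p B →
      Real.log 9 < CH (Pool.Agent.H49.Ent.cond p B True) (fun ω => (⌊(2 : ℝ) ^ X * e ω⌋ : ℤ)) Z) :
    ∃ B : Ω → Prop, Sub B A ∧ Pe p A ≤ 2 * Pe p B ∧ ∀ ω, B ω → |β ω| ≤ 2 ^ (X + 1) * E := by
  classical
  obtain ⟨G, hG⟩ : ∃ G : Ω → Prop, G = fun ω => A ω ∧ |β ω| ≤ 2 ^ (X + 1) * E := ⟨_, rfl⟩
  obtain ⟨D, hD⟩ : ∃ D : Ω → Prop, D = fun ω => A ω ∧ ¬ |β ω| ≤ 2 ^ (X + 1) * E := ⟨_, rfl⟩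
  have hsum : Pe p A ≤ Pe p G + Pe p D := by
    rw [hG, hD]
    refine Pe_or hp fun ω hω => ?_
    by_cases h : |β ω| ≤ 2 ^ (X + 1) * E
    · exact Or.inl ⟨hω, h⟩
    · exact Or.inr ⟨hω, h⟩
  by_cases h1 : Pe p A ≤ 2 * Pe p G
  · exact ⟨G, fun ω hω => by rw [hG] at hω; exact hω.1, h1, fun ω hω => by
      rw [hG] at hω
      exact hω.2⟩
  exfalso
  push Not at h1
  have h2 : Pe p A ≤ 2 * Pe p D := by linarith
  have hDA : Sub D A := fun ω hω => by rw [hD] at hω; exact hω.1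
  have h3 := hact D hDA h2
  have hD0 : 0 < Pe p D := by linarith
  have hq : IsLaw (Pool.Agent.H49.Ent.cond p D True) := isLaw_cond hp hD0
  have hon : ∀ ω, 0 < Pool.Agent.H49.Ent.cond p D True ω → D ω := fun ω hω => by
    by_contra h
    have : Pool.Agent.H49.Ent.cond p D True ω = 0 := by
      unfold Pool.Agent.H49.Ent.cond
      rw [if_neg (fun h' : D ω = True => h (of_eq_true h'))]
    rw [this] at hω
    exact lt_irrefl _ hω
  have h4 : CH (Pool.Agent.H49.Ent.cond p D True)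
      (fun ω (_ : Fin 1) => (⌊(2 : ℝ) ^ X * e ω⌋ : ℤ)) Z ≤ (1 : ℕ) * Real.log (2 * 4 + 1) := by
    refine Plk.CH_vec_const hq _ _ fun ω ω' a1 a2 a3 _ => ?_
    have b1 := hon ω a1
    have b2 := hon ω' a2
    rw [hD] at b1 b2
    obtain ⟨c1, c2⟩ := hZ ω ω' b1.1 b2.1 a3
    have d1 := hrel ω b1.1
    have d2 := hrel ω' b2.1
    rw [← c1, ← c2] at d2
    have d3 := b1.2
    push Not at d3
    obtain ⟨x, hx⟩ : ∃ x, x = e ω := ⟨_, rfl⟩
    obtain ⟨x', hx'⟩ : ∃ x, x = e ω' := ⟨_, rfl⟩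
    rw [← hx] at d1
    rw [← hx'] at d2
    rw [← hx, ← hx']
    have e1 : |β ω| * |x - x'| ≤ 2 * E := by
      rw [← abs_mul]
      have : β ω * (x - x') = (α ω + β ω * x) - (α ω + β ω * x') := by ring
      rw [this]
      have := abs_sub (α ω + β ω * x) (α ω + β ω * x')
      linarith
    have e2 : |x - x'| * 2 ^ X ≤ 1 := by
      by_contra hcon
      push Not at hcon
      have e3 : 2 ^ (X + 1) * E * |x - x'| ≤ |β ω| * |x - x'| :=
        mul_le_mul_of_nonneg_right d3.le (abs_nonneg _)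
      have e4 : (2 : ℝ) ^ (X + 1) * E * |x - x'| = 2 * E * (|x - x'| * 2 ^ X) := by
        rw [pow_succ]
        ring
      rw [e4] at e3
      nlinarith
    have e3 : |(2 : ℝ) ^ X * x - 2 ^ X * x'| ≤ 1 := by
      rw [← mul_sub, abs_mul, abs_of_pos (by positivity), mul_comm]
      exact e2
    have f1 := Int.floor_le ((2 : ℝ) ^ X * x)
    have f2 := Int.lt_floor_add_one ((2 : ℝ) ^ X * x)
    have f3 := Int.floor_le ((2 : ℝ) ^ X * x')
    have f4 := Int.lt_floor_add_one ((2 : ℝ) ^ X * x')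
    rw [abs_le] at e3 ⊢
    push_cast
    constructor <;> linarith [e3.1, e3.2]
  have h5 : CH (Pool.Agent.H49.Ent.cond p D True) (fun ω => (⌊(2 : ℝ) ^ X * e ω⌋ : ℤ)) Z ≤
      CH (Pool.Agent.H49.Ent.cond p D True) (fun ω (_ : Fin 1) => (⌊(2 : ℝ) ^ X * e ω⌋ : ℤ)) Z :=
    CH_mono_left hq.nonneg fun a a' _ _ h => by
      simp only [Prod.mk.injEq] at h
      exact congrFun h.1 0
  have h6 : Real.log (2 * 4 + 1) = Real.log 9 := by norm_num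
  rw [h6] at h4
  push_cast at h4
  linarith

variable {m n : ℕ}

/-- **Small linear functions of the velocity** of an active coordinate. -/
theorem act_f {S : PCl m} {C₀ : ℝ} (htm : TmC S C₀) {y : Fin m} (hact : ActF S y) {x : ℝ}
    (hx : 0 < x) : Bas S (fun J F A => ∀ (α β : F.Ω → ℝ) (E : ℝ), 0 < E →
      (∀ ω ω', A ω → A ω' → ptr F J ω = ptr F J ω' → α ω = α ω' ∧ β ω = β ω') →
      (∀ ω, A ω → |α ω + β ω * F.d ω y| ≤ E) → ∃ B : F.Ω → Prop, Sub B A ∧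
        Pe F.p A ≤ 2 * Pe F.p B ∧ ∀ ω, B ω → |β ω| ≤ 2 ^ (⌊x * J⌋₊ + 1) * E) := by
  obtain ⟨c, hc, τ, hτ, J₁, b₁⟩ := hact x hx
  obtain ⟨J₂, hJ₂⟩ := exists_nat_ge ((Real.log 9 + 1) / c)
  obtain ⟨J₃, hJ₃⟩ := exp_small' (half_pos hτ) (by norm_num : (1 : ℝ) ≤ 2)
  refine ⟨τ / 2, by linarith, J₁ + (J₂ + J₃), ?_⟩
  intro J hJ F A hA α β E hE hZ hrel
  have hJ2 : (J₂ : ℝ) ≤ J := by exact_mod_cast (by omega : J₂ ≤ J)
  have hlog9 : Real.log 9 + 1 ≤ c * J := by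
    have h3 := hJ₂.trans hJ2
    rw [div_le_iff₀ hc] at h3
    linarith only [h3]
  have hA0 := (htm (τ / 2) J F A (by linarith) hA).1
  have hJ3 := hJ₃ J (by omega)
  refine act_law F.isLaw (Z := ptr F J) (e := fun ω => F.d ω y) hE hA0 hZ hrel fun B hB hPB => ?_
  have h1 : Real.exp (-(τ / 2 * J)) * Pe F.p A ≤ Pe F.p B := by
    calc Real.exp (-(τ / 2 * J)) * Pe F.p A ≤ 1 / 2 * (2 * Pe F.p B) :=
          mul_le_mul hJ3 hPB hA0.le (by norm_num)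
      _ = Pe F.p B := by ring
  have h2 : S.St (τ / 2 + τ / 2) J F B := S.res (by linarith) hA hB h1
  rw [add_halves] at h2
  have h3 : c * J ≤ CH (Pool.Agent.H49.Ent.cond F.p B True) (fun ω => F.D ⌊x * (J : ℝ)⌋₊ ω y)
      (ptr F J) := b₁ J (by omega) F B h2
  have h4 : (fun ω => F.D ⌊x * (J : ℝ)⌋₊ ω y) = fun ω => (⌊(2 : ℝ) ^ ⌊x * (J : ℝ)⌋₊ * F.d ω y⌋ : ℤ) :=
    rfl
  rw [h4] at h3
  linarith

/-- **Small linear functions of the velocity** of an active coordinate in a zoom. -/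
theorem act_z {S : PCl m} {C₀ : ℝ} (htm : TmC S C₀) {v : Vz m} {ε : Fin n → Fin m} {κ : Fin n}
    (hact : ActZ S v ε κ) {x : ℝ} (hx : 0 < x) :
    Bas S (fun J F A => ∀ hP : v.P J ≤ J - v.B J, ∀ (α β : F.Ω → ℝ) (E : ℝ), 0 < E →
      (∀ ω ω', A ω → A ω' → phz F hP (v.y J F) ε ω = phz F hP (v.y J F) ε ω' →
        α ω = α ω' ∧ β ω = β ω') →
      (∀ ω, A ω → |α ω + β ω * F.d ω (ε κ)| ≤ E) → ∃ B : F.Ω → Prop, Sub B A ∧
        Pe F.p A ≤ 2 * Pe F.p B ∧ ∀ ω, B ω → |β ω| ≤ 2 ^ (⌊x * J⌋₊ + 1) * 2 ^ v.P J * E) := by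
  obtain ⟨c, hc, τ, hτ, J₁, b₁⟩ := hact x hx
  obtain ⟨J₂, hJ₂⟩ := exists_nat_ge ((n * k99 + Real.log (2 * (3 + 2 : ℕ)) + 1) / c)
  obtain ⟨J₃, hJ₃⟩ := exp_small' (half_pos hτ) (by norm_num : (1 : ℝ) ≤ 2)
  refine ⟨τ / 2, by linarith, J₁ + (J₂ + J₃), ?_⟩
  intro J hJ F A hA hP α β E hE hZ hrel
  have hJ2 : (J₂ : ℝ) ≤ J := by exact_mod_cast (by omega : J₂ ≤ J)
  have hJ0 : (0 : ℝ) ≤ J := Nat.cast_nonneg J
  have hcJ : n * k99 + Real.log (2 * (3 + 2 : ℕ)) + 1 ≤ c * J := by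
    have h3 := hJ₂.trans hJ2
    rw [div_le_iff₀ hc] at h3
    linarith only [h3]
  have hA0 := (htm (τ / 2) J F A (by linarith) hA).1
  have hJ3 := hJ₃ J (by omega)
  have hS : ∀ B₀ : F.Ω → Prop, Sub B₀ A → Pe F.p A ≤ 2 * Pe F.p B₀ → S.St τ J F B₀ := by
    intro B hB hPB
    have h1 : Real.exp (-(τ / 2 * J)) * Pe F.p A ≤ Pe F.p B := by
      calc Real.exp (-(τ / 2 * J)) * Pe F.p A ≤ 1 / 2 * (2 * Pe F.p B) :=
            mul_le_mul hJ3 hPB hA0.le (by norm_num)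
        _ = Pe F.p B := by ring
    have h2 : S.St (τ / 2 + τ / 2) J F B := S.res (by linarith) hA hB h1
    rwa [add_halves] at h2
  obtain ⟨k1, k2, -⟩ := v.floor_le J
  have hbig := act_big (v := v) (ε := ε) (κ := κ) (γ := x) b₁ (by omega : J₁ ≤ J) k1 k2 hA0
    (by norm_num : (0 : ℝ) < 2) hS hcJ
  obtain ⟨N, hN⟩ : ∃ N : F.Ω → ℤ, N = fun ω => ((F.win (v.B J)).L (v.P J) ω).2 (ε κ) := ⟨_, rfl⟩
  have hd : ∀ ω, (zmV F hP (v.y J F) ε).d ω κ = 2 ^ v.P J * F.d ω (ε κ) - (N ω : ℝ) := by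
    intro ω
    rw [hN]
    exact zmV_d F hP (v.y J F) ε ω κ
  have hP0 : (0 : ℝ) < 2 ^ v.P J := by positivity
  obtain ⟨B, b1, b2, b3⟩ := act_law F.isLaw (Z := phz F hP (v.y J F) ε)
    (α := fun ω => α ω + β ω * (N ω : ℝ) / 2 ^ v.P J) (β := fun ω => β ω / 2 ^ v.P J)
    (e := fun ω => (zmV F hP (v.y J F) ε).d ω κ) (X := ⌊x * v.R J⌋₊) hE hA0 (by
      intro ω ω' h1 h2 h3
      obtain ⟨c1, c2⟩ := hZ ω ω' h1 h2 h3
      have c3 : N ω = N ω' := by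
        rw [hN]
        exact (phz_ptr F hP (v.y J F) ε h3).2.2 κ
      simp only [c1, c2, c3]
      exact ⟨trivial, trivial⟩) (by
      intro ω hω
      have h1 := hrel ω hω
      have e1 : α ω + β ω * (N ω : ℝ) / 2 ^ v.P J + β ω / 2 ^ v.P J *
          (zmV F hP (v.y J F) ε).d ω κ = α ω + β ω * F.d ω (ε κ) := by
        rw [hd ω]
        field_simp
        ring
      rw [e1]
      exact h1) (by
      intro B₀ hB₀ hPB₀
      have h1 := hbig B₀ hB₀ hPB₀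
      have h2 : Real.log 9 < Real.log (2 * (3 + 2 : ℕ)) :=
        Real.log_lt_log (by norm_num) (by norm_num)
      exact h2.trans h1)
  refine ⟨B, b1, b2, fun ω hω => ?_⟩
  have h1 := b3 ω hω
  rw [abs_div, abs_of_pos hP0, div_le_iff₀ hP0] at h1
  have h2 : (2 : ℝ) ^ (⌊x * (v.R J : ℝ)⌋₊ + 1) ≤ 2 ^ (⌊x * (J : ℝ)⌋₊ + 1) := by
    refine pow_le_pow_right₀ (by norm_num) (Nat.add_le_add_right (Nat.floor_le_floor ?_) 1)
    refine mul_le_mul_of_nonneg_left ?_ hx.le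
    have : v.R J ≤ J := by unfold Vz.R; omega
    exact_mod_cast this
  calc |β ω| ≤ 2 ^ (⌊x * (v.R J : ℝ)⌋₊ + 1) * E * 2 ^ v.P J := h1
    _ = 2 ^ (⌊x * (v.R J : ℝ)⌋₊ + 1) * (2 ^ v.P J * E) := by ring
    _ ≤ 2 ^ (⌊x * (J : ℝ)⌋₊ + 1) * (2 ^ v.P J * E) :=
        mul_le_mul_of_nonneg_right h2 (by positivity)
    _ = _ := by ring

end Pool.OWN17
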