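import Pool.Agent.H17.COR.Cht
import Pool.Agent.H6.OWN.Her

/-!
# The charts of a class: attained labels and class data

`att_all`: the precisions of the labels affine in `u` are attained in a subclass, at countably many
good windows. `chd_root`: the charts at two windows as class functions.
-/

set_option autoImplicit false

namespace Pool.OWN17

open Finset Real MvPolynomial
open Pool.Agent.H49.Ent Pool.Agent.H32.Dense Pool.STK Pool.KA Pool.KSAT Pool.K2S Pool.PB Pool.S6C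
  Pool.GEN Pool.RCD Pool.LA91 Pool.MIC6
open Pool.GRD (LbP)

variable {m : ℕ}

/-- **The precisions of the labels are attained**, at countably many good windows. -/
theorem att_all {S : PCl m} (hS : S.Ne) {C₀ : ℝ} (hC₀ : 0 ≤ C₀) (htm : TmC S C₀)
    {L : Finset (Fin m) → Fin m → ℝ → ℝ → ℝ} (hL : LamW S L) {y u v : Fin m} (hyu : y ≠ u)
    (hact : ActF S y) {G : Set ℝ} (hG : G.Countable) (hGd : ∀ t ∈ G, Gdw L y u v t) :
    ∃ S' : PCl m, S'.Ne ∧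
      (∀ (τ : ℝ) (J : ℕ) (F : Fam m J) (A : F.Ω → Prop), S'.St τ J F A → S.St τ J F A) ∧
      ∀ t ∈ G, ∀ j ≤ 1, AttQ S' {y} u v j t (L {y, u} v t t) := by
  classical
  rcases G.eq_empty_or_nonempty with he | hne
  · exact ⟨S, hS, fun _ _ _ _ h => h, fun t ht => by
      rw [he] at ht
      exact ht.elim⟩
  obtain ⟨f, hf⟩ := hG.exists_eq_range hne
  obtain ⟨pr, hpr⟩ : ∃ pr : ℕ → ℕ × ℕ, Function.Surjective pr :=
    ⟨Nat.unpair, Nat.surjective_unpair⟩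
  obtain ⟨S', h1, h2, h3⟩ := her_sub hS (fun n J F A => 1 ≤ J ∧ ∃ b : LnT F → Fin 4 → ℝ,
      ChA F y u v ⌊f (pr n).1 * J⌋₊ ⌊(L {y, u} v (f (pr n).1) (f (pr n).1) -
        1 / ((pr n).2 + 1)) * J⌋₊ ⌊1 / ((pr n).2 + 1 : ℝ) * J⌋₊ b A)
    (fun n J F A B hB hA => ⟨hA.1, hA.2.imp fun b hb => hb.sub hB⟩) (fun n => by
      have ht : f (pr n).1 ∈ G := by
        rw [hf]
        exact ⟨_, rfl⟩
      refine ⟨25600, Bas.mono 1 (cht_cls hS hC₀ htm hL hyu hact (hGd _ ht)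
        (e := 1 / ((pr n).2 + 1)) (by positivity)) ?_⟩
      rintro J hJ F A ⟨a, b, B, q1, q2, -, -, q5⟩
      exact ⟨B, q1, q2, hJ, b, q5⟩)
  refine ⟨S', h1, h2, fun t ht j hj e he => ?_⟩
  rw [hf] at ht
  obtain ⟨i, rfl⟩ := ht
  obtain ⟨n₀, hn₀⟩ := exists_nat_ge (1 / e)
  obtain ⟨n, hn⟩ := hpr (i, n₀)
  have h4 := h3 n
  rw [hn] at h4
  simp only at h4
  have hGi : Gdw L y u v (f i) := hGd _ (by
    rw [hf]
    exact ⟨_, rfl⟩)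
  have hn1 : 1 / ((n₀ : ℝ) + 1) ≤ e := by
    rw [div_le_iff₀ (by positivity)]
    rw [div_le_iff₀ he] at hn₀
    nlinarith
  have hti : f i ≤ 1 := by
    have h5 := hGi.tU
    have h6 := hGi.U1
    linarith
  refine ⟨1, Bas.mono 0 h4 ?_⟩
  rintro J - F A ⟨hJ, b, hb⟩
  have hJ0 : (0 : ℝ) ≤ J := Nat.cast_nonneg J
  obtain ⟨z, hz⟩ := hb.lb
  have hW : ⌊f i * (J : ℝ)⌋₊ ≤ J := floor_le hti J
  refine ⟨_, z, b, cpl y u, fun c => c 3, ?_, fun c => cpl_afI hyu c, fun ω hω => ?_⟩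
  · have hz' := hz.mono (Finset.Subset.refl _) le_rfl (Nat.floor_le_floor
      (mul_le_mul_of_nonneg_right (by linarith : L {y, u} v (f i) (f i) - e ≤
        L {y, u} v (f i) (f i) - 1 / ((n₀ : ℝ) + 1)) hJ0))
    obtain ⟨D, hD⟩ : ∃ D, D = L {y, u} v (f i) (f i) := ⟨_, rfl⟩
    rw [← hD] at hz' ⊢
    rw [Finset.pair_comm] at hz'
    exact hz'
  · obtain ⟨M, hM⟩ : ∃ M, M = ⌊(L {y, u} v (f i) (f i) - 1 / ((n₀ : ℝ) + 1)) * (J : ℝ)⌋₊ :=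
      ⟨_, rfl⟩
    rw [← hM] at hb
    have e1 : (2 : ℝ) ^ (((1 : ℕ) : ℝ) * (J : ℝ)) = 2 ^ J := by
      rw [Nat.cast_one, one_mul, Real.rpow_natCast]
    rw [e1]
    have a2 : (1 : ℝ) ≤ 2 ^ J := one_le_pow₀ (by norm_num)
    have a3 : (1 : ℝ) ≤ 2 ^ M := one_le_pow₀ (by norm_num)
    rcases Nat.le_one_iff_eq_zero_or_eq_one.1 hj with rfl | rfl
    · rw [(cpl_ojet F y u v _ ω).1]
      refine (hb.pos ω hω).trans ?_
      rw [div_le_iff₀ (by positivity)]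
      nlinarith
    · rw [(cpl_ojet F y u v _ ω).2]
      refine (hb.vel ω hω).trans ?_
      rw [div_le_iff₀ (by positivity)]
      have a4 : (2 : ℝ) ^ ⌊f i * (J : ℝ)⌋₊ ≤ 2 ^ J := pow_le_pow_right₀ (by norm_num) hW
      nlinarith

/-- **The charts at one window as class functions.** -/
theorem cht_root {S : PCl m} (hS : S.Ne) {C₀ : ℝ} (hC₀ : 0 ≤ C₀) (htm : TmC S C₀)
    {L : Finset (Fin m) → Fin m → ℝ → ℝ → ℝ} (hL : LamW S L) {y u v : Fin m} (hyu : y ≠ u)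
    (hact : ActF S y) {t : ℝ} (hG : Gdw L y u v t) {e : ℝ} (he : 0 < e) (J₀ : ℕ) :
    ∃ (S' : PCl m) (a b : ∀ (J : ℕ) (F : Fam m J), LnT F → Fin 4 → ℝ), S'.Ne ∧
      (∀ (τ : ℝ) (J : ℕ) (F : Fam m J) (A : F.Ω → Prop), S'.St τ J F A → S.St τ J F A) ∧
      ∀ (τ : ℝ) (J : ℕ) (F : Fam m J) (A : F.Ω → Prop), S'.St τ J F A → J₀ ≤ J ∧
        ChA F y y u ⌊t * J⌋₊ ⌊(L {y} u t t - e) * J⌋₊ ⌊e * J⌋₊ (a J F) A ∧
        (∀ s, a J F s 3 = 0) ∧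
        ChA F y u v ⌊t * J⌋₊ ⌊(L {y, u} v t t - e) * J⌋₊ ⌊e * J⌋₊ (b J F) A := by
  classical
  obtain ⟨Q, hQ⟩ : ∃ Q : ∀ (J : ℕ) (F : Fam m J), (LnT F → Fin 4 → ℝ) × (LnT F → Fin 4 → ℝ) →
      (F.Ω → Prop) → Prop, Q = fun J F d A => J₀ ≤ J ∧
      ChA F y y u ⌊t * J⌋₊ ⌊(L {y} u t t - e) * J⌋₊ ⌊e * J⌋₊ d.1 A ∧ (∀ s, d.1 s 3 = 0) ∧
      ChA F y u v ⌊t * J⌋₊ ⌊(L {y, u} v t t - e) * J⌋₊ ⌊e * J⌋₊ d.2 A := ⟨_, rfl⟩
  have hne : ∀ (J : ℕ) (F : Fam m J), Nonempty ((LnT F → Fin 4 → ℝ) × (LnT F → Fin 4 → ℝ)) :=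
    fun J F => ⟨(fun _ _ => 0, fun _ _ => 0)⟩
  obtain ⟨S', d, h1, h2, h3⟩ := root_fix (C := 25600) hS Q (by
      intro J F d A B hA hB
      rw [hQ] at hA ⊢
      exact ⟨hA.1, hA.2.1.sub hB, hA.2.2.1, hA.2.2.2.sub hB⟩) (by
      refine Bas.mono J₀ (cht_cls hS hC₀ htm hL hyu hact hG he) ?_
      rintro J hJ F A ⟨a, b, B, q1, q2, q3, q4, q5⟩
      rw [hQ]
      exact ⟨(a, b), B, q1, q2, hJ, q3, q4, q5⟩)
  rw [hQ] at h3
  exact ⟨S', fun J F => (d J F).1, fun J F => (d J F).2, h1, h2, fun τ J F A hA =>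
    h3 τ J F A hA⟩

end Pool.OWN17
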