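import Pool.Agent.H17.COR.Root

/-!
# Bad events of a class

`bad_root`: if no event of a class is bad, then in a nonempty subclass no sample is bad.
-/

set_option autoImplicit false

namespace Pool.OWN17

open Finset Real
open Pool.Agent.H49.Ent Pool.Agent.H32.Dense Pool.STK Pool.KA Pool.KSAT Pool.K2S Pool.PB Pool.S6C
  Pool.GEN

variable {m : ℕ}

/-- **No bad samples**: if no event of the class consists of bad samples, then a nonempty subclass
has no bad samples. -/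
theorem bad_root {S : PCl m} (hS : S.Ne)
    (hpos : ∀ (τ : ℝ) (J : ℕ) (F : Fam m J) (A : F.Ω → Prop), S.St τ J F A → 0 < Pe F.p A)
    (Bad : ∀ (J : ℕ) (F : Fam m J), F.Ω → Prop)
    (h : Bas S (fun J F A => ¬ ∀ ω, A ω → Bad J F ω)) :
    ∃ S' : PCl m, S'.Ne ∧
      (∀ (τ : ℝ) (J : ℕ) (F : Fam m J) (A : F.Ω → Prop), S'.St τ J F A → S.St τ J F A) ∧
      ∀ (τ : ℝ) (J : ℕ) (F : Fam m J) (A : F.Ω → Prop), S'.St τ J F A → ∀ ω, A ω → ¬ Bad J F ω := by
  classical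
  obtain ⟨S', -, h1, h2, h3⟩ := root_fix (Δ := fun _ _ => Unit) (C := 2) hS
    (fun J F _ A => ∀ ω, A ω → ¬ Bad J F ω) (fun J F _ A B hA hB ω hω => hA ω (hB ω hω)) (by
    obtain ⟨τ, hτ, J₁, hb⟩ := h
    obtain ⟨J₂, hJ₂⟩ := exp_small' (half_pos hτ) (by norm_num : (1 : ℝ) ≤ 2)
    refine ⟨τ / 2, half_pos hτ, max J₁ J₂, fun J hJ F A hA => ⟨(), fun ω => A ω ∧ ¬ Bad J F ω,
      fun ω hω => hω.1, ?_, fun ω hω => hω.2⟩⟩
    have hA0 := hpos _ J F A hA
    have j1 : J₁ ≤ J := (le_max_left _ _).trans hJ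
    have j2 : J₂ ≤ J := (le_max_right _ _).trans hJ
    have e1 := hJ₂ J j2
    have hsum : Pe F.p A ≤ Pe F.p (fun ω => A ω ∧ Bad J F ω) +
        Pe F.p (fun ω => A ω ∧ ¬ Bad J F ω) := by
      refine Pe_or F.isLaw fun ω hω => ?_
      by_cases hb : Bad J F ω
      · exact Or.inl ⟨hω, hb⟩
      · exact Or.inr ⟨hω, hb⟩
    by_contra hcon
    push Not at hcon
    have h5 : Real.exp (-(τ / 2 * J)) * Pe F.p A ≤ Pe F.p (fun ω => A ω ∧ Bad J F ω) := by
      have : Real.exp (-(τ / 2 * J)) * Pe F.p A ≤ 1 / 2 * Pe F.p A :=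
        mul_le_mul_of_nonneg_right e1 hA0.le
      linarith
    have h6 := S.res (half_pos hτ).le hA (B := fun ω => A ω ∧ Bad J F ω) (fun ω hω => hω.1) h5
    rw [add_halves] at h6
    exact hb J j1 F _ h6 fun ω hω => hω.2)
  exact ⟨S', h1, h2, h3⟩

end Pool.OWN17
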