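import Pool.Agent.H17.COR.Qlin

/-!
# The numbers of a box

`BoxR`: the windows of a box and the inequalities of their numbers; `h` bounds all small errors.
-/

set_option autoImplicit false

namespace Pool.OWN17

open Set

/-- **The numbers of a box**: `q (tX j)` are the windows of the positions, `q (tD k)` the windows of
the velocities, `q iO` is the deep window, `b₁ < b₂` are the windows of the tubes. The upper bound at
the place `k` is used for `ρ k` steps. -/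
structure BoxR {ι : Type} (U D : ℚ → ℝ) (A B s lam : ℝ) (mp N : ℕ) (n γ ρ : ℕ → ℕ) (τ β h : ℝ)
    (g : ℚ) (q : ι → ℚ) (tX tD : ℕ → ι) (iO : ι) (q₁ : ℚ) (b₁ b₂ : ℝ) (θJ θD : ι → ι → ℝ) :
    Prop where
  β0 : 0 < β
  h0 : 0 < h
  hβ : 1000 * h ≤ β
  g0 : -h ≤ g
  qAB : ∀ i, A < q i ∧ (q i : ℝ) < B
  q1B : (q₁ : ℝ) < B
  Wb : (q (tX 0) : ℝ) + s < b₁
  bb : b₁ < b₂
  b2 : b₂ < q₁ + s
  nN : ∀ k ≤ mp, n k + γ k ≤ N ∧ n k + ρ k ≤ N
  XO : ∀ j ≤ N, tX j ≠ iO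
  mX : ∀ j j', j ≤ j' → j' ≤ N → q (tX j) ≤ q (tX j')
  mW : ∀ i, q (tX 0) ≤ q i
  mO : ∀ i, q i ≤ q iO
  mD : ∀ k ≤ mp, q (tX (n k + γ k)) ≤ q (tD k) ∧ q (tX (n k + ρ k)) ≤ q (tD k)
  aX : ∀ j ≤ N, |U (q (tX j)) - (U (q (tX 0)) + j * β)| ≤ h
  aD : ∀ k ≤ mp, |U (q (tD k)) - (q (tD k) + s) - (U (q (tX 0)) + n k * β - b₁)| ≤ h ∧
    |U (q (tD k)) - (q (tD k) + s) - (U (q (tX 0)) + n k * β - b₂)| ≤ h
  aO : U (q (tX 0)) - (q (tX 0) + s) + N * β + 60 * h ≤ U (q iO) - (q iO + s)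
  u1 : U q₁ ≤ U (q (tX 0)) + h
  d1 : D q₁ ≤ U (q (tX 0)) + g + h
  gc : ∀ i j, q i ≤ q j → GC U D g (q i) (q j)
  cl : ∀ i j, q i ≤ q j → U (q j) < U (q i) + min lam (1 - ((q j : ℝ) + s))
  lamN : N * β + h < lam
  one : U (q (tX 0)) + g + 2 * N * β + 100 * h < 1
  b2N : b₂ + N * β + 20 * h < 1
  ub : b₂ + 100 * h ≤ U (q (tX 0))
  addJ : ∀ i j k, q i ≤ q j → q j ≤ q k → |θJ i k - θJ i j - θJ j k| ≤ h
  addD : ∀ i j k, q i ≤ q j → q j ≤ q k → |θD i k - θD i j - θD j k| ≤ h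
  upp : ∀ j j', j ≤ j' → j' ≤ N → θJ (tX j) (tX j') - θD (tX j) (tX j') ≤
    (2 - τ) * (((j' : ℝ) - j) * β * Real.log 2) + h
  low : (2 - τ) * ((γ mp : ℝ) * β * Real.log 2) - h ≤
    θJ (tX (n mp)) (tX (n mp + γ mp)) - θD (tX (n mp)) (tX (n mp + γ mp))

/-- The indices of the windows of a box. -/
abbrev Bix (mp N : ℕ) : Type := Fin (N + 1) ⊕ Option (Fin (mp + 1))

/-- The windows of the positions. -/
def bX (mp N : ℕ) (j : ℕ) : Bix mp N := Sum.inl ⟨min j N, by omega⟩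

/-- The windows of the velocities. -/
def bD (mp N : ℕ) (k : ℕ) : Bix mp N := Sum.inr (some ⟨min k mp, by omega⟩)

/-- The deep window. -/
def bO (mp N : ℕ) : Bix mp N := Sum.inr none

end Pool.OWN17
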