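import Pool.Agent.H17.COR.Root
import Pool.Agent.H91.LA.Num
import Pool.Agent.H92.GN.Vis

/-!
# The maximal records of a class as class functions

`mx_root`: for finitely many windows there are functions of the line in the window, the same for all
events of a nonempty subclass, which are closed, maximal up to `h J`, and exactly nested.
-/

set_option autoImplicit false

namespace Pool.OWN17

open Finset Real
open Pool.Agent.H49.Ent Pool.Agent.H32.Dense Pool.STK Pool.KA Pool.KSAT Pool.K2S Pool.PB Pool.S6C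
  Pool.GEN Pool.RCD Pool.LA91

variable {m : ℕ}

/-- **Maximal records as class functions.** -/
theorem mx_root {S : PCl m} (hS : S.Ne)
    (hpos : ∀ (τ : ℝ) (J : ℕ) (F : Fam m J) (A : F.Ω → Prop), S.St τ J F A → 0 < Pe F.p A)
    {ι : Type} [Finite ι] {α : ∀ J : ℕ, Fam m J → Type}
    (f : ∀ (J : ℕ) (F : Fam m J), F.Ω → α J F) (x : ι → ℝ) (hx1 : ∀ i, x i ≤ 1) {η : ι → ℝ}
    (hη : ∀ i, RNum S f (vg (x i)) (η i)) {h : ℝ} (hh : 0 < h) :
    ∃ (S' : PCl m) (V : ∀ (J : ℕ), Fam m J → Type) (z : ∀ (J : ℕ) (F : Fam m J), ι → LnT F → V J F),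
      S'.Ne ∧
      (∀ (τ : ℝ) (J : ℕ) (F : Fam m J) (A : F.Ω → Prop), S'.St τ J F A → S.St τ J F A) ∧
      (∀ (τ : ℝ) (J : ℕ) (F : Fam m J) (A : F.Ω → Prop), S'.St τ J F A → ∀ i,
        Cl2 (f J F) (vg (x i) J F) A (fun ω => z J F i (vg (x i) J F ω))) ∧
      (∀ (J : ℕ) (F : Fam m J) (i j : ι), x i ≤ x j → ∀ ω ω' : F.Ω,
        z J F j (vg (x j) J F ω) = z J F j (vg (x j) J F ω') →
        z J F i (vg (x i) J F ω) = z J F i (vg (x i) J F ω')) ∧
      Bas S' (fun J F A => ∀ i, Mx f (vg (x i)) h F A (fun ω => z J F i (vg (x i) J F ω))) := by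
  classical
  obtain ⟨Δ, hΔ⟩ : ∃ Δ : ∀ J : ℕ, Fam m J → Type 1, Δ = fun J F => ι → Σ V : Type, (LnT F → V) :=
    ⟨_, rfl⟩
  subst hΔ
  obtain ⟨Q, hQ⟩ : ∃ Q : ∀ (J : ℕ) (F : Fam m J), (ι → Σ V : Type, (LnT F → V)) → (F.Ω → Prop) →
      Prop, Q = fun J F d A => ∀ i, Cl2 (f J F) (vg (x i) J F) A
        (fun ω => (d i).2 (vg (x i) J F ω)) ∧
        ∀ v, (cnt F.p (f J F) (fun ω => A ω ∧ (d i).2 (vg (x i) J F ω) = v) : ℝ) ≤
          Real.exp (-((-η i - h / 2) * J)) := ⟨_, rfl⟩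
  have hne : ∀ (J : ℕ) (F : Fam m J), Nonempty (ι → Σ V : Type, (LnT F → V)) := fun J F =>
    ⟨fun _ => ⟨Unit, fun _ => ()⟩⟩
  obtain ⟨S', d, hS', hsub, hd⟩ := root_fix (C := 1) hS Q (by
    intro J F d A B hA hB
    rw [hQ] at hA ⊢
    intro i
    obtain ⟨h1, h2⟩ := hA i
    refine ⟨h1.sub hB, fun v => le_trans ?_ (h2 v)⟩
    have h3 : Sub (fun ω => B ω ∧ (d i).2 (vg (x i) J F ω) = v)
        (fun ω => A ω ∧ (d i).2 (vg (x i) J F ω) = v) := fun ω hω => ⟨hB ω hω.1, hω.2⟩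
    exact_mod_cast cnt_mono F.p (f J F) h3) (by
    refine Bas.mono 0 (Bas.fin' fun i => (hη i).at' (h / 2) (half_pos hh)) ?_
    rintro J - F A hA
    choose V z hz hc using hA
    have hz2 : ∀ i, ∃ ψ : LnT F → V i, ∀ ω, A ω → z i ω = ψ (vg (x i) J F ω) := fun i => (hz i).2
    choose ψ hψ using hz2
    refine ⟨fun i => ⟨V i, ψ i⟩, A, fun _ h => h, (one_mul _).ge, ?_⟩
    rw [hQ]
    intro i
    refine ⟨(hz i).congr fun ω hω => (hψ i ω hω).symm, fun v => ?_⟩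
    have e1 : (fun ω => A ω ∧ ψ i (vg (x i) J F ω) = v) = fun ω => A ω ∧ z i ω = v := by
      funext ω
      refine propext ⟨fun h => ⟨h.1, ?_⟩, fun h => ⟨h.1, ?_⟩⟩
      · rw [hψ i ω h.1]
        exact h.2
      · rw [← hψ i ω h.1]
        exact h.2
    show (cnt F.p (f J F) (fun ω => A ω ∧ ψ i (vg (x i) J F ω) = v) : ℝ) ≤ _
    rw [e1]
    have h5 := hc i v
    have e2 : -η i - h / 2 = -η i - h / 2 := rfl
    exact h5)
  -- the nested records
  obtain ⟨V, hV⟩ : ∃ V : ∀ (J : ℕ), Fam m J → Type, V = fun J F => ∀ j : ι, Option (d J F j).1 :=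
    ⟨_, rfl⟩
  subst hV
  obtain ⟨cr, hcr⟩ : ∃ cr : ∀ (J : ℕ) (F : Fam m J) (i j : ι), LnT F → LnT F,
    cr = fun (J : ℕ) (F : Fam m J) (i j : ι) (s : LnT F) =>
    (s.1, s.2.1, s.2.2 / 2 ^ (⌊x i * J⌋₊ - ⌊x j * J⌋₊)) := ⟨_, rfl⟩
  have hcr' : ∀ (J : ℕ) (F : Fam m J) (i j : ι), x j ≤ x i → ∀ ω, cr J F i j (vg (x i) J F ω) =
      vg (x j) J F ω := by
    intro J F i j hij ω
    rw [hcr]
    exact (slam_coarse F (Nat.floor_le_floor (mul_le_mul_of_nonneg_right hij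
      (Nat.cast_nonneg (α := ℝ) J))) (floor_le (hx1 i) J) ω).symm
  refine ⟨S', _, fun J F i s j => if x j ≤ x i then some ((d J F j).2 (cr J F i j s)) else none,
    hS', hsub, ?_, ?_, ?_⟩
  · intro τ J F A hA i
    have h1 := hd τ J F A hA
    rw [hQ] at h1
    refine Cl2.pi fun j => ?_
    by_cases hj : x j ≤ x i
    · simp only [hj, if_true]
      have h2 := ((h1 j).1).comp (fun v => some v)
      obtain ⟨φ, hφ⟩ := vg_mono hj (hx1 i) J F
      refine (h2.mono ⟨id, fun _ _ => rfl⟩ ⟨φ, fun ω _ => hφ ω⟩).congr fun ω _ => ?_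
      rw [hcr' J F i j hj ω]
    · simp only [hj, if_false]
      exact ⟨⟨fun _ => none, fun _ _ => rfl⟩, fun _ => none, fun _ _ => rfl⟩
  · intro J F i j hij ω ω' hh
    funext l
    have h1 := congrFun hh l
    by_cases hl : x l ≤ x i
    · have hl' := hl.trans hij
      simp only [hl, hl', if_true] at h1 ⊢
      rw [hcr' J F j l hl' ω, hcr' J F j l hl' ω'] at h1
      rw [hcr' J F i l hl ω, hcr' J F i l hl ω']
      exact h1
    · simp only [hl, if_false]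
  · have hmax := fun i => (hη i).max hpos h hh
    choose κ hκ hm using hmax
    have hS'b : Bas S' (fun J F A => Q J F (d J F) A) := ⟨1, one_pos, 0, fun J _ F A hA =>
      hd 1 J F A hA⟩
    refine Bas.mono 0 (hS'b.and (Bas.sub hsub (Bas.fin' hm))) ?_
    rintro J - F A ⟨h1, h2⟩ i
    rw [hQ] at h1
    have hJ0 : (0 : ℝ) ≤ J := Nat.cast_nonneg J
    obtain ⟨k1, k2⟩ := h1 i
    have k3 : Real.exp (-(κ i * J)) * Pe F.p A ≤ Pe F.p A := by
      have : Real.exp (-(κ i * J)) ≤ 1 := by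
        rw [Real.exp_le_one_iff]
        have := mul_nonneg (hκ i).le hJ0
        linarith
      exact mul_le_of_le_one_left (Pe_nonneg F.isLaw A) this
    obtain ⟨k4, -, k5⟩ := h2 i _ (fun ω => (d J F i).2 (vg (x i) J F ω)) k1 k2 A (fun _ h => h) k3
    have hcl := isLaw_cond F.isLaw k4
    refine ⟨?_, fun V' z' hz' => ?_⟩
    · refine Cl2.pi fun j => ?_
      by_cases hj : x j ≤ x i
      · simp only [hj, if_true]
        have h2 := ((h1 j).1).comp (fun v => some v)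
        obtain ⟨φ, hφ⟩ := vg_mono hj (hx1 i) J F
        refine (h2.mono ⟨id, fun _ _ => rfl⟩ ⟨φ, fun ω _ => hφ ω⟩).congr fun ω _ => ?_
        rw [hcr' J F i j hj ω]
      · simp only [hj, if_false]
        exact ⟨⟨fun _ => none, fun _ _ => rfl⟩, fun _ => none, fun _ _ => rfl⟩
    · refine le_trans (CH_mono_cond hcl.nonneg ?_) (k5 V' z' hz').2
      intro a a' _ _ hh
      have h3 := congrFun hh i
      simp only [le_refl, if_true] at h3
      rw [hcr' J F i i le_rfl a, hcr' J F i i le_rfl a'] at h3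
      exact Option.some_injective _ h3

end Pool.OWN17
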