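import Pool.Agent.H17.COR.Evt2
import Pool.Agent.H17.COR.Bxr
import Pool.Agent.H17.COR.Mxc

/-!
# The charts and the records of a box

`fl_ev`: sums of floors. `box_data`: charts, records, digits of the box on all events of a subclass.
-/

set_option autoImplicit false

namespace Pool.OWN17

open Finset Real MvPolynomial Filter Topology
open Pool.Agent.H49.Ent Pool.Agent.H32.Dense Pool.STK Pool.KA Pool.KSAT Pool.K2S Pool.PB Pool.S6C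
  Pool.GEN Pool.RCD Pool.LA91 Pool.MIC6
open Pool.GRD (LbP)

variable {m : ℕ}

theorem ge_ev (C : ℝ) {h : ℝ} (hh : 0 < h) : ∀ᶠ J : ℕ in atTop, C ≤ h * J := by
  obtain ⟨J₀, hJ₀⟩ := exists_nat_ge (C / h)
  filter_upwards [eventually_ge_atTop J₀] with J hJ
  have h1 : (J₀ : ℝ) ≤ J := by exact_mod_cast hJ
  have h2 := hJ₀.trans h1
  rw [div_le_iff₀ hh] at h2
  linarith

theorem fl_up (J : ℕ) (l : List (ℕ × ℝ)) (hl : ∀ a ∈ l, 0 ≤ a.2) :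
    (((l.map fun a => a.1 * ⌊a.2 * (J : ℝ)⌋₊).sum : ℕ) : ℝ) ≤
      (l.map fun a => (a.1 : ℝ) * a.2).sum * J := by
  have hJ0 : (0 : ℝ) ≤ J := Nat.cast_nonneg J
  induction l with
  | nil => simp
  | cons a l ih =>
    have h1 := ih (fun b hb => hl b (List.mem_cons_of_mem _ hb))
    have h2 : (⌊a.2 * (J : ℝ)⌋₊ : ℝ) ≤ a.2 * J :=
      Nat.floor_le (mul_nonneg (hl a (List.mem_cons_self ..)) hJ0)
    have h3 := mul_le_mul_of_nonneg_left h2 (Nat.cast_nonneg (α := ℝ) a.1)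
    simp only [List.map_cons, List.sum_cons, Nat.cast_add, Nat.cast_mul]
    linarith

theorem fl_lo (J : ℕ) (r : List (ℕ × ℝ)) :
    (r.map fun a => (a.1 : ℝ) * a.2).sum * J - (r.map fun a => (a.1 : ℝ)).sum ≤
      (((r.map fun a => a.1 * ⌊a.2 * (J : ℝ)⌋₊).sum : ℕ) : ℝ) := by
  induction r with
  | nil => simp
  | cons a l ih =>
    have h2 : a.2 * (J : ℝ) - 1 < (⌊a.2 * (J : ℝ)⌋₊ : ℝ) := Nat.sub_one_lt_floor _
    have h3 := mul_le_mul_of_nonneg_left h2.le (Nat.cast_nonneg (α := ℝ) a.1)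
    simp only [List.map_cons, List.sum_cons, Nat.cast_add, Nat.cast_mul]
    linarith

/-- **Sums of floors.** -/
theorem fl_ev (l r : List (ℕ × ℝ)) (k : ℕ) (hl : ∀ a ∈ l, 0 ≤ a.2)
    (h : (l.map fun a => (a.1 : ℝ) * a.2).sum < (r.map fun a => (a.1 : ℝ) * a.2).sum) :
    ∀ᶠ J : ℕ in atTop, (l.map fun a => a.1 * ⌊a.2 * (J : ℝ)⌋₊).sum + k ≤
      (r.map fun a => a.1 * ⌊a.2 * (J : ℝ)⌋₊).sum := by
  filter_upwards [ge_ev (k + (r.map fun a => (a.1 : ℝ)).sum) (sub_pos.2 h)] with J hJ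
  have h1 := fl_up J l hl
  have h2 := fl_lo J r
  rw [sub_mul] at hJ
  have h3 : (((l.map fun a => a.1 * ⌊a.2 * (J : ℝ)⌋₊).sum + k : ℕ) : ℝ) ≤
      (((r.map fun a => a.1 * ⌊a.2 * (J : ℝ)⌋₊).sum : ℕ) : ℝ) := by
    rw [Nat.cast_add]
    linarith
  exact_mod_cast h3

theorem fl_one' (J : ℕ) : ⌊(1 : ℝ) * J⌋₊ = J := by rw [one_mul, Nat.floor_natCast]

section

variable {ι : Type} {U D : ℚ → ℝ} {A B s lam τ β h : ℝ} {mp N : ℕ} {n γ ρ : ℕ → ℕ} {g : ℚ}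
  {q : ι → ℚ} {tX tD : ℕ → ι} {iO : ι} {q₁ : ℚ} {b₁ b₂ : ℝ} {θJ θD : ι → ι → ℝ}

theorem BoxR.gD (R : BoxR U D A B s lam mp N n γ ρ τ β h g q tX tD iO q₁ b₁ b₂ θJ θD) (i : ι) :
    g + U (q i) ≤ D (q i) := (R.gc i i le_rfl).last

theorem BoxR.nNβ (R : BoxR U D A B s lam mp N n γ ρ τ β h g q tX tD iO q₁ b₁ b₂ θJ θD) {k : ℕ}
    (hk : k ≤ mp) : ((n k : ℝ) + γ k) * β ≤ N * β ∧ ((n k : ℝ) + ρ k) * β ≤ N * β := by
  obtain ⟨h1, h2⟩ := R.nN k hk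
  have h1' : (n k : ℝ) + γ k ≤ N := by exact_mod_cast h1
  have h2' : (n k : ℝ) + ρ k ≤ N := by exact_mod_cast h2
  exact ⟨mul_le_mul_of_nonneg_right h1' R.β0.le, mul_le_mul_of_nonneg_right h2' R.β0.le⟩

end

/-- **The charts and the records of a box.** -/
theorem box_data {S : PCl m} (hS : S.Ne) {C₀ : ℝ} (hC₀ : 0 ≤ C₀) (htm : TmC S C₀)
    (hpos : ∀ (τ : ℝ) (J : ℕ) (F : Fam m J) (A : F.Ω → Prop), S.St τ J F A → 0 < Pe F.p A)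
    {L : Finset (Fin m) → Fin m → ℝ → ℝ → ℝ} (hL : LamW S L) {y u v : Fin m} (hyu : y ≠ u)
    (hact : ActF S y) {G : Set ℚ} {s : ℝ} {U D : ℚ → ℝ} (H : WinG S {y} u v G s U D) {A B : ℝ}
    (hG : ∀ q : ℚ, A < q → (q : ℝ) < B → q ∈ G)
    (hUL : ∀ q ∈ G, U q = L {y} u ((q : ℝ) + s) ((q : ℝ) + s))
    (hDL : ∀ q ∈ G, D q = L {y, u} v ((q : ℝ) + s) ((q : ℝ) + s))
    (hGd : ∀ q ∈ G, Gdw L y u v ((q : ℝ) + s))
    (hη : ∀ q ∈ G, ∃ η, RNum S (fun J F => ptr F J) (vg ((q : ℝ) + s)) η)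
    {ι : Type} [Finite ι] [Nonempty ι] {lam τ β h : ℝ} {mp N : ℕ} {n γ ρ : ℕ → ℕ} {g : ℚ}
    {q : ι → ℚ} {tX tD : ℕ → ι} {iO : ι} {q₁ : ℚ} {b₁ b₂ : ℝ} {θJ θD : ι → ι → ℝ}
    (R : BoxR U D A B s lam mp N n γ ρ τ β h g q tX tD iO q₁ b₁ b₂ θJ θD) {x : ι → ℝ}
    (hx : ∀ i, x i = (q i : ℝ) + s) :
    ∃ e₀ : ℝ, 0 < e₀ ∧ ∀ e : ℝ, 0 < e → e ≤ e₀ → ∀ kM : ℝ, 0 < kM → ∀ J₀ : ℕ,
      ∃ (S' : PCl m) (a b : ι → ∀ (J : ℕ) (F : Fam m J), LnT F → Fin 4 → ℝ)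
        (V : ∀ J : ℕ, Fam m J → Type) (z : ∀ (J : ℕ) (F : Fam m J), ι → LnT F → V J F), S'.Ne ∧
        (∀ (τ : ℝ) (J : ℕ) (F : Fam m J) (A : F.Ω → Prop), S'.St τ J F A → S.St τ J F A) ∧
        (∀ (J : ℕ) (F : Fam m J) (i j : ι), x i ≤ x j → ∀ ω ω' : F.Ω,
          z J F j (slam F ⌊x j * J⌋₊ ω) = z J F j (slam F ⌊x j * J⌋₊ ω') →
          z J F i (slam F ⌊x i * J⌋₊ ω) = z J F i (slam F ⌊x i * J⌋₊ ω')) ∧
        (∀ (τ : ℝ) (J : ℕ) (F : Fam m J) (A : F.Ω → Prop), S'.St τ J F A → J₀ ≤ J ∧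
          (∀ i, ChA F y y u ⌊x i * J⌋₊ ⌊(U (q i) - e) * J⌋₊ ⌊e * J⌋₊ (a i J F) A ∧
            (∀ s, a i J F s 3 = 0) ∧
            ChA F y u v ⌊x i * J⌋₊ ⌊(D (q i) - e) * J⌋₊ ⌊e * J⌋₊ (b i J F) A) ∧
          Chq F ⌊x (tX 0) * J⌋₊ ⌊x iO * J⌋₊ ⌊x (tX 0) * J⌋₊ ⌊(U (q (tX 0)) - h) * J⌋₊
            ⌊(U (q (tX 0)) + g - 2 * h) * J⌋₊ 1 (a (tX 0) J F) (b (tX 0) J F) (a iO J F)
            (b iO J F) A ∧
          (∀ i, Cl2 (ptr F J) (vg (x i) J F) A (fun ω => z J F i (slam F ⌊x i * J⌋₊ ω))) ∧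
          (∀ ω ω', A ω → A ω' → ptr F J ω = ptr F J ω' →
            ⌊(2 : ℝ) ^ (⌊(U (q (tX 0)) - h) * J⌋₊ + (n mp * ⌊β * J⌋₊ + γ mp * ⌊β * J⌋₊)) *
              oh F y y u (a (tX 0) J F (slam F ⌊x (tX 0) * J⌋₊ ω)) ω⌋ =
            ⌊(2 : ℝ) ^ (⌊(U (q (tX 0)) - h) * J⌋₊ + (n mp * ⌊β * J⌋₊ + γ mp * ⌊β * J⌋₊)) *
              oh F y y u (a (tX 0) J F (slam F ⌊x (tX 0) * J⌋₊ ω')) ω'⌋) ∧
          (∀ ω ω', A ω → A ω' → ptr F J ω = ptr F J ω' →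
            ⌊(2 : ℝ) ^ (⌊(U (q (tX 0)) + g - 2 * h) * J⌋₊ + (n mp * ⌊β * J⌋₊ +
              γ mp * ⌊β * J⌋₊)) *
              oh F y u v (b (tX 0) J F (slam F ⌊x (tX 0) * J⌋₊ ω)) ω⌋ =
            ⌊(2 : ℝ) ^ (⌊(U (q (tX 0)) + g - 2 * h) * J⌋₊ + (n mp * ⌊β * J⌋₊ +
              γ mp * ⌊β * J⌋₊)) *
              oh F y u v (b (tX 0) J F (slam F ⌊x (tX 0) * J⌋₊ ω')) ω'⌋)) ∧
        Bas S' (fun J F A => ∀ i, Mx (fun J F => ptr F J) (vg (x i)) kM F A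
          (fun ω => z J F i (slam F ⌊x i * J⌋₊ ω))) := by
  classical
  have hGi : ∀ i, q i ∈ G := fun i => hG _ (R.qAB i).1 (R.qAB i).2
  have hUi : ∀ i, L {y} u (x i) (x i) = U (q i) := fun i => by rw [hx, hUL _ (hGi i)]
  have hDi : ∀ i, L {y, u} v (x i) (x i) = D (q i) := fun i => by rw [hx, hDL _ (hGi i)]
  obtain ⟨U₀, hU₀⟩ : ∃ U₀, U₀ = U (q (tX 0)) := ⟨_, rfl⟩
  have h0 := R.h0
  have hβ0 := R.β0
  have hβh := R.hβ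
  have hg0 : -h ≤ (g : ℝ) := R.g0
  have hone := R.one
  have hub := R.ub
  have hWb := R.Wb
  have hbb := R.bb
  have haO := R.aO
  rw [← hU₀] at hone hub haO
  have hNβ : 0 ≤ N * β := by positivity
  have hW0 : 0 < x (tX 0) := by rw [hx]; exact H.w0 _ (hGi _)
  have hxW : x (tX 0) = (q (tX 0) : ℝ) + s := hx _
  have hxO : x iO = (q iO : ℝ) + s := hx _
  have hWO : x (tX 0) ≤ x iO := by
    rw [hxW, hxO]
    have : (q (tX 0) : ℝ) ≤ q iO := by exact_mod_cast R.mW iO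
    linarith
  -- the slopes
  have hslo : SloN S (RL m {y} u v (x (tX 0)) (U₀ + g)) (RL m {y} u v (x iO) (U (q iO) + g)) g := by
    rw [hxW, hxO, hU₀]
    exact H.chain htm hG (R.gc (tX 0) iO (R.mW iO)) (R.qAB _).1 (R.qAB _).2
  obtain ⟨e₁, he₁, hq⟩ := chq_root htm hyu hact (W := x (tX 0)) (O := x iO) (U₀ := U₀)
    (U₁ := U (q iO)) (D₀ := D (q (tX 0))) (D₁ := D (q iO)) (g := g) (ε := h) hslo hW0.le hWO
    (by rw [hxW]; linarith) (by rw [hxW]; linarith) (by rw [hxW, hxO]; linarith)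
    (by have := R.gD (tX 0); rw [hU₀]; linarith) (by have := R.gD iO; linarith) h0
  refine ⟨min e₁ h, lt_min he₁ h0, fun e he hee kM hkM J₀ => ?_⟩
  have ee1 : e ≤ e₁ := hee.trans (min_le_left _ _)
  have ee2 : e ≤ h := hee.trans (min_le_right _ _)
  -- the charts
  obtain ⟨S₁, a, b, hS₁, sub₁, hch₁⟩ := cht_all hS hC₀ htm hL (y := y) (u := u) (v := v) hyu hact
    (x := x) (fun i => by rw [hx]; exact hGd _ (hGi i)) he J₀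
  simp only [hUi, hDi] at hch₁
  have hpos₁ : ∀ (τ : ℝ) (J : ℕ) (F : Fam m J) (A : F.Ω → Prop), S₁.St τ J F A → 0 < Pe F.p A :=
    fun τ J F A h => hpos τ J F A (sub₁ τ J F A h)
  -- the records
  choose η hη' using fun i => hη (q i) (hGi i)
  obtain ⟨S₂, V, z, hS₂, sub₂, hz1, hz2, hz3⟩ := mx_root hS₁ hpos₁ (fun J F => ptr F J) x
    (fun i => by rw [hx]; exact (H.w1 _ (hGi i)).le) (η := η)
    (fun i => by rw [hx]; exact (hη' i).sub sub₁) hkM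
  have sub₂₀ : ∀ (τ : ℝ) (J : ℕ) (F : Fam m J) (A : F.Ω → Prop), S₂.St τ J F A → S.St τ J F A :=
    fun τ J F A h => sub₁ τ J F A (sub₂ τ J F A h)
  -- the charts are near
  obtain ⟨S₃, hS₃, sub₃, hq₃⟩ := hq e he ee1 S₂ hS₂ sub₂₀ (a (tX 0)) (b (tX 0)) (a iO) (b iO)
    (fun τ J F A hA => by
      have h1 := (hch₁ τ J F A (sub₂ τ J F A hA)).2
      rw [hU₀]
      exact ⟨(h1 (tX 0)).1, (h1 (tX 0)).2.1, (h1 (tX 0)).2.2, (h1 iO).1, (h1 iO).2.1,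
        (h1 iO).2.2⟩) J₀
  have sub₃₁ : ∀ (τ : ℝ) (J : ℕ) (F : Fam m J) (A : F.Ω → Prop), S₃.St τ J F A → S₁.St τ J F A :=
    fun τ J F A h => sub₂ τ J F A (sub₃ τ J F A h)
  -- the digits
  obtain ⟨hnN1, -⟩ := R.nNβ (k := mp) le_rfl
  obtain ⟨J₁, hJ₁⟩ := (fl_ev [(1, U₀ - h), (n mp, β), (γ mp, β), (1, e)] [(1, 1)] 2
    (by
      simp only [List.mem_cons, List.not_mem_nil, or_false, forall_eq_or_imp, forall_eq]
      exact ⟨by linarith, hβ0.le, hβ0.le, he.le⟩)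
    (by
      simp only [List.map_cons, List.map_nil, List.sum_cons, List.sum_nil]
      push_cast
      linarith)).exists_forall_of_atTop
  obtain ⟨J₂, hJ₂⟩ := (fl_ev [(1, U₀ + g - 2 * h), (n mp, β), (γ mp, β), (1, e)] [(1, 1)] 2
    (by
      simp only [List.mem_cons, List.not_mem_nil, or_false, forall_eq_or_imp, forall_eq]
      exact ⟨by linarith, hβ0.le, hβ0.le, he.le⟩)
    (by
      simp only [List.map_cons, List.map_nil, List.sum_cons, List.sum_nil]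
      push_cast
      linarith)).exists_forall_of_atTop
  obtain ⟨S₄, hS₄, sub₄, hd₄⟩ := dig_root hS₃ (κ := y) (ι := y) (k := u) (W := x (tX 0))
    (N := fun J => ⌊(U₀ - h) * J⌋₊ + (n mp * ⌊β * J⌋₊ + γ mp * ⌊β * J⌋₊))
    (MV := fun J => ⌊(U₀ - e) * J⌋₊) (E := fun J => ⌊e * J⌋₊) (b := a (tX 0))
    (fun τ J F A hA => by
      have h1 := ((hch₁ τ J F A (sub₃₁ τ J F A hA)).2 (tX 0)).1
      rw [← hU₀] at h1
      exact h1) (J₁ := J₁) (fun J hJ => by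
      have h1 := hJ₁ J hJ
      simp only [List.map_cons, List.map_nil, List.sum_cons, List.sum_nil, one_mul,
        Nat.floor_natCast, add_zero] at h1
      omega)
  obtain ⟨S₅, hS₅, sub₅, hd₅⟩ := dig_root hS₄ (κ := y) (ι := u) (k := v) (W := x (tX 0))
    (N := fun J => ⌊(U₀ + g - 2 * h) * J⌋₊ + (n mp * ⌊β * J⌋₊ + γ mp * ⌊β * J⌋₊))
    (MV := fun J => ⌊(D (q (tX 0)) - e) * J⌋₊) (E := fun J => ⌊e * J⌋₊) (b := b (tX 0))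
    (fun τ J F A hA => ((hch₁ τ J F A (sub₃₁ τ J F A (sub₄ τ J F A hA))).2 (tX 0)).2.2)
    (J₁ := J₂) (fun J hJ => by
      have h1 := hJ₂ J hJ
      simp only [List.map_cons, List.map_nil, List.sum_cons, List.sum_nil, one_mul,
        Nat.floor_natCast, add_zero] at h1
      omega)
  have sub₅₂ : ∀ (τ : ℝ) (J : ℕ) (F : Fam m J) (A : F.Ω → Prop), S₅.St τ J F A → S₂.St τ J F A :=
    fun τ J F A h => sub₃ τ J F A (sub₄ τ J F A (sub₅ τ J F A h))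
  refine ⟨S₅, a, b, V, z, hS₅, fun τ J F A h => sub₂₀ τ J F A (sub₅₂ τ J F A h), hz2,
    fun τ J F A hA => ?_, Bas.sub sub₅₂ hz3⟩
  have h1 := hch₁ τ J F A (sub₂ τ J F A (sub₅₂ τ J F A hA))
  have h2 := hq₃ τ J F A (sub₄ τ J F A (sub₅ τ J F A hA))
  have h3 := hd₄ τ J F A (sub₅ τ J F A hA)
  have h4 := hd₅ τ J F A hA
  rw [← hU₀]
  exact ⟨h1.1, h1.2, h2.2, fun i => hz1 τ J F A (sub₅₂ τ J F A hA) i, h3, h4⟩

end Pool.OWN17
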