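import Pool.Agent.H17.COR.Bxn

/-!
# The last event of a box

`box_tri`: the slopes of labels over a box. `box_fin`: a class whose events carry all data of a box
is impossible.
-/

set_option autoImplicit false

namespace Pool.OWN17

open Finset Real MvPolynomial Filter Topology
open Pool.Agent.H49.Ent Pool.Agent.H32.Dense Pool.STK Pool.KA Pool.KSAT Pool.K2S Pool.PB Pool.S6C
  Pool.GEN Pool.RCD Pool.LA91 Pool.MIC6
open Pool.GRD (LbP)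
open Pool.KM7 (P2)

variable {m : ℕ} {ι : Type} {U D : ℚ → ℝ} {A B s lam τ β h : ℝ} {mp N : ℕ} {n γ ρ : ℕ → ℕ} {g : ℚ}
  {q : ι → ℚ} {tX tD : ℕ → ι} {iO : ι} {q₁ : ℚ} {b₁ b₂ : ℝ} {θJ θD : ι → ι → ℝ}

/-- **The slopes of labels over a box.** -/
theorem box_tri {S : PCl m} (hS : S.Ne) {C₀ : ℝ} (hC₀ : 0 ≤ C₀) (htm : TmC S C₀)
    {L : Finset (Fin m) → Fin m → ℝ → ℝ → ℝ} (hL : LamW S L) {y u v : Fin m} (hyu : y ≠ u)
    (hact : ActF S y)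
    (R : BoxR U D A B s lam mp N n γ ρ τ β h g q tX tD iO q₁ b₁ b₂ θJ θD) {x : ι → ℝ}
    (hx : ∀ i, x i = (q i : ℝ) + s) (hx0 : 0 ≤ x (tX 0))
    (hUL : U (q (tX 0)) = L {y} u (x (tX 0)) (x (tX 0)))
    (hUq : U q₁ = L {y} u ((q₁ : ℝ) + s) ((q₁ : ℝ) + s))
    (hDq : D q₁ = L {y, u} v ((q₁ : ℝ) + s) ((q₁ : ℝ) + s))
    (huv1 : L {y} u b₁ b₁ ≤ L {y} v b₁ b₁) {xs : ℝ} (hxs : 100 * h ≤ xs) :
    ∃ e₀ : ℝ, 0 < e₀ ∧ ∃ m1 m2 n1 : ℝ, m1 ≤ U (q (tX 0)) + h - b₂ ∧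
      m2 ≤ U (q (tX 0)) + 44 * h - b₂ ∧ n1 ≤ U (q (tX 0)) + g + 2 * h - b₂ ∧
      ∀ η : ℝ, 0 < η → Bas S (TrI y u v b₂ (U (q (tX 0))) (U (q (tX 0)) + g - 42 * h) xs e₀
        m1 m2 n1 1 η) := by
  obtain ⟨U₀, hU₀⟩ : ∃ U₀, U₀ = U (q (tX 0)) := ⟨_, rfl⟩
  obtain ⟨W, hW⟩ : ∃ W, W = x (tX 0) := ⟨_, rfl⟩
  have h0 := R.h0
  have hβ0 := R.β0
  have hg0 : -h ≤ (g : ℝ) := R.g0
  have hub := R.ub
  have hone := R.one
  have hbb := R.bb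
  have hb2 := R.b2
  have hu1 := R.u1
  have hd1 := R.d1
  have hWb : W < b₁ := by rw [hW, hx]; exact R.Wb
  have hW0 : 0 ≤ W := by rw [hW]; exact hx0
  have hNβ : 0 ≤ N * β := by positivity
  rw [← hU₀] at hub hone hu1 hd1 hUL ⊢
  rw [← hW] at hUL
  rw [hUq] at hu1
  rw [hDq] at hd1
  have hb10 : 0 ≤ b₁ := by linarith
  obtain ⟨w, hw⟩ : ∃ w, w = (b₁ + b₂) / 2 := ⟨_, rfl⟩
  have hw1 : b₁ < w := by rw [hw]; linarith
  have hw2 : w < b₂ := by rw [hw]; linarith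
  have k1 : U₀ ≤ L {y} u b₁ b₁ := by
    rw [hUL]
    exact hL.mono _ _ _ _ _ _ _ (Finset.Subset.refl _) hWb.le hWb.le
  have k2 : L {y} u b₁ b₁ ≤ L {y} u w 0 := ng_diag hS hC₀ htm hL hact hb10 hw1
  have k3 : L {y} v b₁ b₁ ≤ L {y} v b₂ 0 := ng_diag hS hC₀ htm hL hact hb10 hbb
  have k4 : L {y} v b₂ 0 ≤ L {y, u} v b₂ 0 :=
    hL.mono _ _ _ _ _ _ _ (by simp) le_rfl le_rfl
  have k5 : L {y} u w 0 ≤ U₀ + h := by
    refine le_trans ?_ hu1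
    exact hL.mono _ _ _ _ _ _ _ (Finset.Subset.refl _) (by linarith) (by linarith)
  have k6 : L {y, u} v b₂ 0 ≤ U₀ + g + h := by
    refine le_trans ?_ hd1
    exact hL.mono _ _ _ _ _ _ _ (Finset.Subset.refl _) (by linarith) (by linarith)
  obtain ⟨e₀, he₀, hT⟩ := trI_cls hC₀ htm hL (y := y) (u := u) (v := v) hyu hact (W' := w)
    (W := b₂) (r := 0) (U := U₀) (D := U₀ + g - 42 * h) (x := xs) (s₁ := h) hw2 (by linarith)
    (by linarith) (by linarith) (by linarith) (by linarith) (by linarith) (by linarith)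
    (by linarith) (by linarith) (by linarith) h0
  exact ⟨e₀, he₀, _, _, _, by linarith, by linarith, by linarith, fun η hη => hT 1 η hη⟩

theorem Ec_nonneg (c : ℕ) {δ : ℝ} (hδ : 0 ≤ δ) : 0 ≤ Ec c δ := by
  have h1 := (log36 c).1.trans (log36 c).2
  have h2 : 0 ≤ Real.log 9 := Real.log_nonneg (by norm_num)
  have h3 : 0 ≤ Real.log 2 := Real.log_nonneg (by norm_num)
  unfold Ec
  positivity

/-- **The last event of a box.** -/
theorem box_fin [DecidableEq ι] {S : PCl m} (hS : S.Ne)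
    (hpos : ∀ (τ : ℝ) (J : ℕ) (F : Fam m J) (A : F.Ω → Prop), S.St τ J F A → 0 < Pe F.p A)
    {y u v : Fin m} (hyu : y ≠ u)
    (R : BoxR U D A B s lam mp N n γ ρ τ β h g q tX tD iO q₁ b₁ b₂ θJ θD) {x : ι → ℝ}
    (hx : ∀ i, x i = (q i : ℝ) + s) (hx0 : ∀ i, 0 ≤ x i) (hx1 : ∀ i, x i ≤ 1)
    (hU1 : ∀ i, U (q i) ≤ 1) (hD1 : ∀ i, D (q i) ≤ 1) {τ₀ : ℝ} (hτ₀ : 0 < τ₀) (hτ : τ₀ ≤ τ)
    (hs : ∀ k, n (k + 1) = n k + γ k) (hγ : ∀ k, γ k ≤ n k) (hγ1 : ∀ k, 1 ≤ γ k)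
    (h1γ : 1 ≤ dl τ₀ mp * γ mp) (h0γ : (n 0 : ℝ) ≤ dl τ₀ mp * γ mp) {c₀ : ℝ} (hc₀ : 0 < c₀)
    (hc₁ : c₀ ≤ 1) (hkc : ∀ k ≤ mp, ((γ k : ℝ) + 1) * (c₀ * γ k) ≤ dl τ₀ mp * γ mp)
    (hδ1 : dl τ₀ mp ≤ 1) (hh : 1000 * h ≤ dl τ₀ mp * c₀ * β) {e e₀ kM : ℝ} (he0 : 0 < e)
    (heh : e ≤ h) (he : e ≤ e₀) {V : ∀ J : ℕ, Fam m J → Type}
    {a b : ι → ∀ (J : ℕ) (F : Fam m J), LnT F → Fin 4 → ℝ}
    {z : ∀ (J : ℕ) (F : Fam m J), ι → LnT F → V J F}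
    (hE : ∀ (τ : ℝ) (J : ℕ) (F : Fam m J) (A : F.Ω → Prop), S.St τ J F A →
      BxE y u v x (fun i => U (q i)) (fun i => D (q i)) g h e β (tX 0) iO (n mp + γ mp) A
        (fun i => a i J F) (fun i => b i J F) (z J F))
    (hN : Bas S (NbxS y u v s U g q x lam (tX 0) iO θJ θD kM e₀ (2 * h) (5 * h) h c₀))
    (hz : Bas S (fun J F A => ∀ i, Mx (fun J F => ptr F J) (vg (x i)) kM F A
      (fun ω => z J F i (slam F ⌊x i * J⌋₊ ω))))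
    (hn : ∀ (J : ℕ) (F : Fam m J) (i j : ι), x i ≤ x j → ∀ ω ω' : F.Ω,
      z J F j (slam F ⌊x j * J⌋₊ ω) = z J F j (slam F ⌊x j * J⌋₊ ω') →
      z J F i (slam F ⌊x i * J⌋₊ ω) = z J F i (slam F ⌊x i * J⌋₊ ω')) {x₁ eT m1 m2 n1 : ℝ}
    (heT0 : 0 < eT) (heT : e ≤ eT) (hxT : x₁ ≤ eT) (hm1 : m1 ≤ U (q (tX 0)) + h - b₂)
    (hm2 : m2 ≤ U (q (tX 0)) + 44 * h - b₂) (hn1 : n1 ≤ U (q (tX 0)) + g + 2 * h - b₂)
    (htr : Bas S (TrI y u v b₂ (U (q (tX 0))) (U (q (tX 0)) + g - 42 * h) (dl τ₀ mp * β / 4) eT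
      m1 m2 n1 1 (dl τ₀ mp / (N + 2))))
    (hsep : Bas S (fun J F A => ∀ (𝒦 : Type) (K : F.Ω → 𝒦) (B : F.Ω → Prop), Sub B A →
      Pe F.p A ≤ 1 * Pe F.p B →
      (∀ ω ω', B ω → B ω' → ptr F J ω = ptr F J ω' → K ω = K ω') →
      law (P2 (Pool.Agent.H49.Ent.cond F.p B True) K)
        (fun v => |F.d v.1 y - F.d v.2 y| * 2 ^ ⌊dl τ₀ mp * β / 4 * J⌋₊ < 2) True ≤
          dl τ₀ mp / (N + 2)))
    {f : ℕ → ∀ (J : ℕ) (F : Fam m J), LnT F → Fin 4 → ℝ}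
    (hpl : ∀ k < mp + 1, Bas S (PlS y u v b₂ (x (tX 0)) (x iO) x₁ (10 * h) (5 * h)
      (fun J => ⌊(U (q (tX 0)) - h) * J⌋₊) (fun J => ⌊(U (q (tX 0)) + g - 2 * h) * J⌋₊)
      (fun J => n k * ⌊β * J⌋₊) (fun J => γ k * ⌊β * J⌋₊) (fun J => ⌊20 * h * J⌋₊)
      (a (tX 0)) (b (tX 0)) (a iO) (b iO) (csF x b₂ (tX 0) z a b) (f k))) : False := by
  classical
  obtain ⟨U₀, hU₀⟩ : ∃ U₀, U₀ = U (q (tX 0)) := ⟨_, rfl⟩
  obtain ⟨W, hW⟩ : ∃ W, W = x (tX 0) := ⟨_, rfl⟩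
  obtain ⟨O, hO⟩ : ∃ O, O = x iO := ⟨_, rfl⟩
  obtain ⟨UO, hUO⟩ : ∃ UO, UO = U (q iO) := ⟨_, rfl⟩
  obtain ⟨DO, hDO⟩ : ∃ DO, DO = D (q iO) := ⟨_, rfl⟩
  obtain ⟨dd, hdd⟩ : ∃ dd, dd = dl τ₀ mp := ⟨_, rfl⟩
  have hdd0 : 0 < dd := by rw [hdd]; exact dl_pos hτ₀ mp
  have h0 := R.h0
  have hβ0 := R.β0
  have hg0 : -h ≤ (g : ℝ) := R.g0
  have hβh := R.hβ
  have hub := R.ub
  have hone := R.one
  have haO := R.aO
  have hb2N := R.b2N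
  have hbb := R.bb
  have hlamN := R.lamN
  have hgDO := R.gD iO
  have hWb : W < b₁ := by rw [hW, hx]; exact R.Wb
  have eW : (q (tX 0) : ℝ) + s = W := by rw [hW, hx]
  have eO : (q iO : ℝ) + s = O := by rw [hO, hx]
  have hW0 : 0 ≤ W := by rw [hW]; exact hx0 _
  have hO0 : 0 ≤ O := by rw [hO]; exact hx0 _
  have hNβ : 0 ≤ N * β := by positivity
  have hWO : tX 0 ≠ iO := R.XO 0 (Nat.zero_le _)
  obtain ⟨hnN1, hnN2⟩ := R.nNβ (k := mp) le_rfl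
  rw [← hU₀] at hub hone haO
  rw [eW, eO, ← hUO] at haO
  rw [← hUO, ← hDO] at hgDO
  rw [← hdd] at h1γ h0γ hkc hδ1 hh htr hsep
  have hb21 : b₂ < 1 := by linarith
  have hb20 : 0 ≤ b₂ := by linarith
  have hγr : (1 : ℝ) ≤ γ mp := by exact_mod_cast hγ1 mp
  have hn0r : (1 : ℝ) ≤ n mp := by exact_mod_cast (hγ1 mp).trans (hγ mp)
  have hβN : 2 * β ≤ N * β := by nlinarith
  have hdβ : dd * c₀ * β ≤ β := by
    have h1 : dd * c₀ ≤ 1 := mul_le_one₀ hδ1 hc₀.le hc₁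
    nlinarith
  have hdβ' : dd * β ≤ β := by nlinarith
  have hdcβ : dd * c₀ * β ≤ dd * β := by
    have h1 : dd * c₀ ≤ dd := mul_le_of_le_one_right hdd0.le hc₁
    nlinarith
  have hdβ0 : 0 < dd * β := by positivity
  obtain ⟨η, hη⟩ : ∃ η, η = dd / (N + 2) := ⟨_, rfl⟩
  rw [← hη] at htr hsep
  have hη0 : 0 < η := by rw [hη]; positivity
  have hηN : η * ((N : ℝ) + 2) ≤ dd := by
    rw [hη, div_mul_cancel₀ _ (by positivity)]
  -- the conditions at a large resolution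
  obtain ⟨J₁, hJ₁⟩ := sml_ev (δ := dd) (β := β) (c₀ := c₀) (η := η) (m := mp) (N := N)
    (n := n) (γ := γ) hdd0 hβ0 hc₀ hc₁ hη0.le hγ1 h1γ h0γ hkc hηN (fun k hk => (R.nN k hk).1)
  have hda := box_da R hx (Or.inr rfl) hb20
  have hdp := box_dpl (y := y) (u := u) (v := v) R hx (hx0 _) he0 heh (t := b₂)
    (by rw [← hW]; linarith) le_rfl (nn := n mp + γ mp)
  have g1 := fl_ev [(N, β)] [(1, lam)] 0 (by simp [hβ0.le]) (by
    simp only [List.map_cons, List.map_nil, List.sum_cons, List.sum_nil]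
    push_cast
    linarith)
  have g2 := fl_ev [(N, β)] [(1, N * β + 10 * h)] 0 (by simp [hβ0.le]) (by
    simp only [List.map_cons, List.map_nil, List.sum_cons, List.sum_nil]
    push_cast
    linarith)
  have g3 := fl_ev [(1, dd * β / 4)] [(1, lam)] 1 (by simp; positivity) (by
    simp only [List.map_cons, List.map_nil, List.sum_cons, List.sum_nil]
    push_cast
    linarith)
  have g4 := fl_ev [] [(1, eT)] 1 (by simp) (by
    simp only [List.map_cons, List.map_nil, List.sum_cons, List.sum_nil]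
    push_cast
    linarith)
  have g5 := fl_ev [(1, 20 * h), (1, U₀ - h), (1, U₀ + g - 42 * h)] [(1, U₀), (1, U₀ + g - 2 * h)]
    0 (by
      simp only [List.mem_cons, List.not_mem_nil, or_false, forall_eq_or_imp, forall_eq]
      exact ⟨by linarith, by linarith, by linarith⟩) (by
    simp only [List.map_cons, List.map_nil, List.sum_cons, List.sum_nil]
    push_cast
    linarith)
  have g6 := fl_ev [(1, U₀ + g + 2 * h - b₂), (1, b₂)] [(1, U₀ + g - 2 * h), (1, β)] 2 (by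
      simp only [List.mem_cons, List.not_mem_nil, or_false, forall_eq_or_imp, forall_eq]
      exact ⟨by linarith, by linarith⟩) (by
    simp only [List.map_cons, List.map_nil, List.sum_cons, List.sum_nil]
    push_cast
    linarith)
  have g7 := fl_ev [(1, U₀ + g + 2 * h - b₂), (1, O)] [(1, DO - e)] 0 (by
      simp only [List.mem_cons, List.not_mem_nil, or_false, forall_eq_or_imp, forall_eq]
      exact ⟨by linarith, hO0⟩) (by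
    simp only [List.map_cons, List.map_nil, List.sum_cons, List.sum_nil]
    push_cast
    linarith)
  have g8 := fl_ev [(1, U₀ + 44 * h - b₂), (1, O)] [(1, UO - e)] 0 (by
      simp only [List.mem_cons, List.not_mem_nil, or_false, forall_eq_or_imp, forall_eq]
      exact ⟨by linarith, hO0⟩) (by
    simp only [List.map_cons, List.map_nil, List.sum_cons, List.sum_nil]
    push_cast
    linarith)
  have g9 := ge_ev (50 + |2 - τ| * N) h0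
  obtain ⟨J₂, hJ₂⟩ := (hda.and (hdp.and (g1.and (g2.and (g3.and (g4.and (g5.and (g6.and (g7.and
    (g8.and g9)))))))))).exists_forall_of_atTop
  obtain ⟨τ', hτ', J₃, hall⟩ := (hN.and (hz.and (htr.and (hsep.and (Bas.all (mp + 1) hpl)))))
  obtain ⟨J, hJ, F, A', hA'⟩ := hS τ' hτ' (J₁ + J₂ + J₃ + 1)
  obtain ⟨hNJ, hzJ, htJ, hsJ, hpJ⟩ := hall J (by omega) F A' hA'
  obtain ⟨⟨d2, d3, d4, d5⟩, d1, c1, c2, c3, c4, c5, c6, c7, c8, c9⟩ := hJ₂ J (by omega)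
  simp only [List.map_cons, List.map_nil, List.sum_cons, List.sum_nil, one_mul, add_zero]
    at c1 c2 c3 c4 c5 c6 c7 c8
  have hPA := hpos τ' J F A' hA'
  have hEJ := hE τ' J F A' hA'
  have hJ0 : (0 : ℝ) ≤ J := Nat.cast_nonneg J
  have hhJ : 0 ≤ h * (J : ℝ) := by positivity
  have l1 : 0.69 ≤ Real.log 2 := by
    have := Real.log_two_gt_d9
    linarith
  have l2 : Real.log 2 ≤ 0.7 := by
    have := Real.log_two_lt_d9
    linarith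
  have hτN : 0 ≤ |2 - τ| * N := by positivity
  have fm : ∀ {p r : ℝ}, p ≤ r → ⌊p * (J : ℝ)⌋₊ ≤ ⌊r * (J : ℝ)⌋₊ := fun hpr =>
    Nat.floor_le_floor (mul_le_mul_of_nonneg_right hpr hJ0)
  have hmq : ∀ {i j : ι}, q i ≤ q j → x i ≤ x j := fun {i j} hij => by
    rw [hx, hx]
    have : (q i : ℝ) ≤ q j := by exact_mod_cast hij
    linarith
  -- the rounding of the numbers
  have fβ : (⌊β * (J : ℝ)⌋₊ : ℝ) ≤ β * J := Nat.floor_le (by positivity)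
  have fβ' : β * (J : ℝ) - 1 < ⌊β * (J : ℝ)⌋₊ := Nat.sub_one_lt_floor _
  have rnd : ∀ r : ℝ, 0 ≤ r → r ≤ N → |(2 - τ) * (r * β * Real.log 2) * J -
      (2 - τ) * (r * ⌊β * (J : ℝ)⌋₊ * Real.log 2)| ≤ h * J := by
    intro r hr0 hrN
    have e1 : (2 - τ) * (r * β * Real.log 2) * J - (2 - τ) * (r * ⌊β * (J : ℝ)⌋₊ * Real.log 2) =
      (2 - τ) * (r * (Real.log 2 * (β * J - ⌊β * (J : ℝ)⌋₊))) := by ring
    rw [e1, abs_mul]
    have e2 : |r * (Real.log 2 * (β * J - ⌊β * (J : ℝ)⌋₊))| ≤ N := by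
      rw [abs_of_nonneg (mul_nonneg hr0 (mul_nonneg (by linarith) (by linarith)))]
      have e3 : Real.log 2 * (β * J - ⌊β * (J : ℝ)⌋₊) ≤ 1 := by
        have : Real.log 2 * (β * J - ⌊β * (J : ℝ)⌋₊) ≤ 0.7 * 1 :=
          mul_le_mul l2 (by linarith) (by linarith) (by norm_num)
        linarith
      exact (mul_le_of_le_one_right hr0 e3).trans hrN
    have e4 := mul_le_mul_of_nonneg_left e2 (abs_nonneg (2 - τ))
    linarith
  have hEc := Ec_le ⌊20 * h * (J : ℝ)⌋₊ (4 * h * J)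
  have hEc0 := Ec_nonneg (4 * 2 ^ ⌊20 * h * (J : ℝ)⌋₊) (δ := 4 * h * J) (by positivity)
  have hs20 : (⌊20 * h * (J : ℝ)⌋₊ : ℝ) ≤ 20 * h * J := Nat.floor_le (by positivity)
  have hEc' : Ec (4 * 2 ^ ⌊20 * h * (J : ℝ)⌋₊) (4 * h * J) ≤ 102 * (h * J) := by
    have e1 : 6 * (4 * h * J) * Real.log 2 ≤ 6 * (4 * h * J) * 0.7 :=
      mul_le_mul_of_nonneg_left l2 (by positivity)
    have e2 : 6 * (⌊20 * h * (J : ℝ)⌋₊ : ℝ) * Real.log 2 ≤ 6 * (20 * h * J) * 0.7 :=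
      mul_le_mul (by linarith) l2 (by linarith) (by positivity)
    linarith
  have hlog4 : Real.log ((4 * 2 ^ ⌊20 * h * (J : ℝ)⌋₊ : ℕ) : ℝ) ≤ 15 * (h * J) := by
    push_cast
    rw [Real.log_mul (by norm_num) (by positivity), Real.log_pow]
    have e1 : Real.log 4 = 2 * Real.log 2 := by
      rw [show (4 : ℝ) = 2 ^ 2 by norm_num, Real.log_pow]
      push_cast
      ring
    have e2 : (⌊20 * h * (J : ℝ)⌋₊ : ℝ) * Real.log 2 ≤ 20 * h * J * 0.7 :=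
      mul_le_mul hs20 l2 (by linarith) (by positivity)
    rw [e1]
    linarith
  have hq1 : 1000 * (h * J) ≤ dd * c₀ * β * J := by
    have := mul_le_mul_of_nonneg_right hh hJ0
    linarith
  have hq2 : dd * c₀ * β * J ≤ dd * β * J := mul_le_mul_of_nonneg_right hdcβ hJ0
  have hq3 : dd * β * J ≤ β * J := mul_le_mul_of_nonneg_right hdβ' hJ0
  have hxsJ : (⌊dd * β / 4 * (J : ℝ)⌋₊ : ℝ) ≤ dd * β / 4 * J := Nat.floor_le (by positivity)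
  have hSml := hJ₁ J (by omega) (4 * 2 ^ ⌊20 * h * (J : ℝ)⌋₊) ⌊dd * β / 4 * (J : ℝ)⌋₊
    (2 * h * J + (8 * (2 * h * J) + 7 * (5 * h * J) +
      Ec (4 * 2 ^ ⌊20 * h * (J : ℝ)⌋₊) (4 * h * J))) (10 * h * J) (5 * h * J)
    (5 * h * J + Ec (4 * 2 ^ ⌊20 * h * (J : ℝ)⌋₊) (4 * h * J))
    (2 * h * J + (8 * (2 * h * J) + 13 * (5 * h * J) +
      Ec (4 * 2 ^ ⌊20 * h * (J : ℝ)⌋₊) (4 * h * J)))
    (by have := Nat.one_le_two_pow (n := ⌊20 * h * (J : ℝ)⌋₊); omega) (by linarith) (by linarith)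
    (by linarith) (by linarith) (by linarith) (by linarith) (by linarith) (by linarith)
    (by linarith) (by linarith) (by linarith)
  have hdpe := d1 F A' _ _ _ _ hEJ
  have hfmx : ⌊dd * β / 4 * (J : ℝ)⌋₊ ≤ ⌊β * (J : ℝ)⌋₊ := fm (by linarith)
  rw [hUO, hO] at c8
  rw [hDO, hO] at c7
  rw [hU₀] at c5 c6 c7 c8
  refine cor_evt (mp := mp) (N := N) (n := n) (γ := γ) hτ₀ hτ hs hγ (fun k hk => (R.nN k hk).1)
    (y := y) (u := u) (v := v) (x := x) (U := fun i => U (q i)) (g := g) (tX := tX)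
    (tD := tD) (iO := iO) (t := b₂) (β := β) (x₁ := x₁) (eU := 10 * h) (ec := 5 * h)
    (NU := fun J => ⌊(U (q (tX 0)) - h) * J⌋₊)
    (NV := fun J => ⌊(U (q (tX 0)) + g - 2 * h) * J⌋₊) (sN := fun J => ⌊20 * h * J⌋₊) (z := z)
    (a := a) (b := b) (f := f) (gJ := fun i j => θJ i j * J) (fD := fun i j => θD i j * J)
    (J := J) (F := F) (A := A') hPA hx1 hb21.le (by rw [← hW]; linarith) (hn J F) hzJ
    (fun i => hmq (R.mW i)) R.XO (fun s _ => hmq (R.mO _))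
    (fun j j' h1 h2 => hmq (R.mX j j' h1 h2)) (fun k hk => hmq (R.mD k hk).1)
    (MU := ⌊(U (q (tX 0)) - e) * J⌋₊) (MV := ⌊(D (q (tX 0)) - e) * J⌋₊)
    (MU' := ⌊(U (q iO) - e) * J⌋₊) (MV' := ⌊(D (q iO) - e) * J⌋₊) (E := ⌊e * J⌋₊)
    (I := ⌊(N * β + 10 * h) * J⌋₊) (lam := ⌊lam * J⌋₊) hEJ.chd ?_ (fm (by linarith)) hdpe
    c2 c1 (κn := 2 * h * J) (en := 5 * h * J) hc₀ hc₁ ?_ (δ := 4 * h * J) (by positivity) d2 d3
    d4 d5 (E₁ := 2 * h * J) ?_ ?_ ?_ (xs := dd * β / 4) (η := η) ?_ c3 hsJ htJ ?_ c4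
    (fm hxT) ?_ ?_ ?_ ?_ ?_ ?_ ?_ ?_
  · intro ω hω
    exact hEJ.cq.n3 ω hω
  · intro B' hB hBA
    exact box_num hyu R hx hx0 hx1 hU1 hD1 hc₀ he (by omega) hPA hEJ hNJ hzJ (hn J F) hB hBA
  · intro j j' h1 h2
    have h3 := mul_le_mul_of_nonneg_right (R.upp j j' h1 h2) hJ0
    have h4 : (j : ℝ) ≤ j' := by exact_mod_cast h1
    have h5 : (j' : ℝ) ≤ N := by exact_mod_cast h2
    have h6 : (0 : ℝ) ≤ j := Nat.cast_nonneg j
    have h7 := (abs_le.1 (rnd ((j' : ℝ) - j) (by linarith) (by linarith))).2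
    show θJ (tX j) (tX j') * J - θD (tX j) (tX j') * J ≤ _
    linarith
  · have h3 := mul_le_mul_of_nonneg_right R.low hJ0
    have h4 : (γ mp : ℝ) ≤ N := by
      have := (R.nN mp le_rfl).1
      exact_mod_cast (by omega : γ mp ≤ N)
    have h7 := (abs_le.1 (rnd (γ mp) (Nat.cast_nonneg _) h4)).1
    show _ ≤ θJ (tX (n mp)) (tX (n mp + γ mp)) * J - θD (tX (n mp)) (tX (n mp + γ mp)) * J
    linarith
  · intro k hk
    exact hpJ k (by omega)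
  · intro k hk
    have h1 := Nat.mul_le_mul_right ⌊β * (J : ℝ)⌋₊ (hγ1 k)
    omega
  · exact fm heT
  · show ⌊20 * h * (J : ℝ)⌋₊ + ⌊(U (q (tX 0)) - h) * (J : ℝ)⌋₊ +
      ⌊(U (q (tX 0)) + g - 42 * h) * (J : ℝ)⌋₊ ≤ ⌊U (q (tX 0)) * (J : ℝ)⌋₊ +
        ⌊(U (q (tX 0)) + g - 2 * h) * (J : ℝ)⌋₊
    omega
  · intro k hk
    show ⌊n1 * (J : ℝ)⌋₊ + 2 + ⌊b₂ * (J : ℝ)⌋₊ ≤ ⌊(U (q (tX 0)) + g - 2 * h) * (J : ℝ)⌋₊ +
      γ k * ⌊β * (J : ℝ)⌋₊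
    have h1 := Nat.mul_le_mul_right ⌊β * (J : ℝ)⌋₊ (hγ1 k)
    have h2 := fm hn1
    omega
  · have h2 := fm hn1
    omega
  · have h2 := fm hm1
    have h3 := fm (show U (q (tX 0)) + h - b₂ ≤ U (q (tX 0)) + 44 * h - b₂ by linarith)
    omega
  · have h2 := fm hm2
    omega
  · intro ω ω' h1 h2 h3
    have h4 := hEJ.du ω ω' h1 h2 h3
    simp only [add_mul] at h4
    exact h4
  · intro ω ω' h1 h2 h3
    have h4 := hEJ.dv ω ω' h1 h2 h3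
    simp only [add_mul] at h4
    exact h4
  · rw [← hdd]
    exact hSml

end Pool.OWN17
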