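import Pool.Agent.H17.COR.Bxp
import Pool.Agent.H17.COR.Bxg

/-!
# A box with defects is impossible

`box_pls`: the data of all places of a box, on a subclass. `box_false`: a class with the numbers of
a box is impossible.
-/

set_option autoImplicit false

namespace Pool.OWN17

open Finset Real MvPolynomial Filter Topology
open Pool.Agent.H49.Ent Pool.Agent.H32.Dense Pool.STK Pool.KA Pool.KSAT Pool.K2S Pool.PB Pool.S6C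
  Pool.GEN Pool.RCD Pool.LA91 Pool.MIC6 Pool.REX Pool.REX83 Pool.OWN72 Pool.OWN43
open Pool.GRD (LbP)
open Pool.KM7 (P2)

variable {m : ℕ} {ι : Type} {U D : ℚ → ℝ} {A B s lam τ β h : ℝ} {mp N : ℕ} {n γ ρ : ℕ → ℕ} {g : ℚ}
  {q : ι → ℚ} {tX tD : ℕ → ι} {iO : ι} {q₁ : ℚ} {b₁ b₂ : ℝ} {θJ θD : ι → ι → ℝ}

/-- Activity passes to subclasses. -/
theorem actF_subc {S S' : PCl m} (hs : ∀ (τ : ℝ) (J : ℕ) (F : Fam m J) (A : F.Ω → Prop),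
    S'.St τ J F A → S.St τ J F A) {y : Fin m} (h : ActF S y) : ActF S' y := fun g hg => by
  obtain ⟨c, hc, h1⟩ := h g hg
  exact ⟨c, hc, Bas.sub hs h1⟩

/-- **The data of all places of a box**, on a subclass. -/
theorem box_pls [DecidableEq ι] (hFn : ∀ k, 1 ≤ k → k ≤ 3 → FZX k) {S : PCl m} (hS : S.Ne) {C₀ : ℝ}
    (hC₀ : 0 ≤ C₀) (htm : TmC S C₀)
    (hpos : ∀ (τ : ℝ) (J : ℕ) (F : Fam m J) (A : F.Ω → Prop), S.St τ J F A → 0 < Pe F.p A)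
    {L : Finset (Fin m) → Fin m → ℝ → ℝ → ℝ} (hL : LamW S L)
    {Ns : Finset (Fin m) → ℝ → ℝ → ℝ} (hNs : ActN S Ns) {y u v : Fin m} (hact : ActF S y)
    (hyu : y ≠ u) (hyv : y ≠ v) (huv : u ≠ v)
    (R : BoxR U D A B s lam mp N n γ ρ τ β h g q tX tD iO q₁ b₁ b₂ θJ θD) {x : ι → ℝ}
    (hx : ∀ i, x i = (q i : ℝ) + s) (hx0 : ∀ i, 0 ≤ x i) (hx1 : ∀ i, x i ≤ 1)
    (hU1 : ∀ i, U (q i) ≤ 1) (hD1 : ∀ i, D (q i) ≤ 1)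
    (hUL : U (q (tX 0)) = L {y} u (x (tX 0)) (x (tX 0)))
    (hUq : U q₁ = L {y} u ((q₁ : ℝ) + s) ((q₁ : ℝ) + s))
    (hcu : ContinuousAt (fun t => L {y} u t t) b₁) (huv1 : L {y} u b₁ b₁ ≤ L {y} v b₁ b₁)
    {α₀ α β₀ β' : ℝ} (hα₀ : 0 ≤ α₀) (hα : α₀ < α) (hα1 : α < 1)
    (hdeep : U (q (tX 0)) - x (tX 0) + N * β + 20 * h ≤ L {y} u α₀ α₀ - α)
    (hβ₀ : 0 ≤ β₀) (hβ' : β₀ < β') (hβ1 : β' < 1)
    (hdeep' : U (q (tX 0)) - x (tX 0) + N * β + 20 * h ≤ L {y} v β₀ β₀ - β')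
    {e e₀ kM c₀ : ℝ} (hc₀ : 0 < c₀) (hc₁ : c₀ ≤ 1) (he0 : 0 < e) (heh : e ≤ h) (he : e ≤ e₀)
    {nn : ℕ} {V : ∀ J : ℕ, Fam m J → Type}
    {a b : ι → ∀ (J : ℕ) (F : Fam m J), LnT F → Fin 4 → ℝ}
    {z : ∀ (J : ℕ) (F : Fam m J), ι → LnT F → V J F} {J₁ : ℕ}
    (hE : ∀ (τ : ℝ) (J : ℕ) (F : Fam m J) (A : F.Ω → Prop), S.St τ J F A → J₁ ≤ J ∧
      BxE y u v x (fun i => U (q i)) (fun i => D (q i)) g h e β (tX 0) iO nn A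
        (fun i => a i J F) (fun i => b i J F) (z J F))
    (hJ₁ : ∀ J ≥ J₁, ∀ t : ℝ, t = b₁ ∨ t = b₂ →
      ∀ (F : Fam m J) (A : F.Ω → Prop) (a b : ι → LnT F → Fin 4 → ℝ) (V : Type)
      (z : ι → LnT F → V),
      BxE y u v x (fun i => U (q i)) (fun i => D (q i)) g h e β (tX 0) iO nn A a b z →
      Dpl (Pool.Agent.H49.Ent.cond F.p A True) 4 J ⌊t * J⌋₊ ⌊(U (q (tX 0)) - h) * J⌋₊
        ⌊(U (q (tX 0)) + g - 2 * h) * J⌋₊ ⌊(N * β + 10 * h) * J⌋₊ (lnF F y u v ⌊t * J⌋₊)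
        (hC F ⌊t * J⌋₊ ⌊x (tX 0) * J⌋₊ (a (tX 0)) (b (tX 0))) (fC F ⌊x iO * J⌋₊ (a iO) (b iO)) F.T
        (fun ω => F.X J ω y) (AuC F ⌊x (tX 0) * J⌋₊ ⌊x iO * J⌋₊ (a (tX 0)) (a iO))
        (AvC F ⌊x (tX 0) * J⌋₊ ⌊x iO * J⌋₊ (b (tX 0)) (a iO) (b iO)))
    (hN : Bas S (NbxS y u v s U g q x lam (tX 0) iO θJ θD kM e₀ (2 * h) (5 * h) h c₀))
    (hz : Bas S (fun J F A => ∀ i, Mx (fun J F => ptr F J) (vg (x i)) kM F A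
      (fun ω => z J F i (slam F ⌊x i * J⌋₊ ω))))
    (hn : ∀ (J : ℕ) (F : Fam m J) (i j : ι), x i ≤ x j → ∀ ω ω' : F.Ω,
      z J F j (slam F ⌊x j * J⌋₊ ω) = z J F j (slam F ⌊x j * J⌋₊ ω') →
      z J F i (slam F ⌊x i * J⌋₊ ω) = z J F i (slam F ⌊x i * J⌋₊ ω'))
    (hγ1 : ∀ k ≤ mp, 1 ≤ γ k) (hγτ : ∀ k ≤ mp, (γ k : ℝ) + 1 ≤ τ * ρ k) {xl x₁ : ℝ}
    (hxl : 0 < xl) (hx₁ : xl < x₁) (hx₁h : x₁ ≤ h)
    (hap₁ : ∀ k ≤ mp, ∃ p al : ℝ, 0 < p ∧ p < 1 / 2 ∧ 0 < al ∧ n k * β + h < (1 - b₁) * p ∧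
      (1 - b₁) * p < n k * β + 2 * h ∧ Act (Ns {y}) ((1 - b₁) * p) al)
    (hap₂ : ∀ k ≤ mp, ∃ p al : ℝ, 0 < p ∧ p < 1 / 2 ∧ 0 < al ∧ n k * β + 2 * h < (1 - b₂) * p ∧
      (1 - b₂) * p < n k * β + 3 * h ∧ Act (Ns {y}) ((1 - b₂) * p) al) :
    ∀ K ≤ mp + 1, ∃ (S' : PCl m) (f : ℕ → ∀ (J : ℕ) (F : Fam m J), LnT F → Fin 4 → ℝ), S'.Ne ∧
      (∀ (τ : ℝ) (J : ℕ) (F : Fam m J) (A : F.Ω → Prop), S'.St τ J F A → S.St τ J F A) ∧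
      ∀ k < K, Bas S' (PlS y u v b₂ (x (tX 0)) (x iO) x₁ (10 * h) (5 * h)
        (fun J => ⌊(U (q (tX 0)) - h) * J⌋₊) (fun J => ⌊(U (q (tX 0)) + g - 2 * h) * J⌋₊)
        (fun J => n k * ⌊β * J⌋₊) (fun J => γ k * ⌊β * J⌋₊) (fun J => ⌊20 * h * J⌋₊)
        (a (tX 0)) (b (tX 0)) (a iO) (b iO) (csF x b₂ (tX 0) z a b) (f k)) := by
  classical
  intro K
  induction K with
  | zero =>
    intro _
    exact ⟨S, fun _ _ _ _ => 0, hS, fun _ _ _ _ h => h, fun k hk => absurd hk (Nat.not_lt_zero k)⟩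
  | succ K ih =>
    intro hK
    obtain ⟨S₁, f, hS₁, sub₁, hpl⟩ := ih (by omega)
    have hKm : K ≤ mp := by omega
    obtain ⟨p₁, al₁, c1, c2, c3, c4, c5, c6⟩ := hap₁ K hKm
    obtain ⟨p₂, al₂, d1, d2, d3, d4, d5, d6⟩ := hap₂ K hKm
    have htm₁ : TmC S₁ C₀ := fun τ J F A hτ h => htm τ J F A hτ (sub₁ τ J F A h)
    obtain ⟨S₂, f₂, hS₂, sub₂, hf₂⟩ := place_k hFn hS₁ hC₀ htm₁
      (fun τ J F A h => hpos τ J F A (sub₁ τ J F A h)) (hL.sub sub₁)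
      (actN_of_bas (fun Φ hb => Bas.sub sub₁ hb) hNs) (y := y) (u := u) (v := v) (actF_subc sub₁ hact) hyu
      hyv huv R
      hx hx0 hx1 hU1 hD1 hUL hUq hcu huv1 hα₀ hα hα1 hdeep hβ₀ hβ' hβ1 hdeep' (kM := kM) hc₀ hc₁
      he0 heh he (V := V) (a := a) (b := b) (z := z)
      (fun τ J F A h => hE τ J F A (sub₁ τ J F A h)) hJ₁ (Bas.sub sub₁ hN) (Bas.sub sub₁ hz) hn hKm
      (hγ1 K hKm) (hγτ K hKm) hxl hx₁ hx₁h c1 c2 c3 c4 c5 c6 d1 d2 d3 d4 d5 d6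
    refine ⟨S₂, fun k => if k = K then f₂ else f k, hS₂,
      fun τ J F A h => sub₁ τ J F A (sub₂ τ J F A h), fun k hk => ?_⟩
    by_cases hkK : k = K
    · subst hkK
      simp only [if_true]
      exact hf₂
    · simp only [if_neg hkK]
      exact Bas.sub sub₂ (hpl k (by omega))

/-- **A box with defects is impossible.** -/
theorem box_false [DecidableEq ι] [Finite ι] [Nonempty ι] (hFn : ∀ k, 1 ≤ k → k ≤ 3 → FZX k) {S : PCl m}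
    (hS : S.Ne) {C₀ : ℝ} (hC₀ : 0 ≤ C₀) (htm : TmC S C₀)
    (hpos : ∀ (τ : ℝ) (J : ℕ) (F : Fam m J) (A : F.Ω → Prop), S.St τ J F A → 0 < Pe F.p A)
    {L : Finset (Fin m) → Fin m → ℝ → ℝ → ℝ} (hL : LamW S L)
    {Ns : Finset (Fin m) → ℝ → ℝ → ℝ} (hNs : ActN S Ns) {y u v : Fin m} (hact : ActF S y)
    (hyu : y ≠ u) (hyv : y ≠ v) (huv : u ≠ v) {G : Set ℚ} (H : WinG S {y} u v G s U D)
    (hG : ∀ q : ℚ, A < q → (q : ℝ) < B → q ∈ G)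
    (hUL : ∀ q ∈ G, U q = L {y} u ((q : ℝ) + s) ((q : ℝ) + s))
    (hDL : ∀ q ∈ G, D q = L {y, u} v ((q : ℝ) + s) ((q : ℝ) + s))
    (hGd : ∀ q ∈ G, Gdw L y u v ((q : ℝ) + s))
    (hη : ∀ q ∈ G, ∃ η, RNum S (fun J F => ptr F J) (vg ((q : ℝ) + s)) η)
    (R : BoxR U D A B s lam mp N n γ ρ τ β h g q tX tD iO q₁ b₁ b₂ θJ θD)
    (nJ : ∀ i j, q i ≤ q j → NN S (fun J F => ptr F J) (vg ((q i : ℝ) + s))
      (fun J F => yF F y ⌊lam * J⌋₊)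
      ((gX m {y} u v s U g (q i) (q j)).prod (gD m {y} u v s U g (q i) (q j))) (θJ i j))
    (nD : ∀ i j, q i ≤ q j → NN S (fun J F => ptr F J) (vg ((q i : ℝ) + s))
      (fun J F => yF F y ⌊lam * J⌋₊) (gD m {y} u v s U g (q i) (q j)) (θD i j))
    {θa θb : ℝ} (na : NN S (fun J F => ptr F J) (vg ((q (tX 0) : ℝ) + s)) (v0F y)
      (qDr m y (fun J => ⌊lam * J⌋₊)) θa)
    (nb : NN S (fun J F => ptr F J) (vg ((q iO : ℝ) + s)) (v0F y)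
      (qDr m y (fun J => ⌊lam * J⌋₊)) θb) (hab : θa - θb ≤ h)
    {τ₀ : ℝ} (hτ₀ : 0 < τ₀) (hτ : τ₀ ≤ τ) (hs : ∀ k, n (k + 1) = n k + γ k)
    (hγ : ∀ k, γ k ≤ n k) (hγ1 : ∀ k, 1 ≤ γ k) (h1γ : 1 ≤ dl τ₀ mp * γ mp)
    (h0γ : (n 0 : ℝ) ≤ dl τ₀ mp * γ mp) (hγτ : ∀ k ≤ mp, (γ k : ℝ) + 1 ≤ τ * ρ k) {c₀ : ℝ}
    (hc₀ : 0 < c₀) (hc₁ : c₀ ≤ 1)
    (hkc : ∀ k ≤ mp, ((γ k : ℝ) + 1) * (c₀ * γ k) ≤ dl τ₀ mp * γ mp) (hδ1 : dl τ₀ mp ≤ 1)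
    (hh : 1000 * h ≤ dl τ₀ mp * c₀ * β)
    (hcu : ContinuousAt (fun t => L {y} u t t) b₁) (huv1 : L {y} u b₁ b₁ ≤ L {y} v b₁ b₁)
    (hUq : U q₁ = L {y} u ((q₁ : ℝ) + s) ((q₁ : ℝ) + s))
    (hDq : D q₁ = L {y, u} v ((q₁ : ℝ) + s) ((q₁ : ℝ) + s))
    {α₀ α β₀ β' : ℝ} (hα₀ : 0 ≤ α₀) (hα : α₀ < α) (hα1 : α < 1)
    (hdeep : U (q (tX 0)) - (q (tX 0) + s) + N * β + 20 * h ≤ L {y} u α₀ α₀ - α)
    (hβ₀ : 0 ≤ β₀) (hβ' : β₀ < β') (hβ1 : β' < 1)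
    (hdeep' : U (q (tX 0)) - (q (tX 0) + s) + N * β + 20 * h ≤ L {y} v β₀ β₀ - β')
    (hap₁ : ∀ k ≤ mp, ∃ p al : ℝ, 0 < p ∧ p < 1 / 2 ∧ 0 < al ∧ n k * β + h < (1 - b₁) * p ∧
      (1 - b₁) * p < n k * β + 2 * h ∧ Act (Ns {y}) ((1 - b₁) * p) al)
    (hap₂ : ∀ k ≤ mp, ∃ p al : ℝ, 0 < p ∧ p < 1 / 2 ∧ 0 < al ∧ n k * β + 2 * h < (1 - b₂) * p ∧
      (1 - b₂) * p < n k * β + 3 * h ∧ Act (Ns {y}) ((1 - b₂) * p) al) : False := by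
  classical
  obtain ⟨x, hx'⟩ : ∃ x : ι → ℝ, x = fun i => (q i : ℝ) + s := ⟨_, rfl⟩
  have hx : ∀ i, x i = (q i : ℝ) + s := fun i => by rw [hx']
  have hQ : ∀ i, q i ∈ G := fun i => hG _ (R.qAB i).1 (R.qAB i).2
  have hx0 : ∀ i, 0 ≤ x i := fun i => by rw [hx]; exact (H.w0 _ (hQ i)).le
  have hx1 : ∀ i, x i ≤ 1 := fun i => by rw [hx]; exact (H.w1 _ (hQ i)).le
  have hU1 : ∀ i, U (q i) ≤ 1 := fun i => (H.U0 _ (hQ i)).2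
  have hD1 : ∀ i, D (q i) ≤ 1 := fun i => (H.D0 _ (hQ i)).2
  have h0 := R.h0
  have hβ0 := R.β0
  have hddp : 0 < dl τ₀ mp := dl_pos hτ₀ mp
  have hdc : dl τ₀ mp * c₀ * β ≤ dl τ₀ mp * β := by
    have h1 : dl τ₀ mp * c₀ ≤ dl τ₀ mp := mul_le_of_le_one_right hddp.le hc₁
    nlinarith
  -- the numbers
  obtain ⟨kM, hkM, e₁, he₁, hN⟩ := nump_box htm hpos H hG (f := fun J F => ptr F J)
    (fun J F => ⟨id, fun _ => rfl⟩) (kn_yF y lam) q R.qAB hx R.gc R.cl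
    (fun i => by rw [hx]; exact hη _ (hQ i)) (θJ := θJ) (θD := θD)
    (fun i j hij => by rw [hx]; exact nJ i j hij) (fun i j hij => by rw [hx]; exact nD i j hij)
    h0.le R.addJ R.addD (tX 0) iO (by rw [hx]; exact na) (by rw [hx]; exact nb) h0.le hab hc₀ h0
  have hN4 : Bas S (NbxS y u v s U g q x lam (tX 0) iO θJ θD kM e₁ (2 * h) (5 * h) h c₀) := by
    have e1 : h + h = 2 * h := by ring
    have e2 : h + 4 * h = 5 * h := by ring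
    have h1 := hN 4
    rw [e1, e2] at h1
    exact h1
  -- the slopes
  have hUL0 : U (q (tX 0)) = L {y} u (x (tX 0)) (x (tX 0)) := by rw [hx]; exact hUL _ (hQ _)
  obtain ⟨eT, heT, m1, m2, n1, hm1, hm2, hn1, hT⟩ := box_tri hS hC₀ htm hL (y := y) (u := u)
    (v := v) hyu hact R hx (hx0 _) hUL0 hUq hDq huv1 (xs := dl τ₀ mp * β / 4) (by linarith)
  have hη0 : 0 < dl τ₀ mp / ((N : ℝ) + 2) := by positivity
  have hsep := sep_cls htm hact (x := dl τ₀ mp * β / 4) (by positivity) 1 hη0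
  -- the charts and the records
  obtain ⟨e₂, he₂, hdat⟩ := box_data hS hC₀ htm hpos hL (y := y) (u := u) (v := v) hyu hact H hG
    hUL hDL hGd hη R hx
  obtain ⟨e, he⟩ : ∃ e, e = min (min e₂ e₁) (min eT h) := ⟨_, rfl⟩
  have he0 : 0 < e := by rw [he]; exact lt_min (lt_min he₂ he₁) (lt_min heT h0)
  have hee₂ : e ≤ e₂ := by rw [he]; exact (min_le_left _ _).trans (min_le_left _ _)
  have hee₁ : e ≤ e₁ := by rw [he]; exact (min_le_left _ _).trans (min_le_right _ _)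
  have heeT : e ≤ eT := by rw [he]; exact (min_le_right _ _).trans (min_le_left _ _)
  have heeh : e ≤ h := by rw [he]; exact (min_le_right _ _).trans (min_le_right _ _)
  have hWb : x (tX 0) ≤ b₁ := by rw [hx]; exact R.Wb.le
  obtain ⟨J₁, hJ₁⟩ := ((box_dpl (y := y) (u := u) (v := v) R hx (hx0 _) he0 heeh (t := b₁) hWb
    R.bb.le (nn := n mp + γ mp)).and (box_dpl (y := y) (u := u) (v := v) R hx (hx0 _) he0 heeh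
    (t := b₂) (hWb.trans R.bb.le) le_rfl (nn := n mp + γ mp))).exists_forall_of_atTop
  obtain ⟨S₁, a, b, V, z, hS₁, sub₁, hnz, hall, hz⟩ := hdat e he0 hee₂ kM hkM J₁
  have hE : ∀ (τ : ℝ) (J : ℕ) (F : Fam m J) (A : F.Ω → Prop), S₁.St τ J F A → J₁ ≤ J ∧
      BxE y u v x (fun i => U (q i)) (fun i => D (q i)) g h e β (tX 0) iO (n mp + γ mp) A
        (fun i => a i J F) (fun i => b i J F) (z J F) := by
    intro τ J F A hA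
    obtain ⟨c1, c2, c3, c4, c5, c6⟩ := hall τ J F A hA
    refine ⟨c1, c2, c3, c4, ?_, ?_⟩
    · simp only [add_mul]
      exact c5
    · simp only [add_mul]
      exact c6
  have htm₁ : TmC S₁ C₀ := fun τ J F A hτ h => htm τ J F A hτ (sub₁ τ J F A h)
  have hpos₁ : ∀ (τ : ℝ) (J : ℕ) (F : Fam m J) (A : F.Ω → Prop), S₁.St τ J F A → 0 < Pe F.p A :=
    fun τ J F A h => hpos τ J F A (sub₁ τ J F A h)
  obtain ⟨x₁, hx₁⟩ : ∃ x₁, x₁ = min eT h := ⟨_, rfl⟩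
  have hx₁0 : 0 < x₁ := by rw [hx₁]; exact lt_min heT h0
  obtain ⟨S₂, f, hS₂, sub₂, hpl⟩ := box_pls hFn hS₁ hC₀ htm₁ hpos₁ (hL.sub sub₁)
    (actN_of_bas (fun Φ hb => Bas.sub sub₁ hb) hNs) (y := y) (u := u) (v := v) (actF_subc sub₁ hact)
    hyu hyv huv R hx hx0 hx1 hU1 hD1 hUL0 hUq hcu huv1 hα₀ hα hα1 (by rw [hx]; exact hdeep) hβ₀ hβ' hβ1
    (by rw [hx]; exact hdeep') (kM := kM) hc₀ hc₁ he0 heeh hee₁ hE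
    (fun J hJ t ht => by
      rcases ht with rfl | rfl
      · exact (hJ₁ J hJ).1
      · exact (hJ₁ J hJ).2) (Bas.sub sub₁ hN4) hz hnz (fun k _ => hγ1 k) hγτ (xl := x₁ / 2)
    (x₁ := x₁) (by linarith) (by linarith) (by rw [hx₁]; exact min_le_right _ _) hap₁ hap₂
    (mp + 1) le_rfl
  have sub₂₀ : ∀ (τ : ℝ) (J : ℕ) (F : Fam m J) (A : F.Ω → Prop), S₂.St τ J F A → S.St τ J F A :=
    fun τ J F A h => sub₁ τ J F A (sub₂ τ J F A h)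
  exact box_fin hS₂ (fun τ J F A h => hpos τ J F A (sub₂₀ τ J F A h)) hyu R hx hx0 hx1 hU1 hD1
    hτ₀ hτ hs hγ hγ1 h1γ h0γ hc₀ hc₁ hkc hδ1 hh he0 heeh hee₁
    (fun τ J F A h => (hE τ J F A (sub₂ τ J F A h)).2) (Bas.sub sub₂₀ hN4) (Bas.sub sub₂ hz) hnz
    heT heeT (by rw [hx₁]; exact min_le_left _ _) hm1 hm2 hn1 (Bas.sub sub₂₀ (hT _ hη0))
    (Bas.sub sub₂₀ hsep) hpl

end Pool.OWN17
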