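import Pool.Agent.H17.COR.Bxu

/-!
# The numbers of a place of a box
-/

set_option autoImplicit false

namespace Pool.OWN17

open Finset Real MvPolynomial Filter Topology
open Pool.Agent.H49.Ent Pool.Agent.H32.Dense Pool.STK Pool.KA Pool.KSAT Pool.K2S Pool.PB Pool.S6C
  Pool.GEN Pool.RCD Pool.LA91 Pool.MIC6 Pool.REX
open Pool.GRD (LbP)

variable {m : ℕ}

theorem log_11 : Real.log 11 ≤ 3 := by
  rw [Real.log_le_iff_le_exp (by norm_num)]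
  have h1 := Real.exp_one_gt_d9
  calc (11 : ℝ) ≤ 2.7182818283 ^ 3 := by norm_num
    _ ≤ Real.exp 1 ^ 3 := pow_le_pow_left₀ (by norm_num) h1.le 3
    _ = Real.exp 3 := by rw [← Real.exp_nat_mul]; norm_num

theorem log_13 : Real.log 13 ≤ 3 := by
  rw [Real.log_le_iff_le_exp (by norm_num)]
  have h1 := Real.exp_one_gt_d9
  calc (13 : ℝ) ≤ 2.7182818283 ^ 3 := by norm_num
    _ ≤ Real.exp 1 ^ 3 := pow_le_pow_left₀ (by norm_num) h1.le 3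
    _ = Real.exp 3 := by rw [← Real.exp_nat_mul]; norm_num

/-- The numbers of the first tube. -/
theorem pa_num {U₀ g h e β b₁ τ : ℝ} {N nk rk : ℕ} (h0 : 0 < h) (he : 0 < e) (heh : e ≤ h)
    (hβ0 : 0 < β) (hg0 : -h ≤ g) (hb0 : 0 ≤ b₁) (hub : b₁ + 100 * h ≤ U₀)
    (hnk : ((nk : ℝ) + rk) * β ≤ N * β) (hone : U₀ + g + 2 * N * β + 100 * h < 1) :
    ∃ J₀ : ℕ, (∀ J ≥ J₀, nk * ⌊β * J⌋₊ ≤ ⌊(N * β + 10 * h) * J⌋₊ ∧
      nk * ⌊β * J⌋₊ ≤ ⌊(nk * β + h) * J⌋₊ ∧ ⌊b₁ * J⌋₊ + nk * ⌊β * J⌋₊ ≤ J ∧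
      ⌊(U₀ - h) * J⌋₊ + nk * ⌊β * J⌋₊ + rk * ⌊β * J⌋₊ + ⌊e * J⌋₊ ≤ J ∧
      ⌊(U₀ + g - 2 * h) * J⌋₊ + nk * ⌊β * J⌋₊ + rk * ⌊β * J⌋₊ + ⌊e * J⌋₊ ≤ J) ∧
      ∀ J ≥ J₀, ((2 - τ) * (rk * β * Real.log 2) + 80 * h) * J + (2 * J -
        ((⌊(U₀ - h) * J⌋₊ : ℕ) + (⌊(U₀ + g - 2 * h) * J⌋₊ : ℕ) + 2 * ((nk * ⌊β * J⌋₊ : ℕ) : ℝ) +
          2 * ((rk * ⌊β * J⌋₊ : ℕ) : ℝ))) * Real.log 2 +
      (3 * Real.log 11 + Real.log 9) ≤
        (2 - (2 * U₀ + g + 2 * (nk * β) + τ * (rk * β) - 130 * h)) * Real.log 2 * J := by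
  have hnβ : 0 ≤ nk * β := by positivity
  have hrβ : 0 ≤ rk * β := by positivity
  rw [add_mul] at hnk
  have hNβ : 0 ≤ N * β := by positivity
  have k1 := fl_ev [(nk, β)] [(1, N * β + 10 * h)] 0 (by simp [hβ0.le]) (by
    simp only [List.map_cons, List.map_nil, List.sum_cons, List.sum_nil]
    push_cast
    linarith)
  have k2 := fl_ev [(nk, β)] [(1, nk * β + h)] 0 (by simp [hβ0.le]) (by
    simp only [List.map_cons, List.map_nil, List.sum_cons, List.sum_nil]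
    push_cast
    linarith)
  have k3 := fl_ev [(1, b₁), (nk, β)] [(1, 1)] 0 (by simp [hβ0.le, hb0]) (by
    simp only [List.map_cons, List.map_nil, List.sum_cons, List.sum_nil]
    push_cast
    linarith)
  have k4 := fl_ev [(1, U₀ - h), (nk, β), (rk, β), (1, e)] [(1, 1)] 0 (by
    simp only [List.mem_cons, List.not_mem_nil, or_false, forall_eq_or_imp, forall_eq]
    exact ⟨by linarith, hβ0.le, hβ0.le, he.le⟩) (by
    simp only [List.map_cons, List.map_nil, List.sum_cons, List.sum_nil]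
    push_cast
    linarith)
  have k5 := fl_ev [(1, U₀ + g - 2 * h), (nk, β), (rk, β), (1, e)] [(1, 1)] 0 (by
    simp only [List.mem_cons, List.not_mem_nil, or_false, forall_eq_or_imp, forall_eq]
    exact ⟨by linarith, hβ0.le, hβ0.le, he.le⟩) (by
    simp only [List.map_cons, List.map_nil, List.sum_cons, List.sum_nil]
    push_cast
    linarith)
  obtain ⟨J₀, hJ₀⟩ := (k1.and (k2.and (k3.and (k4.and (k5.and (ge_ev (4 * (nk : ℝ) + 4 * rk + 20)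
    h0)))))).exists_forall_of_atTop
  refine ⟨J₀, fun J hJ => ?_, fun J hJ => ?_⟩
  · obtain ⟨a1, a2, a3, a4, a5, -⟩ := hJ₀ J hJ
    simp only [List.map_cons, List.map_nil, List.sum_cons, List.sum_nil, one_mul,
      Nat.floor_natCast, add_zero] at a1 a2 a3 a4 a5
    exact ⟨a1, a2, a3, by omega, by omega⟩
  · obtain ⟨-, -, -, -, -, hJh⟩ := hJ₀ J hJ
    have hJ0 : (0 : ℝ) ≤ J := Nat.cast_nonneg J
    have l1 : 0.69 ≤ Real.log 2 := by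
      have := Real.log_two_gt_d9
      linarith
    have l2 : Real.log 2 ≤ 0.7 := by
      have := Real.log_two_lt_d9
      linarith
    have f1 : (U₀ - h) * (J : ℝ) - 1 < ⌊(U₀ - h) * (J : ℝ)⌋₊ := Nat.sub_one_lt_floor _
    have f2 : (U₀ + g - 2 * h) * (J : ℝ) - 1 < ⌊(U₀ + g - 2 * h) * (J : ℝ)⌋₊ :=
      Nat.sub_one_lt_floor _
    have f3 : β * (J : ℝ) - 1 < ⌊β * (J : ℝ)⌋₊ := Nat.sub_one_lt_floor _
    have f4 := mul_le_mul_of_nonneg_left f3.le (Nat.cast_nonneg (α := ℝ) nk)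
    obtain ⟨Q, hQ⟩ : ∃ Q : ℝ, Q = (⌊(U₀ - h) * (J : ℝ)⌋₊ : ℝ) +
      (⌊(U₀ + g - 2 * h) * (J : ℝ)⌋₊ : ℝ) + 2 * ((nk * ⌊β * (J : ℝ)⌋₊ : ℕ) : ℝ) +
          2 * ((rk * ⌊β * (J : ℝ)⌋₊ : ℕ) : ℝ) := ⟨_, rfl⟩
    rw [← hQ]
    have f5 := mul_le_mul_of_nonneg_left f3.le (Nat.cast_nonneg (α := ℝ) rk)
    have hQ1 : (2 * U₀ + g - 3 * h + 2 * (nk * β) + 2 * (rk * β)) * J - (2 + 2 * nk + 2 * rk) ≤
        Q := by
      rw [hQ]
      push_cast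
      nlinarith
    have q1 := log_11
    have q2 := log_9
    have q3 : (2 * J - Q) * Real.log 2 ≤ (2 * J - ((2 * U₀ + g - 3 * h + 2 * (nk * β) +
        2 * (rk * β)) * J - (2 + 2 * nk + 2 * rk))) * Real.log 2 :=
      mul_le_mul_of_nonneg_right (by linarith) (by linarith)
    have q4 : (2 + 2 * (nk : ℝ) + 2 * rk) * Real.log 2 ≤ (2 + 2 * nk + 2 * rk) * 0.7 :=
      mul_le_mul_of_nonneg_left l2 (by positivity)
    have hhJ : 0 ≤ h * (J : ℝ) := by positivity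
    have q5 : 127 * (h * J) * 0.69 ≤ 127 * (h * J) * Real.log 2 :=
      mul_le_mul_of_nonneg_left l1 (by positivity)
    nlinarith

/-- The numbers of the second tube. -/
theorem pb_num {U₀ g h e β b₂ x₁ M W O UO DO P₂ : ℝ} {N nk γk : ℕ} {PJ : ℕ → ℕ} (h0 : 0 < h)
    (he : 0 < e) (heh : e ≤ h) (hβ0 : 0 < β) (hβh : 1000 * h ≤ β) (hg0 : -h ≤ g) (hb0 : 0 ≤ b₂)
    (hub : b₂ + 100 * h ≤ U₀) (hx₁ : 0 < x₁) (hx₁h : x₁ ≤ h) (hγ1 : 1 ≤ γk)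
    (hnk : ((nk : ℝ) + γk) * β ≤ N * β) (hone : U₀ + g + 2 * N * β + 100 * h < 1)
    (hWb : W ≤ b₂) (hO : 0 ≤ O)
    (haO : U₀ - W + N * β + 60 * h ≤ UO - O) (hDO : g + UO ≤ DO)
    (hM : U₀ + g + (nk * β + γk * β) + 10 * h ≤ M) (hP₂ : P₂ ≤ nk * β + 3 * h)
    (hPJ : ∀ᶠ J : ℕ in atTop, PJ J ≤ ⌊(nk * β + 2 * h) * J⌋₊) :
    ∃ J₀ : ℕ, (∀ J ≥ J₀, nk * ⌊β * J⌋₊ ≤ ⌊(N * β + 10 * h) * J⌋₊ ∧
      nk * ⌊β * J⌋₊ ≤ ⌊(nk * β + 2 * h) * J⌋₊ ∧ ⌊b₂ * J⌋₊ + nk * ⌊β * J⌋₊ ≤ J ∧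
      ⌊b₂ * J⌋₊ + γk * ⌊β * J⌋₊ ≤ J ∧
      ⌊(U₀ - h) * J⌋₊ + nk * ⌊β * J⌋₊ + γk * ⌊β * J⌋₊ + ⌊e * J⌋₊ ≤ J ∧
      ⌊20 * h * J⌋₊ ≤ γk * ⌊β * J⌋₊) ∧
      (∀ J ≥ J₀, (U₀ + h + 2 * P₂ + b₂ - (b₂ + nk * β)) * J -
        ((⌊(U₀ - h) * J⌋₊ : ℕ) + ((nk * ⌊β * J⌋₊ : ℕ) : ℝ)) ≤ 9 * h * J ∧
        (b₂ + P₂) * J - ((⌊b₂ * J⌋₊ : ℕ) + ((nk * ⌊β * J⌋₊ : ℕ) : ℝ)) ≤ 4 * h * J ∧
        (9 * h + h) * J + (Real.log 13 + 2 * Real.log 11) < (⌊20 * h * J⌋₊ : ℕ) * Real.log 2) ∧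
      ∀ J ≥ J₀, ⌊(U₀ + g - 2 * h) * J⌋₊ + nk * ⌊β * J⌋₊ + (max ⌊x₁ * J⌋₊ ⌊e * J⌋₊ +
          (⌊e * J⌋₊ + 2)) ≤ J ∧
        ⌊(U₀ + g - 2 * h) * J⌋₊ + nk * ⌊β * J⌋₊ + γk * ⌊β * J⌋₊ ≤ ⌊M * J⌋₊ ∧
        ⌊h * J⌋₊ + 1 + PJ J + ⌊(U₀ + g - 2 * h) * J⌋₊ + γk * ⌊β * J⌋₊ ≤ ⌊M * J⌋₊ ∧
        ⌊h * J⌋₊ + 1 + PJ J + ⌊O * J⌋₊ + ⌊(U₀ + g - 2 * h) * J⌋₊ + γk * ⌊β * J⌋₊ ≤
          ⌊(DO - e) * J⌋₊ + ⌊b₂ * J⌋₊ ∧
        ⌊h * J⌋₊ + 1 + PJ J + (⌊20 * h * J⌋₊ + 1) + ⌊(U₀ - h) * J⌋₊ + ⌊O * J⌋₊ +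
          γk * ⌊β * J⌋₊ ≤ ⌊(UO - e) * J⌋₊ + ⌊b₂ * J⌋₊ := by
  have hnβ : 0 ≤ nk * β := by positivity
  have hγβ : β ≤ γk * β := by
    have : (1 : ℝ) ≤ γk := by exact_mod_cast hγ1
    nlinarith
  have hNβ : 0 ≤ N * β := by positivity
  rw [add_mul] at hnk
  have k1 := fl_ev [(nk, β)] [(1, N * β + 10 * h)] 0 (by simp [hβ0.le]) (by
    simp only [List.map_cons, List.map_nil, List.sum_cons, List.sum_nil]
    push_cast
    linarith)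
  have k2 := fl_ev [(nk, β)] [(1, nk * β + 2 * h)] 0 (by simp [hβ0.le]) (by
    simp only [List.map_cons, List.map_nil, List.sum_cons, List.sum_nil]
    push_cast
    linarith)
  have k3 := fl_ev [(1, b₂), (nk, β), (γk, β)] [(1, 1)] 0 (by simp [hβ0.le, hb0]) (by
    simp only [List.map_cons, List.map_nil, List.sum_cons, List.sum_nil]
    push_cast
    linarith)
  have k4 := fl_ev [(1, U₀ - h), (nk, β), (γk, β), (1, e)] [(1, 1)] 0 (by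
    simp only [List.mem_cons, List.not_mem_nil, or_false, forall_eq_or_imp, forall_eq]
    exact ⟨by linarith, hβ0.le, hβ0.le, he.le⟩) (by
    simp only [List.map_cons, List.map_nil, List.sum_cons, List.sum_nil]
    push_cast
    linarith)
  have k5 := fl_ev [(1, 20 * h)] [(γk, β)] 0 (by
    simp only [List.mem_cons, List.not_mem_nil, or_false, forall_eq]
    linarith) (by
    simp only [List.map_cons, List.map_nil, List.sum_cons, List.sum_nil]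
    push_cast
    linarith)
  have k6 := fl_ev [(1, U₀ + g - 2 * h), (nk, β), (1, x₁), (1, e), (1, e)] [(1, 1)] 2 (by
    simp only [List.mem_cons, List.not_mem_nil, or_false, forall_eq_or_imp, forall_eq]
    exact ⟨by linarith, hβ0.le, hx₁.le, he.le, he.le⟩) (by
    simp only [List.map_cons, List.map_nil, List.sum_cons, List.sum_nil]
    push_cast
    linarith)
  have k7 := fl_ev [(1, U₀ + g - 2 * h), (nk, β), (γk, β)] [(1, M)] 0 (by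
    simp only [List.mem_cons, List.not_mem_nil, or_false, forall_eq_or_imp, forall_eq]
    exact ⟨by linarith, hβ0.le, hβ0.le⟩) (by
    simp only [List.map_cons, List.map_nil, List.sum_cons, List.sum_nil]
    push_cast
    linarith)
  have k8 := fl_ev [(1, h), (1, nk * β + 2 * h), (1, U₀ + g - 2 * h), (γk, β)] [(1, M)] 1 (by
    simp only [List.mem_cons, List.not_mem_nil, or_false, forall_eq_or_imp, forall_eq]
    exact ⟨h0.le, by linarith, by linarith, hβ0.le⟩) (by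
    simp only [List.map_cons, List.map_nil, List.sum_cons, List.sum_nil]
    push_cast
    linarith)
  have k9 := fl_ev [(1, h), (1, nk * β + 2 * h), (1, O), (1, U₀ + g - 2 * h), (γk, β)]
    [(1, DO - e), (1, b₂)] 1 (by
    simp only [List.mem_cons, List.not_mem_nil, or_false, forall_eq_or_imp, forall_eq]
    exact ⟨h0.le, by linarith, hO, by linarith, hβ0.le⟩) (by
    simp only [List.map_cons, List.map_nil, List.sum_cons, List.sum_nil]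
    push_cast
    linarith)
  have k10 := fl_ev [(1, h), (1, nk * β + 2 * h), (1, 20 * h), (1, U₀ - h), (1, O), (γk, β)]
    [(1, UO - e), (1, b₂)] 2 (by
    simp only [List.mem_cons, List.not_mem_nil, or_false, forall_eq_or_imp, forall_eq]
    exact ⟨h0.le, by linarith, by linarith, by linarith, hO, hβ0.le⟩) (by
    simp only [List.map_cons, List.map_nil, List.sum_cons, List.sum_nil]
    push_cast
    linarith)
  obtain ⟨J₀, hJ₀⟩ := (k1.and (k2.and (k3.and (k4.and (k5.and (k6.and (k7.and (k8.and (k9.and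
    (k10.and (hPJ.and (ge_ev ((nk : ℝ) + 20) h0)))))))))))).exists_forall_of_atTop
  refine ⟨J₀, fun J hJ => ?_, fun J hJ => ?_, fun J hJ => ?_⟩
  · obtain ⟨a1, a2, a3, a4, a5, -⟩ := hJ₀ J hJ
    simp only [List.map_cons, List.map_nil, List.sum_cons, List.sum_nil, one_mul,
      Nat.floor_natCast, add_zero] at a1 a2 a3 a4 a5
    exact ⟨a1, a2, by omega, by omega, by omega, a5⟩
  · obtain ⟨-, -, -, -, -, -, -, -, -, -, -, hJh⟩ := hJ₀ J hJ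
    have hJ0 : (0 : ℝ) ≤ J := Nat.cast_nonneg J
    have l1 : 0.69 ≤ Real.log 2 := by
      have := Real.log_two_gt_d9
      linarith
    have l2 : Real.log 2 ≤ 0.7 := by
      have := Real.log_two_lt_d9
      linarith
    have f1 : (U₀ - h) * (J : ℝ) - 1 < ⌊(U₀ - h) * (J : ℝ)⌋₊ := Nat.sub_one_lt_floor _
    have f2 : b₂ * (J : ℝ) - 1 < ⌊b₂ * (J : ℝ)⌋₊ := Nat.sub_one_lt_floor _
    have f3 : β * (J : ℝ) - 1 < ⌊β * (J : ℝ)⌋₊ := Nat.sub_one_lt_floor _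
    have f4 := mul_le_mul_of_nonneg_left f3.le (Nat.cast_nonneg (α := ℝ) nk)
    have f5 : 20 * h * (J : ℝ) - 1 < ⌊20 * h * (J : ℝ)⌋₊ := Nat.sub_one_lt_floor _
    have f6 := mul_le_mul_of_nonneg_right hP₂ hJ0
    have hhJ : 0 ≤ h * (J : ℝ) := by positivity
    have q1 := log_11
    have q2 := log_13
    refine ⟨?_, ?_, ?_⟩
    · push_cast
      nlinarith
    · push_cast
      nlinarith
    · have f7 := mul_le_mul_of_nonneg_right f5.le (show 0 ≤ Real.log 2 by linarith)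
      have f8 : (20 * h * J - 1) * 0.69 ≤ (20 * h * (J : ℝ) - 1) * Real.log 2 :=
        mul_le_mul_of_nonneg_left l1 (by nlinarith)
      have hnk0 : (0 : ℝ) ≤ nk := Nat.cast_nonneg nk
      nlinarith
  · obtain ⟨-, -, -, -, -, a6, a7, a8, a9, a10, a11, -⟩ := hJ₀ J hJ
    simp only [List.map_cons, List.map_nil, List.sum_cons, List.sum_nil, one_mul,
      Nat.floor_natCast, add_zero] at a6 a7 a8 a9 a10
    refine ⟨?_, by omega, by omega, by omega, by omega⟩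
    have hm : max ⌊x₁ * (J : ℝ)⌋₊ ⌊e * (J : ℝ)⌋₊ ≤ ⌊x₁ * (J : ℝ)⌋₊ + ⌊e * (J : ℝ)⌋₊ :=
      max_le (by omega) (by omega)
    omega

/-- The number of digits of the tube. -/
theorem vP_ev (v : Vz m) {Q : ℝ} (h : (1 - v.b) * v.p < Q) :
    ∀ᶠ J : ℕ in atTop, v.P J ≤ ⌊Q * J⌋₊ := by
  have hb0 := v.b0
  have hb1 := v.b1
  have hp0 := v.p0
  have hp1 := v.p1
  filter_upwards [ge_ev 1 (sub_pos.2 h)] with J hJ
  have hJ0 : (0 : ℝ) ≤ J := Nat.cast_nonneg J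
  have hBJ : v.B J ≤ J := floor_le hb1.le J
  have f1 : v.b * (J : ℝ) - 1 < (v.B J : ℝ) := Nat.sub_one_lt_floor _
  have e1 : ((J - v.B J : ℕ) : ℝ) = J - v.B J := by
    rw [Nat.cast_sub hBJ]
  refine Nat.le_floor ?_
  have f2 : (v.P J : ℝ) ≤ v.p * ((J - v.B J : ℕ) : ℝ) :=
    Nat.floor_le (mul_nonneg hp0 (Nat.cast_nonneg _))
  rw [e1] at f2
  rw [sub_mul] at hJ
  have f3 : v.p * ((J : ℝ) - v.B J) ≤ v.p * (J - (v.b * J - 1)) :=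
    mul_le_mul_of_nonneg_left (by linarith) hp0
  nlinarith

end Pool.OWN17
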