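import Pool.Agent.H17.COR.Sch

/-!
# Small errors at a large resolution

`sml_ev`: the conditions `Sml` for the places `n k * ⌊β J⌋`, `γ k * ⌊β J⌋`.
-/

set_option autoImplicit false

namespace Pool.OWN17

open Finset Real Filter Topology
open Pool.Agent.H49.Ent Pool.Agent.H32.Dense Pool.STK Pool.CH30 Pool.KM7 Pool.OWN68

/-- Logarithms are small. -/
theorem log_ev (a : ℝ) (ha : 0 ≤ a) {e : ℝ} (he : 0 < e) :
    ∃ J₁ : ℕ, ∀ J : ℕ, J₁ ≤ J → Real.log (a * J + 2) ≤ e * J := by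
  have h1 : Tendsto (fun x : ℝ => Real.log x / x) atTop (𝓝 0) := by
    have := Real.tendsto_pow_log_div_mul_add_atTop 1 0 1 one_ne_zero
    simpa using this
  have h2 : Tendsto (fun J : ℕ => (a + 2) * (J : ℝ)) atTop atTop :=
    Tendsto.const_mul_atTop (by positivity) tendsto_natCast_atTop_atTop
  have h3 := (h1.comp h2).eventually (gt_mem_nhds (show 0 < e / (a + 2) by positivity))
  obtain ⟨J₁, hJ₁⟩ := (h3.and (eventually_ge_atTop 1)).exists_forall_of_atTop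
  refine ⟨J₁, fun J hJ => ?_⟩
  obtain ⟨k1, k2⟩ := hJ₁ J hJ
  have hJ1 : (1 : ℝ) ≤ J := by exact_mod_cast k2
  have k3 : Real.log ((a + 2) * J) / ((a + 2) * J) < e / (a + 2) := k1
  rw [div_lt_div_iff₀ (by positivity) (by positivity)] at k3
  have k4 : Real.log (a * J + 2) ≤ Real.log ((a + 2) * J) :=
    Real.log_le_log (by positivity) (by nlinarith)
  have k5 : Real.log ((a + 2) * J) * (a + 2) < e * J * (a + 2) := by
    calc _ < e * ((a + 2) * J) := k3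
      _ = _ := by ring
  have k6 := lt_of_mul_lt_mul_right k5 (by positivity)
  linarith

/-- **Small errors** at a large resolution. -/
theorem sml_ev {δ β c₀ η : ℝ} {m N : ℕ} {n γ : ℕ → ℕ} (hδ : 0 < δ) (hβ : 0 < β)
    (hc₀ : 0 < c₀) (hc₀1 : c₀ ≤ 1) (hη0 : 0 ≤ η) (hγ1 : ∀ k, 1 ≤ γ k) (h1 : 1 ≤ δ * γ m)
    (h0 : (n 0 : ℝ) ≤ δ * γ m) (hk : ∀ k ≤ m, ((γ k : ℝ) + 1) * (c₀ * γ k) ≤ δ * γ m)
    (hη : η * ((N : ℝ) + 2) ≤ δ) (hgN : ∀ k ≤ m, n k + γ k ≤ N) :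
    ∃ J₁ : ℕ, ∀ J : ℕ, J₁ ≤ J → ∀ (c x : ℕ) (e₁ eU ec eF eL : ℝ), 1 ≤ c →
      Real.log c ≤ δ * c₀ * β / 4 * J → Real.log c ≤ β / 4 * J → (x : ℝ) ≤ δ * β / 2 * J →
      0 ≤ e₁ → 0 ≤ eU → 0 ≤ ec → e₁ ≤ δ * β / 2 * J → eU ≤ δ * c₀ * β / 2 * J →
      ec ≤ δ * β / 2 * J → eF ≤ δ * β / 2 * J → eL ≤ δ * β / 2 * J →
      Sml c m ⌊β * J⌋₊ x (4 * c * 2 ^ (N * ⌊β * J⌋₊)) (fun k => n k * ⌊β * J⌋₊)
        (fun k => γ k * ⌊β * J⌋₊) δ (N + 2) c₀ e₁ eU ec eF eL η := by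
  obtain ⟨J₂, hJ₂⟩ := exists_nat_ge (2 / β)
  obtain ⟨J₃, hJ₃⟩ := exists_nat_ge (4 / (δ * c₀ * β))
  obtain ⟨J₄, hJ₄⟩ := exists_nat_ge (16 / β)
  obtain ⟨J₅, hJ₅⟩ := log_ev (2 * N * β) (by positivity) (e := δ * β / 2) (by positivity)
  refine ⟨J₂ + J₃ + J₄ + J₅ + 1, fun J hJ c x e₁ eU ec eF eL hc1 hlc hlc' hx he₁ heU hec l1 lU lc lF
    lL => ?_⟩
  have hJr : ((J₂ + J₃ + J₄ + J₅ + 1 : ℕ) : ℝ) ≤ J := by exact_mod_cast hJ
  push_cast at hJr
  have p2 : (0 : ℝ) ≤ J₂ := Nat.cast_nonneg _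
  have p3 : (0 : ℝ) ≤ J₃ := Nat.cast_nonneg _
  have p4 : (0 : ℝ) ≤ J₄ := Nat.cast_nonneg _
  have p5 : (0 : ℝ) ≤ J₅ := Nat.cast_nonneg _
  have hJ0 : (0 : ℝ) < J := by linarith
  obtain ⟨b, hb⟩ : ∃ b : ℕ, b = ⌊β * J⌋₊ := ⟨_, rfl⟩
  have hbJ : (b : ℝ) ≤ β * J := by
    rw [hb]
    exact Nat.floor_le (by positivity)
  have m2 : 2 ≤ β * J := by
    have : 2 / β ≤ J := by linarith
    rw [div_le_iff₀ hβ] at this
    linarith
  have m3 : 1 ≤ δ * c₀ * β / 4 * J := by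
    have : 4 / (δ * c₀ * β) ≤ J := by linarith
    rw [div_le_iff₀ (by positivity)] at this
    linarith
  have m4 : 4 ≤ β / 4 * J := by
    have : 16 / β ≤ J := by linarith
    rw [div_le_iff₀ hβ] at this
    linarith
  have hb2 : β * J / 2 ≤ b := by
    have := Nat.lt_floor_add_one (β * J)
    rw [← hb] at this
    linarith
  have hb1 : 1 ≤ b := by
    have : (1 : ℝ) ≤ b := by linarith
    exact_mod_cast this
  have hb1r : (1 : ℝ) ≤ b := by exact_mod_cast hb1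
  have hγm : (1 : ℝ) ≤ γ m := by exact_mod_cast hγ1 m
  have hgm : β * J / 2 ≤ ((γ m * b : ℕ) : ℝ) := by
    push_cast
    nlinarith
  have hgb : (b : ℝ) ≤ ((γ m * b : ℕ) : ℝ) := by
    push_cast
    nlinarith
  have hδg : δ * β / 2 * J ≤ δ * ((γ m * b : ℕ) : ℝ) := by
    have := mul_le_mul_of_nonneg_left hgm hδ.le
    linarith
  have hδcg : δ * c₀ * β / 2 * J ≤ δ * c₀ * ((γ m * b : ℕ) : ℝ) := by
    have := mul_le_mul_of_nonneg_left hgm (show 0 ≤ δ * c₀ by positivity)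
    linarith
  rw [← hb]
  refine ⟨hc1, hb1, hc₀, hc₀1, he₁, heU, hec, hη0, ?_, ?_, hx.trans hδg, ?_, hη, l1.trans hδg,
    lU.trans hδcg, lc.trans hδg, lF.trans hδg, lL.trans hδg, ?_, fun k hkm => ?_, fun k hkm => ?_,
    ?_⟩
  · exact Nat.mul_pos (hγ1 m) hb1
  · refine le_trans ?_ hδcg
    linarith
  · have e1 : (2 : ℝ) * ((4 * c * 2 ^ (N * b) : ℕ) : ℝ) + 1 ≤ 12 * c * 2 ^ (N * b) := by
      push_cast
      have h1 : (1 : ℝ) ≤ c := by exact_mod_cast hc1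
      have h2 : (1 : ℝ) ≤ 2 ^ (N * b) := one_le_pow₀ (by norm_num)
      nlinarith [mul_le_mul h1 h2 (by norm_num) (by linarith)]
    have hcp : (0 : ℝ) < c := by
      have : (1 : ℝ) ≤ c := by exact_mod_cast hc1
      linarith
    refine (Real.log_le_log (by positivity) e1).trans ?_
    rw [Real.log_mul (by positivity) (by positivity), Real.log_mul (by norm_num) (by positivity),
      Real.log_pow]
    have h12 : Real.log 12 ≤ 4 := log_le_nat (n := 4) (by norm_num) (by norm_num)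
    have hl2 : Real.log 2 ≤ 1 := by
      have := Real.log_two_lt_d9
      linarith
    have h3 : ((N * b : ℕ) : ℝ) * Real.log 2 ≤ N * b := by
      push_cast
      have : (0 : ℝ) ≤ N * b := by positivity
      nlinarith
    have h4 : ((N : ℝ) + 2) * b ≤ (N + 2) * ((γ m * b : ℕ) : ℝ) :=
      mul_le_mul_of_nonneg_left hgb (by positivity)
    refine le_trans ?_ h4
    linarith
  · push_cast
    nlinarith
  · have e1 : γ k * b / b = γ k := Nat.mul_div_cancel _ hb1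
    show (((γ k * b / b : ℕ) : ℝ) + 1) * (c₀ * ((γ k * b : ℕ) : ℝ)) ≤ δ * ((γ m * b : ℕ) : ℝ)
    rw [e1]
    push_cast
    have := mul_le_mul_of_nonneg_right (hk k hkm) (Nat.cast_nonneg (α := ℝ) b)
    linarith
  · refine le_trans ?_ hδg
    refine le_trans ?_ (hJ₅ J (by omega))
    refine Real.log_le_log (by positivity) ?_
    have h1 : γ k * b ≤ N * b := Nat.mul_le_mul_right b (by have := hgN k hkm; omega)
    have h2 : ((γ k * b : ℕ) : ℝ) ≤ N * b := by exact_mod_cast h1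
    have h3 : (N : ℝ) * b ≤ N * (β * J) := mul_le_mul_of_nonneg_left hbJ (Nat.cast_nonneg _)
    linarith
  · push_cast
    have := mul_le_mul_of_nonneg_right h0 (Nat.cast_nonneg (α := ℝ) b)
    linarith

end Pool.OWN17
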