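import Pool.Agent.H17.COR.Trn
import Pool.Agent.H17.COR.Sme

/-!
# The data of a place

`tie_rootR`: the label and the frame agree, with the bound of the slopes. `geoN_of`: the geometry of a
place. `PlS`: the data of a place for one event.
-/

set_option autoImplicit false

namespace Pool.OWN17

open Finset Real MvPolynomial
open Pool.Agent.H49.Ent Pool.Agent.H32.Dense Pool.STK Pool.KA Pool.KSAT Pool.K2S Pool.PB Pool.S6C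
  Pool.GEN Pool.RCD Pool.LA91 Pool.MIC6 Pool.REX Pool.REX83
open Pool.GRD (LbP)

variable {m n : ℕ}

/-- The velocity relation of a label and of a frame, with the bound of the slopes. -/
theorem tie_algR {e du dv : ℝ} {a b f : Fin 4 → ℝ} {δu δv δl R : ℝ} (hR : 0 ≤ R)
    (hu : |du - (a 1 + a 2 * e)| ≤ δu) (hv : |dv - (b 1 + b 2 * e + b 3 * du)| ≤ δv)
    (hl : |dv - (f 1 + f 2 * e + f 3 * du)| ≤ δl) (hf : |f 3 - b 3| ≤ R) :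
    |((f 1 - b 1) + (f 3 - b 3) * a 1) + ((f 2 - b 2) + (f 3 - b 3) * a 2) * e| ≤
      δl + δv + R * δu := by
  have e1 : ((f 1 - b 1) + (f 3 - b 3) * a 1) + ((f 2 - b 2) + (f 3 - b 3) * a 2) * e =
      -(dv - (f 1 + f 2 * e + f 3 * du)) + (dv - (b 1 + b 2 * e + b 3 * du)) -
        (f 3 - b 3) * (du - (a 1 + a 2 * e)) := by ring
  rw [e1]
  have h1 : |(f 3 - b 3) * (du - (a 1 + a 2 * e))| ≤ R * δu := by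
    rw [abs_mul]
    exact mul_le_mul hf hu (abs_nonneg _) hR
  have h2 := abs_add_le (-(dv - (f 1 + f 2 * e + f 3 * du)) + (dv - (b 1 + b 2 * e + b 3 * du)))
    (-((f 3 - b 3) * (du - (a 1 + a 2 * e))))
  have h3 := abs_add_le (-(dv - (f 1 + f 2 * e + f 3 * du))) (dv - (b 1 + b 2 * e + b 3 * du))
  rw [abs_neg] at h2 h3
  rw [← sub_eq_add_neg] at h2
  linarith

/-- **The label and the frame agree**, on all events of a subclass; `R` bounds the difference of the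
slopes. -/
theorem tie_rootR {S : PCl m} (hS : S.Ne) {C₀ : ℝ} (htm : TmC S C₀) {v : Vz m} {y u k : Fin m}
    (hact : ActZ S v (id : Fin m → Fin m) y) {t x M x₀ O : ℝ} {f a b : ∀ (J : ℕ) (F : Fam m J),
      LnT F → Fin 4 → ℝ} {MU MV E : ℕ → ℕ} {R : ℕ → ℝ} (hR : ∀ J, 0 ≤ R J) (hx : 0 < x) (J₀ : ℕ)
    (hf : ∀ (τ : ℝ) (J : ℕ) (F : Fam m J) (A : F.Ω → Prop), S.St τ J F A →
      Lbk F v y u k ⌊t * J⌋₊ ⌊x₀ * J⌋₊ ⌊M * J⌋₊ (f J F) A)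
    (ha : ∀ (τ : ℝ) (J : ℕ) (F : Fam m J) (A : F.Ω → Prop), S.St τ J F A →
      ChA F y y u ⌊O * J⌋₊ (MU J) (E J) (a J F) A ∧ (∀ s, a J F s 3 = 0) ∧
      ChA F y u k ⌊O * J⌋₊ (MV J) (E J) (b J F) A)
    (hsl : ∀ (τ : ℝ) (J : ℕ) (F : Fam m J) (A : F.Ω → Prop), S.St τ J F A → ∀ ω, A ω →
      |f J F (slam F ⌊t * J⌋₊ ω) 3 - b J F (slam F ⌊O * J⌋₊ ω) 3| ≤ R J) :
    ∃ S' : PCl m, S'.Ne ∧
      (∀ (τ : ℝ) (J : ℕ) (F : Fam m J) (A : F.Ω → Prop), S'.St τ J F A → S.St τ J F A) ∧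
      ∀ (τ : ℝ) (J : ℕ) (F : Fam m J) (A : F.Ω → Prop), S'.St τ J F A → J₀ ≤ J ∧ ∀ ω, A ω →
        |(f J F (slam F ⌊t * J⌋₊ ω) 2 - b J F (slam F ⌊O * J⌋₊ ω) 2) +
          (f J F (slam F ⌊t * J⌋₊ ω) 3 - b J F (slam F ⌊O * J⌋₊ ω) 3) *
            a J F (slam F ⌊O * J⌋₊ ω) 2| ≤
          2 ^ (⌊x * J⌋₊ + 1) * 2 ^ v.P J * (2 ^ ⌊t * J⌋₊ / 2 ^ ⌊M * J⌋₊ +
            2 ^ ⌊O * J⌋₊ / 2 ^ MV J + R J * (2 ^ ⌊O * J⌋₊ / 2 ^ MU J)) := by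
  refine prop_root (C := 2) hS (fun J F ω =>
    |(f J F (slam F ⌊t * J⌋₊ ω) 2 - b J F (slam F ⌊O * J⌋₊ ω) 2) +
      (f J F (slam F ⌊t * J⌋₊ ω) 3 - b J F (slam F ⌊O * J⌋₊ ω) 3) *
        a J F (slam F ⌊O * J⌋₊ ω) 2| ≤
      2 ^ (⌊x * J⌋₊ + 1) * 2 ^ v.P J * (2 ^ ⌊t * J⌋₊ / 2 ^ ⌊M * J⌋₊ +
        2 ^ ⌊O * J⌋₊ / 2 ^ MV J + R J * (2 ^ ⌊O * J⌋₊ / 2 ^ MU J))) J₀ ?_
  have hst : Bas S (fun J F A => Lbk F v y u k ⌊t * J⌋₊ ⌊x₀ * J⌋₊ ⌊M * J⌋₊ (f J F) A ∧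
      (ChA F y y u ⌊O * J⌋₊ (MU J) (E J) (a J F) A ∧ (∀ s, a J F s 3 = 0) ∧
      ChA F y u k ⌊O * J⌋₊ (MV J) (E J) (b J F) A) ∧ ∀ ω, A ω →
      |f J F (slam F ⌊t * J⌋₊ ω) 3 - b J F (slam F ⌊O * J⌋₊ ω) 3| ≤ R J) :=
    ⟨1, one_pos, 0, fun J _ F A hA => ⟨hf 1 J F A hA, ha 1 J F A hA, hsl 1 J F A hA⟩⟩
  refine Bas.mono 0 ((act_z htm hact hx).and hst) ?_
  rintro J - F A ⟨hz, hl, ⟨hu, hu3, hv⟩, hs3⟩
  obtain ⟨-, hP, -⟩ := v.floor_le J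
  obtain ⟨φ, hφ⟩ := hl.cls hP
  obtain ⟨φu, hφu⟩ := hu.cls
  obtain ⟨φv, hφv⟩ := hv.cls
  obtain ⟨s, hs⟩ : ∃ s : F.Ω → LnT F, s = slam F ⌊O * J⌋₊ := ⟨_, rfl⟩
  obtain ⟨r, hr⟩ : ∃ r : F.Ω → LnT F, r = slam F ⌊t * J⌋₊ := ⟨_, rfl⟩
  have hE : 0 < (2 : ℝ) ^ ⌊t * J⌋₊ / 2 ^ ⌊M * J⌋₊ + 2 ^ ⌊O * J⌋₊ / 2 ^ MV J +
      R J * (2 ^ ⌊O * J⌋₊ / 2 ^ MU J) := by
    have h1 : 0 ≤ R J * ((2 : ℝ) ^ ⌊O * J⌋₊ / 2 ^ MU J) := mul_nonneg (hR J) (by positivity)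
    have h2 : 0 < (2 : ℝ) ^ ⌊t * J⌋₊ / 2 ^ ⌊M * J⌋₊ := by positivity
    have h3 : 0 < (2 : ℝ) ^ ⌊O * J⌋₊ / 2 ^ MV J := by positivity
    linarith
  obtain ⟨B, b1, b2, b3⟩ := hz hP (fun ω => (f J F (r ω) 1 - b J F (s ω) 1) +
    (f J F (r ω) 3 - b J F (s ω) 3) * a J F (s ω) 1) (fun ω => (f J F (r ω) 2 - b J F (s ω) 2) +
    (f J F (r ω) 3 - b J F (s ω) 3) * a J F (s ω) 2) _ hE (by
      intro ω ω' h1 h2 h3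
      obtain ⟨k1, k2, -⟩ := phz_ptr F hP (v.y J F) (id : Fin m → Fin m) h3
      have e1 : f J F (r ω) = f J F (r ω') := by
        rw [hr, hφ ω h1, hφ ω' h2, k2]
      have e2 : a J F (s ω) = a J F (s ω') := by
        rw [hs, hφu ω h1, hφu ω' h2, k1]
      have e3 : b J F (s ω) = b J F (s ω') := by
        rw [hs, hφv ω h1, hφv ω' h2, k1]
      simp only [e1, e2, e3]
      exact ⟨trivial, trivial⟩) (by
      intro ω hω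
      have h1 := hu.vel ω hω
      have h2 := hv.vel ω hω
      have h3 := hl.vel ω hω
      unfold ov at h1 h2
      rw [hu3, zero_mul, add_zero] at h1
      have h4 := hs3 ω hω
      rw [← hs] at h1 h2 h4
      rw [← hr] at h3 h4
      exact tie_algR (hR J) h1 h2 h3 h4)
  refine ⟨B, b1, b2, fun ω hω => ?_⟩
  have h1 := b3 ω hω
  simp only [hr, hs] at h1
  exact h1

/-- **The geometry of a place.** -/
theorem geoN_of {J : ℕ} {F : Fam m J} {p : F.Ω → ℝ} {cD w NU NV I i g M : ℕ} {c : ℝ} (hc : 1 ≤ c)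
    {y u v : Fin m} {h : F.Ω → Cht} {f : F.Ω → Frm} {T : F.Ω → ℕ} {Y : F.Ω → ℤ}
    {Au Av : F.Ω → ℝ} (H : Dpl p cD J w NU NV I (lnF F y u v w) h f T Y Au Av) (hi : i ≤ I)
    (hM : NV + i + g ≤ M) {ω : F.Ω} (hω : 0 < p ω) {q : Fin 4 → ℝ}
    (hpos : |(lnF F y u v w ω).v - ((lbF (tw0 F w ω) q).f0 + q 2 * (lnF F y u v w ω).y +
      q 3 * (lnF F y u v w ω).u)| ≤ 1 / 2 ^ M)
    (hvel : |F.d ω v - (q 1 + q 2 * F.d ω y + q 3 * F.d ω u)| ≤ 2 ^ w / 2 ^ M)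
    (htie : |q 2 + q 3 * (f ω).au - (f ω).av| ≤ c * (2 ^ w / 2 ^ (NV + g)))
    (hsl : |q 3 - (h ω).b3| ≤ c * (2 ^ NU / 2 ^ NV)) :
    GeoN c w NU NV i g (lnF F y u v w ω) (h ω) (f ω) (lbF (tw0 F w ω) q) where
  vu := (H.vu ω hω).trans (div_le_div_of_nonneg_left (by positivity) (by positivity)
    (pow_le_pow_right₀ (by norm_num) (by omega)))
  vv := (H.vv ω hω).trans (div_le_div_of_nonneg_left (by positivity) (by positivity)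
    (pow_le_pow_right₀ (by norm_num) (by omega)))
  lab := by
    refine hpos.trans ?_
    refine div_le_div₀ (by linarith) hc (by positivity)
      (pow_le_pow_right₀ (by norm_num) hM)
  lab' := by
    refine hvel.trans ?_
    have h1 : (2 : ℝ) ^ w / 2 ^ M ≤ 2 ^ w / 2 ^ (NV + i + g) :=
      div_le_div_of_nonneg_left (by positivity) (by positivity)
        (pow_le_pow_right₀ (by norm_num) hM)
    have h2 : 0 ≤ (2 : ℝ) ^ w / 2 ^ (NV + i + g) := by positivity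
    nlinarith
  tie := htie
  sl := hsl

/-- A larger constant. -/
theorem GeoB.mono_c {c c' : ℝ} {w NU NV : ℕ} {l : Ln} {h : Cht} {f : Frm} (hc : c ≤ c')
    (H : GeoB c w NU NV l h f) : GeoB c' w NU NV l h f where
  ce := H.ce
  cu := H.cu.trans (mul_le_mul_of_nonneg_right hc (by positivity))
  au := H.au.trans (mul_le_mul_of_nonneg_right hc (by positivity))
  cv := H.cv.trans (mul_le_mul_of_nonneg_right hc (by positivity))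
  av := H.av.trans (mul_le_mul_of_nonneg_right hc (by positivity))

/-- A larger constant. -/
theorem Dpl.mono_c {Ω : Type} [Fintype Ω] {p : Ω → ℝ} {c c' J w NU NV I : ℕ} {l : Ω → Ln}
    {h : Ω → Cht} {f : Ω → Frm} {T : Ω → ℕ} {Y : Ω → ℤ} {Au Av : Ω → ℝ} (hc : c ≤ c')
    (H : Dpl p c J w NU NV I l h f T Y Au Av) : Dpl p c' J w NU NV I l h f T Y Au Av where
  c1 := H.c1.trans hc
  wJ := H.wJ
  geo ω hω := (H.geo ω hω).mono_c (by exact_mod_cast hc)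
  vu := H.vu
  vv := H.vv
  hu ω hω := (H.hu ω hω).trans (div_le_div_of_nonneg_right (by exact_mod_cast hc) (by positivity))
  hv ω hω := (H.hv ω hω).trans (div_le_div_of_nonneg_right (by exact_mod_cast hc) (by positivity))
  yc := H.yc

/-- **The data of a place** for one event: `f` is the label. -/
def PlS (y u v : Fin m) (t W O x₁ eU ec : ℝ) (NU NV iN gN sN : ℕ → ℕ)
    (a b a' b' : ∀ (J : ℕ) (F : Fam m J), LnT F → Fin 4 → ℝ) {𝒮 : ∀ J : ℕ, Fam m J → Type}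
    (cs : ∀ (J : ℕ) (F : Fam m J), LnT F → 𝒮 J F)
    (f : ∀ (J : ℕ) (F : Fam m J), LnT F → Fin 4 → ℝ) : Stat m := fun J F A =>
  (∀ ω, 0 < Pool.Agent.H49.Ent.cond F.p A True ω →
    GeoN ((4 * 2 ^ sN J : ℕ) : ℝ) ⌊t * J⌋₊ (NU J) (NV J) (iN J) (gN J)
    (lnF F y u v ⌊t * J⌋₊ ω) (hC F ⌊t * J⌋₊ ⌊W * J⌋₊ (a J F) (b J F) ω)
    (fC F ⌊O * J⌋₊ (a' J F) (b' J F) ω) (lbF (tw0 F ⌊t * J⌋₊ ω) (f J F (slam F ⌊t * J⌋₊ ω)))) ∧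
  (∀ ω, A ω → |f J F (slam F ⌊t * J⌋₊ ω) 3| ≤ 2 ^ ⌊x₁ * J⌋₊ ∧
    |f J F (slam F ⌊t * J⌋₊ ω) 3 - b J F (slam F ⌊W * J⌋₊ ω) 3| ≤
      2 ^ sN J * (2 ^ NU J / 2 ^ NV J) ∧
    |(f J F (slam F ⌊t * J⌋₊ ω) 2 - b' J F (slam F ⌊O * J⌋₊ ω) 2) +
      (f J F (slam F ⌊t * J⌋₊ ω) 3 - b' J F (slam F ⌊O * J⌋₊ ω) 3) *
        a' J F (slam F ⌊O * J⌋₊ ω) 2| ≤ 3 * (2 ^ ⌊t * J⌋₊ / 2 ^ (NV J + gN J))) ∧
  (gN J : ℝ) * Real.log 2 - eU * J ≤ CH (Pool.Agent.H49.Ent.cond F.p A True)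
    (hgU J ⌊t * J⌋₊ (NU J + iN J + gN J) (lnF F y u v ⌊t * J⌋₊)
      (hC F ⌊t * J⌋₊ ⌊W * J⌋₊ (a J F) (b J F)) F.T)
    (fun ω => (lbF (tw0 F ⌊t * J⌋₊ ω) (f J F (slam F ⌊t * J⌋₊ ω)),
      (Rd J ⌊t * J⌋₊ (NU J) (NV J) (iN J) (lnF F y u v ⌊t * J⌋₊)
        (hC F ⌊t * J⌋₊ ⌊W * J⌋₊ (a J F) (b J F)) F.T
        (fun ω => cs J F (slam F ⌊t * J⌋₊ ω)) ω, (F.T ω, F.X J ω y)))) ∧
  (gN J : ℝ) * Real.log 2 - ec * J ≤ CH (Pool.Agent.H49.Ent.cond F.p A True)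
    (fun ω => cT J ⌊t * J⌋₊ (gN J) (F.T ω))
    (fun ω => (lbF (tw0 F ⌊t * J⌋₊ ω) (f J F (slam F ⌊t * J⌋₊ ω)),
      (Rd J ⌊t * J⌋₊ (NU J) (NV J) (iN J) (lnF F y u v ⌊t * J⌋₊)
        (hC F ⌊t * J⌋₊ ⌊W * J⌋₊ (a J F) (b J F)) F.T
        (fun ω => cs J F (slam F ⌊t * J⌋₊ ω)) ω, (fT J ⌊t * J⌋₊ (gN J) (F.T ω),
      DY J ⌊t * J⌋₊ (rfo ⌊t * J⌋₊ (NU J) (NV J) (iN J) (lnF F y u v ⌊t * J⌋₊)
        (hC F ⌊t * J⌋₊ ⌊W * J⌋₊ (a J F) (b J F))) F.T (fun ω => F.X J ω y) ω))))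

/-- The numbers of the tie. -/
theorem tie_num {x P t M NV NU gN O MU MV s : ℕ} (n1 : x + 1 + P + NV + gN ≤ M)
    (n2 : x + 1 + P + O + NV + gN ≤ MV + t) (n3 : x + 1 + P + (s + 1) + NU + O + gN ≤ MU + t) :
    2 ^ (x + 1) * 2 ^ P * ((2 : ℝ) ^ t / 2 ^ M + 2 ^ O / 2 ^ MV +
      (2 ^ s + 1) * (2 ^ NU / 2 ^ NV) * (2 ^ O / 2 ^ MU)) ≤ 3 * (2 ^ t / 2 ^ (NV + gN)) := by
  have key : ∀ a b : ℕ, x + 1 + P + a + (NV + gN) ≤ b + t →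
      2 ^ (x + 1) * 2 ^ P * ((2 : ℝ) ^ a / 2 ^ b) ≤ 2 ^ t / 2 ^ (NV + gN) := by
    intro a b h
    rw [← pow_add, ← mul_div_assoc, ← pow_add, div_le_div_iff₀ (by positivity) (by positivity),
      ← pow_add, ← pow_add]
    exact pow_le_pow_right₀ (by norm_num) (by omega)
  have k1 := key t M (by omega)
  have k2 := key O MV (by omega)
  have k3 := key (s + 1 + NU + O) (NV + MU) (by omega)
  have e1 : (2 ^ s + 1) * ((2 : ℝ) ^ NU / 2 ^ NV) * (2 ^ O / 2 ^ MU) ≤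
      2 ^ (s + 1 + NU + O) / 2 ^ (NV + MU) := by
    have h1 : (1 : ℝ) ≤ 2 ^ s := one_le_pow₀ (by norm_num)
    have e2 : (2 : ℝ) ^ (s + 1 + NU + O) / 2 ^ (NV + MU) =
        (2 * 2 ^ s) * (2 ^ NU / 2 ^ NV) * (2 ^ O / 2 ^ MU) := by
      rw [pow_add, pow_add, pow_add, pow_add]
      field_simp
    rw [e2]
    gcongr
    linarith
  have k4 : 2 ^ (x + 1) * 2 ^ P * ((2 ^ s + 1) * ((2 : ℝ) ^ NU / 2 ^ NV) * (2 ^ O / 2 ^ MU)) ≤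
      2 ^ t / 2 ^ (NV + gN) := (mul_le_mul_of_nonneg_left e1 (by positivity)).trans k3
  have e3 : 2 ^ (x + 1) * 2 ^ P * ((2 : ℝ) ^ t / 2 ^ M + 2 ^ O / 2 ^ MV +
      (2 ^ s + 1) * (2 ^ NU / 2 ^ NV) * (2 ^ O / 2 ^ MU)) =
      2 ^ (x + 1) * 2 ^ P * ((2 : ℝ) ^ t / 2 ^ M) + 2 ^ (x + 1) * 2 ^ P * (2 ^ O / 2 ^ MV) +
      2 ^ (x + 1) * 2 ^ P * ((2 ^ s + 1) * (2 ^ NU / 2 ^ NV) * (2 ^ O / 2 ^ MU)) := by ring
  rw [e3]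
  linarith

end Pool.OWN17
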