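import Pool.Agent.H43.OWN.Flc
import Pool.Agent.H17.COR.Pst
import Pool.Agent.H72.OWN.Act2
import Pool.Agent.H6.OWN.Zfw

/-!
# A place from the label of its tube

`place_b`: from the affine label of the tube at the first window to the data of the place at the
second window, on all events of a subclass.
-/

set_option autoImplicit false

namespace Pool.OWN17

open Finset Real MvPolynomial
open Pool.Agent.H49.Ent Pool.Agent.H32.Dense Pool.STK Pool.KA Pool.KSAT Pool.K2S Pool.PB Pool.S6C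
  Pool.GEN Pool.RCD Pool.LA91 Pool.MIC6 Pool.REX Pool.REX83 Pool.OWN72 Pool.OWN43
open Pool.GRD (LbP)

variable {m : ℕ}

/-- **The data of a place** from the label of its tube. -/
theorem place_b (hF1 : FZX 1) (hF2 : FZX 2) {S : PCl m} (hS : S.Ne) {C₀ : ℝ} (hC₀ : 0 ≤ C₀)
    (htm : TmC S C₀)
    (hpos : ∀ (τ : ℝ) (J : ℕ) (F : Fam m J) (A : F.Ω → Prop), S.St τ J F A → 0 < Pe F.p A)
    {L : Finset (Fin m) → Fin m → ℝ → ℝ → ℝ} (hL : LamW S L)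
    {Ns : Finset (Fin m) → ℝ → ℝ → ℝ} (hNs : ActN S Ns) {y u v : Fin m} {v₁ : Vz m}
    (hact₁ : ActZ S v₁ (id : Fin m → Fin m) y) {P₀ P₁ : ℝ}
    (hrec₁ : ∀ h : ℝ, 0 < h → Bas S (fun J F A =>
      CH (Pool.Agent.H49.Ent.cond F.p A True) (v₁.y J F)
        (fun ω => (F.D ⌊P₀ * J⌋₊ ω, (F.X J ω, F.W ω))) ≤ h * J))
    (hP : P₀ ≤ P₁) (hP' : (1 - v₁.b) * v₁.p < P₁)
    {t W O x₁ M Cp : ℝ} (ht0 : 0 ≤ t) (ht1 : t < 1) (hWt : W ≤ t)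
    (hlab : Bas S (fun J F A => ∀ hP : v₁.P J ≤ J - v₁.B J,
      ∃ (f : LnT F → Fin 4 → ℝ) (φ : PtT (zmV F hP (v₁.y J F) (id : Fin m → Fin m)) → Fin 4 → ℝ)
        (B : F.Ω → Prop), Sub B A ∧ Pe F.p A ≤ Cp * Pe F.p B ∧ ∀ ω, B ω →
        f (slam F ⌊t * J⌋₊ ω) = φ (ptr (zmV F hP (v₁.y J F) id) (J - v₁.B J - v₁.P J) ω) ∧
        (∀ i : Fin 4, i ≠ 0 → |f (slam F ⌊t * J⌋₊ ω) i| ≤ 2 ^ ⌊x₁ * J⌋₊) ∧
        |(lnF F y u v ⌊t * J⌋₊ ω).v - ((lbF (tw0 F ⌊t * J⌋₊ ω) (f (slam F ⌊t * J⌋₊ ω))).f0 +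
          f (slam F ⌊t * J⌋₊ ω) 2 * (lnF F y u v ⌊t * J⌋₊ ω).y +
          f (slam F ⌊t * J⌋₊ ω) 3 * (lnF F y u v ⌊t * J⌋₊ ω).u)| ≤ 1 / 2 ^ ⌊M * J⌋₊ ∧
        |F.d ω v - (f (slam F ⌊t * J⌋₊ ω) 1 + f (slam F ⌊t * J⌋₊ ω) 2 * F.d ω y +
          f (slam F ⌊t * J⌋₊ ω) 3 * F.d ω u)| ≤ 2 ^ ⌊t * J⌋₊ / 2 ^ ⌊M * J⌋₊))
    {NU NV iN gN sN I E MU MV MU' MV' : ℕ → ℕ}
    {a b a' b' : ∀ (J : ℕ) (F : Fam m J), LnT F → Fin 4 → ℝ}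
    (hch : ∀ (τ : ℝ) (J : ℕ) (F : Fam m J) (A : F.Ω → Prop), S.St τ J F A →
      Chd F y u v ⌊W * J⌋₊ ⌊O * J⌋₊ (MU J) (MV J) (MU' J) (MV' J) (E J) (a J F) (b J F) (a' J F)
        (b' J F) A ∧
      Chq F ⌊W * J⌋₊ ⌊O * J⌋₊ ⌊W * J⌋₊ (NU J) (NV J) 1 (a J F) (b J F) (a' J F) (b' J F) A)
    (hD : ∀ (τ : ℝ) (J : ℕ) (F : Fam m J) (A : F.Ω → Prop), S.St τ J F A →
      Dpl (Pool.Agent.H49.Ent.cond F.p A True) 4 J ⌊t * J⌋₊ (NU J) (NV J) (I J)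
        (lnF F y u v ⌊t * J⌋₊) (hC F ⌊t * J⌋₊ ⌊W * J⌋₊ (a J F) (b J F))
        (fC F ⌊O * J⌋₊ (a' J F) (b' J F)) F.T (fun ω => F.X J ω y)
        (AuC F ⌊W * J⌋₊ ⌊O * J⌋₊ (a J F) (a' J F))
        (AvC F ⌊W * J⌋₊ ⌊O * J⌋₊ (b J F) (a' J F) (b' J F)))
    {𝒮 : ∀ J : ℕ, Fam m J → Type} {cs : ∀ (J : ℕ) (F : Fam m J), LnT F → 𝒮 J F}
    (hcl : ∀ (τ : ℝ) (J : ℕ) (F : Fam m J) (A : F.Ω → Prop), S.St τ J F A →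
      ∀ ω ω', A ω → A ω' → ptr F J ω = ptr F J ω' →
        cs J F (slam F ⌊t * J⌋₊ ω) = cs J F (slam F ⌊t * J⌋₊ ω'))
    (hcs : ∀ (J : ℕ) (F : Fam m J) (ω ω' : F.Ω), cs J F (slam F ⌊t * J⌋₊ ω) =
      cs J F (slam F ⌊t * J⌋₊ ω') → a J F (slam F ⌊W * J⌋₊ ω) = a J F (slam F ⌊W * J⌋₊ ω') ∧
        b J F (slam F ⌊W * J⌋₊ ω) = b J F (slam F ⌊W * J⌋₊ ω') ∧
        tw0 F ⌊t * J⌋₊ ω = tw0 F ⌊t * J⌋₊ ω')
    {p al : ℝ} (hp0 : 0 < p) (hp1 : p < 1 / 2) (hal : 0 < al) (hPp : P₁ < (1 - t) * p)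
    (hactN : Act (Ns {y}) ((1 - t) * p) al)
    {Ub t₁ a₀ a₂ x₂ : ℝ} (ht₁ : t < t₁) (hx₂ : 0 < x₂)
    (hUb : ∀ s, t < s → s < t₁ → L {y} u s 0 ≤ Ub) (ha₀ : a₀ < a₂) (ha0 : 0 < a₂) (ha1 : a₂ < 1)
    (hdp : Ub + (1 - t) * p + (a₂ - t) + x₂ ≤ L {y} u a₀ a₀)
    {Y eU ec ρ x : ℝ} (hx : 0 < x) (hρ : 0 < ρ) (heU : 0 ≤ eU) (hec : 0 ≤ ec)
    (hY : ∀ r : ℝ, 0 < r → ∃ J₀ : ℕ, ∀ J ≥ J₀, (Y - r) * (J : ℝ) ≤ ⌊t * J⌋₊ + iN J)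
    {J₀ : ℕ} (n0 : ∀ J ≥ J₀, iN J ≤ I J ∧ iN J ≤ ⌊P₁ * J⌋₊ ∧ ⌊t * J⌋₊ + iN J ≤ J ∧
      ⌊t * J⌋₊ + gN J ≤ J ∧ NU J + iN J + gN J + E J ≤ J ∧ sN J ≤ gN J)
    (n1 : ∀ J ≥ J₀, (Ub + 2 * ((1 - t) * p) + t - Y) * J - (NU J + iN J) ≤ eU * J ∧
      (t + (1 - t) * p) * J - (⌊t * J⌋₊ + iN J) ≤ ec * J ∧
      (eU + ρ) * J + (Real.log 13 + 2 * Real.log 11) < sN J * Real.log 2)
    (n2 : ∀ J ≥ J₀, NV J + iN J + (max ⌊x₁ * J⌋₊ (E J) + (E J + 2)) ≤ J ∧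
      NV J + iN J + gN J ≤ ⌊M * J⌋₊ ∧
      ⌊x * J⌋₊ + 1 + v₁.P J + NV J + gN J ≤ ⌊M * J⌋₊ ∧
      ⌊x * J⌋₊ + 1 + v₁.P J + ⌊O * J⌋₊ + NV J + gN J ≤ MV' J + ⌊t * J⌋₊ ∧
      ⌊x * J⌋₊ + 1 + v₁.P J + (sN J + 1) + NU J + ⌊O * J⌋₊ + gN J ≤ MU' J + ⌊t * J⌋₊) :
    ∃ (S' : PCl m) (f : ∀ (J : ℕ) (F : Fam m J), LnT F → Fin 4 → ℝ), S'.Ne ∧
      (∀ (τ : ℝ) (J : ℕ) (F : Fam m J) (A : F.Ω → Prop), S'.St τ J F A → S.St τ J F A) ∧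
      Bas S' (PlS y u v t W O x₁ (eU + ρ) (ec + ρ) NU NV iN gN sN a b a' b' cs f) := by
  classical
  obtain ⟨S₁, f, hS₁, sub₁, hf₁⟩ := lab_root hS (v := v₁) (y := y) (u := u) (k := v) (Cp := Cp)
    (t := t) (x := x₁) (M := M) J₀ hlab
  have pull : ∀ {S' : PCl m}, (∀ (τ : ℝ) (J : ℕ) (F : Fam m J) (A : F.Ω → Prop),
      S'.St τ J F A → S₁.St τ J F A) → ∀ (τ : ℝ) (J : ℕ) (F : Fam m J) (A : F.Ω → Prop),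
      S'.St τ J F A → S.St τ J F A := fun h τ J F A hA => sub₁ τ J F A (h τ J F A hA)
  have hpos₁ : ∀ (τ : ℝ) (J : ℕ) (F : Fam m J) (A : F.Ω → Prop), S₁.St τ J F A → 0 < Pe F.p A :=
    fun τ J F A h => hpos τ J F A (sub₁ τ J F A h)
  have hposB₁ : Bas S₁ (fun _ F A => 0 < Pe F.p A) :=
    ⟨1, one_pos, 0, fun J _ F A hA => hpos₁ 1 J F A hA⟩
  -- the labels are few bits
  obtain ⟨q, hq⟩ : ∃ q : ∀ (J : ℕ) (F : Fam m J), LnT F → Lbl,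
    q = fun (J : ℕ) (F : Fam m J) (s : LnT F) => lbF ((s.2.2 : ℝ) / 2 ^ ⌊t * J⌋₊) (f J F s) :=
    ⟨_, rfl⟩
  have hqs : ∀ (J : ℕ) (F : Fam m J) (ω : F.Ω), q J F (slam F ⌊t * J⌋₊ ω) =
      lbF (tw0 F ⌊t * J⌋₊ ω) (f J F (slam F ⌊t * J⌋₊ ω)) := fun J F ω => by
    rw [hq]
    rfl
  have hfew : ∀ h : ℝ, 0 < h → Bas S₁ (fun J F A => CH (Pool.Agent.H49.Ent.cond F.p A True)
      (fun ω => q J F (slam F ⌊t * J⌋₊ ω)) (fun ω => (F.D ⌊P₁ * J⌋₊ ω, (F.X J ω, F.W ω))) ≤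
        h * J) := by
    intro h hh
    have k1 := zm_few hposB₁ v₁ (id : Fin m → Fin m) (P₀ := P₀) (P₁ := P₁)
      (fun h hh => Bas.sub sub₁ (hrec₁ h hh)) hP hP' h hh
    refine Bas.mono 0 ((k1.and hposB₁).and ⟨1, one_pos, 0, fun J _ F A hA => hf₁ 1 J F A hA⟩) ?_
    rintro J - F A ⟨⟨k2, k3⟩, k4⟩
    obtain ⟨-, hPJ, -⟩ := v₁.floor_le J
    obtain ⟨φ, hφ⟩ := k4.2.cls hPJ
    have k5 := k2 hPJ
    have hl := isLaw_cond F.isLaw k3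
    have k6 := CH_le_add hl.nonneg (fun ω => q J F (slam F ⌊t * J⌋₊ ω))
      (ptr (zmV F hPJ (v₁.y J F) (id : Fin m → Fin m)) (J - v₁.B J - v₁.P J))
      (fun ω => (F.D ⌊P₁ * J⌋₊ ω, (F.X J ω, F.W ω)))
    have k7 : CH (Pool.Agent.H49.Ent.cond F.p A True) (fun ω => q J F (slam F ⌊t * J⌋₊ ω))
        (fun ω => (ptr (zmV F hPJ (v₁.y J F) (id : Fin m → Fin m)) (J - v₁.B J - v₁.P J) ω,
          (F.D ⌊P₁ * J⌋₊ ω, (F.X J ω, F.W ω)))) = 0 := by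
      refine CH_eq_zero hl.nonneg fun ω ω' h1 h2 hh => ?_
      have c1 := Prod.ext_iff.1 hh
      have c2 := Prod.ext_iff.1 (Prod.ext_iff.1 c1.2).2
      have hT : F.T ω = F.T ω' := (Prod.ext_iff.1 c2.2).1
      show q J F (slam F ⌊t * J⌋₊ ω) = q J F (slam F ⌊t * J⌋₊ ω')
      have e1 : tw0 F ⌊t * J⌋₊ ω = tw0 F ⌊t * J⌋₊ ω' := by
        unfold tw0 Fam.T1
        rw [hT]
      have e2 : f J F (slam F ⌊t * J⌋₊ ω) = f J F (slam F ⌊t * J⌋₊ ω') := by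
        have c3 : ptr (zmV F hPJ (v₁.y J F) (id : Fin m → Fin m)) (J - v₁.B J - v₁.P J) ω =
          ptr (zmV F hPJ (v₁.y J F) (id : Fin m → Fin m)) (J - v₁.B J - v₁.P J) ω' := c1.1
        rw [hφ ω (sup_cond h1), hφ ω' (sup_cond h2), c3]
      rw [hqs, hqs, e1, e2]
    linarith
  -- the zoom of the place
  have hcl' : ∀ (τ : ℝ) (J : ℕ) (F : Fam m J) (A : F.Ω → Prop), S₁.St τ J F A →
      ∀ ω ω', A ω → A ω' → ptr F J ω = ptr F J ω' →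
        cs J F (slam F ⌊t * J⌋₊ ω) = cs J F (slam F ⌊t * J⌋₊ ω') ∧
        a J F (slam F ⌊W * J⌋₊ ω) = a J F (slam F ⌊W * J⌋₊ ω') ∧
        b J F (slam F ⌊W * J⌋₊ ω) = b J F (slam F ⌊W * J⌋₊ ω') ∧
        a' J F (slam F ⌊O * J⌋₊ ω) = a' J F (slam F ⌊O * J⌋₊ ω') ∧
        b' J F (slam F ⌊O * J⌋₊ ω) = b' J F (slam F ⌊O * J⌋₊ ω') := by
    intro τ J F A hA ω ω' h1 h2 h3
    have hc := (hch τ J F A (sub₁ τ J F A hA)).1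
    obtain ⟨φ₁, p1⟩ := hc.cu.cls
    obtain ⟨φ₂, p2⟩ := hc.cv.cls
    obtain ⟨φ₃, p3⟩ := hc.cu'.cls
    obtain ⟨φ₄, p4⟩ := hc.cv'.cls
    exact ⟨hcl τ J F A (sub₁ τ J F A hA) ω ω' h1 h2 h3, by rw [p1 ω h1, p1 ω' h2, h3],
      by rw [p2 ω h1, p2 ω' h2, h3], by rw [p3 ω h1, p3 ω' h2, h3], by rw [p4 ω h1, p4 ω' h2, h3]⟩
  have hrec₂ := hrec_vk (S := S₁) (y := y) (u := u) (v := v) (b := t) (W := W) (O := O) (hb0 := ht0)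
    (hb1 := ht1) (hWb := hWt) (NU := NU) (NV := NV) (iN := iN) (I := I) (a := a) (b' := b)
    (a₁ := a') (b₁ := b') (cs := cs) (q := q) hpos₁ (c := 4) (P₀ := P₁)
    (fun τ J F A hA => hD τ J F A (sub₁ τ J F A hA)) hcl' hcs (J₀ := J₀)
    (fun J hJ => ⟨(n0 J hJ).1, (n0 J hJ).2.1⟩) hfew
  -- the tubes
  obtain ⟨S₂, L₂, hS₂, sub₂, hR₂⟩ := rex_tube hS₁ hC₀
    (fun τ J F A hτ h => htm τ J F A hτ (sub₁ τ J F A h)) hpos₁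
    (actN_of_bas (fun Φ hb => Bas.sub sub₁ hb) hNs) (ι := Unit) (fun _ => 2) (fun _ => hF2)
    (fun _ => vkZ y u v t W ht0 ht1 hWt NU NV iN a b cs q) (fun _ => (![y, u] : Fin 2 → Fin m))
    (fun _ => 0) (P₀ := fun _ => P₁) (fun _ => hrec₂) (p := fun _ => p) (al := fun _ => al)
    (fun _ => hal) (fun _ => hp0) (fun _ => hPp) (fun _ => hp1) (fun _ => hactN)
  obtain ⟨hR2, hA2⟩ := hR₂ ()
  have hpos₂ : ∀ (τ : ℝ) (J : ℕ) (F : Fam m J) (A : F.Ω → Prop), S₂.St τ J F A → 0 < Pe F.p A :=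
    fun τ J F A h => hpos₁ τ J F A (sub₂ τ J F A h)
  have sub₂' := pull sub₂
  obtain ⟨S₃, L₁, hS₃, sub₃, hR₁⟩ := rex_tube hS₂ hC₀
    (fun τ J F A hτ h => htm τ J F A hτ (sub₂' τ J F A h)) hpos₂
    (actN_of_bas (fun Φ hb => Bas.sub sub₂' hb) hNs) (ι := Unit) (fun _ => 1) (fun _ => hF1)
    (fun _ => vkZ y u v t W ht0 ht1 hWt NU NV iN a b cs q) (fun _ => (![y] : Fin 1 → Fin m))
    (fun _ => 0) (P₀ := fun _ => P₁) (fun _ h hh => Bas.sub sub₂ (hrec₂ h hh)) (p := fun _ => p)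
    (al := fun _ => al)
    (fun _ => hal) (fun _ => hp0) (fun _ => hPp) (fun _ => hp1) (fun _ => hactN)
  obtain ⟨hR1, -⟩ := hR₁ ()
  have hpos₃ : ∀ (τ : ℝ) (J : ℕ) (F : Fam m J) (A : F.Ω → Prop), S₃.St τ J F A → 0 < Pe F.p A :=
    fun τ J F A h => hpos₂ τ J F A (sub₃ τ J F A h)
  have sub₃₁ : ∀ (τ : ℝ) (J : ℕ) (F : Fam m J) (A : F.Ω → Prop), S₃.St τ J F A → S₁.St τ J F A :=
    fun τ J F A h => sub₂ τ J F A (sub₃ τ J F A h)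
  have sub₃' := pull sub₃₁
  have hbd : ∀ (τ : ℝ) (J : ℕ) (F : Fam m J) (A : F.Ω → Prop), S₃.St τ J F A → ∀ ω, A ω →
      |a J F (slam F ⌊W * J⌋₊ ω) 2| ≤ 2 ^ E J ∧ |b J F (slam F ⌊W * J⌋₊ ω) 2| ≤ 2 ^ E J ∧
        |b J F (slam F ⌊W * J⌋₊ ω) 3| ≤ 2 ^ E J := fun τ J F A hA ω hω => by
    have hc := (hch τ J F A (sub₃' τ J F A hA)).1
    exact ⟨hc.cu.bnd ω hω 2 (by decide), hc.cv.bnd ω hω 2 (by decide),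
      hc.cv.bnd ω hω 3 (by decide)⟩
  have htm₃ : TmC S₃ C₀ := fun τ J F A hτ h => htm τ J F A hτ (sub₃' τ J F A h)
  -- the rows
  have hU := hU_vk (S := S₃) (y := y) (u := u) (v := v) (b := t) (W := W) (hb0 := ht0)
    (hb1 := ht1) (hWb := hWt) (NU := NU) (NV := NV) (iN := iN) (a := a) (b' := b)
    (cs := cs) (q := q) hF2 hC₀ htm₃ hS₃ hpos₃ (hL.sub sub₃') (p := p) (L₂ := L₂ ())
    (rdt_sub sub₃ hR2) (fun h0 h1 => actZ_sub sub₃ (hA2 h0 h1)) ht₁ hx₂ hUb ha₀ ha0 ha1 hdp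
    (e := E) (gN := gN) (fun τ J F A hA ω hω => (hbd τ J F A hA ω hω).1) hcs (Y := Y) (J₀ := J₀)
    (fun J hJ => (n0 J hJ).2.2.1) hY (fun J hJ => (n0 J hJ).2.2.2.2.1) heU
    (fun J hJ => (n1 J hJ).1) hρ
  have hc := hc_vk (S := S₃) (y := y) (u := u) (v := v) (b := t) (W := W) (hb0 := ht0)
    (hb1 := ht1) (hWb := hWt) (NU := NU) (NV := NV) (iN := iN) (a := a) (b' := b)
    (cs := cs) (q := q) hF1 hC₀ htm₃ hS₃ (p := p) (L₁ := L₁ ()) hR1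
    (gN := gN) (J₀ := J₀) (fun J hJ => ⟨(n0 J hJ).2.2.1, (n0 J hJ).2.2.2.1⟩) hec
    (fun J hJ => (n1 J hJ).2.1) hρ
  simp only [hqs] at hU hc
  -- the slope
  obtain ⟨S₄, hS₄, sub₄, hsl⟩ := sl_root (S := S₃) hS₃ hpos₃ (v := v₁) (y := y) (u := u) (k := v)
    (t := t) (W := W) (x₀ := x₁) (M := M) (eU := eU + ρ) (NU := NU) (NV := NV) (iN := iN)
    (gN := gN) (sN := sN) (E := E) (f := f) (a := a) (b := b) (cs := cs) ht1.le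
    (fun τ J F A hA => (hf₁ τ J F A (sub₃₁ τ J F A hA)).2) hbd hcs hU (J₁ := J₀)
    (fun J hJ => (n0 J hJ).2.2.2.2.2) (fun J hJ => (n2 J hJ).1) (fun J hJ => (n2 J hJ).2.1)
    (fun J hJ => (n1 J hJ).2.2)
  have sub₄₁ : ∀ (τ : ℝ) (J : ℕ) (F : Fam m J) (A : F.Ω → Prop), S₄.St τ J F A → S₁.St τ J F A :=
    fun τ J F A h => sub₃₁ τ J F A (sub₄ τ J F A h)
  have sub₄' := pull sub₄₁
  -- the tie
  obtain ⟨S₅, hS₅, sub₅, hti⟩ := tie_rootR (S := S₄) hS₄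
    (fun τ J F A hτ h => htm τ J F A hτ (sub₄' τ J F A h)) (v := v₁) (y := y) (u := u) (k := v)
    (actZ_sub sub₄' hact₁) (t := t) (x := x) (M := M) (x₀ := x₁) (O := O) (f := f) (a := a')
    (b := b') (MU := MU') (MV := MV') (E := E)
    (R := fun J => (2 ^ sN J + 1) * (2 ^ NU J / 2 ^ NV J)) (fun J => by positivity) hx J₀
    (fun τ J F A hA => (hf₁ τ J F A (sub₄₁ τ J F A hA)).2)
    (fun τ J F A hA => by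
      have hc := (hch τ J F A (sub₄' τ J F A hA)).1
      exact ⟨hc.cu', hc.a3', hc.cv'⟩)
    (fun τ J F A hA ω hω => by
      have h1 := hsl τ J F A hA ω hω
      have h2 := (hch τ J F A (sub₄' τ J F A hA)).2.n3 ω hω
      have h3 := abs_sub_le (f J F (slam F ⌊t * J⌋₊ ω) 3) (b J F (slam F ⌊W * J⌋₊ ω) 3)
        (b' J F (slam F ⌊O * J⌋₊ ω) 3)
      rw [abs_sub_comm (b J F (slam F ⌊W * J⌋₊ ω) 3)] at h3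
      rw [add_mul]
      linarith)
  have sub₅₃ : ∀ (τ : ℝ) (J : ℕ) (F : Fam m J) (A : F.Ω → Prop), S₅.St τ J F A → S₃.St τ J F A :=
    fun τ J F A h => sub₄ τ J F A (sub₅ τ J F A h)
  have sub₅₁ : ∀ (τ : ℝ) (J : ℕ) (F : Fam m J) (A : F.Ω → Prop), S₅.St τ J F A → S₁.St τ J F A :=
    fun τ J F A h => sub₄₁ τ J F A (sub₅ τ J F A h)
  have sub₅' := pull sub₅₁
  refine ⟨S₅, f, hS₅, sub₅', ?_⟩
  have hst : Bas S₅ (fun J F A => S₅.St 1 J F A) := ⟨1, one_pos, 0, fun J _ F A hA => hA⟩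
  refine Bas.mono J₀ (((Bas.sub sub₅₃ hU).and (Bas.sub sub₅₃ hc)).and hst) ?_
  rintro J hJ F A ⟨⟨kU, kc⟩, hA⟩
  have hposA := hpos₃ 1 J F A (sub₅₃ 1 J F A hA)
  have hfk := (hf₁ 1 J F A (sub₅₁ 1 J F A hA)).2
  have hslk := hsl 1 J F A (sub₅ 1 J F A hA)
  have htk := (hti 1 J F A hA).2
  have hDk := hD 1 J F A (sub₅' 1 J F A hA)
  obtain ⟨m1, m2, m3, m4, m5⟩ := n2 J hJ
  have tnum := tie_num (x := ⌊x * J⌋₊) (P := v₁.P J) (t := ⌊t * J⌋₊) (M := ⌊M * J⌋₊) (NV := NV J)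
    (NU := NU J) (gN := gN J) (O := ⌊O * J⌋₊) (MU := MU' J) (MV := MV' J) (s := sN J) m3 m4 m5
  have hTi : ∀ ω, A ω → |(f J F (slam F ⌊t * J⌋₊ ω) 2 - b' J F (slam F ⌊O * J⌋₊ ω) 2) +
      (f J F (slam F ⌊t * J⌋₊ ω) 3 - b' J F (slam F ⌊O * J⌋₊ ω) 3) *
        a' J F (slam F ⌊O * J⌋₊ ω) 2| ≤ 3 * (2 ^ ⌊t * J⌋₊ / 2 ^ (NV J + gN J)) :=
    fun ω hω => (htk ω hω).trans tnum
  have hs1 : (1 : ℝ) ≤ 2 ^ sN J := one_le_pow₀ (by norm_num)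
  have hc4 : ((4 * 2 ^ sN J : ℕ) : ℝ) = 4 * 2 ^ sN J := by push_cast; ring
  refine ⟨fun ω hω' => ?_, fun ω hω => ⟨hfk.bnd ω hω 3 (by decide), hslk ω hω, hTi ω hω⟩, kU, kc⟩
  have hω := sup_cond hω'
  refine geoN_of (c := ((4 * 2 ^ sN J : ℕ) : ℝ)) (by rw [hc4]; linarith) hDk (n0 J hJ).1 m2 hω'
    (hfk.pos ω hω) (hfk.vel ω hω) ?_ ?_
  · have e1 : f J F (slam F ⌊t * J⌋₊ ω) 2 + f J F (slam F ⌊t * J⌋₊ ω) 3 *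
        (fC F ⌊O * J⌋₊ (a' J F) (b' J F) ω).au - (fC F ⌊O * J⌋₊ (a' J F) (b' J F) ω).av =
        (f J F (slam F ⌊t * J⌋₊ ω) 2 - b' J F (slam F ⌊O * J⌋₊ ω) 2) +
        (f J F (slam F ⌊t * J⌋₊ ω) 3 - b' J F (slam F ⌊O * J⌋₊ ω) 3) *
          a' J F (slam F ⌊O * J⌋₊ ω) 2 := by
      unfold fC frF
      ring
    rw [e1]
    refine (hTi ω hω).trans (mul_le_mul_of_nonneg_right ?_ (by positivity))
    rw [hc4]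
    linarith
  · refine (hslk ω hω).trans (mul_le_mul_of_nonneg_right ?_ (by positivity))
    rw [hc4]
    linarith

end Pool.OWN17
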