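import Pool.Agent.H17.COR.Act

/-!
# Lines, charts and frames from a family

`lnF`: the line of a sample in its window. `chF`, `frF`, `lbF`: charts, frames and labels from
coefficients with respect to the absolute time. `geo_deep`: the natural size of the frame given by the
labels of a deep window.
-/

set_option autoImplicit false

namespace Pool.OWN17

open Finset Real
open Pool.Agent.H49.Ent Pool.Agent.H32.Dense Pool.STK Pool.KA Pool.KSAT Pool.K2S Pool.PB Pool.S6C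
  Pool.GEN Pool.REX Pool.MIC6

variable {m J : ℕ}

/-- The time at the beginning of the window. -/
noncomputable def tw0 (F : Fam m J) (w : ℕ) (ω : F.Ω) : ℝ := (F.T1 w ω : ℝ) / 2 ^ w

/-- The line of a sample in its window. -/
noncomputable def lnF (F : Fam m J) (y u v : Fin m) (w : ℕ) (ω : F.Ω) : Ln where
  y := F.u ω y + tw0 F w ω * F.d ω y
  e := F.d ω y
  u := F.u ω u + tw0 F w ω * F.d ω u
  du := F.d ω u
  v := F.u ω v + tw0 F w ω * F.d ω v
  dv := F.d ω v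

/-- Charts from coefficients with respect to the absolute time. -/
def chF (t : ℝ) (a b : Fin 4 → ℝ) : Cht where
  a0 := a 0 + a 1 * t
  a1 := a 1
  a2 := a 2
  b0 := b 0 + b 1 * t
  b1 := b 1
  b2 := b 2
  b3 := b 3

/-- Frames from coefficients. -/
def frF (a b : Fin 4 → ℝ) : Frm where
  cu := a 1
  au := a 2
  cv := b 1 + b 3 * a 1
  av := b 2 + b 3 * a 2

/-- Labels from coefficients with respect to the absolute time. -/
def lbF (t : ℝ) (q : Fin 4 → ℝ) : Lbl where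
  f0 := q 0 + q 1 * t
  f1 := q 1
  f2 := q 2
  f3 := q 3

theorem tw0_add (F : Fam m J) {w : ℕ} (hw : w ≤ J) (ω : F.Ω) :
    tw0 F w ω + tT J w (F.T ω) = F.t ω := by
  unfold tw0 tT Fam.t Fam.T1
  have h1 : (F.T ω : ℝ) = 2 ^ (J - w) * ((F.T ω / 2 ^ (J - w) : ℕ) : ℝ) +
      ((F.T ω % 2 ^ (J - w) : ℕ) : ℝ) := by
    exact_mod_cast (Nat.div_add_mod (F.T ω) (2 ^ (J - w))).symm
  have h2 : (2 : ℝ) ^ J = 2 ^ (J - w) * 2 ^ w := by
    rw [← pow_add]
    congr 1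
    omega
  rw [h1, h2]
  field_simp

section

variable (F : Fam m J) (y u v : Fin m) {w : ℕ} (hw : w ≤ J) (a b : Fin 4 → ℝ) (ω : F.Ω)

include hw

theorem lnF_hu : (lnF F y u v w ω).hu (chF (tw0 F w ω) a b) (tT J w (F.T ω)) =
    F.x ω u - (a 0 + a 1 * F.t ω + a 2 * F.x ω y) := by
  unfold Ln.hu lnF chF Fam.x
  simp only
  rw [← tw0_add F hw ω]
  ring

theorem lnF_hv : (lnF F y u v w ω).hv (chF (tw0 F w ω) a b) (tT J w (F.T ω)) =
    F.x ω v - (b 0 + b 1 * F.t ω + b 2 * F.x ω y + b 3 * F.x ω u) := by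
  unfold Ln.hv lnF chF Fam.x
  simp only
  rw [← tw0_add F hw ω]
  ring

theorem lnF_y : (lnF F y u v w ω).y + tT J w (F.T ω) * (lnF F y u v w ω).e = F.x ω y := by
  unfold lnF Fam.x
  simp only
  rw [← tw0_add F hw ω]
  ring

end

theorem lnF_hu' (F : Fam m J) (y u v : Fin m) (w : ℕ) (t : ℝ) (a b : Fin 4 → ℝ) (ω : F.Ω) :
    (lnF F y u v w ω).hu' (chF t a b) = F.d ω u - a 1 - a 2 * F.d ω y := rfl

theorem lnF_hv' (F : Fam m J) (y u v : Fin m) (w : ℕ) (t : ℝ) (a b : Fin 4 → ℝ) (ω : F.Ω) :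
    (lnF F y u v w ω).hv' (chF t a b) = F.d ω v - b 1 - b 2 * F.d ω y - b 3 * F.d ω u := rfl

/-- **The natural size of the frame** given by the labels of a deep window. -/
theorem geo_deep {c A B R δu δv : ℝ} (hc : 1 ≤ c) (hA : 0 ≤ A) (hB : B = A * R) (hR : 0 ≤ R)
    {l : Ln} {a b a' b' : Fin 4 → ℝ} {t : ℝ} (he : |l.e| ≤ 1)
    (hu : |l.du - a 1 - a 2 * l.e| ≤ A) (hv : |l.dv - b 1 - b 2 * l.e - b 3 * l.du| ≤ B)
    (hu' : |l.du - a' 1 - a' 2 * l.e| ≤ δu) (hv' : |l.dv - b' 1 - b' 2 * l.e - b' 3 * l.du| ≤ δv)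
    (du : δu ≤ A) (dv : δv ≤ B) (h2 : |a' 2 - a 2| ≤ c * A) (h3 : |b' 3 - b 3| ≤ c * R)
    (h4 : |(b' 2 - b 2) + (b' 3 - b 3) * a' 2| ≤ c * B) :
    |((frF a' b').ju (chF t a b)).1| ≤ 3 * c * A ∧ |((frF a' b').ju (chF t a b)).2| ≤ 3 * c * A ∧
    |((frF a' b').jv (chF t a b)).1| ≤ 4 * c * B ∧ |((frF a' b').jv (chF t a b)).2| ≤ 4 * c * B ∧
    |l.hu' (chF t a b) - (((frF a' b').ju (chF t a b)).1 +
      l.e * ((frF a' b').ju (chF t a b)).2)| ≤ δu ∧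
    |l.hv' (chF t a b) - (((frF a' b').jv (chF t a b)).1 +
      l.e * ((frF a' b').jv (chF t a b)).2)| ≤ δv + c * R * δu := by
  have hB0 : 0 ≤ B := by rw [hB]; positivity
  have hδu : 0 ≤ δu := (abs_nonneg _).trans hu'
  have g1 : ((frF a' b').ju (chF t a b)).1 = a' 1 - a 1 := rfl
  have g2 : ((frF a' b').ju (chF t a b)).2 = a' 2 - a 2 := rfl
  have g3 : ((frF a' b').jv (chF t a b)).1 = b' 1 + b' 3 * a' 1 - b 1 - b 3 * a' 1 := rfl
  have g4 : ((frF a' b').jv (chF t a b)).2 = b' 2 + b' 3 * a' 2 - b 2 - b 3 * a' 2 := rfl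
  have g5 : l.hu' (chF t a b) = l.du - a 1 - a 2 * l.e := rfl
  have g6 : l.hv' (chF t a b) = l.dv - b 1 - b 2 * l.e - b 3 * l.du := rfl
  rw [g1, g2, g3, g4, g5, g6]
  have hcA : A ≤ c * A := le_mul_of_one_le_left hA hc
  have hcB : B ≤ c * B := le_mul_of_one_le_left hB0 hc
  -- the difference of the velocities
  have k1 : |a' 1 - a 1 + (a' 2 - a 2) * l.e| ≤ 2 * A := by
    have e1 : a' 1 - a 1 + (a' 2 - a 2) * l.e =
        (l.du - a 1 - a 2 * l.e) - (l.du - a' 1 - a' 2 * l.e) := by ring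
    rw [e1]
    have := abs_sub (l.du - a 1 - a 2 * l.e) (l.du - a' 1 - a' 2 * l.e)
    linarith
  have k2 : |(a' 2 - a 2) * l.e| ≤ c * A := by
    rw [abs_mul]
    calc |a' 2 - a 2| * |l.e| ≤ (c * A) * 1 :=
          mul_le_mul h2 he (abs_nonneg _) (by positivity)
      _ = c * A := mul_one _
  have k3 : |a' 1 - a 1| ≤ 3 * c * A := by
    have e1 : a' 1 - a 1 = (a' 1 - a 1 + (a' 2 - a 2) * l.e) - (a' 2 - a 2) * l.e := by ring
    rw [e1]
    have := abs_sub (a' 1 - a 1 + (a' 2 - a 2) * l.e) ((a' 2 - a 2) * l.e)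
    linarith
  have hRd : c * R * δu ≤ c * B := by
    calc c * R * δu ≤ c * R * A := mul_le_mul_of_nonneg_left du (by positivity)
      _ = c * B := by rw [hB]; ring
  have k4 : |(b' 3 - b 3) * (l.du - a' 1 - a' 2 * l.e)| ≤ c * R * δu := by
    rw [abs_mul]
    exact mul_le_mul h3 hu' (abs_nonneg _) (by positivity)
  have k5 : |(b' 1 - b 1 + (b' 3 - b 3) * a' 1) + ((b' 2 - b 2) + (b' 3 - b 3) * a' 2) * l.e| ≤
      3 * c * B := by
    have e1 : (b' 1 - b 1 + (b' 3 - b 3) * a' 1) + ((b' 2 - b 2) + (b' 3 - b 3) * a' 2) * l.e =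
        (l.dv - b 1 - b 2 * l.e - b 3 * l.du) - (l.dv - b' 1 - b' 2 * l.e - b' 3 * l.du) -
        (b' 3 - b 3) * (l.du - a' 1 - a' 2 * l.e) := by ring
    rw [e1]
    have t1 := abs_sub ((l.dv - b 1 - b 2 * l.e - b 3 * l.du) -
      (l.dv - b' 1 - b' 2 * l.e - b' 3 * l.du)) ((b' 3 - b 3) * (l.du - a' 1 - a' 2 * l.e))
    have t2 := abs_sub (l.dv - b 1 - b 2 * l.e - b 3 * l.du)
      (l.dv - b' 1 - b' 2 * l.e - b' 3 * l.du)
    linarith
  have k6 : |((b' 2 - b 2) + (b' 3 - b 3) * a' 2) * l.e| ≤ c * B := by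
    rw [abs_mul]
    calc |(b' 2 - b 2) + (b' 3 - b 3) * a' 2| * |l.e| ≤ (c * B) * 1 :=
          mul_le_mul h4 he (abs_nonneg _) (by positivity)
      _ = c * B := mul_one _
  refine ⟨k3, ?_, ?_, ?_, ?_, ?_⟩
  · have : 0 ≤ c * A := by positivity
    linarith
  · have e1 : b' 1 + b' 3 * a' 1 - b 1 - b 3 * a' 1 =
        ((b' 1 - b 1 + (b' 3 - b 3) * a' 1) + ((b' 2 - b 2) + (b' 3 - b 3) * a' 2) * l.e) -
        ((b' 2 - b 2) + (b' 3 - b 3) * a' 2) * l.e := by ring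
    rw [e1]
    have := abs_sub ((b' 1 - b 1 + (b' 3 - b 3) * a' 1) + ((b' 2 - b 2) + (b' 3 - b 3) * a' 2) * l.e)
      (((b' 2 - b 2) + (b' 3 - b 3) * a' 2) * l.e)
    linarith
  · have e1 : b' 2 + b' 3 * a' 2 - b 2 - b 3 * a' 2 = (b' 2 - b 2) + (b' 3 - b 3) * a' 2 := by ring
    rw [e1]
    have : 0 ≤ c * B := by positivity
    linarith
  · have e1 : l.du - a 1 - a 2 * l.e - (a' 1 - a 1 + l.e * (a' 2 - a 2)) =
        l.du - a' 1 - a' 2 * l.e := by ring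
    rw [e1]
    exact hu'
  · have e1 : l.dv - b 1 - b 2 * l.e - b 3 * l.du - (b' 1 + b' 3 * a' 1 - b 1 - b 3 * a' 1 +
        l.e * (b' 2 + b' 3 * a' 2 - b 2 - b 3 * a' 2)) =
        (l.dv - b' 1 - b' 2 * l.e - b' 3 * l.du) +
        (b' 3 - b 3) * (l.du - a' 1 - a' 2 * l.e) := by ring
    rw [e1]
    have := abs_add_le (l.dv - b' 1 - b' 2 * l.e - b' 3 * l.du)
      ((b' 3 - b 3) * (l.du - a' 1 - a' 2 * l.e))
    linarith

end Pool.OWN17
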