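import Pool.Agent.H17.COR.Bxn
import Pool.Agent.H17.COR.Plb
import Pool.Agent.H62.P3.PlcA

/-!
# The places of a box

`place_k`: the data of one place of a box, on a subclass.
-/

set_option autoImplicit false

namespace Pool.OWN17

open Finset Real MvPolynomial Filter Topology
open Pool.Agent.H49.Ent Pool.Agent.H32.Dense Pool.STK Pool.KA Pool.KSAT Pool.K2S Pool.PB Pool.S6C
  Pool.GEN Pool.RCD Pool.LA91 Pool.MIC6 Pool.REX Pool.REX83 Pool.OWN72 Pool.OWN43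
open Pool.GRD (LbP)

variable {m : ℕ} {ι : Type} {U D : ℚ → ℝ} {A B s lam τ β h : ℝ} {mp N : ℕ} {n γ ρ : ℕ → ℕ} {g : ℚ}
  {q : ι → ℚ} {tX tD : ℕ → ι} {iO : ι} {q₁ : ℚ} {b₁ b₂ : ℝ} {θJ θD : ι → ι → ℝ}

/-- The codes are closed. -/
theorem csF_cl [DecidableEq ι] {y u v : Fin m} {x Ui Di : ι → ℝ} {g h e β : ℝ} {iW iO : ι}
    (hWO : iW ≠ iO) {nn : ℕ} {V : ∀ J : ℕ, Fam m J → Type}
    {a b : ι → ∀ (J : ℕ) (F : Fam m J), LnT F → Fin 4 → ℝ}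
    {z : ∀ (J : ℕ) (F : Fam m J), ι → LnT F → V J F} {t : ℝ} (ht : x iW ≤ t) (ht1 : t ≤ 1)
    {J : ℕ} {F : Fam m J} {A : F.Ω → Prop}
    (E : BxE y u v x Ui Di g h e β iW iO nn A (fun i => a i J F) (fun i => b i J F) (z J F))
    {ω ω' : F.Ω} (hω : A ω) (hω' : A ω') (hh : ptr F J ω = ptr F J ω') :
    csF x t iW z a b J F (slam F ⌊t * J⌋₊ ω) = csF x t iW z a b J F (slam F ⌊t * J⌋₊ ω') := by
  rw [csF_zp (iO := iO) hWO z a b ht ht1 J F ω, csF_zp (iO := iO) hWO z a b ht ht1 J F ω']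
  obtain ⟨φ₁, p1⟩ := (E.ch iW).1.cls
  obtain ⟨φ₂, p2⟩ := (E.ch iW).2.2.cls
  obtain ⟨φ₃, p3'⟩ := (E.cl iW).1
  have p3 : ∀ ω, A ω → z J F iW (slam F ⌊x iW * J⌋₊ ω) = φ₃ (ptr F J ω) := p3'
  have hT : F.T ω = F.T ω' := (Prod.ext_iff.mp (Prod.ext_iff.mp hh).2).1
  have hZ : F.Z ω = F.Z ω' := (Prod.ext_iff.mp (Prod.ext_iff.mp hh).2).2
  have e1 : a iW J F (slam F ⌊x iW * J⌋₊ ω) = a iW J F (slam F ⌊x iW * J⌋₊ ω') := by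
    rw [p1 ω hω, p1 ω' hω', hh]
  have e2 : b iW J F (slam F ⌊x iW * J⌋₊ ω) = b iW J F (slam F ⌊x iW * J⌋₊ ω') := by
    rw [p2 ω hω, p2 ω' hω', hh]
  have e3 : z J F iW (slam F ⌊x iW * J⌋₊ ω) = z J F iW (slam F ⌊x iW * J⌋₊ ω') := by
    rw [p3 ω hω, p3 ω' hω', hh]
  unfold zpF
  simp only [if_neg hWO, e1, e2, e3, hT, hZ]

/-- The charts and the beginning of the window are functions of the codes. -/
theorem csF_cs [DecidableEq ι] {x : ι → ℝ} {iW iO : ι} (hWO : iW ≠ iO)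
    {V : ∀ J : ℕ, Fam m J → Type} {a b : ι → ∀ (J : ℕ) (F : Fam m J), LnT F → Fin 4 → ℝ}
    {z : ∀ (J : ℕ) (F : Fam m J), ι → LnT F → V J F} {t : ℝ} (ht : x iW ≤ t) (ht1 : t ≤ 1)
    (J : ℕ) (F : Fam m J) (ω ω' : F.Ω)
    (hh : csF x t iW z a b J F (slam F ⌊t * J⌋₊ ω) = csF x t iW z a b J F (slam F ⌊t * J⌋₊ ω')) :
    a iW J F (slam F ⌊x iW * J⌋₊ ω) = a iW J F (slam F ⌊x iW * J⌋₊ ω') ∧
      b iW J F (slam F ⌊x iW * J⌋₊ ω) = b iW J F (slam F ⌊x iW * J⌋₊ ω') ∧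
      tw0 F ⌊t * J⌋₊ ω = tw0 F ⌊t * J⌋₊ ω' := by
  rw [csF_zp (iO := iO) hWO z a b ht ht1 J F ω, csF_zp (iO := iO) hWO z a b ht ht1 J F ω'] at hh
  unfold zpF at hh
  simp only [Prod.mk.injEq] at hh
  obtain ⟨⟨⟨-, ⟨h1, h2⟩, -⟩, -⟩, h3⟩ := hh
  refine ⟨h1, h2, ?_⟩
  unfold tw0 Fam.T1
  rw [h3]

/-- **The data of one place of a box**, on a subclass. -/
theorem place_k [DecidableEq ι] (hFn : ∀ k, 1 ≤ k → k ≤ 3 → FZX k) {S : PCl m} (hS : S.Ne) {C₀ : ℝ}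
    (hC₀ : 0 ≤ C₀) (htm : TmC S C₀)
    (hpos : ∀ (τ : ℝ) (J : ℕ) (F : Fam m J) (A : F.Ω → Prop), S.St τ J F A → 0 < Pe F.p A)
    {L : Finset (Fin m) → Fin m → ℝ → ℝ → ℝ} (hL : LamW S L)
    {Ns : Finset (Fin m) → ℝ → ℝ → ℝ} (hNs : ActN S Ns) {y u v : Fin m} (hact : ActF S y)
    (hyu : y ≠ u) (hyv : y ≠ v) (huv : u ≠ v)
    (R : BoxR U D A B s lam mp N n γ ρ τ β h g q tX tD iO q₁ b₁ b₂ θJ θD) {x : ι → ℝ}
    (hx : ∀ i, x i = (q i : ℝ) + s) (hx0 : ∀ i, 0 ≤ x i) (hx1 : ∀ i, x i ≤ 1)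
    (hU1 : ∀ i, U (q i) ≤ 1) (hD1 : ∀ i, D (q i) ≤ 1)
    (hUL : U (q (tX 0)) = L {y} u (x (tX 0)) (x (tX 0)))
    (hUq : U q₁ = L {y} u ((q₁ : ℝ) + s) ((q₁ : ℝ) + s))
    (hcu : ContinuousAt (fun t => L {y} u t t) b₁) (huv1 : L {y} u b₁ b₁ ≤ L {y} v b₁ b₁)
    {α₀ α β₀ β' : ℝ} (hα₀ : 0 ≤ α₀) (hα : α₀ < α) (hα1 : α < 1)
    (hdeep : U (q (tX 0)) - x (tX 0) + N * β + 20 * h ≤ L {y} u α₀ α₀ - α)
    (hβ₀ : 0 ≤ β₀) (hβ' : β₀ < β') (hβ1 : β' < 1)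
    (hdeep' : U (q (tX 0)) - x (tX 0) + N * β + 20 * h ≤ L {y} v β₀ β₀ - β')
    {e e₀ kM c₀ : ℝ} (hc₀ : 0 < c₀) (hc₁ : c₀ ≤ 1) (he0 : 0 < e) (heh : e ≤ h) (he : e ≤ e₀)
    {nn : ℕ} {V : ∀ J : ℕ, Fam m J → Type}
    {a b : ι → ∀ (J : ℕ) (F : Fam m J), LnT F → Fin 4 → ℝ}
    {z : ∀ (J : ℕ) (F : Fam m J), ι → LnT F → V J F} {J₁ : ℕ}
    (hE : ∀ (τ : ℝ) (J : ℕ) (F : Fam m J) (A : F.Ω → Prop), S.St τ J F A → J₁ ≤ J ∧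
      BxE y u v x (fun i => U (q i)) (fun i => D (q i)) g h e β (tX 0) iO nn A
        (fun i => a i J F) (fun i => b i J F) (z J F))
    (hJ₁ : ∀ J ≥ J₁, ∀ t : ℝ, t = b₁ ∨ t = b₂ →
      ∀ (F : Fam m J) (A : F.Ω → Prop) (a b : ι → LnT F → Fin 4 → ℝ) (V : Type)
      (z : ι → LnT F → V),
      BxE y u v x (fun i => U (q i)) (fun i => D (q i)) g h e β (tX 0) iO nn A a b z →
      Dpl (Pool.Agent.H49.Ent.cond F.p A True) 4 J ⌊t * J⌋₊ ⌊(U (q (tX 0)) - h) * J⌋₊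
        ⌊(U (q (tX 0)) + g - 2 * h) * J⌋₊ ⌊(N * β + 10 * h) * J⌋₊ (lnF F y u v ⌊t * J⌋₊)
        (hC F ⌊t * J⌋₊ ⌊x (tX 0) * J⌋₊ (a (tX 0)) (b (tX 0))) (fC F ⌊x iO * J⌋₊ (a iO) (b iO)) F.T
        (fun ω => F.X J ω y) (AuC F ⌊x (tX 0) * J⌋₊ ⌊x iO * J⌋₊ (a (tX 0)) (a iO))
        (AvC F ⌊x (tX 0) * J⌋₊ ⌊x iO * J⌋₊ (b (tX 0)) (a iO) (b iO)))
    (hN : Bas S (NbxS y u v s U g q x lam (tX 0) iO θJ θD kM e₀ (2 * h) (5 * h) h c₀))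
    (hz : Bas S (fun J F A => ∀ i, Mx (fun J F => ptr F J) (vg (x i)) kM F A
      (fun ω => z J F i (slam F ⌊x i * J⌋₊ ω))))
    (hn : ∀ (J : ℕ) (F : Fam m J) (i j : ι), x i ≤ x j → ∀ ω ω' : F.Ω,
      z J F j (slam F ⌊x j * J⌋₊ ω) = z J F j (slam F ⌊x j * J⌋₊ ω') →
      z J F i (slam F ⌊x i * J⌋₊ ω) = z J F i (slam F ⌊x i * J⌋₊ ω')) {k : ℕ} (hk : k ≤ mp)
    (hγ1 : 1 ≤ γ k) (hγτ : (γ k : ℝ) + 1 ≤ τ * ρ k) {xl x₁ : ℝ} (hxl : 0 < xl)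
    (hx₁ : xl < x₁) (hx₁h : x₁ ≤ h) {p₁ al₁ p₂ al₂ : ℝ} (hp₁ : 0 < p₁) (hp₁2 : p₁ < 1 / 2)
    (hal₁ : 0 < al₁) (hP₁ : n k * β + h < (1 - b₁) * p₁) (hP₁' : (1 - b₁) * p₁ < n k * β + 2 * h)
    (hA₁ : Act (Ns {y}) ((1 - b₁) * p₁) al₁) (hp₂ : 0 < p₂) (hp₂2 : p₂ < 1 / 2)
    (hal₂ : 0 < al₂) (hP₂ : n k * β + 2 * h < (1 - b₂) * p₂)
    (hP₂' : (1 - b₂) * p₂ < n k * β + 3 * h) (hA₂ : Act (Ns {y}) ((1 - b₂) * p₂) al₂) :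
    ∃ (S' : PCl m) (f : ∀ (J : ℕ) (F : Fam m J), LnT F → Fin 4 → ℝ), S'.Ne ∧
      (∀ (τ : ℝ) (J : ℕ) (F : Fam m J) (A : F.Ω → Prop), S'.St τ J F A → S.St τ J F A) ∧
      Bas S' (PlS y u v b₂ (x (tX 0)) (x iO) x₁ (10 * h) (5 * h)
        (fun J => ⌊(U (q (tX 0)) - h) * J⌋₊) (fun J => ⌊(U (q (tX 0)) + g - 2 * h) * J⌋₊)
        (fun J => n k * ⌊β * J⌋₊) (fun J => γ k * ⌊β * J⌋₊) (fun J => ⌊20 * h * J⌋₊)
        (a (tX 0)) (b (tX 0)) (a iO) (b iO) (csF x b₂ (tX 0) z a b) f) := by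
  classical
  obtain ⟨U₀, hU₀⟩ : ∃ U₀, U₀ = U (q (tX 0)) := ⟨_, rfl⟩
  obtain ⟨W, hW⟩ : ∃ W, W = x (tX 0) := ⟨_, rfl⟩
  have h0 := R.h0
  have hβ0 := R.β0
  have hg0 : -h ≤ (g : ℝ) := R.g0
  have hβh := R.hβ
  have hub := R.ub
  have hone := R.one
  have haO := R.aO
  have hb2N := R.b2N
  have hbb := R.bb
  have hb2 := R.b2
  have hWb : W < b₁ := by rw [hW, hx]; exact R.Wb
  have eW : (q (tX 0) : ℝ) + s = W := by rw [hW, hx]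
  have eO : (q iO : ℝ) + s = x iO := by rw [hx]
  have hW0 : 0 ≤ W := by rw [hW]; exact hx0 _
  have hNβ : 0 ≤ N * β := by positivity
  have hnβ : 0 ≤ n k * β := by positivity
  have hWO : tX 0 ≠ iO := R.XO 0 (Nat.zero_le _)
  obtain ⟨hnN1, hnN2⟩ := R.nNβ hk
  have hb1 : b₁ < 1 := by linarith
  have hb21 : b₂ < 1 := by linarith
  rw [← hU₀] at hub hone haO hdeep hdeep'
  rw [eW, eO] at haO
  rw [← hW] at hdeep hdeep'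
  -- the number at the first tube
  obtain ⟨l₁, hl₁⟩ : ∃ l₁, l₁ = L {y} u b₁ b₁ := ⟨_, rfl⟩
  have hl1a : U₀ ≤ l₁ := by
    rw [hU₀, hUL, hl₁, ← hW]
    exact hL.mono _ _ _ _ _ _ _ (Finset.Subset.refl _) hWb.le hWb.le
  have hl1b : l₁ ≤ U₀ + h := by
    have h1 := R.u1
    rw [← hU₀, hUq] at h1
    refine le_trans ?_ h1
    rw [hl₁]
    exact hL.mono _ _ _ _ _ _ _ (Finset.Subset.refl _) (by linarith) (by linarith)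
  obtain ⟨δ, hδ, hcδ⟩ := Metric.continuousAt_iff.1 hcu (xl / 16) (by linarith)
  obtain ⟨t₁, ht₁⟩ : ∃ t₁, t₁ = b₁ + δ := ⟨_, rfl⟩
  have hUs : ∀ s, b₁ < s → s < t₁ → L {y} u s 0 ≤ l₁ + xl / 16 := by
    intro s h1 h2
    have h3 := @hcδ s (by
      rw [Real.dist_eq, abs_lt]
      constructor <;> linarith)
    rw [Real.dist_eq, abs_lt, ← hl₁] at h3
    have h4 : L {y} u s 0 ≤ L {y} u s s :=
      hL.mono _ _ _ _ _ _ _ (Finset.Subset.refl _) le_rfl (by linarith)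
    linarith [h3.2]
  have hb10 : 0 ≤ b₁ := by linarith
  have hb20 : 0 ≤ b₂ := by linarith
  have hUs' : ∀ s, b₁ < s → s < t₁ → l₁ + xl / 16 - xl / 16 ≤ L {y} u s 0 := by
    intro s h1 _
    rw [add_sub_cancel_right, hl₁]
    exact ng_diag hS hC₀ htm hL hact hb10 h1
  have hVs' : ∀ s, b₁ < s → s < t₁ → l₁ + xl / 16 - xl / 16 ≤ L {y} v s 0 := by
    intro s h1 _
    rw [add_sub_cancel_right, hl₁]
    exact huv1.trans (ng_diag hS hC₀ htm hL hact hb10 h1)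
  -- the numbers of the first tube
  obtain ⟨J₂, hJ₂, hJ₂'⟩ := pa_num (U₀ := U₀) (g := g) (h := h) (e := e) (β := β) (b₁ := b₁)
    (τ := τ) (N := N) (nk := n k) (rk := ρ k) h0 he0 heh hβ0 hg0 hb10 (by linarith) hnN2 hone
  have hch : ∀ (τ : ℝ) (J : ℕ) (F : Fam m J) (A : F.Ω → Prop), S.St τ J F A →
      Chd F y u v ⌊x (tX 0) * J⌋₊ ⌊x iO * J⌋₊ ⌊(U₀ - e) * J⌋₊ ⌊(D (q (tX 0)) - e) * J⌋₊
        ⌊(U (q iO) - e) * J⌋₊ ⌊(D (q iO) - e) * J⌋₊ ⌊e * J⌋₊ (a (tX 0) J F) (b (tX 0) J F)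
        (a iO J F) (b iO J F) A := fun τ J F A hA => by
    rw [hU₀]
    exact (hE τ J F A hA).2.chd
  obtain ⟨M, hM⟩ : ∃ M, M = b₁ + n k * β + (2 * U₀ + g + 2 * (n k * β) + τ * (ρ k * β) -
    130 * h) - b₁ -
    2 * ((1 - b₁) * p₁) - (l₁ + xl / 16) - xl - h := ⟨_, rfl⟩
  have hτn : (γ k : ℝ) * β + β ≤ τ * (ρ k * β) := by
    have := mul_le_mul_of_nonneg_right hγτ hβ0.le
    linarith
  have hγβ : 0 ≤ γ k * β := by positivity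
  have hM1 : U₀ + g + (n k * β + γ k * β) + 10 * h ≤ M := by
    rw [hM]
    linarith
  have hup := box_up (S := S) hpos (y := y) (u := u) (v := v) hyu R hx hx0 hx1 hU1 hD1 (e := e)
    (e₀ := e₀) (kM := kM) (c₀ := c₀) hc₀ hc₁ he0 heh he (nn := nn) (a := a) (b := b) (z := z)
    (fun τ J F A hA => (hE τ J F A hA).2) hN hz hn hk
  rw [← hU₀] at hup
  obtain ⟨S₁, v₁, hS₁, sub₁, hvb, hvp, hact₁, hrec₁, hlab⟩ := place_a hFn hS hC₀ htm hpos hL hNs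
    (y := y) (u := u) (v := v) hact hyu hyv huv (t₀ := b₁) (W := x (tX 0)) (O := x iO)
    (P₀ := n k * β + h) hb10 hb1 (by rw [← hW]; exact hWb.le)
    (NU := fun J => ⌊(U₀ - h) * J⌋₊) (NV := fun J => ⌊(U₀ + g - 2 * h) * J⌋₊)
    (iN := fun J => n k * ⌊β * J⌋₊) (gN := fun J => ρ k * ⌊β * J⌋₊)
    (I := fun J => ⌊(N * β + 10 * h) * J⌋₊) (E := fun J => ⌊e * J⌋₊)
    (MU := fun J => ⌊(U₀ - e) * J⌋₊) (MV := fun J => ⌊(D (q (tX 0)) - e) * J⌋₊)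
    (MU' := fun J => ⌊(U (q iO) - e) * J⌋₊) (MV' := fun J => ⌊(D (q iO) - e) * J⌋₊)
    (a := a (tX 0)) (b := b (tX 0)) (a' := a iO) (b' := b iO) hch (fun τ J F A hA => by
      have h1 := hJ₁ J (hE τ J F A hA).1 b₁ (Or.inl rfl) F A _ _ _ _ (hE τ J F A hA).2
      rw [← hU₀] at h1
      exact h1) (cs := csF x b₁ (tX 0) z a b)
    (fun τ J F A hA ω ω' h1 h2 h3 => csF_cl hWO (by rw [← hW]; exact hWb.le) hb1.le
      (hE τ J F A hA).2 h1 h2 h3)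
    (fun J F ω ω' hh => csF_cs hWO (by rw [← hW]; exact hWb.le) hb1.le J F ω ω' hh)
    (p := p₁) (al := al₁) hp₁ hp₁2 hal₁ hP₁ hA₁
    (κ := (2 - τ) * (ρ k * β * Real.log 2) + 80 * h) hup
    (Y := b₁ + n k * β) (Ed := 2 * U₀ + g + 2 * (n k * β) + τ * (ρ k * β) - 130 * h)
    (U₁ := l₁ + xl / 16) (x := xl) (t₁ := t₁) (α₀ := α₀) (α := α) (β₀ := β₀) (β := β') hxl
    (by linarith) hUs hUs' hVs' (by linarith) hα₀ hα hα1 (by linarith) hβ₀ hβ' hβ1 (by linarith)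
    (by linarith) (fun r hr => by
      obtain ⟨J₃, hJ₃⟩ := (ge_ev ((n k : ℝ) + 2) hr).exists_forall_of_atTop
      refine ⟨J₃, fun J hJ => ?_⟩
      have f1 : b₁ * (J : ℝ) - 1 < ⌊b₁ * (J : ℝ)⌋₊ := Nat.sub_one_lt_floor _
      have f3 : β * (J : ℝ) - 1 < ⌊β * (J : ℝ)⌋₊ := Nat.sub_one_lt_floor _
      have f4 := mul_le_mul_of_nonneg_left f3.le (Nat.cast_nonneg (α := ℝ) (n k))
      have f5 := hJ₃ J hJ
      push_cast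
      nlinarith) (J₀ := J₂) hJ₂ hJ₂' (t := b₂) (x₁ := x₁) (s := h) (M := M) hbb hb21 hx₁ h0 hM
    (by linarith) (by linarith)
  -- the second tube
  have hPJ : ∀ᶠ J : ℕ in atTop, v₁.P J ≤ ⌊(n k * β + 2 * h) * J⌋₊ :=
    vP_ev v₁ (by rw [hvb, hvp]; exact hP₁')
  obtain ⟨J₃, n0, n1, n2⟩ := pb_num (U₀ := U₀) (g := g) (h := h) (e := e) (β := β) (b₂ := b₂)
    (x₁ := x₁) (M := M) (W := W) (O := x iO) (UO := U (q iO)) (DO := D (q iO))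
    (P₂ := (1 - b₂) * p₂) (N := N) (nk := n k) (γk := γ k) (PJ := v₁.P) h0 he0 heh hβ0 hβh hg0
    hb20 hub (by linarith) hx₁h hγ1 hnN1 hone (by linarith) (hx0 _) haO (R.gD iO) hM1 hP₂'.le hPJ
  have htm₁ : TmC S₁ C₀ := fun τ J F A hτ h => htm τ J F A hτ (sub₁ τ J F A h)
  obtain ⟨S₂, f, hS₂, sub₂, hpl⟩ := place_b (hFn 1 le_rfl (by norm_num)) (hFn 2 (by norm_num) (by norm_num)) hS₁ hC₀ htm₁
    (fun τ J F A h => hpos τ J F A (sub₁ τ J F A h)) (hL.sub sub₁)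
    (actN_of_bas (fun Φ hb => Bas.sub sub₁ hb) hNs) (y := y) (u := u) (v := v) (v₁ := v₁) hact₁
    (P₀ := n k * β + h) (P₁ := n k * β + 2 * h) hrec₁ (by linarith)
    (by rw [hvb, hvp]; exact hP₁') (t := b₂) (W := x (tX 0)) (O := x iO) (x₁ := x₁) (M := M)
    hb20 hb21 (by rw [← hW]; linarith) hlab
    (NU := fun J => ⌊(U₀ - h) * J⌋₊) (NV := fun J => ⌊(U₀ + g - 2 * h) * J⌋₊)
    (iN := fun J => n k * ⌊β * J⌋₊) (gN := fun J => γ k * ⌊β * J⌋₊)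
    (sN := fun J => ⌊20 * h * J⌋₊)
    (I := fun J => ⌊(N * β + 10 * h) * J⌋₊) (E := fun J => ⌊e * J⌋₊)
    (MU := fun J => ⌊(U₀ - e) * J⌋₊) (MV := fun J => ⌊(D (q (tX 0)) - e) * J⌋₊)
    (MU' := fun J => ⌊(U (q iO) - e) * J⌋₊) (MV' := fun J => ⌊(D (q iO) - e) * J⌋₊)
    (a := a (tX 0)) (b := b (tX 0)) (a' := a iO) (b' := b iO)
    (fun τ J F A hA => ⟨hch τ J F A (sub₁ τ J F A hA), by
      rw [hU₀]
      exact (hE τ J F A (sub₁ τ J F A hA)).2.cq⟩) (fun τ J F A hA => by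
      have h1 := hJ₁ J (hE τ J F A (sub₁ τ J F A hA)).1 b₂ (Or.inr rfl) F A _ _ _ _
        (hE τ J F A (sub₁ τ J F A hA)).2
      rw [← hU₀] at h1
      exact h1) (cs := csF x b₂ (tX 0) z a b)
    (fun τ J F A hA ω ω' h1 h2 h3 => csF_cl hWO (by rw [← hW]; linarith) hb21.le
      (hE τ J F A (sub₁ τ J F A hA)).2 h1 h2 h3)
    (fun J F ω ω' hh => csF_cs hWO (by rw [← hW]; linarith) hb21.le J F ω ω' hh)
    (p := p₂) (al := al₂) hp₂ hp₂2 hal₂ hP₂ hA₂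
    (Ub := U₀ + h) (t₁ := (q₁ : ℝ) + s) (a₀ := α₀) (a₂ := α) (x₂ := h) hb2 h0
    (fun s' h1 h2 => by
      have h3 := R.u1
      rw [← hU₀, hUq] at h3
      refine le_trans ?_ h3
      exact hL.mono _ _ _ _ _ _ _ (Finset.Subset.refl _) h2.le (by linarith))
    hα (by linarith) hα1 (by linarith) (Y := b₂ + n k * β) (eU := 9 * h) (ec := 4 * h) (ρ := h)
    (x := h) h0 h0 (by linarith) (by linarith) (fun r hr => by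
      obtain ⟨J₃, hJ₃⟩ := (ge_ev ((n k : ℝ) + 2) hr).exists_forall_of_atTop
      refine ⟨J₃, fun J hJ => ?_⟩
      have f1 : b₂ * (J : ℝ) - 1 < ⌊b₂ * (J : ℝ)⌋₊ := Nat.sub_one_lt_floor _
      have f3 : β * (J : ℝ) - 1 < ⌊β * (J : ℝ)⌋₊ := Nat.sub_one_lt_floor _
      have f4 := mul_le_mul_of_nonneg_left f3.le (Nat.cast_nonneg (α := ℝ) (n k))
      have f5 := hJ₃ J hJ
      push_cast
      nlinarith) (J₀ := J₃) n0 n1 n2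
  refine ⟨S₂, f, hS₂, fun τ J F A h => sub₁ τ J F A (sub₂ τ J F A h), ?_⟩
  have e1 : 9 * h + h = 10 * h := by ring
  have e2 : 4 * h + h = 5 * h := by ring
  rw [e1, e2, hU₀] at hpl
  exact hpl

end Pool.OWN17
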