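import Pool.Agent.H17.COR.Bxd

/-!
# The deep windows and the upper bound at the places of a box

`BxE`: charts, records and digits of a box for one event. `box_dpl`: the data of a deep window.
`box_da`: the digits at the windows. `box_up`: the upper bound at the places.
-/

set_option autoImplicit false

namespace Pool.OWN17

open Finset Real MvPolynomial Filter Topology
open Pool.Agent.H49.Ent Pool.Agent.H32.Dense Pool.STK Pool.KA Pool.KSAT Pool.K2S Pool.PB Pool.S6C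
  Pool.GEN Pool.RCD Pool.LA91 Pool.MIC6
open Pool.GRD (LbP)

variable {m : ℕ}

/-- **Charts, records and digits of a box** for one event. -/
structure BxE (y u v : Fin m) {ι : Type} (x Ui Di : ι → ℝ) (g h e β : ℝ) (iW iO : ι) (nn : ℕ)
    {J : ℕ} {F : Fam m J} (A : F.Ω → Prop) (a b : ι → LnT F → Fin 4 → ℝ) {V : Type}
    (z : ι → LnT F → V) : Prop where
  ch : ∀ i, ChA F y y u ⌊x i * J⌋₊ ⌊(Ui i - e) * J⌋₊ ⌊e * J⌋₊ (a i) A ∧ (∀ s, a i s 3 = 0) ∧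
    ChA F y u v ⌊x i * J⌋₊ ⌊(Di i - e) * J⌋₊ ⌊e * J⌋₊ (b i) A
  cq : Chq F ⌊x iW * J⌋₊ ⌊x iO * J⌋₊ ⌊x iW * J⌋₊ ⌊(Ui iW - h) * J⌋₊
    ⌊(Ui iW + g - 2 * h) * J⌋₊ 1 (a iW) (b iW) (a iO) (b iO) A
  cl : ∀ i, Cl2 (ptr F J) (vg (x i) J F) A (fun ω => z i (slam F ⌊x i * J⌋₊ ω))
  du : ∀ ω ω', A ω → A ω' → ptr F J ω = ptr F J ω' →
    ⌊(2 : ℝ) ^ (⌊(Ui iW - h) * J⌋₊ + nn * ⌊β * J⌋₊) * oh F y y u (a iW (slam F ⌊x iW * J⌋₊ ω)) ω⌋ =
    ⌊(2 : ℝ) ^ (⌊(Ui iW - h) * J⌋₊ + nn * ⌊β * J⌋₊) *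
      oh F y y u (a iW (slam F ⌊x iW * J⌋₊ ω')) ω'⌋
  dv : ∀ ω ω', A ω → A ω' → ptr F J ω = ptr F J ω' →
    ⌊(2 : ℝ) ^ (⌊(Ui iW + g - 2 * h) * J⌋₊ + nn * ⌊β * J⌋₊) *
      oh F y u v (b iW (slam F ⌊x iW * J⌋₊ ω)) ω⌋ =
    ⌊(2 : ℝ) ^ (⌊(Ui iW + g - 2 * h) * J⌋₊ + nn * ⌊β * J⌋₊) *
      oh F y u v (b iW (slam F ⌊x iW * J⌋₊ ω')) ω'⌋

section

variable {ι : Type} {U D : ℚ → ℝ} {A B s lam τ β h : ℝ} {mp N : ℕ} {n γ ρ : ℕ → ℕ} {g : ℚ}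
  {q : ι → ℚ} {tX tD : ℕ → ι} {iO : ι} {q₁ : ℚ} {b₁ b₂ : ℝ} {θJ θD : ι → ι → ℝ}

theorem BxE.chd {y u v : Fin m} {x Ui Di : ι → ℝ} {g h e β : ℝ} {iW iO : ι} {nn : ℕ}
    {J : ℕ} {F : Fam m J} {A : F.Ω → Prop} {a b : ι → LnT F → Fin 4 → ℝ} {V : Type}
    {z : ι → LnT F → V} (E : BxE y u v x Ui Di g h e β iW iO nn A a b z) :
    Chd F y u v ⌊x iW * J⌋₊ ⌊x iO * J⌋₊ ⌊(Ui iW - e) * J⌋₊ ⌊(Di iW - e) * J⌋₊
      ⌊(Ui iO - e) * J⌋₊ ⌊(Di iO - e) * J⌋₊ ⌊e * J⌋₊ (a iW) (b iW) (a iO) (b iO) A :=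
  ⟨(E.ch iW).1, (E.ch iW).2.1, (E.ch iW).2.2, (E.ch iO).1, (E.ch iO).2.1, (E.ch iO).2.2⟩

/-- **The data of a deep window of a box.** -/
theorem box_dpl {y u v : Fin m}
    (R : BoxR U D A B s lam mp N n γ ρ τ β h g q tX tD iO q₁ b₁ b₂ θJ θD) {x : ι → ℝ}
    (hx : ∀ i, x i = (q i : ℝ) + s) (hW0 : 0 ≤ x (tX 0)) {e : ℝ} (he : 0 < e) (he' : e ≤ h) {t : ℝ}
    (ht : x (tX 0) ≤ t) (ht1 : t ≤ b₂) {nn : ℕ} :
    ∀ᶠ J : ℕ in atTop, ∀ (F : Fam m J) (A : F.Ω → Prop) (a b : ι → LnT F → Fin 4 → ℝ) (V : Type)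
      (z : ι → LnT F → V),
      BxE y u v x (fun i => U (q i)) (fun i => D (q i)) g h e β (tX 0) iO nn A a b z →
      Dpl (Pool.Agent.H49.Ent.cond F.p A True) 4 J ⌊t * J⌋₊ ⌊(U (q (tX 0)) - h) * J⌋₊
        ⌊(U (q (tX 0)) + g - 2 * h) * J⌋₊ ⌊(N * β + 10 * h) * J⌋₊ (lnF F y u v ⌊t * J⌋₊)
        (hC F ⌊t * J⌋₊ ⌊x (tX 0) * J⌋₊ (a (tX 0)) (b (tX 0))) (fC F ⌊x iO * J⌋₊ (a iO) (b iO)) F.T
        (fun ω => F.X J ω y) (AuC F ⌊x (tX 0) * J⌋₊ ⌊x iO * J⌋₊ (a (tX 0)) (a iO))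
        (AvC F ⌊x (tX 0) * J⌋₊ ⌊x iO * J⌋₊ (b (tX 0)) (a iO) (b iO)) := by
  obtain ⟨U₀, hU₀⟩ : ∃ U₀, U₀ = U (q (tX 0)) := ⟨_, rfl⟩
  obtain ⟨UO, hUO⟩ : ∃ UO, UO = U (q iO) := ⟨_, rfl⟩
  obtain ⟨D₀, hD₀⟩ : ∃ D₀, D₀ = D (q (tX 0)) := ⟨_, rfl⟩
  obtain ⟨DO, hDO⟩ : ∃ DO, DO = D (q iO) := ⟨_, rfl⟩
  obtain ⟨W, hW⟩ : ∃ W, W = x (tX 0) := ⟨_, rfl⟩
  obtain ⟨O, hO⟩ : ∃ O, O = x iO := ⟨_, rfl⟩
  have h0 := R.h0
  have hβ0 := R.β0
  have hg0 : -h ≤ (g : ℝ) := R.g0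
  have hub := R.ub
  have haO := R.aO
  have hb2 := R.b2N
  have hgD := R.gD (tX 0)
  have hgO := R.gD iO
  have hNβ : 0 ≤ N * β := by positivity
  have hWO : W ≤ O := by
    rw [hW, hO, hx, hx]
    have : (q (tX 0) : ℝ) ≤ q iO := by exact_mod_cast R.mW iO
    linarith
  have eW : (q (tX 0) : ℝ) + s = W := by rw [hW, hx]
  have eO : (q iO : ℝ) + s = O := by rw [hO, hx]
  rw [← hU₀] at hub haO hgD
  rw [← hUO] at haO hgO
  rw [← hD₀] at hgD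
  rw [← hDO] at hgO
  rw [eW, eO] at haO
  have ht' : W ≤ t := by rw [hW]; exact ht
  have hW0' : 0 ≤ W := by rw [hW]; exact hW0
  have k1 := fl_ev [(1, U₀ - h), (1, N * β + 10 * h), (1, O)] [(1, UO - e), (1, t)] 1
    (by
      simp only [List.mem_cons, List.not_mem_nil, or_false, forall_eq_or_imp, forall_eq]
      exact ⟨by linarith, by linarith, by linarith⟩)
    (by
      simp only [List.map_cons, List.map_nil, List.sum_cons, List.sum_nil]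
      push_cast
      linarith)
  have k2 := fl_ev [(1, U₀ + g - 2 * h), (1, N * β + 10 * h), (1, O)] [(1, DO - e), (1, t)] 1
    (by
      simp only [List.mem_cons, List.not_mem_nil, or_false, forall_eq_or_imp, forall_eq]
      exact ⟨by linarith, by linarith, by linarith⟩)
    (by
      simp only [List.map_cons, List.map_nil, List.sum_cons, List.sum_nil]
      push_cast
      linarith)
  have k3 := fl_ev [(1, U₀ - h), (1, N * β + 10 * h)] [(1, UO - e)] 1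
    (by
      simp only [List.mem_cons, List.not_mem_nil, or_false, forall_eq_or_imp, forall_eq]
      exact ⟨by linarith, by linarith⟩)
    (by
      simp only [List.map_cons, List.map_nil, List.sum_cons, List.sum_nil]
      push_cast
      linarith)
  have k4 := fl_ev [(1, U₀ + g - 2 * h), (1, N * β + 10 * h)] [(1, DO - e)] 1
    (by
      simp only [List.mem_cons, List.not_mem_nil, or_false, forall_eq_or_imp, forall_eq]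
      exact ⟨by linarith, by linarith⟩)
    (by
      simp only [List.map_cons, List.map_nil, List.sum_cons, List.sum_nil]
      push_cast
      linarith)
  have k5 := fl_ev [(1, t), (1, N * β + 10 * h)] [(1, 1)] 1
    (by
      simp only [List.mem_cons, List.not_mem_nil, or_false, forall_eq_or_imp, forall_eq]
      exact ⟨by linarith, by linarith⟩)
    (by
      simp only [List.map_cons, List.map_nil, List.sum_cons, List.sum_nil]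
      push_cast
      linarith)
  filter_upwards [k1, k2, k3, k4, k5] with J j1 j2 j3 j4 j5 F A a b V z E
  simp only [List.map_cons, List.map_nil, List.sum_cons, List.sum_nil, one_mul,
    Nat.floor_natCast, add_zero] at j1 j2 j3 j4 j5
  have hJ0 : (0 : ℝ) ≤ J := Nat.cast_nonneg J
  have fm : ∀ {p r : ℝ}, p ≤ r → ⌊p * (J : ℝ)⌋₊ ≤ ⌊r * (J : ℝ)⌋₊ := fun hpr =>
    Nat.floor_le_floor (mul_le_mul_of_nonneg_right hpr hJ0)
  have hc := E.chd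
  have hq := (E.cq).win (w' := ⌊t * J⌋₊) zero_le_one (by rw [← hW]; exact fm ht')
  simp only [← hU₀, ← hD₀, ← hUO, ← hDO, ← hW, ← hO] at hc hq ⊢
  have h1 := dpl_of (c := 1) (k₀ := 1) (w := ⌊t * J⌋₊) (NU := ⌊(U₀ - h) * J⌋₊)
    (NV := ⌊(U₀ + g - 2 * h) * J⌋₊) (I := ⌊(N * β + 10 * h) * J⌋₊) le_rfl hc (by
      rw [Nat.cast_one]
      exact hq) (fm ht') (by omega) (by norm_num) (fm (by linarith)) (fm (by linarith))
    (by omega) (by omega) (by omega) (by omega)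
  exact h1

/-- **The digits at the windows of a box.** -/
theorem box_da (R : BoxR U D A B s lam mp N n γ ρ τ β h g q tX tD iO q₁ b₁ b₂ θJ θD) {x : ι → ℝ}
    (hx : ∀ i, x i = (q i : ℝ) + s) {t : ℝ} (ht : t = b₁ ∨ t = b₂) (ht0 : 0 ≤ t) :
    ∀ᶠ J : ℕ in atTop,
      (∀ j ≤ N, |U (q (tX j)) * J - ((⌊(U (q (tX 0)) - h) * J⌋₊ : ℝ) + j * ⌊β * J⌋₊)| ≤
        4 * h * J) ∧
      (∀ j ≤ N, |(U (q (tX j)) + g) * J - ((⌊(U (q (tX 0)) + g - 2 * h) * J⌋₊ : ℝ) +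
        j * ⌊β * J⌋₊)| ≤ 4 * h * J) ∧
      (∀ k ≤ mp, |(U (q (tD k)) - x (tD k)) * J - ((⌊(U (q (tX 0)) - h) * J⌋₊ : ℝ) +
        n k * ⌊β * J⌋₊ - ⌊t * J⌋₊)| ≤ 4 * h * J) ∧
      ∀ k ≤ mp, |(U (q (tD k)) + g - x (tD k)) * J - ((⌊(U (q (tX 0)) + g - 2 * h) * J⌋₊ : ℝ) +
        n k * ⌊β * J⌋₊ - ⌊t * J⌋₊)| ≤ 4 * h * J := by
  obtain ⟨U₀, hU₀⟩ : ∃ U₀, U₀ = U (q (tX 0)) := ⟨_, rfl⟩
  have h0 := R.h0
  have hβ0 := R.β0
  have hg0 : -h ≤ (g : ℝ) := R.g0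
  have hub := R.ub
  have hbb := R.bb
  have haX := R.aX
  have haD : ∀ k ≤ mp, |U (q (tD k)) - x (tD k) - (U₀ + n k * β - t)| ≤ h := by
    intro k hk
    rw [hU₀, hx]
    rcases ht with rfl | rfl
    · exact (R.aD k hk).1
    · exact (R.aD k hk).2
  rw [← hU₀] at hub haX
  have htb : t ≤ b₂ := by
    rcases ht with rfl | rfl
    · exact hbb.le
    · exact le_rfl
  filter_upwards [ge_ev ((N : ℝ) + 3) h0] with J hJ
  rw [← hU₀]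
  have hJ0 : (0 : ℝ) ≤ J := Nat.cast_nonneg J
  have f1 : (⌊(U₀ - h) * (J : ℝ)⌋₊ : ℝ) ≤ (U₀ - h) * J :=
    Nat.floor_le (mul_nonneg (by linarith) hJ0)
  have f1' : (U₀ - h) * (J : ℝ) - 1 < ⌊(U₀ - h) * (J : ℝ)⌋₊ := Nat.sub_one_lt_floor _
  have f2 : (⌊(U₀ + g - 2 * h) * (J : ℝ)⌋₊ : ℝ) ≤ (U₀ + g - 2 * h) * J :=
    Nat.floor_le (mul_nonneg (by linarith) hJ0)
  have f2' : (U₀ + g - 2 * h) * (J : ℝ) - 1 < ⌊(U₀ + g - 2 * h) * (J : ℝ)⌋₊ :=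
    Nat.sub_one_lt_floor _
  have f3 : (⌊β * (J : ℝ)⌋₊ : ℝ) ≤ β * J := Nat.floor_le (by positivity)
  have f3' : β * (J : ℝ) - 1 < ⌊β * (J : ℝ)⌋₊ := Nat.sub_one_lt_floor _
  have f4 : (⌊t * (J : ℝ)⌋₊ : ℝ) ≤ t * J := Nat.floor_le (mul_nonneg ht0 hJ0)
  have f4' : t * (J : ℝ) - 1 < ⌊t * (J : ℝ)⌋₊ := Nat.sub_one_lt_floor _
  have key : ∀ j : ℕ, j ≤ N → (j : ℝ) * ⌊β * (J : ℝ)⌋₊ ≤ j * β * J ∧
      (j : ℝ) * β * J - N ≤ j * ⌊β * (J : ℝ)⌋₊ := by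
    intro j hj
    have hj0 : (0 : ℝ) ≤ j := Nat.cast_nonneg j
    have hjN : (j : ℝ) ≤ N := by exact_mod_cast hj
    have g1 := mul_le_mul_of_nonneg_left f3 hj0
    have g2 := mul_le_mul_of_nonneg_left f3'.le hj0
    constructor <;> nlinarith
  have hhJ : 0 ≤ h * (J : ℝ) := by positivity
  refine ⟨fun j hj => ?_, fun j hj => ?_, fun k hk => ?_, fun k hk => ?_⟩
  · obtain ⟨g1, g2⟩ := key j hj
    obtain ⟨a1, a2⟩ := abs_le.1 (haX j hj)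
    have a3 := mul_le_mul_of_nonneg_right a1 hJ0
    have a4 := mul_le_mul_of_nonneg_right a2 hJ0
    rw [abs_le]
    constructor <;> linarith
  · obtain ⟨g1, g2⟩ := key j hj
    obtain ⟨a1, a2⟩ := abs_le.1 (haX j hj)
    have a3 := mul_le_mul_of_nonneg_right a1 hJ0
    have a4 := mul_le_mul_of_nonneg_right a2 hJ0
    rw [abs_le]
    constructor <;> linarith
  · obtain ⟨g1, g2⟩ := key (n k) (by have := (R.nN k hk).1; omega)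
    obtain ⟨a1, a2⟩ := abs_le.1 (haD k hk)
    have a3 := mul_le_mul_of_nonneg_right a1 hJ0
    have a4 := mul_le_mul_of_nonneg_right a2 hJ0
    rw [abs_le]
    constructor <;> linarith
  · obtain ⟨g1, g2⟩ := key (n k) (by have := (R.nN k hk).1; omega)
    obtain ⟨a1, a2⟩ := abs_le.1 (haD k hk)
    have a3 := mul_le_mul_of_nonneg_right a1 hJ0
    have a4 := mul_le_mul_of_nonneg_right a2 hJ0
    rw [abs_le]
    constructor <;> linarith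

end

theorem log_51 : Real.log 51 ≤ 4 := by
  rw [Real.log_le_iff_le_exp (by norm_num)]
  have h1 := Real.exp_one_gt_d9
  calc (51 : ℝ) ≤ 2.7182818283 ^ 4 := by norm_num
    _ ≤ Real.exp 1 ^ 4 := pow_le_pow_left₀ (by norm_num) h1.le 4
    _ = Real.exp 4 := by rw [← Real.exp_nat_mul]; norm_num

theorem log_9 : Real.log 9 ≤ 3 := by
  rw [Real.log_le_iff_le_exp (by norm_num)]
  have h1 := Real.exp_one_gt_d9
  calc (9 : ℝ) ≤ 2.7182818283 ^ 3 := by norm_num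
    _ ≤ Real.exp 1 ^ 3 := pow_le_pow_left₀ (by norm_num) h1.le 3
    _ = Real.exp 3 := by rw [← Real.exp_nat_mul]; norm_num

/-- The error of the conversions. -/
theorem Ec_le (s : ℕ) (δ : ℝ) :
    Ec (4 * 2 ^ s) δ ≤ 6 * δ * Real.log 2 + 6 * s * Real.log 2 + 42 := by
  have h1 : Real.log (2 * ((6 * (4 * 2 ^ s) : ℕ) + 1) + 1) ≤ 4 + s * Real.log 2 := by
    have h2 : (2 : ℝ) * ((6 * (4 * 2 ^ s) : ℕ) + 1) + 1 ≤ 51 * 2 ^ s := by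
      push_cast
      have : (1 : ℝ) ≤ 2 ^ s := one_le_pow₀ (by norm_num)
      linarith
    refine (Real.log_le_log (by positivity) h2).trans ?_
    rw [Real.log_mul (by norm_num) (by positivity), Real.log_pow]
    linarith [log_51]
  have h2 := log_9
  unfold Ec
  linarith

section

variable {ι : Type} {U D : ℚ → ℝ} {A B s lam τ β h : ℝ} {mp N : ℕ} {n γ ρ : ℕ → ℕ} {g : ℚ}
  {q : ι → ℚ} {tX tD : ℕ → ι} {iO : ι} {q₁ : ℚ} {b₁ b₂ : ℝ} {θJ θD : ι → ι → ℝ}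

/-- **The numbers of the parts of the events of a box.** -/
theorem box_num [DecidableEq ι] {y u v : Fin m} (hyu : y ≠ u)
    (R : BoxR U D A B s lam mp N n γ ρ τ β h g q tX tD iO q₁ b₁ b₂ θJ θD) {x : ι → ℝ}
    (hx : ∀ i, x i = (q i : ℝ) + s) (hx0 : ∀ i, 0 ≤ x i) (hx1 : ∀ i, x i ≤ 1)
    (hU1 : ∀ i, U (q i) ≤ 1) (hD1 : ∀ i, D (q i) ≤ 1) {e e₀ kM c₀ : ℝ} (hc₀ : 0 < c₀)
    (he : e ≤ e₀) {J : ℕ} (hJ : 1 ≤ J) {F : Fam m J} {A' : F.Ω → Prop} (hA : 0 < Pe F.p A')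
    {V : Type} {a b : ι → LnT F → Fin 4 → ℝ} {z : ι → LnT F → V} {nn w : ℕ}
    (E : BxE y u v x (fun i => U (q i)) (fun i => D (q i)) g h e β (tX 0) iO nn A' a b z)
    (hN : NbxS y u v s U g q x lam (tX 0) iO θJ θD kM e₀ (2 * h) (5 * h) h c₀ J F A')
    (hz : ∀ i, Mx (fun J F => ptr F J) (vg (x i)) kM F A' (fun ω => z i (slam F ⌊x i * J⌋₊ ω)))
    (hn : ∀ i j : ι, x i ≤ x j → ∀ ω ω' : F.Ω, z j (slam F ⌊x j * J⌋₊ ω) =
      z j (slam F ⌊x j * J⌋₊ ω') → z i (slam F ⌊x i * J⌋₊ ω) = z i (slam F ⌊x i * J⌋₊ ω'))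
    {B' : F.Ω → Prop} (hB : Sub B' A') (hBA : c₀ * Pe F.p A' ≤ Pe F.p B') :
    NumP (Pool.Agent.H49.Ent.cond F.p B' True) x (zpF F x (tX 0) iO z a b) (yF F y ⌊lam * J⌋₊)
      (uuF F y u v x (fun i => U (q i)) g a b) (vvF F y u v x (fun i => U (q i)) g a b)
      (fun i j => θJ i j * J) (fun i j => θD i j * J) (2 * h * J) (5 * h * J)
      (fun ω => F.D ⌊lam * J⌋₊ ω y) (zpF F x (tX 0) iO z a b iO)
      (fun ω => ((zpF F x (tX 0) iO z a b (tX 0) ω, F.Z ω), F.T ω / 2 ^ (J - w))) F.T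
      (fun ω => F.X J ω y) := by
  have hJ0 : (0 : ℝ) ≤ J := Nat.cast_nonneg J
  have fm : ∀ {p r : ℝ}, p ≤ r → ⌊p * (J : ℝ)⌋₊ ≤ ⌊r * (J : ℝ)⌋₊ := fun hpr =>
    Nat.floor_le_floor (mul_le_mul_of_nonneg_right hpr hJ0)
  exact num_evt hyu hN hJ hA hc₀ R.h0.le hx hx0 hx1 hU1 (fun i => by
      have := R.gD i
      have := hD1 i
      linarith) E.ch (fun i => fm (by linarith)) (fun i => fm (by
      have := R.gD i
      linarith)) (fun i => by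
      rw [hx, hx]
      have : (q (tX 0) : ℝ) ≤ q i := by exact_mod_cast R.mW i
      linarith) (R.XO 0 (Nat.zero_le _)) hz hn hB hBA

/-- **The upper bound at the places of a box.** -/
theorem box_up [DecidableEq ι] {S : PCl m}
    (hpos : ∀ (τ : ℝ) (J : ℕ) (F : Fam m J) (A : F.Ω → Prop), S.St τ J F A → 0 < Pe F.p A)
    {y u v : Fin m} (hyu : y ≠ u)
    (R : BoxR U D A B s lam mp N n γ ρ τ β h g q tX tD iO q₁ b₁ b₂ θJ θD) {x : ι → ℝ}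
    (hx : ∀ i, x i = (q i : ℝ) + s) (hx0 : ∀ i, 0 ≤ x i) (hx1 : ∀ i, x i ≤ 1)
    (hU1 : ∀ i, U (q i) ≤ 1) (hD1 : ∀ i, D (q i) ≤ 1) {e e₀ kM c₀ : ℝ} (hc₀ : 0 < c₀)
    (hc₁ : c₀ ≤ 1) (he0 : 0 < e) (heh : e ≤ h) (he : e ≤ e₀) {nn : ℕ}
    {V : ∀ J : ℕ, Fam m J → Type} {a b : ι → ∀ (J : ℕ) (F : Fam m J), LnT F → Fin 4 → ℝ}
    {z : ∀ (J : ℕ) (F : Fam m J), ι → LnT F → V J F}
    (hE : ∀ (τ : ℝ) (J : ℕ) (F : Fam m J) (A : F.Ω → Prop), S.St τ J F A →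
      BxE y u v x (fun i => U (q i)) (fun i => D (q i)) g h e β (tX 0) iO nn A
        (fun i => a i J F) (fun i => b i J F) (z J F))
    (hN : Bas S (NbxS y u v s U g q x lam (tX 0) iO θJ θD kM e₀ (2 * h) (5 * h) h c₀))
    (hz : Bas S (fun J F A => ∀ i, Mx (fun J F => ptr F J) (vg (x i)) kM F A
      (fun ω => z J F i (slam F ⌊x i * J⌋₊ ω))))
    (hn : ∀ (J : ℕ) (F : Fam m J) (i j : ι), x i ≤ x j → ∀ ω ω' : F.Ω,
      z J F j (slam F ⌊x j * J⌋₊ ω) = z J F j (slam F ⌊x j * J⌋₊ ω') →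
      z J F i (slam F ⌊x i * J⌋₊ ω) = z J F i (slam F ⌊x i * J⌋₊ ω')) {k : ℕ} (hk : k ≤ mp) :
    Bas S (fun J F A => CH (Pool.Agent.H49.Ent.cond F.p A True)
      (fun ω => (hgU J ⌊b₁ * J⌋₊ (⌊(U (q (tX 0)) - h) * J⌋₊ + n k * ⌊β * J⌋₊ + ρ k * ⌊β * J⌋₊)
          (lnF F y u v ⌊b₁ * J⌋₊)
          (hC F ⌊b₁ * J⌋₊ ⌊x (tX 0) * J⌋₊ (a (tX 0) J F) (b (tX 0) J F)) F.T ω,
        hgV J ⌊b₁ * J⌋₊ (⌊(U (q (tX 0)) + g - 2 * h) * J⌋₊ + n k * ⌊β * J⌋₊ + ρ k * ⌊β * J⌋₊)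
          (lnF F y u v ⌊b₁ * J⌋₊)
          (hC F ⌊b₁ * J⌋₊ ⌊x (tX 0) * J⌋₊ (a (tX 0) J F) (b (tX 0) J F)) F.T ω))
      (Nd J ⌊b₁ * J⌋₊ ⌊(U (q (tX 0)) - h) * J⌋₊ ⌊(U (q (tX 0)) + g - 2 * h) * J⌋₊
        (n k * ⌊β * J⌋₊) (lnF F y u v ⌊b₁ * J⌋₊)
        (hC F ⌊b₁ * J⌋₊ ⌊x (tX 0) * J⌋₊ (a (tX 0) J F) (b (tX 0) J F)) F.T (fun ω => F.X J ω y)
        (fun ω => csF x b₁ (tX 0) z a b J F (slam F ⌊b₁ * J⌋₊ ω))) ≤
      ((2 - τ) * (ρ k * β * Real.log 2) + 80 * h) * J) := by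
  have h0 := R.h0
  have hβ0 := R.β0
  have hNβ : 0 ≤ N * β := by positivity
  have hWb : x (tX 0) ≤ b₁ := by rw [hx]; exact R.Wb.le
  have hbb := R.bb
  have hb2 := R.b2N
  have hb1 : b₁ ≤ 1 := by linarith
  have hb0 : 0 ≤ b₁ := (hx0 _).trans hWb
  obtain ⟨J₁, hJ₁⟩ := ((box_dpl (y := y) (u := u) (v := v) R hx (hx0 _) he0 heh (t := b₁) hWb
    hbb.le (nn := nn)).and ((box_da R hx (Or.inl rfl) hb0).and ((ge_ev 42 h0).and
    ((fl_ev [(N, β)] [(1, lam)] 0 (by simp [hβ0.le]) (by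
      simp only [List.map_cons, List.map_nil, List.sum_cons, List.sum_nil]
      have := R.lamN
      push_cast
      linarith)).and (fl_ev [(N, β)] [(1, N * β + 10 * h)] 0 (by simp [hβ0.le]) (by
      simp only [List.map_cons, List.map_nil, List.sum_cons, List.sum_nil]
      push_cast
      linarith)))))).exists_forall_of_atTop
  have hmq : ∀ {i j : ι}, q i ≤ q j → x i ≤ x j := fun {i j} hij => by
    rw [hx, hx]
    have : (q i : ℝ) ≤ q j := by exact_mod_cast hij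
    linarith
  refine Bas.mono (J₁ + 1) ((hN.and hz).and ⟨1, one_pos, 0, fun J _ F A hA => hA⟩) ?_
  rintro J hJ F A' ⟨⟨hNJ, hzJ⟩, hA⟩
  obtain ⟨d1, ⟨d2, d3, d4, d5⟩, d6, d7, d8⟩ := hJ₁ J (by omega)
  simp only [List.map_cons, List.map_nil, List.sum_cons, List.sum_nil, one_mul, add_zero] at d7 d8
  have hEJ := hE 1 J F A' hA
  have hPA := hpos 1 J F A' hA
  have hJ0 : (0 : ℝ) ≤ J := Nat.cast_nonneg J
  have hM := box_num hyu R hx hx0 hx1 hU1 hD1 hc₀ he (by omega) hPA (w := ⌊b₁ * (J : ℝ)⌋₊) hEJ hNJ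
    hzJ (hn J F) (B' := A') (fun ω hω => hω) (mul_le_of_le_one_left hPA.le hc₁)
  have h1 := up_evt (mp := mp) (N := N) (n := n) (γ := ρ) (fun k hk => by
      have := (R.nN k hk).2
      omega) (y := y) (u := u) (v := v) (x := x) (U := fun i => U (q i)) (g := g) (tX := tX)
    (tD := tD) (iO := iO) (t := b₁) (β := β) (NU := fun J => ⌊(U (q (tX 0)) - h) * J⌋₊)
    (NV := fun J => ⌊(U (q (tX 0)) + g - 2 * h) * J⌋₊) (z := z) (a := a) (b := b)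
    (J := J) (F := F) (A := A') hPA hb1 hWb (R.XO 0 (Nat.zero_le _))
    (fun j j' h1 h2 => hmq (R.mX j j' h1 h2)) (fun k hk => hmq (R.mD k hk).2) (I := ⌊(N * β + 10 * h) * J⌋₊) (lam := ⌊lam * J⌋₊)
    (hEJ.ch (tX 0)).2.1 (d1 F A' _ _ _ _ hEJ) d8 d7 hM (δ := 4 * h * J) (by positivity) d2 d3 d4
    d5 hk
  refine h1.trans ?_
  have h2 := R.upp (n k) (n k + ρ k) (by omega) (by
    have := (R.nN k hk).2
    omega)
  have h3 := mul_le_mul_of_nonneg_right h2 hJ0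
  have h4 := Ec_le 0 (4 * h * J)
  rw [pow_zero, mul_one] at h4
  have h5 : Real.log 2 ≤ 0.7 := by
    have := Real.log_two_lt_d9
    linarith
  have h6 : 4 * h * J * Real.log 2 ≤ 4 * h * J * 0.7 :=
    mul_le_mul_of_nonneg_left h5 (by positivity)
  push_cast at h3 h4
  have h7 : 0 ≤ h * (J : ℝ) := by positivity
  show _ ≤ _
  have e1 : ((2 - τ) * (((n k : ℝ) + ρ k - n k) * β * Real.log 2) + h) * J =
    ((2 - τ) * (ρ k * β * Real.log 2)) * J + h * J := by ring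
  rw [e1, sub_mul] at h3
  nlinarith

end

end Pool.OWN17
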