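import Pool.Agent.H17.COR.Dpt
import Pool.Agent.H6.OWN.Ngi
import Pool.Agent.H6.OWN.Bcr
import Pool.Agent.H6.OWN.Cdb

/-!
# Closed affine charts of a class

`AfL.chA`, `AfO.chA`: the affine closed labels are charts. `cht_cls`: the charts of `u` over `y` and of
`v` over `y`, `u` of a class.
-/

set_option autoImplicit false

namespace Pool.OWN17

open Finset Real MvPolynomial
open Pool.Agent.H49.Ent Pool.Agent.H32.Dense Pool.STK Pool.KA Pool.KSAT Pool.K2S Pool.PB Pool.S6C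
  Pool.GEN Pool.RCD Pool.LA91 Pool.MIC6
open Pool.GRD (LbP)

variable {m J : ℕ}

/-- The line in a coarser window. -/
def crs {F : Fam m J} (w w' : ℕ) (s : LnT F) : LnT F := (s.1, s.2.1, s.2.2 / 2 ^ (w' - w))

theorem crs_slam (F : Fam m J) {w w' : ℕ} (h : w ≤ w') (h' : w' ≤ J) (ω : F.Ω) :
    crs w w' (slam F w' ω) = slam F w ω := (slam_coarse F h h' ω).symm

/-- A chart in a smaller window. -/
theorem ChA.win {F : Fam m J} {κ ι k : Fin m} {w w' M E : ℕ} {a : LnT F → Fin 4 → ℝ}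
    {A : F.Ω → Prop} (h : ChA F κ ι k w M E a A) (hw : w ≤ w') (hJ : w' ≤ J) :
    ChA F κ ι k w' M E (fun s => a (crs w w' s)) A where
  cls := h.cls.imp fun φ hφ ω hω => by rw [crs_slam F hw hJ]; exact hφ ω hω
  pos ω hω := by rw [crs_slam F hw hJ]; exact h.pos ω hω
  vel ω hω := by
    rw [crs_slam F hw hJ]
    refine (h.vel ω hω).trans ?_
    exact div_le_div_of_nonneg_right (pow_le_pow_right₀ (by norm_num) hw) (by positivity)
  bnd ω hω i hi := by rw [crs_slam F hw hJ]; exact h.bnd ω hω i hi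

theorem ChA.mono {F : Fam m J} {κ ι k : Fin m} {w M M' E E' : ℕ} {a : LnT F → Fin 4 → ℝ}
    {A : F.Ω → Prop} (h : ChA F κ ι k w M E a A) (hM : M' ≤ M) (hE : E ≤ E') :
    ChA F κ ι k w M' E' a A where
  cls := h.cls
  pos ω hω := (h.pos ω hω).trans (inv_mono hM)
  vel ω hω := by
    refine (h.vel ω hω).trans ?_
    exact div_le_div_of_nonneg_left (by positivity) (by positivity)
      (pow_le_pow_right₀ (by norm_num) hM)
  bnd ω hω i hi := (h.bnd ω hω i hi).trans (pow_le_pow_right₀ (by norm_num) hE)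

/-- **A chart from an affine closed label.** -/
theorem chA_mk {F : Fam m J} {I : Finset (Fin m)} {κ ι k : Fin m} {w Q e : ℕ} {A : F.Ω → Prop}
    {V : Type} {zp : PtT F → V} {zs : LnT F → V} {cf : V → Fin 4 → ℝ}
    (h : LbP F I k 1 J w Q A zp zs (fun x => afq κ ι (cf x 0) (cf x 1) (cf x 2) (cf x 3)))
    (h3 : ∀ ω, A ω → |cf (zs (slam F w ω)) 3| ≤ 2 ^ e)
    (h2 : ∀ ω, A ω → |cf (zs (slam F w ω)) 2| ≤ 2 ^ e)
    (hv : ∀ ω, A ω → ∀ σ ∈ Set.Icc (0 : ℝ) 1, |wp F w ω σ k - eval (wpt F w ω σ)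
      (afq κ ι (cf (zs (slam F w ω)) 0) (cf (zs (slam F w ω)) 1) (cf (zs (slam F w ω)) 2)
        (cf (zs (slam F w ω)) 3))| ≤ 1 / 2 ^ Q) (hQ : w + 1 ≤ Q) :
    ChA F κ ι k w (Q - 1) (e + 3) (fun s => cf (zs s)) A where
  cls := ⟨fun p => cf (zp p), fun ω hω => (congrArg cf (h.cls ω hω)).symm⟩
  pos ω hω := by
    have h1 := h.pos ω hω
    rw [eval_afq] at h1
    have e1 : F.x ω k - (cf (zs (slam F w ω)) 0 + (cf (zs (slam F w ω)) 1 * bt F ω none +
        (cf (zs (slam F w ω)) 2 * bt F ω (some κ) + cf (zs (slam F w ω)) 3 * bt F ω (some ι)))) =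
        oh F κ ι k (cf (zs (slam F w ω))) ω := by
      show F.x ω k - (cf (zs (slam F w ω)) 0 + (cf (zs (slam F w ω)) 1 * F.t ω +
        (cf (zs (slam F w ω)) 2 * F.x ω κ + cf (zs (slam F w ω)) 3 * F.x ω ι))) = _
      unfold oh
      ring
    rw [e1] at h1
    exact h1.trans (inv_mono (Nat.sub_le _ _))
  vel ω hω := by
    have h1 := vel_aff (hv ω hω)
    have e1 : F.d ω k - (cf (zs (slam F w ω)) 1 + (cf (zs (slam F w ω)) 2 * F.d ω κ +
        cf (zs (slam F w ω)) 3 * F.d ω ι)) = ov F κ ι k (cf (zs (slam F w ω))) ω := by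
      unfold ov
      ring
    rw [e1] at h1
    refine h1.trans (le_of_eq ?_)
    obtain ⟨q, rfl⟩ : ∃ q, Q = q + 1 := ⟨Q - 1, by omega⟩
    rw [Nat.add_sub_cancel, pow_succ]
    field_simp
  bnd ω hω i hi := by
    have hQw : (2 : ℝ) ^ w * (1 / 2 ^ Q) ≤ 1 := by
      rw [mul_one_div, div_le_one (by positivity)]
      exact pow_le_pow_right₀ (by norm_num) (by omega)
    have pe : (2 : ℝ) ^ e ≤ 2 ^ (e + 3) := pow_le_pow_right₀ (by norm_num) (by omega)
    have h1 := one_aff (hv ω hω) hQw (h2 ω hω) (h3 ω hω)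
    fin_cases i
    · exact absurd rfl hi
    · exact h1
    · exact (h2 ω hω).trans pe
    · exact (h3 ω hω).trans pe

/-- **A chart over two coordinates.** -/
theorem AfL_chA {F : Fam m J} {κ ι k : Fin m} {w Q e : ℕ} {A : F.Ω → Prop}
    {V : Type} {zp : PtT F → V} {zs : LnT F → V} {cf : V → Fin 4 → ℝ}
    (h : AfL F κ ι k w Q e A zp zs cf) (h2 : ∀ ω, A ω → |cf (zs (slam F w ω)) 2| ≤ 2 ^ e)
    (hQ : w + 1 ≤ Q) : ChA F κ ι k w (Q - 1) (e + 3) (fun s => cf (zs s)) A :=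
  chA_mk h.1 (fun ω hω => (h.2 ω hω).1) h2 (fun ω hω => (h.2 ω hω).2) hQ

/-- **A chart over one coordinate.** -/
theorem AfO_chA {F : Fam m J} {κ ι : Fin m} {w Q e : ℕ} {A : F.Ω → Prop}
    {V : Type} {zp : PtT F → V} {zs : LnT F → V} {cf : V → Fin 4 → ℝ}
    (h : AfO F κ ι w Q e A zp zs cf) (hQ : w + 1 ≤ Q) :
    ChA F κ κ ι w (Q - 1) (e + 3) (fun s => cf (zs s)) A ∧ ∀ s, (fun s => cf (zs s)) s 3 = 0 :=
  ⟨chA_mk h.1 (fun ω _ => by rw [h.2.1, abs_zero]; positivity) (fun ω hω => (h.2.2 ω hω).1)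
    (fun ω hω => (h.2.2 ω hω).2) hQ, fun s => h.2.1 _⟩

end Pool.OWN17
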