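import Pool.Agent.H17.OWN.Tri6

/-!
# The chain at one ball

Three samples with the same record `K` (`P3`). `Q k` is the record of the ball together with the
digits of the position up to the place `k`, `J k` the frame up to the place `k` (a function of `K`),
`D k` the velocity up to the place `k`. At every place a closed functional `dv = s + B du / 2 ^ g`
with `B`, `s` few bits given `(Q (k + 1), e, D k)`.

* `fr`: the frame is few bits given the three functionals, the three directions and one velocity;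
* `chain`: the frame at the place `m` is few bits given `Q m`, the three directions and one velocity;
* `chain_free`: the frame costs no more than one velocity.
-/

set_option autoImplicit false

namespace Pool.OWN17

open Finset Real
open Pool.Agent.H49.Ent Pool.Agent.H32.Dense Pool.STK Pool.CH30 Pool.KM7

section

variable {Ω 𝒦 𝒬 ℰ : Type} [Fintype Ω] {p : Ω → ℝ}

/-- The logarithms of one step. -/
noncomputable def LF (C x D : ℕ) (η : ℝ) : ℝ :=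
  Real.log (2 * (((30 * C ^ 4 * (2 ^ x) ^ 3 : ℕ) : ℝ) + 1) + 1) +
    2 * Real.log (2 * (((2 * C * 2 ^ x : ℕ) : ℝ) + 1) + 1) +
    3 * Real.log (2 * ((C : ℝ) + 1) + 1) + 5 * η * Real.log (2 * D + 1)

/-- **The frame from the three functionals and one velocity.** -/
theorem fr (hp : IsLaw p) {K : Ω → 𝒦} (e : Ω → ℰ) (r : ℰ → ℝ)
    {C : ℕ} (hC : 1 ≤ C) (g x D : ℕ) (ju jv : Ω → ℤ × ℤ)
    (hJ : Det p K (fun ω => (ju ω, jv ω))) (du dv B s : Ω → ℤ)
    (hr : ∀ ω, 0 < p ω → |r (e ω)| ≤ C)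
    (hB : ∀ ω, 0 < p ω → |B ω| ≤ ((C * 2 ^ g : ℕ) : ℤ))
    (hD : ∀ ω, 0 < p ω → |du ω| ≤ (D : ℤ) ∧ |(ju ω).2| ≤ (D : ℤ) ∧ |(jv ω).2| ≤ (D : ℤ))
    (hdu : ∀ ω, 0 < p ω → |(du ω : ℝ) - ((ju ω).1 + r (e ω) * (ju ω).2)| ≤ C)
    (hdv : ∀ ω, 0 < p ω → |(dv ω : ℝ) - ((jv ω).1 + r (e ω) * (jv ω).2)| ≤ C)
    (hs : ∀ ω, 0 < p ω → |(dv ω : ℝ) - (s ω + (B ω : ℝ) / 2 ^ g * du ω)| ≤ C)
    {η : ℝ} (hsep : law (P2 p K) (fun w => |r (e w.1) - r (e w.2)| * 2 ^ x < 1) True ≤ η)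
    (htr : law (P2 p K) (fun w => |(B w.1 : ℝ) - B w.2| * 2 ^ x < 2 ^ g) True ≤ η) :
    CH (P3 p K) (fun w => (ju w.1.1, jv w.1.1))
      (fun w => (((B w.1.1, s w.1.1), ((B w.1.2, s w.1.2), (B w.2, s w.2))),
        ((du w.1.1, dv w.1.1), (e w.1.1, (e w.1.2, e w.2))))) ≤ LF C x D η := by
  classical
  have hq := P3_isLaw hp K
  have h0 := hq.nonneg
  set q := P3 p K with hqd
  set W : (Ω × Ω) × Ω → ℰ × (ℰ × ℰ) := fun w => (e w.1.1, (e w.1.2, e w.2)) with hW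
  have hC' : (1 : ℝ) ≤ C := by exact_mod_cast hC
  have hX : (1 : ℝ) ≤ 2 ^ x := one_le_pow₀ (by norm_num)
  have hG : (0 : ℝ) < 2 ^ g := by positivity
  have hlD : 0 ≤ Real.log (2 * (D : ℝ) + 1) := Real.log_nonneg (by
    have : (0 : ℝ) ≤ D := Nat.cast_nonneg D
    linarith)
  -- the frame is common
  have hj2 : ∀ w, 0 < q w → ju w.1.1 = ju w.1.2 ∧ jv w.1.1 = jv w.1.2 := fun w hw =>
    Prod.ext_iff.mp (P3_rec2 hp hJ hw)
  have hj3 : ∀ w, 0 < q w → ju w.1.1 = ju w.2 ∧ jv w.1.1 = jv w.2 := fun w hw =>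
    Prod.ext_iff.mp (P3_rec3 hp hJ hw)
  have hpos := fun w (hw : 0 < q w) => P3_pos hp K hw
  -- the exceptional events
  have l12 : law q (fun w => |r (e w.1.1) - r (e w.1.2)| * 2 ^ x < 1) True ≤ η :=
    ((push12 hp K).law (fun v => |r (e v.1) - r (e v.2)| * 2 ^ x < 1) True).le.trans hsep
  have l13 : law q (fun w => |r (e w.1.1) - r (e w.2)| * 2 ^ x < 1) True ≤ η :=
    ((push13 hp K).law (fun v => |r (e v.1) - r (e v.2)| * 2 ^ x < 1) True).le.trans hsep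
  have l23 : law q (fun w => |(B w.1.2 : ℝ) - B w.2| * 2 ^ x < 2 ^ g) True ≤ η :=
    ((push23 hp K).law (fun v => |(B v.1 : ℝ) - B v.2| * 2 ^ x < 2 ^ g) True).le.trans htr
  -- step D, first coordinate
  have sD1 : CH q (fun w => du w.1.2)
      (fun w => (((B w.1.1, s w.1.1), ((B w.1.2, s w.1.2), (B w.2, s w.2))),
        ((du w.1.1, dv w.1.1), W w))) ≤
      Real.log (2 * (((30 * C ^ 4 * (2 ^ x) ^ 3 : ℕ) : ℝ) + 1) + 1) +
        3 * η * Real.log (2 * D + 1) := by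
    set c : ((ℤ × ℤ) × ((ℤ × ℤ) × (ℤ × ℤ))) × ((ℤ × ℤ) × (ℰ × (ℰ × ℰ))) → ℝ := fun z =>
      ((z.1.2.2.2 : ℝ) - (r z.2.2.2.1 - r z.2.2.2.2) / (r z.2.2.2.1 - r z.2.2.1) * z.1.1.2 -
        (r z.2.2.2.2 - r z.2.2.1) / (r z.2.2.2.1 - r z.2.2.1) * z.1.2.1.2 -
        (r z.2.2.2.1 - r z.2.2.2.2) / (r z.2.2.2.1 - r z.2.2.1) *
          (((z.1.1.1 : ℝ) - z.1.2.2.1) / 2 ^ g) * z.2.1.1) /
        ((r z.2.2.2.2 - r z.2.2.1) / (r z.2.2.2.1 - r z.2.2.1) *
          (((z.1.2.1.1 : ℝ) - z.1.2.2.1) / 2 ^ g)) with hc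
    set Gd : ((ℤ × ℤ) × ((ℤ × ℤ) × (ℤ × ℤ))) × ((ℤ × ℤ) × (ℰ × (ℰ × ℰ))) → Prop :=
      fun z => 1 ≤ |r z.2.2.1 - r z.2.2.2.1| * 2 ^ x ∧
        1 ≤ |r z.2.2.1 - r z.2.2.2.2| * 2 ^ x ∧
        (2 : ℝ) ^ g ≤ |(z.1.2.1.1 : ℝ) - z.1.2.2.1| * 2 ^ x with hGd
    have h1 := cnt hq (fun w : (Ω × Ω) × Ω => du w.1.2)
      (fun w => (((B w.1.1, s w.1.1), ((B w.1.2, s w.1.2), (B w.2, s w.2))),
        ((du w.1.1, dv w.1.1), W w))) Gd c (30 * C ^ 4 * (2 ^ x) ^ 3) D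
      (fun w hw hg => by
        obtain ⟨p1, p2, p3, -, -⟩ := hpos w hw
        obtain ⟨a1, a2⟩ := hj2 w hw
        obtain ⟨a3, a4⟩ := hj3 w hw
        have u1 := hdu _ p1
        have u2 := hdu _ p2
        have u3 := hdu _ p3
        have v1 := hdv _ p1
        have v2 := hdv _ p2
        have v3 := hdv _ p3
        rw [← a1] at u2
        rw [← a3] at u3
        rw [← a2] at v2
        rw [← a4] at v3
        have b3 : |((B w.2 : ℤ) : ℝ)| ≤ C * 2 ^ g := by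
          have := hB _ p3
          have h2 : ((|B w.2| : ℤ) : ℝ) ≤ (((C * 2 ^ g : ℕ) : ℤ) : ℝ) := Int.cast_le.mpr this
          push_cast at h2
          exact h2
        obtain ⟨g1, g2, g3⟩ := hg
        have h := solve (C := (C : ℝ)) (X := 2 ^ x) (G := 2 ^ g) hC' hX hG (hr _ p1) (hr _ p2)
          (hr _ p3) g1 g2 g3 b3 u1 u2 u3 v1 v2 v3 (hs _ p1) (hs _ p2) (hs _ p3)
        push_cast
        exact h)
      (fun w hw => (hD _ (hpos w hw).2.1).1)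
    have h2 : law q (fun w => ¬ Gd (((B w.1.1, s w.1.1), ((B w.1.2, s w.1.2), (B w.2, s w.2))),
        ((du w.1.1, dv w.1.1), W w))) True ≤ 3 * η := by
      have k1 : law q (fun w => ¬ Gd (((B w.1.1, s w.1.1), ((B w.1.2, s w.1.2), (B w.2, s w.2))),
          ((du w.1.1, dv w.1.1), W w))) True ≤
          law q (fun w => (|r (e w.1.1) - r (e w.1.2)| * 2 ^ x < 1) ∨
            ((|r (e w.1.1) - r (e w.2)| * 2 ^ x < 1) ∨
              (|(B w.1.2 : ℝ) - B w.2| * 2 ^ x < 2 ^ g))) True :=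
        law_imp hq fun w _ hg => by
          by_contra hcon
          push Not at hcon
          exact hg ⟨hcon.1, hcon.2.1, hcon.2.2⟩
      have k2 := law_or hq (fun w : (Ω × Ω) × Ω => |r (e w.1.1) - r (e w.1.2)| * 2 ^ x < 1)
        (fun w => (|r (e w.1.1) - r (e w.2)| * 2 ^ x < 1) ∨
              (|(B w.1.2 : ℝ) - B w.2| * 2 ^ x < 2 ^ g))
      have k3 := law_or hq (fun w : (Ω × Ω) × Ω => |r (e w.1.1) - r (e w.2)| * 2 ^ x < 1)
        (fun w => |(B w.1.2 : ℝ) - B w.2| * 2 ^ x < 2 ^ g)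
      linarith
    have h3 := mul_le_mul_of_nonneg_right h2 hlD
    linarith
  -- step D, second coordinate
  have sD2 : CH q (fun w => dv w.1.2)
      (fun w => (du w.1.2, (((B w.1.1, s w.1.1), ((B w.1.2, s w.1.2), (B w.2, s w.2))),
        ((du w.1.1, dv w.1.1), W w)))) ≤ Real.log (2 * ((C : ℝ) + 1) + 1) :=
    cnt0 hq _ _ (fun z => (z.2.1.2.1.2 : ℝ) + (z.2.1.2.1.1 : ℝ) / 2 ^ g * z.1) C
      (fun w hw => hs _ (hpos w hw).2.1)
  have sD : CH q (fun w => (du w.1.2, dv w.1.2))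
      (fun w => (((B w.1.1, s w.1.1), ((B w.1.2, s w.1.2), (B w.2, s w.2))),
        ((du w.1.1, dv w.1.1), W w))) ≤
        (Real.log (2 * (((30 * C ^ 4 * (2 ^ x) ^ 3 : ℕ) : ℝ) + 1) + 1) +
        3 * η * Real.log (2 * D + 1) + Real.log (2 * ((C : ℝ) + 1) + 1)) := by
    have a3 : CH q (fun w => (du w.1.2, dv w.1.2))
        (fun w => (((B w.1.1, s w.1.1), ((B w.1.2, s w.1.2), (B w.2, s w.2))),
          ((du w.1.1, dv w.1.1), W w))) =
        CH q (fun w => (dv w.1.2, du w.1.2))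
        (fun w => (((B w.1.1, s w.1.1), ((B w.1.2, s w.1.2), (B w.2, s w.2))),
          ((du w.1.1, dv w.1.1), W w))) := by
      refine CH_congr h0 ?_ ?_ (fun _ _ _ _ h => h) (fun _ _ _ _ h => h) <;>
      · intro ω ω' _ _ h
        have h1 := (Prod.ext_iff.mp h).1
        simp only [Prod.mk.injEq] at h1 ⊢
        tauto
    have a4 := CH_pair_le h0 (fun w : (Ω × Ω) × Ω => dv w.1.2) (fun w => du w.1.2)
      (fun w => (((B w.1.1, s w.1.1), ((B w.1.2, s w.1.2), (B w.2, s w.2))),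
          ((du w.1.1, dv w.1.1), W w))) sD1 sD2
    linarith
  -- step C
  have sCy : ∀ (j : Ω → ℤ × ℤ) (d : Ω → ℤ), (∀ w, 0 < q w → j w.1.1 = j w.1.2) →
      (∀ ω, 0 < p ω → |(d ω : ℝ) - ((j ω).1 + r (e ω) * (j ω).2)| ≤ C) →
      (∀ ω, 0 < p ω → |(j ω).2| ≤ (D : ℤ)) →
      CH q (fun w => (j w.1.1).1 ) (fun w => ((j w.1.1).2, ((d w.1.2, d w.1.1), W w))) +
        CH q (fun w => (j w.1.1).2) (fun w => ((d w.1.2, d w.1.1), W w)) ≤
        Real.log (2 * ((C : ℝ) + 1) + 1) +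
          (Real.log (2 * (((2 * C * 2 ^ x : ℕ) : ℝ) + 1) + 1) + η * Real.log (2 * D + 1)) := by
    intro j d hj hd hDj
    have h1 : CH q (fun w => (j w.1.1).1 ) (fun w => ((j w.1.1).2, ((d w.1.2, d w.1.1), W w))) ≤
        Real.log (2 * ((C : ℝ) + 1) + 1) :=
      cnt0 hq _ _ (fun z => (z.2.1.2 : ℝ) - r z.2.2.1 * z.1) C (fun w hw => by
        have := hd _ (hpos w hw).1
        rw [abs_sub_comm] at this
        have e1 : ((j w.1.1).1 : ℝ) - ((d w.1.1 : ℝ) - r (e w.1.1) * (j w.1.1).2) =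
          ((j w.1.1).1 : ℝ) + r (e w.1.1) * (j w.1.1).2 - d w.1.1 := by ring
        show |((j w.1.1).1 : ℝ) - ((d w.1.1 : ℝ) - r (e w.1.1) * (j w.1.1).2)| ≤ C
        rw [e1]
        exact this)
    have h2 := cnt hq (fun w : (Ω × Ω) × Ω => (j w.1.1).2)
      (fun w => ((d w.1.2, d w.1.1), W w))
      (fun z => 1 ≤ |r z.2.1 - r z.2.2.1| * 2 ^ x)
      (fun z => ((z.1.2 : ℝ) - z.1.1) / (r z.2.1 - r z.2.2.1)) (2 * C * 2 ^ x) D
      (fun w hw hg => by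
        have u1 := hd _ (hpos w hw).1
        have u2 := hd _ (hpos w hw).2.1
        rw [← hj w hw] at u2
        have := solveJ (C := (C : ℝ)) (X := 2 ^ x) hX hC' hg u1 u2
        push_cast
        exact this)
      (fun w hw => hDj _ (hpos w hw).1)
    have h3 : law q (fun w => ¬ (1 ≤ |r (W w).1 - r (W w).2.1| * 2 ^ x)) True ≤ η := by
      refine le_trans (law_imp hq fun w _ hg => ?_) l12
      exact not_le.mp hg
    have h4 := mul_le_mul_of_nonneg_right h3 hlD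
    linarith
  have sCu := sCy ju du (fun w hw => (hj2 w hw).1) hdu (fun ω hω => (hD ω hω).2.1)
  have sCv := sCy jv dv (fun w hw => (hj2 w hw).2) hdv (fun ω hω => (hD ω hω).2.2)
  have sC : CH q (fun w => (ju w.1.1, jv w.1.1))
      (fun w => ((du w.1.2, dv w.1.2), (((B w.1.1, s w.1.1), ((B w.1.2, s w.1.2), (B w.2, s w.2))),
        ((du w.1.1, dv w.1.1), W w)))) ≤
      2 * (Real.log (2 * ((C : ℝ) + 1) + 1) +
          (Real.log (2 * (((2 * C * 2 ^ x : ℕ) : ℝ) + 1) + 1) + η * Real.log (2 * D + 1))) := by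
    have a1 := CH_subadd h0 (fun w : (Ω × Ω) × Ω => ju w.1.1) (fun w => jv w.1.1)
      (fun w => ((du w.1.2, dv w.1.2), (((B w.1.1, s w.1.1), ((B w.1.2, s w.1.2), (B w.2, s w.2))),
        ((du w.1.1, dv w.1.1), W w))))
    have a2 : CH q (fun w => ju w.1.1)
        (fun w => ((du w.1.2, dv w.1.2), (((B w.1.1, s w.1.1), ((B w.1.2, s w.1.2), (B w.2, s w.2))),
        ((du w.1.1, dv w.1.1), W w)))) ≤
        CH q (fun w => ju w.1.1) (fun w => ((du w.1.2, du w.1.1), W w)) :=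
      CH_mono_cond h0 fun w w' _ _ h => by
        simp only [Prod.mk.injEq] at h ⊢
        tauto
    have a3 : CH q (fun w => jv w.1.1)
        (fun w => ((du w.1.2, dv w.1.2), (((B w.1.1, s w.1.1), ((B w.1.2, s w.1.2), (B w.2, s w.2))),
        ((du w.1.1, dv w.1.1), W w)))) ≤
        CH q (fun w => jv w.1.1) (fun w => ((dv w.1.2, dv w.1.1), W w)) :=
      CH_mono_cond h0 fun w w' _ _ h => by
        simp only [Prod.mk.injEq] at h ⊢
        tauto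
    have a4 := CH_chain h0 (fun w : (Ω × Ω) × Ω => (ju w.1.1).1) (fun w => (ju w.1.1).2)
      (fun w => ((du w.1.2, du w.1.1), W w))
    have a5 := CH_chain h0 (fun w : (Ω × Ω) × Ω => (jv w.1.1).1) (fun w => (jv w.1.1).2)
      (fun w => ((dv w.1.2, dv w.1.1), W w))
    linarith
  have sF := CH_le_add h0 (fun w => (ju w.1.1, jv w.1.1)) (fun w => (du w.1.2, dv w.1.2))
    (fun w => (((B w.1.1, s w.1.1), ((B w.1.2, s w.1.2), (B w.2, s w.2))),
        ((du w.1.1, dv w.1.1), W w)))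
  unfold LF
  linarith

/-- The entropy of the frame given the record, the three directions and one velocity. -/
noncomputable def FJ (p : Ω → ℝ) (K : Ω → 𝒦) (e : Ω → ℰ) (Q : Ω → 𝒬) (ju jv : Ω → ℤ × ℤ)
    (du dv : Ω → ℤ) : ℝ :=
  CH (P3 p K) (fun w => (ju w.1.1, jv w.1.1))
    (fun w => (Q w.1.1, ((e w.1.1, (e w.1.2, e w.2)), (du w.1.1, dv w.1.1))))

/-- The velocity is few digits given the frame. -/
theorem vel_few {Ω' T : Type} [Fintype Ω'] {q : Ω' → ℝ} (hq : IsLaw q) {C : ℕ}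
    (d : Ω' → ℤ) (W : Ω' → T) (c : T → ℝ) (h : ∀ w, 0 < q w → |(d w : ℝ) - c (W w)| ≤ C) :
    CH q d W ≤ Real.log (2 * ((C : ℝ) + 1) + 1) := cnt0 hq d W c C h

/-- **One step.** -/
theorem fr_step (hp : IsLaw p) {K : Ω → 𝒦} {Q Q' : Ω → 𝒬} (hQ' : Det p K Q') (e : Ω → ℰ)
    (r : ℰ → ℝ) {C : ℕ} (hC : 1 ≤ C) (g x D : ℕ) (ju jv ju' jv' : Ω → ℤ × ℤ)
    (hJ : Det p K (fun ω => (ju ω, jv ω))) (hJ' : Det p K (fun ω => (ju' ω, jv' ω)))
    (du dv du' dv' B s : Ω → ℤ)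
    (hn : Det p (fun ω => (Q' ω, (du' ω, dv' ω))) (fun ω => (Q ω, (du ω, dv ω))))
    (hr : ∀ ω, 0 < p ω → |r (e ω)| ≤ C)
    (hB : ∀ ω, 0 < p ω → |B ω| ≤ ((C * 2 ^ g : ℕ) : ℤ))
    (hD : ∀ ω, 0 < p ω → |du' ω| ≤ (D : ℤ) ∧ |(ju' ω).2| ≤ (D : ℤ) ∧ |(jv' ω).2| ≤ (D : ℤ))
    (hdu : ∀ ω, 0 < p ω → |(du ω : ℝ) - ((ju ω).1 + r (e ω) * (ju ω).2)| ≤ C)
    (hdv : ∀ ω, 0 < p ω → |(dv ω : ℝ) - ((jv ω).1 + r (e ω) * (jv ω).2)| ≤ C)
    (hdu' : ∀ ω, 0 < p ω → |(du' ω : ℝ) - ((ju' ω).1 + r (e ω) * (ju' ω).2)| ≤ C)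
    (hdv' : ∀ ω, 0 < p ω → |(dv' ω : ℝ) - ((jv' ω).1 + r (e ω) * (jv' ω).2)| ≤ C)
    (hs : ∀ ω, 0 < p ω → |(dv' ω : ℝ) - (s ω + (B ω : ℝ) / 2 ^ g * du' ω)| ≤ C)
    {η : ℝ} (hsep : law (P2 p K) (fun w => |r (e w.1) - r (e w.2)| * 2 ^ x < 1) True ≤ η)
    (htr : law (P2 p K) (fun w => |(B w.1 : ℝ) - B w.2| * 2 ^ x < 2 ^ g) True ≤ η)
    {β : ℝ} (hβ : CH p (fun ω => (B ω, s ω))
      (fun ω => (Q' ω, (e ω, ((du ω, dv ω), (ju ω, jv ω))))) ≤ β) :
    FJ p K e Q' ju' jv' du' dv' ≤ FJ p K e Q ju jv du dv + 3 * β +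
      (4 * Real.log (2 * ((C : ℝ) + 1) + 1) + LF C x D η) := by
  classical
  have hq := P3_isLaw hp K
  have h0 := hq.nonneg
  have hpos := fun w (hw : 0 < P3 p K w) => P3_pos hp K hw
  have hj2 : ∀ w, 0 < P3 p K w → ju w.1.1 = ju w.1.2 ∧ jv w.1.1 = jv w.1.2 := fun w hw =>
    Prod.ext_iff.mp (P3_rec2 hp hJ hw)
  have hj3 : ∀ w, 0 < P3 p K w → ju w.1.1 = ju w.2 ∧ jv w.1.1 = jv w.2 := fun w hw =>
    Prod.ext_iff.mp (P3_rec3 hp hJ hw)
  set q := P3 p K with hqd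
  set Y : (Ω × Ω) × Ω → 𝒬 × ((ℰ × (ℰ × ℰ)) × (ℤ × ℤ)) :=
    fun w => (Q' w.1.1, ((e w.1.1, (e w.1.2, e w.2)), (du' w.1.1, dv' w.1.1))) with hY
  set J1 : (Ω × Ω) × Ω → (ℤ × ℤ) × (ℤ × ℤ) := fun w => (ju w.1.1, jv w.1.1) with hJ1
  set D23 : (Ω × Ω) × Ω → (ℤ × ℤ) × (ℤ × ℤ) := fun w =>
    ((du w.1.2, dv w.1.2), (du w.2, dv w.2)) with hD23
  set BS : (Ω × Ω) × Ω → (ℤ × ℤ) × ((ℤ × ℤ) × (ℤ × ℤ)) := fun w =>
    ((B w.1.1, s w.1.1), ((B w.1.2, s w.1.2), (B w.2, s w.2))) with hBS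
  have a1 := CH_le_add h0 (fun w => (ju' w.1.1, jv' w.1.1)) J1 Y
  have a2 : CH q J1 Y ≤ FJ p K e Q ju jv du dv := by
    refine CH_mono_cond h0 fun w w' hw hw' h => ?_
    have b := hn _ _ (hpos w hw).1 (hpos w' hw').1 (by
      simp only [hY, Prod.mk.injEq] at h ⊢
      tauto)
    simp only [hY, Prod.mk.injEq] at h b ⊢
    tauto
  have a3 := CH_le_add h0 (fun w => (ju' w.1.1, jv' w.1.1)) D23 (fun w => (J1 w, Y w))
  have L1 : ∀ (d : (Ω × Ω) × Ω → ℤ) (c : ((ℤ × ℤ) × (ℤ × ℤ)) × (𝒬 × ((ℰ × (ℰ × ℰ)) × (ℤ × ℤ))) → ℝ),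
      (∀ w, 0 < q w → |(d w : ℝ) - c (J1 w, Y w)| ≤ C) →
      CH q d (fun w => (J1 w, Y w)) ≤ Real.log (2 * ((C : ℝ) + 1) + 1) := fun d c h =>
    cnt0 hq d (fun w => (J1 w, Y w)) c C h
  have a4 : CH q D23 (fun w => (J1 w, Y w)) ≤ 4 * Real.log (2 * ((C : ℝ) + 1) + 1) := by
    have b1 := CH_subadd h0 (fun w : (Ω × Ω) × Ω => (du w.1.2, dv w.1.2))
      (fun w => (du w.2, dv w.2)) (fun w => (J1 w, Y w))
    have b2 := CH_subadd h0 (fun w : (Ω × Ω) × Ω => du w.1.2) (fun w => dv w.1.2)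
      (fun w => (J1 w, Y w))
    have b3 := CH_subadd h0 (fun w : (Ω × Ω) × Ω => du w.2) (fun w => dv w.2)
      (fun w => (J1 w, Y w))
    have c1 := L1 (fun w => du w.1.2) (fun z => (z.1.1.1 : ℝ) + r z.2.2.1.2.1 * z.1.1.2)
      (fun w hw => by
        have := hdu _ (hpos w hw).2.1
        rw [← (hj2 w hw).1] at this
        exact this)
    have c2 := L1 (fun w => dv w.1.2) (fun z => (z.1.2.1 : ℝ) + r z.2.2.1.2.1 * z.1.2.2)
      (fun w hw => by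
        have := hdv _ (hpos w hw).2.1
        rw [← (hj2 w hw).2] at this
        exact this)
    have c3 := L1 (fun w => du w.2) (fun z => (z.1.1.1 : ℝ) + r z.2.2.1.2.2 * z.1.1.2)
      (fun w hw => by
        have := hdu _ (hpos w hw).2.2.1
        rw [← (hj3 w hw).1] at this
        exact this)
    have c4 := L1 (fun w => dv w.2) (fun z => (z.1.2.1 : ℝ) + r z.2.2.1.2.2 * z.1.2.2)
      (fun w hw => by
        have := hdv _ (hpos w hw).2.2.1
        rw [← (hj3 w hw).2] at this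
        exact this)
    linarith
  have a5 := CH_le_add h0 (fun w => (ju' w.1.1, jv' w.1.1)) BS (fun w => (D23 w, (J1 w, Y w)))
  have a6 : CH q BS (fun w => (D23 w, (J1 w, Y w))) ≤ 3 * β := by
    have b1 := CH_subadd h0 (fun w : (Ω × Ω) × Ω => (B w.1.1, s w.1.1))
      (fun w => ((B w.1.2, s w.1.2), (B w.2, s w.2))) (fun w => (D23 w, (J1 w, Y w)))
    have b2 := CH_subadd h0 (fun w : (Ω × Ω) × Ω => (B w.1.2, s w.1.2))
      (fun w => (B w.2, s w.2)) (fun w => (D23 w, (J1 w, Y w)))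
    have c1 : CH q (fun w => (B w.1.1, s w.1.1)) (fun w => (D23 w, (J1 w, Y w))) ≤ β := by
      have h1 : CH q (fun w => (B w.1.1, s w.1.1)) (fun w => (D23 w, (J1 w, Y w))) ≤
          CH q (fun w => (B w.1.1, s w.1.1))
            (fun w => (Q' w.1.1, (e w.1.1, ((du w.1.1, dv w.1.1), (ju w.1.1, jv w.1.1))))) :=
        CH_mono_cond h0 fun w w' hw hw' h => by
          have b := hn _ _ (hpos w hw).1 (hpos w' hw').1 (by
            simp only [hY, Prod.mk.injEq] at h ⊢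
            tauto)
          simp only [hY, hJ1, Prod.mk.injEq] at h b ⊢
          tauto
      have h2 := (push1 hp K).CH (fun ω => (B ω, s ω))
        (fun ω => (Q' ω, (e ω, ((du ω, dv ω), (ju ω, jv ω)))))
      linarith
    have c2 : CH q (fun w => (B w.1.2, s w.1.2)) (fun w => (D23 w, (J1 w, Y w))) ≤ β := by
      have h1 : CH q (fun w => (B w.1.2, s w.1.2)) (fun w => (D23 w, (J1 w, Y w))) ≤
          CH q (fun w => (B w.1.2, s w.1.2))
            (fun w => (Q' w.1.2, (e w.1.2, ((du w.1.2, dv w.1.2), (ju w.1.2, jv w.1.2))))) :=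
        CH_mono_cond h0 fun w w' hw hw' h => by
          simp only [hY, hJ1, hD23, Prod.mk.injEq] at h ⊢
          refine ⟨?_, ?_, h.1.1, ?_⟩
          · rw [← P3_rec2 hp hQ' hw, ← P3_rec2 hp hQ' hw']
            exact h.2.2.1
          · exact h.2.2.2.1.2.1
          · rw [← (hj2 w hw).1, ← (hj2 w hw).2, ← (hj2 w' hw').1, ← (hj2 w' hw').2]
            exact h.2.1
      have h2 := (push2 hp K).CH (fun ω => (B ω, s ω))
        (fun ω => (Q' ω, (e ω, ((du ω, dv ω), (ju ω, jv ω)))))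
      linarith
    have c3 : CH q (fun w => (B w.2, s w.2)) (fun w => (D23 w, (J1 w, Y w))) ≤ β := by
      have h1 : CH q (fun w => (B w.2, s w.2)) (fun w => (D23 w, (J1 w, Y w))) ≤
          CH q (fun w => (B w.2, s w.2))
            (fun w => (Q' w.2, (e w.2, ((du w.2, dv w.2), (ju w.2, jv w.2))))) :=
        CH_mono_cond h0 fun w w' hw hw' h => by
          simp only [hY, hJ1, hD23, Prod.mk.injEq] at h ⊢
          refine ⟨?_, ?_, h.1.2, ?_⟩
          · rw [← P3_rec3 hp hQ' hw, ← P3_rec3 hp hQ' hw']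
            exact h.2.2.1
          · exact h.2.2.2.1.2.2
          · rw [← (hj3 w hw).1, ← (hj3 w hw).2, ← (hj3 w' hw').1, ← (hj3 w' hw').2]
            exact h.2.1
      have h2 := (push3 hp K).CH (fun ω => (B ω, s ω))
        (fun ω => (Q' ω, (e ω, ((du ω, dv ω), (ju ω, jv ω)))))
      linarith
    linarith
  have a7 : CH q (fun w => (ju' w.1.1, jv' w.1.1)) (fun w => (BS w, (D23 w, (J1 w, Y w)))) ≤
      LF C x D η := by
    refine le_trans (CH_mono_cond h0 fun w w' hw hw' h => ?_)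
      (fr hp e r hC g x D ju' jv' hJ' du' dv' B s hr hB hD hdu' hdv' hs hsep htr)
    simp only [hBS, hY, Prod.mk.injEq] at h ⊢
    tauto
  have a0 : FJ p K e Q' ju' jv' du' dv' = CH q (fun w => (ju' w.1.1, jv' w.1.1)) Y := rfl
  linarith

/-- The two coordinates can be exchanged. -/
theorem FJ_swap (hp : IsLaw p) (K : Ω → 𝒦) (e : Ω → ℰ) (Q : Ω → 𝒬) (ju jv : Ω → ℤ × ℤ)
    (du dv : Ω → ℤ) : FJ p K e Q ju jv du dv = FJ p K e Q jv ju dv du := by
  unfold FJ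
  refine CH_congr (P3_isLaw hp K).nonneg ?_ ?_ ?_ ?_ <;>
  · intro w w' _ _ h
    simp only [Prod.mk.injEq] at h ⊢
    tauto

/-- **The chain.** The closed functional of a step is `v` over `u` or `u` over `v`. -/
theorem chain (hp : IsLaw p) {K : Ω → 𝒦} (Q : ℕ → Ω → 𝒬) (e : Ω → ℰ)
    (r : ℰ → ℝ) {C : ℕ} (hC : 1 ≤ C) (g : ℕ → ℕ) (x D : ℕ) (ju jv : ℕ → Ω → ℤ × ℤ)
    (du dv B s : ℕ → Ω → ℤ) (m : ℕ) (hQ : ∀ k ≤ m, Det p K (Q k))
    (hJ : ∀ k ≤ m, Det p K (fun ω => (ju k ω, jv k ω)))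
    (hn : ∀ k < m, Det p (fun ω => (Q (k + 1) ω, (du (k + 1) ω, dv (k + 1) ω)))
      (fun ω => (Q k ω, (du k ω, dv k ω))))
    (hr : ∀ ω, 0 < p ω → |r (e ω)| ≤ C)
    (hB : ∀ k < m, ∀ ω, 0 < p ω → |B k ω| ≤ ((C * 2 ^ g k : ℕ) : ℤ))
    (hD : ∀ k ≤ m, ∀ ω, 0 < p ω → |du k ω| ≤ (D : ℤ) ∧ |dv k ω| ≤ (D : ℤ) ∧
      |(ju k ω).2| ≤ (D : ℤ) ∧ |(jv k ω).2| ≤ (D : ℤ))
    (hdu : ∀ k ≤ m, ∀ ω, 0 < p ω → |(du k ω : ℝ) - ((ju k ω).1 + r (e ω) * (ju k ω).2)| ≤ C)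
    (hdv : ∀ k ≤ m, ∀ ω, 0 < p ω → |(dv k ω : ℝ) - ((jv k ω).1 + r (e ω) * (jv k ω).2)| ≤ C)
    (hs : ∀ k < m, (∀ ω, 0 < p ω →
      |(dv (k + 1) ω : ℝ) - (s k ω + (B k ω : ℝ) / 2 ^ g k * du (k + 1) ω)| ≤ C) ∨
      (∀ ω, 0 < p ω →
      |(du (k + 1) ω : ℝ) - (s k ω + (B k ω : ℝ) / 2 ^ g k * dv (k + 1) ω)| ≤ C))
    {η : ℝ} (hsep : law (P2 p K) (fun w => |r (e w.1) - r (e w.2)| * 2 ^ x < 1) True ≤ η)
    (htr : ∀ k < m,
      law (P2 p K) (fun w => |(B k w.1 : ℝ) - B k w.2| * 2 ^ x < 2 ^ g k) True ≤ η)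
    {β : ℝ} (hβ : ∀ k < m, CH p (fun ω => (B k ω, s k ω))
      (fun ω => (Q (k + 1) ω, (e ω, ((du k ω, dv k ω), (ju k ω, jv k ω))))) ≤ β) :
    FJ p K e (Q m) (ju m) (jv m) (du m) (dv m) ≤ CH p (fun ω => (ju 0 ω, jv 0 ω)) (Q 0) +
      m * (3 * β + (4 * Real.log (2 * ((C : ℝ) + 1) + 1) + LF C x D η)) := by
  classical
  induction m with
  | zero =>
    have h0 := (P3_isLaw hp K).nonneg
    have h1 : FJ p K e (Q 0) (ju 0) (jv 0) (du 0) (dv 0) ≤
        CH (P3 p K) (fun w => (ju 0 w.1.1, jv 0 w.1.1)) (fun w => Q 0 w.1.1) :=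
      CH_mono_cond h0 fun w w' _ _ h => (Prod.ext_iff.mp h).1
    have h2 := (push1 hp K).CH (fun ω => (ju 0 ω, jv 0 ω)) (Q 0)
    push_cast
    linarith
  | succ m ih =>
    have i1 := ih (fun k hk => hQ k (by omega)) (fun k hk => hJ k (by omega))
      (fun k hk => hn k (by omega)) (fun k hk => hB k (by omega))
      (fun k hk => hD k (by omega)) (fun k hk => hdu k (by omega)) (fun k hk => hdv k (by omega))
      (fun k hk => hs k (by omega)) (fun k hk => htr k (by omega)) (fun k hk => hβ k (by omega))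
    have i2 : FJ p K e (Q (m + 1)) (ju (m + 1)) (jv (m + 1)) (du (m + 1)) (dv (m + 1)) ≤
        FJ p K e (Q m) (ju m) (jv m) (du m) (dv m) + 3 * β +
          (4 * Real.log (2 * ((C : ℝ) + 1) + 1) + LF C x D η) := by
      rcases hs m (by omega) with hs' | hs'
      · exact fr_step hp (hQ (m + 1) le_rfl) e r hC (g m) x D (ju m) (jv m) (ju (m + 1))
          (jv (m + 1)) (hJ m (by omega)) (hJ (m + 1) le_rfl) (du m) (dv m) (du (m + 1)) (dv (m + 1)) (B m) (s m)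
          (hn m (by omega)) hr (hB m (by omega))
          (fun ω hω => ⟨(hD (m + 1) le_rfl ω hω).1, (hD (m + 1) le_rfl ω hω).2.2⟩)
          (hdu m (by omega)) (hdv m (by omega)) (hdu (m + 1) le_rfl) (hdv (m + 1) le_rfl) hs' hsep
          (htr m (by omega)) (hβ m (by omega))
      · have hJ' : ∀ k ≤ m + 1, Det p K (fun ω => (jv k ω, ju k ω)) := fun k hk ω ω' h1 h2 h => by
          have := hJ k hk ω ω' h1 h2 h
          simp only [Prod.mk.injEq] at this ⊢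
          tauto
        have k1 := fr_step hp (hQ (m + 1) le_rfl) e r hC (g m) x D (jv m) (ju m) (jv (m + 1))
          (ju (m + 1)) (hJ' m (by omega)) (hJ' (m + 1) le_rfl) (dv m) (du m) (dv (m + 1)) (du (m + 1)) (B m) (s m)
          (fun ω ω' h1 h2 h => by
            have := hn m (by omega) ω ω' h1 h2 (by
              simp only [Prod.mk.injEq] at h ⊢
              tauto)
            simp only [Prod.mk.injEq] at this ⊢
            tauto) hr (hB m (by omega))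
          (fun ω hω => ⟨(hD (m + 1) le_rfl ω hω).2.1, (hD (m + 1) le_rfl ω hω).2.2.2,
            (hD (m + 1) le_rfl ω hω).2.2.1⟩)
          (hdv m (by omega)) (hdu m (by omega)) (hdv (m + 1) le_rfl) (hdu (m + 1) le_rfl) hs' hsep
          (htr m (by omega)) (β := β) (by
            refine le_trans (CH_mono_cond hp.nonneg fun ω ω' _ _ h => ?_) (hβ m (by omega))
            simp only [Prod.mk.injEq] at h ⊢
            tauto)
        rw [FJ_swap hp K e (Q (m + 1)), FJ_swap hp K e (Q m)]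
        exact k1
    push_cast
    linarith

/-- **The frame costs no more than one velocity.** -/
theorem frame_free (hp : IsLaw p) {K : Ω → 𝒦} {Q : Ω → 𝒬} (hQ : Det p K Q) (e : Ω → ℰ)
    (ju jv : Ω → ℤ × ℤ) (hJ : Det p K (fun ω => (ju ω, jv ω))) (du dv : Ω → ℤ) :
    CH p (fun ω => (ju ω, jv ω)) Q ≤ CH p (fun ω => (du ω, dv ω)) (fun ω => (Q ω, e ω)) +
      3 * (CH p e Q - CH p e K) + FJ p K e Q ju jv du dv := by
  classical
  have hq := P3_isLaw hp K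
  have h0 := hq.nonneg
  set q := P3 p K with hqd
  set W : (Ω × Ω) × Ω → 𝒬 × (ℰ × (ℰ × ℰ)) :=
    fun w => (Q w.1.1, (e w.1.1, (e w.1.2, e w.2))) with hW
  have sA : CH p (fun ω => (ju ω, jv ω)) Q - 3 * (CH p e Q - CH p e K) ≤
      CH q (fun w => (ju w.1.1, jv w.1.1)) W := P3_free hp hQ e hJ
  have sB : CH q (fun w => (du w.1.1, dv w.1.1)) W ≤
      CH p (fun ω => (du ω, dv ω)) (fun ω => (Q ω, e ω)) := by
    have h1 : CH q (fun w => (du w.1.1, dv w.1.1)) W ≤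
        CH q (fun w => (du w.1.1, dv w.1.1)) (fun w => (Q w.1.1, e w.1.1)) :=
      CH_mono_cond h0 fun w w' _ _ h => by
        simp only [hW, Prod.mk.injEq] at h ⊢
        exact ⟨h.1, h.2.1⟩
    have h2 := (push1 hp K).CH (fun ω => (du ω, dv ω)) (fun ω => (Q ω, e ω))
    linarith
  have sC := CH_le_add h0 (fun w => (ju w.1.1, jv w.1.1)) (fun w => (du w.1.1, dv w.1.1)) W
  have sD : CH q (fun w => (ju w.1.1, jv w.1.1)) (fun w => ((du w.1.1, dv w.1.1), W w)) ≤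
      FJ p K e Q ju jv du dv := by
    refine CH_mono_cond h0 fun w w' _ _ h => ?_
    simp only [hW, Prod.mk.injEq] at h ⊢
    tauto
  linarith

end

end Pool.OWN17
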