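import Pool.Agent.H17.COR.Qua

/-!
# Almost superadditive numbers are linear in the boxes of almost every point

`lin_quasi`: numbers which are superadditive up to `c (G v o - G w o)`. `num_lin`: numbers with a
constant `g`, at the points where the two numbers of the windows have the same derivative.
-/

set_option autoImplicit false

namespace Pool.OWN17

open MeasureTheory Set

/-- The sums over the chains. -/
inductive ChS (θ : ℚ → ℚ → ℝ) : ℚ → ℚ → ℝ → Prop
  | nil (w : ℚ) : ChS θ w w 0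
  | cons {w v o : ℚ} {s : ℝ} : w ≤ v → ChS θ v o s → ChS θ w o (θ w v + s)

section

variable {θ G : ℚ → ℚ → ℝ} {A B lam c : ℝ}

theorem ChS.le {w o : ℚ} {s : ℝ} (h : ChS θ w o s) : w ≤ o := by
  induction h with
  | nil w => exact le_rfl
  | cons h1 _ ih => exact h1.trans ih

theorem ChS.trans {w v o : ℚ} {s t : ℝ} (h : ChS θ w v s) (h' : ChS θ v o t) :
    ChS θ w o (s + t) := by
  induction h with
  | nil w => simpa using h'
  | cons h1 _ ih =>
    rw [add_assoc]
    exact ChS.cons h1 (ih h')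

theorem ChS.bound
    (h0 : ∀ w o : ℚ, A < w → w ≤ o → (o : ℝ) < B → (o : ℝ) < w + lam → 0 ≤ θ w o)
    (h2 : ∀ w v o : ℚ, A < w → w ≤ v → v ≤ o → (o : ℝ) < B → (o : ℝ) < w + lam →
      θ w v + θ v o ≤ θ w o + c * (G v o - G w o)) {w o : ℚ} {s : ℝ} (h : ChS θ w o s)
    (hw : A < w) (ho : (o : ℝ) < B) (hl : (o : ℝ) < w + lam) :
    s ≤ θ w o + c * (G o o - G w o) := by
  induction h with
  | nil w =>
    have := h0 w w hw le_rfl ho hl
    simpa using this
  | @cons w v o s h1 h3 ih =>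
    have e1 : (w : ℝ) ≤ v := by exact_mod_cast h1
    have i1 := ih (by linarith) ho (by linarith)
    have i2 := h2 w v o hw h1 h3.le ho hl
    have e2 : c * (G o o - G v o) + c * (G v o - G w o) = c * (G o o - G w o) := by ring
    linarith

/-- **Almost superadditive numbers.** -/
theorem lin_quasi (hlam : 0 < lam) (hc : 0 ≤ c)
    (h0 : ∀ w o : ℚ, A < w → w ≤ o → (o : ℝ) < B → (o : ℝ) < w + lam → 0 ≤ θ w o)
    (h2 : ∀ w v o : ℚ, A < w → w ≤ v → v ≤ o → (o : ℝ) < B → (o : ℝ) < w + lam →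
      θ w v + θ v o ≤ θ w o + c * (G v o - G w o)) :
    ∀ᵐ x : ℝ, x ∈ Ioo A B → ∃ f : ℝ, 0 ≤ f ∧ ∀ e : ℝ, 0 < e → ∃ r₀ : ℝ, 0 < r₀ ∧
      ∀ r : ℝ, 0 < r → r < r₀ → ∀ w o : ℚ, x - r ≤ w → w ≤ o → (o : ℝ) ≤ x + r →
        θ w o ≤ f * (o - w) + e * r ∧
        f * (o - w) - e * r - c * (G o o - G w o) ≤ θ w o := by
  obtain ⟨T, hT⟩ : ∃ T : ℚ → ℚ → ℝ, T = fun w o => sSup {s | ChS θ w o s} := ⟨_, rfl⟩
  have hbd : ∀ w o : ℚ, A < w → (o : ℝ) < B → (o : ℝ) < w + lam →
      BddAbove {s | ChS θ w o s} := fun w o a b d =>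
    ⟨θ w o + c * (G o o - G w o), fun s hs => ChS.bound h0 h2 hs a b d⟩
  have hge : ∀ w o : ℚ, A < w → w ≤ o → (o : ℝ) < B → (o : ℝ) < w + lam → θ w o ≤ T w o := by
    intro w o a b d e
    rw [hT]
    have h1 : ChS θ w o (θ w o + 0) := ChS.cons b (ChS.nil o)
    rw [add_zero] at h1
    exact le_csSup (hbd w o a d e) h1
  have hle : ∀ w o : ℚ, A < w → w ≤ o → (o : ℝ) < B → (o : ℝ) < w + lam →
      T w o ≤ θ w o + c * (G o o - G w o) := by
    intro w o a b d e
    rw [hT]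
    exact csSup_le ⟨_, ChS.cons b (ChS.nil o)⟩ fun s hs => ChS.bound h0 h2 hs a d e
  have hsup : ∀ w v o : ℚ, A < w → w ≤ v → v ≤ o → (o : ℝ) < B → (o : ℝ) < w + lam →
      T w v + T v o ≤ T w o := by
    intro w v o a b d e f
    have e1 : (w : ℝ) ≤ v := by exact_mod_cast b
    have e2 : (v : ℝ) ≤ o := by exact_mod_cast d
    have n1 : {s | ChS θ w v s}.Nonempty := ⟨_, ChS.cons b (ChS.nil v)⟩
    have n2 : {s | ChS θ v o s}.Nonempty := ⟨_, ChS.cons d (ChS.nil o)⟩
    have k1 : ∀ s t, ChS θ w v s → ChS θ v o t → s + t ≤ T w o := by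
      intro s t hs ht
      rw [hT]
      exact le_csSup (hbd w o a e f) (hs.trans ht)
    have k2 : T w v ≤ T w o - T v o := by
      rw [hT]
      refine csSup_le n1 fun s hs => ?_
      have k3 : T v o ≤ T w o - s := by
        rw [hT]
        refine csSup_le n2 fun t ht => ?_
        have := k1 s t hs ht
        rw [hT] at this
        linarith
      rw [hT] at k3
      linarith
    linarith
  have h := lin_ae hlam (fun w o a b d e => (h0 w o a b d e).trans (hge w o a b d e)) hsup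
  filter_upwards [h] with x hx hxAB
  obtain ⟨f, hf, hx⟩ := hx hxAB
  refine ⟨f, hf, fun e he => ?_⟩
  obtain ⟨r₀, hr₀, hr⟩ := hx e he
  refine ⟨min r₀ (min (min (x - A) (B - x)) (lam / 2)), lt_min hr₀ (lt_min (lt_min
    (by linarith [hxAB.1]) (by linarith [hxAB.2])) (half_pos hlam)), fun r hr0 hr1 w o a b d => ?_⟩
  have m1 : r < r₀ := lt_of_lt_of_le hr1 (min_le_left _ _)
  have m2 : r < x - A := lt_of_lt_of_le hr1 ((min_le_right _ _).trans ((min_le_left _ _).trans
    (min_le_left _ _)))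
  have m3 : r < B - x := lt_of_lt_of_le hr1 ((min_le_right _ _).trans ((min_le_left _ _).trans
    (min_le_right _ _)))
  have m4 : r < lam / 2 := lt_of_lt_of_le hr1 ((min_le_right _ _).trans (min_le_right _ _))
  have i1 := abs_le.1 (hr r hr0 m1 w o a b d)
  have i2 := hge w o (by linarith) b (by linarith) (by linarith)
  have i3 := hle w o (by linarith) b (by linarith) (by linarith)
  constructor <;> linarith [i1.1, i1.2]

end

section

variable {U D : ℚ → ℝ} {A B lam c : ℝ}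

/-- **Numbers with a constant.** -/
structure NumG (U D : ℚ → ℝ) (n : ℚ → ℚ → ℚ → ℝ) (A B lam c : ℝ) : Prop where
  n0 : ∀ g w o : ℚ, A < w → w ≤ o → (o : ℝ) < B → (o : ℝ) < w + lam → GC U D g w o → 0 ≤ n g w o
  nm : ∀ g g' w o : ℚ, A < w → w ≤ o → (o : ℝ) < B → (o : ℝ) < w + lam → g ≤ g' →
    GC U D g' w o → n g w o ≤ n g' w o ∧ n g' w o ≤ n g w o + c * (g' - g)
  n3 : ∀ g g' w v o : ℚ, A < w → w ≤ v → v ≤ o → (o : ℝ) < B → (o : ℝ) < w + lam →
    GC U D g w o → GC U D g' w v → g ≤ g' → U v + g' ≤ U o + g → U v - v + g' ≤ U o - o + g →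
    n g' w v + n g v o ≤ n g w o

/-- The numbers with the best constant. -/
theorem NumG.exists_th (H : UD U D A B) {n : ℚ → ℚ → ℚ → ℝ} (hc : 0 ≤ c)
    (N : NumG U D n A B lam c) : ∃ θ : ℚ → ℚ → ℝ,
    (∀ w o : ℚ, A < w → w ≤ o → (o : ℝ) < B → (o : ℝ) < w + lam → 0 ≤ θ w o) ∧
    (∀ w v o : ℚ, A < w → w ≤ v → v ≤ o → (o : ℝ) < B → (o : ℝ) < w + lam →
      θ w v + θ v o ≤ θ w o + c * (Gs U D v o - Gs U D w o)) ∧
    ∀ g w o : ℚ, A < w → w ≤ o → (o : ℝ) < B → (o : ℝ) < w + lam → (g : ℝ) < Gs U D w o →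
      n g w o ≤ θ w o ∧ θ w o ≤ n g w o + c * (Gs U D w o - g) := by
  obtain ⟨T, hT⟩ : ∃ T : ℚ → ℚ → Set ℝ, T = fun w o => {x | ∃ g : ℚ, (g : ℝ) < Gs U D w o ∧
    x = n g w o} := ⟨_, rfl⟩
  have hne : ∀ w o, (T w o).Nonempty := by
    intro w o
    obtain ⟨g, hg⟩ := exists_rat_lt (Gs U D w o)
    rw [hT]
    exact ⟨_, g, hg, rfl⟩
  have hup : ∀ g w o : ℚ, A < w → w ≤ o → (o : ℝ) < B → (o : ℝ) < w + lam →
      (g : ℝ) < Gs U D w o → ∀ x ∈ T w o, x ≤ n g w o + c * (Gs U D w o - g) := by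
    intro g w o a b d e hg x hx
    rw [hT] at hx
    obtain ⟨g', hg', rfl⟩ := hx
    have g1 := GC_of_lt H a d b hg
    have g2 := GC_of_lt H a d b hg'
    rcases le_total g g' with h | h
    · have h1 := (N.nm g g' w o a b d e h g2).2
      have h2 : c * ((g' : ℝ) - g) ≤ c * (Gs U D w o - g) :=
        mul_le_mul_of_nonneg_left (by linarith) hc
      linarith
    · have h1 := (N.nm g' g w o a b d e h g1).1
      have h2 : 0 ≤ c * (Gs U D w o - g) := mul_nonneg hc (by linarith)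
      linarith
  have hbd : ∀ w o : ℚ, A < w → w ≤ o → (o : ℝ) < B → (o : ℝ) < w + lam → BddAbove (T w o) := by
    intro w o a b d e
    obtain ⟨g, hg⟩ := exists_rat_lt (Gs U D w o)
    exact ⟨_, fun x hx => hup g w o a b d e hg x hx⟩
  have hlo : ∀ g w o : ℚ, A < w → w ≤ o → (o : ℝ) < B → (o : ℝ) < w + lam →
      (g : ℝ) < Gs U D w o → n g w o ≤ sSup (T w o) := by
    intro g w o a b d e hg
    refine le_csSup (hbd w o a b d e) ?_
    rw [hT]
    exact ⟨g, hg, rfl⟩
  refine ⟨fun w o => sSup (T w o), ?_, ?_, ?_⟩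
  · intro w o a b d e
    obtain ⟨g, hg⟩ := exists_rat_lt (Gs U D w o)
    exact (N.n0 g w o a b d e (GC_of_lt H a d b hg)).trans (hlo g w o a b d e hg)
  · intro w v o a b d e f
    have e1 : (w : ℝ) ≤ v := by exact_mod_cast b
    have e2 : (v : ℝ) ≤ o := by exact_mod_cast d
    have m1 := Gs_mono_right H a e b d
    have m2 := Gs_mono_left H a e b d
    have r0 := Gs_row' H a e b d (j := 0) le_rfl zero_le_one
    have r1 := Gs_row' H a e b d (j := 1) zero_le_one le_rfl
    have hUm := H.um v o (by linarith) d e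
    -- all pairs
    have key : ∀ g₁ g₂ : ℚ, (g₁ : ℝ) < Gs U D w v → (g₂ : ℝ) < Gs U D v o →
        n g₁ w v + n g₂ v o ≤ sSup (T w o) + c * (Gs U D v o - Gs U D w o) := by
      intro g₁ g₂ hg₁ hg₂
      refine le_of_forall_pos_le_add fun ε hε => ?_
      obtain ⟨η, hη, hη1⟩ : ∃ η : ℝ, 0 < η ∧ c * η ≤ ε := by
        refine ⟨ε / (c + 1), by positivity, ?_⟩
        rw [mul_div_assoc', div_le_iff₀ (by linarith)]
        nlinarith
      obtain ⟨g, hg1, hg2⟩ := exists_rat_btwn (show max (Gs U D w o - η)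
        (g₁ - (Gs U D w v - Gs U D w o)) < Gs U D w o from max_lt (by linarith) (by linarith))
      have l1 := lt_of_le_of_lt (le_max_left _ _) hg1
      have l2 := lt_of_le_of_lt (le_max_right _ _) hg1
      have gw := GC_of_lt H a e (b.trans d) hg2
      obtain ⟨g', hg'⟩ : ∃ g' : ℚ, g' = max g g₁ := ⟨_, rfl⟩
      have q1 : g ≤ g' := by rw [hg']; exact le_max_left _ _
      have q2 : g₁ ≤ g' := by rw [hg']; exact le_max_right _ _
      have q3 : (g' : ℝ) < Gs U D w v := by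
        rw [hg']
        push_cast
        exact max_lt (by linarith) hg₁
      have q4 : (g' : ℝ) - g ≤ max 0 (Gs U D w v - Gs U D w o) := by
        rw [hg']
        push_cast
        rcases le_total (g : ℝ) g₁ with h | h
        · rw [max_eq_right h]
          exact le_trans (by linarith) (le_max_right _ _)
        · rw [max_eq_left h]
          simp
      have q5 : max 0 (Gs U D w v - Gs U D w o) = Gs U D w v - Gs U D w o :=
        max_eq_right (by linarith)
      rw [q5] at q4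
      have gv := GC_of_lt H a (by linarith) b q3
      have s1 := N.n3 g g' w v o a b d e f gw gv q1 (by linarith) (by linarith)
      have s2 := (N.nm g₁ g' w v a b (by linarith) (by linarith) q2 gv).1
      have s3 : n g₂ v o ≤ n g v o + c * (Gs U D v o - g) := by
        refine hup g v o (by linarith) d e (by linarith) (by linarith) _ ?_
        rw [hT]
        exact ⟨g₂, hg₂, rfl⟩
      have s4 := hlo g w o a (b.trans d) e f hg2
      have s5 : c * (Gs U D v o - g) ≤ c * (Gs U D v o - Gs U D w o) + c * η := by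
        rw [← mul_add]
        exact mul_le_mul_of_nonneg_left (by linarith) hc
      linarith
    have k2 : sSup (T w v) ≤ sSup (T w o) + c * (Gs U D v o - Gs U D w o) - sSup (T v o) := by
      refine csSup_le (hne w v) fun x hx => ?_
      have k3 : sSup (T v o) ≤ sSup (T w o) + c * (Gs U D v o - Gs U D w o) - x := by
        refine csSup_le (hne v o) fun y hy => ?_
        rw [hT] at hx hy
        obtain ⟨g₁, hg₁, rfl⟩ := hx
        obtain ⟨g₂, hg₂, rfl⟩ := hy
        have := key g₁ g₂ hg₁ hg₂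
        linarith
      linarith
    show sSup (T w v) + sSup (T v o) ≤ sSup (T w o) + c * (Gs U D v o - Gs U D w o)
    linarith
  · intro g w o a b d e hg
    exact ⟨hlo g w o a b d e hg, csSup_le (hne w o) fun x hx => hup g w o a b d e hg x hx⟩

/-- **The numbers are linear** in the boxes of almost every point at which the two numbers of the
windows have the same derivative. -/
theorem num_lin (H : UD U D A B) {n : ℚ → ℚ → ℚ → ℝ} (hlam : 0 < lam) (hc : 0 ≤ c)
    (N : NumG U D n A B lam c) :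
    ∀ᵐ x : ℝ, x ∈ Ioo A B → ∃ f : ℝ, 0 ≤ f ∧ ∀ u φ s : ℝ, 0 ≤ s →
      (∀ e : ℝ, 0 < e → ∃ r₀ : ℝ, 0 < r₀ ∧ ∀ r : ℝ, 0 < r → r < r₀ → ∀ w : ℚ, x - r ≤ w →
        (w : ℝ) ≤ x + r → |U w - (u + s * (w - x))| ≤ e * r ∧
          |D w - (u + φ + s * (w - x))| ≤ e * r) →
      ∀ e : ℝ, 0 < e → ∃ r₀ : ℝ, 0 < r₀ ∧ ∀ r : ℝ, 0 < r → r < r₀ → ∀ w o : ℚ, x - r ≤ w →
        w ≤ o → (o : ℝ) ≤ x + r →
        (∀ g : ℝ, g ≤ φ - 2 * (e * r) → g < φ - 2 * (e * r) → GC U D g w o) ∧
        ∀ g : ℚ, φ - 8 * (e * r) ≤ g → (g : ℝ) < φ - 2 * (e * r) →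
          |n g w o - f * (o - w)| ≤ (1 + 10 * c) * (e * r) := by
  obtain ⟨θ, t0, t1, t2⟩ := N.exists_th H hc
  have h := lin_quasi hlam hc t0 t1
  filter_upwards [h] with x hx hxAB
  obtain ⟨f, hf, hx⟩ := hx hxAB
  refine ⟨f, hf, fun u φ s hs hder e he => ?_⟩
  obtain ⟨r₁, hr₁, h1⟩ := hx e he
  obtain ⟨r₂, hr₂, h2⟩ := hder e he
  refine ⟨min (min r₁ r₂) (min (min (x - A) (B - x)) (lam / 2)), lt_min (lt_min hr₁ hr₂)
    (lt_min (lt_min (by linarith [hxAB.1]) (by linarith [hxAB.2])) (half_pos hlam)),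
    fun r hr0 hr w o a b d => ?_⟩
  have m0 : r < r₁ := lt_of_lt_of_le hr ((min_le_left _ _).trans (min_le_left _ _))
  have m1 : r < r₂ := lt_of_lt_of_le hr ((min_le_left _ _).trans (min_le_right _ _))
  have m2 : r < x - A := lt_of_lt_of_le hr ((min_le_right _ _).trans ((min_le_left _ _).trans
    (min_le_left _ _)))
  have m3 : r < B - x := lt_of_lt_of_le hr ((min_le_right _ _).trans ((min_le_left _ _).trans
    (min_le_right _ _)))
  have m4 : r < lam / 2 := lt_of_lt_of_le hr ((min_le_right _ _).trans (min_le_right _ _))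
  have hw : A < w := by linarith
  have ho : (o : ℝ) < B := by linarith
  have hl : (o : ℝ) < w + lam := by linarith
  have hin : ∀ y : ℚ, w ≤ y → y ≤ o → x - r ≤ y ∧ (y : ℝ) ≤ x + r := by
    intro y h1 h2
    have h1' : (w : ℝ) ≤ y := by exact_mod_cast h1
    have h2' : (y : ℝ) ≤ o := by exact_mod_cast h2
    constructor <;> linarith
  obtain ⟨g1, g2⟩ := Gs_near H hw ho b hs (x₀ := x) (u := u) (φ := φ) (e := e * r)
    (fun y p q => (h2 r hr0 m1 y (hin y p q).1 (hin y p q).2).1)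
    (fun y p q => (h2 r hr0 m1 y (hin y p q).1 (hin y p q).2).2)
  have hoA : A < (o : ℝ) := by
    have : (w : ℝ) ≤ o := by exact_mod_cast b
    linarith
  obtain ⟨g3, g4⟩ := Gs_near H hoA ho le_rfl hs (x₀ := x) (u := u) (φ := φ) (e := e * r)
    (fun y p q => (h2 r hr0 m1 y (hin y (b.trans p) q).1 (hin y (b.trans p) q).2).1)
    (fun y p q => (h2 r hr0 m1 y (hin y (b.trans p) q).1 (hin y (b.trans p) q).2).2)
  refine ⟨fun g _ hg => GC_of_lt H hw ho b (by linarith), fun g hg1 hg2 => ?_⟩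
  have hgG : (g : ℝ) < Gs U D w o := by linarith
  obtain ⟨k1, k2⟩ := t2 g w o hw b ho hl hgG
  obtain ⟨k3, k4⟩ := h1 r hr0 m0 w o a b d
  have e1 : c * (Gs U D w o - g) + c * (Gs U D o o - Gs U D w o) = c * (Gs U D o o - g) := by
    ring
  have e2 : c * (Gs U D o o - g) ≤ c * (10 * (e * r)) :=
    mul_le_mul_of_nonneg_left (by linarith) hc
  have e3 : 0 ≤ c * (10 * (e * r)) := by positivity
  rw [abs_le]
  constructor
  · nlinarith
  · nlinarith

end

end Pool.OWN17
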