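import Pool.Agent.H17.COR.Atq
import Pool.Agent.H91.LA.Nump

/-!
# The charts of two windows are near

`chq_root`: the charts of the ball window and of a deep window are near in natural units, on all
events of a nonempty subclass.
-/

set_option autoImplicit false

namespace Pool.OWN17

open Finset Real MvPolynomial
open Pool.Agent.H49.Ent Pool.Agent.H32.Dense Pool.STK Pool.KA Pool.KSAT Pool.K2S Pool.PB Pool.S6C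
  Pool.GEN Pool.RCD Pool.LA91 Pool.MIC6
open Pool.GRD (LbP)
open Pool.BFL (Pb)

variable {m : ℕ}

/-- A property which holds with probability `1/2` holds on a half of the event. -/
theorem half_of {Ω : Type} [Fintype Ω] {p : Ω → ℝ} (hp : IsLaw p) {A Q : Ω → Prop}
    (hA : 0 < Pe p A) (h : Pb (Pool.Agent.H49.Ent.cond p A True) (fun ω => ¬ Q ω) ≤ 1 / 2) :
    Pe p A ≤ 2 * Pe p (fun ω => A ω ∧ Q ω) := by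
  rw [Pb_cond hA, div_le_iff₀ hA] at h
  have h1 : Pe p A ≤ Pe p (fun ω => A ω ∧ Q ω) + Pe p (fun ω => A ω ∧ ¬ Q ω) := by
    refine Pe_or hp fun ω hω => ?_
    by_cases hq : Q ω
    · exact Or.inl ⟨hω, hq⟩
    · exact Or.inr ⟨hω, hq⟩
  linarith

/-- **A property on a part of each event**, on all events of a subclass. -/
theorem prop_root {S : PCl m} (hS : S.Ne) (Q : ∀ (J : ℕ) (F : Fam m J), F.Ω → Prop) {C : ℝ}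
    (J₀ : ℕ) (h : Bas S (fun J F A => ∃ B : F.Ω → Prop, Sub B A ∧ Pe F.p A ≤ C * Pe F.p B ∧
      ∀ ω, B ω → Q J F ω)) :
    ∃ S' : PCl m, S'.Ne ∧
      (∀ (τ : ℝ) (J : ℕ) (F : Fam m J) (A : F.Ω → Prop), S'.St τ J F A → S.St τ J F A) ∧
      ∀ (τ : ℝ) (J : ℕ) (F : Fam m J) (A : F.Ω → Prop), S'.St τ J F A →
        J₀ ≤ J ∧ ∀ ω, A ω → Q J F ω := by
  obtain ⟨S', -, h1, h2, h3⟩ := root_fix (Δ := fun _ _ => Unit) (C := C) hS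
    (fun J F _ A => J₀ ≤ J ∧ ∀ ω, A ω → Q J F ω)
    (fun J F _ A B hA hB => ⟨hA.1, fun ω hω => hA.2 ω (hB ω hω)⟩) (by
      refine Bas.mono J₀ h ?_
      rintro J hJ F A ⟨B, a1, a2, a3⟩
      exact ⟨(), B, a1, a2, hJ, a3⟩)
  exact ⟨S', h1, h2, h3⟩

/-- The numbers of the charts. -/
theorem chq_fit {W O U₀ U₁ D₀ D₁ g ε e x : ℝ} (hx : 0 < x) (h1 : e + 2 * x ≤ ε) (hW : 0 ≤ W)
    (hU : W < U₀ - ε) (hNV : W < U₀ + g - 2 * ε) (hWO : U₀ - W ≤ U₁ - O) (hO : 0 ≤ O)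
    (hg0 : U₀ + g ≤ D₀) (hg1 : U₁ + g ≤ D₁) (he : 0 < e) (k : ℕ) : ∃ J₀ : ℕ,
    ∀ J : ℕ, J₀ ≤ J →
      ⌊(U₀ - ε) * J⌋₊ + (⌊x * J⌋₊ + k) ≤ ⌊(U₀ - e) * J⌋₊ ∧
      ⌊(U₀ - ε) * J⌋₊ + (⌊x * J⌋₊ + k) + ⌊O * J⌋₊ ≤ ⌊(U₁ - e) * J⌋₊ + ⌊W * J⌋₊ ∧
      ⌊(U₀ + g - 2 * ε) * J⌋₊ + (⌊x * J⌋₊ + k) ≤ ⌊(D₀ - e) * J⌋₊ ∧
      ⌊(U₀ + g - 2 * ε) * J⌋₊ + (⌊x * J⌋₊ + k) + ⌊O * J⌋₊ ≤ ⌊(D₁ - e) * J⌋₊ + ⌊W * J⌋₊ := by
  obtain ⟨J₀, hJ₀⟩ := exists_nat_ge ((k + 4 : ℝ) / x)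
  refine ⟨J₀, fun J hJ => ?_⟩
  have hJr : (J₀ : ℝ) ≤ J := by exact_mod_cast hJ
  have hJ0 : (0 : ℝ) ≤ J := Nat.cast_nonneg J
  have hkx : (k + 4 : ℝ) ≤ x * J := by
    have := hJ₀.trans hJr
    rw [div_le_iff₀ hx] at this
    linarith
  have hk0 : (0 : ℝ) ≤ k := Nat.cast_nonneg k
  have e0 : ∀ a b : ℝ, a ≤ b → a * J ≤ b * J := fun a b h => mul_le_mul_of_nonneg_right h hJ0
  have f1 : (⌊(U₀ - ε) * (J : ℝ)⌋₊ : ℝ) ≤ (U₀ - ε) * J :=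
    Nat.floor_le (mul_nonneg (by linarith) hJ0)
  have f2 : (⌊(U₀ + g - 2 * ε) * (J : ℝ)⌋₊ : ℝ) ≤ (U₀ + g - 2 * ε) * J :=
    Nat.floor_le (mul_nonneg (by linarith) hJ0)
  have f3 : (⌊x * (J : ℝ)⌋₊ : ℝ) ≤ x * J := Nat.floor_le (by positivity)
  have f4 : (⌊O * (J : ℝ)⌋₊ : ℝ) ≤ O * J := Nat.floor_le (by positivity)
  have f5 : (U₀ - e) * (J : ℝ) - 1 < ⌊(U₀ - e) * (J : ℝ)⌋₊ := Nat.sub_one_lt_floor _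
  have f6 : (U₁ - e) * (J : ℝ) - 1 < ⌊(U₁ - e) * (J : ℝ)⌋₊ := Nat.sub_one_lt_floor _
  have f7 : (D₀ - e) * (J : ℝ) - 1 < ⌊(D₀ - e) * (J : ℝ)⌋₊ := Nat.sub_one_lt_floor _
  have f8 : (D₁ - e) * (J : ℝ) - 1 < ⌊(D₁ - e) * (J : ℝ)⌋₊ := Nat.sub_one_lt_floor _
  have f9 : W * (J : ℝ) - 1 < ⌊W * (J : ℝ)⌋₊ := Nat.sub_one_lt_floor _
  have g1 := e0 (e + 2 * x) ε h1
  have g2 := e0 (U₀ - W) (U₁ - O) hWO
  have g3 := e0 (U₀ + g) D₀ hg0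
  have g4 := e0 (U₁ + g) D₁ hg1
  have g5 : (0 : ℝ) ≤ e * J := by positivity
  refine ⟨?_, ?_, ?_, ?_⟩ <;> rw [← Nat.cast_le (α := ℝ)] <;> push_cast <;> nlinarith

/-- **The charts of two windows are near**, on all events of a subclass. -/
theorem chq_root {S : PCl m} {C₀ : ℝ} (htm : TmC S C₀) {y u v : Fin m} (hyu : y ≠ u)
    (hact : ActF S y) {W O U₀ U₁ D₀ D₁ g ε : ℝ}
    (hslo : SloN S (RL m {y} u v W (U₀ + g)) (RL m {y} u v O (U₁ + g)) g)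
    (hW : 0 ≤ W) (hO' : W ≤ O) (hU : W < U₀ - ε) (hNV : W < U₀ + g - 2 * ε)
    (hWO : U₀ - W ≤ U₁ - O) (hg0 : U₀ + g ≤ D₀) (hg1 : U₁ + g ≤ D₁) (hε : 0 < ε) :
    ∃ e₀ : ℝ, 0 < e₀ ∧ ∀ e : ℝ, 0 < e → e ≤ e₀ → ∀ S₁ : PCl m, S₁.Ne →
      (∀ (τ : ℝ) (J : ℕ) (F : Fam m J) (A : F.Ω → Prop), S₁.St τ J F A → S.St τ J F A) →
      ∀ a b a' b' : ∀ (J : ℕ) (F : Fam m J), LnT F → Fin 4 → ℝ,
      (∀ (τ : ℝ) (J : ℕ) (F : Fam m J) (A : F.Ω → Prop), S₁.St τ J F A →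
        Chd F y u v ⌊W * J⌋₊ ⌊O * J⌋₊ ⌊(U₀ - e) * J⌋₊ ⌊(D₀ - e) * J⌋₊ ⌊(U₁ - e) * J⌋₊
          ⌊(D₁ - e) * J⌋₊ ⌊e * J⌋₊ (a J F) (b J F) (a' J F) (b' J F) A) →
      ∀ J₀ : ℕ, ∃ S₂ : PCl m, S₂.Ne ∧
        (∀ (τ : ℝ) (J : ℕ) (F : Fam m J) (A : F.Ω → Prop), S₂.St τ J F A → S₁.St τ J F A) ∧
        ∀ (τ : ℝ) (J : ℕ) (F : Fam m J) (A : F.Ω → Prop), S₂.St τ J F A → J₀ ≤ J ∧
          Chq F ⌊W * J⌋₊ ⌊O * J⌋₊ ⌊W * J⌋₊ ⌊(U₀ - ε) * J⌋₊ ⌊(U₀ + g - 2 * ε) * J⌋₊ 1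
            (a J F) (b J F) (a' J F) (b' J F) A := by
  classical
  obtain ⟨e₁, he₁, hs⟩ := hslo (ε / 2) (half_pos hε)
  obtain ⟨x, hx⟩ : ∃ x, x = ε / 8 := ⟨_, rfl⟩
  have hx0 : 0 < x := by rw [hx]; linarith
  refine ⟨min e₁ x, lt_min he₁ hx0, ?_⟩
  intro e he hee S₁ hS₁ hsub a b a' b' hch J₀
  have ee1 : e ≤ e₁ := hee.trans (min_le_left _ _)
  have ee2 : e ≤ x := hee.trans (min_le_right _ _)
  have hO : 0 ≤ O := hW.trans hO'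
  obtain ⟨J₁, hfit⟩ := chq_fit (W := W) (O := O) (U₀ := U₀) (U₁ := U₁) (D₀ := D₀) (D₁ := D₁)
    (g := g) (ε := ε) (e := e) (x := x) hx0 (by rw [hx] at ee2 ⊢; linarith) hW hU hNV hWO hO
    hg0 hg1 he 3
  have hpos₁ : Bas S₁ (fun _ F A => 0 < Pe F.p A) := Bas.sub hsub
    ⟨1, one_pos, 0, fun J _ F A hA => (htm 1 J F A one_pos hA).1⟩
  -- the slopes of `v` over `u`
  obtain ⟨J₂, hJ₂⟩ := exists_nat_ge (2 / ε)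
  obtain ⟨S₂, hS₂, hsub₂, h3⟩ := prop_root (C := 2) hS₁ (fun J F ω =>
      |b' J F (slam F ⌊O * J⌋₊ ω) 3 - b J F (slam F ⌊W * J⌋₊ ω) 3| ≤
        1 * (2 ^ ⌊(U₀ - ε) * J⌋₊ / 2 ^ ⌊(U₀ + g - 2 * ε) * J⌋₊)) (max (max J₀ J₁) J₂) (by
    refine Bas.mono (max J₂ 1) ((Bas.sub hsub (hs 4 (1 / 2) (by norm_num))).and (hpos₁.and
      ⟨1, one_pos, 0, fun J _ F A hA => hch 1 J F A hA⟩)) ?_
    rintro J hJ F A ⟨h1, h2, hc⟩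
    have hJ0 : (0 : ℝ) ≤ J := Nat.cast_nonneg J
    have hJ2 : (J₂ : ℝ) ≤ J := by exact_mod_cast (le_max_left _ _).trans hJ
    have hεJ : 2 ≤ ε * J := by
      have := hJ₂.trans hJ2
      rw [div_le_iff₀ hε] at this
      linarith
    have k1 := hc.cv.rl hyu (p := U₀ + g) (e := e₁) (Nat.floor_le_floor
      (mul_le_mul_of_nonneg_right (by linarith) hJ0)) (K := 4) (by norm_num)
    have k2 := hc.cv'.rl hyu (p := U₁ + g) (e := e₁) (Nat.floor_le_floor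
      (mul_le_mul_of_nonneg_right (by linarith) hJ0)) (K := 4) (by norm_num)
    have k3 := h1 _ _ k1 k2
    refine ⟨fun ω => A ω ∧ |b J F (slam F ⌊W * J⌋₊ ω) 3 - b' J F (slam F ⌊O * J⌋₊ ω) 3| ≤
      2 ^ (-((g - ε / 2) * J)), fun ω hω => hω.1, half_of F.isLaw h2 k3, fun ω hω => ?_⟩
    have k4 := hω.2
    rw [abs_sub_comm] at k4
    refine k4.trans ?_
    rw [one_mul, ← Real.rpow_natCast, ← Real.rpow_natCast, ← Real.rpow_sub two_pos]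
    refine Real.rpow_le_rpow_of_exponent_le (by norm_num) ?_
    have f1 : (U₀ - ε) * (J : ℝ) - 1 < ⌊(U₀ - ε) * (J : ℝ)⌋₊ := Nat.sub_one_lt_floor _
    have f2 : (⌊(U₀ + g - 2 * ε) * (J : ℝ)⌋₊ : ℝ) ≤ (U₀ + g - 2 * ε) * J :=
      Nat.floor_le (mul_nonneg (by linarith) hJ0)
    nlinarith)
  have htm₂ : TmC S₂ C₀ := fun τ J F A hτ h => htm τ J F A hτ (hsub τ J F A (hsub₂ τ J F A h))
  have hact₂ : ActF S₂ y := fun z hz => by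
    obtain ⟨c, hc, hb⟩ := hact z hz
    exact ⟨c, hc, Bas.sub (fun τ J F A h => hsub τ J F A (hsub₂ τ J F A h)) hb⟩
  -- the slopes of `u` over `y`
  obtain ⟨S₃, hS₃, hsub₃, h4⟩ := prop_root (C := 2) hS₂ (fun J F ω =>
      |a' J F (slam F ⌊O * J⌋₊ ω) 2 - a J F (slam F ⌊W * J⌋₊ ω) 2| ≤
        1 * (2 ^ ⌊W * J⌋₊ / 2 ^ ⌊(U₀ - ε) * J⌋₊)) (max J₀ J₁) (by
    refine Bas.mono J₁ ((act_f htm₂ hact₂ hx0).and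
      ⟨1, one_pos, 0, fun J _ F A hA => hch 1 J F A (hsub₂ 1 J F A hA)⟩) ?_
    rintro J hJ F A ⟨h1, hc⟩
    obtain ⟨g1, g2, -, -⟩ := hfit J hJ
    obtain ⟨φ, hφ⟩ := hc.cu.cls
    obtain ⟨φ', hφ'⟩ := hc.cu'.cls
    obtain ⟨s, hs⟩ : ∃ s, s = ⌊x * (J : ℝ)⌋₊ + 3 := ⟨_, rfl⟩
    rw [← hs] at g1 g2
    obtain ⟨R, hR⟩ : ∃ R : ℝ, R = 2 ^ ⌊W * (J : ℝ)⌋₊ / 2 ^ (⌊(U₀ - ε) * (J : ℝ)⌋₊ + s) := ⟨_, rfl⟩
    have hR0 : 0 < R := by rw [hR]; positivity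
    have e1 : (2 : ℝ) ^ ⌊W * (J : ℝ)⌋₊ / 2 ^ ⌊(U₀ - e) * (J : ℝ)⌋₊ ≤ R := by
      rw [hR]
      exact div_le_div_of_nonneg_left (by positivity) (by positivity)
        (pow_le_pow_right₀ (by norm_num) g1)
    have e2 : (2 : ℝ) ^ ⌊O * (J : ℝ)⌋₊ / 2 ^ ⌊(U₁ - e) * (J : ℝ)⌋₊ ≤ R := by
      rw [hR, div_le_div_iff₀ (by positivity) (by positivity), ← pow_add, ← pow_add]
      exact pow_le_pow_right₀ (by norm_num) (by omega)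
    obtain ⟨B, p1, p2, p3⟩ := h1
      (fun ω => a' J F (slam F ⌊O * J⌋₊ ω) 1 - a J F (slam F ⌊W * J⌋₊ ω) 1)
      (fun ω => a' J F (slam F ⌊O * J⌋₊ ω) 2 - a J F (slam F ⌊W * J⌋₊ ω) 2) (2 * R)
      (by positivity) (fun ω ω' hω hω' hh => by
        rw [hφ ω hω, hφ ω' hω', hφ' ω hω, hφ' ω' hω', hh]
        exact ⟨rfl, rfl⟩) (fun ω hω => by
        have k1 := hc.cu.vel ω hω
        have k2 := hc.cu'.vel ω hω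
        have k3 : (a' J F (slam F ⌊O * J⌋₊ ω) 1 - a J F (slam F ⌊W * J⌋₊ ω) 1) +
            (a' J F (slam F ⌊O * J⌋₊ ω) 2 - a J F (slam F ⌊W * J⌋₊ ω) 2) * F.d ω y =
            ov F y y u (a J F (slam F ⌊W * J⌋₊ ω)) ω -
              ov F y y u (a' J F (slam F ⌊O * J⌋₊ ω)) ω := by
          unfold ov
          rw [hc.a3, hc.a3']
          ring
        rw [k3]
        refine (abs_sub _ _).trans ?_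
        linarith)
    refine ⟨B, p1, p2, fun ω hω => (p3 ω hω).trans ?_⟩
    rw [one_mul, hR, hs]
    have e3 : (2 : ℝ) ^ (⌊x * (J : ℝ)⌋₊ + 1) * (2 * (2 ^ ⌊W * (J : ℝ)⌋₊ /
        2 ^ (⌊(U₀ - ε) * (J : ℝ)⌋₊ + (⌊x * (J : ℝ)⌋₊ + 3)))) =
        1 / 2 * (2 ^ ⌊W * (J : ℝ)⌋₊ / 2 ^ ⌊(U₀ - ε) * (J : ℝ)⌋₊) := by
      rw [pow_add, pow_add, pow_add]
      field_simp
    rw [e3]
    have : (0 : ℝ) ≤ 2 ^ ⌊W * (J : ℝ)⌋₊ / 2 ^ ⌊(U₀ - ε) * (J : ℝ)⌋₊ := by positivity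
    linarith)
  have htm₃ : TmC S₃ C₀ := fun τ J F A hτ h => htm₂ τ J F A hτ (hsub₃ τ J F A h)
  have hact₃ : ActF S₃ y := fun z hz => by
    obtain ⟨c, hc, hb⟩ := hact₂ z hz
    exact ⟨c, hc, Bas.sub hsub₃ hb⟩
  -- the slopes of `v` over `y`
  obtain ⟨S₄, hS₄, hsub₄, h5⟩ := prop_root (C := 2) hS₃ (fun J F ω =>
      |(b' J F (slam F ⌊O * J⌋₊ ω) 2 - b J F (slam F ⌊W * J⌋₊ ω) 2) +
        (b' J F (slam F ⌊O * J⌋₊ ω) 3 - b J F (slam F ⌊W * J⌋₊ ω) 3) *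
          a' J F (slam F ⌊O * J⌋₊ ω) 2| ≤
        1 * (2 ^ ⌊W * J⌋₊ / 2 ^ ⌊(U₀ + g - 2 * ε) * J⌋₊)) (max J₀ J₁) (by
    have hb : Bas S₃ (fun J F A => Chd F y u v ⌊W * J⌋₊ ⌊O * J⌋₊ ⌊(U₀ - e) * J⌋₊
        ⌊(D₀ - e) * J⌋₊ ⌊(U₁ - e) * J⌋₊ ⌊(D₁ - e) * J⌋₊ ⌊e * J⌋₊ (a J F) (b J F) (a' J F)
          (b' J F) A) :=
      ⟨1, one_pos, 0, fun J _ F A hA => hch 1 J F A (hsub₂ 1 J F A (hsub₃ 1 J F A hA))⟩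
    have hb' : Bas S₃ (fun J F A => ∀ ω, A ω →
        |b' J F (slam F ⌊O * J⌋₊ ω) 3 - b J F (slam F ⌊W * J⌋₊ ω) 3| ≤
        1 * (2 ^ ⌊(U₀ - ε) * J⌋₊ / 2 ^ ⌊(U₀ + g - 2 * ε) * J⌋₊)) :=
      ⟨1, one_pos, 0, fun J _ F A hA => (h3 1 J F A (hsub₃ 1 J F A hA)).2⟩
    refine Bas.mono J₁ ((act_f htm₃ hact₃ hx0).and (hb.and hb')) ?_
    rintro J hJ F A ⟨h1, hc, hc3⟩
    obtain ⟨-, g2, g3, g4⟩ := hfit J hJ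
    obtain ⟨φ, hφ⟩ := hc.cv.cls
    obtain ⟨φ', hφ'⟩ := hc.cv'.cls
    obtain ⟨ψ, hψ⟩ := hc.cu'.cls
    obtain ⟨s, hs⟩ : ∃ s, s = ⌊x * (J : ℝ)⌋₊ + 3 := ⟨_, rfl⟩
    rw [← hs] at g2 g3 g4
    obtain ⟨R, hR⟩ : ∃ R : ℝ, R = 2 ^ ⌊W * (J : ℝ)⌋₊ /
      2 ^ (⌊(U₀ + g - 2 * ε) * (J : ℝ)⌋₊ + s) := ⟨_, rfl⟩
    have hR0 : 0 < R := by rw [hR]; positivity
    have e1 : (2 : ℝ) ^ ⌊W * (J : ℝ)⌋₊ / 2 ^ ⌊(D₀ - e) * (J : ℝ)⌋₊ ≤ R := by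
      rw [hR]
      exact div_le_div_of_nonneg_left (by positivity) (by positivity)
        (pow_le_pow_right₀ (by norm_num) g3)
    have e2 : (2 : ℝ) ^ ⌊O * (J : ℝ)⌋₊ / 2 ^ ⌊(D₁ - e) * (J : ℝ)⌋₊ ≤ R := by
      rw [hR, div_le_div_iff₀ (by positivity) (by positivity), ← pow_add, ← pow_add]
      exact pow_le_pow_right₀ (by norm_num) (by omega)
    have e3 : (2 : ℝ) ^ ⌊(U₀ - ε) * (J : ℝ)⌋₊ / 2 ^ ⌊(U₀ + g - 2 * ε) * (J : ℝ)⌋₊ *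
        (2 ^ ⌊O * (J : ℝ)⌋₊ / 2 ^ ⌊(U₁ - e) * (J : ℝ)⌋₊) ≤ R := by
      rw [hR, div_mul_div_comm, div_le_div_iff₀ (by positivity) (by positivity), ← pow_add,
        ← pow_add, ← pow_add, ← pow_add]
      exact pow_le_pow_right₀ (by norm_num) (by omega)
    obtain ⟨B, p1, p2, p3⟩ := h1
      (fun ω => (b' J F (slam F ⌊O * J⌋₊ ω) 1 - b J F (slam F ⌊W * J⌋₊ ω) 1) +
        (b' J F (slam F ⌊O * J⌋₊ ω) 3 - b J F (slam F ⌊W * J⌋₊ ω) 3) *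
          a' J F (slam F ⌊O * J⌋₊ ω) 1)
      (fun ω => (b' J F (slam F ⌊O * J⌋₊ ω) 2 - b J F (slam F ⌊W * J⌋₊ ω) 2) +
        (b' J F (slam F ⌊O * J⌋₊ ω) 3 - b J F (slam F ⌊W * J⌋₊ ω) 3) *
          a' J F (slam F ⌊O * J⌋₊ ω) 2) (3 * R)
      (by positivity) (fun ω ω' hω hω' hh => by
        rw [hφ ω hω, hφ ω' hω', hφ' ω hω, hφ' ω' hω', hψ ω hω, hψ ω' hω', hh]
        exact ⟨rfl, rfl⟩) (fun ω hω => by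
        have k1 := hc.cv.vel ω hω
        have k2 := hc.cv'.vel ω hω
        have k4 := hc.cu'.vel ω hω
        have k3 : ((b' J F (slam F ⌊O * J⌋₊ ω) 1 - b J F (slam F ⌊W * J⌋₊ ω) 1) +
            (b' J F (slam F ⌊O * J⌋₊ ω) 3 - b J F (slam F ⌊W * J⌋₊ ω) 3) *
              a' J F (slam F ⌊O * J⌋₊ ω) 1) +
            ((b' J F (slam F ⌊O * J⌋₊ ω) 2 - b J F (slam F ⌊W * J⌋₊ ω) 2) +
            (b' J F (slam F ⌊O * J⌋₊ ω) 3 - b J F (slam F ⌊W * J⌋₊ ω) 3) *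
              a' J F (slam F ⌊O * J⌋₊ ω) 2) * F.d ω y =
            ov F y u v (b J F (slam F ⌊W * J⌋₊ ω)) ω -
              ov F y u v (b' J F (slam F ⌊O * J⌋₊ ω)) ω -
            (b' J F (slam F ⌊O * J⌋₊ ω) 3 - b J F (slam F ⌊W * J⌋₊ ω) 3) *
              ov F y y u (a' J F (slam F ⌊O * J⌋₊ ω)) ω := by
          unfold ov
          rw [hc.a3']
          ring
        rw [k3]
        have k5 : |(b' J F (slam F ⌊O * J⌋₊ ω) 3 - b J F (slam F ⌊W * J⌋₊ ω) 3) *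
              ov F y y u (a' J F (slam F ⌊O * J⌋₊ ω)) ω| ≤ R := by
          rw [abs_mul]
          refine le_trans (mul_le_mul (hc3 ω hω) k4 (abs_nonneg _) (by positivity)) ?_
          rw [one_mul]
          exact e3
        have k6 := abs_sub (ov F y u v (b J F (slam F ⌊W * J⌋₊ ω)) ω -
              ov F y u v (b' J F (slam F ⌊O * J⌋₊ ω)) ω)
              ((b' J F (slam F ⌊O * J⌋₊ ω) 3 - b J F (slam F ⌊W * J⌋₊ ω) 3) *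
              ov F y y u (a' J F (slam F ⌊O * J⌋₊ ω)) ω)
        have k7 := abs_sub (ov F y u v (b J F (slam F ⌊W * J⌋₊ ω)) ω)
              (ov F y u v (b' J F (slam F ⌊O * J⌋₊ ω)) ω)
        linarith)
    refine ⟨B, p1, p2, fun ω hω => (p3 ω hω).trans ?_⟩
    rw [one_mul, hR, hs]
    have e4 : (2 : ℝ) ^ (⌊x * (J : ℝ)⌋₊ + 1) * (3 * (2 ^ ⌊W * (J : ℝ)⌋₊ /
        2 ^ (⌊(U₀ + g - 2 * ε) * (J : ℝ)⌋₊ + (⌊x * (J : ℝ)⌋₊ + 3)))) =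
        3 / 4 * (2 ^ ⌊W * (J : ℝ)⌋₊ / 2 ^ ⌊(U₀ + g - 2 * ε) * (J : ℝ)⌋₊) := by
      rw [pow_add, pow_add, pow_add]
      field_simp
      norm_num
    rw [e4]
    have : (0 : ℝ) ≤ 2 ^ ⌊W * (J : ℝ)⌋₊ / 2 ^ ⌊(U₀ + g - 2 * ε) * (J : ℝ)⌋₊ := by positivity
    linarith)
  refine ⟨S₄, hS₄, fun τ J F A h => hsub₂ τ J F A (hsub₃ τ J F A (hsub₄ τ J F A h)), ?_⟩
  intro τ J F A hA
  have q5 := h5 τ J F A hA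
  have q4 := h4 τ J F A (hsub₄ τ J F A hA)
  have q3 := h3 τ J F A (hsub₃ τ J F A (hsub₄ τ J F A hA))
  exact ⟨(le_max_left _ _).trans q5.1, ⟨q4.2, q3.2, q5.2⟩⟩

end Pool.OWN17
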