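import Pool.Agent.H17.COR.Chq

/-!
# The charts at finitely many windows as class functions, and the records with the codes

`cht_all`: charts. `zpF`: the record of a window with the codes of the charts at the ball window and
at the deep window. `zpF_mx`, `zpF_det`.
-/

set_option autoImplicit false

namespace Pool.OWN17

open Finset Real MvPolynomial
open Pool.Agent.H49.Ent Pool.Agent.H32.Dense Pool.STK Pool.KA Pool.KSAT Pool.K2S Pool.PB Pool.S6C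
  Pool.GEN Pool.RCD Pool.LA91 Pool.MIC6
open Pool.GRD (LbP)

variable {m : ℕ}

/-- **The charts at finitely many windows as class functions.** -/
theorem cht_all {S : PCl m} (hS : S.Ne) {C₀ : ℝ} (hC₀ : 0 ≤ C₀) (htm : TmC S C₀)
    {L : Finset (Fin m) → Fin m → ℝ → ℝ → ℝ} (hL : LamW S L) {y u v : Fin m} (hyu : y ≠ u)
    (hact : ActF S y) {ι : Type} [Finite ι] [Nonempty ι] {x : ι → ℝ}
    (hG : ∀ i, Gdw L y u v (x i)) {e : ℝ} (he : 0 < e) (J₀ : ℕ) :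
    ∃ (S' : PCl m) (a b : ι → ∀ (J : ℕ) (F : Fam m J), LnT F → Fin 4 → ℝ), S'.Ne ∧
      (∀ (τ : ℝ) (J : ℕ) (F : Fam m J) (A : F.Ω → Prop), S'.St τ J F A → S.St τ J F A) ∧
      ∀ (τ : ℝ) (J : ℕ) (F : Fam m J) (A : F.Ω → Prop), S'.St τ J F A → J₀ ≤ J ∧ ∀ i,
        ChA F y y u ⌊x i * J⌋₊ ⌊(L {y} u (x i) (x i) - e) * J⌋₊ ⌊e * J⌋₊ (a i J F) A ∧
        (∀ s, a i J F s 3 = 0) ∧
        ChA F y u v ⌊x i * J⌋₊ ⌊(L {y, u} v (x i) (x i) - e) * J⌋₊ ⌊e * J⌋₊ (b i J F) A := by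
  classical
  obtain ⟨f, hf⟩ := exists_surjective_nat ι
  obtain ⟨S₁, h1, h2, h3⟩ := her_sub hS (fun n J F A => ∃ a b : LnT F → Fin 4 → ℝ,
      ChA F y y u ⌊x (f n) * J⌋₊ ⌊(L {y} u (x (f n)) (x (f n)) - e) * J⌋₊ ⌊e * J⌋₊ a A ∧
      (∀ s, a s 3 = 0) ∧
      ChA F y u v ⌊x (f n) * J⌋₊ ⌊(L {y, u} v (x (f n)) (x (f n)) - e) * J⌋₊ ⌊e * J⌋₊ b A)
    (fun n J F A B hB ⟨a, b, k1, k2, k3⟩ => ⟨a, b, k1.sub hB, k2, k3.sub hB⟩) (fun n => by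
      refine ⟨25600, Bas.mono 0 (cht_cls hS hC₀ htm hL hyu hact (hG (f n)) he) ?_⟩
      rintro J - F A ⟨a, b, B, q1, q2, q3, q4, q5⟩
      exact ⟨B, q1, q2, a, b, q3, q4, q5⟩)
  obtain ⟨Q, hQ⟩ : ∃ Q : ∀ (J : ℕ) (F : Fam m J),
      (ι → (LnT F → Fin 4 → ℝ) × (LnT F → Fin 4 → ℝ)) → (F.Ω → Prop) → Prop,
      Q = fun J F d A => J₀ ≤ J ∧ ∀ i,
      ChA F y y u ⌊x i * J⌋₊ ⌊(L {y} u (x i) (x i) - e) * J⌋₊ ⌊e * J⌋₊ (d i).1 A ∧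
      (∀ s, (d i).1 s 3 = 0) ∧
      ChA F y u v ⌊x i * J⌋₊ ⌊(L {y, u} v (x i) (x i) - e) * J⌋₊ ⌊e * J⌋₊ (d i).2 A := ⟨_, rfl⟩
  have hne : ∀ (J : ℕ) (F : Fam m J),
      Nonempty (ι → (LnT F → Fin 4 → ℝ) × (LnT F → Fin 4 → ℝ)) :=
    fun J F => ⟨fun _ => (fun _ _ => 0, fun _ _ => 0)⟩
  obtain ⟨S', d, k1, k2, k3⟩ := root_fix (C := 1) h1 Q (by
      intro J F d A B hA hB
      rw [hQ] at hA ⊢
      exact ⟨hA.1, fun i => ⟨(hA.2 i).1.sub hB, (hA.2 i).2.1, (hA.2 i).2.2.sub hB⟩⟩) (by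
      have h4 : ∀ i : ι, Bas S₁ (fun J F A => ∃ a b : LnT F → Fin 4 → ℝ,
          ChA F y y u ⌊x i * J⌋₊ ⌊(L {y} u (x i) (x i) - e) * J⌋₊ ⌊e * J⌋₊ a A ∧
          (∀ s, a s 3 = 0) ∧
          ChA F y u v ⌊x i * J⌋₊ ⌊(L {y, u} v (x i) (x i) - e) * J⌋₊ ⌊e * J⌋₊ b A) := fun i => by
        obtain ⟨n, rfl⟩ := hf i
        exact h3 n
      refine Bas.mono J₀ (Bas.fin' h4) ?_
      intro J hJ F A hA
      choose a b q1 q2 q3 using hA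
      rw [hQ]
      exact ⟨fun i => (a i, b i), A, fun _ h => h, (one_mul _).ge, hJ, fun i =>
        ⟨q1 i, q2 i, q3 i⟩⟩)
  rw [hQ] at k3
  exact ⟨S', fun i J F => (d J F i).1, fun i J F => (d J F i).2, k1,
    fun τ J F A hA => h2 τ J F A (k2 τ J F A hA), fun τ J F A hA => k3 τ J F A hA⟩

/-- The codes of two charts are closed. -/
theorem ChA.cl2 {J : ℕ} {F : Fam m J} {κ ι k : Fin m} {w M E : ℕ} {a : LnT F → Fin 4 → ℝ}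
    {A : F.Ω → Prop} (h : ChA F κ ι k w M E a A) :
    Cl2 (ptr F J) (slam F w) A (fun ω => a (slam F w ω)) :=
  ⟨h.cls, a, fun _ _ => rfl⟩

section

variable {J : ℕ} {F : Fam m J} {ι : Type} [DecidableEq ι] {V : Type}

/-- **The record of a window with the codes** of the charts at the windows `W` and `O`. -/
noncomputable def zpF (F : Fam m J) (x : ι → ℝ) (iW iO : ι) (z : ι → LnT F → V)
    (a b : ι → LnT F → Fin 4 → ℝ) (i : ι) (ω : F.Ω) :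
    V × (((Fin 4 → ℝ) × (Fin 4 → ℝ)) × Option ((Fin 4 → ℝ) × (Fin 4 → ℝ))) :=
  (z i (slam F ⌊x i * J⌋₊ ω), ((a iW (slam F ⌊x iW * J⌋₊ ω), b iW (slam F ⌊x iW * J⌋₊ ω)),
    if i = iO then some (a iO (slam F ⌊x iO * J⌋₊ ω), b iO (slam F ⌊x iO * J⌋₊ ω)) else none))

theorem zpF_det {x : ι → ℝ} {iW iO : ι} {z : ι → LnT F → V} {a b : ι → LnT F → Fin 4 → ℝ}
    (hn : ∀ i j : ι, x i ≤ x j → ∀ ω ω' : F.Ω, z j (slam F ⌊x j * J⌋₊ ω) =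
      z j (slam F ⌊x j * J⌋₊ ω') → z i (slam F ⌊x i * J⌋₊ ω) = z i (slam F ⌊x i * J⌋₊ ω'))
    {i j : ι} (hij : x i ≤ x j) (hi : i ≠ iO) {ω ω' : F.Ω}
    (hh : zpF F x iW iO z a b j ω = zpF F x iW iO z a b j ω') :
    zpF F x iW iO z a b i ω = zpF F x iW iO z a b i ω' := by
  unfold zpF at hh ⊢
  simp only [Prod.mk.injEq, hi, if_false] at hh ⊢
  exact ⟨hn i j hij ω ω' hh.1, hh.2.1, trivial⟩

/-- The record with the codes is maximal. -/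
theorem zpF_mx {x : ι → ℝ} (hx1 : ∀ i, x i ≤ 1) {iW iO : ι}
    {z : ∀ (J : ℕ) (F : Fam m J), ι → LnT F → V} {a b : ι → LnT F → Fin 4 → ℝ}
    {κ ι' k : Fin m} {M M' E E' Mu Mu' Eu Eu' : ℕ} {A : F.Ω → Prop} {h : ℝ}
    (hA : IsLaw (Pool.Agent.H49.Ent.cond F.p A True))
    (c1 : ChA F κ κ ι' ⌊x iW * J⌋₊ Mu Eu (a iW) A) (c2 : ChA F κ ι' k ⌊x iW * J⌋₊ M E (b iW) A)
    (c3 : ChA F κ κ ι' ⌊x iO * J⌋₊ Mu' Eu' (a iO) A)
    (c4 : ChA F κ ι' k ⌊x iO * J⌋₊ M' E' (b iO) A) {i : ι} (hi : x iW ≤ x i)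
    (hz : Mx (fun J F => ptr F J) (vg (x i)) h F A (fun ω => z J F i (slam F ⌊x i * J⌋₊ ω))) :
    Mx (fun J F => ptr F J) (vg (x i)) h F A (zpF F x iW iO (z J F) a b i) := by
  have hcrs : ∀ j : ι, x j ≤ x i → ∃ φ : LnT F → LnT F, ∀ ω, A ω → slam F ⌊x j * J⌋₊ ω =
      φ (vg (x i) J F ω) := fun j hj => by
    obtain ⟨φ, hφ⟩ := vg_mono hj (hx1 i) J F
    exact ⟨φ, fun ω _ => hφ ω⟩
  have q1 : Cl2 (ptr F J) (vg (x i) J F) A (fun ω => (a iW (slam F ⌊x iW * J⌋₊ ω),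
      b iW (slam F ⌊x iW * J⌋₊ ω))) :=
    (c1.cl2.join c2.cl2).mono ⟨id, fun _ _ => rfl⟩ (hcrs iW hi)
  have q2 : Cl2 (ptr F J) (vg (x i) J F) A (fun ω => if i = iO then
      some (a iO (slam F ⌊x iO * J⌋₊ ω), b iO (slam F ⌊x iO * J⌋₊ ω)) else none) := by
    by_cases hiO : i = iO
    · simp only [hiO, if_true]
      subst hiO
      exact ((c3.cl2.join c4.cl2).comp (fun v => some v)).mono ⟨id, fun _ _ => rfl⟩
        (hcrs i le_rfl)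
    · simp only [hiO, if_false]
      exact ⟨⟨fun _ => none, fun _ _ => rfl⟩, fun _ => none, fun _ _ => rfl⟩
  refine ⟨hz.1.join (q1.join q2), fun V' z' hz' => le_trans ?_ (hz.2 V' z' hz')⟩
  exact CH_mono_cond hA.nonneg fun ω ω' _ _ hh => (Prod.mk.inj hh).1

end

end Pool.OWN17
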