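import Pool.Agent.H17.COR.Bad
import Pool.Agent.H17.COR.Numl
import Pool.Agent.H91.LA.Afn
import Pool.Agent.H6.OWN.Bmc

/-!
# Closed affine charts

`ChA`: a closed affine chart of the coordinate `k` over the time, `κ` and `ι`. The charts give the
natural quantities `qJet`, `qA` of the own heights and of the own velocities.
-/

set_option autoImplicit false

namespace Pool.OWN17

open Finset Real MvPolynomial
open Pool.Agent.H49.Ent Pool.Agent.H32.Dense Pool.STK Pool.KA Pool.KSAT Pool.K2S Pool.PB Pool.S6C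
  Pool.GEN Pool.RCD Pool.LA91 Pool.MIC6
open Pool.GRD (LbP)

variable {m J : ℕ}

/-- The affine polynomial of a code. -/
noncomputable def cpl (κ ι : Fin m) (c : Fin 4 → ℝ) : MvPolynomial (Option (Fin m)) ℝ :=
  afq κ ι (c 0) (c 1) (c 2) (c 3)

/-- The own height over the chart with the code `c`. -/
noncomputable def oh (F : Fam m J) (κ ι k : Fin m) (c : Fin 4 → ℝ) (ω : F.Ω) : ℝ :=
  F.x ω k - (c 0 + c 1 * F.t ω + c 2 * F.x ω κ + c 3 * F.x ω ι)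

/-- The own velocity over the chart with the code `c`. -/
noncomputable def ov (F : Fam m J) (κ ι k : Fin m) (c : Fin 4 → ℝ) (ω : F.Ω) : ℝ :=
  F.d ω k - (c 1 + c 2 * F.d ω κ + c 3 * F.d ω ι)

theorem cpl_ojet (F : Fam m J) (κ ι k : Fin m) (c : Fin 4 → ℝ) (ω : F.Ω) :
    ojet F k 0 (cpl κ ι c) ω = oh F κ ι k c ω ∧ ojet F k 1 (cpl κ ι c) ω = ov F κ ι k c ω := by
  have h1 : aeval (lp (bt F ω) (bd F ω)) (X (some k) - cpl κ ι c) =
      Polynomial.C (oh F κ ι k c ω) + Polynomial.C (ov F κ ι k c ω) * Polynomial.X := by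
    refine Polynomial.funext fun t => ?_
    rw [eval_alp, map_sub, eval_X]
    unfold cpl
    rw [eval_afq]
    simp only [Polynomial.eval_add, Polynomial.eval_mul, Polynomial.eval_C, Polynomial.eval_X]
    show (F.x ω k + t * F.d ω k) - (c 0 + (c 1 * (F.t ω + t * 1) +
      (c 2 * (F.x ω κ + t * F.d ω κ) + c 3 * (F.x ω ι + t * F.d ω ι)))) = _
    unfold oh ov
    ring
  constructor
  · unfold ojet jet
    rw [h1]
    simp
  · unfold ojet jet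
    rw [h1]
    simp

theorem cpl_afI {κ ι : Fin m} (h : κ ≠ ι) (c : Fin 4 → ℝ) : AfI ι (c 3) (cpl κ ι c) := by
  intro b s
  unfold cpl
  rw [eval_afq, eval_afq, Function.update_self, Function.update_of_ne (by simp),
    Function.update_of_ne (fun h' => h (Option.some_injective _ h'))]
  ring

/-- **A closed affine chart**: window `w`, precision `M`, coefficients at most `2 ^ E`. -/
structure ChA (F : Fam m J) (κ ι k : Fin m) (w M E : ℕ) (a : LnT F → Fin 4 → ℝ)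
    (A : F.Ω → Prop) : Prop where
  cls : ∃ φ : PtT F → Fin 4 → ℝ, ∀ ω, A ω → a (slam F w ω) = φ (ptr F J ω)
  pos : ∀ ω, A ω → |oh F κ ι k (a (slam F w ω)) ω| ≤ 1 / 2 ^ M
  vel : ∀ ω, A ω → |ov F κ ι k (a (slam F w ω)) ω| ≤ 2 ^ w / 2 ^ M
  bnd : ∀ ω, A ω → ∀ i : Fin 4, i ≠ 0 → |a (slam F w ω) i| ≤ 2 ^ E

theorem ChA.sub {F : Fam m J} {κ ι k : Fin m} {w M E : ℕ} {a : LnT F → Fin 4 → ℝ}
    {A B : F.Ω → Prop} (h : ChA F κ ι k w M E a A) (hB : Sub B A) : ChA F κ ι k w M E a B :=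
  ⟨h.cls.imp fun _ hφ ω hω => hφ ω (hB ω hω), fun ω hω => h.pos ω (hB ω hω),
    fun ω hω => h.vel ω (hB ω hω), fun ω hω => h.bnd ω (hB ω hω)⟩

/-- The label of a chart. -/
theorem ChA.lb {F : Fam m J} {κ ι k : Fin m} {w M E : ℕ} {a : LnT F → Fin 4 → ℝ}
    {A : F.Ω → Prop} (h : ChA F κ ι k w M E a A) : ∃ z : PtT F → Fin 4 → ℝ,
    LbP F {κ, ι} k 1 J w M A z a (cpl κ ι) := by
  obtain ⟨φ, hφ⟩ := h.cls
  refine ⟨φ, fun x => deg_afq _ _ _ _ _ _, fun x b b' hb hb' => ?_, fun ω hω => (hφ ω hω).symm,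
    fun ω hω => ?_⟩
  · unfold cpl
    rw [eval_afq, eval_afq, hb, hb' κ (Finset.mem_insert_self _ _),
      hb' ι (Finset.mem_insert_of_mem (Finset.mem_singleton_self _))]
  · have h1 := h.pos ω hω
    unfold cpl
    rw [eval_afq]
    have e1 : F.x ω k - (a (slam F w ω) 0 + (a (slam F w ω) 1 * bt F ω none +
        (a (slam F w ω) 2 * bt F ω (some κ) + a (slam F w ω) 3 * bt F ω (some ι)))) =
        oh F κ ι k (a (slam F w ω)) ω := by
      show F.x ω k - (a (slam F w ω) 0 + (a (slam F w ω) 1 * F.t ω +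
        (a (slam F w ω) 2 * F.x ω κ + a (slam F w ω) 3 * F.x ω ι))) = _
      unfold oh
      ring
    rw [e1]
    exact h1

/-- The label of a chart over one coordinate. -/
theorem ChA.lb1 {F : Fam m J} {κ k : Fin m} {w M E : ℕ} {a : LnT F → Fin 4 → ℝ}
    {A : F.Ω → Prop} (h : ChA F κ κ k w M E a A) : ∃ z : PtT F → Fin 4 → ℝ,
    LbP F {κ} k 1 J w M A z a (cpl κ κ) := by
  obtain ⟨z, hz⟩ := h.lb
  rw [Finset.pair_eq_singleton] at hz
  exact ⟨z, hz⟩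

/-- The number of the values of the digits. -/
theorem cnt_fd {Ω : Type} [Fintype Ω] {p : Ω → ℝ} {A : Ω → Prop} {N : ℝ} {J : ℕ} (hJ : 1 ≤ J)
    (hN1 : N ≤ J) {X : Ω → ℝ} (hX : ∀ ω, A ω → |X ω| ≤ 2 ^ J) {K : ℕ} (hK : 4 ≤ K) :
    (Pool.S6C.cnt p (fd N X) A : ℝ) ≤ Real.exp (K * J) := by
  have hJ0 : (0 : ℝ) ≤ J := Nat.cast_nonneg J
  have p0 : (0 : ℝ) < 2 ^ N := Real.rpow_pos_of_pos two_pos _
  have p1 : (2 : ℝ) ^ N ≤ 2 ^ J := by
    rw [← Real.rpow_natCast]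
    exact Real.rpow_le_rpow_of_exponent_le (by norm_num) hN1
  have h1 : ∀ ω, A ω → |((fd N X ω : ℤ) : ℝ)| ≤ 2 ^ J * 2 ^ J + 1 := by
    intro ω hω
    have f1 := Int.floor_le ((2 : ℝ) ^ N * X ω)
    have f2 := Int.lt_floor_add_one ((2 : ℝ) ^ N * X ω)
    have f3 : |(2 : ℝ) ^ N * X ω| ≤ 2 ^ J * 2 ^ J := by
      rw [abs_mul, abs_of_pos p0]
      exact mul_le_mul p1 (hX ω hω) (abs_nonneg _) (by positivity)
    rw [abs_le] at f3
    unfold fd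
    rw [abs_le]
    constructor <;> linarith [f3.1, f3.2]
  have h2 := cnt_le_of_abs (p := p) (A := A) (by positivity : (0 : ℝ) ≤ 2 ^ J * 2 ^ J + 1) h1
  refine h2.trans ?_
  have e1 : (2 : ℝ) ^ J ≤ Real.exp J := by
    have h3 : (2 : ℝ) ≤ Real.exp 1 := by
      have := Real.add_one_le_exp (1 : ℝ)
      linarith
    calc (2 : ℝ) ^ J ≤ Real.exp 1 ^ J := pow_le_pow_left₀ (by norm_num) h3 J
      _ = Real.exp J := by rw [← Real.exp_nat_mul, mul_one]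
  have e2 : Real.exp J * Real.exp J = Real.exp (2 * J) := by
    rw [← Real.exp_add]
    congr 1
    ring
  have e3 : (2 : ℝ) ^ J * 2 ^ J ≤ Real.exp (2 * J) := by
    rw [← e2]
    exact mul_le_mul e1 e1 (by positivity) (Real.exp_pos _).le
  have hJ1 : (1 : ℝ) ≤ J := by exact_mod_cast hJ
  have e4 : (5 : ℝ) ≤ Real.exp (2 * J) := by
    have h4 : (2.7 : ℝ) ≤ Real.exp 1 := by
      have := Real.exp_one_gt_d9
      linarith
    have h5 : Real.exp 1 * Real.exp 1 ≤ Real.exp (2 * J) := by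
      rw [← Real.exp_add]
      exact Real.exp_le_exp.2 (by linarith)
    nlinarith
  have e5 : Real.exp (2 * J) * Real.exp (2 * J) ≤ Real.exp (K * J) := by
    rw [← Real.exp_add]
    refine Real.exp_le_exp.2 ?_
    have : (4 : ℝ) ≤ K := by exact_mod_cast hK
    nlinarith
  nlinarith

/-- **The natural quantities of a chart over one coordinate**: the digits of the own height and of
the own velocity. -/
theorem ChA.qj {F : Fam m J} {κ k : Fin m} {W : ℝ} {M E : ℕ} {a : LnT F → Fin 4 → ℝ}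
    {A : F.Ω → Prop} (h : ChA F κ κ k ⌊W * J⌋₊ M E a A) (hJ : 1 ≤ J) (hW : ⌊W * J⌋₊ ≤ J)
    {p e N : ℝ} (hM : ⌊(p - e) * J⌋₊ ≤ M) (hN : N ≤ 1) {K : ℕ} (hK : 4 ≤ K) :
    (qJet m {κ} k 0 W p N).P K e J F A
      (fd (N * J) fun ω => oh F κ κ k (a (slam F ⌊W * J⌋₊ ω)) ω) ∧
    (qJet m {κ} k 1 W p N).P K e J F A
      (fd (N * J) fun ω => ov F κ κ k (a (slam F ⌊W * J⌋₊ ω)) ω) := by
  obtain ⟨z, hz⟩ := h.lb1
  have hJ0 : (0 : ℝ) ≤ J := Nat.cast_nonneg J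
  have hNJ : N * J ≤ J := by nlinarith
  have hz' := hz.mono (Finset.Subset.refl _) (by omega : 1 ≤ K) hM
  refine ⟨⟨cnt_fd hJ hNJ (fun ω hω => ?_) hK, _, z, a, cpl κ κ, hz', fun ω _ => ?_⟩,
    ⟨cnt_fd hJ hNJ (fun ω hω => ?_) hK, _, z, a, cpl κ κ, hz', fun ω _ => ?_⟩⟩
  · refine (h.pos ω hω).trans ?_
    rw [div_le_iff₀ (by positivity)]
    have a1 : (1 : ℝ) ≤ 2 ^ J := one_le_pow₀ (by norm_num)
    have a2 : (1 : ℝ) ≤ 2 ^ M := one_le_pow₀ (by norm_num)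
    nlinarith
  · unfold fd
    rw [(cpl_ojet F κ κ k _ ω).1]
  · refine (h.vel ω hω).trans ?_
    rw [div_le_iff₀ (by positivity)]
    have a1 : (2 : ℝ) ^ ⌊W * J⌋₊ ≤ 2 ^ J := pow_le_pow_right₀ (by norm_num) hW
    have a2 : (1 : ℝ) ≤ 2 ^ M := one_le_pow₀ (by norm_num)
    have a3 : (0 : ℝ) < 2 ^ J := by positivity
    nlinarith
  · unfold fd
    rw [(cpl_ojet F κ κ k _ ω).2]

/-- **The natural quantities of a chart over two coordinates**: the digits of the own height and of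
the own velocity. -/
theorem ChA.qa {F : Fam m J} {κ ι k : Fin m} (hκι : κ ≠ ι) {W : ℝ} {M E : ℕ}
    {a : LnT F → Fin 4 → ℝ} {A : F.Ω → Prop} (h : ChA F κ ι k ⌊W * J⌋₊ M E a A) (hJ : 1 ≤ J)
    (hW : ⌊W * J⌋₊ ≤ J) {p e N : ℝ} (hM : ⌊(p - e) * J⌋₊ ≤ M) (hN : N ≤ 1) {K : ℕ}
    (hK : 4 ≤ K) :
    (qA m {κ} ι k 0 W p N).P K e J F A
      (fd (N * J) fun ω => oh F κ ι k (a (slam F ⌊W * J⌋₊ ω)) ω) ∧
    (qA m {κ} ι k 1 W p N).P K e J F A
      (fd (N * J) fun ω => ov F κ ι k (a (slam F ⌊W * J⌋₊ ω)) ω) := by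
  obtain ⟨z, hz⟩ := h.lb
  have hJ0 : (0 : ℝ) ≤ J := Nat.cast_nonneg J
  have hNJ : N * J ≤ J := by nlinarith
  have hz' := hz.mono (Finset.Subset.refl _) (by omega : 1 ≤ K) hM
  rw [Finset.pair_comm] at hz'
  refine ⟨⟨cnt_fd hJ hNJ (fun ω hω => ?_) hK, _, z, a, cpl κ ι, fun c => c 3, hz',
      fun c => cpl_afI hκι c, fun ω _ => ?_⟩,
    ⟨cnt_fd hJ hNJ (fun ω hω => ?_) hK, _, z, a, cpl κ ι, fun c => c 3, hz',
      fun c => cpl_afI hκι c, fun ω _ => ?_⟩⟩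
  · refine (h.pos ω hω).trans ?_
    rw [div_le_iff₀ (by positivity)]
    have a1 : (1 : ℝ) ≤ 2 ^ J := one_le_pow₀ (by norm_num)
    have a2 : (1 : ℝ) ≤ 2 ^ M := one_le_pow₀ (by norm_num)
    nlinarith
  · unfold fd
    rw [(cpl_ojet F κ ι k _ ω).1]
  · refine (h.vel ω hω).trans ?_
    rw [div_le_iff₀ (by positivity)]
    have a1 : (2 : ℝ) ^ ⌊W * J⌋₊ ≤ 2 ^ J := pow_le_pow_right₀ (by norm_num) hW
    have a2 : (1 : ℝ) ≤ 2 ^ M := one_le_pow₀ (by norm_num)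
    have a3 : (0 : ℝ) < 2 ^ J := by positivity
    nlinarith
  · unfold fd
    rw [(cpl_ojet F κ ι k _ ω).2]

/-- The slope of a chart. -/
theorem ChA.rl {F : Fam m J} {κ ι k : Fin m} (hκι : κ ≠ ι) {W : ℝ} {M E : ℕ}
    {a : LnT F → Fin 4 → ℝ} {A : F.Ω → Prop} (h : ChA F κ ι k ⌊W * J⌋₊ M E a A)
    {p e : ℝ} (hM : ⌊(p - e) * J⌋₊ ≤ M) {K : ℕ} (hK : 1 ≤ K) :
    (RL m {κ} ι k W p).P K e J F A (fun ω => a (slam F ⌊W * J⌋₊ ω) 3) := by
  obtain ⟨z, hz⟩ := h.lb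
  have hz' := hz.mono (Finset.Subset.refl _) hK hM
  rw [Finset.pair_comm] at hz'
  exact ⟨_, z, a, cpl κ ι, fun c => c 3, hz', fun c => cpl_afI hκι c, fun _ _ => rfl⟩

end Pool.OWN17
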