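import Pool.Agent.H17.COR.Cdc

/-!
# The charts of a class at one window

`Gdw`: a good window for the labels of `u` over `y` and of `v` over `y`, `u`. `cht_cls`: the closed
affine charts of the class at a good window.
-/

set_option autoImplicit false

namespace Pool.OWN17

open Finset Real MvPolynomial
open Pool.Agent.H49.Ent Pool.Agent.H32.Dense Pool.STK Pool.KA Pool.KSAT Pool.K2S Pool.PB Pool.S6C
  Pool.GEN Pool.RCD Pool.LA91 Pool.MIC6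
open Pool.GRD (LbP)

variable {m : ℕ}

/-- **A good window** for the labels of `u` over `y` and of `v` over `y`, `u`. -/
structure Gdw (L : Finset (Fin m) → Fin m → ℝ → ℝ → ℝ) (y u v : Fin m) (t : ℝ) : Prop where
  t0 : 0 < t
  cU : ContinuousAt (fun W => L {y} u W W) t
  cD : ContinuousAt (fun W => L {y, u} v W W) t
  tU : t < L {y} u t t
  tD : t < L {y, u} v t t
  U1 : L {y} u t t < 1
  deep : ∃ a₀ a : ℝ, 0 ≤ a₀ ∧ a₀ < a ∧ a < 1 ∧ L {y} u t t - t < L {y} u a₀ a₀ - a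

/-- The numbers are continuous outside a countable set. -/
theorem cnt_L {S : PCl m} {L : Finset (Fin m) → Fin m → ℝ → ℝ → ℝ} (hL : LamW S L)
    (I : Finset (Fin m)) (k : Fin m) : {W : ℝ | ¬ ContinuousAt (fun W => L I k W 0) W}.Countable ∧
      {W : ℝ | ¬ ContinuousAt (fun W => L I k W W) W}.Countable := by
  constructor
  · refine Monotone.countable_not_continuousAt fun a b hab => ?_
    exact hL.mono _ _ _ _ _ _ _ (Finset.Subset.refl _) hab le_rfl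
  · refine Monotone.countable_not_continuousAt fun a b hab => ?_
    exact hL.mono _ _ _ _ _ _ _ (Finset.Subset.refl _) hab hab

/-- Floors of multiples. -/
theorem fl_add {p q : ℝ} (hpq : p < q) (hq : 0 < q) (k : ℕ) :
    ∃ J₀ : ℕ, ∀ J : ℕ, J₀ ≤ J → ⌊p * J⌋₊ + k ≤ ⌊q * J⌋₊ := by
  obtain ⟨d, hd⟩ : ∃ d, d = q - max p 0 := ⟨_, rfl⟩
  have hd0 : 0 < d := by rw [hd]; exact sub_pos.2 (max_lt hpq hq)
  obtain ⟨J₀, hJ₀⟩ := exists_nat_ge ((k : ℝ) / d)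
  refine ⟨J₀, fun J hJ => ?_⟩
  have hJr : (J₀ : ℝ) ≤ J := by exact_mod_cast hJ
  have hJ0 : (0 : ℝ) ≤ J := Nat.cast_nonneg J
  have h1 : (k : ℝ) ≤ d * J := by
    have := hJ₀.trans hJr
    rw [div_le_iff₀ hd0] at this
    linarith
  rw [hd] at h1
  have h2 : p * J ≤ max p 0 * J := mul_le_mul_of_nonneg_right (le_max_left _ _) hJ0
  have h3 : (⌊p * (J : ℝ)⌋₊ : ℝ) ≤ max p 0 * J := by
    refine le_trans (Nat.cast_le.2 (Nat.floor_le_floor h2)) (Nat.floor_le ?_)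
    exact mul_nonneg (le_max_right _ _) hJ0
  refine Nat.le_floor ?_
  push_cast
  linarith

/-- **The closed affine charts of a class** at a good window. -/
theorem cht_cls {S : PCl m} (hS : S.Ne) {C₀ : ℝ} (hC₀ : 0 ≤ C₀) (htm : TmC S C₀)
    {L : Finset (Fin m) → Fin m → ℝ → ℝ → ℝ} (hL : LamW S L) {y u v : Fin m} (hyu : y ≠ u)
    (hact : ActF S y) {t : ℝ} (hG : Gdw L y u v t) {e : ℝ} (he : 0 < e) :
    Bas S (fun J F A => ∃ (a b : LnT F → Fin 4 → ℝ) (B : F.Ω → Prop), Sub B A ∧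
      Pe F.p A ≤ 25600 * Pe F.p B ∧
      ChA F y y u ⌊t * J⌋₊ ⌊(L {y} u t t - e) * J⌋₊ ⌊e * J⌋₊ a B ∧ (∀ s, a s 3 = 0) ∧
      ChA F y u v ⌊t * J⌋₊ ⌊(L {y, u} v t t - e) * J⌋₊ ⌊e * J⌋₊ b B) := by
  classical
  obtain ⟨a₀, a, ha0, haa, ha1, hdp⟩ := hG.deep
  obtain ⟨U, hU⟩ : ∃ U, U = L {y} u t t := ⟨_, rfl⟩
  obtain ⟨D, hD⟩ : ∃ D, D = L {y, u} v t t := ⟨_, rfl⟩
  obtain ⟨La, hLa⟩ : ∃ La, La = L {y} u a₀ a₀ := ⟨_, rfl⟩
  have tU := hG.tU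
  have tD := hG.tD
  have U1 := hG.U1
  have t0 := hG.t0
  rw [← hU] at tU U1 hdp ⊢
  rw [← hD] at tD ⊢
  rw [← hLa] at hdp
  obtain ⟨x, hx⟩ : ∃ x, x = min (min (min (e / 4) ((U - t) / 16)) (min ((1 - U) / 4) (t / 4)))
    (min ((La - a - (U - t)) / 16) ((D - t) / 16)) := ⟨_, rfl⟩
  have hx0 : 0 < x := by
    rw [hx]
    refine lt_min (lt_min (lt_min ?_ ?_) (lt_min ?_ ?_)) (lt_min ?_ ?_) <;> linarith
  have x0 : x ≤ e / 4 ∧ x ≤ (U - t) / 16 ∧ x ≤ (1 - U) / 4 ∧ x ≤ t / 4 ∧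
      x ≤ (La - a - (U - t)) / 16 ∧ x ≤ (D - t) / 16 := by
    have := hx.le
    simp only [le_min_iff] at this
    tauto
  obtain ⟨x1, x2, x3, x4, x5, x6⟩ := x0
  obtain ⟨η₁, hη₁, hc₁⟩ := Metric.continuousAt_iff.1 hG.cU x hx0
  obtain ⟨η₂, hη₂, hc₂⟩ := Metric.continuousAt_iff.1 hG.cD x hx0
  obtain ⟨δ, hδ⟩ : ∃ δ, δ = min (min η₁ η₂) x := ⟨_, rfl⟩
  have hδ0 : 0 < δ := by rw [hδ]; exact lt_min (lt_min hη₁ hη₂) hx0
  have hδ1 : δ ≤ η₁ := by rw [hδ]; exact (min_le_left _ _).trans (min_le_left _ _)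
  have hδ2 : δ ≤ η₂ := by rw [hδ]; exact (min_le_left _ _).trans (min_le_right _ _)
  have hδx : δ ≤ x := by rw [hδ]; exact min_le_right _ _
  obtain ⟨W, hW, hWI⟩ := ((cnt_L hL {y} u).1.dense_compl ℝ).exists_mem_open isOpen_Ioo
    (Set.nonempty_Ioo.mpr (by linarith : t - δ / 2 < t))
  have hcW : ContinuousAt (fun W => L {y} u W 0) W := by
    by_contra h
    exact hW h
  obtain ⟨W', hW'⟩ : ∃ W', W' = W - δ / 4 := ⟨_, rfl⟩
  have w1 : W' < W := by rw [hW']; linarith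
  have w2 : t - δ < W' := by rw [hW']; linarith [hWI.1]
  have w3 : W < t := hWI.2
  have hU' : U - x < L {y} u W' W' := by
    have h1 := @hc₁ W' (by
      rw [Real.dist_eq, abs_lt]
      constructor <;> linarith)
    rw [Real.dist_eq, abs_lt, ← hU] at h1
    linarith [h1.1]
  have hD' : D - x < L {y, u} v W' W' := by
    have h1 := @hc₂ W' (by
      rw [Real.dist_eq, abs_lt]
      constructor <;> linarith)
    rw [Real.dist_eq, abs_lt, ← hD] at h1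
    linarith [h1.1]
  have hU0 : L {y} u W 0 ≤ U := by
    rw [hU]
    exact hL.mono _ _ _ _ _ _ _ (Finset.Subset.refl _) w3.le t0.le
  have hU0' : U - x < L {y} u W 0 := lt_of_lt_of_le hU'
    (ng_diag hS hC₀ htm hL hact (by linarith) w1)
  obtain ⟨e₁, he₁, -, hbu⟩ := aff_ocn hC₀ htm hL hact (ι := u) (W' := W') (W := W) (r' := W')
    (x := x) (q := U - 3 * x) w1 (by linarith) hx0 (by linarith) (by linarith)
  obtain ⟨e₂, he₂, hbv⟩ := aff_bcr hC₀ htm hL hyu hact (k := v) (W' := W') (W := W) (r' := W')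
    (x := x) (q := D - W - 3 * x) w1 hx0 (by linarith) (by linarith) (by linarith) hcW
    (by linarith) (by linarith)
  obtain ⟨e₃, he₃⟩ : ∃ e₃, e₃ = min (min e₁ e₂) (min x ((a - a₀) / 3)) := ⟨_, rfl⟩
  have he30 : 0 < e₃ := by
    rw [he₃]
    exact lt_min (lt_min he₁ he₂) (lt_min hx0 (by linarith))
  have y0 : e₃ ≤ e₁ ∧ e₃ ≤ e₂ ∧ e₃ ≤ x ∧ e₃ ≤ (a - a₀) / 3 := by
    have := he₃.le
    simp only [le_min_iff] at this
    tauto
  obtain ⟨y1, y2, y3, y4⟩ := y0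
  have hdu := dp_cls hL y u ha0 haa ha1 he30 (by linarith) (by rw [← hLa]; linarith)
  rw [← hLa] at hdu
  -- the floors
  obtain ⟨J₁, f1⟩ := fl_add w3 t0 2
  obtain ⟨J₂, f2⟩ := fl_add (p := W) (q := U - 3 * x) (by linarith) (by linarith) 3
  obtain ⟨J₃, f3⟩ := fl_add (p := U - e) (q := U - 3 * x) (by linarith) (by linarith) 1
  obtain ⟨J₄, f4⟩ := fl_add (p := (0 : ℝ)) (q := D - W - 3 * x) (by linarith) (by linarith) 3
  obtain ⟨J₅, f5⟩ := fl_add (p := D - e) (q := D - 3 * x - x / 2) (by linarith) (by linarith) 2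
  obtain ⟨J₆, f6⟩ := fl_add (p := e₃) (q := e) (by linarith) he 3
  obtain ⟨J₇, f7⟩ := fl_add (p := x / 32) (q := e) (by linarith) he 3
  obtain ⟨J₈, hJ₈⟩ := exists_nat_ge (4 / x)
  obtain ⟨τ₁, hτ₁, K₁, b₁⟩ := hdu
  obtain ⟨τ₂, hτ₂, K₂, b₂⟩ := hbu
  obtain ⟨τ₃, hτ₃, K₃, b₃⟩ := hbv
  obtain ⟨τ, hτ⟩ : ∃ τ, τ = min τ₁ (min τ₂ (τ₃ / 2)) := ⟨_, rfl⟩
  have hτ0 : 0 < τ := by
    rw [hτ]
    exact lt_min hτ₁ (lt_min hτ₂ (by linarith))
  have z0 : τ ≤ τ₁ ∧ τ ≤ τ₂ ∧ τ ≤ τ₃ / 2 := by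
    have := hτ.le
    simp only [le_min_iff] at this
    tauto
  obtain ⟨z1, z2, z3⟩ := z0
  obtain ⟨K₄, hK₄⟩ := exists_nat_ge (Real.log 20 / τ)
  refine ⟨τ, hτ0, J₁ + J₂ + J₃ + J₄ + J₅ + J₆ + J₇ + J₈ + (K₁ + K₂ + K₃ + K₄), ?_⟩
  intro J hJ F A hA
  have hJ0 : (0 : ℝ) ≤ J := Nat.cast_nonneg J
  have hJ8 : (J₈ : ℝ) ≤ J := by exact_mod_cast (by omega : J₈ ≤ J)
  have hK4 : (K₄ : ℝ) ≤ J := by exact_mod_cast (by omega : K₄ ≤ J)
  have hlog : Real.log 20 ≤ τ * J := by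
    have h1 := hK₄.trans hK4
    rw [div_le_iff₀ hτ0] at h1
    linarith
  have hxJ : 4 ≤ x * J := by
    have h1 := hJ₈.trans hJ8
    rw [div_le_iff₀ hx0] at h1
    linarith
  have g1 := f1 J (by omega)
  have g2 := f2 J (by omega)
  have g3 := f3 J (by omega)
  have g4 := f4 J (by omega)
  have g5 := f5 J (by omega)
  have g6 := f6 J (by omega)
  have g7 := f7 J (by omega)
  rw [zero_mul, Nat.floor_zero, zero_add] at g4
  have htJ : ⌊t * (J : ℝ)⌋₊ ≤ J := by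
    refine Nat.floor_le_of_le ?_
    nlinarith
  obtain ⟨au, cu, hau⟩ := b₁ J (by omega) F A (S.mono z1 hA)
  obtain ⟨B₁, p1, p2, V₁, zp₁, zs₁, cf₁, p3⟩ := b₂ J (by omega) F A (S.mono z2 hA) au cu _ _
    (Nat.floor_le_floor (mul_le_mul_of_nonneg_right y1 hJ0))
    (Nat.floor_le_floor (mul_le_mul_of_nonneg_right (by linarith) hJ0)) hau
  have hB₁ : S.St (2 * τ) J F B₁ := res_of hτ0.le hA p1 (by norm_num) hlog p2
  obtain ⟨B₂, q1, q2, V₂, zp₂, zs₂, cf₂, q3, q4⟩ := b₃ J (by omega) F B₁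
    (S.mono (by linarith) hB₁) au cu _ _
    (Nat.floor_le_floor (mul_le_mul_of_nonneg_right y2 hJ0))
    (Nat.floor_le_floor (mul_le_mul_of_nonneg_right (by linarith) hJ0)) (hau.sub p1)
  obtain ⟨r1, r2⟩ := AfO_chA p3 (by omega)
  have r3 := AfL_chA q3 q4 (by omega)
  have r4 := (r1.sub q1).win g1 htJ
  have r5 := r3.win g1 htJ
  refine ⟨_, _, B₂, fun ω hω => p1 ω (q1 ω hω), ?_, r4.mono (by omega) (by omega),
    fun s => r2 _, r5.mono ?_ (by omega)⟩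
  · linarith
  · have k1 : ⌊(D - 3 * x - x / 2) * (J : ℝ)⌋₊ ≤ ⌊W * (J : ℝ)⌋₊ + ⌊(D - W - 3 * x) * (J : ℝ)⌋₊ := by
      have a1 := Nat.lt_floor_add_one (W * (J : ℝ))
      have a2 := Nat.lt_floor_add_one ((D - W - 3 * x) * (J : ℝ))
      have a3 : (⌊(D - 3 * x - x / 2) * (J : ℝ)⌋₊ : ℝ) ≤ (D - 3 * x - x / 2) * J :=
        Nat.floor_le (mul_nonneg (by linarith) hJ0)
      rw [← Nat.cast_le (α := ℝ)]
      push_cast
      nlinarith
    omega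

end Pool.OWN17
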