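import Pool.Agent.H17.COR.Nat3

/-!
# The corner at one ball is impossible

`cor_false`: for `τ > 0` and a number `m` of places there is `δ > 0` such that no law has the data
`CorN` with all errors at most `δ g m`.
-/

set_option autoImplicit false

namespace Pool.OWN17

open Finset Real
open Pool.Agent.H49.Ent Pool.Agent.H32.Dense Pool.STK Pool.CH30 Pool.KM7 Pool.OWN68

theorem log_le_nat {a : ℝ} {n : ℕ} (ha : 0 < a) (h : a ≤ 2 ^ n) : Real.log a ≤ n := by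
  have h1 := Real.log_le_log ha h
  rw [Real.log_pow] at h1
  have h2 : Real.log 2 ≤ 1 := by
    have := Real.log_two_lt_d9
    linarith
  have h3 : (0 : ℝ) ≤ n := Nat.cast_nonneg n
  nlinarith

/-- Logarithms in terms of `1 + log c` and of an exponent. -/
theorem log_le_L {c : ℕ} (hc : 1 ≤ c) {a : ℝ} {n k N y : ℕ} (ha : 0 < a)
    (h : a ≤ 2 ^ n * (c : ℝ) ^ k * 2 ^ y) (h1 : n ≤ N) (h2 : k ≤ N) :
    Real.log a ≤ N * (1 + Real.log c) + y := by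
  have hc' : (1 : ℝ) ≤ c := by exact_mod_cast hc
  have k1 := Real.log_le_log ha h
  rw [Real.log_mul (by positivity) (by positivity), Real.log_mul (by positivity) (by positivity),
    Real.log_pow, Real.log_pow, Real.log_pow] at k1
  have h3 : Real.log 2 ≤ 1 := by
    have := Real.log_two_lt_d9
    linarith
  have h4 : 0 ≤ Real.log c := Real.log_nonneg hc'
  have h5 : (n : ℝ) ≤ N := by exact_mod_cast h1
  have h6 : (k : ℝ) ≤ N := by exact_mod_cast h2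
  have h7 : (0 : ℝ) ≤ n := Nat.cast_nonneg n
  have h8 : (0 : ℝ) ≤ y := Nat.cast_nonneg y
  have a1 : (n : ℝ) * Real.log 2 ≤ N := by nlinarith
  have a2 : (k : ℝ) * Real.log c ≤ N * Real.log c := mul_le_mul_of_nonneg_right h6 h4
  have a3 : (y : ℝ) * Real.log 2 ≤ y := by nlinarith
  linarith

/-- The bound of all the errors. -/
noncomputable def Kt (τ : ℝ) (m : ℕ) : ℝ := (2 + 9 * m) * (121 + 283 / τ) + 181 * (1 + m)

/-- **Small errors.** -/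
structure Sml (c m b x D : ℕ) (i g : ℕ → ℕ) (δ A c₀ e₁ eU ec eF eL η : ℝ) : Prop where
  c1 : 1 ≤ c
  b1 : 1 ≤ b
  c₀0 : 0 < c₀
  c₀1 : c₀ ≤ 1
  e₁0 : 0 ≤ e₁
  eU0 : 0 ≤ eU
  ec0 : 0 ≤ ec
  η0 : 0 ≤ η
  G0 : 0 < g m
  lc : 1 + Real.log c ≤ δ * c₀ * g m
  hx : (x : ℝ) ≤ δ * g m
  hD : Real.log (2 * D + 1) ≤ A * g m
  hη : η * A ≤ δ
  h1 : e₁ ≤ δ * g m
  hU : eU ≤ δ * c₀ * g m
  hc : ec ≤ δ * g m
  hF : eF ≤ δ * g m
  hL : eL ≤ δ * g m
  hb : (b : ℝ) ≤ δ * g m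
  hk : ∀ k ≤ m, (((g k / b : ℕ) : ℝ) + 1) * (c₀ * g k) ≤ δ * g m
  hl : ∀ k ≤ m, Real.log (2 * (g k + 1)) ≤ δ * g m
  h0 : (i 0 : ℝ) ≤ δ * g m

theorem cor_sml {Ω 𝒮 𝒵 𝒵' : Type} [Fintype Ω] {p : Ω → ℝ} (hp : IsLaw p)
    {c J w NU NV lam x D m b : ℕ} {i g : ℕ → ℕ}
    {τ c₀ e₁ eU ec eF eL η : ℝ} {l : Ω → Ln} {h : Ω → Cht} {f : Ω → Frm} {T : Ω → ℕ}
    {Y el : Ω → ℤ} {q : ℕ → Ω → Lbl} {cs : Ω → 𝒮} {zz : ℕ → Ω → 𝒵} {zd : Ω → 𝒵'} {δ A : ℝ}
    (hτ : 0 < τ) (hδ : 0 < δ) (hs : Sml c m b x D i g δ A c₀ e₁ eU ec eF eL η)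
    (H : CorN p c J w NU NV lam x D m b i g τ c₀ e₁ eU ec eF eL η l h f T Y el q cs zz zd) :
    τ * (g m * Real.log 2) ≤ Kt τ m * (δ * g m) := by
  obtain ⟨hc1, hb1, hc₀, hc₀1, he₁, heU, hec, hη0, hG0, hlc, hx, hD, hη, h1, hU, hc, hF, hL, hb, hk,
    hl, h0⟩ := hs
  have hc' : (1 : ℝ) ≤ c := by exact_mod_cast hc1
  obtain ⟨L, hLd⟩ : ∃ L : ℝ, L = 1 + Real.log c := ⟨_, rfl⟩
  have hL1 : 1 ≤ L := by
    rw [hLd]
    have := Real.log_nonneg hc'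
    linarith
  obtain ⟨E, hE⟩ : ∃ E : ℝ, E = δ * g m := ⟨_, rfl⟩
  have hGr : (0 : ℝ) < g m := by exact_mod_cast hG0
  have hE0 : 0 < E := by rw [hE]; positivity
  have hcE : δ * c₀ * g m = c₀ * E := by rw [hE]; ring
  rw [hcE] at hlc hU
  rw [← hE] at hx h1 hc hF hL hb h0
  rw [← hLd] at hlc
  have hcE' : c₀ * E ≤ E := by nlinarith
  have hLE : L ≤ E := hlc.trans hcE'
  have c2 : (1 : ℝ) ≤ (c : ℝ) ^ 2 := one_le_pow₀ hc'
  have c3 : (1 : ℝ) ≤ (c : ℝ) ^ 3 := one_le_pow₀ hc'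
  have c12 : (c : ℝ) ^ 3 ≤ (c : ℝ) ^ 12 := pow_le_pow_right₀ hc' (by norm_num)
  have hCC : (CC c : ℝ) = 40 * (c : ℝ) ^ 3 := by
    unfold CC
    push_cast
    ring
  have hpx : (1 : ℝ) ≤ 2 ^ x := one_le_pow₀ (by norm_num)
  -- the logarithms
  have l7 : Real.log 7 ≤ 3 := log_le_nat (n := 3) (by norm_num) (by norm_num)
  have l11 : Real.log 11 ≤ 4 := log_le_nat (n := 4) (by norm_num) (by norm_num)
  have l70 : 0 ≤ Real.log 7 := Real.log_nonneg (by norm_num)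
  have l110 : 0 ≤ Real.log 11 := Real.log_nonneg (by norm_num)
  have l2 : Real.log 2 ≤ 1 := by
    have := Real.log_two_lt_d9
    linarith
  have b1 : Real.log (2 * ((40 * c ^ 3 : ℕ) : ℝ) + 1) ≤ 7 * L := by
    have := log_le_L hc1 (a := 2 * ((40 * c ^ 3 : ℕ) : ℝ) + 1) (n := 7) (k := 3) (N := 7) (y := 0)
      (by positivity) (by push_cast; nlinarith) le_rfl (by norm_num)
    rw [hLd]
    push_cast at this ⊢
    linarith
  have b2 : Real.log (2 * ((CC c : ℕ) : ℝ) + 5) ≤ 7 * L := by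
    have := log_le_L hc1 (a := 2 * ((CC c : ℕ) : ℝ) + 5) (n := 7) (k := 3) (N := 7) (y := 0)
      (by positivity) (by rw [hCC]; nlinarith) le_rfl (by norm_num)
    rw [hLd]
    push_cast at this ⊢
    linarith
  have b3 : Real.log (2 * (((30 * c ^ 3 : ℕ) : ℝ) + 2) + 1) ≤ 7 * L := by
    have := log_le_L hc1 (a := 2 * (((30 * c ^ 3 : ℕ) : ℝ) + 2) + 1) (n := 7) (k := 3) (N := 7)
      (y := 0) (by positivity) (by push_cast; nlinarith) le_rfl (by norm_num)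
    rw [hLd]
    push_cast at this ⊢
    linarith
  have b4 : Real.log (2 * (((30 * c ^ 3 : ℕ) : ℝ) + 2 * ((CC c : ℕ) : ℝ) + 6) + 1) ≤ 8 * L := by
    have := log_le_L hc1 (a := 2 * (((30 * c ^ 3 : ℕ) : ℝ) + 2 * ((CC c : ℕ) : ℝ) + 6) + 1)
      (n := 8) (k := 3) (N := 8) (y := 0) (by positivity) (by rw [hCC]; push_cast; nlinarith)
      le_rfl (by norm_num)
    rw [hLd]
    push_cast at this ⊢
    linarith
  have b5 : Real.log (2 * ((CC c : ℝ) + 1) + 1) ≤ 7 * L := by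
    have := log_le_L hc1 (a := 2 * ((CC c : ℝ) + 1) + 1) (n := 7) (k := 3) (N := 7) (y := 0)
      (by positivity) (by rw [hCC]; nlinarith) le_rfl (by norm_num)
    rw [hLd]
    push_cast at this ⊢
    linarith
  have b6 : Real.log (2 * (((13 * c ^ 2 : ℕ) : ℝ) + 1) + 1) ≤ 5 * L := by
    have := log_le_L hc1 (a := 2 * (((13 * c ^ 2 : ℕ) : ℝ) + 1) + 1) (n := 5) (k := 2) (N := 5)
      (y := 0) (by positivity) (by push_cast; nlinarith) le_rfl (by norm_num)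
    rw [hLd]
    push_cast at this ⊢
    linarith
  have b7 : Real.log (2 * (((2 * CC c * 2 ^ x : ℕ) : ℝ) + 1) + 1) ≤ 8 * L + x := by
    have := log_le_L hc1 (a := 2 * (((2 * CC c * 2 ^ x : ℕ) : ℝ) + 1) + 1) (n := 8) (k := 3)
      (N := 8) (y := x) (by positivity) (by
        push_cast
        rw [hCC]
        have : (1 : ℝ) ≤ (c : ℝ) ^ 3 * 2 ^ x := by
          calc (1 : ℝ) = 1 * 1 := by ring
            _ ≤ (c : ℝ) ^ 3 * 2 ^ x := mul_le_mul c3 hpx zero_le_one (by positivity)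
        nlinarith) le_rfl (by norm_num)
    rw [hLd]
    push_cast at this ⊢
    linarith
  have b8 : Real.log (2 * (((30 * (CC c) ^ 4 * (2 ^ x) ^ 3 : ℕ) : ℝ) + 1) + 1) ≤
      28 * L + 3 * x := by
    have := log_le_L hc1 (a := 2 * (((30 * (CC c) ^ 4 * (2 ^ x) ^ 3 : ℕ) : ℝ) + 1) + 1) (n := 28)
      (k := 12) (N := 28) (y := 3 * x) (by positivity) (by
        push_cast
        rw [hCC]
        have e1 : (2 : ℝ) ^ (3 * x) = (2 ^ x) ^ 3 := by rw [mul_comm, pow_mul]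
        have e2 : (40 * (c : ℝ) ^ 3) ^ 4 = 2560000 * (c : ℝ) ^ 12 := by ring
        rw [e1, e2]
        have p1 : (1 : ℝ) ≤ (2 ^ x) ^ 3 := one_le_pow₀ hpx
        have p2 : (1 : ℝ) ≤ (c : ℝ) ^ 12 := one_le_pow₀ hc'
        have : (1 : ℝ) ≤ (c : ℝ) ^ 12 * (2 ^ x) ^ 3 := by
          calc (1 : ℝ) = 1 * 1 := by ring
            _ ≤ (c : ℝ) ^ 12 * (2 ^ x) ^ 3 := mul_le_mul p2 p1 zero_le_one (by positivity)
        nlinarith) le_rfl (by norm_num)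
    rw [hLd]
    push_cast at this ⊢
    linarith
  have b9 : Real.log (2 * (((2 * c * 2 ^ i 0 : ℕ) : ℝ) + 1) + 1) ≤ 3 * L + i 0 := by
    have := log_le_L hc1 (a := 2 * (((2 * c * 2 ^ i 0 : ℕ) : ℝ) + 1) + 1) (n := 3)
      (k := 1) (N := 3) (y := i 0) (by positivity) (by
        push_cast
        have p1 : (1 : ℝ) ≤ 2 ^ i 0 := one_le_pow₀ (by norm_num)
        have : (1 : ℝ) ≤ (c : ℝ) * 2 ^ i 0 := by
          calc (1 : ℝ) = 1 * 1 := by ring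
            _ ≤ (c : ℝ) * 2 ^ i 0 := mul_le_mul hc' p1 zero_le_one (by positivity)
        nlinarith) le_rfl (by norm_num)
    rw [hLd]
    push_cast at this ⊢
    linarith
  have b10 : ∀ k ≤ m, Real.log (nlb 1 (CC c) (g k)) ≤ E + 21 * L := by
    intro k hk'
    have e1 : (nlb 1 (CC c) (g k) : ℝ) =
        ((g k : ℝ) + 1) * ((4 * (CC c : ℝ) + 3) * (4 * (CC c : ℝ) ^ 2 + 5)) := by
      unfold nlb
      push_cast
      ring
    rw [e1, Real.log_mul (by positivity) (by positivity)]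
    have h3 := log_le_L hc1 (a := (4 * (CC c : ℝ) + 3) * (4 * (CC c : ℝ) ^ 2 + 5)) (n := 21)
      (k := 9) (N := 21) (y := 0) (by positivity) (by
        rw [hCC]
        have e2 : (c : ℝ) ^ 9 = (c : ℝ) ^ 3 * (c : ℝ) ^ 6 := by ring
        have e3 : (c : ℝ) ^ 6 = (c : ℝ) ^ 3 * (c : ℝ) ^ 3 := by ring
        have p1 : 4 * (40 * (c : ℝ) ^ 3) + 3 ≤ 2 ^ 8 * (c : ℝ) ^ 3 := by nlinarith
        have p2 : 4 * (40 * (c : ℝ) ^ 3) ^ 2 + 5 ≤ 2 ^ 13 * (c : ℝ) ^ 6 := by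
          rw [e3]
          nlinarith
        calc (4 * (40 * (c : ℝ) ^ 3) + 3) * (4 * (40 * (c : ℝ) ^ 3) ^ 2 + 5) ≤
            (2 ^ 8 * (c : ℝ) ^ 3) * (2 ^ 13 * (c : ℝ) ^ 6) :=
              mul_le_mul p1 p2 (by positivity) (by positivity)
          _ = 2 ^ 21 * (c : ℝ) ^ 9 * 2 ^ 0 := by ring) le_rfl (by norm_num)
    have h4 := hl k hk'
    rw [← hE] at h4
    have h5 : Real.log ((g k : ℝ) + 1) ≤ Real.log (2 * (g k + 1)) := by
      refine Real.log_le_log (by positivity) ?_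
      have : (0 : ℝ) ≤ g k := Nat.cast_nonneg _
      linarith
    rw [← hLd] at h3
    push_cast at h3
    linarith
  -- the bound
  have hηD : η * Real.log (2 * D + 1) ≤ E := by
    have h3 : η * Real.log (2 * D + 1) ≤ η * (A * g m) := mul_le_mul_of_nonneg_left hD hη0
    have h4 : η * (A * g m) = (η * A) * g m := by ring
    rw [h4] at h3
    have h5 := mul_le_mul_of_nonneg_right hη hGr.le
    rw [hE]
    linarith
  obtain ⟨e₁', he₁'⟩ : ∃ e₁' : ℝ, e₁' = (e₁ + 2 * Real.log 11) + 4 * Real.log 7 := ⟨_, rfl⟩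
  obtain ⟨eU', heU'⟩ : ∃ eU' : ℝ, eU' = eU + Real.log 7 +
    Real.log (2 * (40 * c ^ 3 : ℕ) + 1) := ⟨_, rfl⟩
  obtain ⟨ec', hec'⟩ : ∃ ec' : ℝ, ec' = ec + Real.log (2 * (40 * c ^ 3 : ℕ) + 1) := ⟨_, rfl⟩
  have q1 : e₁' ≤ 21 * E := by rw [he₁']; linarith
  have q2 : eU' ≤ 11 * (c₀ * E) := by rw [heU']; linarith
  have q3 : ec' ≤ 8 * E := by rw [hec']; linarith
  have heU'0 : 0 ≤ eU' := by
    rw [heU']
    have : 0 ≤ Real.log (2 * (40 * c ^ 3 : ℕ) + 1) := Real.log_nonneg (by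
      have : (0 : ℝ) ≤ ((40 * c ^ 3 : ℕ) : ℝ) := Nat.cast_nonneg _
      linarith)
    linarith
  have q4 : 2 * eU' / c₀ ≤ 22 * E := by
    rw [div_le_iff₀ hc₀]
    linarith
  have hX : ∀ k ≤ m, XU (g k) b τ c₀ e₁' eU' (120 * E) ≤ 121 * E + 283 * E / τ := by
    intro k hk'
    have h3 := hk k hk'
    rw [← hE] at h3
    have h4 : (((g k / b : ℕ) : ℝ) + 1) * (c₀ * (g k * Real.log 2)) ≤ E := by
      have h5 : (((g k / b : ℕ) : ℝ) + 1) * (c₀ * (g k * Real.log 2)) =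
        ((((g k / b : ℕ) : ℝ) + 1) * (c₀ * g k)) * Real.log 2 := by ring
      rw [h5]
      have h6 : 0 ≤ (((g k / b : ℕ) : ℝ) + 1) * (c₀ * g k) := by positivity
      have h7 : 0 ≤ Real.log 2 := Real.log_nonneg (by norm_num)
      nlinarith
    have h5 : (e₁' + 2 * eU' / c₀ + 2 * (120 * E)) / τ ≤ 283 * E / τ := by
      refine div_le_div_of_nonneg_right ?_ hτ.le
      linarith
    unfold XU
    linarith
  have main := cor_law hp hc1 hb1 (H.corL hp hc1 hc₀) hτ hc₀ (by linarith) heU hec he₁' heU' hec'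
    (err := 120 * E) (X := 121 * E + 283 * E / τ) (by
      intro k hk'
      have h3 := hl k hk'
      rw [← hE] at h3
      have h4 := b10 k hk'
      have h5 : (b : ℝ) * Real.log 2 ≤ E := by
        have : (0 : ℝ) ≤ b := Nat.cast_nonneg b
        have h7 : 0 ≤ Real.log 2 := Real.log_nonneg (by norm_num)
        nlinarith
      linarith) hX (es := Real.log (2 * ((13 * c ^ 2 : ℕ) + 1) + 1)) rfl
  have hLF : LF (CC c) x D η ≤ 65 * L + 5 * x + 5 * E := by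
    unfold LF
    nlinarith
  have hm : (0 : ℝ) ≤ m := Nat.cast_nonneg m
  have hdE : 283 * E / τ = 283 / τ * E := by ring
  rw [hdE] at main
  have hdτ : 0 < 283 / τ := by positivity
  have s1 : (m : ℝ) * (3 * (3 * (121 * E + 283 / τ * E) + (Real.log 7 + 3 * Real.log 11 +
      2 * Real.log 7) + Real.log (2 * ((13 * c ^ 2 : ℕ) + 1) + 1)) +
      (4 * Real.log (2 * ((CC c : ℝ) + 1) + 1) + LF (CC c) x D η)) ≤
      m * (9 * (121 * E + 283 / τ * E) + 181 * E) := by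
    refine mul_le_mul_of_nonneg_left ?_ hm
    linarith
  refine main.trans ?_
  rw [← hE]
  have hKt : Kt τ m * E = 2 * (121 * E + 283 / τ * E) + 181 * E +
      m * (9 * (121 * E + 283 / τ * E) + 181 * E) := by
    unfold Kt
    ring
  rw [hKt]
  linarith

/-- **The corner at one ball is impossible.** -/
theorem cor_false {τ : ℝ} (hτ : 0 < τ) (m : ℕ) : ∃ δ : ℝ, 0 < δ ∧
    ∀ {Ω 𝒮 𝒵 𝒵' : Type} [Fintype Ω] {p : Ω → ℝ}, IsLaw p →
    ∀ {c J w NU NV lam x D b : ℕ} {i g : ℕ → ℕ}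
    {c₀ e₁ eU ec eF eL η : ℝ} {l : Ω → Ln} {h : Ω → Cht} {f : Ω → Frm} {T : Ω → ℕ}
    {Y el : Ω → ℤ} {q : ℕ → Ω → Lbl} {cs : Ω → 𝒮} {zz : ℕ → Ω → 𝒵} {zd : Ω → 𝒵'} {A : ℝ},
    Sml c m b x D i g δ A c₀ e₁ eU ec eF eL η →
    ¬ CorN p c J w NU NV lam x D m b i g τ c₀ e₁ eU ec eF eL η l h f T Y el q cs zz zd := by
  have hK : 0 < Kt τ m := by
    unfold Kt
    positivity
  refine ⟨τ / (4 * Kt τ m), by positivity, ?_⟩
  intro Ω 𝒮 𝒵 𝒵' _ p hp c J w NU NV lam x D b i g c₀ e₁ eU ec eF eL η l h f T Y el q cs zz zd A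
    hs H
  have h1 := cor_sml hp hτ (by positivity) hs H
  have hG : (0 : ℝ) < g m := by exact_mod_cast hs.G0
  have h2 : Kt τ m * (τ / (4 * Kt τ m) * g m) = τ / 4 * g m := by
    field_simp
  rw [h2] at h1
  have h3 : (1 : ℝ) / 2 ≤ Real.log 2 := by
    have := Real.log_two_gt_d9
    linarith
  have h4 : τ * (g m * (1 / 2)) ≤ τ * (g m * Real.log 2) :=
    mul_le_mul_of_nonneg_left (mul_le_mul_of_nonneg_left h3 hG.le) hτ.le
  have h5 : 0 < τ * g m := by positivity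
  nlinarith

end Pool.OWN17
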