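import Pool.Agent.H17.COR.Numl
import Pool.Agent.H17.COR.Nat4

/-!
# The structure `CorN` from the numbers of a law

`corN_of`: the entropies of the structure `CorN` from `CorA` and the numbers `NumP` of the law and of
its large parts.
-/

set_option autoImplicit false

namespace Pool.OWN17

open Finset Real
open Pool.Agent.H49.Ent Pool.Agent.H32.Dense Pool.STK Pool.CH30 Pool.KM7 Pool.OWN68 Pool.SAT43

section

variable {Ω : Type} [Fintype Ω] {p : Ω → ℝ} {ι Z Y' 𝒮 𝒵' : Type}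

variable {c J w NU NV b N m I : ℕ} {n γ : ℕ → ℕ} {δ : ℝ}
  {l : Ω → Ln} {h : Ω → Cht} {f : Ω → Frm} {T : Ω → ℕ} {Y el : Ω → ℤ} {Au Av : Ω → ℝ}
  {cs : Ω → 𝒮} {zd : Ω → 𝒵'} {xw : ι → ℝ} {z : ι → Ω → Z} {y : Ω → Y'}
  {u v : ι → ι → Ω → ℤ × ℤ} {tX tD : ℕ → ι} {aU aV dU dV : ℕ → ℝ} {gJ fD : ι → ι → ℝ} {κ e : ℝ}

/-- The natural digits determine the digits of the heights. -/
theorem ch_Nd (hp : IsLaw p) {S₁ : Type} (X : Ω → S₁) (i : ℕ) :
    CH p X (Nd J w NU NV i l h T Y cs) ≤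
      CH p X (fun ω => ((hgU J w (NU + i) l h T ω, hgV J w (NV + i) l h T ω),
        Nd J w NU NV i l h T Y cs ω)) := by
  refine CH_mono_cond hp.nonneg fun ω ω' _ _ hh => ?_
  have h1 : Nd J w NU NV i l h T Y cs ω = Nd J w NU NV i l h T Y cs ω' := hh
  have h2 := h1
  simp only [Nd, Prod.mk.injEq] at h2
  obtain ⟨⟨⟨a1, a2⟩, -⟩, -⟩ := h2
  simp only [a1, a2, h1]

/-- **The structure `CorN` from the numbers of a law.** -/
theorem corN_of (hp : IsLaw p) {lam x D : ℕ} {τ c₀ E₁ eU ec η : ℝ} (hc₀1 : c₀ ≤ 1)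
    (hc₀ : 0 < c₀) {q : ℕ → Ω → Lbl}
    (H : CorA p c J w NU NV b N m I n γ δ l h f T Y el Au Av cs zd xw z y u v tX tD aU aV dU dV)
    (M : ∀ E : Ω → Prop, c₀ ≤ law p E True →
      NumP (Pool.Agent.H49.Ent.cond p E True) xw z y u v gJ fD κ e el zd cs T Y)
    (hs : ∀ k < m, n (k + 1) = n k + γ k) (hγ : ∀ k ≤ m, γ k ≤ n k)
    (hlam : N * b ≤ lam) (hx : ∀ k ≤ m, x ≤ γ k * b) (hxl : x + 1 ≤ lam)
    (hD : 4 * c * 2 ^ (N * b) ≤ D)
    (hel : ∀ ω, 0 < p ω → |(l ω).e - (el ω : ℝ) / 2 ^ lam| ≤ 1 / 2 ^ lam)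
    (hu0 : ∀ ω, 0 < p ω → |(l ω).hu (h ω) (tT J w (T ω))| ≤ c / 2 ^ NU) (hdh : Det p cs h)
    (hgN : ∀ k ≤ m, ∀ ω, 0 < p ω →
      GeoN c w NU NV (n k * b) (γ k * b) (l ω) (h ω) (f ω) (q k ω))
    (hU : ∀ k ≤ m, (γ k * b : ℕ) * Real.log 2 - eU ≤
      CH p (hgU J w (NU + n k * b + γ k * b) l h T)
        (fun ω => (q k ω, (Rd J w NU NV (n k * b) l h T cs ω, (T ω, Y ω)))))
    (hc : ∀ k ≤ m, (γ k * b : ℕ) * Real.log 2 - ec ≤
      CH p (fun ω => cT J w (γ k * b) (T ω))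
        (fun ω => (q k ω, (Rd J w NU NV (n k * b) l h T cs ω, (fT J w (γ k * b) (T ω),
          DY J w (rfo w NU NV (n k * b) l h) T Y ω)))))
    (hup : ∀ t t', t ≤ t' → t' ≤ N → gJ (tX t) (tX t') - fD (tX t) (tX t') ≤
      (2 - τ) * (((t' : ℝ) - t) * b * Real.log 2) + E₁)
    (hlo : (2 - τ) * ((γ m : ℝ) * b * Real.log 2) - E₁ ≤
      gJ (tX (n m)) (tX (n m + γ m)) - fD (tX (n m)) (tX (n m + γ m)))
    (hzn : ∀ k < m, Det p (z (tX (n (k + 1)))) (z (tX (n k))))
    (hzd : Det p zd (z (tX (n m)))) (hz0 : Det p (z (tX (n m))) (z (tX (n m))))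
    (sep : law (P2 p (Kd J w NU NV (n m * b) (n m * b + γ m * b) l h f T Y cs zd))
      (fun v => |(l v.1).e - (l v.2).e| * 2 ^ x < 2) True ≤ η)
    (trn : ∀ k ≤ m, law (P2 p (Kd J w NU NV (n m * b) (n m * b + γ m * b) l h f T Y cs zd))
      (fun v => |(q k v.1).f3 - (q k v.2).f3| * 2 ^ x < 3 * (2 ^ NU / 2 ^ NV)) True ≤ η) :
    CorN p c J w NU NV lam x D m b (fun k => n k * b) (fun k => γ k * b) τ c₀
      (E₁ + (8 * κ + 7 * e + Ec c δ)) eU ec (e + Ec c δ) (E₁ + (8 * κ + 13 * e + Ec c δ)) η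
      l h f T Y el q cs (fun k => z (tX (n k))) zd := by
  classical
  have h0 := hp.nonneg
  have hc1 := H.dpl.c1
  have hNk : ∀ k ≤ m, (n k + γ k) * b ≤ N * b := fun k hk => Nat.mul_le_mul_right b (H.nN k hk)
  have hp1 : Pool.Agent.H49.Ent.cond p (fun _ : Ω => True) True = p := by
    funext ω
    unfold Pool.Agent.H49.Ent.cond law
    simp [hp.sum_one]
  have hM : NumP p xw z y u v gJ fD κ e el zd cs T Y := by
    have h1 := M (fun _ => True) (by
      have : law p (fun _ : Ω => True) True = 1 := by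
        unfold law
        simp [hp.sum_one]
      rw [this]
      exact hc₀1)
    rwa [hp1] at h1
  -- the upper bound at the places
  have up : ∀ (E : Ω → Prop), c₀ ≤ law p E True → ∀ k ≤ m, ∀ t ≤ γ k,
      CH (Pool.Agent.H49.Ent.cond p E True) (fun ω => (hgU J w (NU + n k * b + γ k * b) l h T ω,
        hgV J w (NV + n k * b + γ k * b) l h T ω))
        (fun ω => ((hgU J w (NU + n k * b + t * b) l h T ω,
          hgV J w (NV + n k * b + t * b) l h T ω), Nd J w NU NV (n k * b) l h T Y cs ω)) ≤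
        (2 - τ) * (((γ k * b : ℕ) : ℝ) - (t * b : ℕ)) * Real.log 2 +
          (E₁ + (8 * κ + 7 * e + Ec c δ)) := by
    intro E hE k hk t ht
    have hEp : 0 < law p E True := lt_of_lt_of_le hc₀ hE
    have hq : IsLaw (Pool.Agent.H49.Ent.cond p E True) :=
      ⟨cond_nonneg hp.nonneg E True, sum_cond p E hEp.ne'⟩
    have hsup : ∀ ω, 0 < Pool.Agent.H49.Ent.cond p E True ω → 0 < p ω := fun ω hω =>
      ((cond_pos_iff h0 E True ω).1 hω).1
    have k1 := up_of hq (H.sub hsup) (M E hE) hk ht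
    have k2 := hup (n k + t) (n k + γ k) (by omega) (H.nN k hk)
    have e1 : (((n k + γ k : ℕ) : ℝ) - (n k + t : ℕ)) * b = ((γ k * b : ℕ) : ℝ) - (t * b : ℕ) := by
      push_cast
      ring
    rw [e1] at k2
    refine k1.trans ?_
    have e2 : (2 - τ) * (((γ k * b : ℕ) : ℝ) - (t * b : ℕ)) * Real.log 2 =
      (2 - τ) * ((((γ k * b : ℕ) : ℝ) - (t * b : ℕ)) * Real.log 2) := by ring
    rw [e2]
    linarith
  refine ⟨fun k hk => ?_, fun k hk => ?_, fun k hk => ?_, hx, hxl, fun k hk => ?_, fun k hk => ?_,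
    H.dpl.geo, hel, hu0, H.dpl.yc, hdh, hgN, hU, hc, fun k hk => ?_, fun k hk E hE j hj hbj => ?_,
    hzn, hzd, sep, trn, ?_, ?_⟩
  · show n (k + 1) * b = n k * b + γ k * b
    rw [hs k hk, add_mul]
  · exact Nat.mul_le_mul_right b (hγ k hk)
  · show n k * b + γ k * b ≤ lam
    rw [← add_mul]
    exact (hNk k hk).trans hlam
  · show 4 * c * 2 ^ (n k * b + γ k * b) ≤ D
    rw [← add_mul]
    exact (Nat.mul_le_mul_left _ (Nat.pow_le_pow_right (by norm_num) (hNk k hk))).trans hD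
  · show w + n k * b + γ k * b ≤ J
    rw [add_assoc, ← add_mul]
    have h1 := hNk k hk
    have h2 := H.NI
    have h3 := H.dpl.wJ
    omega
  · have h1 : law p (fun _ : Ω => True) True = 1 := by
      unfold law
      simp [hp.sum_one]
    have k1 := up (fun _ => True) (by rw [h1]; exact hc₀1) k hk 0 (Nat.zero_le _)
    rw [hp1, zero_mul, add_zero, add_zero] at k1
    have k2 := ch_Nd hp (J := J) (w := w) (NU := NU) (NV := NV) (l := l) (h := h) (T := T) (Y := Y)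
      (cs := cs) (fun ω => (hgU J w (NU + n k * b + γ k * b) l h T ω,
        hgV J w (NV + n k * b + γ k * b) l h T ω)) (n k * b)
    refine (k2.trans k1).trans (le_of_eq ?_)
    push_cast
    ring
  · obtain ⟨t, ht⟩ := hbj
    have htb : j = t * b := by rw [ht, mul_comm]
    rcases Nat.eq_zero_or_pos b with hb | hb
    · have hj0 : j = 0 := by rw [htb, hb, mul_zero]
      have k1 := up E hE k hk 0 (Nat.zero_le _)
      have e0 : (0 : ℕ) * b = 0 := by rw [zero_mul]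
      rw [e0] at k1
      rw [hj0]
      refine k1.trans (le_of_eq ?_)
      push_cast
      ring
    · have htγ : t ≤ γ k := by
        have : t * b ≤ γ k * b := by rw [← htb]; exact hj
        exact Nat.le_of_mul_le_mul_right this hb
      have k1 := up E hE k hk t htγ
      rw [htb]
      refine k1.trans (le_of_eq ?_)
      push_cast
      ring
  · exact fr_of hp H hM _
  · have k1 := lo_of hp H hM (zz := z (tX (n m))) hz0
    have e1 : (2 - τ) * (((γ m * b : ℕ) : ℝ) * Real.log 2) =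
        (2 - τ) * ((γ m : ℝ) * b * Real.log 2) := by
      push_cast
      ring
    rw [e1]
    linarith

end

end Pool.OWN17
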