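import Pool.Agent.H17.COR.Bxf
import Pool.Agent.H62.P3.Exb
import Pool.Agent.H72.OWN.Act

/-!
# The numbers of a pair over one active coordinate

`num_lin_loc`: the numbers are linear, if they are numbers over small intervals. `box_no`: the
defect of the numbers at one resolution is small. `cor_num`: the slopes of the numbers.
-/

set_option autoImplicit false

namespace Pool.OWN17

open Finset Real MvPolynomial Filter Topology MeasureTheory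
open Pool.Agent.H49.Ent Pool.Agent.H32.Dense Pool.STK Pool.KA Pool.KSAT Pool.K2S Pool.PB Pool.S6C
  Pool.GEN Pool.RCD Pool.LA91 Pool.MIC6 Pool.REX Pool.REX83 Pool.OWN72 Pool.OWN43
open Pool.GRD (LbP)
open Pool.KM7 (P2)

variable {m : ℕ}

/-- The windows of a pair have the derivative `S` with the gap `φ` at `x`. -/
def Der (U D : ℚ → ℝ) (x u φ S : ℝ) : Prop :=
  ∀ e : ℝ, 0 < e → ∃ r₀ : ℝ, 0 < r₀ ∧ ∀ r : ℝ, 0 < r → r < r₀ → ∀ w : ℚ, x - r ≤ w →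
    (w : ℝ) ≤ x + r → |U w - (u + S * (w - x))| ≤ e * r ∧ |D w - (u + φ + S * (w - x))| ≤ e * r

/-- The numbers with a constant are linear at `x` with slope `f`. -/
def Lnn (U D : ℚ → ℝ) (n : ℚ → ℚ → ℚ → ℝ) (x φ f C : ℝ) : Prop :=
  ∀ e : ℝ, 0 < e → ∃ r₀ : ℝ, 0 < r₀ ∧ ∀ r : ℝ, 0 < r → r < r₀ → ∀ w o : ℚ, x - r ≤ w →
    w ≤ o → (o : ℝ) ≤ x + r → (∀ g : ℝ, g < φ - 2 * (e * r) → GC U D g w o) ∧
      ∀ g : ℚ, φ - 8 * (e * r) ≤ g → (g : ℝ) < φ - 2 * (e * r) →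
        |n g w o - f * (o - w)| ≤ C * (e * r)

/-- The windows are close on an interval. -/
def Cls (U : ℚ → ℝ) (s lam : ℝ) (A B : ℚ) : Prop :=
  ∀ w o : ℚ, (A : ℝ) < w → w ≤ o → (o : ℝ) < B → U o < U w + min lam (1 - ((o : ℝ) + s))

/-- **The numbers are linear** in the boxes of almost every point. -/
theorem num_lin_loc {U D : ℚ → ℝ} {A B c s lam : ℝ} (H : UD U D A B) {n : ℚ → ℚ → ℚ → ℝ}
    (hc : 0 ≤ c) (N : ∀ A' B' : ℚ, A ≤ A' → (A' : ℝ) < B' → (B' : ℝ) ≤ B → Cls U s lam A' B' →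
      NumG U D n A' B' (B' - A') c) :
    ∀ᵐ x : ℝ, ∃ f : ℝ, 0 ≤ f ∧ ∀ u φ S : ℝ, 0 ≤ S → Der U D x u φ S →
      (∃ A' B' : ℚ, A ≤ A' ∧ (A' : ℝ) < x ∧ x < B' ∧ (B' : ℝ) ≤ B ∧ Cls U s lam A' B') →
      Lnn U D n x φ f (1 + 10 * c) := by
  have h : ∀ p : ℚ × ℚ, ∀ᵐ x : ℝ, A ≤ p.1 → (p.2 : ℝ) ≤ B → Cls U s lam p.1 p.2 →
      (p.1 : ℝ) < x → x < p.2 → ∃ f : ℝ, 0 ≤ f ∧ ∀ u φ S : ℝ, 0 ≤ S → Der U D x u φ S →
        Lnn U D n x φ f (1 + 10 * c) := by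
    intro p
    by_cases h0 : A ≤ p.1 ∧ (p.1 : ℝ) < p.2 ∧ (p.2 : ℝ) ≤ B ∧ Cls U s lam p.1 p.2
    · obtain ⟨h1, h2, h3, h4⟩ := h0
      have hH : UD U D p.1 p.2 :=
        ⟨fun w a b => H.u0 w (by linarith) (by linarith),
          fun w a b => H.d0 w (by linarith) (by linarith),
          fun w o a b d => H.um w o (by linarith) b (by linarith),
          fun w o a b d => H.dm w o (by linarith) b (by linarith)⟩
      have k := num_lin hH (lam := (p.2 : ℝ) - p.1) (by linarith) hc (N p.1 p.2 h1 h2 h3 h4)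
      filter_upwards [k] with x hx a b d e1 e2
      obtain ⟨f, hf, hx⟩ := hx ⟨e1, e2⟩
      refine ⟨f, hf, fun u φ S hS hder e he => ?_⟩
      obtain ⟨r₀, hr₀, hr⟩ := hx u φ S hS hder e he
      refine ⟨r₀, hr₀, fun r hr0 hr1 w o q1 q2 q3 => ?_⟩
      obtain ⟨k1, k2⟩ := hr r hr0 hr1 w o q1 q2 q3
      exact ⟨fun g hg => k1 g hg.le hg, k2⟩
    · refine Filter.Eventually.of_forall fun x a b d e1 e2 => absurd ⟨a, ?_, b, d⟩ h0
      linarith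
  have h' := ae_all_iff.2 h
  filter_upwards [h'] with x hx
  by_cases hp : ∃ p : ℚ × ℚ, A ≤ p.1 ∧ (p.1 : ℝ) < x ∧ x < p.2 ∧ (p.2 : ℝ) ≤ B ∧
      Cls U s lam p.1 p.2
  · obtain ⟨p, q1, q2, q3, q4, q5⟩ := hp
    obtain ⟨f, hf, h1⟩ := hx p q1 q4 q5 q2 q3
    exact ⟨f, hf, fun u φ S hS hder _ => h1 u φ S hS hder⟩
  · refine ⟨0, le_rfl, fun u φ S _ _ hex => absurd ?_ hp⟩
    obtain ⟨A', B', q1, q2, q3, q4, q5⟩ := hex
    exact ⟨(A', B'), q1, q2, q3, q4, q5⟩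

/-- The windows are close near a point with a derivative. -/
theorem cls_of_der {U D : ℚ → ℝ} {A B x u φ S s lam : ℝ} (hA : A < x) (hB : x < B)
    (hS : 0 ≤ S) (hder : Der U D x u φ S) (hlam : 0 < lam) (hx : x + s < 1) :
    ∃ A' B' : ℚ, A ≤ A' ∧ (A' : ℝ) < x ∧ x < B' ∧ (B' : ℝ) ≤ B ∧ Cls U s lam A' B' := by
  obtain ⟨r₀, hr₀, hr⟩ := hder 1 one_pos
  obtain ⟨μ, hμ⟩ : ∃ μ, μ = min lam ((1 - (x + s)) / 2) := ⟨_, rfl⟩
  have hμ0 : 0 < μ := by rw [hμ]; exact lt_min hlam (by linarith)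
  have hμ1 : μ ≤ lam := by rw [hμ]; exact min_le_left _ _
  have hμ2 : μ ≤ (1 - (x + s)) / 2 := by rw [hμ]; exact min_le_right _ _
  obtain ⟨r, hr0, r1, r2, r3, r4⟩ : ∃ r : ℝ, 0 < r ∧ r < r₀ ∧ r ≤ x - A ∧ r ≤ B - x ∧
      (2 * S + 4) * r ≤ μ := by
    refine ⟨min (r₀ / 2) (min (x - A) (min (B - x) (μ / (2 * S + 4)))), ?_, ?_, ?_, ?_, ?_⟩
    · exact lt_min (by linarith) (lt_min (by linarith) (lt_min (by linarith) (by positivity)))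
    · exact lt_of_le_of_lt (min_le_left _ _) (by linarith)
    · exact (min_le_right _ _).trans (min_le_left _ _)
    · exact (min_le_right _ _).trans ((min_le_right _ _).trans (min_le_left _ _))
    · have h1 : min (r₀ / 2) (min (x - A) (min (B - x) (μ / (2 * S + 4)))) ≤ μ / (2 * S + 4) :=
        (min_le_right _ _).trans ((min_le_right _ _).trans (min_le_right _ _))
      rw [le_div_iff₀ (by linarith)] at h1
      linarith
  obtain ⟨A', a1, a2⟩ := exists_rat_btwn (show x - r < x by linarith)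
  obtain ⟨B', b1, b2⟩ := exists_rat_btwn (show x < x + r by linarith)
  refine ⟨A', B', by linarith, a2, b1, by linarith, fun w o h1 h2 h3 => ?_⟩
  have h2' : (w : ℝ) ≤ o := by exact_mod_cast h2
  have k1 := abs_le.1 (hr r hr0 r1 w (by linarith) (by linarith)).1
  have k2 := abs_le.1 (hr r hr0 r1 o (by linarith) (by linarith)).1
  have k3 : S * ((o : ℝ) - x) - S * (w - x) ≤ S * (2 * r) := by
    rw [← mul_sub]
    exact mul_le_mul_of_nonneg_left (by linarith) hS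
  have k4 : U o - U w < μ := by nlinarith
  have k5 : μ ≤ min lam (1 - ((o : ℝ) + s)) := by
    refine le_min hμ1 ?_
    nlinarith
  linarith

/-- The number of a window is continuous at a point with a derivative. -/
theorem cont_of_der {L₀ : ℝ → ℝ} (hmono : ∀ t t' : ℝ, t ≤ t' → L₀ t ≤ L₀ t') {G : Set ℚ} {s : ℝ}
    {U D : ℚ → ℝ} (hU : ∀ q ∈ G, U q = L₀ ((q : ℝ) + s)) {A B : ℝ}
    (hG : ∀ q : ℚ, A < q → (q : ℝ) < B → q ∈ G) {x u φ S : ℝ} (hA : A < x) (hB : x < B)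
    (hS : 0 ≤ S) (hder : Der U D x u φ S) : ContinuousAt L₀ (x + s) ∧ L₀ (x + s) = u := by
  have key : ∀ ε : ℝ, 0 < ε → ∃ δ : ℝ, 0 < δ ∧ ∀ t : ℝ, |t - (x + s)| < δ → |L₀ t - u| ≤ ε := by
    intro ε hε
    obtain ⟨r₀, hr₀, hr⟩ := hder 1 one_pos
    obtain ⟨r, hr0, r1, r2, r3, r4⟩ : ∃ r : ℝ, 0 < r ∧ r < r₀ ∧ r ≤ x - A ∧ r ≤ B - x ∧
        (S + 1) * r ≤ ε := by
      refine ⟨min (r₀ / 2) (min (x - A) (min (B - x) (ε / (S + 1)))), ?_, ?_, ?_, ?_, ?_⟩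
      · exact lt_min (by linarith) (lt_min (by linarith) (lt_min (by linarith) (by positivity)))
      · exact lt_of_le_of_lt (min_le_left _ _) (by linarith)
      · exact (min_le_right _ _).trans (min_le_left _ _)
      · exact (min_le_right _ _).trans ((min_le_right _ _).trans (min_le_left _ _))
      · have h1 : min (r₀ / 2) (min (x - A) (min (B - x) (ε / (S + 1)))) ≤ ε / (S + 1) :=
          (min_le_right _ _).trans ((min_le_right _ _).trans (min_le_right _ _))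
        rw [le_div_iff₀ (by linarith)] at h1
        linarith
    obtain ⟨w₁, a1, a2⟩ := exists_rat_btwn (show x - r < x - r / 2 by linarith)
    obtain ⟨w₂, b1, b2⟩ := exists_rat_btwn (show x + r / 2 < x + r by linarith)
    refine ⟨r / 2, by linarith, fun t ht => ?_⟩
    rw [abs_lt] at ht
    have k1 := abs_le.1 (hr r hr0 r1 w₁ (by linarith) (by linarith)).1
    have k2 := abs_le.1 (hr r hr0 r1 w₂ (by linarith) (by linarith)).1
    have k3 := hmono (w₁ + s) t (by linarith)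
    have k4 := hmono t (w₂ + s) (by linarith)
    rw [← hU w₁ (hG w₁ (by linarith) (by linarith))] at k3
    rw [← hU w₂ (hG w₂ (by linarith) (by linarith))] at k4
    have k5 : S * ((w₂ : ℝ) - x) ≤ S * r := mul_le_mul_of_nonneg_left (by linarith) hS
    have k6 : S * (-r) ≤ S * ((w₁ : ℝ) - x) := mul_le_mul_of_nonneg_left (by linarith) hS
    rw [abs_le]
    constructor <;> linarith
  have hval : L₀ (x + s) = u := by
    by_contra hne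
    have h1 : 0 < |L₀ (x + s) - u| := abs_pos.2 (sub_ne_zero.2 hne)
    obtain ⟨δ, hδ, h2⟩ := key (|L₀ (x + s) - u| / 2) (by linarith)
    have h3 := h2 (x + s) (by rw [sub_self, abs_zero]; exact hδ)
    linarith
  refine ⟨?_, hval⟩
  rw [Metric.continuousAt_iff]
  intro ε hε
  obtain ⟨δ, hδ, h⟩ := key (ε / 2) (by linarith)
  refine ⟨δ, hδ, fun t ht => ?_⟩
  rw [Real.dist_eq] at ht ⊢
  rw [hval]
  have := h t ht
  linarith

theorem dl_le_one {τ : ℝ} (hτ : 0 < τ) (h1 : τ ≤ 1) (m : ℕ) : dl τ m ≤ 1 := by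
  have hK : 1 ≤ Kt τ m := by
    unfold Kt
    have h2 : 0 < 283 / τ := by positivity
    have h3 : (0 : ℝ) ≤ m := Nat.cast_nonneg m
    have h4 : (2 : ℝ) * 121 ≤ (2 + 9 * (m : ℝ)) * (121 + 283 / τ) :=
      mul_le_mul (by linarith) (by linarith) (by norm_num) (by linarith)
    nlinarith
  unfold dl
  rw [div_le_one (by linarith)]
  linarith

/-- **The slopes of the numbers of a pair** over one active coordinate. -/
theorem cor_num (hFn : ∀ k, 1 ≤ k → k ≤ 3 → FZX k) {S : PCl m} (hS : S.Ne) {C₀ : ℝ} (hC₀ : 0 ≤ C₀)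
    (htm : TmC S C₀)
    (hpos : ∀ (τ : ℝ) (J : ℕ) (F : Fam m J) (A : F.Ω → Prop), S.St τ J F A → 0 < Pe F.p A)
    {L : Finset (Fin m) → Fin m → ℝ → ℝ → ℝ} (hL : LamW S L)
    {Ns : Finset (Fin m) → ℝ → ℝ → ℝ} (hNs : ActN S Ns) {Na : ℚ → ℚ → ℝ} {al : ℝ} {g₀ : ℝ → ℝ}
    (hal : 0 < al) (hg₀ : ∀ e, 0 < e → 0 < g₀ e) (hM : ActM Na al g₀) {y u v : Fin m}
    (hB : ActB Na S y) (hact : ActF S y) (hyu : y ≠ u) (hyv : y ≠ v) (huv : u ≠ v) {G : Set ℚ}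
    {s : ℝ} {U D : ℚ → ℝ} (H : WinG S {y} u v G s U D) {A B : ℝ}
    (hG : ∀ q : ℚ, A < q → (q : ℝ) < B → q ∈ G)
    (hUL : ∀ q ∈ G, U q = L {y} u ((q : ℝ) + s) ((q : ℝ) + s))
    (hDL : ∀ q ∈ G, D q = L {y, u} v ((q : ℝ) + s) ((q : ℝ) + s))
    (hGd : ∀ q ∈ G, Gdw L y u v ((q : ℝ) + s))
    (hη : ∀ q : ℚ, 0 ≤ (q : ℝ) + s → (q : ℝ) + s ≤ 1 →
      ∃ η, RNum S (fun J F => ptr F J) (vg ((q : ℝ) + s)) η) :
    ∃ (S' : PCl m) (nX nD : ℕ → ℚ → ℚ → ℚ → ℝ), S'.Ne ∧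
      (∀ (τ : ℝ) (J : ℕ) (F : Fam m J) (A : F.Ω → Prop), S'.St τ J F A → S.St τ J F A) ∧
      (∀ (i : ℕ) (g w o : ℚ), w ∈ G → o ∈ G → w ≤ o → g + U w ≤ D w →
        U o < U w + min ((1 / 2 : ℝ) ^ i) (1 - ((o : ℝ) + s)) →
        NN S' (fun J F => ptr F J) (vg ((w : ℝ) + s)) (fun J F => yF F y ⌊(1 / 2 : ℝ) ^ i * J⌋₊)
          ((gX m {y} u v s U g w o).prod (gD m {y} u v s U g w o)) (nX i g w o) ∧
        NN S' (fun J F => ptr F J) (vg ((w : ℝ) + s)) (fun J F => yF F y ⌊(1 / 2 : ℝ) ^ i * J⌋₊)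
          (gD m {y} u v s U g w o) (nD i g w o)) ∧
      ∀ᵐ x : ℝ, x ∈ Set.Ioo A B → ∃ fX fD : ℕ → ℝ, ∀ u₀ φ Sl : ℝ, x + s < u₀ → 0 ≤ φ →
        u₀ + φ < 1 → 1 < Sl → Der U D x u₀ φ Sl →
        L {y} u (x + s) (x + s) ≤ L {y} v (x + s) (x + s) →
        (∃ a₀ a : ℝ, 0 ≤ a₀ ∧ a₀ < a ∧ a < 1 ∧ u₀ - (x + s) < L {y} u a₀ a₀ - a) →
        (∃ a₀ a : ℝ, 0 ≤ a₀ ∧ a₀ < a ∧ a < 1 ∧ u₀ - (x + s) < L {y} v a₀ a₀ - a) →
        (∀ i, Lnn U D (nX i) x φ (fX i) (1 + 10 * (6 * Real.log 2)) ∧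
          Lnn U D (nD i) x φ (fD i) (1 + 10 * (6 * Real.log 2))) ∧
        ∀ τ : ℝ, 0 < τ → ∃ i₀ : ℕ, ∀ i ≥ i₀, (2 - τ) * (Sl * Real.log 2) ≤ fX i - fD i := by
  classical
  have hl2 : 0 < Real.log 2 := Real.log_pos one_lt_two
  have hud := H.ud hG
  have hf : ∀ (J : ℕ) (F : Fam m J), ∃ φ : PtT F → PtT F, ∀ ω, ptr F J ω = φ (ptr F J ω) :=
    fun J F => ⟨id, fun _ => rfl⟩
  have hηG : ∀ q ∈ G, ∃ η, RNum S (fun J F => ptr F J) (vg ((q : ℝ) + s)) η :=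
    fun q hq => hη q (H.w0 q hq).le (H.w1 q hq).le
  -- the numbers
  obtain ⟨S₁, hS₁, sub₁, nX, nD, hNN⟩ := num_gP hS htm hpos H (f := fun J F => ptr F J) hf
    (fun i J F => yF F y ⌊(1 / 2 : ℝ) ^ i * J⌋₊) (lam := fun i => (1 / 2 : ℝ) ^ i)
    (fun i => kn_yF y _)
  have hpos₁ : ∀ (τ : ℝ) (J : ℕ) (F : Fam m J) (A : F.Ω → Prop), S₁.St τ J F A → 0 < Pe F.p A :=
    fun τ J F A h => hpos τ J F A (sub₁ τ J F A h)
  have htm₁ : TmC S₁ C₀ := fun τ J F A hτ h => htm τ J F A hτ (sub₁ τ J F A h)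
  have H₁ := H.sub sub₁
  -- the free digits
  obtain ⟨η, hη'⟩ : ∃ η : ℚ → ℝ, ∀ w : ℚ, -s ≤ w → (w : ℝ) ≤ 1 - s →
      RNum S (fun J F => ptr F J) (vg ((w : ℝ) + s)) (η w) := by
    have h1 : ∀ w : ℚ, ∃ e : ℝ, -s ≤ w → (w : ℝ) ≤ 1 - s →
        RNum S (fun J F => ptr F J) (vg ((w : ℝ) + s)) e := by
      intro w
      by_cases h : -s ≤ w ∧ (w : ℝ) ≤ 1 - s
      · obtain ⟨e, he⟩ := hη w (by linarith [h.1]) (by linarith [h.2])
        exact ⟨e, fun _ _ => he⟩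
      · exact ⟨0, fun a b => absurd ⟨a, b⟩ h⟩
    choose η h2 using h1
    exact ⟨η, h2⟩
  obtain ⟨S₂, hS₂, sub₂, θ, hθ, hfree⟩ := free_dir hS₁ hpos₁ y (s := s) (A := -s) (B := 1 - s)
    (η := η) (fun w a b => (hη' w a b).sub sub₁)
  have sub₂₀ : ∀ (τ : ℝ) (J : ℕ) (F : Fam m J) (A : F.Ω → Prop), S₂.St τ J F A → S.St τ J F A :=
    fun τ J F A h => sub₁ τ J F A (sub₂ τ J F A h)
  have hpos₂ : ∀ (τ : ℝ) (J : ℕ) (F : Fam m J) (A : F.Ω → Prop), S₂.St τ J F A → 0 < Pe F.p A :=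
    fun τ J F A h => hpos τ J F A (sub₂₀ τ J F A h)
  have htm₂ : TmC S₂ C₀ := fun τ J F A hτ h => htm τ J F A hτ (sub₂₀ τ J F A h)
  have hNN₂ : ∀ (i : ℕ) (g w o : ℚ), w ∈ G → o ∈ G → w ≤ o → g + U w ≤ D w →
        U o < U w + min ((1 / 2 : ℝ) ^ i) (1 - ((o : ℝ) + s)) →
        NN S₂ (fun J F => ptr F J) (vg ((w : ℝ) + s)) (fun J F => yF F y ⌊(1 / 2 : ℝ) ^ i * J⌋₊)
          ((gX m {y} u v s U g w o).prod (gD m {y} u v s U g w o)) (nX i g w o) ∧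
        NN S₂ (fun J F => ptr F J) (vg ((w : ℝ) + s)) (fun J F => yF F y ⌊(1 / 2 : ℝ) ^ i * J⌋₊)
          (gD m {y} u v s U g w o) (nD i g w o) := by
    intro i g w o a b c d e
    obtain ⟨h1, h2⟩ := hNN i g w o a b c d e
    exact ⟨NN.sub sub₂ h1, NN.sub sub₂ h2⟩
  refine ⟨S₂, nX, nD, hS₂, sub₂₀, hNN₂, ?_⟩
  -- the numbers are linear
  have hlin : ∀ i : ℕ, ∀ᵐ x : ℝ, ∃ f : ℝ × ℝ, ∀ u φ S : ℝ, 0 ≤ S → Der U D x u φ S →
      (∃ A' B' : ℚ, A ≤ A' ∧ (A' : ℝ) < x ∧ x < B' ∧ (B' : ℝ) ≤ B ∧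
        Cls U s ((1 / 2 : ℝ) ^ i) A' B') →
      Lnn U D (nX i) x φ f.1 (1 + 10 * (6 * Real.log 2)) ∧
      Lnn U D (nD i) x φ f.2 (1 + 10 * (6 * Real.log 2)) := by
    intro i
    have hng : ∀ A' B' : ℚ, A ≤ A' → (A' : ℝ) < B' → (B' : ℝ) ≤ B →
        Cls U s ((1 / 2 : ℝ) ^ i) A' B' →
        NumG U D (nX i) A' B' (B' - A') (6 * Real.log 2) ∧
          NumG U D (nD i) A' B' (B' - A') (6 * Real.log 2) := by
      intro A' B' h1 h2 h3 h4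
      exact numg_gP hS₁ htm₁ hpos₁ H₁ (f := fun J F => ptr F J) hf
        (fun q hq => by
          obtain ⟨e, he⟩ := hηG q hq
          exact ⟨e, he.sub sub₁⟩) (kn_yF y ((1 / 2 : ℝ) ^ i)) (nX := nX i) (nD := nD i)
        (fun g w o a b c d e => hNN i g w o a b c d e) (A := (A' : ℝ)) (B := (B' : ℝ))
        (lam' := (B' : ℝ) - A') (fun q a b => hG q (by linarith) (by linarith))
        (fun w o a b c _ => h4 w o a b c)
    filter_upwards [num_lin_loc (s := s) (lam := (1 / 2 : ℝ) ^ i) hud (n := nX i)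
      (c := 6 * Real.log 2) (by positivity) (fun A' B' a b c d => (hng A' B' a b c d).1),
      num_lin_loc (s := s) (lam := (1 / 2 : ℝ) ^ i) hud (n := nD i) (c := 6 * Real.log 2)
      (by positivity) (fun A' B' a b c d => (hng A' B' a b c d).2)] with x h1 h2
    obtain ⟨f1, -, h1⟩ := h1
    obtain ⟨f2, -, h2⟩ := h2
    exact ⟨(f1, f2), fun u φ S hS hd hex => ⟨h1 u φ S hS hd hex, h2 u φ S hS hd hex⟩⟩
  filter_upwards [ae_all_iff.2 hlin, hfree] with x hx hfx hxAB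
  choose f hf' using hx
  refine ⟨fun i => (f i).1, fun i => (f i).2, fun u₀ φ Sl hxu hφ hφ1 hS1 hder huv1 hdu hdv =>
    ?_⟩
  have hSl0 : 0 ≤ Sl := by linarith
  have hxs0 : 0 ≤ x + s := by
    by_contra hcon
    push Not at hcon
    obtain ⟨q, q1, q2⟩ := exists_rat_btwn (show max A (x - 1) < x from max_lt hxAB.1 (by linarith))
    have h1 := H.w0 q (hG q (lt_of_le_of_lt (le_max_left _ _) q1) (by linarith [hxAB.2]))
    linarith
  have hlinx : ∀ i, Lnn U D (nX i) x φ (f i).1 (1 + 10 * (6 * Real.log 2)) ∧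
      Lnn U D (nD i) x φ (f i).2 (1 + 10 * (6 * Real.log 2)) := fun i =>
    hf' i u₀ φ Sl hSl0 hder (cls_of_der hxAB.1 hxAB.2 hSl0 hder (by positivity) (by linarith))
  refine ⟨hlinx, fun τ hτ => ?_⟩
  obtain ⟨hcont, hval⟩ := cont_of_der (L₀ := fun t => L {y} u t t)
    (fun t t' h => hL.mono _ _ _ _ _ _ _ (Finset.Subset.refl _) h h) hUL hG hxAB.1 hxAB.2 hSl0
    hder
  have hxA' : x ∈ Set.Ioo (-s) (1 - s) := by
    constructor
    · obtain ⟨q, q1, q2⟩ := exists_rat_btwn hxAB.1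
      have h1 := H.w0 q (hG q q1 (by linarith [hxAB.2]))
      linarith
    · linarith
  obtain ⟨rf, hrf, hfr⟩ := hfx hxA'
  -- the scheme
  obtain ⟨τ₀, hτ₀d⟩ : ∃ τ₀, τ₀ = min τ 1 := ⟨_, rfl⟩
  have hτ₀ : 0 < τ₀ := by rw [hτ₀d]; exact lt_min hτ one_pos
  have hτ₀1 : τ₀ ≤ 1 := by rw [hτ₀d]; exact min_le_right _ _
  have hτ₀τ : τ₀ ≤ τ := by rw [hτ₀d]; exact min_le_left _ _
  obtain ⟨M, hMd⟩ : ∃ M : ℝ, M = max 1 (Sl - 1) := ⟨_, rfl⟩
  have hM1 : 1 ≤ M := by rw [hMd]; exact le_max_left _ _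
  have hMS : Sl - 1 ≤ M := by rw [hMd]; exact le_max_right _ _
  have hM0 : 0 < M := by linarith
  have hτM : τ₀ / (4 * M) ≤ 1 := by
    rw [div_le_one (by linarith)]
    linarith
  obtain ⟨mp, N', n, γ, hs, hγn, hγt, hγ1, hnN', h1γ, h0γ⟩ := exists_sch hτ₀ (t := τ₀ / (4 * M))
    (by positivity) hτM
  obtain ⟨N, hN⟩ : ∃ N, N = 2 * N' := ⟨_, rfl⟩
  obtain ⟨ρ, hρ⟩ : ∃ ρ : ℕ → ℕ, ρ = fun k => ⌊(n k : ℝ) / M⌋₊ := ⟨_, rfl⟩
  have hρM : ∀ k, (ρ k : ℝ) * M ≤ n k := fun k => by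
    have h1 : (ρ k : ℝ) ≤ n k / M := by
      rw [hρ]
      exact Nat.floor_le (by positivity)
    rwa [le_div_iff₀ hM0] at h1
  have hρτ : ∀ k, (γ k : ℝ) + 1 ≤ τ₀ * ρ k := fun k => by
    have h1 : (n k : ℝ) / M - 1 < ρ k := by
      rw [hρ]
      exact Nat.sub_one_lt_floor _
    have h2 := hγt k
    have h3 : (1 : ℝ) ≤ γ k := by exact_mod_cast hγ1 k
    have h4 : τ₀ / (4 * M) * n k = τ₀ * (n k / M) / 4 := by
      field_simp
    rw [h4] at h2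
    have h5 := mul_le_mul_of_nonneg_left h1.le hτ₀.le
    linarith
  have hργ : ∀ k, γ k ≤ ρ k := fun k => by
    have h1 := hρτ k
    have h2 : τ₀ * (ρ k : ℝ) ≤ ρ k := mul_le_of_le_one_left (Nat.cast_nonneg _) hτ₀1
    have h3 : (γ k : ℝ) ≤ ρ k := by linarith
    exact_mod_cast h3
  have hρn : ∀ k, ρ k ≤ n k := fun k => by
    have h1 := hρM k
    have h2 : (ρ k : ℝ) * 1 ≤ ρ k * M := mul_le_mul_of_nonneg_left hM1 (Nat.cast_nonneg _)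
    have h3 : (ρ k : ℝ) ≤ n k := by linarith
    exact_mod_cast h3
  have hnN : ∀ k ≤ mp, n k + γ k ≤ N ∧ n k + ρ k ≤ N ∧ γ k ≤ ρ k ∧
      (ρ k : ℝ) * (Sl - 1) ≤ n k := fun k hk => by
    have h1 := hnN' k hk
    have h2 := hγn k
    have h3 := hρn k
    refine ⟨by omega, by omega, hργ k, le_trans ?_ (hρM k)⟩
    exact mul_le_mul_of_nonneg_left hMS (Nat.cast_nonneg _)
  have hddp : 0 < dl τ₀ mp := dl_pos hτ₀ mp
  have hdd1 : dl τ₀ mp ≤ 1 := dl_le_one hτ₀ hτ₀1 mp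
  obtain ⟨c₀, hc₀d⟩ : ∃ c₀ : ℝ, c₀ = 1 / ((N' + 1) * (N' + 1)) := ⟨_, rfl⟩
  have hN'1 : (1 : ℝ) ≤ N' + 1 := by
    have : (0 : ℝ) ≤ N' := Nat.cast_nonneg _
    linarith
  have hc₀ : 0 < c₀ := by rw [hc₀d]; positivity
  have hc₁ : c₀ ≤ 1 := by
    rw [hc₀d, div_le_one (by positivity)]
    nlinarith
  have hkc : ∀ k ≤ mp, ((γ k : ℝ) + 1) * (c₀ * γ k) ≤ dl τ₀ mp * γ mp := by
    intro k hk
    refine le_trans ?_ h1γ
    have h1 : (γ k : ℝ) ≤ N' := by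
      have := hnN' k hk
      exact_mod_cast (by omega : γ k ≤ N')
    have h0 : (0 : ℝ) ≤ γ k := Nat.cast_nonneg _
    have h2 : ((γ k : ℝ) + 1) * γ k ≤ (N' + 1) * (N' + 1) :=
      mul_le_mul (by linarith) (by linarith) h0 (by linarith)
    have h3 : ((γ k : ℝ) + 1) * (c₀ * γ k) = c₀ * (((γ k : ℝ) + 1) * γ k) := by ring
    rw [h3, hc₀d, div_mul_eq_mul_div, one_mul, div_le_one (by positivity)]
    exact h2
  obtain ⟨c, hcd⟩ : ∃ c, c = dl τ₀ mp * c₀ / 1000 := ⟨_, rfl⟩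
  have hdc1 : dl τ₀ mp * c₀ ≤ 1 := mul_le_one₀ hdd1 hc₀.le hc₁
  have hc : 0 < c := by rw [hcd]; positivity
  have hc1 : c ≤ 1 / 1000 := by rw [hcd]; linarith
  obtain ⟨a₀, a, ha₀, haa, ha1, hda⟩ := hdu
  obtain ⟨b₀, b, hb₀, hbb, hb1, hdb⟩ := hdv
  obtain ⟨i₀, hi₀⟩ := hfr (c * (Sl - 1) / (2 * (N + 1))) (by
    have : (0 : ℝ) ≤ N := Nat.cast_nonneg _
    have h2 : 0 < Sl - 1 := by linarith
    positivity)
  refine ⟨i₀, fun i hi => ?_⟩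
  by_contra hcon
  push Not at hcon
  have hcon2 : (f i).1 - (f i).2 < (2 - τ₀) * (Sl * Real.log 2) := by
    refine lt_of_lt_of_le hcon ?_
    exact mul_le_mul_of_nonneg_right (by linarith) (by positivity)
  have hSlog : 0 < Sl * Real.log 2 := by positivity
  obtain ⟨τ', hτ'⟩ : ∃ τ', τ' = 2 - ((f i).1 - (f i).2) / (Sl * Real.log 2) := ⟨_, rfl⟩
  have hτ'e : (f i).1 - (f i).2 = (2 - τ') * (Sl * Real.log 2) := by
    rw [hτ', sub_sub_cancel, div_mul_cancel₀ _ hSlog.ne']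
  have hτ'0 : τ₀ ≤ τ' := by
    have h1 : ((f i).1 - (f i).2) / (Sl * Real.log 2) < 2 - τ₀ := by
      rw [div_lt_iff₀ hSlog]
      exact hcon2
    rw [hτ']
    linarith
  -- the active scales
  obtain ⟨ra, hra, -, hact'⟩ := act_pt hS (pos_bas hpos) hNs (κ := y) hal hg₀ hM hB
    (θ := c / (N + 3)) (by positivity)
  -- the box
  obtain ⟨β, g, q, q₁, b₂, hβ₁, R, hab, hdeep⟩ := exists_box hud hxAB hS1 hφ hxu hφ1
    (lam := (1 / 2 : ℝ) ^ i) (by positivity) hder (nJ := nX i) (nD := nD i) (fJ := (f i).1)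
    (fD := (f i).2) (C := 1 + 10 * (6 * Real.log 2)) (by positivity)
    (fun e he => by
      obtain ⟨r1, hr1, k1⟩ := (hlinx i).1 e he
      obtain ⟨r2, hr2, k2⟩ := (hlinx i).2 e he
      refine ⟨min r1 r2, lt_min hr1 hr2, fun r hr0 hr w o p1 p2 p3 => ?_⟩
      have j1 := k1 r hr0 (lt_of_lt_of_le hr (min_le_left _ _)) w o p1 p2 p3
      have j2 := k2 r hr0 (lt_of_lt_of_le hr (min_le_right _ _)) w o p1 p2 p3
      exact ⟨j1.1, fun g hg1 hg2 => ⟨j1.2 g hg1 hg2, j2.2 g hg1 hg2⟩⟩)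
    (mp := mp) (N := N) (n := n) (γ := γ) (ρ := ρ) hnN hτ'e hc hc1 (θE := θ i)
    ⟨rf, hrf, fun r hr0 hr w w' p1 p2 p3 => hi₀ i hi r hr0 hr w w' p1 p2 p3⟩
    (β₁ := ra / (N + 3)) (by positivity) (ℓ := min (L {y} u a₀ a₀ - a) (L {y} v b₀ b₀ - b))
    (lt_min hda hdb)
  have hβ0 := R.β0
  have hQ : ∀ j, q j ∈ G := fun j => hG _ (R.qAB j).1 (R.qAB j).2
  have hcβ : 0 < c * β := by positivity
  have hNβ : 0 ≤ N * β := by positivity
  have hβra : (N + 3) * β ≤ ra := by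
    have h1 := hβ₁
    rw [le_div_iff₀ (by positivity)] at h1
    linarith
  have hcβ1 : c * β ≤ β := by nlinarith
  have hone := R.one
  have hub := R.ub
  have hbb2 := R.bb
  have hg0 : -(c * β) ≤ (g : ℝ) := R.g0
  have hWb1 := R.Wb
  have hq₁G : q₁ ∈ G := by
    refine hG _ ?_ R.q1B
    have h1 := R.b2
    linarith [hxAB.1]
  have hpt : ∀ (bw : ℝ) (P : ℝ), bw ≤ b₂ → 0 ≤ P → P + c * β ≤ N * β + 3 * (c * β) →
      ∃ p al : ℝ, 0 < p ∧ p < 1 / 2 ∧ 0 < al ∧ P < (1 - bw) * p ∧ (1 - bw) * p < P + c * β ∧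
        Act (Ns {y}) ((1 - bw) * p) al := by
    intro bw P hbw hP hPQ
    have hbw1 : 0 < 1 - bw := by linarith
    obtain ⟨p, p1, p2, al', hal', hA'⟩ := hact' P (P + c * β) hP (by linarith) (by linarith) (by
      rw [div_mul_eq_mul_div, div_le_iff₀ (by positivity)]
      have h1 : c * (P + c * β) ≤ c * ((N + 3) * β) :=
        mul_le_mul_of_nonneg_left (by linarith) hc.le
      linarith)
    refine ⟨p / (1 - bw), al', div_pos (by linarith) hbw1, ?_, hal', ?_, ?_, ?_⟩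
    · rw [div_lt_iff₀ hbw1]
      linarith
    · rw [mul_div_cancel₀ _ hbw1.ne']
      exact p1
    · rw [mul_div_cancel₀ _ hbw1.ne']
      exact p2
    · rw [mul_div_cancel₀ _ hbw1.ne']
      exact hA'
  have hnkβ : ∀ k ≤ mp, (n k : ℝ) * β ≤ N * β ∧ 0 ≤ (n k : ℝ) * β := fun k hk => by
    refine ⟨mul_le_mul_of_nonneg_right ?_ hβ0.le, by positivity⟩
    have := hnN k hk
    exact_mod_cast (by omega : n k ≤ N)
  have hℓu := hdeep.trans (min_le_left _ _)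
  have hℓv := hdeep.trans (min_le_right _ _)
  exact box_false hFn hS₂ hC₀ htm₂ hpos₂ (hL.sub sub₂₀)
    (actN_of_bas (fun Φ hb => Bas.sub sub₂₀ hb) hNs) (actF_subc sub₂₀ hact) hyu hyv huv
    (H.sub sub₂₀) hG hUL hDL hGd (fun q hq => by
      obtain ⟨e, he⟩ := hηG q hq
      exact ⟨e, he.sub sub₂₀⟩) R
    (fun j j' h => (hNN₂ i g _ _ (hQ j) (hQ j') h (R.gD j) (R.cl j j' h)).1)
    (fun j j' h => (hNN₂ i g _ _ (hQ j) (hQ j') h (R.gD j) (R.cl j j' h)).2)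
    (hθ i _ (by linarith [H.w0 _ (hQ (bX mp N 0))]) (by linarith [H.w1 _ (hQ (bX mp N 0))]))
    (hθ i _ (by linarith [H.w0 _ (hQ (bO mp N))]) (by linarith [H.w1 _ (hQ (bO mp N))])) hab hτ₀
    hτ'0 hs hγn hγ1 h1γ h0γ (fun k _ => by
      have h1 := hρτ k
      have h3 : τ₀ * ρ k ≤ τ' * ρ k := mul_le_mul_of_nonneg_right hτ'0 (Nat.cast_nonneg _)
      linarith) hc₀ hc₁ hkc hdd1 (by rw [hcd]; linarith) hcont huv1 (hUL q₁ hq₁G) (hDL q₁ hq₁G)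
    ha₀ haa ha1 hℓu hb₀ hbb hb1 hℓv
    (fun k hk => by
      obtain ⟨p, al', j1, j2, j3, j4, j5, j6⟩ := hpt (x + s) (n k * β + c * β) hbb2.le
        (by linarith [(hnkβ k hk).2]) (by linarith [(hnkβ k hk).1])
      exact ⟨p, al', j1, j2, j3, j4, by linarith, j6⟩)
    (fun k hk => by
      obtain ⟨p, al', j1, j2, j3, j4, j5, j6⟩ := hpt b₂ (n k * β + 2 * (c * β)) le_rfl
        (by linarith [(hnkβ k hk).2]) (by linarith [(hnkβ k hk).1])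
      exact ⟨p, al', j1, j2, j3, j4, by linarith, j6⟩)

end Pool.OWN17
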