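import Pool.Agent.H17.COR.Cnm
import Pool.Agent.H83.OWN.Nrc

/-!
# The near digits of a pair are full given its velocities

`near_pr`: near digits of the pair given the velocities, for finitely many windows. `cor_near`: they
are full, with the first digits of the direction of the active coordinate as side information.
-/

set_option autoImplicit false

namespace Pool.OWN17

open Finset Real MvPolynomial Filter Topology MeasureTheory
open Pool.Agent.H49.Ent Pool.Agent.H32.Dense Pool.STK Pool.KA Pool.KSAT Pool.K2S Pool.PB Pool.S6C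
  Pool.GEN Pool.RCD Pool.LA91 Pool.MIC6 Pool.REX Pool.REX83 Pool.OWN72 Pool.OWN43
open Pool.OWN83 (FinRel RN near_fin)

variable {m : ℕ}

/-- No quantity. -/
def qUn (m : ℕ) : Qt m Unit := Qt.fn (fun _ _ _ => ())

section

variable {U U' : Type} {α β γ : ∀ J : ℕ, Fam m J → Type} {S : PCl m}
  {f : ∀ (J : ℕ) (F : Fam m J), F.Ω → α J F} {g : ∀ (J : ℕ) (F : Fam m J), F.Ω → β J F}
  {y : ∀ (J : ℕ) (F : Fam m J), F.Ω → γ J F}

theorem few_own {Q' : Qt m U'}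
    (hpos : ∀ (τ : ℝ) (J : ℕ) (F : Fam m J) (A : F.Ω → Prop), S.St τ J F A → 0 < Pe F.p A)
    (h : Few0 S f g y Q') : Few S f g y (qUn m) Q' := by
  intro c hc
  obtain ⟨e, he, H⟩ := h c hc
  refine ⟨e, he, fun K => Bas.mono 0 ((H K).and (pos_bas hpos)) ?_⟩
  rintro J - F A ⟨H, hA⟩ u u' - hu'
  obtain ⟨V, z, hz, h1⟩ := H u' hu'
  refine ⟨V, z, hz, le_trans (CH_mono_cond (isLaw_cond F.isLaw hA).nonneg ?_) h1⟩
  intro ω ω' _ _ hh
  simp only [Prod.mk.injEq] at hh ⊢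
  exact hh.2

theorem rn_of_nn {Q : Qt m U} {θ : ℝ}
    (hpos : ∀ (τ : ℝ) (J : ℕ) (F : Fam m J) (A : F.Ω → Prop), S.St τ J F A → 0 < Pe F.p A)
    (N : NN S f g y Q θ) : RN S f g y (qUn m) Q θ := by
  intro h hh
  obtain ⟨k, hk, e₀, he₀, H⟩ := N h hh
  refine ⟨k, hk, e₀, he₀, fun K => Bas.mono 0 ((H K).and (pos_bas hpos)) ?_⟩
  rintro J - F A ⟨H, hA⟩ V z hz u₀ u - hu
  have h1 := H V z hz u hu
  have h2 : CH (Pool.Agent.H49.Ent.cond F.p A True) u (fun ω => (z ω, (u₀ ω, y J F ω))) =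
      CH (Pool.Agent.H49.Ent.cond F.p A True) u (fun ω => (z ω, y J F ω)) := by
    refine CH_congr (isLaw_cond F.isLaw hA).nonneg ?_ ?_ ?_ ?_ <;>
    · intro ω ω' _ _ hh
      simp only [Prod.mk.injEq] at hh ⊢
      tauto
  rw [h2]
  exact h1

end

/-- **Near digits of a pair given the velocities**, for finitely many windows. -/
theorem near_pr {S : PCl m} {C₀ : ℝ} (htm : TmC S C₀)
    (hpos : ∀ (τ : ℝ) (J : ℕ) (F : Fam m J) (A : F.Ω → Prop), S.St τ J F A → 0 < Pe F.p A)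
    {I : Finset (Fin m)} {κ k' : Fin m} {G : Set ℚ} {s : ℝ} {U D : ℚ → ℝ}
    (H : WinG S I κ k' G s U D) {A B : ℝ} (hG : ∀ q : ℚ, A < q → (q : ℝ) < B → q ∈ G)
    {α γ : ∀ J : ℕ, Fam m J → Type} {f : ∀ (J : ℕ) (F : Fam m J), F.Ω → α J F}
    (hf : ∀ (J : ℕ) (F : Fam m J), ∃ φ : α J F → PtT F, ∀ ω, ptr F J ω = φ (f J F ω))
    {y : ∀ (J : ℕ) (F : Fam m J), F.Ω → γ J F} {lam : ℝ} (hy : Kn I 1 lam y)
    {ι : Type} [Finite ι] (q : ι → ℚ) (hq : ∀ i, A < q i ∧ (q i : ℝ) < B)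
    {x : ι → ℝ} (hx : ∀ i, x i = (q i : ℝ) + s) {g : ℚ}
    (hgc : ∀ i j, q i ≤ q j → GC U D g (q i) (q j))
    (hcl : ∀ i j, q i ≤ q j → U (q j) < U (q i) + min lam (1 - ((q j : ℝ) + s)))
    (hη : ∀ i, ∃ η, RNum S f (vg (x i)) η) {θJ θD : ι → ι → ℝ}
    (nJ : ∀ i j, q i ≤ q j → NN S f (vg (x i)) y
      ((gX m I κ k' s U g (q i) (q j)).prod (gD m I κ k' s U g (q i) (q j))) (θJ i j))
    (nD : ∀ i j, q i ≤ q j → NN S f (vg (x i)) y (gD m I κ k' s U g (q i) (q j)) (θD i j))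
    {κ₀ : ℝ} (hκ : 0 ≤ κ₀)
    (haJ : ∀ i j k, q i ≤ q j → q j ≤ q k → |θJ i k - θJ i j - θJ j k| ≤ κ₀)
    (haD : ∀ i j k, q i ≤ q j → q j ≤ q k → |θD i k - θD i j - θD j k| ≤ κ₀)
    {c₀ : ℝ} (hc₀ : 0 < c₀) {e : ℝ} (he : 0 < e) :
    ∃ k : ℝ, 0 < k ∧ ∃ e₀ : ℝ, 0 < e₀ ∧ ∀ K : ℕ, Bas S (fun J F A' =>
      ∀ i j j' l : ι, q i ≤ q j → q j ≤ q j' → q j' ≤ q l → j ≠ j' →
      ∀ (V₁ V₂ : Type) (z : F.Ω → V₁) (zj : F.Ω → V₂), Mx f (vg (x i)) k F A' z →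
      Mx f (vg (x j)) k F A' zj → ∀ a b d,
      (gX m I κ k' s U g (q i) (q j)).P K e₀ J F A' a →
      (gX m I κ k' s U g (q i) (q j')).P K e₀ J F A' b →
      (gD m I κ k' s U g (q i) (q l)).P K e₀ J F A' d →
      ∀ B' : F.Ω → Prop, Sub B' A' → c₀ * Pe F.p A' ≤ Pe F.p B' →
      (θJ j j' - θD j j' - 8 * κ₀ - e) * J ≤ CH (Pool.Agent.H49.Ent.cond F.p B' True) b
          (fun ω => (a ω, (d ω, (zj ω, (z ω, y J F ω)))))) := by
  have hle : ∀ {i j : ι}, x i ≤ x j ↔ q i ≤ q j := fun {i j} => by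
    rw [hx, hx]
    constructor
    · intro h
      exact_mod_cast (by linarith : (q i : ℝ) ≤ q j)
    · intro h
      have : (q i : ℝ) ≤ q j := by exact_mod_cast h
      linarith
  have hud := H.ud hG
  have hQ : ∀ i, q i ∈ G := fun i => hG _ (hq i).1 (hq i).2
  have l0 : (0 : ℕ) ≤ 1 := by norm_num
  have rel : ∀ (j' : ℕ), j' ≤ 1 → FinRel S f y x (qUn m)
      (fun i j => gP m I κ k' j' s U g (q i) (q j)) := by
    intro j' hj'
    refine ⟨fun i j hij => ?_, fun i j k hij hjk => ?_, fun i j k hij hjk => ?_, fun i j hij => ?_⟩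
    · exact exs_gP H hj' (hQ i) (GC.first hud (hq i).1 (hq j).2 (hgc i j (hle.1 hij)))
    · have hij' := hle.1 hij
      have hjk' := hle.1 hjk
      have hum := H.um (q j) (hQ j) (q k) (hQ k) hjk'
      have hjkr : (q j : ℝ) ≤ q k := by exact_mod_cast hjk'
      rw [hx]
      exact Few.snd hpos (row_gP htm hpos hf hy H hj' (hQ i) (hQ j) (hQ k) hij' hjk' le_rfl
        (by linarith) (by linarith) (hcl i k (hij'.trans hjk')))
    · have hij' := hle.1 hij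
      have hjk' := hle.1 hjk
      rw [hx]
      exact Few.snd hpos (chg_gP htm hpos hf hy H hG hj' (hq i).1 hij' hjk' (hq k).2
        (hgc i j hij') (hcl i k (hij'.trans hjk')))
    · have hij' := hle.1 hij
      rw [hx]
      exact few_own hpos (own_gP htm hpos hf hy H hG hj' (hq i).1 hij' (hq j).2 (hgc i j hij')
        (hcl i j hij'))
  have rX : FinRel S f y x (qUn m) (fun i j => gX m I κ k' s U g (q i) (q j)) := by
    have := rel 0 l0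
    simpa only [gX_eq] using this
  have rD : FinRel S f y x (qUn m) (fun i j => gD m I κ k' s U g (q i) (q j)) := by
    have := rel 1 le_rfl
    simpa only [gD_eq] using this
  obtain ⟨k, hk, e₀, he₀, hN⟩ := near_fin hpos (f := f) (y := y) (x := x) (fun i => by
      rw [hx]
      exact (H.w1 _ (hQ i)).le) rX rD hη (θJ := θJ) (θD := θD)
    (fun i j h => rn_of_nn hpos (nJ i j (hle.1 h))) (fun i j h => rn_of_nn hpos (nD i j (hle.1 h)))
    hκ (fun i j k h h' => haJ i j k (hle.1 h) (hle.1 h'))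
    (fun i j k h h' => haD i j k (hle.1 h) (hle.1 h')) hc₀ he
  refine ⟨k, hk, e₀, he₀, fun K => Bas.mono 0 ((hN K).and (pos_bas hpos)) ?_⟩
  rintro J - F A' ⟨h, hA'⟩ i j j' l h1 h2 h3 h4 V₁ V₂ z zj hz hzj a b d ha hb hd B' hB' hBA
  have h5 := (h i j j' l (hle.2 h1) (hle.2 h2) (hle.2 h3) h4 V₁ V₂ z zj hz hzj (fun _ => ()) a b d
    (fun _ _ => rfl) ha hb hd B' hB' hBA).2
  refine h5.trans ?_
  have hBp : 0 < Pe F.p B' := lt_of_lt_of_le (mul_pos hc₀ hA') hBA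
  refine CH_mono_cond (isLaw_cond F.isLaw hBp).nonneg fun ω ω' _ _ hh => ?_
  simp only [Prod.mk.injEq] at hh ⊢
  tauto

/-- The conditions at a point. -/
structure PtC (L : Finset (Fin m) → Fin m → ℝ → ℝ → ℝ) (y u v : Fin m) (U D : ℚ → ℝ) (s x u₀ φ
    Sl : ℝ) : Prop where
  xu : x + s < u₀
  φ0 : 0 ≤ φ
  φ1 : u₀ + φ < 1
  S1 : 1 < Sl
  der : Der U D x u₀ φ Sl
  uv : L {y} u (x + s) (x + s) ≤ L {y} v (x + s) (x + s)
  du : ∃ a₀ a : ℝ, 0 ≤ a₀ ∧ a₀ < a ∧ a < 1 ∧ u₀ - (x + s) < L {y} u a₀ a₀ - a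
  dv : ∃ a₀ a : ℝ, 0 ≤ a₀ ∧ a₀ < a ∧ a < 1 ∧ u₀ - (x + s) < L {y} v a₀ a₀ - a

/-- **The near digits of a pair are full given its velocities**, side information: the position and
the first digits of the direction of the active coordinate. -/
theorem cor_near (hFn : ∀ k, 1 ≤ k → k ≤ 3 → FZX k) {S : PCl m} (hS : S.Ne) {C₀ : ℝ} (hC₀ : 0 ≤ C₀)
    (htm : TmC S C₀)
    (hpos : ∀ (τ : ℝ) (J : ℕ) (F : Fam m J) (A : F.Ω → Prop), S.St τ J F A → 0 < Pe F.p A)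
    {L : Finset (Fin m) → Fin m → ℝ → ℝ → ℝ} (hL : LamW S L)
    {Ns : Finset (Fin m) → ℝ → ℝ → ℝ} (hNs : ActN S Ns) {Na : ℚ → ℚ → ℝ} {al : ℝ} {g₀ : ℝ → ℝ}
    (hal : 0 < al) (hg₀ : ∀ e, 0 < e → 0 < g₀ e) (hM : ActM Na al g₀) {y u v : Fin m}
    (hB : ActB Na S y) (hact : ActF S y) (hyu : y ≠ u) (hyv : y ≠ v) (huv : u ≠ v) {G : Set ℚ}
    {s : ℝ} {U D : ℚ → ℝ} (H : WinG S {y} u v G s U D) {A B : ℝ}
    (hG : ∀ q : ℚ, A < q → (q : ℝ) < B → q ∈ G)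
    (hUL : ∀ q ∈ G, U q = L {y} u ((q : ℝ) + s) ((q : ℝ) + s))
    (hDL : ∀ q ∈ G, D q = L {y, u} v ((q : ℝ) + s) ((q : ℝ) + s))
    (hGd : ∀ q ∈ G, Gdw L y u v ((q : ℝ) + s))
    (hη : ∀ q : ℚ, 0 ≤ (q : ℝ) + s → (q : ℝ) + s ≤ 1 →
      ∃ η, RNum S (fun J F => ptr F J) (vg ((q : ℝ) + s)) η) :
    ∃ S' : PCl m, S'.Ne ∧
      (∀ (τ : ℝ) (J : ℕ) (F : Fam m J) (A : F.Ω → Prop), S'.St τ J F A → S.St τ J F A) ∧
      ∀ᵐ x : ℝ, x ∈ Set.Ioo A B → ∀ u₀ φ Sl : ℝ, PtC L y u v U D s x u₀ φ Sl →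
        ∀ e : ℝ, 0 < e → ∃ i₀ : ℕ, ∀ i ≥ i₀, ∃ r₀ : ℝ, 0 < r₀ ∧ ∀ r : ℝ, 0 < r → r < r₀ →
        ∀ w j j' l : ℚ, x - r ≤ w → w ≤ j → j < j' → j' ≤ l → (l : ℝ) ≤ x + r →
        ∀ g : ℚ, φ - e * r ≤ g → (g : ℝ) < φ - e / 4 * r → ∀ c₀ : ℝ, 0 < c₀ →
        ∃ k : ℝ, 0 < k ∧ ∃ e₀ : ℝ, 0 < e₀ ∧ ∀ K : ℕ, Bas S' (fun J F A' =>
        ∀ (V₁ V₂ : Type) (z : F.Ω → V₁) (zj : F.Ω → V₂),
        Mx (fun J F => ptr F J) (vg ((w : ℝ) + s)) k F A' z →
        Mx (fun J F => ptr F J) (vg ((j : ℝ) + s)) k F A' zj → ∀ a b d,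
        (gX m {y} u v s U g w j).P K e₀ J F A' a → (gX m {y} u v s U g w j').P K e₀ J F A' b →
        (gD m {y} u v s U g w l).P K e₀ J F A' d →
        ∀ B' : F.Ω → Prop, Sub B' A' → c₀ * Pe F.p A' ≤ Pe F.p B' →
        (2 * (Sl * (j' - j) * Real.log 2) - 200 * (e * r)) * J ≤
          CH (Pool.Agent.H49.Ent.cond F.p B' True) b
            (fun ω => (a ω, (d ω, (zj ω, (z ω, yF F y ⌊(1 / 2 : ℝ) ^ i * J⌋₊ ω)))))) := by
  have hl2 : 0 < Real.log 2 := Real.log_pos one_lt_two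
  have hl7 : Real.log 2 ≤ 0.7 := by
    have := Real.log_two_lt_d9
    linarith
  have hud := H.ud hG
  obtain ⟨S', nX, nD, hS', sub', hNN, hae⟩ := cor_num hFn hS hC₀ htm hpos hL hNs hal hg₀ hM hB hact
    hyu hyv huv H hG hUL hDL hGd hη
  refine ⟨S', hS', sub', ?_⟩
  filter_upwards [hae] with x hx hxAB u₀ φ Sl P e he
  obtain ⟨fX, fD, hf⟩ := hx hxAB
  obtain ⟨hlin, hslo⟩ := hf u₀ φ Sl P.xu P.φ0 P.φ1 P.S1 P.der P.uv P.du P.dv
  have hSl : 0 < Sl := by linarith [P.S1]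
  obtain ⟨i₀, hi₀⟩ := hslo (e / Sl) (by positivity)
  refine ⟨i₀, fun i hi => ?_⟩
  have hsl := hi₀ i hi
  obtain ⟨C, hC⟩ : ∃ C, C = 1 + 10 * (6 * Real.log 2) := ⟨_, rfl⟩
  have hC1 : C ≤ 43 := by rw [hC]; linarith
  have hC0 : 0 ≤ C := by rw [hC]; positivity
  obtain ⟨hlX, hlD⟩ := hlin i
  rw [← hC] at hlX hlD
  obtain ⟨r1, hr1, k1⟩ := hlX (e / 8) (by positivity)
  obtain ⟨r2, hr2, k2⟩ := hlD (e / 8) (by positivity)
  have hxs1 : x + s < 1 := by linarith [P.xu, P.φ0, P.φ1]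
  obtain ⟨A', B', -, hA', hB', -, hcls⟩ := cls_of_der (s := s) (lam := (1 / 2 : ℝ) ^ i) hxAB.1
    hxAB.2 hSl.le P.der (by positivity) hxs1
  obtain ⟨r₀, hr₀, q1, q2, q3, q4, q5, q6⟩ : ∃ r₀ : ℝ, 0 < r₀ ∧ r₀ ≤ r1 ∧ r₀ ≤ r2 ∧
      r₀ ≤ x - A' ∧ r₀ ≤ B' - x ∧ r₀ ≤ x - A ∧ r₀ ≤ B - x :=
    ⟨min (min r1 r2) (min (min (x - A') (B' - x)) (min (x - A) (B - x))),
      lt_min (lt_min hr1 hr2) (lt_min (lt_min (by linarith) (by linarith))
        (lt_min (by linarith [hxAB.1]) (by linarith [hxAB.2]))),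
      (min_le_left _ _).trans (min_le_left _ _), (min_le_left _ _).trans (min_le_right _ _),
      (min_le_right _ _).trans ((min_le_left _ _).trans (min_le_left _ _)),
      (min_le_right _ _).trans ((min_le_left _ _).trans (min_le_right _ _)),
      (min_le_right _ _).trans ((min_le_right _ _).trans (min_le_left _ _)),
      (min_le_right _ _).trans ((min_le_right _ _).trans (min_le_right _ _))⟩
  refine ⟨r₀, hr₀, fun r hr hrr w j j' l h1 h2 h3 h4 h5 g hg1 hg2 c₀ hc₀ => ?_⟩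
  have her : 0 < e * r := mul_pos he hr
  have h2' : (w : ℝ) ≤ j := by exact_mod_cast h2
  have h3' : (j : ℝ) < j' := by exact_mod_cast h3
  have h4' : (j' : ℝ) ≤ l := by exact_mod_cast h4
  obtain ⟨q, hq⟩ : ∃ q : Fin 4 → ℚ, q = Pool.OWN83.q4 w j j' l := ⟨_, rfl⟩
  have x0 : q 0 = w := by rw [hq]; rfl
  have x1 : q 1 = j := by rw [hq]; rfl
  have x2 : q 2 = j' := by rw [hq]; rfl
  have x3 : q 3 = l := by rw [hq]; rfl
  have xb : ∀ a, x - r ≤ q a ∧ (q a : ℝ) ≤ x + r := by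
    intro a
    fin_cases a
    · change x - r ≤ q 0 ∧ (q 0 : ℝ) ≤ x + r
      rw [x0]
      constructor <;> linarith
    · change x - r ≤ q 1 ∧ (q 1 : ℝ) ≤ x + r
      rw [x1]
      constructor <;> linarith
    · change x - r ≤ q 2 ∧ (q 2 : ℝ) ≤ x + r
      rw [x2]
      constructor <;> linarith
    · change x - r ≤ q 3 ∧ (q 3 : ℝ) ≤ x + r
      rw [x3]
      constructor <;> linarith
  have qAB : ∀ a, A < q a ∧ (q a : ℝ) < B := fun a => by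
    have := xb a
    constructor <;> linarith [this.1, this.2]
  have hQ : ∀ a, q a ∈ G := fun a => hG _ (qAB a).1 (qAB a).2
  have hgc : ∀ a b, q a ≤ q b → GC U D g (q a) (q b) := fun a b hab =>
    (k1 r hr (by linarith) (q a) (q b) (xb a).1 hab (xb b).2).1 g (by linarith)
  have hcl : ∀ a b, q a ≤ q b → U (q b) < U (q a) + min ((1 / 2 : ℝ) ^ i) (1 - ((q b : ℝ) + s)) :=
    fun a b hab => hcls (q a) (q b) (by linarith [(xb a).1]) hab (by linarith [(xb b).2])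
  have hlX' : ∀ a b, q a ≤ q b → |nX i g (q a) (q b) - fX i * (q b - q a)| ≤ C * (e / 8 * r) :=
    fun a b hab => (k1 r hr (by linarith) (q a) (q b) (xb a).1 hab (xb b).2).2 g (by linarith)
      (by linarith)
  have hlD' : ∀ a b, q a ≤ q b → |nD i g (q a) (q b) - fD i * (q b - q a)| ≤ C * (e / 8 * r) :=
    fun a b hab => (k2 r hr (by linarith) (q a) (q b) (xb a).1 hab (xb b).2).2 g (by linarith)
      (by linarith)
  have hCe : C * (e / 8 * r) ≤ 43 / 8 * (e * r) := by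
    have := mul_le_mul_of_nonneg_right hC1 (show 0 ≤ e / 8 * r by positivity)
    linarith
  have hpos' : ∀ (τ : ℝ) (J : ℕ) (F : Fam m J) (A : F.Ω → Prop), S'.St τ J F A → 0 < Pe F.p A :=
    fun τ J F A h => hpos τ J F A (sub' τ J F A h)
  have htm' : TmC S' C₀ := fun τ J F A hτ h => htm τ J F A hτ (sub' τ J F A h)
  obtain ⟨k, hk, e₀, he₀, hN⟩ := near_pr htm' hpos' (H.sub sub') hG (f := fun J F => ptr F J)
    (fun J F => ⟨id, fun _ => rfl⟩) (kn_yF y ((1 / 2 : ℝ) ^ i)) q qAB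
    (x := fun a => (q a : ℝ) + s) (fun _ => rfl) hgc hcl
    (fun a => by
      obtain ⟨t, ht⟩ := hη (q a) (H.w0 _ (hQ a)).le (H.w1 _ (hQ a)).le
      exact ⟨t, ht.sub sub'⟩)
    (θJ := fun a b => nX i g (q a) (q b)) (θD := fun a b => nD i g (q a) (q b))
    (fun a b hab => (hNN i g _ _ (hQ a) (hQ b) hab (GC.first hud (qAB a).1 (qAB b).2 (hgc a b hab))
      (hcl a b hab)).1)
    (fun a b hab => (hNN i g _ _ (hQ a) (hQ b) hab (GC.first hud (qAB a).1 (qAB b).2 (hgc a b hab))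
      (hcl a b hab)).2)
    (κ₀ := 3 * (C * (e / 8 * r))) (by positivity)
    (fun a b c hab hbc => by
      have t1 := abs_le.1 (hlX' a c (hab.trans hbc))
      have t2 := abs_le.1 (hlX' a b hab)
      have t3 := abs_le.1 (hlX' b c hbc)
      rw [abs_le]
      constructor <;> linarith [t1.1, t1.2, t2.1, t2.2, t3.1, t3.2])
    (fun a b c hab hbc => by
      have t1 := abs_le.1 (hlD' a c (hab.trans hbc))
      have t2 := abs_le.1 (hlD' a b hab)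
      have t3 := abs_le.1 (hlD' b c hbc)
      rw [abs_le]
      constructor <;> linarith [t1.1, t1.2, t2.1, t2.2, t3.1, t3.2]) hc₀ her
  refine ⟨k, hk, e₀, he₀, fun K => Bas.mono 0 (hN K) ?_⟩
  intro J _ F A' h V₁ V₂ z zj hz hzj a b d ha hb hd B'' hB'' hBA
  have q01 : q 0 ≤ q 1 := by rw [x0, x1]; exact h2
  have q12 : q 1 ≤ q 2 := by rw [x1, x2]; exact h3.le
  have q23 : q 2 ≤ q 3 := by rw [x2, x3]; exact h4
  have h6 := h 0 1 2 3 q01 q12 q23 (by decide) V₁ V₂ z zj (by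
      simp only [x0]
      exact hz) (by
      simp only [x1]
      exact hzj) a b d (by rw [x0, x1]; exact ha) (by rw [x0, x2]; exact hb)
    (by rw [x0, x3]; exact hd) B'' hB'' hBA
  refine le_trans (mul_le_mul_of_nonneg_right ?_ (Nat.cast_nonneg (α := ℝ) J)) h6
  have t1 := abs_le.1 (hlX' 1 2 q12)
  have t2 := abs_le.1 (hlD' 1 2 q12)
  rw [x1, x2] at t1 t2 ⊢
  have t3 : (2 - e / Sl) * (Sl * Real.log 2) * ((j' : ℝ) - j) ≤ (fX i - fD i) * (j' - j) :=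
    mul_le_mul_of_nonneg_right hsl (by linarith)
  have t4 : (2 - e / Sl) * (Sl * Real.log 2) * ((j' : ℝ) - j) =
      2 * (Sl * (j' - j) * Real.log 2) - e * Real.log 2 * (j' - j) := by
    field_simp
  have t5 : e * Real.log 2 * ((j' : ℝ) - j) ≤ e * 0.7 * (2 * r) :=
    mul_le_mul (mul_le_mul_of_nonneg_left hl7 he.le) (by linarith) (by linarith) (by positivity)
  nlinarith

end Pool.OWN17
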