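import Pool.Agent.H17.COR.Vk
import Pool.Agent.H83.OWN.Nump
import Pool.Agent.H91.LA.Nump

/-!
# The families of the numbers given by closed charts

`uuF`, `vvF`: the digits of the own heights and velocities over the charts of the windows. `corA_of`:
the structure `CorA`. `uu_gX`, `vv_gD`: the quantities of the numbers of the class.
-/

set_option autoImplicit false

namespace Pool.OWN17

open Finset Real MvPolynomial
open Pool.Agent.H49.Ent Pool.Agent.H32.Dense Pool.STK Pool.KA Pool.KSAT Pool.K2S Pool.PB Pool.S6C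
  Pool.GEN Pool.RCD Pool.LA91 Pool.MIC6
open Pool.GRD (LbP)

variable {m J : ℕ}

section

variable {ι V : Type}

/-- The digits of the own heights over the charts of the window `i`, to the natural digits of the
window `j`. -/
noncomputable def uuF (F : Fam m J) (y u v : Fin m) (x U : ι → ℝ) (g : ℝ)
    (a b : ι → LnT F → Fin 4 → ℝ) (i j : ι) (ω : F.Ω) : ℤ × ℤ :=
  (fd (U j * J) (fun ω => oh F y y u (a i (slam F ⌊x i * J⌋₊ ω)) ω) ω,
    fd ((U j + g) * J) (fun ω => oh F y u v (b i (slam F ⌊x i * J⌋₊ ω)) ω) ω)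

/-- The digits of the own velocities over the charts of the window `i`, to the natural digits of the
window `j`. -/
noncomputable def vvF (F : Fam m J) (y u v : Fin m) (x U : ι → ℝ) (g : ℝ)
    (a b : ι → LnT F → Fin 4 → ℝ) (i j : ι) (ω : F.Ω) : ℤ × ℤ :=
  (fd ((U j - x j) * J) (fun ω => ov F y y u (a i (slam F ⌊x i * J⌋₊ ω)) ω) ω,
    fd ((U j + g - x j) * J) (fun ω => ov F y u v (b i (slam F ⌊x i * J⌋₊ ω)) ω) ω)

/-- The side information: time, exact coordinate, digits of the direction. -/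
noncomputable def yF (F : Fam m J) (y : Fin m) (lam : ℕ) (ω : F.Ω) : ℕ × (ℤ × (ℤ × F.ζ)) :=
  (F.T ω, (F.X J ω y, (F.D lam ω y, F.Z ω)))

theorem kn_yF (y : Fin m) (lam : ℝ) : Kn {y} 1 lam (fun J F => yF F y ⌊lam * J⌋₊) := by
  intro J F
  refine ⟨fun s => (s.1, fun i => if i = y then s.2.1 else 0, fun i => if i = y then s.2.2.1 else 0),
    fun ω => ?_⟩
  have e1 : ⌊(1 : ℝ) * J⌋₊ = J := by rw [one_mul, Nat.floor_natCast]
  rw [e1]
  unfold yF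
  simp only [Finset.mem_singleton, Prod.mk.injEq, true_and]
  constructor
  · funext i
    by_cases h : i = y
    · simp [h]
    · simp [h]
  · funext i
    by_cases h : i = y
    · simp [h]
    · simp [h]

theorem Chq.win {F : Fam m J} {w₀ w₁ w w' NU NV : ℕ} {c : ℝ} (hc : 0 ≤ c)
    {a b a' b' : LnT F → Fin 4 → ℝ} {A : F.Ω → Prop} (h : Chq F w₀ w₁ w NU NV c a b a' b' A)
    (hw : w ≤ w') : Chq F w₀ w₁ w' NU NV c a b a' b' A := by
  have h1 : (2 : ℝ) ^ w ≤ 2 ^ w' := pow_le_pow_right₀ (by norm_num) hw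
  refine ⟨fun ω hω => (h.n2 ω hω).trans ?_, h.n3, fun ω hω => (h.n4 ω hω).trans ?_⟩
  · gcongr
  · gcongr

theorem Chq.sub {F : Fam m J} {w₀ w₁ w NU NV : ℕ} {c : ℝ}
    {a b a' b' : LnT F → Fin 4 → ℝ} {A B : F.Ω → Prop} (h : Chq F w₀ w₁ w NU NV c a b a' b' A)
    (hB : Sub B A) : Chq F w₀ w₁ w NU NV c a b a' b' B :=
  ⟨fun ω hω => h.n2 ω (hB ω hω), fun ω hω => h.n3 ω (hB ω hω), fun ω hω => h.n4 ω (hB ω hω)⟩

theorem D_nest (F : Fam m J) {n n' : ℕ} (h : n ≤ n') (y : Fin m) (ω : F.Ω) :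
    F.D n ω y = F.D n' ω y / 2 ^ (n' - n) := by
  show ⌊(2 : ℝ) ^ n * F.d ω y⌋ = ⌊(2 : ℝ) ^ n' * F.d ω y⌋ / 2 ^ (n' - n)
  rw [show (2 : ℝ) ^ n' * F.d ω y = 2 ^ (n' - n) * (2 ^ n * F.d ω y) by
    rw [← mul_assoc, ← pow_add]; congr 2; omega, div_nest]

/-- **The families of the numbers** from closed charts. -/
theorem corA_of {F : Fam m J} {y u v : Fin m} {x U : ι → ℝ} {g : ℝ} [DecidableEq ι]
    {a b : ι → LnT F → Fin 4 → ℝ} {z : ι → LnT F → V} {A : F.Ω → Prop}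
    {c w NU NV bb N mp I lam : ℕ} {n γ : ℕ → ℕ} {δ : ℝ} {tX tD : ℕ → ι} {iO : ι} (hw : w ≤ J)
    (ha3 : ∀ s, a (tX 0) s 3 = 0)
    (H : Dpl (Pool.Agent.H49.Ent.cond F.p A True) c J w NU NV I (lnF F y u v w)
      (hC F w ⌊x (tX 0) * J⌋₊ (a (tX 0)) (b (tX 0))) (fC F ⌊x iO * J⌋₊ (a iO) (b iO)) F.T
      (fun ω => F.X J ω y) (AuC F ⌊x (tX 0) * J⌋₊ ⌊x iO * J⌋₊ (a (tX 0)) (a iO))
      (AvC F ⌊x (tX 0) * J⌋₊ ⌊x iO * J⌋₊ (b (tX 0)) (a iO) (b iO)))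
    (hδ : 0 ≤ δ) (nN : ∀ k ≤ mp, n k + γ k ≤ N) (NI : N * bb ≤ I)
    (hlam : ∀ k ≤ mp, n k * bb ≤ lam)
    (haU : ∀ t ≤ N, |U (tX t) * J - ((NU : ℝ) + t * bb)| ≤ δ)
    (haV : ∀ t ≤ N, |(U (tX t) + g) * J - ((NV : ℝ) + t * bb)| ≤ δ)
    (hdU : ∀ k ≤ mp, |(U (tD k) - x (tD k)) * J - ((NU : ℝ) + n k * bb - w)| ≤ δ)
    (hdV : ∀ k ≤ mp, |(U (tD k) + g - x (tD k)) * J - ((NV : ℝ) + n k * bb - w)| ≤ δ)
    (mX : ∀ t t', t ≤ t' → t' ≤ N → x (tX t) ≤ x (tX t'))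
    (mD : ∀ k ≤ mp, x (tX (n k + γ k)) ≤ x (tD k)) :
    CorA (Pool.Agent.H49.Ent.cond F.p A True) c J w NU NV bb N mp I n γ δ (lnF F y u v w)
      (hC F w ⌊x (tX 0) * J⌋₊ (a (tX 0)) (b (tX 0))) (fC F ⌊x iO * J⌋₊ (a iO) (b iO)) F.T
      (fun ω => F.X J ω y) (fun ω => F.D lam ω y)
      (AuC F ⌊x (tX 0) * J⌋₊ ⌊x iO * J⌋₊ (a (tX 0)) (a iO))
      (AvC F ⌊x (tX 0) * J⌋₊ ⌊x iO * J⌋₊ (b (tX 0)) (a iO) (b iO))
      (fun ω => ((zpF F x (tX 0) iO z a b (tX 0) ω, F.Z ω), F.T ω / 2 ^ (J - w)))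
      (zpF F x (tX 0) iO z a b iO) x
      (zpF F x (tX 0) iO z a b) (yF F y lam) (uuF F y u v x U g a b) (vvF F y u v x U g a b) tX tD
      (fun t => U (tX t) * J) (fun t => (U (tX t) + g) * J)
      (fun k => (U (tD k) - x (tD k)) * J) (fun k => (U (tD k) + g - x (tD k)) * J) where
  dpl := H
  δ0 := hδ
  nN := nN
  NI := NI
  lam k hk ω ω' _ _ hh := by
    have h1 : F.D lam ω y = F.D lam ω' y := hh
    show ⌊(2 : ℝ) ^ (n k * bb) * F.d ω y⌋ = ⌊(2 : ℝ) ^ (n k * bb) * F.d ω' y⌋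
    have h2 := D_nest F (hlam k hk) y ω
    have h3 := D_nest F (hlam k hk) y ω'
    rw [h1] at h2
    exact h2.trans h3.symm
  uX t _ ω _ := by
    unfold uuF rXU rXV hC fd
    simp only []
    rw [lnF_hu F y u v hw, lnF_hv F y u v hw]
    unfold oh
    rw [ha3, zero_mul, add_zero]
  vD k _ ω _ := by
    unfold vvF rVU rVV hC fd
    simp only []
    rw [lnF_hu' F y u v, lnF_hv' F y u v]
    unfold ov
    rw [ha3, zero_mul, add_zero, sub_sub, sub_sub, sub_sub, add_assoc]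
  haU := haU
  haV := haV
  hdU := hdU
  hdV := hdV
  mX := mX
  mD := mD
  zy ω ω' _ _ h1 h2 := by
    simp only [yF, Prod.mk.injEq] at h2
    exact ⟨h2.2.2.1, by simp only [h1, h2.2.2.2, h2.1], h2.1, h2.2.1⟩
  yz ω ω' _ _ h1 h2 h3 h4 := by
    simp only [Prod.mk.injEq] at h2
    refine ⟨h2.1.1, ?_⟩
    unfold yF
    simp only [h1, h2.1.2, h3, h4]
  dd ω ω' _ _ hh := by
    simp only [Prod.mk.injEq] at hh
    obtain ⟨h1, -, h4, h5⟩ := hh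
    simp only [zpF, Prod.mk.injEq, if_true, Option.some.injEq] at h1
    obtain ⟨-, ⟨k1, k2⟩, k3, k4⟩ := h1
    have e1 : F.t ω = F.t ω' := by unfold Fam.t; rw [h4]
    have e2 : tw0 F w ω = tw0 F w ω' := by
      unfold tw0 Fam.T1
      rw [h4]
    simp only [Prod.mk.injEq]
    refine ⟨?_, ?_, ?_, ?_, h4, h5⟩
    · unfold AuC
      rw [k1, k3, e1]
    · unfold AvC
      rw [k2, k3, k4, e1]
    · unfold hC
      rw [k1, k2, e2]
    · unfold fC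
      rw [k3, k4]

/-- **The quantities of the numbers of the class.** -/
theorem uu_gX {F : Fam m J} {y u v : Fin m} (hyu : y ≠ u) {x : ι → ℝ} {q : ι → ℚ} {s : ℝ}
    (hx : ∀ i, x i = (q i : ℝ) + s) {U : ℚ → ℝ} {g : ℚ} {a b : ι → LnT F → Fin 4 → ℝ}
    {A : F.Ω → Prop} {i j : ι} {Mu Mv Eu Ev K : ℕ} {e : ℝ} (hJ : 1 ≤ J) (hW : ⌊x i * J⌋₊ ≤ J)
    (c1 : ChA F y y u ⌊x i * J⌋₊ Mu Eu (a i) A) (c2 : ChA F y u v ⌊x i * J⌋₊ Mv Ev (b i) A)
    (h1 : ⌊(U (q i) - e) * J⌋₊ ≤ Mu) (h2 : ⌊(U (q i) + g - e) * J⌋₊ ≤ Mv) (hj : 0 ≤ x j)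
    (hU : U (q j) ≤ 1) (hg : U (q j) + g ≤ 1) (hK : 4 ≤ K) :
    (gX m {y} u v s U g (q i) (q j)).P K e J F A
      (uuF F y u v x (fun i => U (q i)) g a b i j) ∧
    (gD m {y} u v s U g (q i) (q j)).P K e J F A
      (vvF F y u v x (fun i => U (q i)) g a b i j) := by
  obtain ⟨k1, -⟩ := c1.qj hJ hW (p := U (q i)) (N := U (q j)) h1 hU hK
  obtain ⟨k2, -⟩ := c2.qa hyu hJ hW (p := U (q i) + g) (N := U (q j) + g) h2 hg hK
  obtain ⟨-, k3⟩ := c1.qj hJ hW (p := U (q i)) (N := U (q j) - x j) h1 (by linarith) hK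
  obtain ⟨-, k4⟩ := c2.qa hyu hJ hW (p := U (q i) + g) (N := U (q j) + g - x j) h2 (by linarith) hK
  have e1 : (q i : ℝ) + s = x i := (hx i).symm
  have e2 : (q j : ℝ) + s = x j := (hx j).symm
  unfold gX gD qP
  rw [e1, e2]
  exact ⟨⟨k1, k2⟩, ⟨k3, k4⟩⟩

end

end Pool.OWN17
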