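import Pool.Agent.H17.COR.Dig

/-!
# The digits at the places are few bits given the labels of a deep window

`Dpl`: the data of a deep window: the frame (natural size, own velocities to `I` natural digits) and
the own heights to `I` natural digits. `Dpl.x_few`, `Dpl.d_few`: the digits of the heights and of the
velocities are few bits.
-/

set_option autoImplicit false

namespace Pool.OWN17

open Finset Real
open Pool.Agent.H49.Ent Pool.Agent.H32.Dense Pool.STK Pool.CH30 Pool.KM7 Pool.OWN68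

section

variable {Ω : Type} [Fintype Ω] {p : Ω → ℝ}

/-- **The data of a deep window.** -/
structure Dpl (p : Ω → ℝ) (c J w NU NV I : ℕ) (l : Ω → Ln) (h : Ω → Cht) (f : Ω → Frm)
    (T : Ω → ℕ) (Y : Ω → ℤ) (Au Av : Ω → ℝ) : Prop where
  c1 : 1 ≤ c
  wJ : w + I ≤ J
  geo : ∀ ω, 0 < p ω → GeoB c w NU NV (l ω) (h ω) (f ω)
  vu : ∀ ω, 0 < p ω → |(l ω).hu' (h ω) - (((f ω).ju (h ω)).1 + (l ω).e * ((f ω).ju (h ω)).2)| ≤
    2 ^ w / 2 ^ (NU + I)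
  vv : ∀ ω, 0 < p ω → |(l ω).hv' (h ω) - (((f ω).jv (h ω)).1 + (l ω).e * ((f ω).jv (h ω)).2)| ≤
    2 ^ w / 2 ^ (NV + I)
  hu : ∀ ω, 0 < p ω → |(l ω).hu (h ω) (tT J w (T ω)) - (Au ω +
    ((f ω).ju (h ω)).2 * ((l ω).y + tT J w (T ω) * (l ω).e))| ≤ c / 2 ^ (NU + I)
  hv : ∀ ω, 0 < p ω → |(l ω).hv (h ω) (tT J w (T ω)) - (Av ω +
    ((f ω).jv (h ω)).2 * ((l ω).y + tT J w (T ω) * (l ω).e))| ≤ c / 2 ^ (NV + I)
  yc : ∀ ω, 0 < p ω → |(Y ω : ℝ) / 2 ^ J - ((l ω).y + tT J w (T ω) * (l ω).e)| ≤ 1 / 2 ^ J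

variable {c J w NU NV I : ℕ} {l : Ω → Ln} {h : Ω → Cht} {f : Ω → Frm} {T : Ω → ℕ} {Y : Ω → ℤ}
  {Au Av : Ω → ℝ} {S : Type}

/-- The digits of one height. -/
theorem hgt_few (hp : IsLaw p) {c J w N I i : ℕ} (hc : 1 ≤ c) (hwJ : w + I ≤ J) (hi : i ≤ I)
    {x A j2 y : Ω → ℝ} {Y : Ω → ℤ}
    (hx : ∀ ω, 0 < p ω → |x ω - (A ω + j2 ω * y ω)| ≤ c / 2 ^ (N + I))
    (hj : ∀ ω, 0 < p ω → |j2 ω| ≤ c * (2 ^ w / 2 ^ N))
    (hy : ∀ ω, 0 < p ω → |(Y ω : ℝ) / 2 ^ J - y ω| ≤ 1 / 2 ^ J) {Z : Ω → S}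
    (hZ : Det p Z (fun ω => (A ω, (j2 ω, Y ω)))) :
    CH p (fun ω => (⌊2 ^ (N + i) * x ω⌋ : ℤ)) Z ≤ Real.log (2 * ((3 * c : ℕ) + 1) + 1) := by
  have hc' : (1 : ℝ) ≤ c := by exact_mod_cast hc
  refine cnt_det hp (c := fun ω => 2 ^ (N + i) * (A ω + j2 ω * ((Y ω : ℝ) / 2 ^ J))) ?_ (3 * c)
    fun ω hω => ?_
  · intro ω ω' h1 h2 hh
    have := hZ ω ω' h1 h2 hh
    simp only [Prod.mk.injEq] at this
    simp only [this.1, this.2.1, this.2.2]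
  · have f1 := fl_err (2 ^ (N + i) * x ω)
    have e1 : ((⌊2 ^ (N + i) * x ω⌋ : ℤ) : ℝ) - 2 ^ (N + i) * (A ω + j2 ω * ((Y ω : ℝ) / 2 ^ J)) =
        (((⌊2 ^ (N + i) * x ω⌋ : ℤ) : ℝ) - 2 ^ (N + i) * x ω) +
        2 ^ (N + i) * (x ω - (A ω + j2 ω * y ω)) -
        2 ^ (N + i) * (j2 ω * ((Y ω : ℝ) / 2 ^ J - y ω)) := by ring
    have m1 : |2 ^ (N + i) * (x ω - (A ω + j2 ω * y ω))| ≤ c := by
      rw [abs_mul, abs_of_pos (by positivity : (0 : ℝ) < 2 ^ (N + i))]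
      calc 2 ^ (N + i) * |x ω - (A ω + j2 ω * y ω)| ≤ 2 ^ (N + I) * (c / 2 ^ (N + I)) :=
            mul_le_mul (pow_le_pow_right₀ (by norm_num) (by omega)) (hx ω hω) (abs_nonneg _)
              (by positivity)
        _ = c := by field_simp
    have m2 : |2 ^ (N + i) * (j2 ω * ((Y ω : ℝ) / 2 ^ J - y ω))| ≤ c := by
      rw [abs_mul, abs_of_pos (by positivity : (0 : ℝ) < 2 ^ (N + i)), abs_mul]
      have a1 : |j2 ω| * |(Y ω : ℝ) / 2 ^ J - y ω| ≤ c * (2 ^ w / 2 ^ N) * (1 / 2 ^ J) :=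
        mul_le_mul (hj ω hω) (hy ω hω) (abs_nonneg _) (by positivity)
      have a2 : (2 : ℝ) ^ (w + i) ≤ 2 ^ J := pow_le_pow_right₀ (by norm_num) (by omega)
      calc 2 ^ (N + i) * (|j2 ω| * |(Y ω : ℝ) / 2 ^ J - y ω|) ≤
            2 ^ (N + i) * (c * (2 ^ w / 2 ^ N) * (1 / 2 ^ J)) :=
              mul_le_mul_of_nonneg_left a1 (by positivity)
        _ = c * (2 ^ (w + i) / 2 ^ J) := by
          rw [pow_add, pow_add]
          field_simp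
        _ ≤ c * 1 := by
          refine mul_le_mul_of_nonneg_left ?_ (by positivity)
          rw [div_le_one (by positivity)]
          exact a2
        _ = c := mul_one _
    rw [e1]
    have t1 := abs_sub ((((⌊2 ^ (N + i) * x ω⌋ : ℤ) : ℝ) - 2 ^ (N + i) * x ω) +
      2 ^ (N + i) * (x ω - (A ω + j2 ω * y ω))) (2 ^ (N + i) * (j2 ω * ((Y ω : ℝ) / 2 ^ J - y ω)))
    have t2 := abs_add_le (((⌊2 ^ (N + i) * x ω⌋ : ℤ) : ℝ) - 2 ^ (N + i) * x ω)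
      (2 ^ (N + i) * (x ω - (A ω + j2 ω * y ω)))
    push_cast
    linarith

/-- The digits of one velocity. -/
theorem vel_dig (hp : IsLaw p) {c w N I i : ℕ} (hc : 1 ≤ c) (hi : i ≤ I)
    {x j1 j2 e : Ω → ℝ}
    (hx : ∀ ω, 0 < p ω → |x ω - (j1 ω + e ω * j2 ω)| ≤ 2 ^ w / 2 ^ (N + I))
    (hj : ∀ ω, 0 < p ω → |j2 ω| ≤ c * (2 ^ w / 2 ^ N)) (he : ∀ ω, 0 < p ω → |e ω| ≤ 1) {Z : Ω → S}
    (hZ : Det p Z (fun ω => (j1 ω, (j2 ω, (⌊2 ^ i * e ω⌋ : ℤ))))) :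
    CH p (fun ω => (⌊2 ^ (N + i) / 2 ^ w * x ω⌋ : ℤ)) Z ≤
      Real.log (2 * ((6 * c : ℕ) + 1) + 1) := by
  refine cnt_det hp (c := fun ω => ((⌊2 ^ (N + i) / 2 ^ w * j1 ω⌋ : ℤ) : ℝ) +
    ((⌊2 ^ i * e ω⌋ : ℤ) : ℝ) / 2 ^ i * ((⌊2 ^ (N + i) / 2 ^ w * j2 ω⌋ : ℤ) : ℝ)) ?_ (6 * c)
    fun ω hω => ?_
  · intro ω ω' h1 h2 hh
    have := hZ ω ω' h1 h2 hh
    simp only [Prod.mk.injEq] at this
    simp only [this.1, this.2.1, this.2.2]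
  · have h1 : |x ω - (j1 ω + e ω * j2 ω)| ≤ 2 ^ w / 2 ^ (N + i) :=
      (hx ω hω).trans (div_le_div_of_nonneg_left (by positivity) (by positivity)
        (pow_le_pow_right₀ (by norm_num) (by omega)))
    have := vel_frame hc h1 (hj ω hω) (he ω hω) (fl_div (n := i) (e ω)) le_rfl
    push_cast at this ⊢
    exact this

/-- **The digits of the heights.** -/
theorem Dpl.x_few (hp : IsLaw p) (H : Dpl p c J w NU NV I l h f T Y Au Av) {i : ℕ} (hi : i ≤ I)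
    {Z : Ω → S} (hZ : Det p Z (fun ω => (Au ω, (Av ω, (h ω, (f ω, (T ω, Y ω))))))) :
    CH p (fun ω => (hgU J w (NU + i) l h T ω, hgV J w (NV + i) l h T ω)) Z ≤
      2 * Real.log (2 * ((3 * c : ℕ) + 1) + 1) := by
  have h0 := hp.nonneg
  have k1 := hgt_few hp H.c1 H.wJ hi H.hu (fun ω hω => (H.geo ω hω).au) H.yc (Z := Z) (by
    intro ω ω' h1 h2 hh
    have := hZ ω ω' h1 h2 hh
    simp only [Prod.mk.injEq] at this ⊢
    obtain ⟨a1, a2, a3, a4, a5, a6⟩ := this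
    refine ⟨a1, ?_, a6⟩
    rw [a3, a4])
  have k2 := hgt_few hp H.c1 H.wJ hi H.hv (fun ω hω => (H.geo ω hω).av) H.yc (Z := Z) (by
    intro ω ω' h1 h2 hh
    have := hZ ω ω' h1 h2 hh
    simp only [Prod.mk.injEq] at this ⊢
    obtain ⟨a1, a2, a3, a4, a5, a6⟩ := this
    refine ⟨a2, ?_, a6⟩
    rw [a3, a4])
  have k3 := CH_subadd h0 (hgU J w (NU + i) l h T) (hgV J w (NV + i) l h T) Z
  have k1' : CH p (hgU J w (NU + i) l h T) Z ≤ Real.log (2 * ((3 * c : ℕ) + 1) + 1) := k1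
  have k2' : CH p (hgV J w (NV + i) l h T) Z ≤ Real.log (2 * ((3 * c : ℕ) + 1) + 1) := k2
  linarith

/-- **The digits of the velocities.** -/
theorem Dpl.d_few (hp : IsLaw p) (H : Dpl p c J w NU NV I l h f T Y Au Av) {i : ℕ} (hi : i ≤ I)
    {Z : Ω → S} (hZ : Det p Z (fun ω => (h ω, (f ω, eD i l ω)))) :
    CH p (fun ω => (vU w (NU + i) l h ω, vV w (NV + i) l h ω)) Z ≤
      2 * Real.log (2 * ((6 * c : ℕ) + 1) + 1) := by
  have h0 := hp.nonneg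
  have k1 := vel_dig hp H.c1 hi H.vu (fun ω hω => (H.geo ω hω).au)
    (fun ω hω => (H.geo ω hω).ce) (Z := Z) (by
    intro ω ω' h1 h2 hh
    have := hZ ω ω' h1 h2 hh
    simp only [Prod.mk.injEq] at this ⊢
    obtain ⟨a1, a2, a3⟩ := this
    unfold eD at a3
    refine ⟨?_, ?_, a3⟩ <;> rw [a1, a2])
  have k2 := vel_dig hp H.c1 hi H.vv (fun ω hω => (H.geo ω hω).av)
    (fun ω hω => (H.geo ω hω).ce) (Z := Z) (by
    intro ω ω' h1 h2 hh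
    have := hZ ω ω' h1 h2 hh
    simp only [Prod.mk.injEq] at this ⊢
    obtain ⟨a1, a2, a3⟩ := this
    unfold eD at a3
    refine ⟨?_, ?_, a3⟩ <;> rw [a1, a2])
  have k3 := CH_subadd h0 (vU w (NU + i) l h) (vV w (NV + i) l h) Z
  have k1' : CH p (vU w (NU + i) l h) Z ≤ Real.log (2 * ((6 * c : ℕ) + 1) + 1) := k1
  have k2' : CH p (vV w (NV + i) l h) Z ≤ Real.log (2 * ((6 * c : ℕ) + 1) + 1) := k2
  linarith

end

end Pool.OWN17
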