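import Pool.Agent.H17.COR.Cra

/-!
# The digits of the own heights as functions of the point

`dig_root`: on all events of a subclass the digits of the own heights over closed charts are
functions of the point.
-/

set_option autoImplicit false

namespace Pool.OWN17

open Finset Real MvPolynomial
open Pool.Agent.H49.Ent Pool.Agent.H32.Dense Pool.STK Pool.KA Pool.KSAT Pool.K2S Pool.PB Pool.S6C
  Pool.GEN Pool.RCD Pool.LA91 Pool.MIC6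
open Pool.GRD (LbP)

variable {m : ℕ}

/-- One of three values is frequent. -/
theorem part3 {Ω : Type} [Fintype Ω] {p : Ω → ℝ} (hp : IsLaw p) {A : Ω → Prop} {κ : Ω → ℤ}
    (hκ : ∀ ω, A ω → |κ ω| ≤ 1) : ∃ d : ℤ, Pe p A ≤ 3 * Pe p (fun ω => A ω ∧ κ ω = d) := by
  have h1 : Pe p A ≤ Pe p (fun ω => A ω ∧ κ ω = -1) + Pe p (fun ω => A ω ∧ κ ω ≠ -1) :=
    Pe_or hp fun ω hω => by
      by_cases h : κ ω = -1
      · exact Or.inl ⟨hω, h⟩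
      · exact Or.inr ⟨hω, h⟩
  have h2 : Pe p (fun ω => A ω ∧ κ ω ≠ -1) ≤ Pe p (fun ω => A ω ∧ κ ω = 0) +
      Pe p (fun ω => A ω ∧ κ ω = 1) :=
    Pe_or hp fun ω hω => by
      have h3 := abs_le.1 (hκ ω hω.1)
      have h4 := hω.2
      rcases (by omega : κ ω = 0 ∨ κ ω = 1) with h | h
      · exact Or.inl ⟨hω.1, h⟩
      · exact Or.inr ⟨hω.1, h⟩
  by_contra hcon
  push Not at hcon
  have a1 := hcon (-1)
  have a2 := hcon 0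
  have a3 := hcon 1
  linarith

/-- The own height over a chart, at the rounded point. -/
noncomputable def ohp {J : ℕ} (F : Fam m J) (κ ι k : Fin m) (c : Fin 4 → ℝ) (ω : F.Ω) : ℝ :=
  (F.X J ω k : ℝ) / 2 ^ J - (c 0 + c 1 * F.t ω + c 2 * ((F.X J ω κ : ℝ) / 2 ^ J) +
    c 3 * ((F.X J ω ι : ℝ) / 2 ^ J))

theorem ohp_near {J : ℕ} (F : Fam m J) (κ ι k : Fin m) {c : Fin 4 → ℝ} {B : ℝ} (ω : F.Ω)
    (h2 : |c 2| ≤ B) (h3 : |c 3| ≤ B) :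
    |oh F κ ι k c ω - ohp F κ ι k c ω| ≤ (1 + 2 * B) / 2 ^ J := by
  have h1 : ∀ i, |F.x ω i - (F.X J ω i : ℝ) / 2 ^ J| ≤ 1 / 2 ^ J := fun i => by
    rw [abs_sub_comm]
    exact fl_near J (F.x ω i)
  unfold oh ohp
  have e1 : F.x ω k - (c 0 + c 1 * F.t ω + c 2 * F.x ω κ + c 3 * F.x ω ι) -
      ((F.X J ω k : ℝ) / 2 ^ J - (c 0 + c 1 * F.t ω + c 2 * ((F.X J ω κ : ℝ) / 2 ^ J) +
        c 3 * ((F.X J ω ι : ℝ) / 2 ^ J))) =
      (F.x ω k - (F.X J ω k : ℝ) / 2 ^ J) + -(c 2 * (F.x ω κ - (F.X J ω κ : ℝ) / 2 ^ J)) +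
        -(c 3 * (F.x ω ι - (F.X J ω ι : ℝ) / 2 ^ J)) := by ring
  rw [e1]
  have hB : 0 ≤ B := (abs_nonneg _).trans h2
  have k2 : |c 2 * (F.x ω κ - (F.X J ω κ : ℝ) / 2 ^ J)| ≤ B * (1 / 2 ^ J) := by
    rw [abs_mul]
    exact mul_le_mul h2 (h1 κ) (abs_nonneg _) hB
  have k3 : |c 3 * (F.x ω ι - (F.X J ω ι : ℝ) / 2 ^ J)| ≤ B * (1 / 2 ^ J) := by
    rw [abs_mul]
    exact mul_le_mul h3 (h1 ι) (abs_nonneg _) hB
  have k4 := abs_add_le ((F.x ω k - (F.X J ω k : ℝ) / 2 ^ J) +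
    -(c 2 * (F.x ω κ - (F.X J ω κ : ℝ) / 2 ^ J))) (-(c 3 * (F.x ω ι - (F.X J ω ι : ℝ) / 2 ^ J)))
  have k5 := abs_add_le (F.x ω k - (F.X J ω k : ℝ) / 2 ^ J)
    (-(c 2 * (F.x ω κ - (F.X J ω κ : ℝ) / 2 ^ J)))
  rw [abs_neg] at k4 k5
  have k1 := h1 k
  have e2 : (1 + 2 * B) / 2 ^ J = 1 / 2 ^ J + B * (1 / 2 ^ J) + B * (1 / 2 ^ J) := by ring
  rw [e2]
  linarith

theorem fl_one {x y : ℝ} (h : |x - y| ≤ 1) : |⌊x⌋ - ⌊y⌋| ≤ 1 := by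
  have h1 := abs_le.1 h
  have a1 := Int.floor_le x
  have a2 := Int.lt_floor_add_one x
  have b1 := Int.floor_le y
  have b2 := Int.lt_floor_add_one y
  rw [abs_le]
  constructor
  · have : ((⌊y⌋ - ⌊x⌋ : ℤ) : ℝ) < 2 := by
      push_cast
      linarith
    have : ⌊y⌋ - ⌊x⌋ < 2 := by exact_mod_cast this
    omega
  · have : ((⌊x⌋ - ⌊y⌋ : ℤ) : ℝ) < 2 := by
      push_cast
      linarith
    have : ⌊x⌋ - ⌊y⌋ < 2 := by exact_mod_cast this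
    omega

/-- **The digits of the own heights are functions of the point**, on all events of a subclass. -/
theorem dig_root {S : PCl m} (hS : S.Ne) {κ ι k : Fin m} {W : ℝ} {N MV E : ℕ → ℕ}
    {b : ∀ (J : ℕ) (F : Fam m J), LnT F → Fin 4 → ℝ}
    (hb : ∀ (τ : ℝ) (J : ℕ) (F : Fam m J) (A : F.Ω → Prop), S.St τ J F A →
      ChA F κ ι k ⌊W * J⌋₊ (MV J) (E J) (b J F) A) {J₁ : ℕ} (hJ₁ : ∀ J ≥ J₁, N J + E J + 2 ≤ J) :
    ∃ S' : PCl m, S'.Ne ∧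
      (∀ (τ : ℝ) (J : ℕ) (F : Fam m J) (A : F.Ω → Prop), S'.St τ J F A → S.St τ J F A) ∧
      ∀ (τ : ℝ) (J : ℕ) (F : Fam m J) (A : F.Ω → Prop), S'.St τ J F A →
        ∀ ω ω', A ω → A ω' → ptr F J ω = ptr F J ω' →
          ⌊(2 : ℝ) ^ N J * oh F κ ι k (b J F (slam F ⌊W * J⌋₊ ω)) ω⌋ =
            ⌊(2 : ℝ) ^ N J * oh F κ ι k (b J F (slam F ⌊W * J⌋₊ ω')) ω'⌋ := by
  classical
  obtain ⟨S', d, h1, h2, h3⟩ := root_fix (Δ := fun _ _ => ℤ) (C := 3) hS (fun J F d A =>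
      ∀ ω, A ω → ⌊(2 : ℝ) ^ N J * oh F κ ι k (b J F (slam F ⌊W * J⌋₊ ω)) ω⌋ -
        ⌊(2 : ℝ) ^ N J * ohp F κ ι k (b J F (slam F ⌊W * J⌋₊ ω)) ω⌋ = d)
    (fun J F d A B hA hB ω hω => hA ω (hB ω hω)) (by
      have hst : Bas S (fun J F A => ChA F κ ι k ⌊W * J⌋₊ (MV J) (E J) (b J F) A) :=
        ⟨1, one_pos, 0, fun J _ F A hA => hb 1 J F A hA⟩
      refine Bas.mono J₁ hst ?_
      intro J hJ F A hc
      obtain ⟨d, hd⟩ := part3 F.isLaw (A := A) (κ := fun ω =>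
        ⌊(2 : ℝ) ^ N J * oh F κ ι k (b J F (slam F ⌊W * J⌋₊ ω)) ω⌋ -
          ⌊(2 : ℝ) ^ N J * ohp F κ ι k (b J F (slam F ⌊W * J⌋₊ ω)) ω⌋) (by
        intro ω hω
        refine fl_one ?_
        rw [← mul_sub, abs_mul, abs_of_pos (by positivity)]
        have a1 := ohp_near F κ ι k ω (hc.bnd ω hω 2 (by decide)) (hc.bnd ω hω 3 (by decide))
        have a2 : (1 : ℝ) ≤ 2 ^ E J := one_le_pow₀ (by norm_num)
        calc (2 : ℝ) ^ N J * |oh F κ ι k (b J F (slam F ⌊W * J⌋₊ ω)) ω -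
              ohp F κ ι k (b J F (slam F ⌊W * J⌋₊ ω)) ω| ≤
            2 ^ N J * ((1 + 2 * 2 ^ E J) / 2 ^ J) :=
              mul_le_mul_of_nonneg_left a1 (by positivity)
          _ ≤ 1 := by
              rw [← mul_div_assoc, div_le_one (by positivity)]
              calc (2 : ℝ) ^ N J * (1 + 2 * 2 ^ E J) ≤ 2 ^ N J * (2 ^ E J * 2 ^ 2) :=
                    mul_le_mul_of_nonneg_left (by linarith) (by positivity)
                _ = 2 ^ (N J + E J + 2) := by rw [pow_add, pow_add, mul_assoc]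
                _ ≤ 2 ^ J := pow_le_pow_right₀ (by norm_num) (hJ₁ J hJ))
      exact ⟨d, _, fun ω hω => hω.1, hd, fun ω hω => hω.2⟩)
  refine ⟨S', h1, h2, fun τ J F A hA ω ω' hω hω' hh => ?_⟩
  obtain ⟨φ, hφ⟩ := (hb τ J F A (h2 τ J F A hA)).cls
  have a1 := h3 τ J F A hA ω hω
  have a2 := h3 τ J F A hA ω' hω'
  have a3 : b J F (slam F ⌊W * J⌋₊ ω) = b J F (slam F ⌊W * J⌋₊ ω') := by
    rw [hφ ω hω, hφ ω' hω', hh]
  have a4 : ohp F κ ι k (b J F (slam F ⌊W * J⌋₊ ω)) ω =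
      ohp F κ ι k (b J F (slam F ⌊W * J⌋₊ ω')) ω' := by
    have h5 : F.X J ω = F.X J ω' := (Prod.ext_iff.mp hh).1
    have h6 : F.T ω = F.T ω' := (Prod.ext_iff.mp (Prod.ext_iff.mp hh).2).1
    unfold ohp Fam.t
    rw [a3, h5, h6]
  rw [a4] at a1
  linarith

end Pool.OWN17
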