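import Pool.Agent.H17.COR.Chs

/-!
# The data of a deep window from closed affine charts

`Chd`: closed affine charts of `u` and of `v` at two windows. `Chq`: the charts of the two windows
are near in natural units. `dpl_of`: the structure `Dpl`.
-/

set_option autoImplicit false

namespace Pool.OWN17

open Finset Real MvPolynomial
open Pool.Agent.H49.Ent Pool.Agent.H32.Dense Pool.STK Pool.KA Pool.KSAT Pool.K2S Pool.PB Pool.S6C
  Pool.GEN Pool.RCD Pool.LA91 Pool.MIC6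
open Pool.GRD (LbP)

variable {m J : ℕ}

/-- **Closed affine charts** of `u` over `y` and of `v` over `y`, `u` at the windows `w₀`, `w₁`. -/
structure Chd (F : Fam m J) (y u v : Fin m) (w₀ w₁ MU MV MU' MV' E : ℕ)
    (a b a' b' : LnT F → Fin 4 → ℝ) (A : F.Ω → Prop) : Prop where
  cu : ChA F y y u w₀ MU E a A
  a3 : ∀ s, a s 3 = 0
  cv : ChA F y u v w₀ MV E b A
  cu' : ChA F y y u w₁ MU' E a' A
  a3' : ∀ s, a' s 3 = 0
  cv' : ChA F y u v w₁ MV' E b' A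

theorem Chd.sub {F : Fam m J} {y u v : Fin m} {w₀ w₁ MU MV MU' MV' E : ℕ}
    {a b a' b' : LnT F → Fin 4 → ℝ} {A B : F.Ω → Prop}
    (h : Chd F y u v w₀ w₁ MU MV MU' MV' E a b a' b' A) (hB : Sub B A) :
    Chd F y u v w₀ w₁ MU MV MU' MV' E a b a' b' B :=
  ⟨h.cu.sub hB, h.a3, h.cv.sub hB, h.cu'.sub hB, h.a3', h.cv'.sub hB⟩

/-- **The charts of the two windows are near** in natural units. -/
structure Chq (F : Fam m J) (w₀ w₁ w NU NV : ℕ) (c : ℝ) (a b a' b' : LnT F → Fin 4 → ℝ)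
    (A : F.Ω → Prop) : Prop where
  n2 : ∀ ω, A ω → |a' (slam F w₁ ω) 2 - a (slam F w₀ ω) 2| ≤ c * (2 ^ w / 2 ^ NU)
  n3 : ∀ ω, A ω → |b' (slam F w₁ ω) 3 - b (slam F w₀ ω) 3| ≤ c * (2 ^ NU / 2 ^ NV)
  n4 : ∀ ω, A ω → |(b' (slam F w₁ ω) 2 - b (slam F w₀ ω) 2) +
    (b' (slam F w₁ ω) 3 - b (slam F w₀ ω) 3) * a' (slam F w₁ ω) 2| ≤ c * (2 ^ w / 2 ^ NV)

/-- The charts of a sample. -/
noncomputable def hC (F : Fam m J) (w w₀ : ℕ) (a b : LnT F → Fin 4 → ℝ) (ω : F.Ω) : Cht :=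
  chF (tw0 F w ω) (a (slam F w₀ ω)) (b (slam F w₀ ω))

/-- The frame of a sample. -/
def fC (F : Fam m J) (w₁ : ℕ) (a' b' : LnT F → Fin 4 → ℝ) (ω : F.Ω) : Frm :=
  frF (a' (slam F w₁ ω)) (b' (slam F w₁ ω))

/-- The own height of `u` over the chart of the deep window. -/
noncomputable def AuC (F : Fam m J) (w₀ w₁ : ℕ) (a a' : LnT F → Fin 4 → ℝ) (ω : F.Ω) : ℝ :=
  (a' (slam F w₁ ω) 0 - a (slam F w₀ ω) 0) +
    (a' (slam F w₁ ω) 1 - a (slam F w₀ ω) 1) * F.t ω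

/-- The own height of `v` over the charts of the deep window. -/
noncomputable def AvC (F : Fam m J) (w₀ w₁ : ℕ) (b a' b' : LnT F → Fin 4 → ℝ) (ω : F.Ω) : ℝ :=
  ((b' (slam F w₁ ω) 0 - b (slam F w₀ ω) 0) +
      (b' (slam F w₁ ω) 3 - b (slam F w₀ ω) 3) * a' (slam F w₁ ω) 0) +
    ((b' (slam F w₁ ω) 1 - b (slam F w₀ ω) 1) +
      (b' (slam F w₁ ω) 3 - b (slam F w₀ ω) 3) * a' (slam F w₁ ω) 1) * F.t ω

/-- The exact coordinate. -/
theorem yc_of (F : Fam m J) (y u v : Fin m) {w : ℕ} (hw : w ≤ J) (ω : F.Ω) :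
    |((F.X J ω y : ℤ) : ℝ) / 2 ^ J - ((lnF F y u v w ω).y + tT J w (F.T ω) *
      (lnF F y u v w ω).e)| ≤ 1 / 2 ^ J := by
  rw [lnF_y F y u v hw ω]
  exact fl_near J (F.x ω y)

/-- **The data of a deep window.** -/
theorem dpl_of {F : Fam m J} {y u v : Fin m} {w₀ w₁ MU MV MU' MV' E w NU NV I k₀ c : ℕ}
    {a b a' b' : LnT F → Fin 4 → ℝ} {A : F.Ω → Prop} (hc : 1 ≤ c)
    (h : Chd F y u v w₀ w₁ MU MV MU' MV' E a b a' b' A)
    (n : Chq F w₀ w₁ w NU NV c a b a' b' A) (hw0 : w₀ ≤ w) (hwI : w + I ≤ J)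
    (hck : 2 * c ≤ 2 ^ k₀) (h1 : NU ≤ MU) (h2 : NV ≤ MV) (h3 : NU + I + k₀ + w₁ ≤ MU' + w)
    (h4 : NV + I + 1 + w₁ ≤ MV' + w) (h5 : NU + I + k₀ ≤ MU') (h6 : NV + I + 1 ≤ MV') :
    Dpl (Pool.Agent.H49.Ent.cond F.p A True) (4 * c) J w NU NV I (lnF F y u v w)
      (hC F w w₀ a b) (fC F w₁ a' b') F.T (fun ω => F.X J ω y) (AuC F w₀ w₁ a a')
      (AvC F w₀ w₁ b a' b') := by
  have hcr : (1 : ℝ) ≤ c := by exact_mod_cast hc
  have hw : w ≤ J := by omega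
  have hck' : 2 * (c : ℝ) ≤ 2 ^ k₀ := by exact_mod_cast hck
  have hsup : ∀ {ω : F.Ω}, 0 < Pool.Agent.H49.Ent.cond F.p A True ω → A ω := fun {ω} hω => by
    have := ((cond_pos_iff F.isLaw.nonneg A True ω).1 hω).2
    exact of_eq_true this
  -- the numbers
  have q1 : (2 : ℝ) ^ w₁ / 2 ^ MU' ≤ 2 ^ w / 2 ^ (NU + I + k₀) := by
    rw [div_le_div_iff₀ (by positivity) (by positivity), ← pow_add, ← pow_add]
    exact pow_le_pow_right₀ (by norm_num) (by omega)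
  have q2 : (2 : ℝ) ^ w₁ / 2 ^ MV' ≤ 2 ^ w / 2 ^ (NV + I + 1) := by
    rw [div_le_div_iff₀ (by positivity) (by positivity), ← pow_add, ← pow_add]
    exact pow_le_pow_right₀ (by norm_num) (by omega)
  have q3 : (2 : ℝ) ^ w / 2 ^ (NU + I + k₀) ≤ 2 ^ w / 2 ^ (NU + I) :=
    div_le_div_of_nonneg_left (by positivity) (by positivity)
      (pow_le_pow_right₀ (by norm_num) (by omega))
  have q4 : (2 : ℝ) ^ w / 2 ^ (NU + I) ≤ 2 ^ w / 2 ^ NU :=
    div_le_div_of_nonneg_left (by positivity) (by positivity)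
      (pow_le_pow_right₀ (by norm_num) (by omega))
  have q5 : (2 : ℝ) ^ w / 2 ^ (NV + I + 1) ≤ 2 ^ w / 2 ^ NV :=
    div_le_div_of_nonneg_left (by positivity) (by positivity)
      (pow_le_pow_right₀ (by norm_num) (by omega))
  have q6 : (c : ℝ) * (2 ^ NU / 2 ^ NV) * (2 ^ w / 2 ^ (NU + I + k₀)) ≤
      2 ^ w / 2 ^ (NV + I + 1) := by
    have e1 : (c : ℝ) * (2 ^ NU / 2 ^ NV) * (2 ^ w / 2 ^ (NU + I + k₀)) =
        (2 * c / 2 ^ k₀) * (2 ^ w / 2 ^ (NV + I + 1)) := by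
      rw [pow_add, pow_add, pow_add, pow_add]
      field_simp
    rw [e1]
    refine mul_le_of_le_one_left (by positivity) ?_
    rw [div_le_one (by positivity)]
    exact hck'
  have q7 : (2 : ℝ) ^ w / 2 ^ (NV + I + 1) + 2 ^ w / 2 ^ (NV + I + 1) = 2 ^ w / 2 ^ (NV + I) := by
    rw [pow_succ]
    field_simp
    norm_num
  have q8 : (2 : ℝ) ^ w₀ ≤ 2 ^ w := pow_le_pow_right₀ (by norm_num) hw0
  -- the geometry of a sample
  have key : ∀ ω, A ω →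
      |((fC F w₁ a' b' ω).ju (hC F w w₀ a b ω)).1| ≤ 3 * c * (2 ^ w / 2 ^ NU) ∧
      |((fC F w₁ a' b' ω).ju (hC F w w₀ a b ω)).2| ≤ 3 * c * (2 ^ w / 2 ^ NU) ∧
      |((fC F w₁ a' b' ω).jv (hC F w w₀ a b ω)).1| ≤ 4 * c * (2 ^ w / 2 ^ NV) ∧
      |((fC F w₁ a' b' ω).jv (hC F w w₀ a b ω)).2| ≤ 4 * c * (2 ^ w / 2 ^ NV) ∧
      |(lnF F y u v w ω).hu' (hC F w w₀ a b ω) - (((fC F w₁ a' b' ω).ju (hC F w w₀ a b ω)).1 +
        (lnF F y u v w ω).e * ((fC F w₁ a' b' ω).ju (hC F w w₀ a b ω)).2)| ≤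
          2 ^ w / 2 ^ (NU + I + k₀) ∧
      |(lnF F y u v w ω).hv' (hC F w w₀ a b ω) - (((fC F w₁ a' b' ω).jv (hC F w w₀ a b ω)).1 +
        (lnF F y u v w ω).e * ((fC F w₁ a' b' ω).jv (hC F w w₀ a b ω)).2)| ≤
          2 ^ w / 2 ^ (NV + I + 1) + c * (2 ^ NU / 2 ^ NV) * (2 ^ w / 2 ^ (NU + I + k₀)) := by
    intro ω hω
    have e1 : (lnF F y u v w ω).du - a (slam F w₀ ω) 1 - a (slam F w₀ ω) 2 *
        (lnF F y u v w ω).e = ov F y y u (a (slam F w₀ ω)) ω := by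
      unfold ov lnF
      rw [h.a3]
      ring
    have e2 : (lnF F y u v w ω).dv - b (slam F w₀ ω) 1 - b (slam F w₀ ω) 2 *
        (lnF F y u v w ω).e - b (slam F w₀ ω) 3 * (lnF F y u v w ω).du =
        ov F y u v (b (slam F w₀ ω)) ω := by
      unfold ov lnF
      ring
    have e3 : (lnF F y u v w ω).du - a' (slam F w₁ ω) 1 - a' (slam F w₁ ω) 2 *
        (lnF F y u v w ω).e = ov F y y u (a' (slam F w₁ ω)) ω := by
      unfold ov lnF
      rw [h.a3']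
      ring
    have e4 : (lnF F y u v w ω).dv - b' (slam F w₁ ω) 1 - b' (slam F w₁ ω) 2 *
        (lnF F y u v w ω).e - b' (slam F w₁ ω) 3 * (lnF F y u v w ω).du =
        ov F y u v (b' (slam F w₁ ω)) ω := by
      unfold ov lnF
      ring
    refine geo_deep (A := 2 ^ w / 2 ^ NU) (B := 2 ^ w / 2 ^ NV) (R := 2 ^ NU / 2 ^ NV) hcr
      (by positivity) (by field_simp) (by positivity) (F.dir ω y) ?_ ?_ ?_ ?_ ?_ ?_
      (n.n2 ω hω) (n.n3 ω hω) (n.n4 ω hω)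
    · rw [e1]
      refine (h.cu.vel ω hω).trans ?_
      exact div_le_div₀ (by positivity) q8 (by positivity)
        (pow_le_pow_right₀ (by norm_num) h1)
    · rw [e2]
      refine (h.cv.vel ω hω).trans ?_
      exact div_le_div₀ (by positivity) q8 (by positivity)
        (pow_le_pow_right₀ (by norm_num) h2)
    · rw [e3]
      exact (h.cu'.vel ω hω).trans q1
    · rw [e4]
      exact (h.cv'.vel ω hω).trans q2
    · exact q3.trans q4
    · exact q5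
  have m1 : (3 : ℝ) * c * (2 ^ w / 2 ^ NU) ≤ ((4 * c : ℕ) : ℝ) * (2 ^ w / 2 ^ NU) := by
    push_cast
    refine mul_le_mul_of_nonneg_right (by linarith) (by positivity)
  have m2 : (4 : ℝ) * c * (2 ^ w / 2 ^ NV) = ((4 * c : ℕ) : ℝ) * (2 ^ w / 2 ^ NV) := by
    push_cast
    ring
  refine ⟨by omega, hwI, fun ω hω => ?_, fun ω hω => ?_, fun ω hω => ?_, fun ω hω => ?_,
    fun ω hω => ?_, fun ω _ => yc_of F y u v hw ω⟩
  · obtain ⟨k1, k2, k3, k4, -, -⟩ := key ω (hsup hω)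
    exact ⟨F.dir ω y, k1.trans m1, k2.trans m1, k3.trans m2.le, k4.trans m2.le⟩
  · obtain ⟨-, -, -, -, k5, -⟩ := key ω (hsup hω)
    exact k5.trans q3
  · obtain ⟨-, -, -, -, -, k6⟩ := key ω (hsup hω)
    linarith
  · have hω' := hsup hω
    have e1 : (lnF F y u v w ω).hu (hC F w w₀ a b ω) (tT J w (F.T ω)) =
        oh F y y u (a (slam F w₀ ω)) ω := by
      unfold hC
      rw [lnF_hu F y u v hw]
      unfold oh
      rw [h.a3]
      ring
    rw [e1, lnF_y F y u v hw ω]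
    have e2 : oh F y y u (a (slam F w₀ ω)) ω - (AuC F w₀ w₁ a a' ω +
        ((fC F w₁ a' b' ω).ju (hC F w w₀ a b ω)).2 * F.x ω y) =
        oh F y y u (a' (slam F w₁ ω)) ω := by
      have : ((fC F w₁ a' b' ω).ju (hC F w w₀ a b ω)).2 =
        a' (slam F w₁ ω) 2 - a (slam F w₀ ω) 2 := rfl
      rw [this]
      unfold oh AuC
      rw [h.a3, h.a3']
      ring
    rw [e2]
    refine (h.cu'.pos ω hω').trans ?_
    refine div_le_div₀ (by positivity) ?_ (by positivity)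
      (pow_le_pow_right₀ (by norm_num) (by omega))
    push_cast
    linarith
  · have hω' := hsup hω
    have e1 : (lnF F y u v w ω).hv (hC F w w₀ a b ω) (tT J w (F.T ω)) =
        oh F y u v (b (slam F w₀ ω)) ω := by
      unfold hC
      rw [lnF_hv F y u v hw]
      rfl
    rw [e1, lnF_y F y u v hw ω]
    have e2 : oh F y u v (b (slam F w₀ ω)) ω - (AvC F w₀ w₁ b a' b' ω +
        ((fC F w₁ a' b' ω).jv (hC F w w₀ a b ω)).2 * F.x ω y) =
        oh F y u v (b' (slam F w₁ ω)) ω +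
        (b' (slam F w₁ ω) 3 - b (slam F w₀ ω) 3) * oh F y y u (a' (slam F w₁ ω)) ω := by
      have : ((fC F w₁ a' b' ω).jv (hC F w w₀ a b ω)).2 =
        (b' (slam F w₁ ω) 2 + b' (slam F w₁ ω) 3 * a' (slam F w₁ ω) 2) - b (slam F w₀ ω) 2 -
          b (slam F w₀ ω) 3 * a' (slam F w₁ ω) 2 := rfl
      rw [this]
      unfold oh AvC
      rw [h.a3']
      ring
    rw [e2]
    refine (abs_add_le _ _).trans ?_
    rw [abs_mul]
    have r1 : |oh F y u v (b' (slam F w₁ ω)) ω| ≤ 1 / 2 ^ (NV + I) :=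
      (h.cv'.pos ω hω').trans (inv_mono (by omega))
    have r2 : |b' (slam F w₁ ω) 3 - b (slam F w₀ ω) 3| * |oh F y y u (a' (slam F w₁ ω)) ω| ≤
        c * (2 ^ NU / 2 ^ NV) * (1 / 2 ^ (NU + I)) :=
      mul_le_mul (n.n3 ω hω') ((h.cu'.pos ω hω').trans (inv_mono (by omega)))
        (abs_nonneg _) (by positivity)
    have r3 : (c : ℝ) * (2 ^ NU / 2 ^ NV) * (1 / 2 ^ (NU + I)) = c / 2 ^ (NV + I) := by
      rw [pow_add, pow_add]
      field_simp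
    have r4 : ((4 * c : ℕ) : ℝ) / 2 ^ (NV + I) = (1 / 2 ^ (NV + I) + c / 2 ^ (NV + I)) +
        (3 * c - 1) / 2 ^ (NV + I) := by
      push_cast
      ring
    have r5 : 0 ≤ (3 * (c : ℝ) - 1) / 2 ^ (NV + I) := div_nonneg (by linarith) (by positivity)
    linarith

end Pool.OWN17
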