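import Pool.Agent.H17.COR.Cra
import Pool.Agent.H92.GN.FreeX

/-!
# The first digits of the direction are free

`qDr`: the digits of the velocity of one coordinate. `free_dir`: their numbers given the exact
position of the coordinate, the time and the record of the window are almost constant in the boxes of
almost every point, for few digits.
-/

set_option autoImplicit false

namespace Pool.OWN17

open Finset Real MvPolynomial MeasureTheory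
open Pool.Agent.H49.Ent Pool.Agent.H32.Dense Pool.STK Pool.KA Pool.KSAT Pool.K2S Pool.PB Pool.S6C
  Pool.GEN Pool.RCD Pool.LA91

variable {m : ℕ}

/-- The digits of the velocity of `y`. -/
def qDr (m : ℕ) (y : Fin m) (n : ℕ → ℕ) : Qt m ℤ where
  P _ _ J F _ u := u = fun ω => F.D (n J) ω y
  sub := fun _ h => h
  mono := fun _ _ h => h

/-- The exact position of `y`, the time and the code. -/
noncomputable def v0F (y : Fin m) (J : ℕ) (F : Fam m J) (ω : F.Ω) : ℕ × (ℤ × F.ζ) :=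
  (F.T ω, (F.X J ω y, F.Z ω))

theorem vg_mono' {w w' : ℝ} (h : w ≤ w') (J : ℕ) (F : Fam m J) :
    ∃ φ : LnT F → LnT F, ∀ ω, vg w J F ω = φ (vg w' J F ω) := by
  have h1 : ⌊w * (J : ℝ)⌋₊ ≤ ⌊w' * (J : ℝ)⌋₊ :=
    Nat.floor_le_floor (mul_le_mul_of_nonneg_right h (Nat.cast_nonneg (α := ℝ) J))
  refine ⟨fun s => (s.1, s.2.1, s.2.2 / 2 ^ ((J - ⌊w * (J : ℝ)⌋₊) - (J - ⌊w' * (J : ℝ)⌋₊))),
    fun ω => ?_⟩
  show (F.l ω, F.Z ω, F.T ω / 2 ^ (J - ⌊w * (J : ℝ)⌋₊)) = (F.l ω, F.Z ω,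
    F.T ω / 2 ^ (J - ⌊w' * (J : ℝ)⌋₊) / 2 ^ ((J - ⌊w * (J : ℝ)⌋₊) - (J - ⌊w' * (J : ℝ)⌋₊)))
  rw [Nat.div_div_eq_div_mul, ← pow_add]
  congr 4
  omega

theorem cnt_dir {J : ℕ} (F : Fam m J) (y : Fin m) (n : ℕ) (A : F.Ω → Prop) :
    (Pool.S6C.cnt F.p (fun ω => F.D n ω y) A : ℝ) ≤ 5 * 2 ^ n := by
  have p1 : (1 : ℝ) ≤ 2 ^ n := one_le_pow₀ (by norm_num)
  have h1 := cnt_le_of_abs (p := F.p) (u := fun ω => F.D n ω y) (A := A) (B := 2 ^ n + 1)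
    (by positivity) (fun ω _ => by
      have f1 := Int.floor_le ((2 : ℝ) ^ n * F.d ω y)
      have f2 := Int.lt_floor_add_one ((2 : ℝ) ^ n * F.d ω y)
      have f3 := abs_le.1 (F.dir ω y)
      have f4 : (2 : ℝ) ^ n * F.d ω y ≤ 2 ^ n * 1 :=
        mul_le_mul_of_nonneg_left f3.2 (by positivity)
      have f5 : (2 : ℝ) ^ n * (-1) ≤ 2 ^ n * F.d ω y :=
        mul_le_mul_of_nonneg_left f3.1 (by positivity)
      show |((⌊(2 : ℝ) ^ n * F.d ω y⌋ : ℤ) : ℝ)| ≤ 2 ^ n + 1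
      rw [abs_le]
      constructor <;> linarith)
  linarith

/-- **The first digits of the direction are free.** -/
theorem free_dir {S : PCl m} (hS : S.Ne)
    (hpos : ∀ (τ : ℝ) (J : ℕ) (F : Fam m J) (A : F.Ω → Prop), S.St τ J F A → 0 < Pe F.p A)
    (y : Fin m) {s A B : ℝ} {η : ℚ → ℝ}
    (hη : ∀ w : ℚ, A ≤ w → (w : ℝ) ≤ B → RNum S (fun J F => ptr F J) (vg ((w : ℝ) + s)) (η w)) :
    ∃ S' : PCl m, S'.Ne ∧
      (∀ (τ : ℝ) (J : ℕ) (F : Fam m J) (A : F.Ω → Prop), S'.St τ J F A → S.St τ J F A) ∧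
      ∃ θ : ℕ → ℚ → ℝ, (∀ k (w : ℚ), A ≤ w → (w : ℝ) ≤ B → NN S' (fun J F => ptr F J)
        (vg ((w : ℝ) + s)) (v0F y) (qDr m y (fun J => ⌊(1 / 2 : ℝ) ^ k * J⌋₊)) (θ k w)) ∧
      ∀ᵐ w₀ : ℝ, w₀ ∈ Set.Ioo A B → ∃ r₀ : ℝ, 0 < r₀ ∧ ∀ ε : ℝ, 0 < ε → ∃ k₀ : ℕ, ∀ k ≥ k₀,
        ∀ r : ℝ, 0 < r → r < r₀ → ∀ w w' : ℚ, w₀ - r ≤ w → w ≤ w' → (w' : ℝ) ≤ w₀ + r →
          θ k w - θ k w' ≤ ε * r := by
  classical
  have few : ∀ (k : ℕ) (w w' : ℚ), Few S (fun J F => ptr F J) (vg ((w : ℝ) + s)) (v0F y)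
      (qDr m y (fun J => ⌊(1 / 2 : ℝ) ^ k * J⌋₊)) (qDr m y (fun J => ⌊(1 / 2 : ℝ) ^ k * J⌋₊)) := by
    intro k w w' h hh
    refine ⟨1, one_pos, fun K => ?_⟩
    refine Bas.mono 0 (pos_bas hpos) ?_
    rintro J - F A' hA u u' hu hu'
    have hu2 : u = fun ω => F.D ⌊(1 / 2 : ℝ) ^ k * J⌋₊ ω y := hu
    have hu3 : u' = fun ω => F.D ⌊(1 / 2 : ℝ) ^ k * J⌋₊ ω y := hu'
    have hl := isLaw_cond F.isLaw hA
    refine ⟨Unit, fun _ => (), ⟨⟨fun _ => (), fun _ _ => rfl⟩, fun _ => (), fun _ _ => rfl⟩, ?_⟩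
    have h0 : CH (Pool.Agent.H49.Ent.cond F.p A' True) u'
        (fun ω => (u ω, (((), v0F y J F ω) : Unit × _))) = 0 := by
      refine CH_eq_zero hl.nonneg fun ω ω' _ _ hh => ?_
      have := (Prod.ext_iff.mp hh).1
      rw [hu3]
      rw [hu2] at this
      exact this
    rw [h0]
    positivity
  have exs : ∀ (k : ℕ), Exs S (qDr m y (fun J => ⌊(1 / 2 : ℝ) ^ k * J⌋₊)) := by
    intro k e he
    refine ⟨0, 4, 1, one_pos, 1, fun J hJ F A' _ => ⟨_, rfl, ?_⟩⟩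
    refine (cnt_dir F y _ A').trans ?_
    have hJ1 : (1 : ℝ) ≤ J := by exact_mod_cast hJ
    have hn : ⌊(1 / 2 : ℝ) ^ k * (J : ℝ)⌋₊ ≤ J := by
      have h1 : (1 / 2 : ℝ) ^ k * J ≤ J := by
        have : (1 / 2 : ℝ) ^ k ≤ 1 := pow_le_one₀ (by norm_num) (by norm_num)
        nlinarith
      have h2 := Nat.floor_le_floor h1
      rwa [Nat.floor_natCast] at h2
    have e1 : (2 : ℝ) ^ ⌊(1 / 2 : ℝ) ^ k * (J : ℝ)⌋₊ ≤ Real.exp J := by
      have h3 : (2 : ℝ) ≤ Real.exp 1 := by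
        have := Real.add_one_le_exp (1 : ℝ)
        linarith
      calc (2 : ℝ) ^ ⌊(1 / 2 : ℝ) ^ k * (J : ℝ)⌋₊ ≤ 2 ^ J := pow_le_pow_right₀ (by norm_num) hn
        _ ≤ Real.exp 1 ^ J := pow_le_pow_left₀ (by norm_num) h3 J
        _ = Real.exp J := by rw [← Real.exp_nat_mul, mul_one]
    have e2 : (5 : ℝ) ≤ Real.exp (3 * J) := by
      have h3 := Real.add_one_le_exp (3 * (J : ℝ))
      have h4 : Real.exp (3 : ℝ) ≤ Real.exp (3 * J) := Real.exp_le_exp.2 (by linarith)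
      have h5 : (5 : ℝ) ≤ Real.exp 3 := by
        have h6 : (2.7 : ℝ) ≤ Real.exp 1 := by
          have := Real.exp_one_gt_d9
          linarith
        have h7 : Real.exp 3 = Real.exp 1 * Real.exp 1 * Real.exp 1 := by
          rw [← Real.exp_add, ← Real.exp_add]
          norm_num
        rw [h7]
        nlinarith [mul_le_mul h6 h6 (by norm_num) (by linarith)]
      linarith
    have e3 : Real.exp (4 * (J : ℝ)) = Real.exp (3 * J) * Real.exp J := by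
      rw [← Real.exp_add]
      congr 1
      ring
    rw [e3]
    exact mul_le_mul e2 e1 (by positivity) (Real.exp_pos _).le
  obtain ⟨S', h1, h2, h3⟩ := nn_ext_ct hS hpos (ι := ℕ × ℚ) (fun _ => ℤ)
    (fun _ _ F => PtT F) (fun _ _ F => LnT F) (fun _ _ F => ℕ × (ℤ × F.ζ)) (fun _ J F => ptr F J)
    (fun i => vg ((i.2 : ℝ) + s)) (fun _ => v0F y)
    (fun i => qDr m y (fun J => ⌊(1 / 2 : ℝ) ^ i.1 * J⌋₊)) (fun i => exs i.1)
    (fun i => few i.1 i.2 i.2)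
  choose θ hθ using h3
  refine ⟨S', h1, h2, fun k w => θ (k, w), fun k w _ _ => hθ (k, w), ?_⟩
  have hpos' : ∀ (τ : ℝ) (J : ℕ) (F : Fam m J) (A : F.Ω → Prop), S'.St τ J F A → 0 < Pe F.p A :=
    fun τ J F A h => hpos τ J F A (h2 τ J F A h)
  exact free_fix (c := 2) h1 hpos' (fun _ J F => ptr F J) (fun w => vg ((w : ℝ) + s)) (fun _ _ => v0F y)
    (fun w w' _ J F => ⟨id, fun _ => rfl⟩)
    (fun w w' h J F => vg_mono' (by
      have : (w : ℝ) ≤ w' := by exact_mod_cast h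
      linarith) J F)
    (fun k w w' _ J F => ⟨id, fun _ => rfl⟩) (by norm_num)
    (fun w a b => (hη w a b).sub h2)
    (fun k _ => qDr m y (fun J => ⌊(1 / 2 : ℝ) ^ k * J⌋₊)) (by
      intro k w _ _ e he
      obtain ⟨J₁, hJ₁⟩ := exists_nat_ge (2 / (1 / 2 : ℝ) ^ k)
      refine ⟨0, 1, one_pos, J₁, fun J hJ F A' _ => ⟨_, rfl, ?_⟩⟩
      refine (cnt_dir F y _ A').trans ?_
      have hJr : (J₁ : ℝ) ≤ J := by exact_mod_cast hJ
      have pk : (0 : ℝ) < (1 / 2 : ℝ) ^ k := by positivity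
      have l1 := hJ₁.trans hJr
      rw [div_le_iff₀ pk] at l1
      obtain ⟨l, hl⟩ : ∃ l : ℝ, l = (1 / 2 : ℝ) ^ k * J := ⟨_, rfl⟩
      have hl2 : 2 ≤ l := by rw [hl]; linarith
      show 5 * (2 : ℝ) ^ ⌊(1 / 2 : ℝ) ^ k * (J : ℝ)⌋₊ ≤ _
      rw [← hl]
      have n1 : (⌊l⌋₊ : ℝ) ≤ l := Nat.floor_le (by linarith)
      have e1 : (2 : ℝ) ^ ⌊l⌋₊ ≤ Real.exp l := by
        have h3 : (2 : ℝ) ≤ Real.exp 1 := by
          have := Real.add_one_le_exp (1 : ℝ)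
          linarith
        calc (2 : ℝ) ^ ⌊l⌋₊ ≤ Real.exp 1 ^ ⌊l⌋₊ := pow_le_pow_left₀ (by norm_num) h3 _
          _ = Real.exp ⌊l⌋₊ := by rw [← Real.exp_nat_mul, mul_one]
          _ ≤ Real.exp l := Real.exp_le_exp.2 n1
      have e2 : (5 : ℝ) ≤ Real.exp l := by
        have h4 : Real.exp (2 : ℝ) ≤ Real.exp l := Real.exp_le_exp.2 hl2
        have h5 : (5 : ℝ) ≤ Real.exp 2 := by
          have h6 : (2.7 : ℝ) ≤ Real.exp 1 := by
            have := Real.exp_one_gt_d9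
            linarith
          have h7 : Real.exp 2 = Real.exp 1 * Real.exp 1 := by
            rw [← Real.exp_add]
            norm_num
          rw [h7]
          nlinarith [mul_le_mul h6 h6 (by norm_num) (by linarith)]
        linarith
      have e3 : Real.exp (2 * (1 / 2 : ℝ) ^ k * (J : ℝ)) = Real.exp l * Real.exp l := by
        rw [← Real.exp_add, hl]
        congr 1
        ring
      rw [e3]
      exact mul_le_mul e2 e1 (by positivity) (Real.exp_pos _).le)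
    (fun k w w' _ _ _ => (few k w' w').sub h2) (fun k w _ _ => hθ (k, w))

end Pool.OWN17
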