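import Pool.Agent.H17.COR.Nbx
import Pool.Agent.H17.COR.Pst
import Pool.Agent.H17.COR.Frq

/-!
# The numbers of one event

`NbxS`: the statement of `nump_box` for one event. `num_evt`: the numbers of the parts of an event
with closed charts and maximal records.
-/

set_option autoImplicit false

namespace Pool.OWN17

open Finset Real MvPolynomial
open Pool.Agent.H49.Ent Pool.Agent.H32.Dense Pool.STK Pool.KA Pool.KSAT Pool.K2S Pool.PB Pool.S6C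
  Pool.GEN Pool.RCD Pool.LA91 Pool.MIC6
open Pool.GRD (LbP)
open Pool.KM7 (P2)

variable {m : ℕ}

/-- The statement of `nump_box` for one event. -/
def NbxS (y u v : Fin m) (s : ℝ) (U : ℚ → ℝ) (g : ℚ) {ι : Type} (q : ι → ℚ) (x : ι → ℝ)
    (lam : ℝ) (ia ib : ι) (θJ θD : ι → ι → ℝ) (kM e₀ κn en ec c₀ : ℝ) : Stat m := fun J F A =>
  ∀ (Z : Type) (z : ι → F.Ω → Z), (∀ i, Mx (fun J F => ptr F J) (vg (x i)) kM F A (z i)) →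
  ∀ uu vv : ι → ι → F.Ω → ℤ × ℤ,
  (∀ i j, q i ≤ q j → (gX m {y} u v s U g (q i) (q j)).P 4 e₀ J F A (uu i j)) →
  (∀ i j, q i ≤ q j → (gD m {y} u v s U g (q i) (q j)).P 4 e₀ J F A (vv i j)) →
  ∀ el, (qDr m y (fun J => ⌊lam * J⌋₊)).P 4 e₀ J F A el → ∀ B' : F.Ω → Prop, Sub B' A →
  c₀ * Pe F.p A ≤ Pe F.p B' →
  ∀ (𝒮 𝒵 : Type) (cs : F.Ω → 𝒮) (z' : F.Ω → 𝒵) (T : F.Ω → ℕ) (Y : F.Ω → ℤ),
  CH (Pool.Agent.H49.Ent.cond F.p B' True) (fun ω => (z ia ω, v0F y J F ω))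
    (fun ω => (cs ω, (T ω, Y ω))) ≤ ec * J →
  CH (Pool.Agent.H49.Ent.cond F.p B' True) (fun ω => (z' ω, (cs ω, (T ω, Y ω))))
    (fun ω => (z ib ω, v0F y J F ω)) ≤ ec * J →
  NumP (Pool.Agent.H49.Ent.cond F.p B' True) x z (yF F y ⌊lam * J⌋₊) uu vv
    (fun i j => θJ i j * J) (fun i j => θD i j * J) (κn * J) (en * J) el z' cs T Y

/-- The record with the codes is maximal, for one event. -/
theorem zpF_mx1 {J : ℕ} {F : Fam m J} {ι : Type} [DecidableEq ι] {V : Type} {x : ι → ℝ}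
    (hx1 : ∀ i, x i ≤ 1) {iW iO : ι} {z : ι → LnT F → V} {a b : ι → LnT F → Fin 4 → ℝ}
    {κ ι' k : Fin m} {M M' E E' Mu Mu' Eu Eu' : ℕ} {A : F.Ω → Prop} {h : ℝ}
    (hA : IsLaw (Pool.Agent.H49.Ent.cond F.p A True))
    (c1 : ChA F κ κ ι' ⌊x iW * J⌋₊ Mu Eu (a iW) A) (c2 : ChA F κ ι' k ⌊x iW * J⌋₊ M E (b iW) A)
    (c3 : ChA F κ κ ι' ⌊x iO * J⌋₊ Mu' Eu' (a iO) A)
    (c4 : ChA F κ ι' k ⌊x iO * J⌋₊ M' E' (b iO) A) {i : ι} (hi : x iW ≤ x i)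
    (hz : Mx (fun J F => ptr F J) (vg (x i)) h F A (fun ω => z i (slam F ⌊x i * J⌋₊ ω))) :
    Mx (fun J F => ptr F J) (vg (x i)) h F A (zpF F x iW iO z a b i) := by
  have hcrs : ∀ j : ι, x j ≤ x i → ∃ φ : LnT F → LnT F, ∀ ω, A ω → slam F ⌊x j * J⌋₊ ω =
      φ (vg (x i) J F ω) := fun j hj => by
    obtain ⟨φ, hφ⟩ := vg_mono hj (hx1 i) J F
    exact ⟨φ, fun ω _ => hφ ω⟩
  have q1 : Cl2 (ptr F J) (vg (x i) J F) A (fun ω => (a iW (slam F ⌊x iW * J⌋₊ ω),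
      b iW (slam F ⌊x iW * J⌋₊ ω))) :=
    (c1.cl2.join c2.cl2).mono ⟨id, fun _ _ => rfl⟩ (hcrs iW hi)
  have q2 : Cl2 (ptr F J) (vg (x i) J F) A (fun ω => if i = iO then
      some (a iO (slam F ⌊x iO * J⌋₊ ω), b iO (slam F ⌊x iO * J⌋₊ ω)) else none) := by
    by_cases hiO : i = iO
    · simp only [hiO, if_true]
      subst hiO
      exact ((c3.cl2.join c4.cl2).comp (fun v => some v)).mono ⟨id, fun _ _ => rfl⟩
        (hcrs i le_rfl)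
    · simp only [hiO, if_false]
      exact ⟨⟨fun _ => none, fun _ _ => rfl⟩, fun _ => none, fun _ _ => rfl⟩
  refine ⟨hz.1.join (q1.join q2), fun V' z' hz' => le_trans ?_ (hz.2 V' z' hz')⟩
  exact CH_mono_cond hA.nonneg fun ω ω' _ _ hh => (Prod.mk.inj hh).1

/-- **The numbers of the parts of an event** with closed charts and maximal records. -/
theorem num_evt {J : ℕ} {F : Fam m J} {A : F.Ω → Prop} {y u v : Fin m} (hyu : y ≠ u) {s : ℝ}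
    {U : ℚ → ℝ} {g : ℚ} {ι : Type} [DecidableEq ι] {q : ι → ℚ} {x : ι → ℝ} {lam : ℝ} {iW iO : ι}
    {θJ θD : ι → ι → ℝ} {kM e₀ κn en ec c₀ : ℝ}
    (hN : NbxS y u v s U g q x lam iW iO θJ θD kM e₀ κn en ec c₀ J F A) (hJ : 1 ≤ J)
    (hA : 0 < Pe F.p A) (hc₀ : 0 < c₀) (hec : 0 ≤ ec) (hx : ∀ i, x i = (q i : ℝ) + s)
    (hx0 : ∀ i, 0 ≤ x i) (hx1 : ∀ i, x i ≤ 1) (hU : ∀ i, U (q i) ≤ 1)
    (hg : ∀ i, U (q i) + g ≤ 1) {V : Type} {z : ι → LnT F → V} {a b : ι → LnT F → Fin 4 → ℝ}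
    {Mu Mv : ι → ℕ} {Eu Ev w : ℕ}
    (hch : ∀ i, ChA F y y u ⌊x i * J⌋₊ (Mu i) Eu (a i) A ∧ (∀ s, a i s 3 = 0) ∧
      ChA F y u v ⌊x i * J⌋₊ (Mv i) Ev (b i) A)
    (h1 : ∀ i, ⌊(U (q i) - e₀) * J⌋₊ ≤ Mu i) (h2 : ∀ i, ⌊(U (q i) + g - e₀) * J⌋₊ ≤ Mv i)
    (hW : ∀ i, x iW ≤ x i) (hWO : iW ≠ iO)
    (hz : ∀ i, Mx (fun J F => ptr F J) (vg (x i)) kM F A (fun ω => z i (slam F ⌊x i * J⌋₊ ω)))
    (hn : ∀ i j : ι, x i ≤ x j → ∀ ω ω' : F.Ω, z j (slam F ⌊x j * J⌋₊ ω) =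
      z j (slam F ⌊x j * J⌋₊ ω') → z i (slam F ⌊x i * J⌋₊ ω) = z i (slam F ⌊x i * J⌋₊ ω'))
    {B : F.Ω → Prop} (hB : Sub B A) (hBA : c₀ * Pe F.p A ≤ Pe F.p B) :
    NumP (Pool.Agent.H49.Ent.cond F.p B True) x (zpF F x iW iO z a b) (yF F y ⌊lam * J⌋₊)
      (uuF F y u v x (fun i => U (q i)) g a b) (vvF F y u v x (fun i => U (q i)) g a b)
      (fun i j => θJ i j * J) (fun i j => θD i j * J) (κn * J) (en * J)
      (fun ω => F.D ⌊lam * J⌋₊ ω y) (zpF F x iW iO z a b iO)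
      (fun ω => ((zpF F x iW iO z a b iW ω, F.Z ω), F.T ω / 2 ^ (J - w))) F.T
      (fun ω => F.X J ω y) := by
  have hl := isLaw_cond F.isLaw hA
  have hB0 : 0 < Pe F.p B := lt_of_lt_of_le (mul_pos hc₀ hA) hBA
  have hlB := isLaw_cond F.isLaw hB0
  have hWJ : ∀ i, ⌊x i * (J : ℝ)⌋₊ ≤ J := fun i => floor_le (hx1 i) J
  have hJ0 : (0 : ℝ) ≤ J := Nat.cast_nonneg J
  refine hN _ (zpF F x iW iO z a b) (fun i => ?_) _ _ (fun i j hij => ?_) (fun i j hij => ?_) _ rfl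
    B hB hBA _ _ _ _ _ _ ?_ ?_
  · exact zpF_mx1 hx1 hl (hch iW).1 (hch iW).2.2 (hch iO).1 (hch iO).2.2 (hW i)
      (hz i)
  · exact (uu_gX hyu hx hJ (hWJ i) (hch i).1 (hch i).2.2 (h1 i) (h2 i) (hx0 j) (hU j) (hg j)
      le_rfl).1
  · exact (uu_gX hyu hx hJ (hWJ i) (hch i).1 (hch i).2.2 (h1 i) (h2 i) (hx0 j) (hU j) (hg j)
      le_rfl).2
  · refine le_trans (le_of_eq ?_) (mul_nonneg hec hJ0)
    refine CH_eq_zero hlB.nonneg fun ω ω' _ _ hh => ?_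
    simp only [Prod.mk.injEq] at hh
    obtain ⟨⟨⟨a1, a2⟩, -⟩, a3, a4⟩ := hh
    simp only [v0F, a1, a2, a3, a4]
  · refine le_trans (le_of_eq ?_) (mul_nonneg hec hJ0)
    refine CH_eq_zero hlB.nonneg fun ω ω' _ _ hh => ?_
    simp only [v0F, Prod.mk.injEq] at hh
    obtain ⟨a1, a2, a3, a4⟩ := hh
    have a5 := zpF_det hn (hW iO) hWO a1
    simp only [a1, a2, a3, a4, a5]

end Pool.OWN17
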