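import Pool.Agent.H17.COR.Slr
import Pool.Agent.H17.COR.Dgr
import Pool.Agent.H6.OWN.Tnt
import Pool.Agent.H6.OWN.Sep

/-!
# The slopes of the labels are separated

`TrI`: the statement of `trn_nat` (helper6) for one event. `trI_use`: the slopes of the label of a
place are separated. `kd_ptr`: the record of the point is a function of the point.
-/

set_option autoImplicit false

namespace Pool.OWN17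

open Finset Real MvPolynomial
open Pool.Agent.H49.Ent Pool.Agent.H32.Dense Pool.STK Pool.KA Pool.KSAT Pool.K2S Pool.PB Pool.S6C
  Pool.GEN Pool.RCD Pool.LA91 Pool.MIC6
open Pool.GRD (LbP)
open Pool.KM7 (P2)

variable {m : ℕ}

/-- The statement of `trn_nat` for one event. -/
def TrI (y u v : Fin m) (W U D x e₀ m1 m2 n1 c η : ℝ) (J : ℕ) (F : Fam m J)
    (A : F.Ω → Prop) : Prop :=
  ∀ (a1 a2 th c1 c2 : PtT F → ℝ) (e M N : ℕ), e ≤ ⌊e₀ * J⌋₊ → ⌊m1 * J⌋₊ ≤ M → ⌊m2 * J⌋₊ ≤ M →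
    ⌊n1 * J⌋₊ ≤ N → Dp F A y u e M a2 a1 →
    ∀ (𝒦 : Type) (K : F.Ω → 𝒦) (B : F.Ω → Prop) (ga gb : LnT F → ℝ), Sub B A →
    Pe F.p A ≤ c * Pe F.p B →
    (∀ ω ω', B ω → B ω' → ptr F J ω = ptr F J ω' → K ω = K ω') →
    (∀ ω, B ω → |th (ptr F J ω)| ≤ 2 ^ ⌊e₀ * J⌋₊ ∧ |c2 (ptr F J ω)| ≤ 2 ^ ⌊e₀ * J⌋₊ ∧
      |F.d ω v - th (ptr F J ω) * F.d ω u - c1 (ptr F J ω) - c2 (ptr F J ω) * F.d ω y| ≤
        1 / 2 ^ N) →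
    (∀ ω, B ω → |gb (slam F ⌊W * J⌋₊ ω)| ≤ 2 ^ ⌊e₀ * J⌋₊ ∧
      |gb (slam F ⌊W * J⌋₊ ω) - th (ptr F J ω)| ≤
        2 ^ ⌊e₀ * J⌋₊ * (2 ^ ⌊U * J⌋₊ / 2 ^ ⌊D * J⌋₊) ∧
      |ga (slam F ⌊W * J⌋₊ ω) + (gb (slam F ⌊W * J⌋₊ ω) - th (ptr F J ω)) *
        a2 (ptr F J ω) - c2 (ptr F J ω)| ≤ 1 / 2 ^ N) →
    law (P2 (cond F.p B True) K)
      (fun v => |gb (slam F ⌊W * J⌋₊ v.1) - gb (slam F ⌊W * J⌋₊ v.2)| * 2 ^ ⌊x * J⌋₊ <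
        3 * (2 ^ ⌊U * J⌋₊ / 2 ^ ⌊D * J⌋₊)) True ≤ η

/-- `trn_nat` in this form. -/
theorem trI_cls {S : PCl m} {C₀ : ℝ} (hC₀ : 0 ≤ C₀) (htm : TmC S C₀)
    {L : Finset (Fin m) → Fin m → ℝ → ℝ → ℝ} (hL : LamW S L) {y u v : Fin m} (hyu : y ≠ u)
    (hact : ActF S y) {W' W r U D x s₁ : ℝ} (hW' : W' < W) (hW0 : 0 < W)
    (hUW : W < L {y} u W' 0) (hU : U ≤ L {y} u W' 0) (hU0 : 0 ≤ U) (hD0 : 0 ≤ D) (hx : 0 < x)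
    (hDW : W ≤ L {y, u} v W r) (hD1 : L {y, u} v W r < 1) (hDx : L {y, u} v W r < D + x)
    (hUD : U < D + x) (hs₁ : 0 < s₁) :
    ∃ e₀ : ℝ, 0 < e₀ ∧ ∀ c η : ℝ, 0 < η → Bas S (TrI y u v W U D x e₀ (L {y} u W' 0 - W)
      (L {y, u} v W r - D + U - W + s₁) (L {y, u} v W r - W + s₁) c η) :=
  trn_nat hC₀ htm hL hyu hact hW' hW0 hUW hU hU0 hD0 hx hDW hD1 hDx hUD hs₁

/-- **The slopes of the label of a place are separated.** -/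
theorem trI_use {J : ℕ} {F : Fam m J} {A : F.Ω → Prop} {y u v : Fin m}
    {W U D x e₀ m1 m2 n1 c η : ℝ} (h : TrI y u v W U D x e₀ m1 m2 n1 c η J F A) (hc : 1 ≤ c)
    {O W₀ : ℝ} {f a b b₀ : LnT F → Fin 4 → ℝ} {MU MV E sN N : ℕ}
    (ha : ChA F y y u ⌊O * J⌋₊ MU E a A) (ha3 : ∀ s, a s 3 = 0)
    (hb : ChA F y u v ⌊O * J⌋₊ MV E b A) (hEe : E ≤ ⌊e₀ * J⌋₊) (hse : sN + 1 ≤ ⌊e₀ * J⌋₊)
    (hf : ∀ ω, A ω → |f (slam F ⌊W * J⌋₊ ω) 3| ≤ 2 ^ ⌊e₀ * J⌋₊)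
    (hsl : ∀ ω, A ω → |f (slam F ⌊W * J⌋₊ ω) 3 - b₀ (slam F ⌊W₀ * J⌋₊ ω) 3| ≤
      2 ^ sN * (2 ^ ⌊U * J⌋₊ / 2 ^ ⌊D * J⌋₊))
    (hq : ∀ ω, A ω → |b (slam F ⌊O * J⌋₊ ω) 3 - b₀ (slam F ⌊W₀ * J⌋₊ ω) 3| ≤
      1 * (2 ^ ⌊U * J⌋₊ / 2 ^ ⌊D * J⌋₊))
    (hti : ∀ ω, A ω → |(f (slam F ⌊W * J⌋₊ ω) 2 - b (slam F ⌊O * J⌋₊ ω) 2) +
      (f (slam F ⌊W * J⌋₊ ω) 3 - b (slam F ⌊O * J⌋₊ ω) 3) * a (slam F ⌊O * J⌋₊ ω) 2| ≤ 1 / 2 ^ N)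
    (hm1 : ⌊m1 * J⌋₊ + ⌊O * J⌋₊ ≤ MU) (hm2 : ⌊m2 * J⌋₊ + ⌊O * J⌋₊ ≤ MU)
    (hn1 : ⌊n1 * J⌋₊ ≤ N) (hn2 : N + ⌊O * J⌋₊ ≤ MV) {𝒦 : Type} {K : F.Ω → 𝒦}
    (hK : ∀ ω ω', A ω → A ω' → ptr F J ω = ptr F J ω' → K ω = K ω') :
    law (P2 (cond F.p A True) K)
      (fun v => |f (slam F ⌊W * J⌋₊ v.1) 3 - f (slam F ⌊W * J⌋₊ v.2) 3| * 2 ^ ⌊x * J⌋₊ <
        3 * (2 ^ ⌊U * J⌋₊ / 2 ^ ⌊D * J⌋₊)) True ≤ η := by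
  obtain ⟨φu, hφu⟩ := ha.cls
  obtain ⟨φv, hφv⟩ := hb.cls
  have hPA := Pe_nonneg F.isLaw A
  have hR : (0 : ℝ) ≤ 2 ^ ⌊U * J⌋₊ / 2 ^ ⌊D * J⌋₊ := by positivity
  refine h (fun s => φu s 1) (fun s => φu s 2) (fun s => φv s 3) (fun s => φv s 1)
    (fun s => φv s 2) E (MU - ⌊O * J⌋₊) N hEe (by omega) (by omega) hn1 (fun ω hω => ?_) 𝒦 K A
    (fun s => f s 2) (fun s => f s 3) (fun ω hω => hω) (by nlinarith) hK (fun ω hω => ?_)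
    (fun ω hω => ?_)
  · have h1 := ha.vel ω hω
    unfold ov at h1
    rw [ha3, zero_mul, add_zero] at h1
    simp only [← hφu ω hω]
    refine ⟨ha.bnd ω hω 2 (by decide), ha.bnd ω hω 1 (by decide), ?_⟩
    have e1 : F.d ω u - a (slam F ⌊O * J⌋₊ ω) 1 - a (slam F ⌊O * J⌋₊ ω) 2 * F.d ω y =
      F.d ω u - (a (slam F ⌊O * J⌋₊ ω) 1 + a (slam F ⌊O * J⌋₊ ω) 2 * F.d ω y) := by ring
    rw [e1]
    refine h1.trans (le_of_eq ?_)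
    rw [div_eq_div_iff (by positivity) (by positivity), one_mul, ← pow_add]
    congr 1
    omega
  · have h1 := hb.vel ω hω
    unfold ov at h1
    simp only [← hφv ω hω]
    have hE2 : (2 : ℝ) ^ E ≤ 2 ^ ⌊e₀ * J⌋₊ := pow_le_pow_right₀ (by norm_num) hEe
    refine ⟨(hb.bnd ω hω 3 (by decide)).trans hE2, (hb.bnd ω hω 2 (by decide)).trans hE2, ?_⟩
    have e1 : F.d ω v - b (slam F ⌊O * J⌋₊ ω) 3 * F.d ω u - b (slam F ⌊O * J⌋₊ ω) 1 -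
        b (slam F ⌊O * J⌋₊ ω) 2 * F.d ω y =
      F.d ω v - (b (slam F ⌊O * J⌋₊ ω) 1 + b (slam F ⌊O * J⌋₊ ω) 2 * F.d ω y +
        b (slam F ⌊O * J⌋₊ ω) 3 * F.d ω u) := by ring
    rw [e1]
    refine h1.trans ?_
    rw [div_le_div_iff₀ (by positivity) (by positivity), one_mul, ← pow_add]
    exact pow_le_pow_right₀ (by norm_num) (by omega)
  · simp only [← hφu ω hω, ← hφv ω hω]
    refine ⟨hf ω hω, ?_, ?_⟩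
    · have h1 := hsl ω hω
      have h2 := hq ω hω
      have h3 := abs_sub_le (f (slam F ⌊W * J⌋₊ ω) 3) (b₀ (slam F ⌊W₀ * J⌋₊ ω) 3)
        (b (slam F ⌊O * J⌋₊ ω) 3)
      rw [abs_sub_comm (b₀ (slam F ⌊W₀ * J⌋₊ ω) 3)] at h3
      have h4 : (2 : ℝ) ^ sN + 1 ≤ 2 ^ ⌊e₀ * J⌋₊ := by
        have h5 : (2 : ℝ) ^ (sN + 1) ≤ 2 ^ ⌊e₀ * J⌋₊ := pow_le_pow_right₀ (by norm_num) hse
        have h6 : (1 : ℝ) ≤ 2 ^ sN := one_le_pow₀ (by norm_num)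
        rw [pow_succ] at h5
        linarith
      have h7 := mul_le_mul_of_nonneg_right h4 hR
      rw [add_mul] at h7
      linarith
    · have h1 := hti ω hω
      have e1 : f (slam F ⌊W * J⌋₊ ω) 2 + (f (slam F ⌊W * J⌋₊ ω) 3 - b (slam F ⌊O * J⌋₊ ω) 3) *
          a (slam F ⌊O * J⌋₊ ω) 2 - b (slam F ⌊O * J⌋₊ ω) 2 =
        (f (slam F ⌊W * J⌋₊ ω) 2 - b (slam F ⌊O * J⌋₊ ω) 2) +
          (f (slam F ⌊W * J⌋₊ ω) 3 - b (slam F ⌊O * J⌋₊ ω) 3) * a (slam F ⌊O * J⌋₊ ω) 2 := by ring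
      rw [e1]
      exact h1

/-- **The record of the point is a function of the point.** -/
theorem kd_ptr {J : ℕ} {F : Fam m J} {A : F.Ω → Prop} {y u v : Fin m} {w w₀ w₁ NU NV n n' : ℕ}
    {MU MV MU' MV' E : ℕ} {a b a' b' : LnT F → Fin 4 → ℝ} {𝒵 𝒵' : Type} {z : F.Ω → 𝒵}
    {zd : F.Ω → 𝒵'} (hw : w ≤ J) (hc : Chd F y u v w₀ w₁ MU MV MU' MV' E a b a' b' A)
    (hu : ∀ ω ω', A ω → A ω' → ptr F J ω = ptr F J ω' →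
      ⌊(2 : ℝ) ^ (NU + n') * oh F y y u (a (slam F w₀ ω)) ω⌋ =
        ⌊(2 : ℝ) ^ (NU + n') * oh F y y u (a (slam F w₀ ω')) ω'⌋)
    (hv : ∀ ω ω', A ω → A ω' → ptr F J ω = ptr F J ω' →
      ⌊(2 : ℝ) ^ (NV + n') * oh F y u v (b (slam F w₀ ω)) ω⌋ =
        ⌊(2 : ℝ) ^ (NV + n') * oh F y u v (b (slam F w₀ ω')) ω'⌋)
    (hz : ∃ φ : PtT F → 𝒵, ∀ ω, A ω → z ω = φ (ptr F J ω))
    (hzd : ∃ φ : PtT F → 𝒵', ∀ ω, A ω → zd ω = φ (ptr F J ω)) :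
    ∀ ω ω', A ω → A ω' → ptr F J ω = ptr F J ω' →
      Kd J w NU NV n n' (lnF F y u v w) (hC F w w₀ a b) (fC F w₁ a' b') F.T
        (fun ω => F.X J ω y) (fun ω => ((z ω, F.Z ω), F.T ω / 2 ^ (J - w))) zd ω =
      Kd J w NU NV n n' (lnF F y u v w) (hC F w w₀ a b) (fC F w₁ a' b') F.T
        (fun ω => F.X J ω y) (fun ω => ((z ω, F.Z ω), F.T ω / 2 ^ (J - w))) zd ω' := by
  intro ω ω' hω hω' hh
  have k1 := hu ω ω' hω hω' hh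
  have k2 := hv ω ω' hω hω' hh
  obtain ⟨φ, hφ⟩ := hz
  obtain ⟨φ', hφ'⟩ := hzd
  obtain ⟨ψ₁, p1⟩ := hc.cu.cls
  obtain ⟨ψ₂, p2⟩ := hc.cv.cls
  obtain ⟨ψ₃, p3⟩ := hc.cu'.cls
  obtain ⟨ψ₄, p4⟩ := hc.cv'.cls
  have hX : F.X J ω = F.X J ω' := (Prod.ext_iff.mp hh).1
  have hT : F.T ω = F.T ω' := (Prod.ext_iff.mp (Prod.ext_iff.mp hh).2).1
  have hZ : F.Z ω = F.Z ω' := (Prod.ext_iff.mp (Prod.ext_iff.mp hh).2).2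
  have e1 : a (slam F w₀ ω) = a (slam F w₀ ω') := by rw [p1 ω hω, p1 ω' hω', hh]
  have e2 : b (slam F w₀ ω) = b (slam F w₀ ω') := by rw [p2 ω hω, p2 ω' hω', hh]
  have e3 : a' (slam F w₁ ω) = a' (slam F w₁ ω') := by rw [p3 ω hω, p3 ω' hω', hh]
  have e4 : b' (slam F w₁ ω) = b' (slam F w₁ ω') := by rw [p4 ω hω, p4 ω' hω', hh]
  have e5 : z ω = z ω' := by rw [hφ ω hω, hφ ω' hω', hh]
  have e6 : zd ω = zd ω' := by rw [hφ' ω hω, hφ' ω' hω', hh]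
  have e7 : tw0 F w ω = tw0 F w ω' := by
    unfold tw0 Fam.T1
    rw [hT]
  have e8 : hC F w w₀ a b ω = hC F w w₀ a b ω' := by
    unfold hC
    rw [e1, e2, e7]
  have e9 : fC F w₁ a' b' ω = fC F w₁ a' b' ω' := by
    unfold fC
    rw [e3, e4]
  have g1 : ∀ ω, hgU J w (NU + n') (lnF F y u v w) (hC F w w₀ a b) F.T ω =
      ⌊(2 : ℝ) ^ (NU + n') * oh F y y u (a (slam F w₀ ω)) ω⌋ := by
    intro ω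
    unfold hgU hC
    rw [lnF_hu F y u v hw]
    unfold oh
    rw [hc.a3, zero_mul, add_zero]
  have g2 : ∀ ω, hgV J w (NV + n') (lnF F y u v w) (hC F w w₀ a b) F.T ω =
      ⌊(2 : ℝ) ^ (NV + n') * oh F y u v (b (slam F w₀ ω)) ω⌋ := by
    intro ω
    unfold hgV hC
    rw [lnF_hv F y u v hw]
    rfl
  have g3 : jU w (NU + n) (fC F w₁ a' b') (hC F w w₀ a b) ω =
      jU w (NU + n) (fC F w₁ a' b') (hC F w w₀ a b) ω' := by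
    unfold jU
    rw [e8, e9]
  have g4 : jV w (NV + n) (fC F w₁ a' b') (hC F w w₀ a b) ω =
      jV w (NV + n) (fC F w₁ a' b') (hC F w w₀ a b) ω' := by
    unfold jV
    rw [e8, e9]
  unfold Kd
  rw [g1 ω, g2 ω, g1 ω', g2 ω', k1, k2, g3, g4]
  simp only [e5, e6, hT, hZ, hX]

end Pool.OWN17
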