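import Pool.Agent.H17.COR.Evt
import Pool.Agent.H17.COR.Trn
import Pool.Agent.H17.COR.Sme

/-!
# The contradiction for one event

`cor_evt`: an event with closed charts, maximal records, numbers, and the data of all places is
impossible.
-/

set_option autoImplicit false

namespace Pool.OWN17

open Finset Real MvPolynomial
open Pool.Agent.H49.Ent Pool.Agent.H32.Dense Pool.STK Pool.KA Pool.KSAT Pool.K2S Pool.PB Pool.S6C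
  Pool.GEN Pool.RCD Pool.LA91 Pool.MIC6
open Pool.GRD (LbP)
open Pool.KM7 (P2)

variable {m : ℕ}

theorem pe_law {Ω : Type} [Fintype Ω] (q : Ω → ℝ) (B : Ω → Prop) : Pe q B = law q B True := by
  classical
  unfold Pe law
  refine Finset.sum_congr rfl fun v _ => ?_
  by_cases h : B v <;> simp [h]

/-- Conditioning twice. -/
theorem cond_two {Ω : Type} [Fintype Ω] (p : Ω → ℝ) {A B : Ω → Prop} (hA : Pe p A ≠ 0) :
    Pool.Agent.H49.Ent.cond (Pool.Agent.H49.Ent.cond p A True) B True =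
      Pool.Agent.H49.Ent.cond p (fun ω => A ω ∧ B ω) True := by
  classical
  have ev : ∀ (r : Ω → ℝ) (E : Ω → Prop) (ω : Ω), Pool.Agent.H49.Ent.cond r E True ω =
      if E ω then r ω / Pe r E else 0 := by
    intro r E ω
    rw [pe_law]
    unfold Pool.Agent.H49.Ent.cond
    by_cases h : E ω
    · simp only [h, if_true]
    · simp [h]
  funext ω
  rw [ev, ev, ev, Pe_cond B]
  by_cases h1 : A ω
  · by_cases h2 : B ω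
    · rw [if_pos h2, if_pos h1, if_pos (⟨h1, h2⟩ : A ω ∧ B ω), div_div_div_cancel_right₀ hA]
    · rw [if_neg h2, if_neg (fun h : A ω ∧ B ω => h2 h.2)]
  · rw [if_neg h1, if_neg (fun h : A ω ∧ B ω => h1 h.1), zero_div, ite_self]

/-- **Upper bound at the places**, for one event. -/
theorem up_evt {mp N : ℕ} {n γ : ℕ → ℕ} (hnN : ∀ k ≤ mp, n k + γ k ≤ N)
    {y u v : Fin m} {ι : Type} [DecidableEq ι] {x U : ι → ℝ} {g : ℝ} {tX tD : ℕ → ι} {iO : ι}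
    {t β : ℝ} {NU NV : ℕ → ℕ} {V : ∀ J : ℕ, Fam m J → Type}
    {z : ∀ (J : ℕ) (F : Fam m J), ι → LnT F → V J F}
    {a b : ι → ∀ (J : ℕ) (F : Fam m J), LnT F → Fin 4 → ℝ} {gJ fD : ι → ι → ℝ}
    {J : ℕ} {F : Fam m J} {A : F.Ω → Prop} (hA : 0 < Pe F.p A)
    (ht1 : t ≤ 1) (hWt : x (tX 0) ≤ t) (hWO : tX 0 ≠ iO)
    (mX : ∀ s s', s ≤ s' → s' ≤ N → x (tX s) ≤ x (tX s'))
    (mD : ∀ k ≤ mp, x (tX (n k + γ k)) ≤ x (tD k)) {I lam : ℕ}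
    (ha3 : ∀ s, a (tX 0) J F s 3 = 0)
    (hD : Dpl (Pool.Agent.H49.Ent.cond F.p A True) 4 J ⌊t * J⌋₊ (NU J) (NV J) I
      (lnF F y u v ⌊t * J⌋₊) (hC F ⌊t * J⌋₊ ⌊x (tX 0) * J⌋₊ (a (tX 0) J F) (b (tX 0) J F))
      (fC F ⌊x iO * J⌋₊ (a iO J F) (b iO J F)) F.T (fun ω => F.X J ω y)
      (AuC F ⌊x (tX 0) * J⌋₊ ⌊x iO * J⌋₊ (a (tX 0) J F) (a iO J F))
      (AvC F ⌊x (tX 0) * J⌋₊ ⌊x iO * J⌋₊ (b (tX 0) J F) (a iO J F) (b iO J F)))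
    (NI : N * ⌊β * J⌋₊ ≤ I) (hlam : N * ⌊β * J⌋₊ ≤ lam) {κn en : ℝ}
    (hM : NumP (Pool.Agent.H49.Ent.cond F.p A True) x
        (zpF F x (tX 0) iO (z J F) (fun i => a i J F) (fun i => b i J F)) (yF F y lam)
        (uuF F y u v x U g (fun i => a i J F) (fun i => b i J F))
        (vvF F y u v x U g (fun i => a i J F) (fun i => b i J F)) gJ fD κn en
        (fun ω => F.D lam ω y)
        (zpF F x (tX 0) iO (z J F) (fun i => a i J F) (fun i => b i J F) iO)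
        (fun ω => ((zpF F x (tX 0) iO (z J F) (fun i => a i J F) (fun i => b i J F) (tX 0) ω,
          F.Z ω), F.T ω / 2 ^ (J - ⌊t * J⌋₊))) F.T (fun ω => F.X J ω y))
    {δ : ℝ} (hδ : 0 ≤ δ)
    (haU : ∀ s ≤ N, |U (tX s) * J - ((NU J : ℝ) + s * ⌊β * J⌋₊)| ≤ δ)
    (haV : ∀ s ≤ N, |(U (tX s) + g) * J - ((NV J : ℝ) + s * ⌊β * J⌋₊)| ≤ δ)
    (hdU : ∀ k ≤ mp, |(U (tD k) - x (tD k)) * J -
      ((NU J : ℝ) + n k * ⌊β * J⌋₊ - ⌊t * J⌋₊)| ≤ δ)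
    (hdV : ∀ k ≤ mp, |(U (tD k) + g - x (tD k)) * J -
      ((NV J : ℝ) + n k * ⌊β * J⌋₊ - ⌊t * J⌋₊)| ≤ δ) {k : ℕ} (hk : k ≤ mp) :
    CH (Pool.Agent.H49.Ent.cond F.p A True)
      (fun ω => (hgU J ⌊t * J⌋₊ (NU J + n k * ⌊β * J⌋₊ + γ k * ⌊β * J⌋₊) (lnF F y u v ⌊t * J⌋₊)
          (hC F ⌊t * J⌋₊ ⌊x (tX 0) * J⌋₊ (a (tX 0) J F) (b (tX 0) J F)) F.T ω,
        hgV J ⌊t * J⌋₊ (NV J + n k * ⌊β * J⌋₊ + γ k * ⌊β * J⌋₊) (lnF F y u v ⌊t * J⌋₊)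
          (hC F ⌊t * J⌋₊ ⌊x (tX 0) * J⌋₊ (a (tX 0) J F) (b (tX 0) J F)) F.T ω))
      (Nd J ⌊t * J⌋₊ (NU J) (NV J) (n k * ⌊β * J⌋₊) (lnF F y u v ⌊t * J⌋₊)
        (hC F ⌊t * J⌋₊ ⌊x (tX 0) * J⌋₊ (a (tX 0) J F) (b (tX 0) J F)) F.T (fun ω => F.X J ω y)
        (fun ω => csF x t (tX 0) z a b J F (slam F ⌊t * J⌋₊ ω))) ≤
      gJ (tX (n k)) (tX (n k + γ k)) - fD (tX (n k)) (tX (n k + γ k)) +
        (8 * κn + 7 * en + Ec 4 δ) := by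
  classical
  obtain ⟨w, hw⟩ : ∃ w, w = ⌊t * (J : ℝ)⌋₊ := ⟨_, rfl⟩
  have hwJ : w ≤ J := by rw [hw]; exact floor_le ht1 J
  have hl := isLaw_cond F.isLaw hA
  have hcsF : (fun ω => csF x t (tX 0) z a b J F (slam F ⌊t * J⌋₊ ω)) =
      (fun ω => ((zpF F x (tX 0) iO (z J F) (fun i => a i J F) (fun i => b i J F) (tX 0) ω,
        F.Z ω), F.T ω / 2 ^ (J - ⌊t * J⌋₊))) := by
    funext ω
    rw [csF_zp (iO := iO) hWO z a b hWt ht1 J F ω]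
  have HA := corA_of (F := F) (y := y) (u := u) (v := v) (x := x) (U := U) (g := g)
    (a := fun i => a i J F) (b := fun i => b i J F) (z := z J F) (A := A) (c := 4)
    (w := ⌊t * J⌋₊)
    (NU := NU J) (NV := NV J) (bb := ⌊β * J⌋₊) (N := N) (mp := mp) (I := I) (lam := lam) (n := n)
    (γ := γ) (δ := δ) (tX := tX) (tD := tD) (iO := iO) (floor_le ht1 J) ha3 hD hδ hnN NI
    (fun k hk => (Nat.mul_le_mul_right _ (by
        have := hnN k hk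
        omega)).trans hlam) haU haV hdU hdV mX mD
  have k1 := up_of hl HA hM hk (Nat.zero_le (γ k))
  rw [zero_mul, add_zero, add_zero, add_zero] at k1
  rw [hcsF]
  exact (ch_Nd hl _ _).trans k1

/-- **The contradiction for one event.** -/
theorem cor_evt {τ₀ τ : ℝ} (hτ₀ : 0 < τ₀) (hτ : τ₀ ≤ τ) {mp N : ℕ} {n γ : ℕ → ℕ}
    (hs : ∀ k, n (k + 1) = n k + γ k) (hγ : ∀ k, γ k ≤ n k) (hnN : ∀ k ≤ mp, n k + γ k ≤ N)
    {y u v : Fin m} {ι : Type} [DecidableEq ι] {x U : ι → ℝ} {g : ℝ} {tX tD : ℕ → ι} {iO : ι}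
    {t β x₁ eU ec : ℝ} {NU NV sN : ℕ → ℕ} {V : ∀ J : ℕ, Fam m J → Type}
    {z : ∀ (J : ℕ) (F : Fam m J), ι → LnT F → V J F}
    {a b : ι → ∀ (J : ℕ) (F : Fam m J), LnT F → Fin 4 → ℝ}
    {f : ℕ → ∀ (J : ℕ) (F : Fam m J), LnT F → Fin 4 → ℝ} {gJ fD : ι → ι → ℝ}
    {J : ℕ} {F : Fam m J} {A : F.Ω → Prop} (hA : 0 < Pe F.p A) (hx1 : ∀ i, x i ≤ 1)
    (ht1 : t ≤ 1) (hWt : x (tX 0) ≤ t)
    (hn : ∀ i j : ι, x i ≤ x j → ∀ ω ω' : F.Ω, z J F j (slam F ⌊x j * J⌋₊ ω) =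
      z J F j (slam F ⌊x j * J⌋₊ ω') → z J F i (slam F ⌊x i * J⌋₊ ω) =
        z J F i (slam F ⌊x i * J⌋₊ ω')) {kM : ℝ}
    (hz : ∀ i, Mx (fun J F => ptr F J) (vg (x i)) kM F A
      (fun ω => z J F i (slam F ⌊x i * J⌋₊ ω)))
    (hW : ∀ i, x (tX 0) ≤ x i) (hXO : ∀ s ≤ N, tX s ≠ iO) (mO : ∀ s ≤ N, x (tX s) ≤ x iO)
    (mX : ∀ s s', s ≤ s' → s' ≤ N → x (tX s) ≤ x (tX s'))
    (mD : ∀ k ≤ mp, x (tX (n k + γ k)) ≤ x (tD k)) {MU MV MU' MV' E I lam : ℕ}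
    (hch : Chd F y u v ⌊x (tX 0) * J⌋₊ ⌊x iO * J⌋₊ MU MV MU' MV' E (a (tX 0) J F) (b (tX 0) J F)
      (a iO J F) (b iO J F) A)
    (hq3 : ∀ ω, A ω → |b iO J F (slam F ⌊x iO * J⌋₊ ω) 3 -
      b (tX 0) J F (slam F ⌊x (tX 0) * J⌋₊ ω) 3| ≤ 1 * (2 ^ NU J / 2 ^ NV J)) (hMU : NU J ≤ MU)
    (hD : Dpl (Pool.Agent.H49.Ent.cond F.p A True) 4 J ⌊t * J⌋₊ (NU J) (NV J) I
      (lnF F y u v ⌊t * J⌋₊) (hC F ⌊t * J⌋₊ ⌊x (tX 0) * J⌋₊ (a (tX 0) J F) (b (tX 0) J F))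
      (fC F ⌊x iO * J⌋₊ (a iO J F) (b iO J F)) F.T (fun ω => F.X J ω y)
      (AuC F ⌊x (tX 0) * J⌋₊ ⌊x iO * J⌋₊ (a (tX 0) J F) (a iO J F))
      (AvC F ⌊x (tX 0) * J⌋₊ ⌊x iO * J⌋₊ (b (tX 0) J F) (a iO J F) (b iO J F)))
    (NI : N * ⌊β * J⌋₊ ≤ I) (hlam : N * ⌊β * J⌋₊ ≤ lam) {κn en c₀ : ℝ} (hc₀ : 0 < c₀)
    (hc₀1 : c₀ ≤ 1)
    (hM : ∀ B : F.Ω → Prop, Sub B A → c₀ * Pe F.p A ≤ Pe F.p B →
      NumP (Pool.Agent.H49.Ent.cond F.p B True) x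
        (zpF F x (tX 0) iO (z J F) (fun i => a i J F) (fun i => b i J F)) (yF F y lam)
        (uuF F y u v x U g (fun i => a i J F) (fun i => b i J F))
        (vvF F y u v x U g (fun i => a i J F) (fun i => b i J F)) gJ fD κn en
        (fun ω => F.D lam ω y)
        (zpF F x (tX 0) iO (z J F) (fun i => a i J F) (fun i => b i J F) iO)
        (fun ω => ((zpF F x (tX 0) iO (z J F) (fun i => a i J F) (fun i => b i J F) (tX 0) ω,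
          F.Z ω), F.T ω / 2 ^ (J - ⌊t * J⌋₊))) F.T (fun ω => F.X J ω y))
    {δ : ℝ} (hδ : 0 ≤ δ)
    (haU : ∀ s ≤ N, |U (tX s) * J - ((NU J : ℝ) + s * ⌊β * J⌋₊)| ≤ δ)
    (haV : ∀ s ≤ N, |(U (tX s) + g) * J - ((NV J : ℝ) + s * ⌊β * J⌋₊)| ≤ δ)
    (hdU : ∀ k ≤ mp, |(U (tD k) - x (tD k)) * J -
      ((NU J : ℝ) + n k * ⌊β * J⌋₊ - ⌊t * J⌋₊)| ≤ δ)
    (hdV : ∀ k ≤ mp, |(U (tD k) + g - x (tD k)) * J -
      ((NV J : ℝ) + n k * ⌊β * J⌋₊ - ⌊t * J⌋₊)| ≤ δ)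
    {E₁ : ℝ}
    (hup : ∀ s s', s ≤ s' → s' ≤ N → gJ (tX s) (tX s') - fD (tX s) (tX s') ≤
      (2 - τ) * (((s' : ℝ) - s) * ⌊β * J⌋₊ * Real.log 2) + E₁)
    (hlo : (2 - τ) * ((γ mp : ℝ) * ⌊β * J⌋₊ * Real.log 2) - E₁ ≤
      gJ (tX (n mp)) (tX (n mp + γ mp)) - fD (tX (n mp)) (tX (n mp + γ mp)))
    (hpl : ∀ k ≤ mp, PlS y u v t (x (tX 0)) (x iO) x₁ eU ec NU NV (fun J => n k * ⌊β * J⌋₊)
      (fun J => γ k * ⌊β * J⌋₊) sN (a (tX 0)) (b (tX 0)) (a iO) (b iO) (csF x t (tX 0) z a b)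
      (f k) J F A)
    {xs η : ℝ} (hx : ∀ k ≤ mp, ⌊xs * J⌋₊ ≤ γ k * ⌊β * J⌋₊) (hxl : ⌊xs * J⌋₊ + 1 ≤ lam)
    (hsep : ∀ (𝒦 : Type) (K : F.Ω → 𝒦) (B : F.Ω → Prop), Sub B A → Pe F.p A ≤ 1 * Pe F.p B →
      (∀ ω ω', B ω → B ω' → ptr F J ω = ptr F J ω' → K ω = K ω') →
      law (P2 (cond F.p B True) K)
        (fun v => |F.d v.1 y - F.d v.2 y| * 2 ^ ⌊xs * J⌋₊ < 2) True ≤ η)
    {U' D' e₀ m1 m2 n1 : ℝ} (htrn : TrI y u v t U' D' xs e₀ m1 m2 n1 1 η J F A)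
    (t1 : E ≤ ⌊e₀ * J⌋₊) (t2 : 1 ≤ ⌊e₀ * J⌋₊) (t3 : ⌊x₁ * J⌋₊ ≤ ⌊e₀ * J⌋₊)
    (t4 : sN J + NU J + ⌊D' * J⌋₊ ≤ ⌊U' * J⌋₊ + NV J)
    (t5 : ∀ k ≤ mp, ⌊n1 * J⌋₊ + 2 + ⌊t * J⌋₊ ≤ NV J + γ k * ⌊β * J⌋₊)
    (t6 : ⌊n1 * J⌋₊ + ⌊x iO * J⌋₊ ≤ MV') (t7 : ⌊m1 * J⌋₊ + ⌊x iO * J⌋₊ ≤ MU')
    (t8 : ⌊m2 * J⌋₊ + ⌊x iO * J⌋₊ ≤ MU')
    (hdu : ∀ ω ω', A ω → A ω' → ptr F J ω = ptr F J ω' →
      ⌊(2 : ℝ) ^ (NU J + (n mp * ⌊β * J⌋₊ + γ mp * ⌊β * J⌋₊)) * oh F y y u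
        (a (tX 0) J F (slam F ⌊x (tX 0) * J⌋₊ ω)) ω⌋ =
        ⌊(2 : ℝ) ^ (NU J + (n mp * ⌊β * J⌋₊ + γ mp * ⌊β * J⌋₊)) * oh F y y u
          (a (tX 0) J F (slam F ⌊x (tX 0) * J⌋₊ ω')) ω'⌋)
    (hdv : ∀ ω ω', A ω → A ω' → ptr F J ω = ptr F J ω' →
      ⌊(2 : ℝ) ^ (NV J + (n mp * ⌊β * J⌋₊ + γ mp * ⌊β * J⌋₊)) * oh F y u v
        (b (tX 0) J F (slam F ⌊x (tX 0) * J⌋₊ ω)) ω⌋ =
        ⌊(2 : ℝ) ^ (NV J + (n mp * ⌊β * J⌋₊ + γ mp * ⌊β * J⌋₊)) * oh F y u v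
          (b (tX 0) J F (slam F ⌊x (tX 0) * J⌋₊ ω')) ω'⌋)
    (hSml : Sml (4 * 2 ^ sN J) mp ⌊β * J⌋₊ ⌊xs * J⌋₊ (4 * (4 * 2 ^ sN J) * 2 ^ (N * ⌊β * J⌋₊))
      (fun k => n k * ⌊β * J⌋₊) (fun k => γ k * ⌊β * J⌋₊) (dl τ₀ mp) (N + 2) c₀
      (E₁ + (8 * κn + 7 * en + Ec (4 * 2 ^ sN J) δ)) (eU * J) (ec * J)
      (en + Ec (4 * 2 ^ sN J) δ) (E₁ + (8 * κn + 13 * en + Ec (4 * 2 ^ sN J) δ)) η) : False := by
  classical
  obtain ⟨w, hw⟩ : ∃ w, w = ⌊t * (J : ℝ)⌋₊ := ⟨_, rfl⟩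
  have hwJ : w ≤ J := by rw [hw]; exact floor_le ht1 J
  obtain ⟨p, hp⟩ : ∃ p, p = Pool.Agent.H49.Ent.cond F.p A True := ⟨_, rfl⟩
  have hl : IsLaw p := by rw [hp]; exact isLaw_cond F.isLaw hA
  obtain ⟨c, hc⟩ : ∃ c : ℕ, c = 4 * 2 ^ sN J := ⟨_, rfl⟩
  have hc1 : 1 ≤ c := by
    rw [hc]
    have := Nat.one_le_two_pow (n := sN J)
    omega
  have hc4 : 4 ≤ c := by
    rw [hc]
    have := Nat.one_le_two_pow (n := sN J)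
    omega
  obtain ⟨zz, hzz⟩ : ∃ zz, zz = zpF F x (tX 0) iO (z J F) (fun i => a i J F) (fun i => b i J F) :=
    ⟨_, rfl⟩
  obtain ⟨cs, hcs⟩ : ∃ cs : F.Ω → _, cs = fun ω => ((zz (tX 0) ω, F.Z ω), F.T ω / 2 ^ (J - w)) :=
    ⟨_, rfl⟩
  have hWO : tX 0 ≠ iO := hXO 0 (Nat.zero_le _)
  have hcsF : (fun ω => csF x t (tX 0) z a b J F (slam F ⌊t * J⌋₊ ω)) = cs := by
    funext ω
    rw [csF_zp (iO := iO) hWO z a b hWt ht1 J F ω, hcs, hzz, hw]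
  have hsup : ∀ {ω}, 0 < p ω → A ω := fun {ω} hω => by
    rw [hp] at hω
    exact sup_cond hω
  -- the families
  have HA := corA_of (F := F) (y := y) (u := u) (v := v) (x := x) (U := U) (g := g)
    (a := fun i => a i J F) (b := fun i => b i J F) (z := z J F) (A := A) (c := c) (w := w)
    (NU := NU J) (NV := NV J) (bb := ⌊β * J⌋₊) (N := N) (mp := mp) (I := I) (lam := lam) (n := n)
    (γ := γ) (δ := δ) (tX := tX) (tD := tD) (iO := iO) hwJ hch.a3 (by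
      rw [hw]
      exact hD.mono_c hc4) hδ hnN NI (fun k hk => (Nat.mul_le_mul_right _ (by
        have := hnN k hk
        omega)).trans hlam) haU haV (by rw [hw]; exact hdU) (by rw [hw]; exact hdV) mX mD
  rw [← hp, ← hzz] at HA
  rw [← hzz] at hM
  -- the records
  have hzx : ∀ i, Mx (fun J F => ptr F J) (vg (x i)) kM F A (zz i) := fun i => by
    rw [hzz]
    exact zpF_mx1 hx1 (isLaw_cond F.isLaw hA) hch.cu hch.cv hch.cu' hch.cv' (hW i) (hz i)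
  have hzdet : ∀ i j, x i ≤ x j → i ≠ iO → ∀ ω ω', zz j ω = zz j ω' → zz i ω = zz i ω' := by
    intro i j hij hi ω ω' hh
    rw [hzz] at hh ⊢
    exact zpF_det hn hij hi hh
  -- the record of the point is a function of the point
  have hK := kd_ptr (F := F) (A := A) (y := y) (u := u) (v := v) (w := w)
    (w₀ := ⌊x (tX 0) * J⌋₊) (w₁ := ⌊x iO * J⌋₊) (NU := NU J) (NV := NV J)
    (n := n mp * ⌊β * J⌋₊) (n' := n mp * ⌊β * J⌋₊ + γ mp * ⌊β * J⌋₊)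
    (z := zz (tX 0)) (zd := zz iO) hwJ hch hdu hdv (hzx (tX 0)).1.1 (hzx iO).1.1
  -- the structure
  have H := corN_of (p := p) (c := c) (J := J) (w := w) (NU := NU J) (NV := NV J) (b := ⌊β * J⌋₊)
    (N := N) (m := mp) (I := I) (n := n) (γ := γ) (δ := δ) (l := lnF F y u v w)
    (h := hC F w ⌊x (tX 0) * J⌋₊ (a (tX 0) J F) (b (tX 0) J F))
    (f := fC F ⌊x iO * J⌋₊ (a iO J F) (b iO J F)) (T := F.T) (Y := fun ω => F.X J ω y)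
    (el := fun ω => F.D lam ω y) (cs := cs) (zd := zz iO) (xw := x) (z := zz)
    (y := yF F y lam) (tX := tX) (tD := tD) (gJ := gJ) (fD := fD) (κ := κn) (e := en)
    (lam := lam) (x := ⌊xs * J⌋₊) (D := 4 * c * 2 ^ (N * ⌊β * J⌋₊)) (τ := τ) (c₀ := c₀)
    (E₁ := E₁) (eU := eU * J) (ec := ec * J) (η := η)
    (q := fun k ω => lbF (tw0 F w ω) (f k J F (slam F w ω))) hl hc₀1 hc₀ (by
      rw [hcs]
      exact HA) ?_ (fun k _ => hs k) (fun k _ => hγ k) hlam hx hxl le_rfl ?_ ?_ ?_ ?_ ?_ ?_ hup hlo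
    ?_ ?_ (fun _ _ _ _ h => h) ?_ ?_
  · subst hc
    exact cor_unif hτ₀ hτ hl hSml H
  · -- the numbers of the parts
    intro B hB
    have h1 : Pool.Agent.H49.Ent.cond p B True =
        Pool.Agent.H49.Ent.cond F.p (fun ω => A ω ∧ B ω) True := by
      rw [hp]
      exact cond_two F.p hA.ne'
    have h2 : c₀ * Pe F.p A ≤ Pe F.p (fun ω => A ω ∧ B ω) := by
      have h3 : law p B True = Pe F.p (fun ω => A ω ∧ B ω) / Pe F.p A := by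
        rw [hp, ← pe_law, Pe_cond]
      rw [h3, le_div_iff₀ hA] at hB
      exact hB
    have h3 := hM (fun ω => A ω ∧ B ω) (fun ω hω => hω.1) h2
    rw [h1, hcs, hw]
    exact h3
  · intro ω hω
    exact fl_near lam (F.d ω y) |> fun h => by
      rw [abs_sub_comm]
      exact h
  · intro ω hω
    have e1 : (lnF F y u v w ω).hu (hC F w ⌊x (tX 0) * J⌋₊ (a (tX 0) J F) (b (tX 0) J F) ω)
        (tT J w (F.T ω)) = oh F y y u (a (tX 0) J F (slam F ⌊x (tX 0) * J⌋₊ ω)) ω := by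
      unfold hC
      rw [lnF_hu F y u v hwJ]
      unfold oh
      rw [hch.a3]
      ring
    rw [e1]
    refine (hch.cu.pos ω (hsup hω)).trans ?_
    exact div_le_div₀ (Nat.cast_nonneg c) (by exact_mod_cast hc1) (by positivity)
      (pow_le_pow_right₀ (by norm_num) hMU)
  · -- the charts are functions of the codes
    intro ω ω' _ _ hh
    rw [hcs, hzz] at hh
    simp only [zpF, Prod.mk.injEq] at hh
    obtain ⟨⟨⟨-, ⟨a1, a2⟩, -⟩, -⟩, a3⟩ := hh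
    have e1 : tw0 F w ω = tw0 F w ω' := by
      unfold tw0 Fam.T1
      rw [a3]
    unfold hC
    rw [a1, a2, e1]
  · intro k hk ω hω
    have h1 := (hpl k hk).1 ω (by rw [← hp]; exact hω)
    rw [← hw, ← hc] at h1
    exact h1
  · intro k hk
    have h1 := (hpl k hk).2.2.1
    rw [hcsF, ← hw, ← hp] at h1
    exact h1
  · intro k hk
    have h1 := (hpl k hk).2.2.2
    rw [hcsF, ← hw, ← hp] at h1
    exact h1
  · intro k hk ω ω' _ _ hh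
    have h1 := hnN k hk.le
    refine hzdet _ _ (mX _ _ ?_ ?_) (hXO _ ?_) ω ω' hh
    · rw [hs k]
      omega
    · rw [hs k]
      exact h1
    · omega
  · intro ω ω' _ _ hh
    have h1 := hnN mp le_rfl
    exact hzdet _ _ (mO _ (by omega)) (hXO _ (by omega)) ω ω' hh
  · have h1 := hsep _ _ A (fun ω hω => hω) (by linarith) hK
    rw [← hp] at h1
    rw [hcs]
    exact h1
  · intro k hk
    obtain ⟨-, hpk, -, -⟩ := hpl k hk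
    have q1 : (2 : ℝ) ^ sN J * (2 ^ NU J / 2 ^ NV J) ≤ 2 ^ ⌊U' * J⌋₊ / 2 ^ ⌊D' * J⌋₊ := by
      rw [← mul_div_assoc, ← pow_add, div_le_div_iff₀ (by positivity) (by positivity),
        ← pow_add, ← pow_add]
      exact pow_le_pow_right₀ (by norm_num) t4
    have q2 : (2 : ℝ) ^ NU J / 2 ^ NV J ≤ 2 ^ ⌊U' * J⌋₊ / 2 ^ ⌊D' * J⌋₊ := by
      refine le_trans ?_ q1
      exact le_mul_of_one_le_left (by positivity) (one_le_pow₀ (by norm_num))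
    have h1 := trI_use (N := ⌊n1 * J⌋₊) (E := E) (sN := 0) (MU := MU') (MV := MV')
      (b₀ := b (tX 0) J F) (f := f k J F) htrn le_rfl hch.cu' hch.a3' hch.cv' t1 (by omega)
      (fun ω hω => ((hpk ω hω).1).trans (pow_le_pow_right₀ (by norm_num) t3))
      (fun ω hω => by
        rw [pow_zero, one_mul]
        exact ((hpk ω hω).2.1).trans q1)
      (fun ω hω => (hq3 ω hω).trans (by
        rw [one_mul, one_mul]
        exact q2))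
      (fun ω hω => ((hpk ω hω).2.2).trans (by
        have h4 := t5 k hk
        have h5 : (3 : ℝ) * (2 ^ ⌊t * (J : ℝ)⌋₊ / 2 ^ (NV J + γ k * ⌊β * (J : ℝ)⌋₊)) ≤
            2 ^ 2 * (2 ^ ⌊t * (J : ℝ)⌋₊ / 2 ^ (NV J + γ k * ⌊β * (J : ℝ)⌋₊)) :=
          mul_le_mul_of_nonneg_right (by norm_num) (by positivity)
        refine h5.trans ?_
        rw [← mul_div_assoc, ← pow_add, div_le_div_iff₀ (by positivity) (by positivity), one_mul,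
          ← pow_add]
        exact pow_le_pow_right₀ (by norm_num) (by omega))) t7 t8 le_rfl t6 hK
    rw [← hp] at h1
    rw [hcs]
    refine le_trans ?_ h1
    rw [← pe_law, ← pe_law]
    refine Pe_mono (Pool.KM7.P2_isLaw hl _) fun v hv => ?_
    rw [← hw]
    refine lt_of_lt_of_le hv ?_
    exact mul_le_mul_of_nonneg_left q2 (by norm_num)

end Pool.OWN17
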