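import Pool.Agent.H17.COR.Chain
import Pool.Agent.H68.OWN.Uv2

/-!
# The corner at one ball

`corc`: two coordinates `u`, `v` with one turning functional have no defect. One finite law, places
`0, .., m`; at every place the data of `uv` (digits `U`, `V` of the position behind the place relative
to the line of the record, functional `V = K0 + K1 c + B U`, times `c`, record `W`); the frames `ju`,
`jv` and the velocities `du`, `dv` up to the place. The defect `τ g log 2` of the last block is at most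
the sum of the errors.
-/

set_option autoImplicit false

namespace Pool.OWN17

open Finset Real
open Pool.Agent.H49.Ent Pool.Agent.H32.Dense Pool.STK Pool.CH30 Pool.KM7 Pool.OWN68

section

variable {Ω 𝒦 𝒬 ℰ ℳ ζ : Type} [Fintype Ω] {p : Ω → ℝ}

/-- The error of `uv`. -/
noncomputable def XU (g b : ℕ) (τ c₀ e₁ eU err : ℝ) : ℝ :=
  ((g / b : ℕ) + 1) * (c₀ * (g * Real.log 2)) + (e₁ + 2 * eU / c₀ + 2 * err) / τ + err

/-- **The data of one place**: the hypotheses of `uv`. -/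
structure Plc (p : Ω → ℝ) (C g b k₀ : ℕ) (τ c₀ e₁ eU ec : ℝ) (U V B K0 K1 c : Ω → ℤ)
    (W : Ω → ζ) : Prop where
  sU : ∀ ω, 0 < p ω → |U ω| ≤ ((C * 2 ^ g : ℕ) : ℤ)
  sB : ∀ ω, 0 < p ω → |B ω| ≤ ((C * 2 ^ g : ℕ) : ℤ)
  sK : ∀ ω, 0 < p ω → |K1 ω| ≤ ((C * 2 ^ g : ℕ) : ℤ)
  sc : ∀ ω, 0 < p ω → |c ω| ≤ ((C * 2 ^ g : ℕ) : ℤ)
  hV : ∀ ω, 0 < p ω → |2 ^ g * V ω - (2 ^ g * K0 ω + K1 ω * c ω + B ω * U ω)| ≤ k₀ * 2 ^ g
  hU : Real.log (2 * (C * 2 ^ g : ℕ) + 1) - eU ≤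
    CH p U (fun ω => ((B ω, (K0 ω, K1 ω)), (c ω, W ω)))
  hc : Real.log (2 * (C * 2 ^ g : ℕ) + 1) - ec ≤ CH p c (fun ω => ((B ω, (K0 ω, K1 ω)), W ω))
  hall : CH p (fun ω => (U ω, V ω)) (fun ω => (c ω, W ω)) ≤ (2 - τ) * (g * Real.log 2) + e₁
  hnf : ∀ E : Ω → Prop, (∀ ω ω', B ω = B ω' → K0 ω = K0 ω' → K1 ω = K1 ω' → c ω = c ω' →
    W ω = W ω' → (E ω ↔ E ω')) → c₀ ≤ law p E True → ∀ i, i ≤ g → b ∣ i →
    CH (cond p E True) (fun ω => (U ω, V ω))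
      (fun ω => ((U ω / 2 ^ (g - i), V ω / 2 ^ (g - i)), (c ω, W ω))) ≤
      (2 - τ) * (((g : ℝ) - i) * Real.log 2) + e₁

/-- The conclusions of `uv` at a place. -/
theorem Plc.out (hp : IsLaw p) {C g b k₀ : ℕ} (hC : 1 ≤ C) (hb : 1 ≤ b) {τ c₀ e₁ eU ec err : ℝ}
    {U V B K0 K1 c : Ω → ℤ} {W : Ω → ζ} (H : Plc p C g b k₀ τ c₀ e₁ eU ec U V B K0 K1 c W)
    (hτ : 0 < τ) (hc₀ : 0 < c₀) (he₁ : 0 ≤ e₁) (heU : 0 ≤ eU) (hec : 0 ≤ ec)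
    (herr : 2 * (eU + ec) + (b * Real.log 2 + Real.log (2 * (g + 1)) + Real.log (nlb 1 C g)) +
      Real.log (2 * C + 5) + 2 * Real.log (2 * (k₀ + 2) + 1) + 2 * Real.log 2 +
      4 * Real.log (2 * (k₀ + 2 * C + 6) + 1) ≤ err) :
    CH p (fun ω => (B ω, K0 ω + K1 ω * c ω / 2 ^ g)) (fun ω => ((U ω, V ω), (c ω, W ω))) ≤
      XU g b τ c₀ e₁ eU err ∧
    CH p (fun ω => (B ω, K0 ω + K1 ω * c ω / 2 ^ g)) (fun ω => (c ω, W ω)) ≤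
      (1 - τ) * (g * Real.log 2) + e₁ + eU + XU g b τ c₀ e₁ eU err ∧
    CH p (fun ω => (K1 ω, K0 ω)) (fun ω => ((U ω, V ω), (c ω, W ω))) ≤
      2 * XU g b τ c₀ e₁ eU err :=
  uv hp W hC g hb U V B K0 K1 c H.sU H.sB H.sK H.sc H.hV hτ hc₀ he₁ heU hec herr H.hU H.hc
    H.hall H.hnf

/-- The functional at a place is few bits given the record behind the place. -/
theorem Plc.bs (hp : IsLaw p) {C g b k₀ : ℕ} (hC : 1 ≤ C) (hb : 1 ≤ b) {τ c₀ e₁ eU ec err : ℝ}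
    {U V B K0 K1 c : Ω → ℤ} {W : Ω → ζ} (H : Plc p C g b k₀ τ c₀ e₁ eU ec U V B K0 K1 c W)
    (hτ : 0 < τ) (hc₀ : 0 < c₀) (he₁ : 0 ≤ e₁) (heU : 0 ≤ eU) (hec : 0 ≤ ec)
    (herr : 2 * (eU + ec) + (b * Real.log 2 + Real.log (2 * (g + 1)) + Real.log (nlb 1 C g)) +
      Real.log (2 * C + 5) + 2 * Real.log (2 * (k₀ + 2) + 1) + 2 * Real.log 2 +
      4 * Real.log (2 * (k₀ + 2 * C + 6) + 1) ≤ err) (s : Ω → ℤ) (R : Ω → 𝒬) {ea es : ℝ}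
    (hWa : CH p (fun ω => ((U ω, V ω), (c ω, W ω))) R ≤ ea)
    (hs : CH p s (fun ω => ((B ω, K1 ω), (W ω, R ω))) ≤ es) :
    CH p (fun ω => (B ω, s ω)) R ≤ 3 * XU g b τ c₀ e₁ eU err + ea + es := by
  classical
  have h0 := hp.nonneg
  obtain ⟨u1, -, u3⟩ := H.out hp hC hb hτ hc₀ he₁ heU hec herr
  set Y : Ω → (ℤ × ℤ) × (ℤ × ζ) := fun ω => ((U ω, V ω), (c ω, W ω)) with hY
  have a1 := CH_le_add h0 (fun ω => (B ω, s ω)) Y R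
  have a2 := CH_le_add h0 (fun ω => (B ω, s ω)) (fun ω => (B ω, K1 ω)) (fun ω => (Y ω, R ω))
  have a3 : CH p (fun ω => (B ω, K1 ω)) (fun ω => (Y ω, R ω)) ≤
      CH p (fun ω => (B ω, K1 ω)) Y :=
    CH_mono_cond h0 fun ω ω' _ _ h => (Prod.ext_iff.mp h).1
  have a4 := CH_subadd h0 B K1 Y
  have a5 : CH p B Y ≤ XU g b τ c₀ e₁ eU err := by
    refine le_trans (CH_mono_left h0 fun ω ω' _ _ h => ?_) u1
    exact (Prod.ext_iff.mp (Prod.ext_iff.mp h).1).1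
  have a6 : CH p K1 Y ≤ 2 * XU g b τ c₀ e₁ eU err := by
    refine le_trans (CH_mono_left h0 fun ω ω' _ _ h => ?_) u3
    exact (Prod.ext_iff.mp (Prod.ext_iff.mp h).1).1
  have a7 : CH p (fun ω => (B ω, s ω)) (fun ω => ((B ω, K1 ω), (Y ω, R ω))) ≤ es := by
    have b1 := CH_subadd h0 B s (fun ω => ((B ω, K1 ω), (Y ω, R ω)))
    have b2 : CH p B (fun ω => ((B ω, K1 ω), (Y ω, R ω))) = 0 := by
      refine CH_eq_zero h0 fun ω ω' _ _ h => ?_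
      exact (Prod.ext_iff.mp (Prod.ext_iff.mp h).1).1
    have b3 : CH p s (fun ω => ((B ω, K1 ω), (Y ω, R ω))) ≤ es := by
      refine le_trans (CH_mono_cond h0 fun ω ω' _ _ h => ?_) hs
      simp only [hY, Prod.mk.injEq] at h ⊢
      tauto
    linarith
  linarith

/-- **The corner at one ball.** -/
theorem corc (hp : IsLaw p) {K : Ω → 𝒦} (Q : ℕ → Ω → 𝒬) (e : Ω → ℰ)
    (r : ℰ → ℝ) {C : ℕ} (hC : 1 ≤ C) (g : ℕ → ℕ) (x D : ℕ) {b : ℕ} (hb : 1 ≤ b) {k₀ : ℕ}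
    (m : ℕ) (hQ : ∀ k ≤ m, Det p K (Q k))
    -- the places
    (U V B K0 K1 c : ℕ → Ω → ℤ) (W : ℕ → Ω → ζ) {τ c₀ e₁ eU ec err X : ℝ}
    (hτ : 0 < τ) (hc₀ : 0 < c₀) (he₁ : 0 ≤ e₁) (heU : 0 ≤ eU) (hec : 0 ≤ ec)
    (herr : ∀ k ≤ m, 2 * (eU + ec) + (b * Real.log 2 + Real.log (2 * (g k + 1)) +
      Real.log (nlb 1 C (g k))) +
      Real.log (2 * C + 5) + 2 * Real.log (2 * (k₀ + 2) + 1) + 2 * Real.log 2 +
      4 * Real.log (2 * (k₀ + 2 * C + 6) + 1) ≤ err)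
    (hX : ∀ k ≤ m, XU (g k) b τ c₀ e₁ eU err ≤ X)
    (H : ∀ k ≤ m, Plc p C (g k) b k₀ τ c₀ e₁ eU ec (U k) (V k) (B k) (K0 k) (K1 k) (c k) (W k))
    -- the frames and the velocities
    (ju jv : ℕ → Ω → ℤ × ℤ) (hJ : ∀ k ≤ m, Det p K (fun ω => (ju k ω, jv k ω)))
    (du dv s : ℕ → Ω → ℤ)
    (hn : ∀ k < m, Det p (fun ω => (Q (k + 1) ω, (du (k + 1) ω, dv (k + 1) ω)))
      (fun ω => (Q k ω, (du k ω, dv k ω))))
    (hr : ∀ ω, 0 < p ω → |r (e ω)| ≤ C)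
    (hD : ∀ k ≤ m, ∀ ω, 0 < p ω → |du k ω| ≤ (D : ℤ) ∧ |dv k ω| ≤ (D : ℤ) ∧
      |(ju k ω).2| ≤ (D : ℤ) ∧ |(jv k ω).2| ≤ (D : ℤ))
    (hdu : ∀ k ≤ m, ∀ ω, 0 < p ω → |(du k ω : ℝ) - ((ju k ω).1 + r (e ω) * (ju k ω).2)| ≤ C)
    (hdv : ∀ k ≤ m, ∀ ω, 0 < p ω → |(dv k ω : ℝ) - ((jv k ω).1 + r (e ω) * (jv k ω).2)| ≤ C)
    (hs : ∀ k < m, (∀ ω, 0 < p ω →
      |(dv (k + 1) ω : ℝ) - (s k ω + (B k ω : ℝ) / 2 ^ g k * du (k + 1) ω)| ≤ C) ∨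
      (∀ ω, 0 < p ω →
      |(du (k + 1) ω : ℝ) - (s k ω + (B k ω : ℝ) / 2 ^ g k * dv (k + 1) ω)| ≤ C))
    {η : ℝ} (hsep : law (P2 p K) (fun w => |r (e w.1) - r (e w.2)| * 2 ^ x < 1) True ≤ η)
    (htr : ∀ k ≤ m,
      law (P2 p K) (fun w => |(B k w.1 : ℝ) - B k w.2| * 2 ^ x < 2 ^ g k) True ≤ η)
    -- the records behind the places
    {ea es : ℝ}
    (hWa : ∀ k < m, CH p (fun ω => ((U k ω, V k ω), (c k ω, W k ω)))
      (fun ω => (Q (k + 1) ω, (e ω, ((du k ω, dv k ω), (ju k ω, jv k ω))))) ≤ ea)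
    (hsa : ∀ k < m, CH p (s k) (fun ω => ((B k ω, K1 k ω), (W k ω,
      (Q (k + 1) ω, (e ω, ((du k ω, dv k ω), (ju k ω, jv k ω))))))) ≤ es)
    -- the first place and the last place
    {e0 eF : ℝ} (h00 : CH p (fun ω => (ju 0 ω, jv 0 ω)) (Q 0) ≤ e0)
    (hF : CH p e (Q m) - CH p e K ≤ eF)
    (Ur Vr Pr : Ω → ℤ) (hUV : Det p K (fun ω => (Ur ω, Vr ω)))
    (hDr : ∀ ω, 0 < p ω → |Ur ω| ≤ (D : ℤ))
    (hPr : ∀ ω, 0 < p ω → |(Vr ω : ℝ) - (Pr ω + (B m ω : ℝ) / 2 ^ g m * Ur ω)| ≤ C)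
    (M : Ω → ℳ) (hM : Det p K M) {eb eP eL : ℝ}
    (hWb : CH p (fun ω => (c m ω, W m ω)) (fun ω => (((du m ω, dv m ω), M ω), (Q m ω, e ω))) ≤ eb)
    (hP : CH p Pr (fun ω => ((B m ω, K0 m ω + K1 m ω * c m ω / 2 ^ g m), ((c m ω, W m ω),
      (((du m ω, dv m ω), M ω), (Q m ω, e ω))))) ≤ eP)
    (hL : (2 - τ) * (g m * Real.log 2) - eL ≤
      CH p (fun ω => (Ur ω, Vr ω)) (fun ω => (((du m ω, dv m ω), M ω), (Q m ω, e ω)))) :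
    τ * (g m * Real.log 2) ≤ 2 * (e₁ + eU + X + eb + eP) + eL + 5 * eF +
      (e0 + m * (3 * (3 * X + ea + es) + (4 * Real.log (2 * ((C : ℝ) + 1) + 1) + LF C x D η))) +
      4 * Real.log (2 * ((C : ℝ) + 1) + 1) +
      (Real.log (2 * (((2 * C * 2 ^ x : ℕ) : ℝ) + 1) + 1) + Real.log (2 * ((C : ℝ) + 1) + 1) +
          η * Real.log (2 * D + 1)) := by
  classical
  have h0 := hp.nonneg
  -- the chain
  have hβ : ∀ k < m, CH p (fun ω => (B k ω, s k ω))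
      (fun ω => (Q (k + 1) ω, (e ω, ((du k ω, dv k ω), (ju k ω, jv k ω))))) ≤
      3 * X + ea + es := by
    intro k hk'
    have h1 := (H k hk'.le).bs hp hC hb hτ hc₀ he₁ heU hec (herr k hk'.le) (s k)
      (fun ω => (Q (k + 1) ω, (e ω, ((du k ω, dv k ω), (ju k ω, jv k ω))))) (hWa k hk')
      (hsa k hk')
    have h2 := hX k hk'.le
    linarith
  have hch := chain hp Q e r hC g x D ju jv du dv B s m hQ hJ hn hr
    (fun k hk' => (H k hk'.le).sB) hD hdu hdv hs hsep (fun k hk' => htr k hk'.le) hβ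
  have hfr := frame_free hp (hQ m le_rfl) e (ju m) (jv m) (hJ m le_rfl) (du m) (dv m)
  -- the last place
  obtain ⟨-, u2, -⟩ := (H m le_rfl).out hp hC hb hτ hc₀ he₁ heU hec (herr m le_rfl)
  have hXm := hX m le_rfl
  have s2 : CH p (fun ω => (Pr ω, B m ω)) (fun ω => (((du m ω, dv m ω), M ω), (Q m ω, e ω))) ≤
      (1 - τ) * (g m * Real.log 2) + e₁ + eU + X + eb + eP := by
    set R : Ω → ((ℤ × ℤ) × ℳ) × (𝒬 × ℰ) := fun ω => (((du m ω, dv m ω), M ω), (Q m ω, e ω))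
      with hR
    have a1 := CH_le_add h0 (fun ω => (Pr ω, B m ω)) (fun ω => (c m ω, W m ω)) R
    have a2 := CH_le_add h0 (fun ω => (Pr ω, B m ω))
      (fun ω => (B m ω, K0 m ω + K1 m ω * c m ω / 2 ^ g m)) (fun ω => ((c m ω, W m ω), R ω))
    have a3 : CH p (fun ω => (B m ω, K0 m ω + K1 m ω * c m ω / 2 ^ g m))
        (fun ω => ((c m ω, W m ω), R ω)) ≤
        CH p (fun ω => (B m ω, K0 m ω + K1 m ω * c m ω / 2 ^ g m)) (fun ω => (c m ω, W m ω)) :=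
      CH_mono_cond h0 fun ω ω' _ _ h => (Prod.ext_iff.mp h).1
    have a4 : CH p (fun ω => (Pr ω, B m ω))
        (fun ω => ((B m ω, K0 m ω + K1 m ω * c m ω / 2 ^ g m), ((c m ω, W m ω), R ω))) ≤ eP := by
      have b1 := CH_subadd h0 Pr (B m)
        (fun ω => ((B m ω, K0 m ω + K1 m ω * c m ω / 2 ^ g m), ((c m ω, W m ω), R ω)))
      have b2 : CH p (B m)
          (fun ω => ((B m ω, K0 m ω + K1 m ω * c m ω / 2 ^ g m), ((c m ω, W m ω), R ω))) = 0 := by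
        refine CH_eq_zero h0 fun ω ω' _ _ h => ?_
        exact (Prod.ext_iff.mp (Prod.ext_iff.mp h).1).1
      linarith
    linarith
  have hdj : CH p (fun ω => (du m ω, dv m ω)) (fun ω => ((ju m ω, jv m ω), e ω)) ≤
      2 * Real.log (2 * ((C : ℝ) + 1) + 1) := by
    have a1 := CH_subadd h0 (du m) (dv m) (fun ω => ((ju m ω, jv m ω), e ω))
    have a2 : CH p (du m) (fun ω => ((ju m ω, jv m ω), e ω)) ≤
        Real.log (2 * ((C : ℝ) + 1) + 1) :=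
      cnt0 hp _ _ (fun z => (z.1.1.1 : ℝ) + r z.2 * z.1.1.2) C (fun ω hω => hdu m le_rfl ω hω)
    have a3 : CH p (dv m) (fun ω => ((ju m ω, jv m ω), e ω)) ≤
        Real.log (2 * ((C : ℝ) + 1) + 1) :=
      cnt0 hp _ _ (fun z => (z.1.2.1 : ℝ) + r z.2 * z.1.2.2) C (fun ω hω => hdv m le_rfl ω hω)
    linarith
  have hJ6 : CH p (fun ω => (ju m ω, jv m ω)) (Q m) ≤
      CH p (fun ω => (du m ω, dv m ω)) (fun ω => (Q m ω, e ω)) +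
      (3 * eF + (e0 + m * (3 * (3 * X + ea + es) +
        (4 * Real.log (2 * ((C : ℝ) + 1) + 1) + LF C x D η)))) := by
    linarith
  have t6 := tri6 hp (hQ m le_rfl) e (fun ω => (ju m ω, jv m ω)) (hJ m le_rfl) (fun ω => (du m ω, dv m ω)) M hM
    hdj hJ6 (g m) x D Ur Vr Pr (B m) hUV (C := C) hDr hPr (htr m le_rfl) s2
  linarith

end

end Pool.OWN17
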