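import Pool.Agent.H17.COR.Rnd

/-!
# The corner, the real numbers at one place

`Ln`: lines in a window (position at the beginning of the window and velocity of `y`, `u`, `v`).
`Cht`: affine charts `u = a0 + a1 t + a2 y`, `v = b0 + b1 t + b2 y + b3 u`. `hu`, `hu'`, `hv`, `hv'`:
own heights and own velocities. `GeoP`: the hypotheses at one place (tube, affine label, tie); `GeoP`
gives the normalised inequalities of `n_rel`, `n_s`, `n_sc`.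
-/

set_option autoImplicit false

namespace Pool.OWN17

open Finset Real

/-- A line in a window: position and velocity of three coordinates. -/
structure Ln where
  /-- the position of `y` -/
  y : ℝ
  /-- the velocity of `y` -/
  e : ℝ
  /-- the position of `u` -/
  u : ℝ
  /-- the velocity of `u` -/
  du : ℝ
  /-- the position of `v` -/
  v : ℝ
  /-- the velocity of `v` -/
  dv : ℝ

/-- Affine charts of `u` over `(t, y)` and of `v` over `(t, y, u)`. -/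
structure Cht where
  /-- `u = a0 + a1 t + a2 y` -/
  a0 : ℝ
  /-- `u = a0 + a1 t + a2 y` -/
  a1 : ℝ
  /-- `u = a0 + a1 t + a2 y` -/
  a2 : ℝ
  /-- `v = b0 + b1 t + b2 y + b3 u` -/
  b0 : ℝ
  /-- `v = b0 + b1 t + b2 y + b3 u` -/
  b1 : ℝ
  /-- `v = b0 + b1 t + b2 y + b3 u` -/
  b2 : ℝ
  /-- `v = b0 + b1 t + b2 y + b3 u` -/
  b3 : ℝ

/-- The frame: `du = cu + au e`, `dv = cv + av e`. -/
structure Frm where
  /-- `du = cu + au e` -/
  cu : ℝ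
  /-- `du = cu + au e` -/
  au : ℝ
  /-- `dv = cv + av e` -/
  cv : ℝ
  /-- `dv = cv + av e` -/
  av : ℝ

/-- The affine label `v = f0 + f1 t + f2 y + f3 u`. -/
structure Lbl where
  /-- `v = f0 + f1 t + f2 y + f3 u` -/
  f0 : ℝ
  /-- `v = f0 + f1 t + f2 y + f3 u` -/
  f1 : ℝ
  /-- `v = f0 + f1 t + f2 y + f3 u` -/
  f2 : ℝ
  /-- `v = f0 + f1 t + f2 y + f3 u` -/
  f3 : ℝ

/-- The own height of `u` at the time `t`. -/
def Ln.hu (l : Ln) (h : Cht) (t : ℝ) : ℝ := (l.u + t * l.du) - (h.a0 + h.a1 * t + h.a2 * (l.y + t * l.e))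

/-- The own velocity of `u`. -/
def Ln.hu' (l : Ln) (h : Cht) : ℝ := l.du - h.a1 - h.a2 * l.e

/-- The own height of `v` at the time `t`. -/
def Ln.hv (l : Ln) (h : Cht) (t : ℝ) : ℝ :=
  (l.v + t * l.dv) - (h.b0 + h.b1 * t + h.b2 * (l.y + t * l.e) + h.b3 * (l.u + t * l.du))

/-- The own velocity of `v`. -/
def Ln.hv' (l : Ln) (h : Cht) : ℝ := l.dv - h.b1 - h.b2 * l.e - h.b3 * l.du

theorem Ln.hu_t (l : Ln) (h : Cht) (t : ℝ) : l.hu h t = l.hu h 0 + t * l.hu' h := by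
  unfold Ln.hu Ln.hu'
  ring

theorem Ln.hv_t (l : Ln) (h : Cht) (t : ℝ) : l.hv h t = l.hv h 0 + t * l.hv' h := by
  unfold Ln.hv Ln.hv'
  ring

/-- The frame in natural units: `u`. -/
def Frm.ju (f : Frm) (h : Cht) : ℝ × ℝ := (f.cu - h.a1, f.au - h.a2)

/-- The frame in natural units: `v`. -/
def Frm.jv (f : Frm) (h : Cht) : ℝ × ℝ := (f.cv - h.b1 - h.b3 * f.cu, f.av - h.b2 - h.b3 * f.au)

/-- **The natural size of the frame**, and the sizes at the sample. -/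
structure GeoB (c : ℝ) (w NU NV : ℕ) (l : Ln) (h : Cht) (f : Frm) : Prop where
  ce : |l.e| ≤ 1
  cu : |(f.ju h).1| ≤ c * (2 ^ w / 2 ^ NU)
  au : |(f.ju h).2| ≤ c * (2 ^ w / 2 ^ NU)
  cv : |(f.jv h).1| ≤ c * (2 ^ w / 2 ^ NV)
  av : |(f.jv h).2| ≤ c * (2 ^ w / 2 ^ NV)

/-- **The geometry at one place**: `i` digits are in the tube, the affine label has `g` more. -/
structure GeoP (c : ℝ) (w NU NV i g : ℕ) (l r : Ln) (h : Cht) (f : Frm) (q : Lbl) : Prop where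
  vu : |l.hu' h - ((f.ju h).1 + l.e * (f.ju h).2)| ≤ 2 ^ w / 2 ^ (NU + i)
  vv : |l.hv' h - ((f.jv h).1 + l.e * (f.jv h).2)| ≤ 2 ^ w / 2 ^ (NV + i)
  te : |l.e - r.e| ≤ c / 2 ^ i
  ty : |l.y - r.y| ≤ c / 2 ^ (w + i)
  tu : |l.hu h 0 - r.hu h 0| ≤ c / 2 ^ (NU + i)
  tu' : |l.hu' h - r.hu' h| ≤ c * (2 ^ w / 2 ^ (NU + i))
  tv : |l.hv h 0 - r.hv h 0| ≤ c / 2 ^ (NV + i)
  tv' : |l.hv' h - r.hv' h| ≤ c * (2 ^ w / 2 ^ (NV + i))
  lab : |l.v - (q.f0 + q.f2 * l.y + q.f3 * l.u)| ≤ c / 2 ^ (NV + i + g)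
  lab' : |l.dv - (q.f1 + q.f2 * l.e + q.f3 * l.du)| ≤ c * (2 ^ w / 2 ^ (NV + i + g))
  tie : |q.f2 + q.f3 * f.au - f.av| ≤ c * (2 ^ w / 2 ^ (NV + g))
  sl : |q.f3 - h.b3| ≤ c * (2 ^ NU / 2 ^ NV)

section

variable {c : ℝ} {w NU NV i g : ℕ} {l r : Ln} {h : Cht} {f : Frm} {q : Lbl}

/-- The slope in natural units. -/
noncomputable def xB (NU NV : ℕ) (h : Cht) (q : Lbl) : ℝ := 2 ^ NV / 2 ^ NU * (q.f3 - h.b3)

/-- The label at the reference line: height. -/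
noncomputable def lR0 (NV i : ℕ) (r : Ln) (q : Lbl) : ℝ :=
  2 ^ (NV + i) * (q.f0 + q.f2 * r.y + q.f3 * r.u - r.v)

/-- The label at the reference line: velocity. -/
noncomputable def lR1 (w NV i : ℕ) (r : Ln) (q : Lbl) : ℝ :=
  2 ^ (NV + i) / 2 ^ w * (q.f1 + q.f2 * r.e + q.f3 * r.du - r.dv)

/-- The slope of the label over `y`, relative to the charts. -/
noncomputable def lK (w NV : ℕ) (h : Cht) (q : Lbl) : ℝ :=
  2 ^ NV / 2 ^ w * ((q.f2 - h.b2) + (q.f3 - h.b3) * h.a2)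

theorem nrm {x c A : ℝ} (hA : 0 < A) (h : |x| ≤ c / A) : |A * x| ≤ c := by
  rw [abs_mul, abs_of_pos hA]
  rw [le_div_iff₀ hA] at h
  linarith

theorem nrm' {x c A B : ℝ} (hA : 0 < A) (hB : 0 < B) (h : |x| ≤ c * (A / B)) :
    |B / A * x| ≤ c := by
  have hBA : 0 < B / A := by positivity
  rw [abs_mul, abs_of_pos hBA]
  calc B / A * |x| ≤ B / A * (c * (A / B)) := mul_le_mul_of_nonneg_left h hBA.le
    _ = c := by field_simp

theorem GeoP.xb (H : GeoP c w NU NV i g l r h f q) : |xB NU NV h q| ≤ c :=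
  nrm' (by positivity) (by positivity) H.sl

/-- The tie error. -/
noncomputable def lT (w NV : ℕ) (f : Frm) (q : Lbl) : ℝ :=
  2 ^ NV / 2 ^ w * (q.f2 + q.f3 * f.au - f.av)

theorem lK_eq : lK w NV h q = lT w NV f q + 2 ^ NV / 2 ^ w * (f.jv h).2 -
    xB NU NV h q * (2 ^ NU / 2 ^ w * (f.ju h).2) := by
  unfold lK lT xB Frm.jv Frm.ju
  field_simp
  ring

theorem GeoP.tn (H : GeoP c w NU NV i g l r h f q) : |lT w NV f q| * 2 ^ g ≤ c := by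
  have h1 := nrm' (A := 2 ^ w) (B := 2 ^ (NV + g)) (by positivity) (by positivity) H.tie
  have e1 : (2 : ℝ) ^ (NV + g) / 2 ^ w * (q.f2 + q.f3 * f.au - f.av) =
      lT w NV f q * 2 ^ g := by
    unfold lT
    rw [pow_add]
    ring
  rw [e1, abs_mul, abs_of_pos (by positivity : (0 : ℝ) < 2 ^ g)] at h1
  exact h1

theorem GeoP.kk (hc : 1 ≤ c) (H0 : GeoB c w NU NV l h f) (H : GeoP c w NU NV i g l r h f q) :
    |lK w NV h q| ≤ 3 * c ^ 2 := by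
  have hG : (1 : ℝ) ≤ 2 ^ g := one_le_pow₀ (by norm_num)
  have h1 := H.tn
  have h2 := nrm' (A := 2 ^ w) (B := 2 ^ NV) (by positivity) (by positivity) H0.av
  have h3 := nrm' (A := 2 ^ w) (B := 2 ^ NU) (by positivity) (by positivity) H0.au
  have h4 := H.xb
  rw [lK_eq (f := f) (NU := NU)]
  have h5 : |lT w NV f q| ≤ c := by
    have := abs_nonneg (lT w NV f q)
    nlinarith
  have t1 := abs_sub (lT w NV f q + 2 ^ NV / 2 ^ w * (f.jv h).2)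
    (xB NU NV h q * (2 ^ NU / 2 ^ w * (f.ju h).2))
  have t2 := abs_add_le (lT w NV f q) (2 ^ NV / 2 ^ w * (f.jv h).2)
  have t3 : |xB NU NV h q * (2 ^ NU / 2 ^ w * (f.ju h).2)| ≤ c * c := by
    rw [abs_mul]
    exact mul_le_mul h4 h3 (abs_nonneg _) (by linarith)
  nlinarith

/-- **The relation of the heights.** -/
theorem GeoP.rel (hc : 0 ≤ c) (H : GeoP c w NU NV i g l r h f q) {t : ℝ} (ht0 : 0 ≤ t)
    (ht1 : t * 2 ^ w ≤ 1) :
    |2 ^ (NV + i) * (l.hv h t - r.hv h t) - (lR0 NV i r q + (2 ^ w * t) * lR1 w NV i r q +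
      lK w NV h q * (2 ^ (w + i) * ((l.y + t * l.e) - (r.y + t * r.e))) +
      xB NU NV h q * (2 ^ (NU + i) * (l.hu h t - r.hu h t)))| * 2 ^ g ≤ 2 * c := by
  have hG : (0 : ℝ) < 2 ^ g := by positivity
  have h1 := nrm (A := 2 ^ (NV + i + g)) (by positivity) H.lab
  have h2 := nrm' (A := 2 ^ w) (B := 2 ^ (NV + i + g)) (by positivity) (by positivity) H.lab'
  obtain ⟨d1, hd1⟩ : ∃ d1 : ℝ, d1 = l.v - (q.f0 + q.f2 * l.y + q.f3 * l.u) := ⟨_, rfl⟩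
  obtain ⟨d2, hd2⟩ : ∃ d2 : ℝ, d2 = l.dv - (q.f1 + q.f2 * l.e + q.f3 * l.du) := ⟨_, rfl⟩
  rw [← hd1] at h1
  rw [← hd2] at h2
  have e1 : 2 ^ (NV + i) * (l.hv h t - r.hv h t) - (lR0 NV i r q + (2 ^ w * t) * lR1 w NV i r q +
      lK w NV h q * (2 ^ (w + i) * ((l.y + t * l.e) - (r.y + t * r.e))) +
      xB NU NV h q * (2 ^ (NU + i) * (l.hu h t - r.hu h t))) =
      2 ^ (NV + i) * (d1 + t * d2) := by
    rw [hd1, hd2]
    unfold lR0 lR1 lK xB Ln.hu Ln.hv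
    simp only [pow_add]
    field_simp
    ring
  rw [e1]
  have e2 : |2 ^ (NV + i) * (d1 + t * d2)| * 2 ^ g = |2 ^ (NV + i + g) * d1 +
      (t * 2 ^ w) * (2 ^ (NV + i + g) / 2 ^ w * d2)| := by
    rw [show |2 ^ (NV + i) * (d1 + t * d2)| * 2 ^ g = |2 ^ (NV + i) * (d1 + t * d2)| * |2 ^ g| by
      rw [abs_of_pos hG], ← abs_mul]
    congr 1
    simp only [pow_add]
    field_simp
  rw [e2]
  have t1 := abs_add_le (2 ^ (NV + i + g) * d1) ((t * 2 ^ w) * (2 ^ (NV + i + g) / 2 ^ w * d2))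
  have t2 : |(t * 2 ^ w) * (2 ^ (NV + i + g) / 2 ^ w * d2)| ≤ 1 * c := by
    rw [abs_mul]
    refine mul_le_mul ?_ h2 (abs_nonneg _) zero_le_one
    rw [abs_of_nonneg (by positivity)]
    exact ht1
  linarith

/-- The height of `u` in natural units of the tube. -/
theorem GeoP.xu (hc : 0 ≤ c) (H : GeoP c w NU NV i g l r h f q) {t : ℝ} (ht0 : 0 ≤ t)
    (ht1 : t * 2 ^ w ≤ 1) : |2 ^ (NU + i) * (l.hu h t - r.hu h t)| ≤ 2 * c := by
  have h1 := nrm (A := 2 ^ (NU + i)) (by positivity) H.tu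
  have h2 := nrm' (A := 2 ^ w) (B := 2 ^ (NU + i)) (by positivity) (by positivity) H.tu'
  rw [l.hu_t, r.hu_t]
  have e1 : (2 : ℝ) ^ (NU + i) * (l.hu h 0 + t * l.hu' h - (r.hu h 0 + t * r.hu' h)) =
      2 ^ (NU + i) * (l.hu h 0 - r.hu h 0) +
        (t * 2 ^ w) * (2 ^ (NU + i) / 2 ^ w * (l.hu' h - r.hu' h)) := by
    field_simp
    ring
  rw [e1]
  have t1 := abs_add_le (2 ^ (NU + i) * (l.hu h 0 - r.hu h 0))
    ((t * 2 ^ w) * (2 ^ (NU + i) / 2 ^ w * (l.hu' h - r.hu' h)))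
  have t2 : |(t * 2 ^ w) * (2 ^ (NU + i) / 2 ^ w * (l.hu' h - r.hu' h))| ≤ 1 * c := by
    rw [abs_mul]
    refine mul_le_mul ?_ h2 (abs_nonneg _) zero_le_one
    rw [abs_of_nonneg (by positivity)]
    exact ht1
  linarith

/-- **The relation of the velocities.** -/
theorem GeoP.rel' (H : GeoP c w NU NV i g l r h f q) :
    |2 ^ (NV + i) / 2 ^ w * l.hv' h - (2 ^ (NV + i) / 2 ^ w * r.hv' h + lR1 w NV i r q +
      lK w NV h q * (2 ^ i * (l.e - r.e)) + xB NU NV h q * (2 ^ (NU + i) / 2 ^ w * l.hu' h -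
        2 ^ (NU + i) / 2 ^ w * r.hu' h))| * 2 ^ g ≤ c := by
  have hG : (0 : ℝ) < 2 ^ g := by positivity
  have h2 := nrm' (A := 2 ^ w) (B := 2 ^ (NV + i + g)) (by positivity) (by positivity) H.lab'
  obtain ⟨d2, hd2⟩ : ∃ d2 : ℝ, d2 = l.dv - (q.f1 + q.f2 * l.e + q.f3 * l.du) := ⟨_, rfl⟩
  rw [← hd2] at h2
  have e1 : 2 ^ (NV + i) / 2 ^ w * l.hv' h - (2 ^ (NV + i) / 2 ^ w * r.hv' h + lR1 w NV i r q +
      lK w NV h q * (2 ^ i * (l.e - r.e)) + xB NU NV h q * (2 ^ (NU + i) / 2 ^ w * l.hu' h -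
        2 ^ (NU + i) / 2 ^ w * r.hu' h)) = 2 ^ (NV + i) / 2 ^ w * d2 := by
    rw [hd2]
    unfold lR1 lK xB Ln.hu' Ln.hv'
    simp only [pow_add]
    field_simp
    ring
  rw [e1]
  have e2 : |2 ^ (NV + i) / 2 ^ w * d2| * 2 ^ g = |2 ^ (NV + i + g) / 2 ^ w * d2| := by
    rw [show |2 ^ (NV + i) / 2 ^ w * d2| * 2 ^ g = |2 ^ (NV + i) / 2 ^ w * d2| * |2 ^ g| by
      rw [abs_of_pos hG], ← abs_mul]
    congr 1
    simp only [pow_add]
    ring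
  rw [e2]
  exact h2

theorem GeoP.qu (H : GeoP c w NU NV i g l r h f q) :
    |2 ^ (NU + i) / 2 ^ w * l.hu' h - 2 ^ (NU + i) / 2 ^ w * r.hu' h| ≤ c := by
  have h2 := nrm' (A := 2 ^ w) (B := 2 ^ (NU + i)) (by positivity) (by positivity) H.tu'
  rwa [mul_sub] at h2

theorem GeoP.r1 (hc : 1 ≤ c) (H0 : GeoB c w NU NV l h f) (H : GeoP c w NU NV i g l r h f q) :
    |lR1 w NV i r q| ≤ 6 * c ^ 3 := by
  have hG : (1 : ℝ) ≤ 2 ^ g := one_le_pow₀ (by norm_num)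
  have h1 := H.rel'
  have h2 := H.kk hc H0
  have h3 := nrm' (A := 2 ^ w) (B := 2 ^ (NV + i)) (by positivity) (by positivity) H.tv'
  have h4 := nrm (A := 2 ^ i) (by positivity) H.te
  have h5 := H.qu
  have h6 := H.xb
  obtain ⟨d, hd⟩ : ∃ d : ℝ, d = 2 ^ (NV + i) / 2 ^ w * l.hv' h -
    (2 ^ (NV + i) / 2 ^ w * r.hv' h + lR1 w NV i r q +
      lK w NV h q * (2 ^ i * (l.e - r.e)) +
      xB NU NV h q * (2 ^ (NU + i) / 2 ^ w * l.hu' h - 2 ^ (NU + i) / 2 ^ w * r.hu' h)) := ⟨_, rfl⟩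
  rw [← hd] at h1
  have h1' : |d| ≤ c := by
    have := abs_nonneg d
    nlinarith
  have e1 : lR1 w NV i r q = 2 ^ (NV + i) / 2 ^ w * (l.hv' h - r.hv' h) -
      lK w NV h q * (2 ^ i * (l.e - r.e)) -
      xB NU NV h q * (2 ^ (NU + i) / 2 ^ w * l.hu' h - 2 ^ (NU + i) / 2 ^ w * r.hu' h) - d := by
    rw [hd]
    ring
  rw [e1]
  have t1 := abs_sub (2 ^ (NV + i) / 2 ^ w * (l.hv' h - r.hv' h) -
      lK w NV h q * (2 ^ i * (l.e - r.e)) -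
      xB NU NV h q * (2 ^ (NU + i) / 2 ^ w * l.hu' h - 2 ^ (NU + i) / 2 ^ w * r.hu' h)) d
  have t2 := abs_sub (2 ^ (NV + i) / 2 ^ w * (l.hv' h - r.hv' h) -
      lK w NV h q * (2 ^ i * (l.e - r.e)))
      (xB NU NV h q * (2 ^ (NU + i) / 2 ^ w * l.hu' h - 2 ^ (NU + i) / 2 ^ w * r.hu' h))
  have t3 := abs_sub (2 ^ (NV + i) / 2 ^ w * (l.hv' h - r.hv' h))
      (lK w NV h q * (2 ^ i * (l.e - r.e)))
  have m1 : |lK w NV h q * (2 ^ i * (l.e - r.e))| ≤ 3 * c ^ 2 * c := by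
    rw [abs_mul]
    exact mul_le_mul h2 h4 (abs_nonneg _) (by positivity)
  have m2 : |xB NU NV h q * (2 ^ (NU + i) / 2 ^ w * l.hu' h -
      2 ^ (NU + i) / 2 ^ w * r.hu' h)| ≤ c * c := by
    rw [abs_mul]
    exact mul_le_mul h6 h5 (abs_nonneg _) (by linarith)
  have c2 : c ≤ c ^ 2 := by nlinarith
  have c3 : c ^ 2 ≤ c ^ 3 := by nlinarith
  nlinarith

end

end Pool.OWN17
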