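import Pool.Agent.H17.COR.Geo

/-!
# The corner, one place of a law

`cnt_det`: an integer near a real function of the condition costs few bits. `cT`, `fT`, `tT`: the
first digits of the time in the window, the other digits, the time. `hgU`, `hgV`: the digits of the own
heights. `Pls`: the data of one place of a law (geometry and entropies in terms of the digits of the
own heights), `Pls.plc`: they give the data `Plc`.
-/

set_option autoImplicit false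

namespace Pool.OWN17

open Finset Real
open Pool.Agent.H49.Ent Pool.Agent.H32.Dense Pool.STK Pool.CH30 Pool.KM7 Pool.OWN68

section

variable {Ω : Type} [Fintype Ω] {p : Ω → ℝ}

/-- A function of a variable on the support. -/
theorem det_fun {T S : Type} [Nonempty S] {Z : Ω → T} {c : Ω → S} (hc : Det p Z c) :
    ∃ φ : T → S, ∀ ω, 0 < p ω → c ω = φ (Z ω) := by
  classical
  refine ⟨fun z => if h : ∃ ω, 0 < p ω ∧ Z ω = z then c h.choose else Classical.arbitrary S,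
    fun ω hω => ?_⟩
  have h : ∃ ω', 0 < p ω' ∧ Z ω' = Z ω := ⟨ω, hω, rfl⟩
  simp only [h, dif_pos]
  exact (hc _ _ h.choose_spec.1 hω h.choose_spec.2).symm

/-- An integer near a real function of the condition costs few bits. -/
theorem cnt_det {T : Type} (hp : IsLaw p) {X : Ω → ℤ} {Z : Ω → T} {c : Ω → ℝ} (hc : Det p Z c)
    (R : ℕ) (h : ∀ ω, 0 < p ω → |(X ω : ℝ) - c ω| ≤ R) :
    CH p X Z ≤ Real.log (2 * (R + 1) + 1) := by
  obtain ⟨φ, hφ⟩ := det_fun hc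
  exact cnt0 hp X Z φ R fun ω hω => by
    rw [← hφ ω hω]
    exact h ω hω

theorem CH_triv {S T T' : Type} (hp : IsLaw p) {X : Ω → S} {Y : Ω → T} {Z : Ω → T'} :
    CH p X Z ≤ CH p Y Z + CH p X (fun ω => (Y ω, Z ω)) := CH_le_add hp.nonneg X Y Z

end

/-- Two variables which are few bits given two others. -/
theorem two_few {S₁ S₂ S₃ S₄ S : Type} {Ω : Type} [Fintype Ω] {p : Ω → ℝ} (hp : IsLaw p)
    {A : Ω → S₁} {B : Ω → S₂} {A' : Ω → S₃} {B' : Ω → S₄} (Z : Ω → S) {e₁ e₂ : ℝ}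
    (h1 : CH p A (fun ω => (A' ω, Z ω)) ≤ e₁) (h2 : CH p B (fun ω => (B' ω, Z ω)) ≤ e₂) :
    CH p (fun ω => (A ω, B ω)) Z ≤ CH p (fun ω => (A' ω, B' ω)) Z + e₁ + e₂ := by
  have h0 := hp.nonneg
  have k1 := CH_le_add h0 (fun ω => (A ω, B ω)) (fun ω => (A' ω, B' ω)) Z
  have k2 := CH_subadd h0 A B (fun ω => ((A' ω, B' ω), Z ω))
  have k3 : CH p A (fun ω => ((A' ω, B' ω), Z ω)) ≤ CH p A (fun ω => (A' ω, Z ω)) :=
    CH_mono_cond h0 fun ω ω' _ _ hh => by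
      simp only [Prod.mk.injEq] at hh ⊢
      exact ⟨hh.1.1, hh.2⟩
  have k4 : CH p B (fun ω => ((A' ω, B' ω), Z ω)) ≤ CH p B (fun ω => (B' ω, Z ω)) :=
    CH_mono_cond h0 fun ω ω' _ _ hh => by
      simp only [Prod.mk.injEq] at hh ⊢
      exact ⟨hh.1.2, hh.2⟩
  linarith

/-! ### The time -/

section time

variable {J w g : ℕ}

/-- The first `g` digits of the time in the window. -/
def cT (J w g T : ℕ) : ℕ := T % 2 ^ (J - w) / 2 ^ (J - w - g)

/-- The other digits of the time. -/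
def fT (J w g T : ℕ) : ℕ := T % 2 ^ (J - w) % 2 ^ (J - w - g)

/-- The time in the window. -/
noncomputable def tT (J w T : ℕ) : ℝ := ((T % 2 ^ (J - w) : ℕ) : ℝ) / 2 ^ J

theorem tT_nonneg (T : ℕ) : 0 ≤ tT J w T := by
  unfold tT
  positivity

theorem tT_lt (hw : w ≤ J) (T : ℕ) : tT J w T * 2 ^ w ≤ 1 := by
  unfold tT
  have h1 : T % 2 ^ (J - w) < 2 ^ (J - w) := Nat.mod_lt _ (by positivity)
  have h2 : ((T % 2 ^ (J - w) : ℕ) : ℝ) ≤ 2 ^ (J - w) := by exact_mod_cast h1.le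
  have h3 : (2 : ℝ) ^ J = 2 ^ (J - w) * 2 ^ w := by
    rw [← pow_add]
    congr 1
    omega
  rw [h3, div_mul_eq_mul_div, div_le_one (by positivity)]
  exact mul_le_mul_of_nonneg_right h2 (by positivity)

theorem cT_le (hw : w + g ≤ J) (T : ℕ) : cT J w g T ≤ 2 ^ g := by
  unfold cT
  have h1 : T % 2 ^ (J - w) < 2 ^ (J - w) := Nat.mod_lt _ (by positivity)
  have h2 : (2 : ℕ) ^ (J - w) = 2 ^ g * 2 ^ (J - w - g) := by
    rw [← pow_add]
    congr 1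
    omega
  rw [h2] at h1
  exact (Nat.div_lt_of_lt_mul (by rw [mul_comm]; exact h2 ▸ h1)).le

theorem cT_err (hw : w + g ≤ J) (T : ℕ) : |2 ^ g * (2 ^ w * tT J w T) - (cT J w g T : ℕ)| ≤ 1 := by
  have h1 : T % 2 ^ (J - w) = 2 ^ (J - w - g) * cT J w g T + fT J w g T :=
    (Nat.div_add_mod _ _).symm
  have h2 : fT J w g T < 2 ^ (J - w - g) := Nat.mod_lt _ (by positivity)
  have h3 : ((T % 2 ^ (J - w) : ℕ) : ℝ) = 2 ^ (J - w - g) * (cT J w g T : ℕ) + (fT J w g T : ℕ) := by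
    rw [h1]
    push_cast
    ring
  have h4 : ((fT J w g T : ℕ) : ℝ) ≤ 2 ^ (J - w - g) := by exact_mod_cast h2.le
  have h5 : (0 : ℝ) ≤ ((fT J w g T : ℕ) : ℝ) := Nat.cast_nonneg _
  have h6 : (2 : ℝ) ^ J = 2 ^ (J - w - g) * (2 ^ w * 2 ^ g) := by
    rw [← pow_add, ← pow_add]
    congr 1
    omega
  have e1 : 2 ^ g * (2 ^ w * tT J w T) = ((T % 2 ^ (J - w) : ℕ) : ℝ) / 2 ^ (J - w - g) := by
    unfold tT
    rw [h6]
    field_simp
  rw [e1, h3, add_div, mul_div_assoc, mul_comm, div_mul_cancel₀ _ (by positivity),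
    add_sub_cancel_left, abs_of_nonneg (by positivity), div_le_one (by positivity)]
  exact h4

/-- The time is determined by the window, the first digits and the other digits. -/
theorem T_of {T T' : ℕ} (h1 : T / 2 ^ (J - w) = T' / 2 ^ (J - w)) (h2 : cT J w g T = cT J w g T')
    (h3 : fT J w g T = fT J w g T') : T = T' := by
  have e1 := Nat.div_add_mod T (2 ^ (J - w))
  have e2 := Nat.div_add_mod T' (2 ^ (J - w))
  have e3 := Nat.div_add_mod (T % 2 ^ (J - w)) (2 ^ (J - w - g))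
  have e4 := Nat.div_add_mod (T' % 2 ^ (J - w)) (2 ^ (J - w - g))
  unfold cT at h2
  unfold fT at h3
  rw [h2, h3] at e3
  rw [h1] at e1
  omega

end time

section

variable {Ω ζ 𝒞 : Type} [Fintype Ω] {p : Ω → ℝ}

/-- The digits of the own height of `u`. -/
noncomputable def hgU (J w n : ℕ) (l : Ω → Ln) (h : Ω → Cht) (T : Ω → ℕ) (ω : Ω) : ℤ :=
  ⌊2 ^ n * (l ω).hu (h ω) (tT J w (T ω))⌋

/-- The digits of the own height of `v`. -/
noncomputable def hgV (J w n : ℕ) (l : Ω → Ln) (h : Ω → Cht) (T : Ω → ℕ) (ω : Ω) : ℤ :=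
  ⌊2 ^ n * (l ω).hv (h ω) (tT J w (T ω))⌋

/-- The position of `y` behind the reference line. -/
noncomputable def DY (J w : ℕ) (r : Ω → Ln) (T : Ω → ℕ) (Y : Ω → ℤ) (ω : Ω) : ℤ :=
  Y ω - ⌊2 ^ J * ((r ω).y + tT J w (T ω) * (r ω).e)⌋

/-- The digits of `u` at the place. -/
noncomputable def dU (J w NU i g : ℕ) (l r : Ω → Ln) (h : Ω → Cht) (T : Ω → ℕ) (ω : Ω) : ℤ :=
  ⌊2 ^ g * (2 ^ (NU + i) * ((l ω).hu (h ω) (tT J w (T ω)) - (r ω).hu (h ω) (tT J w (T ω))))⌋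

/-- The digits of `v` at the place. -/
noncomputable def dV (J w NV i g : ℕ) (l r : Ω → Ln) (h : Ω → Cht) (T : Ω → ℕ) (ω : Ω) : ℤ :=
  ⌊2 ^ g * (2 ^ (NV + i) * ((l ω).hv (h ω) (tT J w (T ω)) - (r ω).hv (h ω) (tT J w (T ω))))⌋

/-- The digits of the slope. -/
noncomputable def dB (NU NV g : ℕ) (h : Ω → Cht) (q : Ω → Lbl) (ω : Ω) : ℤ :=
  ⌊2 ^ g * xB NU NV (h ω) (q ω)⌋

/-- The digits of the label at the reference line: velocity. -/
noncomputable def dK1 (w NV i g : ℕ) (r : Ω → Ln) (q : Ω → Lbl) (ω : Ω) : ℤ :=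
  ⌊2 ^ g * lR1 w NV i (r ω) (q ω)⌋

/-- The digits of the label at the reference line: height. -/
noncomputable def dK0 (J w NV i g : ℕ) (r : Ω → Ln) (h : Ω → Cht) (q : Ω → Lbl) (T : Ω → ℕ)
    (Y : Ω → ℤ) (ω : Ω) : ℤ :=
  ⌊2 ^ g * (lR0 NV i (r ω) (q ω) +
    lK w NV (h ω) (q ω) * (2 ^ (w + i) * ((DY J w r T Y ω : ℝ) / 2 ^ J)))⌋

/-- **The data of one place of a law.** -/
structure Pls (p : Ω → ℝ) (c J w NU NV i g b : ℕ) (τ c₀ e₁ eU ec : ℝ) (l r : Ω → Ln)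
    (h : Ω → Cht) (f : Ω → Frm) (q : Ω → Lbl) (T : Ω → ℕ) (Y : Ω → ℤ) (Rr : Ω → ζ)
    (Cd : Ω → 𝒞) : Prop where
  wJ : w + i + g ≤ J
  yc : ∀ ω, 0 < p ω → |(Y ω : ℝ) / 2 ^ J - ((l ω).y + tT J w (T ω) * (l ω).e)| ≤ 1 / 2 ^ J
  geo : ∀ ω, 0 < p ω → GeoP c w NU NV i g (l ω) (r ω) (h ω) (f ω) (q ω)
  dR : Det p Rr (fun ω => (h ω, (r ω, T ω / 2 ^ (J - w))))
  dC : Det p (fun ω => (Cd ω, Rr ω)) q
  hU : g * Real.log 2 - eU ≤
    CH p (hgU J w (NU + i + g) l h T) (fun ω => (Cd ω, (Rr ω, (T ω, Y ω))))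
  hc : g * Real.log 2 - ec ≤
    CH p (fun ω => cT J w g (T ω)) (fun ω => (Cd ω, (Rr ω, (fT J w g (T ω), DY J w r T Y ω))))
  hall : CH p (fun ω => (hgU J w (NU + i + g) l h T ω, hgV J w (NV + i + g) l h T ω))
    (fun ω => (Rr ω, (T ω, Y ω))) ≤ (2 - τ) * (g * Real.log 2) + e₁
  hnf : ∀ E : Ω → Prop, c₀ ≤ law p E True → ∀ j, j ≤ g → b ∣ j →
    CH (cond p E True) (fun ω => (hgU J w (NU + i + g) l h T ω, hgV J w (NV + i + g) l h T ω))
      (fun ω => ((hgU J w (NU + i + j) l h T ω, hgV J w (NV + i + j) l h T ω),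
        (Rr ω, (T ω, Y ω)))) ≤ (2 - τ) * (((g : ℝ) - j) * Real.log 2) + e₁

/-- The record of `Plc`. -/
noncomputable def Wc (J w g : ℕ) (r : Ω → Ln) (T : Ω → ℕ) (Y : Ω → ℤ) (Rr : Ω → ζ) (ω : Ω) :
    ζ × (ℕ × ℤ) := (Rr ω, (fT J w g (T ω), DY J w r T Y ω))

variable {c J w NU NV i g b : ℕ} {τ c₀ e₁ eU ec : ℝ} {l r : Ω → Ln} {h : Ω → Cht} {f : Ω → Frm}
  {q : Ω → Lbl} {T : Ω → ℕ} {Y : Ω → ℤ} {Rr : Ω → ζ} {Cd : Ω → 𝒞}

theorem Wc_det (dR : Det p Rr (fun ω => (h ω, (r ω, T ω / 2 ^ (J - w))))) :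
    Det p (fun ω => ((cT J w g (T ω) : ℤ), Wc J w g r T Y Rr ω)) (fun ω => (Rr ω, (T ω, Y ω))) := by
  intro ω ω' h1 h2 hh
  simp only [Wc, Prod.mk.injEq] at hh
  obtain ⟨a1, a2, a3, a4⟩ := hh
  have a5 := dR ω ω' h1 h2 a2
  simp only [Prod.mk.injEq] at a5
  obtain ⟨-, b2, b3⟩ := a5
  have a6 : T ω = T ω' := T_of (J := J) (w := w) (g := g) b3 (by exact_mod_cast a1) a3
  simp only [Prod.mk.injEq]
  refine ⟨a2, a6, ?_⟩
  unfold DY at a4
  rw [b2, a6] at a4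
  linarith

theorem Wc_det' (dR : Det p Rr (fun ω => (h ω, (r ω, T ω / 2 ^ (J - w))))) :
    Det p (fun ω => (Rr ω, (T ω, Y ω))) (fun ω => ((cT J w g (T ω) : ℤ), Wc J w g r T Y Rr ω)) := by
  intro ω ω' h1 h2 hh
  simp only [Prod.mk.injEq] at hh
  obtain ⟨a1, a2, a3⟩ := hh
  have a5 := dR ω ω' h1 h2 a1
  simp only [Prod.mk.injEq] at a5
  simp only [Wc, DY, Prod.mk.injEq, a1, a2, a3, a5.2.1, true_and]

/-- The own height and the digits at the place: one way. -/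
theorem dU_hgU (hg : IsLaw p) (dR : Det p Rr (fun ω => (h ω, (r ω, T ω / 2 ^ (J - w))))) (n : ℕ)
    {S : Type} (Z : Ω → S) (hZ : Det p Z (fun ω => (Rr ω, (T ω, Y ω)))) :
    CH p (hgU J w (NU + i + n) l h T) (fun ω => (dU J w NU i n l r h T ω, Z ω)) ≤
      Real.log (2 * ((2 : ℕ) + 1) + 1) ∧
    CH p (dU J w NU i n l r h T) (fun ω => (hgU J w (NU + i + n) l h T ω, Z ω)) ≤
      Real.log (2 * ((2 : ℕ) + 1) + 1) ∧
    CH p (hgV J w (NV + i + n) l h T) (fun ω => (dV J w NV i n l r h T ω, Z ω)) ≤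
      Real.log (2 * ((2 : ℕ) + 1) + 1) ∧
    CH p (dV J w NV i n l r h T) (fun ω => (hgV J w (NV + i + n) l h T ω, Z ω)) ≤
      Real.log (2 * ((2 : ℕ) + 1) + 1) := by
  have hd : Det p Z (fun ω => (h ω, (r ω, T ω))) := by
    intro ω ω' h1 h2 hh
    have a1 := hZ ω ω' h1 h2 hh
    simp only [Prod.mk.injEq] at a1
    have a2 := dR ω ω' h1 h2 a1.1
    simp only [Prod.mk.injEq] at a2 ⊢
    exact ⟨a2.1, a2.2.1, a1.2.1⟩
  refine ⟨?_, ?_, ?_, ?_⟩
  · refine cnt_det hg (c := fun ω => (dU J w NU i n l r h T ω : ℝ) +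
      2 ^ (NU + i + n) * (r ω).hu (h ω) (tT J w (T ω))) ?_ 2 fun ω _ => ?_
    · intro ω ω' h1 h2 hh
      simp only [Prod.mk.injEq] at hh
      have a2 := hd ω ω' h1 h2 hh.2
      simp only [Prod.mk.injEq] at a2
      simp only [hh.1, a2.1, a2.2.1, a2.2.2]
    · have k1 := fl_err (2 ^ (NU + i + n) * (l ω).hu (h ω) (tT J w (T ω)))
      have k2 := fl_err (2 ^ n * (2 ^ (NU + i) * ((l ω).hu (h ω) (tT J w (T ω)) -
        (r ω).hu (h ω) (tT J w (T ω)))))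
      unfold hgU dU
      rw [abs_le] at k1 k2 ⊢
      rw [pow_add (2 : ℝ) (NU + i) n] at k1 ⊢
      push_cast
      constructor <;> linarith [k1.1, k1.2, k2.1, k2.2]
  · refine cnt_det hg (c := fun ω => (hgU J w (NU + i + n) l h T ω : ℝ) -
      2 ^ (NU + i + n) * (r ω).hu (h ω) (tT J w (T ω))) ?_ 2 fun ω _ => ?_
    · intro ω ω' h1 h2 hh
      simp only [Prod.mk.injEq] at hh
      have a2 := hd ω ω' h1 h2 hh.2
      simp only [Prod.mk.injEq] at a2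
      simp only [hh.1, a2.1, a2.2.1, a2.2.2]
    · have k1 := fl_err (2 ^ (NU + i + n) * (l ω).hu (h ω) (tT J w (T ω)))
      have k2 := fl_err (2 ^ n * (2 ^ (NU + i) * ((l ω).hu (h ω) (tT J w (T ω)) -
        (r ω).hu (h ω) (tT J w (T ω)))))
      unfold hgU dU
      rw [abs_le] at k1 k2 ⊢
      rw [pow_add (2 : ℝ) (NU + i) n] at k1 ⊢
      push_cast
      constructor <;> linarith [k1.1, k1.2, k2.1, k2.2]
  · refine cnt_det hg (c := fun ω => (dV J w NV i n l r h T ω : ℝ) +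
      2 ^ (NV + i + n) * (r ω).hv (h ω) (tT J w (T ω))) ?_ 2 fun ω _ => ?_
    · intro ω ω' h1 h2 hh
      simp only [Prod.mk.injEq] at hh
      have a2 := hd ω ω' h1 h2 hh.2
      simp only [Prod.mk.injEq] at a2
      simp only [hh.1, a2.1, a2.2.1, a2.2.2]
    · have k1 := fl_err (2 ^ (NV + i + n) * (l ω).hv (h ω) (tT J w (T ω)))
      have k2 := fl_err (2 ^ n * (2 ^ (NV + i) * ((l ω).hv (h ω) (tT J w (T ω)) -
        (r ω).hv (h ω) (tT J w (T ω)))))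
      unfold hgV dV
      rw [abs_le] at k1 k2 ⊢
      rw [pow_add (2 : ℝ) (NV + i) n] at k1 ⊢
      push_cast
      constructor <;> linarith [k1.1, k1.2, k2.1, k2.2]
  · refine cnt_det hg (c := fun ω => (hgV J w (NV + i + n) l h T ω : ℝ) -
      2 ^ (NV + i + n) * (r ω).hv (h ω) (tT J w (T ω))) ?_ 2 fun ω _ => ?_
    · intro ω ω' h1 h2 hh
      simp only [Prod.mk.injEq] at hh
      have a2 := hd ω ω' h1 h2 hh.2
      simp only [Prod.mk.injEq] at a2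
      simp only [hh.1, a2.1, a2.2.1, a2.2.2]
    · have k1 := fl_err (2 ^ (NV + i + n) * (l ω).hv (h ω) (tT J w (T ω)))
      have k2 := fl_err (2 ^ n * (2 ^ (NV + i) * ((l ω).hv (h ω) (tT J w (T ω)) -
        (r ω).hv (h ω) (tT J w (T ω)))))
      unfold hgV dV
      rw [abs_le] at k1 k2 ⊢
      rw [pow_add (2 : ℝ) (NV + i) n] at k1 ⊢
      push_cast
      constructor <;> linarith [k1.1, k1.2, k2.1, k2.2]

end

end Pool.OWN17
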