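import Pool.Agent.H17.COR.Law

/-!
# The corner, one place of a law: the data of `uv`
-/

set_option autoImplicit false

namespace Pool.OWN17

open Finset Real
open Pool.Agent.H49.Ent Pool.Agent.H32.Dense Pool.STK Pool.CH30 Pool.KM7 Pool.OWN68

section

variable {Ω ζ 𝒞 : Type} [Fintype Ω] {p : Ω → ℝ} {c J w NU NV i g b : ℕ} {τ c₀ e₁ eU ec : ℝ}
  {l r : Ω → Ln} {h : Ω → Cht} {f : Ω → Frm} {q : Ω → Lbl} {T : Ω → ℕ} {Y : Ω → ℤ} {Rr : Ω → ζ}
  {Cd : Ω → 𝒞}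

/-- The digits of a place at a coarser precision. -/
theorem fl_nest {g j : ℕ} (hj : j ≤ g) (x : ℝ) :
    (⌊2 ^ g * x⌋ : ℤ) / 2 ^ (g - j) = ⌊2 ^ j * x⌋ := by
  have e1 : (2 : ℝ) ^ g = 2 ^ j * 2 ^ (g - j) := by
    rw [← pow_add]
    congr 1
    omega
  have h1 : ⌊2 ^ j * x⌋ = ⌊(2 ^ g * x) / ((2 ^ (g - j) : ℕ) : ℝ)⌋ := by
    congr 1
    rw [e1]
    push_cast
    field_simp
  rw [h1, Int.floor_div_natCast]
  push_cast
  rfl

theorem cast_le_of {x : ℤ} {M : ℕ} (h : |(x : ℝ)| ≤ M) : |x| ≤ (M : ℤ) := by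
  have : ((|x| : ℤ) : ℝ) ≤ ((M : ℤ) : ℝ) := by
    push_cast
    exact h
  exact_mod_cast this

/-- **The data of a place give the data of `uv`.** -/
theorem Pls.plc (hp : IsLaw p) (hc1 : 1 ≤ c)
    (hB : ∀ ω, 0 < p ω → GeoB c w NU NV (l ω) (h ω) (f ω)) (hc₀ : 0 < c₀)
    (H : Pls p c J w NU NV i g b τ c₀ e₁ eU ec l r h f q T Y Rr Cd) :
    Plc p (40 * c ^ 3) g b (30 * c ^ 3) τ c₀ (e₁ + 4 * Real.log 7)
      (eU + Real.log 7 + Real.log (2 * (40 * c ^ 3 : ℕ) + 1))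
      (ec + Real.log (2 * (40 * c ^ 3 : ℕ) + 1)) (dU J w NU i g l r h T) (dV J w NV i g l r h T)
      (dB NU NV g h q) (dK0 J w NV i g r h q T Y) (dK1 w NV i g r q)
      (fun ω => (cT J w g (T ω) : ℤ)) (Wc J w g r T Y Rr) := by
  classical
  have h0 := hp.nonneg
  have hc' : (1 : ℝ) ≤ c := by exact_mod_cast hc1
  have c2 : (c : ℝ) ≤ c ^ 2 := by nlinarith
  have c3 : (c : ℝ) ^ 2 ≤ c ^ 3 := by nlinarith
  have hG : (1 : ℝ) ≤ 2 ^ g := one_le_pow₀ (by norm_num)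
  have hG0 : (0 : ℝ) < 2 ^ g := by positivity
  have hwJ : w ≤ J := by have := H.wJ; omega
  have hwg : w + g ≤ J := by have := H.wJ; omega
  have ht0 := fun ω => tT_nonneg (J := J) (w := w) (T ω)
  have ht1 := fun ω => tT_lt (J := J) (w := w) hwJ (T ω)
  have h7 : Real.log (2 * (((2 : ℕ) : ℝ) + 1) + 1) = Real.log 7 := by norm_num
  have hl7 : 0 ≤ Real.log 7 := Real.log_nonneg (by norm_num)
  -- sizes
  have sz : ∀ (x : ℝ) (M : ℝ), |x| ≤ M → M + 1 ≤ 40 * c ^ 3 →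
      |(⌊2 ^ g * x⌋ : ℤ)| ≤ ((40 * c ^ 3 * 2 ^ g : ℕ) : ℤ) := by
    intro x M hx hM
    refine cast_le_of ?_
    have h1 := fl_abs (2 ^ g * x)
    rw [abs_mul, abs_of_pos hG0] at h1
    push_cast
    nlinarith
  have hz : ∀ ω, 0 < p ω → |lK w NV (h ω) (q ω) * (2 ^ (w + i) * (((l ω).y + tT J w (T ω) *
      (l ω).e) - ((r ω).y + tT J w (T ω) * (r ω).e))) - lK w NV (h ω) (q ω) *
      (2 ^ (w + i) * ((DY J w r T Y ω : ℝ) / 2 ^ J))| * 2 ^ g ≤ 6 * (c : ℝ) ^ 2 := by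
    intro ω hω
    have k1 := (H.geo ω hω).kk hc' (hB ω hω)
    have k2 := H.yc ω hω
    have k3 : |(((l ω).y + tT J w (T ω) * (l ω).e) - ((r ω).y + tT J w (T ω) * (r ω).e)) -
        (DY J w r T Y ω : ℝ) / 2 ^ J| ≤ 2 / 2 ^ J := by
      have h1 := fl_err (2 ^ J * ((r ω).y + tT J w (T ω) * (r ω).e))
      have e1 : (((l ω).y + tT J w (T ω) * (l ω).e) - ((r ω).y + tT J w (T ω) * (r ω).e)) -
          (DY J w r T Y ω : ℝ) / 2 ^ J =
          -((Y ω : ℝ) / 2 ^ J - ((l ω).y + tT J w (T ω) * (l ω).e)) +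
          (((⌊2 ^ J * ((r ω).y + tT J w (T ω) * (r ω).e)⌋ : ℤ) : ℝ) -
            2 ^ J * ((r ω).y + tT J w (T ω) * (r ω).e)) / 2 ^ J := by
        unfold DY
        push_cast
        field_simp
        ring
      rw [e1]
      have t1 := abs_add_le (-((Y ω : ℝ) / 2 ^ J - ((l ω).y + tT J w (T ω) * (l ω).e)))
        ((((⌊2 ^ J * ((r ω).y + tT J w (T ω) * (r ω).e)⌋ : ℤ) : ℝ) -
            2 ^ J * ((r ω).y + tT J w (T ω) * (r ω).e)) / 2 ^ J)
      have t2 : |(((⌊2 ^ J * ((r ω).y + tT J w (T ω) * (r ω).e)⌋ : ℤ) : ℝ) -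
            2 ^ J * ((r ω).y + tT J w (T ω) * (r ω).e)) / 2 ^ J| ≤ 1 / 2 ^ J := by
        rw [abs_div, abs_of_pos (by positivity : (0 : ℝ) < 2 ^ J)]
        exact div_le_div_of_nonneg_right h1 (by positivity)
      rw [abs_neg] at t1
      have e2 : (2 : ℝ) / 2 ^ J = 1 / 2 ^ J + 1 / 2 ^ J := by ring
      rw [e2]
      linarith
    rw [← mul_sub, ← mul_sub, abs_mul, abs_mul, abs_of_pos (by positivity : (0 : ℝ) < 2 ^ (w + i))]
    have hJ : (2 : ℝ) ^ (w + i) * 2 ^ g ≤ 2 ^ J := by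
      rw [← pow_add]
      exact pow_le_pow_right₀ (by norm_num) (by have := H.wJ; omega)
    have k4 : 2 ^ (w + i) * |(((l ω).y + tT J w (T ω) * (l ω).e) -
        ((r ω).y + tT J w (T ω) * (r ω).e)) - (DY J w r T Y ω : ℝ) / 2 ^ J| * 2 ^ g ≤ 2 := by
      have a1 : 2 ^ (w + i) * |(((l ω).y + tT J w (T ω) * (l ω).e) -
        ((r ω).y + tT J w (T ω) * (r ω).e)) - (DY J w r T Y ω : ℝ) / 2 ^ J| * 2 ^ g ≤
        (2 ^ (w + i) * 2 ^ g) * (2 / 2 ^ J) := by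
        have := mul_le_mul_of_nonneg_left k3 (by positivity : (0 : ℝ) ≤ 2 ^ (w + i) * 2 ^ g)
        nlinarith
      have a2 : ((2 : ℝ) ^ (w + i) * 2 ^ g) * (2 / 2 ^ J) ≤ 2 ^ J * (2 / 2 ^ J) :=
        mul_le_mul_of_nonneg_right hJ (by positivity)
      have a3 : (2 : ℝ) ^ J * (2 / 2 ^ J) = 2 := by field_simp
      linarith
    have k5 := mul_le_mul k1 k4 (by positivity) (by positivity)
    nlinarith
  refine ⟨?_, ?_, ?_, ?_, ?_, ?_, ?_, ?_, ?_⟩
  · intro ω hω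
    exact sz _ (2 * c) ((H.geo ω hω).xu (by linarith) (ht0 ω) (ht1 ω)) (by nlinarith)
  · intro ω hω
    exact sz _ c (H.geo ω hω).xb (by nlinarith)
  · intro ω hω
    exact sz _ (6 * c ^ 3) ((H.geo ω hω).r1 hc' (hB ω hω)) (by nlinarith)
  · intro ω hω
    have h1 := cT_le (J := J) (w := w) (g := g) hwg (T ω)
    have h2 : 1 ≤ 40 * c ^ 3 := by
      have : 1 ≤ c ^ 3 := Nat.one_le_pow _ _ hc1
      omega
    rw [abs_of_nonneg (by positivity)]
    have h3 : cT J w g (T ω) ≤ 40 * c ^ 3 * 2 ^ g := h1.trans (Nat.le_mul_of_pos_left _ h2)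
    exact_mod_cast h3
  · intro ω hω
    have k1 := (H.geo ω hω).rel (by linarith) (ht0 ω) (ht1 ω)
    have k2 := (H.geo ω hω).xu (by linarith) (ht0 ω) (ht1 ω)
    have k3 := cT_err (J := J) (w := w) (g := g) hwg (T ω)
    have k4 : |(((cT J w g (T ω) : ℕ) : ℤ) : ℝ)| ≤ 2 ^ g := by
      have h1 := cT_le (J := J) (w := w) (g := g) hwg (T ω)
      rw [abs_of_nonneg (by positivity)]
      exact_mod_cast h1
    have k5 := n_rel (g := g) hc' k2 (H.geo ω hω).xb ((H.geo ω hω).r1 hc' (hB ω hω)) (hz ω hω) k1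
      (cc := ((cT J w g (T ω) : ℕ) : ℤ)) (by push_cast; exact k3) k4
    unfold dU dV dB dK0 dK1
    have k6 : |((2 ^ g * (⌊2 ^ g * (2 ^ (NV + i) * ((l ω).hv (h ω) (tT J w (T ω)) -
        (r ω).hv (h ω) (tT J w (T ω))))⌋) - (2 ^ g * (⌊2 ^ g * (lR0 NV i (r ω) (q ω) +
      lK w NV (h ω) (q ω) * (2 ^ (w + i) * ((DY J w r T Y ω : ℝ) / 2 ^ J)))⌋) +
        (⌊2 ^ g * lR1 w NV i (r ω) (q ω)⌋) * ((cT J w g (T ω) : ℕ) : ℤ) +
        (⌊2 ^ g * xB NU NV (h ω) (q ω)⌋) * (⌊2 ^ g * (2 ^ (NU + i) * ((l ω).hu (h ω)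
          (tT J w (T ω)) - (r ω).hu (h ω) (tT J w (T ω))))⌋)) : ℤ) : ℝ)| ≤
        ((30 * c ^ 3 * 2 ^ g : ℕ) : ℝ) := by
      push_cast
      push_cast at k5
      exact k5
    have k7 := cast_le_of k6
    push_cast at k7 ⊢
    exact k7
  · -- hU
    have k1 := H.hU
    have dZ : Det p (fun ω => (Cd ω, (Rr ω, (T ω, Y ω)))) (fun ω => (Rr ω, (T ω, Y ω))) :=
      fun ω ω' _ _ hh => (Prod.ext_iff.mp hh).2
    have k2 := (dU_hgU (NU := NU) (NV := NV) (i := i) (l := l) hp H.dR g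
      (fun ω => (Cd ω, (Rr ω, (T ω, Y ω)))) dZ).1
    rw [h7] at k2
    have k3 := CH_le_add h0 (hgU J w (NU + i + g) l h T) (dU J w NU i g l r h T)
      (fun ω => (Cd ω, (Rr ω, (T ω, Y ω))))
    have k4 : CH p (dU J w NU i g l r h T) (fun ω => (Cd ω, (Rr ω, (T ω, Y ω)))) ≤
        CH p (dU J w NU i g l r h T) (fun ω => ((dB NU NV g h q ω, (dK0 J w NV i g r h q T Y ω,
          dK1 w NV i g r q ω)), ((cT J w g (T ω) : ℤ), Wc J w g r T Y Rr ω))) := by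
      refine CH_mono_cond h0 fun ω ω' h1 h2 hh => ?_
      simp only [Prod.mk.injEq] at hh
      obtain ⟨a1, a2, a3, a4⟩ := hh
      have b1 := H.dR ω ω' h1 h2 a2
      have b2 := H.dC ω ω' h1 h2 (Prod.ext a1 a2)
      simp only [Prod.mk.injEq] at b1
      simp only [dB, dK0, dK1, Wc, DY, Prod.mk.injEq, b1.1, b1.2.1, b2, a2, a3, a4, true_and]
    have k5 : Real.log (2 * ((40 * c ^ 3 * 2 ^ g : ℕ) : ℝ) + 1) ≤
        g * Real.log 2 + Real.log (2 * (40 * c ^ 3 : ℕ) + 1) := by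
      rw [← Real.log_pow, ← Real.log_mul (by positivity) (by positivity)]
      refine Real.log_le_log (by positivity) ?_
      push_cast
      nlinarith
    linarith
  · -- hc
    have k1 := H.hc
    have k4 : CH p (fun ω => cT J w g (T ω))
        (fun ω => (Cd ω, (Rr ω, (fT J w g (T ω), DY J w r T Y ω)))) ≤
        CH p (fun ω => (cT J w g (T ω) : ℤ)) (fun ω => ((dB NU NV g h q ω,
          (dK0 J w NV i g r h q T Y ω, dK1 w NV i g r q ω)), Wc J w g r T Y Rr ω)) := by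
      have a0 : CH p (fun ω => cT J w g (T ω))
          (fun ω => (Cd ω, (Rr ω, (fT J w g (T ω), DY J w r T Y ω)))) ≤
          CH p (fun ω => (cT J w g (T ω) : ℤ))
          (fun ω => (Cd ω, (Rr ω, (fT J w g (T ω), DY J w r T Y ω)))) := by
        refine CH_mono_left h0 fun ω ω' _ _ hh => ?_
        have hh1 : ((cT J w g (T ω) : ℕ) : ℤ) = ((cT J w g (T ω') : ℕ) : ℤ) :=
          (Prod.ext_iff.mp hh).1
        exact_mod_cast hh1
      refine a0.trans (CH_mono_cond h0 fun ω ω' h1 h2 hh => ?_)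
      simp only [Prod.mk.injEq] at hh
      obtain ⟨a1, a2, a3, a4⟩ := hh
      have b1 := H.dR ω ω' h1 h2 a2
      have b2 := H.dC ω ω' h1 h2 (Prod.ext a1 a2)
      simp only [Prod.mk.injEq] at b1
      simp only [dB, dK0, dK1, Wc, Prod.mk.injEq, b1.1, b1.2.1, b2, a2, a3, a4, true_and]
    have k5 : Real.log (2 * ((40 * c ^ 3 * 2 ^ g : ℕ) : ℝ) + 1) ≤
        g * Real.log 2 + Real.log (2 * (40 * c ^ 3 : ℕ) + 1) := by
      rw [← Real.log_pow, ← Real.log_mul (by positivity) (by positivity)]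
      refine Real.log_le_log (by positivity) ?_
      push_cast
      nlinarith
    linarith
  · -- hall
    have k1 := H.hall
    have dZ : Det p (fun ω => ((cT J w g (T ω) : ℤ), Wc J w g r T Y Rr ω))
        (fun ω => (Rr ω, (T ω, Y ω))) := Wc_det H.dR
    obtain ⟨-, k2, -, k3⟩ := dU_hgU (NU := NU) (NV := NV) (i := i) (l := l) hp H.dR g
      (fun ω => ((cT J w g (T ω) : ℤ), Wc J w g r T Y Rr ω)) dZ
    rw [h7] at k2 k3
    have k4 := two_few hp (A := dU J w NU i g l r h T) (B := dV J w NV i g l r h T)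
      (A' := hgU J w (NU + i + g) l h T) (B' := hgV J w (NV + i + g) l h T)
      (fun ω => ((cT J w g (T ω) : ℤ), Wc J w g r T Y Rr ω)) k2 k3
    have k5 : CH p (fun ω => (hgU J w (NU + i + g) l h T ω, hgV J w (NV + i + g) l h T ω))
        (fun ω => ((cT J w g (T ω) : ℤ), Wc J w g r T Y Rr ω)) ≤
        CH p (fun ω => (hgU J w (NU + i + g) l h T ω, hgV J w (NV + i + g) l h T ω))
        (fun ω => (Rr ω, (T ω, Y ω))) := CH_mono_cond h0 dZ
    linarith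
  · -- hnf
    intro E _ hE j hj hbj
    have hEp : 0 < law p E True := lt_of_lt_of_le hc₀ hE
    have hq : IsLaw (Pool.Agent.H49.Ent.cond p E True) := ⟨cond_nonneg h0 E True, sum_cond p E hEp.ne'⟩
    have hsub : ∀ ω, 0 < Pool.Agent.H49.Ent.cond p E True ω → 0 < p ω := fun ω hω => by
      by_contra hcon
      have h1 : p ω = 0 := le_antisymm (not_lt.mp hcon) (h0 ω)
      unfold Pool.Agent.H49.Ent.cond at hω
      rw [h1] at hω
      simp at hω
    have hdR : Det (Pool.Agent.H49.Ent.cond p E True) Rr (fun ω => (h ω, (r ω, T ω / 2 ^ (J - w)))) :=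
      fun ω ω' h1 h2 hh => H.dR ω ω' (hsub _ h1) (hsub _ h2) hh
    have k1 := H.hnf E hE j hj hbj
    set q' := Pool.Agent.H49.Ent.cond p E True with hq'
    have hq0 := hq.nonneg
    set Z : Ω → ℤ × (ζ × (ℕ × ℤ)) := fun ω => ((cT J w g (T ω) : ℤ), Wc J w g r T Y Rr ω) with hZ
    have dZ : Det q' Z (fun ω => (Rr ω, (T ω, Y ω))) := Wc_det hdR
    have dZ' : ∀ {S : Type} (X : Ω → S), Det q' (fun ω => (X ω, Z ω))
        (fun ω => (Rr ω, (T ω, Y ω))) := fun X ω ω' h1 h2 hh => dZ ω ω' h1 h2 (Prod.ext_iff.mp hh).2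
    -- the first digits
    have e1 : (fun ω => ((dU J w NU i g l r h T ω / 2 ^ (g - j),
        dV J w NV i g l r h T ω / 2 ^ (g - j)), Z ω)) =
        fun ω => ((dU J w NU i j l r h T ω, dV J w NV i j l r h T ω), Z ω) := by
      funext ω
      simp only [dU, dV, fl_nest hj]
    change CH q' (fun ω => (dU J w NU i g l r h T ω, dV J w NV i g l r h T ω))
      (fun ω => ((dU J w NU i g l r h T ω / 2 ^ (g - j),
        dV J w NV i g l r h T ω / 2 ^ (g - j)), Z ω)) ≤ _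
    rw [e1]
    set Z1 : Ω → (ℤ × ℤ) × (ℤ × (ζ × (ℕ × ℤ))) := fun ω =>
      ((dU J w NU i j l r h T ω, dV J w NV i j l r h T ω), Z ω) with hZ1
    -- digits of the heights
    obtain ⟨a1, -, a3, -⟩ := dU_hgU (NU := NU) (NV := NV) (i := i) (l := l) hq hdR j Z dZ
    obtain ⟨-, b2, -, b4⟩ := dU_hgU (NU := NU) (NV := NV) (i := i) (l := l) hq hdR g Z1
      (dZ' _)
    rw [h7] at a1 a3 b2 b4
    have s1 : CH q' (fun ω => (hgU J w (NU + i + j) l h T ω, hgV J w (NV + i + j) l h T ω)) Z1 ≤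
        2 * Real.log 7 := by
      have t1 := CH_subadd hq0 (hgU J w (NU + i + j) l h T) (hgV J w (NV + i + j) l h T) Z1
      have t2 : CH q' (hgU J w (NU + i + j) l h T) Z1 ≤
          CH q' (hgU J w (NU + i + j) l h T) (fun ω => (dU J w NU i j l r h T ω, Z ω)) :=
        CH_mono_cond hq0 fun ω ω' _ _ hh => by
          simp only [hZ1, Prod.mk.injEq] at hh ⊢
          exact ⟨hh.1.1, hh.2⟩
      have t3 : CH q' (hgV J w (NV + i + j) l h T) Z1 ≤
          CH q' (hgV J w (NV + i + j) l h T) (fun ω => (dV J w NV i j l r h T ω, Z ω)) :=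
        CH_mono_cond hq0 fun ω ω' _ _ hh => by
          simp only [hZ1, Prod.mk.injEq] at hh ⊢
          exact ⟨hh.1.2, hh.2⟩
      linarith
    have s2 := two_few hq (A := dU J w NU i g l r h T) (B := dV J w NV i g l r h T)
      (A' := hgU J w (NU + i + g) l h T) (B' := hgV J w (NV + i + g) l h T) Z1 b2 b4
    have s3 := CH_le_add hq0 (fun ω => (hgU J w (NU + i + g) l h T ω,
      hgV J w (NV + i + g) l h T ω)) (fun ω => (hgU J w (NU + i + j) l h T ω,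
        hgV J w (NV + i + j) l h T ω)) Z1
    have s4 : CH q' (fun ω => (hgU J w (NU + i + g) l h T ω, hgV J w (NV + i + g) l h T ω))
        (fun ω => ((hgU J w (NU + i + j) l h T ω, hgV J w (NV + i + j) l h T ω), Z1 ω)) ≤
        CH q' (fun ω => (hgU J w (NU + i + g) l h T ω, hgV J w (NV + i + g) l h T ω))
        (fun ω => ((hgU J w (NU + i + j) l h T ω, hgV J w (NV + i + j) l h T ω),
          (Rr ω, (T ω, Y ω)))) := CH_mono_cond hq0 fun ω ω' h1 h2 hh => by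
      have hh' := Prod.ext_iff.mp hh
      have t1 := dZ' (fun ω => (dU J w NU i j l r h T ω, dV J w NV i j l r h T ω)) ω ω' h1 h2 hh'.2
      exact Prod.ext hh'.1 t1
    linarith

end

end Pool.OWN17
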