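import Pool.Agent.H17.COR.Law2

/-!
# The corner at one ball, in terms of the geometry

`CorL`: the data of a law: lines, charts, frames, places `0, .., m` (tubes with `i k` natural digits,
affine labels with `g k` more digits), records `Q k` of the ball with the position up to the place
`k`, and the entropies. `cor_law`: the defect of the last place is at most the sum of the errors.
-/

set_option autoImplicit false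

namespace Pool.OWN17

open Finset Real
open Pool.Agent.H49.Ent Pool.Agent.H32.Dense Pool.STK Pool.CH30 Pool.KM7 Pool.OWN68

section

variable {Ω ζ 𝒞 𝒦 𝒬 : Type} [Fintype Ω] {p : Ω → ℝ}

/-- The digits of the own velocity of `u`. -/
noncomputable def vU (w n : ℕ) (l : Ω → Ln) (h : Ω → Cht) (ω : Ω) : ℤ :=
  ⌊2 ^ n / 2 ^ w * (l ω).hu' (h ω)⌋

/-- The digits of the own velocity of `v`. -/
noncomputable def vV (w n : ℕ) (l : Ω → Ln) (h : Ω → Cht) (ω : Ω) : ℤ :=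
  ⌊2 ^ n / 2 ^ w * (l ω).hv' (h ω)⌋

/-- The digits of the frame of `u`. -/
noncomputable def jU (w n : ℕ) (f : Ω → Frm) (h : Ω → Cht) (ω : Ω) : ℤ × ℤ :=
  (⌊2 ^ n / 2 ^ w * ((f ω).ju (h ω)).1⌋, ⌊2 ^ n / 2 ^ w * ((f ω).ju (h ω)).2⌋)

/-- The digits of the frame of `v`. -/
noncomputable def jV (w n : ℕ) (f : Ω → Frm) (h : Ω → Cht) (ω : Ω) : ℤ × ℤ :=
  (⌊2 ^ n / 2 ^ w * ((f ω).jv (h ω)).1⌋, ⌊2 ^ n / 2 ^ w * ((f ω).jv (h ω)).2⌋)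

/-- The value of the functional of the velocities at a place. -/
noncomputable def dS (w NU NV i g : ℕ) (l r : Ω → Ln) (h : Ω → Cht) (q : Ω → Lbl) (ω : Ω) : ℤ :=
  ⌊2 ^ g * (2 ^ (NV + i) / 2 ^ w * (r ω).hv' (h ω) + lR1 w NV i (r ω) (q ω) +
    lK w NV (h ω) (q ω) * (2 ^ i * ((l ω).e - (r ω).e))) -
    ((⌊2 ^ g * xB NU NV (h ω) (q ω)⌋ : ℤ) : ℝ) * (2 ^ (NU + i) / 2 ^ w * (r ω).hu' (h ω))⌋

/-- The last position of `v`, from the functional. -/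
noncomputable def dP (J w NU NV i g : ℕ) (r : Ω → Ln) (h : Ω → Cht) (q : Ω → Lbl) (T : Ω → ℕ)
    (Y : Ω → ℤ) (ω : Ω) : ℤ :=
  ⌊(((dK0 J w NV i g r h q T Y ω + dK1 w NV i g r q ω * (cT J w g (T ω) : ℤ) / 2 ^ g : ℤ) : ℤ) : ℝ) +
    2 ^ g * (2 ^ (NV + i) * (r ω).hv (h ω) (tT J w (T ω))) -
    ((⌊2 ^ g * xB NU NV (h ω) (q ω)⌋ : ℤ) : ℝ) * (2 ^ (NU + i) * (r ω).hu (h ω) (tT J w (T ω)))⌋

/-- **The data of a law.** -/
structure CorL (p : Ω → ℝ) (c J w NU NV lam x D m b : ℕ) (i g : ℕ → ℕ)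
    (τ c₀ e₁ eU ec ea eF e0 eb eL η : ℝ) (l : Ω → Ln) (h : Ω → Cht) (f : Ω → Frm) (T : Ω → ℕ)
    (Y el : Ω → ℤ) (r : ℕ → Ω → Ln) (q : ℕ → Ω → Lbl) (Rr : ℕ → Ω → ζ) (Cd : ℕ → Ω → 𝒞)
    (K : Ω → 𝒦) (Q : ℕ → Ω → 𝒬) : Prop where
  step : ∀ k < m, i (k + 1) = i k + g k
  gi : ∀ k ≤ m, g k ≤ i k
  hlam : ∀ k ≤ m, i k + g k ≤ lam
  xg : ∀ k ≤ m, x ≤ g k
  xlam : x + 1 ≤ lam
  hD : ∀ k ≤ m, 4 * c * 2 ^ (i k + g k) ≤ D
  geo : ∀ ω, 0 < p ω → GeoB c w NU NV (l ω) (h ω) (f ω)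
  hel : ∀ ω, 0 < p ω → |(l ω).e - (el ω : ℝ) / 2 ^ lam| ≤ 1 / 2 ^ lam
  hu0 : ∀ ω, 0 < p ω → |(l ω).hu (h ω) (tT J w (T ω))| ≤ c / 2 ^ NU
  pls : ∀ k ≤ m, Pls p c J w NU NV (i k) (g k) b τ c₀ e₁ eU ec l (r k) h f (q k) T Y (Rr k) (Cd k)
  dQ : ∀ k ≤ m, Det p K (Q k)
  dJ : ∀ k ≤ m, Det p K (fun ω => (jU w (NU + i k) f h ω, jV w (NV + i k) f h ω))
  nQ : ∀ k < m, Det p (Q (k + 1)) (Q k)
  tQ : ∀ k ≤ m, Det p (Q k) (fun ω => (h ω, (T ω, Y ω)))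
  pQ : ∀ k < m, Det p (Q (k + 1)) (fun ω => (hgU J w (NU + i k + g k) l h T ω,
    hgV J w (NV + i k + g k) l h T ω))
  pK : Det p K (fun ω => (hgU J w (NU + i m + g m) l h T ω, hgV J w (NV + i m + g m) l h T ω))
  sep : law (P2 p K) (fun v => |(l v.1).e - (l v.2).e| * 2 ^ x < 2) True ≤ η
  trn : ∀ k ≤ m, law (P2 p K) (fun v => |(q k v.1).f3 - (q k v.2).f3| * 2 ^ x <
    3 * (2 ^ NU / 2 ^ NV)) True ≤ η
  wa : ∀ k < m, CH p (Rr k) (fun ω => (Q (k + 1) ω, (el ω, (vU w (NU + i k) l h ω,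
    vV w (NV + i k) l h ω)))) ≤ ea
  wb : CH p (Rr m) (fun ω => ((vU w (NU + i m) l h ω, vV w (NV + i m) l h ω),
    (Q m ω, el ω))) ≤ eb
  z0 : CH p (fun ω => (jU w (NU + i 0) f h ω, jV w (NV + i 0) f h ω)) (Q 0) ≤ e0
  fre : CH p el (Q m) - CH p el K ≤ eF
  low : (2 - τ) * (g m * Real.log 2) - eL ≤
    CH p (fun ω => (hgU J w (NU + i m + g m) l h T ω, hgV J w (NV + i m + g m) l h T ω))
      (fun ω => ((vU w (NU + i m) l h ω, vV w (NV + i m) l h ω), (Q m ω, el ω)))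

theorem div_nest {g : ℕ} (x : ℝ) : (⌊2 ^ g * x⌋ : ℤ) / 2 ^ g = ⌊x⌋ := by
  have h := fl_nest (g := g) (j := 0) (Nat.zero_le g) x
  simpa using h

theorem vU_nest {w n g : ℕ} {l : Ω → Ln} {h : Ω → Cht} {ω ω' : Ω}
    (hh : vU w (n + g) l h ω = vU w (n + g) l h ω') : vU w n l h ω = vU w n l h ω' := by
  have e : ∀ ω, vU w n l h ω = vU w (n + g) l h ω / 2 ^ g := by
    intro ω
    unfold vU
    rw [show (2 : ℝ) ^ (n + g) / 2 ^ w * (l ω).hu' (h ω) =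
      2 ^ g * (2 ^ n / 2 ^ w * (l ω).hu' (h ω)) by rw [pow_add]; ring, div_nest]
  rw [e, e, hh]

theorem vV_nest {w n g : ℕ} {l : Ω → Ln} {h : Ω → Cht} {ω ω' : Ω}
    (hh : vV w (n + g) l h ω = vV w (n + g) l h ω') : vV w n l h ω = vV w n l h ω' := by
  have e : ∀ ω, vV w n l h ω = vV w (n + g) l h ω / 2 ^ g := by
    intro ω
    unfold vV
    rw [show (2 : ℝ) ^ (n + g) / 2 ^ w * (l ω).hv' (h ω) =
      2 ^ g * (2 ^ n / 2 ^ w * (l ω).hv' (h ω)) by rw [pow_add]; ring, div_nest]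
  rw [e, e, hh]

/-- The size of natural digits. -/
theorem nat_size {c : ℕ} {w N i g D : ℕ} (hc : 1 ≤ c) {x : ℝ} (hx : |x| ≤ c * (2 ^ w / 2 ^ N))
    (hD : 4 * c * 2 ^ (i + g) ≤ D) : |(⌊2 ^ (N + i) / 2 ^ w * x⌋ : ℤ)| ≤ (D : ℤ) := by
  refine cast_le_of ?_
  have h1 := fl_abs (2 ^ (N + i) / 2 ^ w * x)
  have h2 := nrm' (A := 2 ^ w) (B := 2 ^ N) (by positivity) (by positivity) hx
  have h3 : (2 : ℝ) ^ (N + i) / 2 ^ w * x = 2 ^ i * (2 ^ N / 2 ^ w * x) := by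
    rw [pow_add]
    ring
  rw [h3, abs_mul, abs_of_pos (by positivity : (0 : ℝ) < 2 ^ i)] at h1
  rw [h3]
  have h4 : ((4 * c * 2 ^ (i + g) : ℕ) : ℝ) ≤ D := by exact_mod_cast hD
  push_cast at h4
  have hI : (1 : ℝ) ≤ 2 ^ i := one_le_pow₀ (by norm_num)
  have hG : (1 : ℝ) ≤ 2 ^ g := one_le_pow₀ (by norm_num)
  have hc' : (1 : ℝ) ≤ c := by exact_mod_cast hc
  have h5 : (2 : ℝ) ^ i * |2 ^ N / 2 ^ w * x| ≤ 2 ^ i * c :=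
    mul_le_mul_of_nonneg_left h2 (by positivity)
  have h6 : (2 : ℝ) ^ i ≤ 2 ^ (i + g) := pow_le_pow_right₀ (by norm_num) (by omega)
  nlinarith

/-- The velocity and the frame. -/
theorem vel_frame {c : ℕ} {w N i lam : ℕ} (hc : 1 ≤ c) {x j1 j2 e : ℝ} {z : ℤ}
    (h1 : |x - (j1 + e * j2)| ≤ 2 ^ w / 2 ^ (N + i)) (h2 : |j2| ≤ c * (2 ^ w / 2 ^ N))
    (he : |e| ≤ 1) (hz : |e - (z : ℝ) / 2 ^ lam| ≤ 1 / 2 ^ lam) (hi : i ≤ lam) :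
    |((⌊2 ^ (N + i) / 2 ^ w * x⌋ : ℤ) : ℝ) - (((⌊2 ^ (N + i) / 2 ^ w * j1⌋ : ℤ) : ℝ) +
      (z : ℝ) / 2 ^ lam * ((⌊2 ^ (N + i) / 2 ^ w * j2⌋ : ℤ) : ℝ))| ≤ 6 * c := by
  have hc' : (1 : ℝ) ≤ c := by exact_mod_cast hc
  have hL0 : (0 : ℝ) < 2 ^ lam := by positivity
  obtain ⟨A, hA⟩ : ∃ A : ℝ, A = 2 ^ (N + i) / 2 ^ w := ⟨_, rfl⟩
  have hA0 : 0 < A := by rw [hA]; positivity
  rw [← hA]
  obtain ⟨d1, hd1⟩ : ∃ d1 : ℝ, d1 = ((⌊A * x⌋ : ℤ) : ℝ) - A * x := ⟨_, rfl⟩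
  obtain ⟨d2, hd2⟩ : ∃ d2 : ℝ, d2 = ((⌊A * j1⌋ : ℤ) : ℝ) - A * j1 := ⟨_, rfl⟩
  obtain ⟨d3, hd3⟩ : ∃ d3 : ℝ, d3 = ((⌊A * j2⌋ : ℤ) : ℝ) - A * j2 := ⟨_, rfl⟩
  have k1 : |d1| ≤ 1 := by rw [hd1]; exact fl_err _
  have k2 : |d2| ≤ 1 := by rw [hd2]; exact fl_err _
  have k3 : |d3| ≤ 1 := by rw [hd3]; exact fl_err _
  obtain ⟨r, hr⟩ : ∃ r : ℝ, r = (z : ℝ) / 2 ^ lam := ⟨_, rfl⟩
  rw [← hr] at hz ⊢
  have hr1 : |r| ≤ 2 := by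
    have t1 := abs_sub_abs_le_abs_sub r e
    rw [abs_sub_comm] at t1
    have t2 : (1 : ℝ) / 2 ^ lam ≤ 1 := by
      rw [div_le_one hL0]
      exact one_le_pow₀ (by norm_num)
    linarith
  have m1 : |A * (x - (j1 + e * j2))| ≤ 1 := by
    rw [abs_mul, abs_of_pos hA0]
    calc A * |x - (j1 + e * j2)| ≤ A * (2 ^ w / 2 ^ (N + i)) := mul_le_mul_of_nonneg_left h1 hA0.le
      _ = 1 := by
        rw [hA]
        field_simp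
  have m2 : |A * j2 * (e - r)| ≤ c := by
    rw [abs_mul, abs_mul, abs_of_pos hA0]
    have h3 : A * |j2| ≤ 2 ^ i * c := by
      calc A * |j2| ≤ A * (c * (2 ^ w / 2 ^ N)) := mul_le_mul_of_nonneg_left h2 hA0.le
        _ = 2 ^ i * c := by
          rw [hA, pow_add]
          field_simp
    have h4 : (2 : ℝ) ^ i / 2 ^ lam ≤ 1 := by
      rw [div_le_one hL0]
      exact pow_le_pow_right₀ (by norm_num) hi
    calc A * |j2| * |e - r| ≤ (2 ^ i * c) * (1 / 2 ^ lam) :=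
          mul_le_mul h3 hz (abs_nonneg _) (by positivity)
      _ = 2 ^ i / 2 ^ lam * c := by ring
      _ ≤ 1 * c := mul_le_mul_of_nonneg_right h4 (by positivity)
      _ = c := one_mul _
  have m3 : |r * d3| ≤ 2 := by
    rw [abs_mul]
    have := mul_le_mul hr1 k3 (abs_nonneg _) (by norm_num)
    linarith
  have e1 : ((⌊A * x⌋ : ℤ) : ℝ) - (((⌊A * j1⌋ : ℤ) : ℝ) + r * ((⌊A * j2⌋ : ℤ) : ℝ)) =
      d1 - d2 + A * (x - (j1 + e * j2)) + A * j2 * (e - r) - r * d3 := by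
    rw [hd1, hd2, hd3]
    ring
  rw [e1]
  have t1 := abs_sub (d1 - d2 + A * (x - (j1 + e * j2)) + A * j2 * (e - r)) (r * d3)
  have t2 := abs_add_le (d1 - d2 + A * (x - (j1 + e * j2))) (A * j2 * (e - r))
  have t3 := abs_add_le (d1 - d2) (A * (x - (j1 + e * j2)))
  have t4 := abs_sub d1 d2
  linarith

end

end Pool.OWN17
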