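import Pool.Agent.H17.COR.Law3

/-!
# The corner at one ball: `cor_law`
-/

set_option autoImplicit false

namespace Pool.OWN17

open Finset Real
open Pool.Agent.H49.Ent Pool.Agent.H32.Dense Pool.STK Pool.CH30 Pool.KM7 Pool.OWN68

section

variable {Ω ζ 𝒞 𝒦 𝒬 : Type} [Fintype Ω] {p : Ω → ℝ}

/-- The constant of the corner. -/
def CC (c : ℕ) : ℕ := 40 * c ^ 3

theorem CC_one {c : ℕ} (hc : 1 ≤ c) : 1 ≤ CC c := by
  have : 1 ≤ c ^ 3 := Nat.one_le_pow _ _ hc
  unfold CC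
  omega

theorem CC_real {c : ℕ} (hc : 1 ≤ c) : (1 : ℝ) ≤ c ∧ (c : ℝ) ≤ c ^ 2 ∧ (c : ℝ) ^ 2 ≤ c ^ 3 := by
  have hc' : (1 : ℝ) ≤ c := by exact_mod_cast hc
  refine ⟨hc', ?_, ?_⟩ <;> nlinarith

/-- **The corner at one ball, in terms of the geometry.** -/
theorem cor_law (hp : IsLaw p) {c J w NU NV lam x D m b : ℕ} {i g : ℕ → ℕ}
    {τ c₀ e₁ eU ec ea eF e0 eb eL η : ℝ} {l : Ω → Ln} {h : Ω → Cht} {f : Ω → Frm} {T : Ω → ℕ}
    {Y el : Ω → ℤ} {r : ℕ → Ω → Ln} {q : ℕ → Ω → Lbl} {Rr : ℕ → Ω → ζ} {Cd : ℕ → Ω → 𝒞}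
    {K : Ω → 𝒦} {Q : ℕ → Ω → 𝒬} (hc1 : 1 ≤ c) (hb : 1 ≤ b)
    (H : CorL p c J w NU NV lam x D m b i g τ c₀ e₁ eU ec ea eF e0 eb eL η l h f T Y el r q Rr Cd
      K Q)
    (hτ : 0 < τ) (hc₀ : 0 < c₀) (he₁ : 0 ≤ e₁) (heU : 0 ≤ eU) (hec : 0 ≤ ec) {e₁' eU' ec' : ℝ}
    (he₁' : e₁' = e₁ + 4 * Real.log 7)
    (heU' : eU' = eU + Real.log 7 + Real.log (2 * (40 * c ^ 3 : ℕ) + 1))
    (hec' : ec' = ec + Real.log (2 * (40 * c ^ 3 : ℕ) + 1)) {err X : ℝ}
    (herr : ∀ k ≤ m, 2 * (eU' + ec') + (b * Real.log 2 + Real.log (2 * (g k + 1)) +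
      Real.log (nlb 1 (CC c) (g k))) + Real.log (2 * (CC c : ℕ) + 5) +
      2 * Real.log (2 * ((30 * c ^ 3 : ℕ) + 2) + 1) + 2 * Real.log 2 +
      4 * Real.log (2 * ((30 * c ^ 3 : ℕ) + 2 * (CC c : ℕ) + 6) + 1) ≤ err)
    (hX : ∀ k ≤ m, XU (g k) b τ c₀ e₁' eU' err ≤ X) {es : ℝ}
    (hes : es = Real.log (2 * ((13 * c ^ 2 : ℕ) + 1) + 1)) :
    τ * (g m * Real.log 2) ≤ 2 * (e₁' + eU' + X + eb + 0) + eL + 5 * eF +
      (e0 + m * (3 * (3 * X + (ea + 2 * Real.log 7) + es) +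
        (4 * Real.log (2 * ((CC c : ℝ) + 1) + 1) + LF (CC c) x D η))) +
      4 * Real.log (2 * ((CC c : ℝ) + 1) + 1) +
      (Real.log (2 * (((2 * CC c * 2 ^ x : ℕ) : ℝ) + 1) + 1) +
        Real.log (2 * ((CC c : ℝ) + 1) + 1) + η * Real.log (2 * D + 1)) := by
  classical
  have h0 := hp.nonneg
  obtain ⟨hc', c2, c3⟩ := CC_real hc1
  have hl7 : 0 ≤ Real.log 7 := Real.log_nonneg (by norm_num)
  have hlC : 0 ≤ Real.log (2 * (40 * c ^ 3 : ℕ) + 1) := Real.log_nonneg (by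
    have : (0 : ℝ) ≤ ((40 * c ^ 3 : ℕ) : ℝ) := Nat.cast_nonneg _
    linarith)
  have hCCr : (CC c : ℝ) = 40 * (c : ℝ) ^ 3 := by
    unfold CC
    push_cast
    ring
  have h7 : Real.log (2 * (((2 : ℕ) : ℝ) + 1) + 1) = Real.log 7 := by norm_num
  -- the places
  have hP : ∀ k ≤ m, Plc p (CC c) (g k) b (30 * c ^ 3) τ c₀ e₁' eU' ec'
      (dU J w NU (i k) (g k) l (r k) h T) (dV J w NV (i k) (g k) l (r k) h T)
      (dB NU NV (g k) h (q k)) (dK0 J w NV (i k) (g k) (r k) h (q k) T Y)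
      (dK1 w NV (i k) (g k) (r k) (q k)) (fun ω => (cT J w (g k) (T ω) : ℤ))
      (Wc J w (g k) (r k) T Y (Rr k)) := by
    intro k hk
    rw [he₁', heU', hec']
    exact (H.pls k hk).plc hp hc1 H.geo hc₀
  -- determination
  have hTY : ∀ k ≤ m, ∀ ω ω', 0 < p ω → 0 < p ω' → Q k ω = Q k ω' →
      h ω = h ω' ∧ T ω = T ω' ∧ Y ω = Y ω' := by
    intro k hk ω ω' h1 h2 hh
    have := H.tQ k hk ω ω' h1 h2 hh
    simpa [Prod.mk.injEq] using this
  have main := corc hp (K := K) Q el (fun z => (z : ℝ) / 2 ^ lam) (C := CC c) (CC_one hc1) g x D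
    hb (k₀ := 30 * c ^ 3) m H.dQ
    (fun k => dU J w NU (i k) (g k) l (r k) h T) (fun k => dV J w NV (i k) (g k) l (r k) h T)
    (fun k => dB NU NV (g k) h (q k)) (fun k => dK0 J w NV (i k) (g k) (r k) h (q k) T Y)
    (fun k => dK1 w NV (i k) (g k) (r k) (q k)) (fun k ω => (cT J w (g k) (T ω) : ℤ))
    (fun k => Wc J w (g k) (r k) T Y (Rr k)) (τ := τ) (c₀ := c₀) (e₁ := e₁') (eU := eU')
    (ec := ec') (err := err) (X := X) hτ hc₀ (by rw [he₁']; linarith) (by rw [heU']; linarith)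
    (by rw [hec']; linarith) herr hX hP
    (fun k => jU w (NU + i k) f h) (fun k => jV w (NV + i k) f h) H.dJ
    (fun k => vU w (NU + i k) l h) (fun k => vV w (NV + i k) l h)
    (fun k => dS w NU NV (i k) (g k) l (r k) h (q k))
    (by
      -- nesting
      intro k hk ω ω' h1 h2 hh
      simp only [Prod.mk.injEq] at hh
      obtain ⟨a1, a2, a3⟩ := hh
      have b1 := H.nQ k hk ω ω' h1 h2 a1
      rw [H.step k hk, ← Nat.add_assoc] at a2
      rw [H.step k hk, ← Nat.add_assoc] at a3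
      simp only [Prod.mk.injEq]
      exact ⟨b1, vU_nest a2, vV_nest a3⟩)
    (by
      intro ω hω
      have k1 := H.hel ω hω
      have k2 := (H.geo ω hω).ce
      have t1 := abs_sub_abs_le_abs_sub ((el ω : ℝ) / 2 ^ lam) (l ω).e
      rw [abs_sub_comm] at t1
      have t2 : (1 : ℝ) / 2 ^ lam ≤ 1 := by
        rw [div_le_one (by positivity)]
        exact one_le_pow₀ (by norm_num)
      rw [hCCr]
      linarith)
    (by
      -- sizes
      intro k hk ω hω
      have hD := H.hD k hk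
      have hg := H.geo ω hω
      have hpl := (H.pls k hk).geo ω hω
      have hvel : ∀ (N : ℕ) (x' j1 j2 : ℝ), |x' - (j1 + (l ω).e * j2)| ≤ 2 ^ w / 2 ^ (N + i k) →
          |j1| ≤ c * (2 ^ w / 2 ^ N) → |j2| ≤ c * (2 ^ w / 2 ^ N) →
          |(⌊2 ^ (N + i k) / 2 ^ w * x'⌋ : ℤ)| ≤ (D : ℤ) := by
        intro N x' j1 j2 a1 a2 a3
        refine cast_le_of ?_
        have b1 := fl_abs (2 ^ (N + i k) / 2 ^ w * x')
        have b2 : |2 ^ (N + i k) / 2 ^ w * x'| ≤ 2 * c * 2 ^ i k + 1 := by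
          have e1 : (2 : ℝ) ^ (N + i k) / 2 ^ w * x' =
              2 ^ (N + i k) / 2 ^ w * (x' - (j1 + (l ω).e * j2)) +
              2 ^ i k * (2 ^ N / 2 ^ w * j1) + 2 ^ i k * ((l ω).e * (2 ^ N / 2 ^ w * j2)) := by
            rw [pow_add]
            ring
          have m1 : |2 ^ (N + i k) / 2 ^ w * (x' - (j1 + (l ω).e * j2))| ≤ 1 := by
            have := nrm' (c := 1) (A := 2 ^ w) (B := 2 ^ (N + i k)) (by positivity) (by positivity)
              (by rw [one_mul]; exact a1)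
            exact this
          have m2 := nrm' (A := 2 ^ w) (B := 2 ^ N) (by positivity) (by positivity) a2
          have m3 := nrm' (A := 2 ^ w) (B := 2 ^ N) (by positivity) (by positivity) a3
          have m4 : |2 ^ i k * (2 ^ N / 2 ^ w * j1)| ≤ 2 ^ i k * c := by
            rw [abs_mul, abs_of_pos (by positivity : (0 : ℝ) < 2 ^ i k)]
            exact mul_le_mul_of_nonneg_left m2 (by positivity)
          have m5 : |2 ^ i k * ((l ω).e * (2 ^ N / 2 ^ w * j2))| ≤ 2 ^ i k * c := by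
            rw [abs_mul, abs_of_pos (by positivity : (0 : ℝ) < 2 ^ i k), abs_mul]
            refine mul_le_mul_of_nonneg_left ?_ (by positivity)
            calc |(l ω).e| * |2 ^ N / 2 ^ w * j2| ≤ 1 * c :=
                  mul_le_mul hg.ce m3 (abs_nonneg _) zero_le_one
              _ = c := one_mul _
          rw [e1]
          have t1 := abs_add_le (2 ^ (N + i k) / 2 ^ w * (x' - (j1 + (l ω).e * j2)) +
              2 ^ i k * (2 ^ N / 2 ^ w * j1)) (2 ^ i k * ((l ω).e * (2 ^ N / 2 ^ w * j2)))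
          have t2 := abs_add_le (2 ^ (N + i k) / 2 ^ w * (x' - (j1 + (l ω).e * j2)))
              (2 ^ i k * (2 ^ N / 2 ^ w * j1))
          linarith
        have h4 : ((4 * c * 2 ^ (i k + g k) : ℕ) : ℝ) ≤ D := by exact_mod_cast hD
        push_cast at h4
        have hI : (1 : ℝ) ≤ 2 ^ i k := one_le_pow₀ (by norm_num)
        have h6 : (2 : ℝ) ^ i k ≤ 2 ^ (i k + g k) := pow_le_pow_right₀ (by norm_num) (by omega)
        nlinarith
      refine ⟨hvel NU _ _ _ hpl.vu hg.cu hg.au, hvel NV _ _ _ hpl.vv hg.cv hg.av,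
        nat_size hc1 hg.au hD, nat_size hc1 hg.av hD⟩)
    (by
      intro k hk ω hω
      have h1 := vel_frame hc1 ((H.pls k hk).geo ω hω).vu (H.geo ω hω).au (H.geo ω hω).ce
        (H.hel ω hω) (by have := H.hlam k hk; omega)
      refine h1.trans ?_
      rw [hCCr]
      nlinarith)
    (by
      intro k hk ω hω
      have h1 := vel_frame hc1 ((H.pls k hk).geo ω hω).vv (H.geo ω hω).av (H.geo ω hω).ce
        (H.hel ω hω) (by have := H.hlam k hk; omega)
      refine h1.trans ?_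
      rw [hCCr]
      nlinarith)
    (by
      -- the functionals
      intro k hk
      left
      intro ω hω
      have hpl := (H.pls k hk.le).geo ω hω
      have h1 := n_s (g := g k) hc' hpl.xb hpl.qu hpl.rel'
      have e1 : vV w (NV + i (k + 1)) l h ω =
          ⌊2 ^ g k * (2 ^ (NV + i k) / 2 ^ w * (l ω).hv' (h ω))⌋ := by
        unfold vV
        rw [H.step k hk]
        congr 1
        rw [← Nat.add_assoc, pow_add]
        ring
      have e2 : vU w (NU + i (k + 1)) l h ω =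
          ⌊2 ^ g k * (2 ^ (NU + i k) / 2 ^ w * (l ω).hu' (h ω))⌋ := by
        unfold vU
        rw [H.step k hk]
        congr 1
        rw [← Nat.add_assoc, pow_add]
        ring
      simp only [e1, e2]
      unfold dS dB
      refine h1.trans ?_
      rw [hCCr]
      nlinarith)
    (η := η)
    (by
      refine le_trans (law_imp (P2_isLaw hp K) fun v hv hh => ?_) H.sep
      obtain ⟨p1, p2, -⟩ := (P2_pos hp v).mp hv
      have k1 := H.hel _ p1
      have k2 := H.hel _ p2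
      have hL0 : (0 : ℝ) < 2 ^ lam := by positivity
      have hX0 : (0 : ℝ) < 2 ^ x := by positivity
      have hxl : (2 : ℝ) ^ x * (2 / 2 ^ lam) ≤ 1 := by
        rw [← mul_div_assoc, div_le_one hL0, ← pow_succ]
        exact pow_le_pow_right₀ (by norm_num) H.xlam
      have t1 : |(l v.1).e - (l v.2).e| ≤ |(el v.1 : ℝ) / 2 ^ lam - (el v.2 : ℝ) / 2 ^ lam| +
          2 / 2 ^ lam := by
        have e1 : (l v.1).e - (l v.2).e = ((el v.1 : ℝ) / 2 ^ lam - (el v.2 : ℝ) / 2 ^ lam) +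
          (((l v.1).e - (el v.1 : ℝ) / 2 ^ lam) - ((l v.2).e - (el v.2 : ℝ) / 2 ^ lam)) := by ring
        rw [e1]
        have s1 := abs_add_le ((el v.1 : ℝ) / 2 ^ lam - (el v.2 : ℝ) / 2 ^ lam)
          (((l v.1).e - (el v.1 : ℝ) / 2 ^ lam) - ((l v.2).e - (el v.2 : ℝ) / 2 ^ lam))
        have s2 := abs_sub ((l v.1).e - (el v.1 : ℝ) / 2 ^ lam)
          ((l v.2).e - (el v.2 : ℝ) / 2 ^ lam)
        have e2 : (2 : ℝ) / 2 ^ lam = 1 / 2 ^ lam + 1 / 2 ^ lam := by ring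
        rw [e2]
        linarith
      have t2 := mul_le_mul_of_nonneg_right t1 hX0.le
      show |(l v.1).e - (l v.2).e| * 2 ^ x < 2
      nlinarith)
    (by
      intro k hk
      refine le_trans (law_imp (P2_isLaw hp K) fun v hv hh => ?_) (H.trn k hk)
      obtain ⟨p1, p2, hK⟩ := (P2_pos hp v).mp hv
      have hhe : h v.1 = h v.2 := by
        have a1 := H.dQ 0 (Nat.zero_le m) _ _ p1 p2 hK
        exact (hTY 0 (Nat.zero_le m) _ _ p1 p2 a1).1
      have hG0 : (0 : ℝ) < 2 ^ g k := by positivity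
      have hX0 : (0 : ℝ) < 2 ^ x := by positivity
      have hxg : (2 : ℝ) ^ x ≤ 2 ^ g k := pow_le_pow_right₀ (by norm_num) (H.xg k hk)
      have f1 := fl_err (2 ^ g k * xB NU NV (h v.1) (q k v.1))
      have f2 := fl_err (2 ^ g k * xB NU NV (h v.2) (q k v.2))
      have e3 : xB NU NV (h v.1) (q k v.1) - xB NU NV (h v.2) (q k v.2) =
          2 ^ NV / 2 ^ NU * ((q k v.1).f3 - (q k v.2).f3) := by
        unfold xB
        rw [hhe]
        ring
      have hh' : |(dB NU NV (g k) h (q k) v.1 : ℝ) - dB NU NV (g k) h (q k) v.2| * 2 ^ x <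
        2 ^ g k := hh
      obtain ⟨b1, hb1⟩ : ∃ b1 : ℝ, b1 = (dB NU NV (g k) h (q k) v.1 : ℝ) := ⟨_, rfl⟩
      obtain ⟨b2, hb2⟩ : ∃ b2 : ℝ, b2 = (dB NU NV (g k) h (q k) v.2 : ℝ) := ⟨_, rfl⟩
      rw [← hb1, ← hb2] at hh'
      unfold dB at hb1 hb2
      rw [← hb1] at f1
      rw [← hb2] at f2
      -- the exact slopes
      have g1 : 2 ^ g k * |xB NU NV (h v.1) (q k v.1) - xB NU NV (h v.2) (q k v.2)| ≤
          |b1 - b2| + 2 := by
        rw [show 2 ^ g k * |xB NU NV (h v.1) (q k v.1) - xB NU NV (h v.2) (q k v.2)| =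
          |2 ^ g k * (xB NU NV (h v.1) (q k v.1) - xB NU NV (h v.2) (q k v.2))| by
            rw [abs_mul, abs_of_pos hG0]]
        have e1 : 2 ^ g k * (xB NU NV (h v.1) (q k v.1) - xB NU NV (h v.2) (q k v.2)) =
            (b1 - b2) - (b1 - 2 ^ g k * xB NU NV (h v.1) (q k v.1)) +
              (b2 - 2 ^ g k * xB NU NV (h v.2) (q k v.2)) := by ring
        rw [e1]
        have s1 := abs_add_le ((b1 - b2) - (b1 - 2 ^ g k * xB NU NV (h v.1) (q k v.1)))
              (b2 - 2 ^ g k * xB NU NV (h v.2) (q k v.2))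
        have s2 := abs_sub (b1 - b2) (b1 - 2 ^ g k * xB NU NV (h v.1) (q k v.1))
        linarith
      show |(q k v.1).f3 - (q k v.2).f3| * 2 ^ x < 3 * (2 ^ NU / 2 ^ NV)
      rw [e3, abs_mul, abs_of_pos (by positivity : (0 : ℝ) < 2 ^ NV / 2 ^ NU)] at g1
      obtain ⟨z, hz⟩ : ∃ z : ℝ, z = |(q k v.1).f3 - (q k v.2).f3| := ⟨_, rfl⟩
      rw [← hz] at g1 ⊢
      have g2 : 2 ^ g k * (2 ^ NV / 2 ^ NU * z) * 2 ^ x < 3 * 2 ^ g k := by
        have := mul_le_mul_of_nonneg_right g1 hX0.le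
        nlinarith
      have g3 : 2 ^ g k * (2 ^ NV / 2 ^ NU * z * 2 ^ x) < 2 ^ g k * 3 := by nlinarith
      have g4 := lt_of_mul_lt_mul_left g3 hG0.le
      have g5 : z * 2 ^ x = (2 ^ NV / 2 ^ NU * z * 2 ^ x) * (2 ^ NU / 2 ^ NV) := by
        field_simp
      rw [g5]
      exact mul_lt_mul_of_pos_right g4 (by positivity))
    (ea := ea + 2 * Real.log 7) (es := es)
    (by
      -- the record is seen behind the place
      intro k hk
      have hkm : k ≤ m := hk.le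
      set Z : Ω → 𝒬 × (ℤ × ((ℤ × ℤ) × ((ℤ × ℤ) × (ℤ × ℤ)))) := fun ω =>
        (Q (k + 1) ω, (el ω, ((vU w (NU + i k) l h ω, vV w (NV + i k) l h ω),
          (jU w (NU + i k) f h ω, jV w (NV + i k) f h ω)))) with hZ
      show CH p (fun ω => ((dU J w NU (i k) (g k) l (r k) h T ω,
        dV J w NV (i k) (g k) l (r k) h T ω), ((cT J w (g k) (T ω) : ℤ),
          Wc J w (g k) (r k) T Y (Rr k) ω))) Z ≤ ea + 2 * Real.log 7
      have a1 := CH_le_add h0 (fun ω => ((dU J w NU (i k) (g k) l (r k) h T ω,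
        dV J w NV (i k) (g k) l (r k) h T ω), ((cT J w (g k) (T ω) : ℤ),
          Wc J w (g k) (r k) T Y (Rr k) ω))) (Rr k) Z
      have a2 : CH p (Rr k) Z ≤ ea := by
        refine le_trans (CH_mono_cond h0 fun ω ω' _ _ hh => ?_) (H.wa k hk)
        simp only [hZ, Prod.mk.injEq] at hh ⊢
        tauto
      have dZ : Det p (fun ω => (Rr k ω, Z ω)) (fun ω => (Rr k ω, (T ω, Y ω))) := by
        intro ω ω' h1 h2 hh
        simp only [hZ, Prod.mk.injEq] at hh
        have b1 := hTY (k + 1) (by omega) ω ω' h1 h2 hh.2.1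
        simp only [Prod.mk.injEq]
        exact ⟨hh.1, b1.2.1, b1.2.2⟩
      obtain ⟨-, b2, -, b4⟩ := dU_hgU (NU := NU) (NV := NV) (i := i k) (l := l) hp
        (H.pls k hkm).dR (g k) (fun ω => (Rr k ω, Z ω)) dZ
      rw [h7] at b2 b4
      have a3 := CH_subadd h0 (fun ω => (dU J w NU (i k) (g k) l (r k) h T ω,
        dV J w NV (i k) (g k) l (r k) h T ω)) (fun ω => ((cT J w (g k) (T ω) : ℤ),
          Wc J w (g k) (r k) T Y (Rr k) ω)) (fun ω => (Rr k ω, Z ω))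
      have a4 : CH p (fun ω => ((cT J w (g k) (T ω) : ℤ),
          Wc J w (g k) (r k) T Y (Rr k) ω)) (fun ω => (Rr k ω, Z ω)) = 0 := by
        refine CH_eq_zero h0 fun ω ω' h1 h2 hh => ?_
        exact Wc_det' (H.pls k hkm).dR ω ω' h1 h2 (dZ ω ω' h1 h2 hh)
      have a5 := CH_subadd h0 (dU J w NU (i k) (g k) l (r k) h T)
        (dV J w NV (i k) (g k) l (r k) h T) (fun ω => (Rr k ω, Z ω))
      have dp : ∀ ω ω', 0 < p ω → 0 < p ω' → Z ω = Z ω' →
          hgU J w (NU + i k + g k) l h T ω = hgU J w (NU + i k + g k) l h T ω' ∧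
          hgV J w (NV + i k + g k) l h T ω = hgV J w (NV + i k + g k) l h T ω' := by
        intro ω ω' h1 h2 hh
        simp only [hZ, Prod.mk.injEq] at hh
        have := H.pQ k hk ω ω' h1 h2 hh.1
        simpa [Prod.mk.injEq] using this
      have a6 : CH p (dU J w NU (i k) (g k) l (r k) h T) (fun ω => (Rr k ω, Z ω)) ≤
          Real.log 7 := by
        refine le_trans (CH_mono_cond h0 fun ω ω' h1 h2 hh => ?_) b2
        have := dp ω ω' h1 h2 (Prod.ext_iff.mp hh).2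
        exact Prod.ext this.1 hh
      have a7 : CH p (dV J w NV (i k) (g k) l (r k) h T) (fun ω => (Rr k ω, Z ω)) ≤
          Real.log 7 := by
        refine le_trans (CH_mono_cond h0 fun ω ω' h1 h2 hh => ?_) b4
        have := dp ω ω' h1 h2 (Prod.ext_iff.mp hh).2
        exact Prod.ext this.2 hh
      linarith)
    (by
      -- the value of the functional is few digits
      intro k hk
      have hkm : k ≤ m := hk.le
      rw [hes]
      set Z : Ω → (ℤ × ℤ) × ((ζ × (ℕ × ℤ)) × (𝒬 × (ℤ × ((ℤ × ℤ) × ((ℤ × ℤ) × (ℤ × ℤ)))))) :=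
        fun ω => ((dB NU NV (g k) h (q k) ω, dK1 w NV (i k) (g k) (r k) (q k) ω),
          (Wc J w (g k) (r k) T Y (Rr k) ω, (Q (k + 1) ω, (el ω, ((vU w (NU + i k) l h ω,
            vV w (NV + i k) l h ω), (jU w (NU + i k) f h ω, jV w (NV + i k) f h ω)))))) with hZ
      show CH p (dS w NU NV (i k) (g k) l (r k) h (q k)) Z ≤ _
      refine cnt_det hp (c := fun ω => 2 ^ g k * (2 ^ (NV + i k) / 2 ^ w * (r k ω).hv' (h ω)) +
        (dK1 w NV (i k) (g k) (r k) (q k) ω : ℝ) +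
        2 ^ g k * ((((jV w (NV + i k) f h ω).2 : ℝ) / 2 ^ i k -
          (dB NU NV (g k) h (q k) ω : ℝ) / 2 ^ g k * (((jU w (NU + i k) f h ω).2 : ℝ) / 2 ^ i k)) *
          (2 ^ i k * ((el ω : ℝ) / 2 ^ lam - (r k ω).e))) -
        (dB NU NV (g k) h (q k) ω : ℝ) * (2 ^ (NU + i k) / 2 ^ w * (r k ω).hu' (h ω))) ?_
        (13 * c ^ 2) fun ω hω => ?_
      · intro ω ω' h1 h2 hh
        simp only [hZ, Wc, Prod.mk.injEq] at hh
        obtain ⟨⟨a1, a2⟩, ⟨a3, -, -⟩, a4, a5, -, a6, a7⟩ := hh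
        have b1 := (H.pls k hkm).dR ω ω' h1 h2 a3
        simp only [Prod.mk.injEq] at b1
        simp only [a1, a2, a5, a6, a7, b1.1, b1.2.1]
      · have hpl := (H.pls k hkm).geo ω hω
        have hg := H.geo ω hω
        have k1 := nrm' (A := 2 ^ w) (B := 2 ^ NV) (by positivity) (by positivity) hg.av
        have k2 := nrm' (A := 2 ^ w) (B := 2 ^ NU) (by positivity) (by positivity) hg.au
        have k3 := nrm (A := 2 ^ i k) (by positivity) hpl.te
        have k4 : |2 ^ i k * ((l ω).e - (r k ω).e) - 2 ^ i k * ((el ω : ℝ) / 2 ^ lam - (r k ω).e)| *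
            2 ^ lam ≤ 2 ^ i k := by
          have e1 : 2 ^ i k * ((l ω).e - (r k ω).e) - 2 ^ i k * ((el ω : ℝ) / 2 ^ lam - (r k ω).e) =
              2 ^ i k * ((l ω).e - (el ω : ℝ) / 2 ^ lam) := by ring
          rw [e1, abs_mul, abs_of_pos (by positivity : (0 : ℝ) < 2 ^ i k)]
          have := H.hel ω hω
          calc 2 ^ i k * |(l ω).e - (el ω : ℝ) / 2 ^ lam| * 2 ^ lam ≤
              2 ^ i k * (1 / 2 ^ lam) * 2 ^ lam := by gcongr
            _ = 2 ^ i k := by field_simp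
        have k5 := n_sc (g := g k) (i := i k) (lam := lam) (H.gi k hkm) (H.hlam k hkm) hc'
          (qur := 2 ^ (NU + i k) / 2 ^ w * (r k ω).hu' (h ω))
          (qvr := 2 ^ (NV + i k) / 2 ^ w * (r k ω).hv' (h ω))
          (r1 := lR1 w NV (i k) (r k ω) (q k ω)) hpl.xb k3 k4 k1 k2
          (lK_eq (NU := NU) (f := f ω)) hpl.tn
        have e1 : (2 : ℝ) ^ (NV + i k) / 2 ^ w * ((f ω).jv (h ω)).2 =
            2 ^ i k * (2 ^ NV / 2 ^ w * ((f ω).jv (h ω)).2) := by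
          rw [pow_add]
          ring
        have e2 : (2 : ℝ) ^ (NU + i k) / 2 ^ w * ((f ω).ju (h ω)).2 =
            2 ^ i k * (2 ^ NU / 2 ^ w * ((f ω).ju (h ω)).2) := by
          rw [pow_add]
          ring
        have e3 : (jV w (NV + i k) f h ω).2 =
            ⌊2 ^ i k * (2 ^ NV / 2 ^ w * ((f ω).jv (h ω)).2)⌋ := by
          unfold jV
          simp only [e1]
        have e4 : (jU w (NU + i k) f h ω).2 =
            ⌊2 ^ i k * (2 ^ NU / 2 ^ w * ((f ω).ju (h ω)).2)⌋ := by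
          unfold jU
          simp only [e2]
        rw [e3, e4]
        unfold dS dB dK1
        refine le_trans (le_of_eq ?_) (k5.trans (le_of_eq (by push_cast; ring)))
        rfl)
    (e0 := e0) (eF := eF) H.z0 H.fre
    (hgU J w (NU + i m + g m) l h T) (hgV J w (NV + i m + g m) l h T)
    (dP J w NU NV (i m) (g m) (r m) h (q m) T Y) H.pK
    (by
      intro ω hω
      refine cast_le_of ?_
      have h1 := fl_abs (2 ^ (NU + i m + g m) * (l ω).hu (h ω) (tT J w (T ω)))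
      have h2 := nrm (A := 2 ^ NU) (by positivity) (H.hu0 ω hω)
      have e1 : (2 : ℝ) ^ (NU + i m + g m) * (l ω).hu (h ω) (tT J w (T ω)) =
          2 ^ (i m + g m) * (2 ^ NU * (l ω).hu (h ω) (tT J w (T ω))) := by
        rw [Nat.add_assoc, pow_add]
        ring
      rw [e1, abs_mul, abs_of_pos (by positivity : (0 : ℝ) < 2 ^ (i m + g m))] at h1
      unfold hgU
      rw [e1]
      have h4 : ((4 * c * 2 ^ (i m + g m) : ℕ) : ℝ) ≤ D := by exact_mod_cast H.hD m le_rfl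
      push_cast at h4
      have hI : (1 : ℝ) ≤ 2 ^ (i m + g m) := one_le_pow₀ (by norm_num)
      have h5 := mul_le_mul_of_nonneg_left h2 (by positivity : (0 : ℝ) ≤ 2 ^ (i m + g m))
      nlinarith)
    (by
      -- the last functional
      intro ω hω
      have hpl := (H.pls m le_rfl).geo ω hω
      have hrel := (hP m le_rfl).hV ω hω
      have hrel' : |2 ^ g m * ((⌊2 ^ g m * (2 ^ (NV + i m) * ((l ω).hv (h ω) (tT J w (T ω)) -
          (r m ω).hv (h ω) (tT J w (T ω))))⌋ : ℤ) : ℝ) -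
          (2 ^ g m * (dK0 J w NV (i m) (g m) (r m) h (q m) T Y ω : ℝ) +
          (dK1 w NV (i m) (g m) (r m) (q m) ω : ℝ) * ((cT J w (g m) (T ω) : ℤ) : ℝ) +
          ((⌊2 ^ g m * xB NU NV (h ω) (q m ω)⌋ : ℤ) : ℝ) *
            ((⌊2 ^ g m * (2 ^ (NU + i m) * ((l ω).hu (h ω) (tT J w (T ω)) -
          (r m ω).hu (h ω) (tT J w (T ω))))⌋ : ℤ) : ℝ))| ≤ 30 * (c : ℝ) ^ 3 * 2 ^ g m := by
        have h1 : ((|2 ^ g m * dV J w NV (i m) (g m) l (r m) h T ω -
          (2 ^ g m * dK0 J w NV (i m) (g m) (r m) h (q m) T Y ω +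
            dK1 w NV (i m) (g m) (r m) (q m) ω * (cT J w (g m) (T ω) : ℤ) +
            dB NU NV (g m) h (q m) ω * dU J w NU (i m) (g m) l (r m) h T ω)| : ℤ) : ℝ) ≤
            (((30 * c ^ 3 : ℕ) * 2 ^ g m : ℤ) : ℝ) := Int.cast_le.mpr hrel
        push_cast at h1 ⊢
        exact h1
      have h1 := n_fin (g := g m) hc' (hr := 2 ^ (NV + i m) * (r m ω).hv (h ω) (tT J w (T ω)))
        (ur := 2 ^ (NU + i m) * (r m ω).hu (h ω) (tT J w (T ω))) hpl.xb hrel'
      have e1 : hgV J w (NV + i m + g m) l h T ω = ⌊2 ^ g m * (2 ^ (NV + i m) *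
          ((l ω).hv (h ω) (tT J w (T ω)) - (r m ω).hv (h ω) (tT J w (T ω))) +
            2 ^ (NV + i m) * (r m ω).hv (h ω) (tT J w (T ω)))⌋ := by
        unfold hgV
        congr 1
        rw [pow_add _ (NV + i m)]
        ring
      have e2 : hgU J w (NU + i m + g m) l h T ω = ⌊2 ^ g m * (2 ^ (NU + i m) *
          ((l ω).hu (h ω) (tT J w (T ω)) - (r m ω).hu (h ω) (tT J w (T ω))) +
            2 ^ (NU + i m) * (r m ω).hu (h ω) (tT J w (T ω)))⌋ := by
        unfold hgU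
        congr 1
        rw [pow_add _ (NU + i m)]
        ring
      rw [e1, e2]
      unfold dP
      refine le_trans (le_of_eq ?_) (h1.trans (by rw [hCCr]))
      rfl)
    (fun _ => ()) (fun _ _ _ _ _ => rfl)
    (eb := eb) (eP := 0) (eL := eL)
    (by
      set Z : Ω → ((ℤ × ℤ) × Unit) × (𝒬 × ℤ) := fun ω =>
        (((vU w (NU + i m) l h ω, vV w (NV + i m) l h ω), ()), (Q m ω, el ω)) with hZ
      show CH p (fun ω => ((cT J w (g m) (T ω) : ℤ), Wc J w (g m) (r m) T Y (Rr m) ω)) Z ≤ eb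
      have a1 := CH_le_add h0 (fun ω => ((cT J w (g m) (T ω) : ℤ),
        Wc J w (g m) (r m) T Y (Rr m) ω)) (Rr m) Z
      have a2 : CH p (Rr m) Z ≤ eb := by
        refine le_trans (CH_mono_cond h0 fun ω ω' _ _ hh => ?_) H.wb
        simp only [hZ, Prod.mk.injEq] at hh ⊢
        tauto
      have a3 : CH p (fun ω => ((cT J w (g m) (T ω) : ℤ), Wc J w (g m) (r m) T Y (Rr m) ω))
          (fun ω => (Rr m ω, Z ω)) = 0 := by
        refine CH_eq_zero h0 fun ω ω' h1 h2 hh => ?_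
        simp only [hZ, Prod.mk.injEq] at hh
        have b1 := hTY m le_rfl ω ω' h1 h2 hh.2.2.1
        exact Wc_det' (H.pls m le_rfl).dR ω ω' h1 h2 (by
          simp only [Prod.mk.injEq]
          exact ⟨hh.1, b1.2.1, b1.2.2⟩)
      linarith)
    (by
      refine le_of_eq (CH_eq_zero h0 fun ω ω' h1 h2 hh => ?_)
      have hh' := Prod.ext_iff.mp hh
      have hB : dB NU NV (g m) h (q m) ω = dB NU NV (g m) h (q m) ω' := (Prod.ext_iff.mp hh'.1).1
      have hK : dK0 J w NV (i m) (g m) (r m) h (q m) T Y ω + dK1 w NV (i m) (g m) (r m) (q m) ω *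
          (cT J w (g m) (T ω) : ℤ) / 2 ^ g m =
          dK0 J w NV (i m) (g m) (r m) h (q m) T Y ω' + dK1 w NV (i m) (g m) (r m) (q m) ω' *
          (cT J w (g m) (T ω') : ℤ) / 2 ^ g m := (Prod.ext_iff.mp hh'.1).2
      have hcW := (Prod.ext_iff.mp hh'.2).1
      have hR := Wc_det (J := J) (w := w) (g := g m) (Y := Y) (H.pls m le_rfl).dR ω ω' h1 h2 hcW
      simp only [Prod.mk.injEq] at hR
      have b1 := (H.pls m le_rfl).dR ω ω' h1 h2 hR.1
      simp only [Prod.mk.injEq] at b1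
      have hB' : (⌊2 ^ g m * xB NU NV (h ω) (q m ω)⌋ : ℤ) =
        ⌊2 ^ g m * xB NU NV (h ω') (q m ω')⌋ := hB
      unfold dP
      rw [hK, hB', b1.1, b1.2.1, hR.2.1])
    (by
      refine H.low.trans (CH_mono_cond h0 fun ω ω' _ _ hh => ?_)
      simp only [Prod.mk.injEq] at hh ⊢
      tauto)
  exact main

end

end Pool.OWN17
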