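import Pool.Agent.H23.LOV.Sup
import Mathlib

/-!
# Superadditive interval functions are linear in the small boxes of almost every point

`sup_lin`: for a superadditive `F w o ≥ 0` at almost every `g` there is a rate `f` with
`|F w o - f (o - w)| ≤ e r` for all `g - r ≤ w ≤ o ≤ g + r`. `lin_ae`: the same for numbers with
rational indices.
-/

set_option autoImplicit false

namespace Pool.OWN17

open MeasureTheory Set Filter Topology Pool.LOV23

section

variable {F : ℝ → ℝ → ℝ} {A B : ℝ}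

/-- A partition with one more point. -/
theorem parts_split (h2 : ∀ w v o, A ≤ w → w ≤ v → v ≤ o → o ≤ B → F w v + F v o ≤ F w o)
    {a b c : ℝ} (ha : A ≤ a) (hab : a ≤ b) (hbc : b ≤ c) (hc : c ≤ B) {s : ℝ}
    (hs : s ∈ parts F a c) : ∃ s₁ ∈ parts F a b, ∃ s₂ ∈ parts F b c, s₁ + s₂ ≤ s := by
  obtain ⟨u, n, hu, hu0, hun, rfl⟩ := hs
  -- cut the partition at `b`
  have e1 : ∀ i j x, i ≤ j → min (u i) x ≤ min (u j) x := fun i j x hij =>
    min_le_min (hu hij) le_rfl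
  have e2 : ∀ i j x, i ≤ j → max (u i) x ≤ max (u j) x := fun i j x hij =>
    max_le_max (hu hij) le_rfl
  refine ⟨∑ i ∈ Finset.range n, F (min (u i) b) (min (u (i + 1)) b),
    ⟨fun i => min (u i) b, n, fun i j hij => e1 i j b hij, by
      simp only [hu0]; exact min_eq_left hab, by simp only [hun]; exact min_eq_right hbc, rfl⟩,
    ∑ i ∈ Finset.range n, F (max (u i) b) (max (u (i + 1)) b),
    ⟨fun i => max (u i) b, n, fun i j hij => e2 i j b hij, by
      simp only [hu0]; exact max_eq_right hab, by simp only [hun]; exact max_eq_left hbc, rfl⟩, ?_⟩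
  rw [← Finset.sum_add_distrib]
  refine Finset.sum_le_sum fun i hi => ?_
  rw [Finset.mem_range] at hi
  have h3 : A ≤ u i := by
    rw [← hu0] at ha
    exact ha.trans (hu (Nat.zero_le i))
  have h4 : u (i + 1) ≤ B := (hu (by omega)).trans (hun.le.trans hc)
  have h5 : u i ≤ u (i + 1) := hu (Nat.le_succ i)
  have hz : ∀ x, A ≤ x → x ≤ B → F x x ≤ 0 := fun x hx hx' => by
    have := h2 x x x hx le_rfl le_rfl hx'
    linarith
  rcases le_total (u (i + 1)) b with h6 | h6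
  · rw [min_eq_left (h5.trans h6), min_eq_left h6, max_eq_right (h5.trans h6), max_eq_right h6]
    have := hz b (ha.trans hab) (hbc.trans hc)
    linarith
  · rcases le_total (u i) b with h7 | h7
    · rw [min_eq_left h7, min_eq_right h6, max_eq_right h7, max_eq_left h6]
      exact h2 _ _ _ h3 h7 h6 h4
    · rw [min_eq_right h7, min_eq_right h6, max_eq_left h7, max_eq_left h6]
      have := hz b (ha.trans hab) (hbc.trans hc)
      linarith

theorem Phi_super (h0 : ∀ w o, A ≤ w → w ≤ o → o ≤ B → 0 ≤ F w o)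
    (h2 : ∀ w v o, A ≤ w → w ≤ v → v ≤ o → o ≤ B → F w v + F v o ≤ F w o)
    {a b c : ℝ} (ha : A ≤ a) (hab : a ≤ b) (hbc : b ≤ c) (hc : c ≤ B) :
    Phi F a b + Phi F b c ≤ Phi F a c := by
  refine le_csInf ⟨_, parts_one F (hab.trans hbc)⟩ fun s hs => ?_
  obtain ⟨s₁, hs₁, s₂, hs₂, h⟩ := parts_split h2 ha hab hbc hc hs
  have h3 := Phi_le h0 ha (hbc.trans hc) hs₁
  have h4 := Phi_le h0 (ha.trans hab) hc hs₂
  linarith

theorem Phi_nonneg (h0 : ∀ w o, A ≤ w → w ≤ o → o ≤ B → 0 ≤ F w o) {a b : ℝ} (ha : A ≤ a)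
    (hab : a ≤ b) (hb : b ≤ B) : 0 ≤ Phi F a b :=
  le_csInf ⟨_, parts_one F hab⟩ fun _ hs => parts_nonneg h0 ha hb hs

end

/-- Increments of a function at a point where it is differentiable. -/
theorem incr_lin {f : ℝ → ℝ} {x : ℝ} (hd : DifferentiableAt ℝ f x) {c : ℝ} (hc : 0 < c) :
    ∃ r₀ : ℝ, 0 < r₀ ∧ ∀ r : ℝ, 0 < r → r < r₀ → ∀ w o : ℝ, x - r ≤ w → w ≤ o → o ≤ x + r →
      |f o - f w - deriv f x * (o - w)| ≤ 2 * c * r := by
  have h1 := hd.hasDerivAt
  rw [hasDerivAt_iff_isLittleO_nhds_zero] at h1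
  have h2 := h1.def hc
  obtain ⟨s, hs, hs'⟩ := Metric.eventually_nhds_iff.1 h2
  refine ⟨s, hs, fun r hr hr' w o hw hwo ho => ?_⟩
  have key : ∀ z : ℝ, x - r ≤ z → z ≤ x + r → |f z - f x - deriv f x * (z - x)| ≤ c * r := by
    intro z hz hz'
    have h3 : |z - x| ≤ r := by
      rw [abs_le]
      constructor <;> linarith
    have h4 := hs' (y := z - x) (by
      rw [dist_zero_right, Real.norm_eq_abs]
      exact h3.trans_lt hr')
    rw [Real.norm_eq_abs, Real.norm_eq_abs, smul_eq_mul] at h4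
    have e1 : x + (z - x) = z := by ring
    rw [e1] at h4
    have e2 : f z - f x - deriv f x * (z - x) = f z - f x - (z - x) * deriv f x := by ring
    rw [e2]
    exact h4.trans (mul_le_mul_of_nonneg_left h3 hc.le)
  have k1 := key w hw (hwo.trans ho)
  have k2 := key o (hw.trans hwo) ho
  have e : f o - f w - deriv f x * (o - w) =
      (f o - f x - deriv f x * (o - x)) - (f w - f x - deriv f x * (w - x)) := by ring
  rw [e]
  refine (abs_sub _ _).trans ?_
  linarith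

/-- **Superadditive interval functions are linear in the boxes of almost every point.** -/
theorem sup_lin {F : ℝ → ℝ → ℝ} {A B lam : ℝ} (hlam : 0 < lam)
    (h0 : ∀ w o, A ≤ w → w ≤ o → o ≤ B → o ≤ w + lam → 0 ≤ F w o)
    (h2 : ∀ w v o, A ≤ w → w ≤ v → v ≤ o → o ≤ B → o ≤ w + lam → F w v + F v o ≤ F w o) :
    ∀ᵐ g : ℝ, g ∈ Ioo A B → ∃ f : ℝ, 0 ≤ f ∧ ∀ e : ℝ, 0 < e → ∃ r₀ : ℝ, 0 < r₀ ∧
      ∀ r : ℝ, 0 < r → r < r₀ → ∀ w o : ℝ, g - r ≤ w → w ≤ o → o ≤ g + r →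
        |F w o - f * (o - w)| ≤ e * r := by
  have key : ∀ᵐ g : ℝ, ∀ (p q : ℚ) (j : ℕ), A ≤ (p : ℝ) → (q : ℝ) ≤ B → (p : ℝ) < q →
      (q : ℝ) ≤ p + lam → g ∈ Ioo (p : ℝ) q → ∃ r₀ : ℝ, 0 < r₀ ∧ ∀ r : ℝ, 0 < r → r < r₀ →
        ∀ w o : ℝ, g - r ≤ w → w ≤ o → o ≤ g + r → Df F w o ≤ 3 * (1 / ((j : ℝ) + 1)) * r := by
    rw [ae_all_iff]; intro p
    rw [ae_all_iff]; intro q
    rw [ae_all_iff]; intro j
    by_cases h : A ≤ (p : ℝ) ∧ (q : ℝ) ≤ B ∧ (p : ℝ) < q ∧ (q : ℝ) ≤ p + lam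
    · obtain ⟨hp, hq, hpq, hl⟩ := h
      have := volume_bad (F := F) (A := p) (B := q)
        (fun w o hw hwo ho => h0 w o (hp.trans hw) hwo (ho.trans hq) (by linarith))
        (fun w v o hw hwv hvo ho => h2 w v o (hp.trans hw) hwv hvo (ho.trans hq) (by linarith))
        hpq (c := 1 / ((j : ℝ) + 1)) (by positivity)
      filter_upwards [this] with g hg _ _ _ _ hmem
      exact hg hmem
    · refine Eventually.of_forall fun g h1 h3 h4 h5 _ => absurd ⟨h1, h3, h4, h5⟩ h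
  have kphi : ∀ᵐ g : ℝ, ∀ (p q : ℚ), A ≤ (p : ℝ) → (q : ℝ) ≤ B → (p : ℝ) < q →
      (q : ℝ) ≤ p + lam → g ∈ Ioo (p : ℝ) q → DifferentiableAt ℝ (fun x => Phi F p x) g := by
    rw [ae_all_iff]; intro p
    rw [ae_all_iff]; intro q
    by_cases h : A ≤ (p : ℝ) ∧ (q : ℝ) ≤ B ∧ (p : ℝ) < q ∧ (q : ℝ) ≤ p + lam
    · obtain ⟨hp, hq, hpq, hl⟩ := h
      have h0' : ∀ w o, (p : ℝ) ≤ w → w ≤ o → o ≤ q → 0 ≤ F w o :=
        fun w o hw hwo ho => h0 w o (hp.trans hw) hwo (ho.trans hq) (by linarith)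
      have h2' : ∀ w v o, (p : ℝ) ≤ w → w ≤ v → v ≤ o → o ≤ q → F w v + F v o ≤ F w o :=
        fun w v o hw hwv hvo ho => h2 w v o (hp.trans hw) hwv hvo (ho.trans hq) (by linarith)
      have hmon : MonotoneOn (fun x => Phi F p x) (Icc (p : ℝ) q) := by
        intro x hx y hy hxy
        have h3 := Phi_super h0' h2' (a := p) (b := x) (c := y) le_rfl hx.1 hxy hy.2
        have h4 := Phi_nonneg h0' (a := x) (b := y) hx.1 hxy hy.2
        dsimp only
        linarith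
      filter_upwards [hmon.ae_differentiableWithinAt_of_mem] with g hg _ _ _ _ hmem
      exact (hg ⟨hmem.1.le, hmem.2.le⟩).differentiableAt (Icc_mem_nhds hmem.1 hmem.2)
    · refine Eventually.of_forall fun g h1 h3 h4 h5 _ => absurd ⟨h1, h3, h4, h5⟩ h
  filter_upwards [key, kphi] with g hg hφ hgAB
  -- a rational interval around `g`
  obtain ⟨p, hp1, hp2⟩ := exists_rat_btwn (show max A (g - lam / 2) < g from
    max_lt hgAB.1 (by linarith))
  obtain ⟨q, hq1, hq2⟩ := exists_rat_btwn (show g < min B (g + lam / 2) from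
    lt_min hgAB.2 (by linarith))
  have hpA : A ≤ (p : ℝ) := (le_max_left _ _).trans hp1.le
  have hpl : g - lam / 2 < (p : ℝ) := (le_max_right _ _).trans_lt hp1
  have hqB : (q : ℝ) ≤ B := hq2.le.trans (min_le_left _ _)
  have hql : (q : ℝ) < g + lam / 2 := hq2.trans_le (min_le_right _ _)
  have h0' : ∀ w o, (p : ℝ) ≤ w → w ≤ o → o ≤ q → 0 ≤ F w o :=
    fun w o hw hwo ho => h0 w o (hpA.trans hw) hwo (ho.trans hqB) (by linarith)
  have h2' : ∀ w v o, (p : ℝ) ≤ w → w ≤ v → v ≤ o → o ≤ q → F w v + F v o ≤ F w o :=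
    fun w v o hw hwv hvo ho => h2 w v o (hpA.trans hw) hwv hvo (ho.trans hqB) (by linarith)
  have hd := hφ p q hpA hqB (hp2.trans hq1) (by linarith) ⟨hp2, hq1⟩
  have hmonφ : ∀ x y : ℝ, (p : ℝ) ≤ x → x ≤ y → y ≤ q → Phi F p y = Phi F p x + Phi F x y := by
    intro x y h1 h3 h4
    have a1 := Phi_super h0' h2' (a := p) (b := x) (c := y) le_rfl h1 h3 h4
    have a2 := Phi_add h0' (a := p) (b := x) (c := y) le_rfl h1 h3 h4
    linarith
  have hf0 : 0 ≤ deriv (fun x => Phi F p x) g := by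
    by_contra hcon
    push Not at hcon
    obtain ⟨r₀, hr₀, hr⟩ := incr_lin hd (c := -deriv (fun x => Phi F p x) g / 4) (by linarith)
    obtain ⟨r, hr1, hr2⟩ : ∃ r, 0 < r ∧ r < min r₀ (min (g - p) (q - g)) := by
      have : 0 < min r₀ (min (g - p) (q - g)) := lt_min hr₀ (lt_min (by linarith) (by linarith))
      exact ⟨_, half_pos this, half_lt_self this⟩
    have hr3 : r < r₀ := hr2.trans_le (min_le_left _ _)
    have hr4 : r < g - p := hr2.trans_le ((min_le_right _ _).trans (min_le_left _ _))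
    have hr5 : r < q - g := hr2.trans_le ((min_le_right _ _).trans (min_le_right _ _))
    have h3 := abs_le.1 (hr r hr1 hr3 (g - r) (g + r) le_rfl (by linarith) le_rfl)
    have h4 := hmonφ (g - r) (g + r) (by linarith) (by linarith) (by linarith)
    have h5 := Phi_nonneg h0' (a := g - r) (b := g + r) (by linarith) (by linarith) (by linarith)
    nlinarith [h3.1, h3.2, h4, h5]
  refine ⟨deriv (fun x => Phi F p x) g, hf0, fun e he => ?_⟩
  obtain ⟨j, hj⟩ := exists_nat_one_div_lt (show 0 < e / 6 by positivity)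
  obtain ⟨r₁, hr₁, hr⟩ := hg p q j hpA hqB (hp2.trans hq1) (by linarith) ⟨hp2, hq1⟩
  obtain ⟨r₂, hr₂, hr'⟩ := incr_lin hd (c := e / 4) (by linarith)
  refine ⟨min (min r₁ r₂) (min (g - p) (q - g)), lt_min (lt_min hr₁ hr₂)
    (lt_min (by linarith) (by linarith)), fun r hr1 hr2 w o hw hwo ho => ?_⟩
  have hr3 : r < r₁ := hr2.trans_le ((min_le_left _ _).trans (min_le_left _ _))
  have hr3' : r < r₂ := hr2.trans_le ((min_le_left _ _).trans (min_le_right _ _))
  have hr4 : r < g - p := hr2.trans_le ((min_le_right _ _).trans (min_le_left _ _))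
  have hr5 : r < q - g := hr2.trans_le ((min_le_right _ _).trans (min_le_right _ _))
  have h3 := hr r hr1 hr3 w o hw hwo ho
  have h3' := Df_nonneg h0' (a := w) (b := o) (by linarith) hwo (by linarith)
  have h4 := abs_le.1 (hr' r hr1 hr3' w o hw hwo ho)
  have h5 := hmonφ w o (by linarith) hwo (by linarith)
  have h6 : 3 * (1 / ((j : ℝ) + 1)) * r ≤ e / 2 * r :=
    mul_le_mul_of_nonneg_right (by linarith) hr1.le
  have h7 : F w o = Df F w o + Phi F w o := by unfold Df; ring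
  rw [h7, abs_le]
  constructor
  · linarith [h4.1]
  · linarith [h4.2]

/-- **Superadditive numbers at rational indices are linear in the boxes of almost every point.** -/
theorem lin_ae {θ : ℚ → ℚ → ℝ} {A B lam : ℝ} (hlam : 0 < lam)
    (h0 : ∀ w o : ℚ, A < w → w ≤ o → (o : ℝ) < B → (o : ℝ) < w + lam → 0 ≤ θ w o)
    (h2 : ∀ w v o : ℚ, A < w → w ≤ v → v ≤ o → (o : ℝ) < B → (o : ℝ) < w + lam →
      θ w v + θ v o ≤ θ w o) :
    ∀ᵐ g : ℝ, g ∈ Ioo A B → ∃ f : ℝ, 0 ≤ f ∧ ∀ e : ℝ, 0 < e → ∃ r₀ : ℝ, 0 < r₀ ∧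
      ∀ r : ℝ, 0 < r → r < r₀ → ∀ w o : ℚ, g - r ≤ w → w ≤ o → (o : ℝ) ≤ g + r →
        |θ w o - f * (o - w)| ≤ e * r := by
  have key : ∀ a b : ℚ, A < a → a < b → (b : ℝ) < B → (b : ℝ) < a + lam →
      ∀ᵐ g : ℝ, g ∈ Ioo (a : ℝ) b → ∃ f : ℝ, 0 ≤ f ∧ ∀ e : ℝ, 0 < e → ∃ r₀ : ℝ, 0 < r₀ ∧
      ∀ r : ℝ, 0 < r → r < r₀ → ∀ w o : ℚ, g - r ≤ w → w ≤ o → (o : ℝ) ≤ g + r →
        |θ w o - f * (o - w)| ≤ e * r := by
    intro a b ha hab hb hl
    have h0' : ∀ w o : ℚ, (a : ℝ) ≤ w → w ≤ o → (o : ℝ) ≤ b → 0 ≤ θ w o := fun w o h1 h3 h4 =>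
      h0 w o (lt_of_lt_of_le ha h1) h3 (lt_of_le_of_lt h4 hb) (by linarith)
    have h2' : ∀ w v o : ℚ, (a : ℝ) ≤ w → w ≤ v → v ≤ o → (o : ℝ) ≤ b →
        θ w v + θ v o ≤ θ w o := fun w v o h1 h3 h4 h5 =>
      h2 w v o (lt_of_lt_of_le ha h1) h3 h4 (lt_of_le_of_lt h5 hb) (by linarith)
    have hmon : ∀ w o w' o' : ℚ, (a : ℝ) ≤ w → w ≤ w' → w' ≤ o' → o' ≤ o → (o : ℝ) ≤ b →
        θ w' o' ≤ θ w o := by
      intro w o w' o' hw a1 a2 a3 ho
      have b1 : (w : ℝ) ≤ w' := by exact_mod_cast a1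
      have b2 : (w' : ℝ) ≤ o' := by exact_mod_cast a2
      have b3 : (o' : ℝ) ≤ o := by exact_mod_cast a3
      have c1 := h2' w w' o hw a1 (a2.trans a3) ho
      have c2 := h2' w' o' o (hw.trans b1) a2 a3 ho
      have c3 := h0' w w' hw a1 (by linarith)
      have c4 := h0' o' o (by linarith) a3 ho
      linarith
    obtain ⟨T, hT⟩ : ∃ T : ℝ → ℝ → Set ℝ, T = fun w o => {x | x = 0 ∨ ∃ w' o' : ℚ,
      w ≤ (w' : ℝ) ∧ w' ≤ o' ∧ (o' : ℝ) ≤ o ∧ x = θ w' o'} := ⟨_, rfl⟩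
    have hz : ∀ w o, (0 : ℝ) ∈ T w o := by
      intro w o
      rw [hT]
      exact Or.inl rfl
    have hbd : ∀ w o : ℝ, (a : ℝ) ≤ w → w ≤ o → o ≤ b → BddAbove (T w o) := by
      intro w o hw hwo ho
      refine ⟨max 0 (θ a b), ?_⟩
      rintro x hx
      rw [hT] at hx
      rcases hx with rfl | ⟨w', o', a1, a2, a3, rfl⟩
      · exact le_max_left _ _
      · have q1 : a ≤ w' := by exact_mod_cast hw.trans a1
        have q2 : o' ≤ b := by exact_mod_cast a3.trans ho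
        exact (hmon a b w' o' le_rfl q1 a2 q2 le_rfl).trans (le_max_right _ _)
    obtain ⟨G, hG⟩ : ∃ G : ℝ → ℝ → ℝ, G = fun w o => sSup (T w o) := ⟨_, rfl⟩
    have hGe : ∀ w o : ℚ, (a : ℝ) ≤ w → w ≤ o → (o : ℝ) ≤ b → G w o = θ w o := by
      intro w o hw hwo ho
      have hwo' : (w : ℝ) ≤ o := by exact_mod_cast hwo
      rw [hG]
      refine le_antisymm (csSup_le ⟨0, hz _ _⟩ ?_) (le_csSup (hbd _ _ hw hwo' ho) ?_)
      · intro x hx
        rw [hT] at hx
        rcases hx with rfl | ⟨w', o', a1, a2, a3, rfl⟩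
        · exact h0' w o hw hwo ho
        · exact hmon w o w' o' hw (by exact_mod_cast a1) a2 (by exact_mod_cast a3) ho
      · rw [hT]
        exact Or.inr ⟨w, o, le_rfl, hwo, le_rfl, rfl⟩
    have hG0 : ∀ w o : ℝ, (a : ℝ) ≤ w → w ≤ o → o ≤ b → 0 ≤ G w o := by
      intro w o a1 a2 a3
      rw [hG]
      exact le_csSup (hbd w o a1 a2 a3) (hz w o)
    have hGs : ∀ w v o : ℝ, (a : ℝ) ≤ w → w ≤ v → v ≤ o → o ≤ b → G w v + G v o ≤ G w o := by
      intro w v o hw hwv hvo ho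
      have hb' := hbd w o hw (hwv.trans hvo) ho
      have gle : ∀ w' o' : ℚ, w ≤ w' → w' ≤ o' → (o' : ℝ) ≤ o → θ w' o' ≤ G w o := by
        intro w' o' a1 a2 a3
        rw [hG]
        refine le_csSup hb' ?_
        rw [hT]
        exact Or.inr ⟨w', o', a1, a2, a3, rfl⟩
      have key : ∀ x ∈ T w v, ∀ x' ∈ T v o, x + x' ≤ G w o := by
        intro x hx x' hx'
        rw [hT] at hx hx'
        rcases hx with rfl | ⟨w1, v1, a1, a2, a3, rfl⟩
        · rcases hx' with rfl | ⟨v2, o2, b1, b2, b3, rfl⟩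
          · rw [add_zero]
            exact hG0 w o hw (hwv.trans hvo) ho
          · rw [zero_add]
            exact gle v2 o2 (hwv.trans b1) b2 b3
        · rcases hx' with rfl | ⟨v2, o2, b1, b2, b3, rfl⟩
          · rw [add_zero]
            exact gle w1 v1 a1 a2 (a3.trans hvo)
          · have c0 : v1 ≤ v2 := by
              have : (v1 : ℝ) ≤ v2 := a3.trans b1
              exact_mod_cast this
            have a2' : (w1 : ℝ) ≤ v1 := by exact_mod_cast a2
            have b2' : (v2 : ℝ) ≤ o2 := by exact_mod_cast b2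
            have c1 := h2' w1 v1 o2 (hw.trans a1) a2 (c0.trans b2) (b3.trans ho)
            have c2 := h2' v1 v2 o2 (by linarith) c0 b2 (b3.trans ho)
            have c3 := h0' v1 v2 (by linarith) c0 (by linarith)
            have c4 := gle w1 o2 a1 (a2.trans (c0.trans b2)) b3
            linarith
      rw [hG] at key ⊢
      have k1 : ∀ x' ∈ T v o, sSup (T w v) ≤ sSup (T w o) - x' := by
        intro x' hx'
        exact csSup_le ⟨0, hz _ _⟩ fun x hx => by linarith [key x hx x' hx']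
      have k2 : sSup (T v o) ≤ sSup (T w o) - sSup (T w v) :=
        csSup_le ⟨0, hz _ _⟩ fun x' hx' => by linarith [k1 x' hx']
      simp only
      linarith
    have hab' : (a : ℝ) < b := by exact_mod_cast hab
    have := sup_lin (F := G) (A := a) (B := b) (lam := lam) hlam
      (fun w o h1 h3 h4 _ => hG0 w o h1 h3 h4) (fun w v o h1 h3 h4 h5 _ => hGs w v o h1 h3 h4 h5)
    filter_upwards [this] with g hg hgAB
    obtain ⟨f, hf, hg⟩ := hg hgAB
    refine ⟨f, hf, fun e he => ?_⟩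
    obtain ⟨r₀, hr₀, hr⟩ := hg e he
    refine ⟨min r₀ (min (g - a) (b - g)), lt_min hr₀ (lt_min (by linarith [hgAB.1])
      (by linarith [hgAB.2])), fun r hr1 hr2 w o hw hwo ho => ?_⟩
    have l1 : r < r₀ := hr2.trans_le (min_le_left _ _)
    have l3 : r < g - a := hr2.trans_le ((min_le_right _ _).trans (min_le_left _ _))
    have l4 : r < b - g := hr2.trans_le ((min_le_right _ _).trans (min_le_right _ _))
    have hwo' : (w : ℝ) ≤ o := by exact_mod_cast hwo
    have h5 := hr r hr1 l1 w o hw hwo' ho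
    rwa [hGe w o (by linarith) hwo (by linarith)] at h5
  have hall : ∀ᵐ g : ℝ, ∀ a b : ℚ, A < a → a < b → (b : ℝ) < B → (b : ℝ) < a + lam →
      g ∈ Ioo (a : ℝ) b → ∃ f : ℝ, 0 ≤ f ∧ ∀ e : ℝ, 0 < e → ∃ r₀ : ℝ, 0 < r₀ ∧
      ∀ r : ℝ, 0 < r → r < r₀ → ∀ w o : ℚ, g - r ≤ w → w ≤ o → (o : ℝ) ≤ g + r →
        |θ w o - f * (o - w)| ≤ e * r := by
    rw [ae_all_iff]
    intro a
    rw [ae_all_iff]
    intro b
    by_cases h : A < a ∧ a < b ∧ (b : ℝ) < B ∧ (b : ℝ) < a + lam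
    · filter_upwards [key a b h.1 h.2.1 h.2.2.1 h.2.2.2] with g hg _ _ _ _ h5
      exact hg h5
    · refine Filter.Eventually.of_forall fun g h1 h2 h3 h4 => ?_
      exact absurd ⟨h1, h2, h3, h4⟩ h
  filter_upwards [hall] with g hg hgAB
  obtain ⟨a, ha1, ha2⟩ := exists_rat_btwn (show max A (g - lam / 2) < g from
    max_lt hgAB.1 (by linarith))
  obtain ⟨b, hb1, hb2⟩ := exists_rat_btwn (show g < min B (g + lam / 2) from
    lt_min hgAB.2 (by linarith))
  have e1 := le_max_left A (g - lam / 2)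
  have e2 := le_max_right A (g - lam / 2)
  have e3 := min_le_left B (g + lam / 2)
  have e4 := min_le_right B (g + lam / 2)
  exact hg a b (by linarith) (by exact_mod_cast ha2.trans hb1) (by linarith) (by linarith)
    ⟨ha2, hb1⟩

end Pool.OWN17
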