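import Pool.Agent.H17.COR.Law4

/-!
# The corner at one ball: explicit records

`rf`: the reference line given by the digits of the tube. `Rd`: the record of the tube. `Nd`: the
natural digits of position and velocity; `Rd` and `Nd` with the time and the exact coordinate are
few bits given each other.
-/

set_option autoImplicit false

namespace Pool.OWN17

open Finset Real
open Pool.Agent.H49.Ent Pool.Agent.H32.Dense Pool.STK Pool.CH30 Pool.KM7 Pool.OWN68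

/-- The reference line: digits of the tube. -/
noncomputable def rf (w NU NV i : ℕ) (l : Ln) (h : Cht) : Ln where
  y := (⌊2 ^ (w + i) * l.y⌋ : ℤ) / 2 ^ (w + i)
  e := (⌊2 ^ i * l.e⌋ : ℤ) / 2 ^ i
  u := h.a0 + h.a2 * ((⌊2 ^ (w + i) * l.y⌋ : ℤ) / 2 ^ (w + i)) +
    (⌊2 ^ (NU + i) * l.hu h 0⌋ : ℤ) / 2 ^ (NU + i)
  du := h.a1 + h.a2 * ((⌊2 ^ i * l.e⌋ : ℤ) / 2 ^ i) +
    (⌊2 ^ (NU + i) / 2 ^ w * l.hu' h⌋ : ℤ) * (2 ^ w / 2 ^ (NU + i))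
  v := h.b0 + h.b2 * ((⌊2 ^ (w + i) * l.y⌋ : ℤ) / 2 ^ (w + i)) +
    h.b3 * (h.a0 + h.a2 * ((⌊2 ^ (w + i) * l.y⌋ : ℤ) / 2 ^ (w + i)) +
      (⌊2 ^ (NU + i) * l.hu h 0⌋ : ℤ) / 2 ^ (NU + i)) +
    (⌊2 ^ (NV + i) * l.hv h 0⌋ : ℤ) / 2 ^ (NV + i)
  dv := h.b1 + h.b2 * ((⌊2 ^ i * l.e⌋ : ℤ) / 2 ^ i) +
    h.b3 * (h.a1 + h.a2 * ((⌊2 ^ i * l.e⌋ : ℤ) / 2 ^ i) +
      (⌊2 ^ (NU + i) / 2 ^ w * l.hu' h⌋ : ℤ) * (2 ^ w / 2 ^ (NU + i))) +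
    (⌊2 ^ (NV + i) / 2 ^ w * l.hv' h⌋ : ℤ) * (2 ^ w / 2 ^ (NV + i))

theorem fl_div {n : ℕ} (x : ℝ) : |x - (⌊2 ^ n * x⌋ : ℤ) / 2 ^ n| ≤ 1 / 2 ^ n := by
  have h1 := fl_err (2 ^ n * x)
  have e1 : x - (⌊2 ^ n * x⌋ : ℤ) / 2 ^ n = -(((⌊2 ^ n * x⌋ : ℤ) : ℝ) - 2 ^ n * x) / 2 ^ n := by
    field_simp
    ring
  rw [e1, abs_div, abs_neg, abs_of_pos (by positivity : (0 : ℝ) < 2 ^ n)]
  exact div_le_div_of_nonneg_right h1 (by positivity)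

theorem fl_div' {n w : ℕ} (x : ℝ) :
    |x - (⌊2 ^ n / 2 ^ w * x⌋ : ℤ) * (2 ^ w / 2 ^ n)| ≤ 2 ^ w / 2 ^ n := by
  have h1 := fl_err (2 ^ n / 2 ^ w * x)
  have e1 : x - (⌊2 ^ n / 2 ^ w * x⌋ : ℤ) * (2 ^ w / 2 ^ n) =
      -(((⌊2 ^ n / 2 ^ w * x⌋ : ℤ) : ℝ) - 2 ^ n / 2 ^ w * x) * (2 ^ w / 2 ^ n) := by
    field_simp
    ring
  rw [e1, abs_mul, abs_neg, abs_of_pos (by positivity : (0 : ℝ) < 2 ^ w / 2 ^ n)]
  calc |((⌊2 ^ n / 2 ^ w * x⌋ : ℤ) : ℝ) - 2 ^ n / 2 ^ w * x| * (2 ^ w / 2 ^ n) ≤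
      1 * (2 ^ w / 2 ^ n) := mul_le_mul_of_nonneg_right h1 (by positivity)
    _ = _ := one_mul _

section

variable {c : ℝ} {w NU NV i g : ℕ} {l : Ln} {h : Cht} {f : Frm} {q : Lbl}

theorem rf_hu : (rf w NU NV i l h).hu h 0 = (⌊2 ^ (NU + i) * l.hu h 0⌋ : ℤ) / 2 ^ (NU + i) := by
  unfold rf
  generalize (⌊2 ^ (NU + i) * l.hu h 0⌋ : ℤ) = A
  unfold Ln.hu
  simp only
  ring

theorem rf_hu' : (rf w NU NV i l h).hu' h =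
    (⌊2 ^ (NU + i) / 2 ^ w * l.hu' h⌋ : ℤ) * (2 ^ w / 2 ^ (NU + i)) := by
  unfold rf
  generalize (⌊2 ^ (NU + i) / 2 ^ w * l.hu' h⌋ : ℤ) = A
  unfold Ln.hu'
  simp only
  ring

theorem rf_hv : (rf w NU NV i l h).hv h 0 = (⌊2 ^ (NV + i) * l.hv h 0⌋ : ℤ) / 2 ^ (NV + i) := by
  unfold rf
  generalize (⌊2 ^ (NV + i) * l.hv h 0⌋ : ℤ) = A
  generalize (⌊2 ^ (NU + i) * l.hu h 0⌋ : ℤ) = B
  unfold Ln.hv
  simp only
  ring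

theorem rf_hv' : (rf w NU NV i l h).hv' h =
    (⌊2 ^ (NV + i) / 2 ^ w * l.hv' h⌋ : ℤ) * (2 ^ w / 2 ^ (NV + i)) := by
  unfold rf
  generalize (⌊2 ^ (NV + i) / 2 ^ w * l.hv' h⌋ : ℤ) = A
  generalize (⌊2 ^ (NU + i) / 2 ^ w * l.hu' h⌋ : ℤ) = B
  unfold Ln.hv'
  simp only
  ring

/-- **The geometry at one place**, without the reference line. -/
structure GeoN (c : ℝ) (w NU NV i g : ℕ) (l : Ln) (h : Cht) (f : Frm) (q : Lbl) : Prop where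
  vu : |l.hu' h - ((f.ju h).1 + l.e * (f.ju h).2)| ≤ 2 ^ w / 2 ^ (NU + i)
  vv : |l.hv' h - ((f.jv h).1 + l.e * (f.jv h).2)| ≤ 2 ^ w / 2 ^ (NV + i)
  lab : |l.v - (q.f0 + q.f2 * l.y + q.f3 * l.u)| ≤ c / 2 ^ (NV + i + g)
  lab' : |l.dv - (q.f1 + q.f2 * l.e + q.f3 * l.du)| ≤ c * (2 ^ w / 2 ^ (NV + i + g))
  tie : |q.f2 + q.f3 * f.au - f.av| ≤ c * (2 ^ w / 2 ^ (NV + g))
  sl : |q.f3 - h.b3| ≤ c * (2 ^ NU / 2 ^ NV)

theorem GeoN.geo (hc : 1 ≤ c) (H : GeoN c w NU NV i g l h f q) :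
    GeoP c w NU NV i g l (rf w NU NV i l h) h f q where
  vu := H.vu
  vv := H.vv
  te := (fl_div l.e).trans (by gcongr)
  ty := (fl_div l.y).trans (by gcongr)
  tu := by
    rw [rf_hu]
    exact (fl_div _).trans (by gcongr)
  tu' := by
    rw [rf_hu']
    refine (fl_div' _).trans (le_mul_of_one_le_left (by positivity) hc)
  tv := by
    rw [rf_hv]
    exact (fl_div _).trans (by gcongr)
  tv' := by
    rw [rf_hv']
    refine (fl_div' _).trans (le_mul_of_one_le_left (by positivity) hc)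
  lab := H.lab
  lab' := H.lab'
  tie := H.tie
  sl := H.sl

end

section

variable {Ω 𝒮 : Type} [Fintype Ω] {p : Ω → ℝ}

/-- The record of the tube. -/
noncomputable def Rd (J w NU NV i : ℕ) (l : Ω → Ln) (h : Ω → Cht) (T : Ω → ℕ) (cs : Ω → 𝒮) (ω : Ω) :
    𝒮 × (ℕ × ((ℤ × ℤ) × ((ℤ × ℤ) × (ℤ × ℤ)))) :=
  (cs ω, (T ω / 2 ^ (J - w), ((⌊2 ^ (w + i) * (l ω).y⌋, ⌊2 ^ i * (l ω).e⌋),
    ((⌊2 ^ (NU + i) * (l ω).hu (h ω) 0⌋, ⌊2 ^ (NU + i) / 2 ^ w * (l ω).hu' (h ω)⌋),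
      (⌊2 ^ (NV + i) * (l ω).hv (h ω) 0⌋, ⌊2 ^ (NV + i) / 2 ^ w * (l ω).hv' (h ω)⌋)))))

/-- The reference line as a function of the sample. -/
noncomputable def rfo (w NU NV i : ℕ) (l : Ω → Ln) (h : Ω → Cht) (ω : Ω) : Ln :=
  rf w NU NV i (l ω) (h ω)

/-- The digits of the direction. -/
noncomputable def eD (i : ℕ) (l : Ω → Ln) (ω : Ω) : ℤ := ⌊2 ^ i * (l ω).e⌋

/-- The natural digits of position and velocity, with the time and the exact coordinate. -/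
noncomputable def Nd (J w NU NV i : ℕ) (l : Ω → Ln) (h : Ω → Cht) (T : Ω → ℕ) (Y : Ω → ℤ)
    (cs : Ω → 𝒮) (ω : Ω) : ((ℤ × ℤ) × (ℤ × ℤ)) × (ℤ × (𝒮 × (ℕ × ℤ))) :=
  (((hgU J w (NU + i) l h T ω, hgV J w (NV + i) l h T ω),
    (vU w (NU + i) l h ω, vV w (NV + i) l h ω)), (eD i l ω, (cs ω, (T ω, Y ω))))

variable {J w NU NV i : ℕ} {l : Ω → Ln} {h : Ω → Cht} {T : Ω → ℕ} {Y : Ω → ℤ} {cs : Ω → 𝒮}

theorem Rd_det (dh : Det p cs h) :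
    Det p (Rd J w NU NV i l h T cs) (fun ω => (h ω, (rfo w NU NV i l h ω, T ω / 2 ^ (J - w)))) := by
  intro ω ω' h1 h2 hh
  simp only [Rd, Prod.mk.injEq] at hh
  obtain ⟨a1, a2, ⟨a3, a4⟩, ⟨a5, a6⟩, a7, a8⟩ := hh
  have b1 := dh ω ω' h1 h2 a1
  have e : rfo w NU NV i l h ω = rfo w NU NV i l h ω' := by
    unfold rfo rf
    rw [a3, a4, a5, a6, a7, a8, b1]
  simp only [Prod.mk.injEq]
  exact ⟨b1, e, a2⟩

/-- **The record of the tube is few bits** given the natural digits. -/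
theorem Rd_few (hp : IsLaw p) (hwJ : w + i ≤ J) (dh : Det p cs h)
    (yc : ∀ ω, 0 < p ω → |(Y ω : ℝ) / 2 ^ J - ((l ω).y + tT J w (T ω) * (l ω).e)| ≤ 1 / 2 ^ J)
    {S : Type} {Z : Ω → S} (hZ : Det p Z (Nd J w NU NV i l h T Y cs)) :
    CH p (Rd J w NU NV i l h T cs) Z ≤ 3 * Real.log 11 := by
  have h0 := hp.nonneg
  have hw : w ≤ J := by omega
  have ht0 := fun ω => tT_nonneg (J := J) (w := w) (T ω)
  have ht1 := fun ω => tT_lt (J := J) (w := w) hw (T ω)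
  have h11 : Real.log (2 * (((4 : ℕ) : ℝ) + 1) + 1) = Real.log 11 := by norm_num
  have dN : ∀ ω ω', 0 < p ω → 0 < p ω' → Z ω = Z ω' →
      hgU J w (NU + i) l h T ω = hgU J w (NU + i) l h T ω' ∧
      hgV J w (NV + i) l h T ω = hgV J w (NV + i) l h T ω' ∧
      vU w (NU + i) l h ω = vU w (NU + i) l h ω' ∧ vV w (NV + i) l h ω = vV w (NV + i) l h ω' ∧
      eD i l ω = eD i l ω' ∧ cs ω = cs ω' ∧ T ω = T ω' ∧ Y ω = Y ω' := by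
    intro ω ω' h1 h2 hh
    have := hZ ω ω' h1 h2 hh
    simp only [Nd, Prod.mk.injEq] at this
    tauto
  -- the three integers
  have k1 : CH p (fun ω => (⌊2 ^ (w + i) * (l ω).y⌋ : ℤ)) Z ≤ Real.log 11 := by
    rw [← h11]
    refine cnt_det hp (c := fun ω => 2 ^ (w + i) * ((Y ω : ℝ) / 2 ^ J -
      tT J w (T ω) * ((eD i l ω : ℝ) / 2 ^ i))) ?_ 4 fun ω hω => ?_
    · intro ω ω' h1 h2 hh
      obtain ⟨-, -, -, -, a5, -, a7, a8⟩ := dN ω ω' h1 h2 hh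
      simp only [a5, a7, a8]
    · have f1 := fl_err (2 ^ (w + i) * (l ω).y)
      have f2 := yc ω hω
      have f3 := fl_div (n := i) (l ω).e
      have e1 : ((⌊2 ^ (w + i) * (l ω).y⌋ : ℤ) : ℝ) - 2 ^ (w + i) * ((Y ω : ℝ) / 2 ^ J -
          tT J w (T ω) * ((eD i l ω : ℝ) / 2 ^ i)) =
          (((⌊2 ^ (w + i) * (l ω).y⌋ : ℤ) : ℝ) - 2 ^ (w + i) * (l ω).y) -
          2 ^ (w + i) * ((Y ω : ℝ) / 2 ^ J - ((l ω).y + tT J w (T ω) * (l ω).e)) -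
          (tT J w (T ω) * 2 ^ w) * (2 ^ i * ((l ω).e - (eD i l ω : ℝ) / 2 ^ i)) := by
        rw [pow_add]
        ring
      rw [e1]
      have m1 : |2 ^ (w + i) * ((Y ω : ℝ) / 2 ^ J - ((l ω).y + tT J w (T ω) * (l ω).e))| ≤ 1 := by
        rw [abs_mul, abs_of_pos (by positivity : (0 : ℝ) < 2 ^ (w + i))]
        calc 2 ^ (w + i) * |(Y ω : ℝ) / 2 ^ J - ((l ω).y + tT J w (T ω) * (l ω).e)| ≤
            2 ^ J * (1 / 2 ^ J) := by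
              refine mul_le_mul (pow_le_pow_right₀ (by norm_num) hwJ) f2 (abs_nonneg _)
                (by positivity)
          _ = 1 := by field_simp
      have m2 : |(tT J w (T ω) * 2 ^ w) * (2 ^ i * ((l ω).e - (eD i l ω : ℝ) / 2 ^ i))| ≤ 1 := by
        rw [abs_mul, abs_of_nonneg (mul_nonneg (ht0 ω) (by positivity)), abs_mul,
          abs_of_pos (by positivity : (0 : ℝ) < 2 ^ i)]
        have : 2 ^ i * |(l ω).e - (eD i l ω : ℝ) / 2 ^ i| ≤ 1 := by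
          calc 2 ^ i * |(l ω).e - (eD i l ω : ℝ) / 2 ^ i| ≤ 2 ^ i * (1 / 2 ^ i) :=
                mul_le_mul_of_nonneg_left f3 (by positivity)
            _ = 1 := by field_simp
        exact mul_le_one₀ (ht1 ω) (by positivity) this
      have t1 := abs_sub ((((⌊2 ^ (w + i) * (l ω).y⌋ : ℤ) : ℝ) - 2 ^ (w + i) * (l ω).y) -
          2 ^ (w + i) * ((Y ω : ℝ) / 2 ^ J - ((l ω).y + tT J w (T ω) * (l ω).e)))
          ((tT J w (T ω) * 2 ^ w) * (2 ^ i * ((l ω).e - (eD i l ω : ℝ) / 2 ^ i)))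
      have t2 := abs_sub (((⌊2 ^ (w + i) * (l ω).y⌋ : ℤ) : ℝ) - 2 ^ (w + i) * (l ω).y)
          (2 ^ (w + i) * ((Y ω : ℝ) / 2 ^ J - ((l ω).y + tT J w (T ω) * (l ω).e)))
      push_cast
      linarith
  have hgt : ∀ (N : ℕ) (x0 x1 t : ℝ) (A B : ℤ), 0 ≤ t → t * 2 ^ w ≤ 1 →
      |(A : ℝ) - 2 ^ N * (x0 + t * x1)| ≤ 1 → |(B : ℝ) - 2 ^ N / 2 ^ w * x1| ≤ 1 →
      |((⌊2 ^ N * x0⌋ : ℤ) : ℝ) - ((A : ℝ) - t * 2 ^ w * B)| ≤ 3 := by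
    intro N x0 x1 t A B a1 a2 a3 a4
    have f1 := fl_err (2 ^ N * x0)
    have e1 : ((⌊2 ^ N * x0⌋ : ℤ) : ℝ) - ((A : ℝ) - t * 2 ^ w * B) =
        (((⌊2 ^ N * x0⌋ : ℤ) : ℝ) - 2 ^ N * x0) - ((A : ℝ) - 2 ^ N * (x0 + t * x1)) +
        (t * 2 ^ w) * ((B : ℝ) - 2 ^ N / 2 ^ w * x1) := by
      field_simp
      ring
    rw [e1]
    have m1 : |(t * 2 ^ w) * ((B : ℝ) - 2 ^ N / 2 ^ w * x1)| ≤ 1 := by
      rw [abs_mul, abs_of_nonneg (mul_nonneg a1 (by positivity))]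
      exact mul_le_one₀ a2 (abs_nonneg _) a4
    have t1 := abs_add_le ((((⌊2 ^ N * x0⌋ : ℤ) : ℝ) - 2 ^ N * x0) -
      ((A : ℝ) - 2 ^ N * (x0 + t * x1))) ((t * 2 ^ w) * ((B : ℝ) - 2 ^ N / 2 ^ w * x1))
    have t2 := abs_sub (((⌊2 ^ N * x0⌋ : ℤ) : ℝ) - 2 ^ N * x0) ((A : ℝ) - 2 ^ N * (x0 + t * x1))
    linarith
  have k2 : CH p (fun ω => (⌊2 ^ (NU + i) * (l ω).hu (h ω) 0⌋ : ℤ)) Z ≤ Real.log 11 := by
    rw [← h11]
    refine cnt_det hp (c := fun ω => (hgU J w (NU + i) l h T ω : ℝ) -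
      tT J w (T ω) * 2 ^ w * (vU w (NU + i) l h ω : ℝ)) ?_ 4 fun ω hω => ?_
    · intro ω ω' h1 h2 hh
      obtain ⟨a1, -, a3, -, -, -, a7, -⟩ := dN ω ω' h1 h2 hh
      simp only [a1, a3, a7]
    · have := hgt (NU + i) ((l ω).hu (h ω) 0) ((l ω).hu' (h ω)) (tT J w (T ω))
        (hgU J w (NU + i) l h T ω) (vU w (NU + i) l h ω) (ht0 ω) (ht1 ω) (by
          rw [← Ln.hu_t]
          exact fl_err _) (fl_err _)
      push_cast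
      linarith
  have k3 : CH p (fun ω => (⌊2 ^ (NV + i) * (l ω).hv (h ω) 0⌋ : ℤ)) Z ≤ Real.log 11 := by
    rw [← h11]
    refine cnt_det hp (c := fun ω => (hgV J w (NV + i) l h T ω : ℝ) -
      tT J w (T ω) * 2 ^ w * (vV w (NV + i) l h ω : ℝ)) ?_ 4 fun ω hω => ?_
    · intro ω ω' h1 h2 hh
      obtain ⟨-, a1, -, a3, -, -, a7, -⟩ := dN ω ω' h1 h2 hh
      simp only [a1, a3, a7]
    · have := hgt (NV + i) ((l ω).hv (h ω) 0) ((l ω).hv' (h ω)) (tT J w (T ω))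
        (hgV J w (NV + i) l h T ω) (vV w (NV + i) l h ω) (ht0 ω) (ht1 ω) (by
          rw [← Ln.hv_t]
          exact fl_err _) (fl_err _)
      push_cast
      linarith
  -- together
  set A : Ω → ℤ × (ℤ × ℤ) := fun ω => (⌊2 ^ (w + i) * (l ω).y⌋,
    (⌊2 ^ (NU + i) * (l ω).hu (h ω) 0⌋, ⌊2 ^ (NV + i) * (l ω).hv (h ω) 0⌋)) with hA
  have s1 := CH_le_add h0 (Rd J w NU NV i l h T cs) A Z
  have s2 : CH p (Rd J w NU NV i l h T cs) (fun ω => (A ω, Z ω)) = 0 := by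
    refine CH_eq_zero h0 fun ω ω' h1 h2 hh => ?_
    simp only [hA, Prod.mk.injEq] at hh
    obtain ⟨⟨b1, b2, b3⟩, b4⟩ := hh
    obtain ⟨-, -, a3, a4, a5, a6, a7, -⟩ := dN ω ω' h1 h2 b4
    unfold eD at a5
    unfold vU at a3
    unfold vV at a4
    unfold Rd
    rw [b1, b2, b3, a3, a4, a5, a6, a7]
  have s3 := CH_subadd h0 (fun ω => (⌊2 ^ (w + i) * (l ω).y⌋ : ℤ))
    (fun ω => (⌊2 ^ (NU + i) * (l ω).hu (h ω) 0⌋, ⌊2 ^ (NV + i) * (l ω).hv (h ω) 0⌋)) Z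
  have s4 := CH_subadd h0 (fun ω => (⌊2 ^ (NU + i) * (l ω).hu (h ω) 0⌋ : ℤ))
    (fun ω => (⌊2 ^ (NV + i) * (l ω).hv (h ω) 0⌋ : ℤ)) Z
  linarith

/-- **The natural digits are few bits** given the record of the tube, the time and the exact
coordinate. -/
theorem Nd_few (hp : IsLaw p) (hw : w ≤ J) {S : Type} {Z : Ω → S}
    (hZ : Det p Z (fun ω => (Rd J w NU NV i l h T cs ω, (T ω, Y ω)))) :
    CH p (Nd J w NU NV i l h T Y cs) Z ≤ 2 * Real.log 11 := by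
  have h0 := hp.nonneg
  have ht0 := fun ω => tT_nonneg (J := J) (w := w) (T ω)
  have ht1 := fun ω => tT_lt (J := J) (w := w) hw (T ω)
  have h11 : Real.log (2 * (((4 : ℕ) : ℝ) + 1) + 1) = Real.log 11 := by norm_num
  have dR : ∀ ω ω', 0 < p ω → 0 < p ω' → Z ω = Z ω' →
      Rd J w NU NV i l h T cs ω = Rd J w NU NV i l h T cs ω' ∧ T ω = T ω' ∧ Y ω = Y ω' := by
    intro ω ω' h1 h2 hh
    have := hZ ω ω' h1 h2 hh
    simpa only [Prod.mk.injEq] using this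
  have hgt : ∀ (N : ℕ) (x0 x1 t : ℝ) (A B : ℤ), 0 ≤ t → t * 2 ^ w ≤ 1 →
      |(A : ℝ) - 2 ^ N * x0| ≤ 1 → |(B : ℝ) - 2 ^ N / 2 ^ w * x1| ≤ 1 →
      |((⌊2 ^ N * (x0 + t * x1)⌋ : ℤ) : ℝ) - ((A : ℝ) + t * 2 ^ w * B)| ≤ 3 := by
    intro N x0 x1 t A B a1 a2 a3 a4
    have f1 := fl_err (2 ^ N * (x0 + t * x1))
    have e1 : ((⌊2 ^ N * (x0 + t * x1)⌋ : ℤ) : ℝ) - ((A : ℝ) + t * 2 ^ w * B) =
        (((⌊2 ^ N * (x0 + t * x1)⌋ : ℤ) : ℝ) - 2 ^ N * (x0 + t * x1)) - ((A : ℝ) - 2 ^ N * x0) -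
        (t * 2 ^ w) * ((B : ℝ) - 2 ^ N / 2 ^ w * x1) := by
      field_simp
      ring
    rw [e1]
    have m1 : |(t * 2 ^ w) * ((B : ℝ) - 2 ^ N / 2 ^ w * x1)| ≤ 1 := by
      rw [abs_mul, abs_of_nonneg (mul_nonneg a1 (by positivity))]
      exact mul_le_one₀ a2 (abs_nonneg _) a4
    have t1 := abs_sub ((((⌊2 ^ N * (x0 + t * x1)⌋ : ℤ) : ℝ) - 2 ^ N * (x0 + t * x1)) -
      ((A : ℝ) - 2 ^ N * x0)) ((t * 2 ^ w) * ((B : ℝ) - 2 ^ N / 2 ^ w * x1))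
    have t2 := abs_sub (((⌊2 ^ N * (x0 + t * x1)⌋ : ℤ) : ℝ) - 2 ^ N * (x0 + t * x1))
      ((A : ℝ) - 2 ^ N * x0)
    linarith
  have k2 : CH p (hgU J w (NU + i) l h T) Z ≤ Real.log 11 := by
    rw [← h11]
    refine cnt_det hp (c := fun ω => ((⌊2 ^ (NU + i) * (l ω).hu (h ω) 0⌋ : ℤ) : ℝ) +
      tT J w (T ω) * 2 ^ w * (⌊2 ^ (NU + i) / 2 ^ w * (l ω).hu' (h ω)⌋ : ℤ)) ?_ 4 fun ω hω => ?_
    · intro ω ω' h1 h2 hh
      obtain ⟨a1, a2, -⟩ := dR ω ω' h1 h2 hh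
      simp only [Rd, Prod.mk.injEq] at a1
      simp only [a1, a2]
    · have := hgt (NU + i) ((l ω).hu (h ω) 0) ((l ω).hu' (h ω)) (tT J w (T ω)) _ _ (ht0 ω) (ht1 ω)
        (fl_err _) (fl_err _)
      unfold hgU
      rw [Ln.hu_t]
      push_cast
      linarith
  have k3 : CH p (hgV J w (NV + i) l h T) Z ≤ Real.log 11 := by
    rw [← h11]
    refine cnt_det hp (c := fun ω => ((⌊2 ^ (NV + i) * (l ω).hv (h ω) 0⌋ : ℤ) : ℝ) +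
      tT J w (T ω) * 2 ^ w * (⌊2 ^ (NV + i) / 2 ^ w * (l ω).hv' (h ω)⌋ : ℤ)) ?_ 4 fun ω hω => ?_
    · intro ω ω' h1 h2 hh
      obtain ⟨a1, a2, -⟩ := dR ω ω' h1 h2 hh
      simp only [Rd, Prod.mk.injEq] at a1
      simp only [a1, a2]
    · have := hgt (NV + i) ((l ω).hv (h ω) 0) ((l ω).hv' (h ω)) (tT J w (T ω)) _ _ (ht0 ω) (ht1 ω)
        (fl_err _) (fl_err _)
      unfold hgV
      rw [Ln.hv_t]
      push_cast
      linarith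
  set A : Ω → ℤ × ℤ := fun ω => (hgU J w (NU + i) l h T ω, hgV J w (NV + i) l h T ω) with hA
  have s1 := CH_le_add h0 (Nd J w NU NV i l h T Y cs) A Z
  have s2 : CH p (Nd J w NU NV i l h T Y cs) (fun ω => (A ω, Z ω)) = 0 := by
    refine CH_eq_zero h0 fun ω ω' h1 h2 hh => ?_
    simp only [hA, Prod.mk.injEq] at hh
    obtain ⟨⟨b1, b2⟩, b4⟩ := hh
    obtain ⟨a1, a2, a3⟩ := dR ω ω' h1 h2 b4
    simp only [Rd, Prod.mk.injEq] at a1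
    unfold Nd eD vU vV
    simp only [b1, b2, a1, a2, a3]
  have s3 := CH_subadd h0 (hgU J w (NU + i) l h T) (hgV J w (NV + i) l h T) Z
  linarith

end

end Pool.OWN17
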