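import Pool.Agent.H17.COR.Nat1

/-!
# The corner at one ball: natural digits

`CorN`: the data of a law in terms of natural digits (no reference lines). `cor_nat`: the defect of
the last place is at most the sum of the errors.
-/

set_option autoImplicit false

namespace Pool.OWN17

open Finset Real
open Pool.Agent.H49.Ent Pool.Agent.H32.Dense Pool.STK Pool.CH30 Pool.KM7 Pool.OWN68

section

variable {Ω 𝒮 𝒵 𝒵' : Type} [Fintype Ω] {p : Ω → ℝ}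

/-- The record of the ball with the position up to `n` natural digits. -/
noncomputable def Qd (J w NU NV n : ℕ) (l : Ω → Ln) (h : Ω → Cht) (T : Ω → ℕ) (Y : Ω → ℤ)
    (cs : Ω → 𝒮) (zz : Ω → 𝒵) (ω : Ω) : 𝒵 × (𝒮 × ((ℕ × ℤ) × (ℤ × ℤ))) :=
  (zz ω, (cs ω, ((T ω, Y ω), (hgU J w (NU + n) l h T ω, hgV J w (NV + n) l h T ω))))

/-- The record of the point: `n'` natural digits of the position, `n` natural digits of the frame. -/
noncomputable def Kd (J w NU NV n n' : ℕ) (l : Ω → Ln) (h : Ω → Cht) (f : Ω → Frm) (T : Ω → ℕ)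
    (Y : Ω → ℤ) (cs : Ω → 𝒮) (zd : Ω → 𝒵') (ω : Ω) :
    𝒵' × (𝒮 × ((ℕ × ℤ) × ((ℤ × ℤ) × ((ℤ × ℤ) × (ℤ × ℤ))))) :=
  (zd ω, (cs ω, ((T ω, Y ω), ((hgU J w (NU + n') l h T ω, hgV J w (NV + n') l h T ω),
    (jU w (NU + n) f h ω, jV w (NV + n) f h ω)))))

/-- **The data of a law, natural digits.** -/
structure CorN (p : Ω → ℝ) (c J w NU NV lam x D m b : ℕ) (i g : ℕ → ℕ)
    (τ c₀ e₁ eU ec eF eL η : ℝ) (l : Ω → Ln) (h : Ω → Cht) (f : Ω → Frm) (T : Ω → ℕ)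
    (Y el : Ω → ℤ) (q : ℕ → Ω → Lbl) (cs : Ω → 𝒮) (zz : ℕ → Ω → 𝒵) (zd : Ω → 𝒵') : Prop where
  step : ∀ k < m, i (k + 1) = i k + g k
  gi : ∀ k ≤ m, g k ≤ i k
  hlam : ∀ k ≤ m, i k + g k ≤ lam
  xg : ∀ k ≤ m, x ≤ g k
  xlam : x + 1 ≤ lam
  hD : ∀ k ≤ m, 4 * c * 2 ^ (i k + g k) ≤ D
  wJ : ∀ k ≤ m, w + i k + g k ≤ J
  geo : ∀ ω, 0 < p ω → GeoB c w NU NV (l ω) (h ω) (f ω)
  hel : ∀ ω, 0 < p ω → |(l ω).e - (el ω : ℝ) / 2 ^ lam| ≤ 1 / 2 ^ lam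
  hu0 : ∀ ω, 0 < p ω → |(l ω).hu (h ω) (tT J w (T ω))| ≤ c / 2 ^ NU
  yc : ∀ ω, 0 < p ω → |(Y ω : ℝ) / 2 ^ J - ((l ω).y + tT J w (T ω) * (l ω).e)| ≤ 1 / 2 ^ J
  dh : Det p cs h
  gN : ∀ k ≤ m, ∀ ω, 0 < p ω → GeoN c w NU NV (i k) (g k) (l ω) (h ω) (f ω) (q k ω)
  hU : ∀ k ≤ m, g k * Real.log 2 - eU ≤ CH p (hgU J w (NU + i k + g k) l h T)
    (fun ω => (q k ω, (Rd J w NU NV (i k) l h T cs ω, (T ω, Y ω))))
  hc : ∀ k ≤ m, g k * Real.log 2 - ec ≤ CH p (fun ω => cT J w (g k) (T ω))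
    (fun ω => (q k ω, (Rd J w NU NV (i k) l h T cs ω, (fT J w (g k) (T ω),
      DY J w (rfo w NU NV (i k) l h) T Y ω))))
  hall : ∀ k ≤ m, CH p (fun ω => (hgU J w (NU + i k + g k) l h T ω,
    hgV J w (NV + i k + g k) l h T ω)) (Nd J w NU NV (i k) l h T Y cs) ≤
      (2 - τ) * (g k * Real.log 2) + e₁
  hnf : ∀ k ≤ m, ∀ E : Ω → Prop, c₀ ≤ law p E True → ∀ j, j ≤ g k → b ∣ j →
    CH (Pool.Agent.H49.Ent.cond p E True) (fun ω => (hgU J w (NU + i k + g k) l h T ω,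
      hgV J w (NV + i k + g k) l h T ω)) (fun ω => ((hgU J w (NU + i k + j) l h T ω,
        hgV J w (NV + i k + j) l h T ω), Nd J w NU NV (i k) l h T Y cs ω)) ≤
      (2 - τ) * (((g k : ℝ) - j) * Real.log 2) + e₁
  nz : ∀ k < m, Det p (zz (k + 1)) (zz k)
  nd : Det p zd (zz m)
  sep : law (P2 p (Kd J w NU NV (i m) (i m + g m) l h f T Y cs zd))
    (fun v => |(l v.1).e - (l v.2).e| * 2 ^ x < 2) True ≤ η
  trn : ∀ k ≤ m, law (P2 p (Kd J w NU NV (i m) (i m + g m) l h f T Y cs zd))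
    (fun v => |(q k v.1).f3 - (q k v.2).f3| * 2 ^ x < 3 * (2 ^ NU / 2 ^ NV)) True ≤ η
  fre : CH p el (Qd J w NU NV (i m) l h T Y cs (zz m)) -
    CH p el (Kd J w NU NV (i m) (i m + g m) l h f T Y cs zd) ≤ eF
  low : (2 - τ) * (g m * Real.log 2) - eL ≤ CH p (fun ω => (hgU J w (NU + i m + g m) l h T ω,
    hgV J w (NV + i m + g m) l h T ω)) (fun ω => ((vU w (NU + i m) l h ω,
      vV w (NV + i m) l h ω), (Qd J w NU NV (i m) l h T Y cs (zz m) ω, el ω)))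

theorem hgU_nest {J w n g : ℕ} {l : Ω → Ln} {h : Ω → Cht} {T : Ω → ℕ} {ω ω' : Ω}
    (hh : hgU J w (n + g) l h T ω = hgU J w (n + g) l h T ω') :
    hgU J w n l h T ω = hgU J w n l h T ω' := by
  have e : ∀ ω, hgU J w n l h T ω = hgU J w (n + g) l h T ω / 2 ^ g := by
    intro ω
    unfold hgU
    rw [show (2 : ℝ) ^ (n + g) * (l ω).hu (h ω) (tT J w (T ω)) =
      2 ^ g * (2 ^ n * (l ω).hu (h ω) (tT J w (T ω))) by rw [pow_add]; ring, div_nest]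
  rw [e, e, hh]

theorem hgV_nest {J w n g : ℕ} {l : Ω → Ln} {h : Ω → Cht} {T : Ω → ℕ} {ω ω' : Ω}
    (hh : hgV J w (n + g) l h T ω = hgV J w (n + g) l h T ω') :
    hgV J w n l h T ω = hgV J w n l h T ω' := by
  have e : ∀ ω, hgV J w n l h T ω = hgV J w (n + g) l h T ω / 2 ^ g := by
    intro ω
    unfold hgV
    rw [show (2 : ℝ) ^ (n + g) * (l ω).hv (h ω) (tT J w (T ω)) =
      2 ^ g * (2 ^ n * (l ω).hv (h ω) (tT J w (T ω))) by rw [pow_add]; ring, div_nest]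
  rw [e, e, hh]

theorem jU_nest {w n g : ℕ} {f : Ω → Frm} {h : Ω → Cht} {ω ω' : Ω}
    (hh : jU w (n + g) f h ω = jU w (n + g) f h ω') : jU w n f h ω = jU w n f h ω' := by
  have e : ∀ ω, jU w n f h ω = ((jU w (n + g) f h ω).1 / 2 ^ g, (jU w (n + g) f h ω).2 / 2 ^ g) := by
    intro ω
    unfold jU
    rw [show (2 : ℝ) ^ (n + g) / 2 ^ w * ((f ω).ju (h ω)).1 =
      2 ^ g * (2 ^ n / 2 ^ w * ((f ω).ju (h ω)).1) by rw [pow_add]; ring,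
      show (2 : ℝ) ^ (n + g) / 2 ^ w * ((f ω).ju (h ω)).2 =
      2 ^ g * (2 ^ n / 2 ^ w * ((f ω).ju (h ω)).2) by rw [pow_add]; ring, div_nest, div_nest]
  rw [e, e, hh]

theorem jV_nest {w n g : ℕ} {f : Ω → Frm} {h : Ω → Cht} {ω ω' : Ω}
    (hh : jV w (n + g) f h ω = jV w (n + g) f h ω') : jV w n f h ω = jV w n f h ω' := by
  have e : ∀ ω, jV w n f h ω = ((jV w (n + g) f h ω).1 / 2 ^ g, (jV w (n + g) f h ω).2 / 2 ^ g) := by
    intro ω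
    unfold jV
    rw [show (2 : ℝ) ^ (n + g) / 2 ^ w * ((f ω).jv (h ω)).1 =
      2 ^ g * (2 ^ n / 2 ^ w * ((f ω).jv (h ω)).1) by rw [pow_add]; ring,
      show (2 : ℝ) ^ (n + g) / 2 ^ w * ((f ω).jv (h ω)).2 =
      2 ^ g * (2 ^ n / 2 ^ w * ((f ω).jv (h ω)).2) by rw [pow_add]; ring, div_nest, div_nest]
  rw [e, e, hh]

theorem seq_le {i g : ℕ → ℕ} {m : ℕ} (hs : ∀ k < m, i (k + 1) = i k + g k) {k : ℕ} (hk : k ≤ m) :
    i k ≤ i m := by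
  induction m with
  | zero =>
    have : k = 0 := by omega
    rw [this]
  | succ n ih =>
    rcases Nat.lt_or_ge k (n + 1) with h | h
    · have h1 := ih (fun j hj => hs j (by omega)) (by omega)
      have h2 := hs n (by omega)
      omega
    · have : k = n + 1 := by omega
      rw [this]

end

end Pool.OWN17
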