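import Pool.Agent.H17.COR.Nat2

/-!
# The corner at one ball: natural digits give the data of `cor_law`
-/

set_option autoImplicit false

namespace Pool.OWN17

open Finset Real
open Pool.Agent.H49.Ent Pool.Agent.H32.Dense Pool.STK Pool.CH30 Pool.KM7 Pool.OWN68

section

variable {Ω 𝒮 𝒵 𝒵' : Type} [Fintype Ω] {p : Ω → ℝ}

theorem CorN.corL (hp : IsLaw p) {c J w NU NV lam x D m b : ℕ} {i g : ℕ → ℕ}
    {τ c₀ e₁ eU ec eF eL η : ℝ} {l : Ω → Ln} {h : Ω → Cht} {f : Ω → Frm} {T : Ω → ℕ}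
    {Y el : Ω → ℤ} {q : ℕ → Ω → Lbl} {cs : Ω → 𝒮} {zz : ℕ → Ω → 𝒵} {zd : Ω → 𝒵'} (hc1 : 1 ≤ c)
    (hc₀ : 0 < c₀)
    (H : CorN p c J w NU NV lam x D m b i g τ c₀ e₁ eU ec eF eL η l h f T Y el q cs zz zd) :
    CorL p c J w NU NV lam x D m b i g τ c₀ (e₁ + 2 * Real.log 11) eU ec
      (Real.log 7 + 3 * Real.log 11) eF (4 * Real.log (2 * (((2 * c * 2 ^ i 0 : ℕ) : ℝ) + 1) + 1))
      (Real.log 7 + 3 * Real.log 11) eL η l h f T Y el (fun k => rfo w NU NV (i k) l h) q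
      (fun k => Rd J w NU NV (i k) l h T cs) (fun k => q k)
      (Kd J w NU NV (i m) (i m + g m) l h f T Y cs zd)
      (fun k => Qd J w NU NV (i k) l h T Y cs (zz k)) := by
  classical
  have h0 := hp.nonneg
  have hc' : (1 : ℝ) ≤ c := by exact_mod_cast hc1
  have h7 : Real.log (2 * (((2 : ℕ) : ℝ) + 1) + 1) = Real.log 7 := by norm_num
  have hz : ∀ k ≤ m, Det p zd (zz k) := by
    intro k hk
    obtain ⟨d, hd⟩ : ∃ d, d = m - k := ⟨_, rfl⟩
    induction d generalizing k with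
    | zero =>
      have : k = m := by omega
      rw [this]
      exact H.nd
    | succ n ih =>
      have h1 := ih (k + 1) (by omega) (by omega)
      exact fun ω ω' a b hh => H.nz k (by omega) ω ω' a b (h1 ω ω' a b hh)
  -- the digits of the direction
  have heD : ∀ (k : ℕ), k ≤ m → ∀ {S : Type} (Z : Ω → S), Det p Z el →
      CH p (eD (i k) l) Z ≤ Real.log 7 := by
    intro k hk S Z hZ
    rw [← h7]
    refine cnt_det hp (c := fun ω => 2 ^ i k * ((el ω : ℝ) / 2 ^ lam)) ?_ 2 fun ω hω => ?_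
    · intro ω ω' h1 h2 hh
      have e1 := hZ ω ω' h1 h2 hh
      simp only [e1]
    · have f1 := fl_err (2 ^ i k * (l ω).e)
      have f2 := H.hel ω hω
      have e1 : ((eD (i k) l ω : ℤ) : ℝ) - 2 ^ i k * ((el ω : ℝ) / 2 ^ lam) =
          (((⌊2 ^ i k * (l ω).e⌋ : ℤ) : ℝ) - 2 ^ i k * (l ω).e) +
            2 ^ i k * ((l ω).e - (el ω : ℝ) / 2 ^ lam) := by
        unfold eD
        ring
      rw [e1]
      have m1 : |2 ^ i k * ((l ω).e - (el ω : ℝ) / 2 ^ lam)| ≤ 1 := by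
        rw [abs_mul, abs_of_pos (by positivity : (0 : ℝ) < 2 ^ i k)]
        have hl : (2 : ℝ) ^ i k ≤ 2 ^ lam :=
          pow_le_pow_right₀ (by norm_num) (by have := H.hlam k hk; omega)
        calc 2 ^ i k * |(l ω).e - (el ω : ℝ) / 2 ^ lam| ≤ 2 ^ lam * (1 / 2 ^ lam) :=
              mul_le_mul hl f2 (abs_nonneg _) (by positivity)
          _ = 1 := by field_simp
      have t1 := abs_add_le (((⌊2 ^ i k * (l ω).e⌋ : ℤ) : ℝ) - 2 ^ i k * (l ω).e)
        (2 ^ i k * ((l ω).e - (el ω : ℝ) / 2 ^ lam))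
      push_cast
      linarith
  -- the record of the tube
  have hR : ∀ (k : ℕ), k ≤ m → ∀ {S : Type} (Z : Ω → S), Det p Z (fun ω =>
      (((hgU J w (NU + i k) l h T ω, hgV J w (NV + i k) l h T ω),
        (vU w (NU + i k) l h ω, vV w (NV + i k) l h ω)), (el ω, (cs ω, (T ω, Y ω))))) →
      CH p (Rd J w NU NV (i k) l h T cs) Z ≤ Real.log 7 + 3 * Real.log 11 := by
    intro k hk S Z hZ
    have a1 := CH_le_add h0 (Rd J w NU NV (i k) l h T cs) (eD (i k) l) Z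
    have a2 := heD k hk Z (fun ω ω' a b hh => by
      have := hZ ω ω' a b hh
      simp only [Prod.mk.injEq] at this
      exact this.2.1)
    have a3 := Rd_few (i := i k) (Z := fun ω => (eD (i k) l ω, Z ω)) hp
      (by have := H.wJ k hk; omega) H.dh H.yc (NU := NU) (NV := NV) (l := l) (T := T) (Y := Y)
      (by
        intro ω ω' a b hh
        have h1 := (Prod.ext_iff.mp hh).1
        have h2 := hZ ω ω' a b (Prod.ext_iff.mp hh).2
        simp only [Prod.mk.injEq] at h2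
        simp only [Nd, Prod.mk.injEq]
        simp only at h1
        tauto)
    linarith
  refine ⟨H.step, H.gi, H.hlam, H.xg, H.xlam, H.hD, H.geo, H.hel, H.hu0, ?_, ?_, ?_, ?_, ?_, ?_,
    ?_, H.sep, H.trn, ?_, ?_, ?_, H.fre, H.low⟩
  · -- the places
    intro k hk
    have dR := Rd_det (J := J) (w := w) (NU := NU) (NV := NV) (i := i k) (l := l) (T := T) H.dh
    have dN : Det p (fun ω => (Rd J w NU NV (i k) l h T cs ω, (T ω, Y ω)))
        (fun ω => (Rd J w NU NV (i k) l h T cs ω, (T ω, Y ω))) := fun _ _ _ _ hh => hh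
    have hw : w ≤ J := by have := H.wJ k hk; omega
    refine ⟨H.wJ k hk, H.yc, fun ω hω => (H.gN k hk ω hω).geo hc', dR, ?_, H.hU k hk, H.hc k hk,
      ?_, ?_⟩
    · intro ω ω' _ _ hh
      exact (Prod.ext_iff.mp hh).1
    · have a1 := CH_le_add h0 (fun ω => (hgU J w (NU + i k + g k) l h T ω,
        hgV J w (NV + i k + g k) l h T ω)) (Nd J w NU NV (i k) l h T Y cs)
        (fun ω => (Rd J w NU NV (i k) l h T cs ω, (T ω, Y ω)))
      have a2 := Nd_few (i := i k) (NU := NU) (NV := NV) hp hw dN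
      have a3 : CH p (fun ω => (hgU J w (NU + i k + g k) l h T ω,
          hgV J w (NV + i k + g k) l h T ω)) (fun ω => (Nd J w NU NV (i k) l h T Y cs ω,
            (Rd J w NU NV (i k) l h T cs ω, (T ω, Y ω)))) ≤
          CH p (fun ω => (hgU J w (NU + i k + g k) l h T ω,
          hgV J w (NV + i k + g k) l h T ω)) (Nd J w NU NV (i k) l h T Y cs) :=
        CH_mono_cond h0 fun ω ω' _ _ hh => (Prod.ext_iff.mp hh).1
      have a4 := H.hall k hk
      linarith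
    · intro E hE j hj hbj
      have hEp : 0 < law p E True := lt_of_lt_of_le hc₀ hE
      have hq : IsLaw (Pool.Agent.H49.Ent.cond p E True) :=
        ⟨cond_nonneg h0 E True, sum_cond p E hEp.ne'⟩
      have hq0 := hq.nonneg
      have a4 := H.hnf k hk E hE j hj hbj
      set q' := Pool.Agent.H49.Ent.cond p E True with hq'
      set X : Ω → ℤ × ℤ := fun ω => (hgU J w (NU + i k + g k) l h T ω,
        hgV J w (NV + i k + g k) l h T ω) with hX
      set Xj : Ω → ℤ × ℤ := fun ω => (hgU J w (NU + i k + j) l h T ω,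
        hgV J w (NV + i k + j) l h T ω) with hXj
      set Z : Ω → (ℤ × ℤ) × ((𝒮 × (ℕ × ((ℤ × ℤ) × ((ℤ × ℤ) × (ℤ × ℤ))))) × (ℕ × ℤ)) :=
        fun ω => (Xj ω, (Rd J w NU NV (i k) l h T cs ω, (T ω, Y ω))) with hZ
      have a1 := CH_le_add hq0 X (Nd J w NU NV (i k) l h T Y cs) Z
      have a2 := Nd_few (i := i k) (NU := NU) (NV := NV) (Z := Z) (Y := Y) hq hw
        (fun ω ω' _ _ hh => (Prod.ext_iff.mp hh).2)
      have a3 : CH q' X (fun ω => (Nd J w NU NV (i k) l h T Y cs ω, Z ω)) ≤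
          CH q' X (fun ω => (Xj ω, Nd J w NU NV (i k) l h T Y cs ω)) :=
        CH_mono_cond hq0 fun ω ω' _ _ hh => by
          simp only [hZ, Prod.mk.injEq] at hh ⊢
          exact ⟨hh.2.1, hh.1⟩
      linarith
  · -- `K` knows `Q`
    intro k hk ω ω' a b hh
    simp only [Kd, Prod.mk.injEq] at hh
    obtain ⟨a1, a2, ⟨a3, a4⟩, ⟨a5, a6⟩, -⟩ := hh
    have b1 := hz k hk ω ω' a b a1
    have hle : i k ≤ i m + g m := (seq_le H.step hk).trans (Nat.le_add_right _ _)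
    obtain ⟨d, hd⟩ := Nat.exists_eq_add_of_le hle
    rw [hd, ← Nat.add_assoc] at a5
    rw [hd, ← Nat.add_assoc] at a6
    simp only [Qd, Prod.mk.injEq]
    exact ⟨b1, a2, ⟨a3, a4⟩, hgU_nest a5, hgV_nest a6⟩
  · -- `K` knows the frames
    intro k hk ω ω' a b hh
    simp only [Kd, Prod.mk.injEq] at hh
    obtain ⟨-, -, -, -, a7, a8⟩ := hh
    obtain ⟨d, hd⟩ := Nat.exists_eq_add_of_le (seq_le H.step hk)
    rw [hd, ← Nat.add_assoc] at a7
    rw [hd, ← Nat.add_assoc] at a8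
    exact Prod.ext (jU_nest a7) (jV_nest a8)
  · -- nested
    intro k hk ω ω' a b hh
    simp only [Qd, Prod.mk.injEq] at hh
    obtain ⟨a1, a2, ⟨a3, a4⟩, a5, a6⟩ := hh
    have b1 := H.nz k hk ω ω' a b a1
    rw [H.step k hk, ← Nat.add_assoc] at a5
    rw [H.step k hk, ← Nat.add_assoc] at a6
    simp only [Qd, Prod.mk.injEq]
    exact ⟨b1, a2, ⟨a3, a4⟩, hgU_nest a5, hgV_nest a6⟩
  · intro k hk ω ω' a b hh
    simp only [Qd, Prod.mk.injEq] at hh
    obtain ⟨-, a2, ⟨a3, a4⟩, -⟩ := hh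
    simp only [Prod.mk.injEq]
    exact ⟨H.dh ω ω' a b a2, a3, a4⟩
  · intro k hk ω ω' a b hh
    simp only [Qd, Prod.mk.injEq] at hh
    obtain ⟨-, -, -, a5, a6⟩ := hh
    rw [H.step k hk, ← Nat.add_assoc] at a5
    rw [H.step k hk, ← Nat.add_assoc] at a6
    simp only [Prod.mk.injEq]
    exact ⟨a5, a6⟩
  · intro ω ω' a b hh
    simp only [Kd, Prod.mk.injEq] at hh
    obtain ⟨-, -, -, ⟨a5, a6⟩, -⟩ := hh
    rw [← Nat.add_assoc] at a5
    rw [← Nat.add_assoc] at a6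
    simp only [Prod.mk.injEq]
    exact ⟨a5, a6⟩
  · intro k hk
    refine hR k hk.le _ ?_
    intro ω ω' a b hh
    simp only [Qd, Prod.mk.injEq] at hh
    obtain ⟨⟨-, a2, ⟨a3, a4⟩, a5, a6⟩, a7, a8, a9⟩ := hh
    rw [H.step k hk, ← Nat.add_assoc] at a5
    rw [H.step k hk, ← Nat.add_assoc] at a6
    simp only [Prod.mk.injEq]
    exact ⟨⟨⟨hgU_nest a5, hgV_nest a6⟩, a8, a9⟩, a7, a2, a3, a4⟩
  · refine hR m le_rfl _ ?_
    intro ω ω' a b hh
    simp only [Qd, Prod.mk.injEq] at hh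
    obtain ⟨⟨a8, a9⟩, ⟨-, a2, ⟨a3, a4⟩, a5, a6⟩, a7⟩ := hh
    simp only [Prod.mk.injEq]
    exact ⟨⟨⟨a5, a6⟩, a8, a9⟩, a7, a2, a3, a4⟩
  · -- the frame at the first place
    have hsz : ∀ (N : ℕ) (x' : Ω → ℝ), (∀ ω, 0 < p ω → |x' ω| ≤ c * (2 ^ w / 2 ^ N)) →
        ∀ {S : Type} (Z : Ω → S), CH p (fun ω => (⌊2 ^ (N + i 0) / 2 ^ w * x' ω⌋ : ℤ)) Z ≤
          Real.log (2 * (((2 * c * 2 ^ i 0 : ℕ) : ℝ) + 1) + 1) := by
      intro N x' hx S Z
      refine cnt_det hp (c := fun _ => 0) (fun _ _ _ _ _ => rfl) _ fun ω hω => ?_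
      have h1 := fl_abs (2 ^ (N + i 0) / 2 ^ w * x' ω)
      have h2 := nrm' (A := 2 ^ w) (B := 2 ^ N) (by positivity) (by positivity) (hx ω hω)
      have h3 : (2 : ℝ) ^ (N + i 0) / 2 ^ w * x' ω = 2 ^ i 0 * (2 ^ N / 2 ^ w * x' ω) := by
        rw [pow_add]
        ring
      rw [h3, abs_mul, abs_of_pos (by positivity : (0 : ℝ) < 2 ^ i 0)] at h1
      rw [h3]
      have hI : (1 : ℝ) ≤ 2 ^ i 0 := one_le_pow₀ (by norm_num)
      have h5 : (2 : ℝ) ^ i 0 * |2 ^ N / 2 ^ w * x' ω| ≤ 2 ^ i 0 * c :=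
        mul_le_mul_of_nonneg_left h2 (by positivity)
      push_cast
      rw [sub_zero]
      nlinarith
    set Z := Qd J w NU NV (i 0) l h T Y cs (zz 0) with hZ
    have b1 := hsz NU (fun ω => ((f ω).ju (h ω)).1) (fun ω hω => (H.geo ω hω).cu) Z
    have b2 := hsz NU (fun ω => ((f ω).ju (h ω)).2) (fun ω hω => (H.geo ω hω).au) Z
    have b3 := hsz NV (fun ω => ((f ω).jv (h ω)).1) (fun ω hω => (H.geo ω hω).cv) Z
    have b4 := hsz NV (fun ω => ((f ω).jv (h ω)).2) (fun ω hω => (H.geo ω hω).av) Z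
    have c1 := CH_subadd h0 (jU w (NU + i 0) f h) (jV w (NV + i 0) f h) Z
    have c2 := CH_subadd h0 (fun ω => (jU w (NU + i 0) f h ω).1)
      (fun ω => (jU w (NU + i 0) f h ω).2) Z
    have c3 := CH_subadd h0 (fun ω => (jV w (NV + i 0) f h ω).1)
      (fun ω => (jV w (NV + i 0) f h ω).2) Z
    have d1 : CH p (fun ω => (jU w (NU + i 0) f h ω).1) Z =
        CH p (fun ω => (⌊2 ^ (NU + i 0) / 2 ^ w * ((f ω).ju (h ω)).1⌋ : ℤ)) Z := rfl
    have d2 : CH p (fun ω => (jU w (NU + i 0) f h ω).2) Z =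
        CH p (fun ω => (⌊2 ^ (NU + i 0) / 2 ^ w * ((f ω).ju (h ω)).2⌋ : ℤ)) Z := rfl
    have d3 : CH p (fun ω => (jV w (NV + i 0) f h ω).1) Z =
        CH p (fun ω => (⌊2 ^ (NV + i 0) / 2 ^ w * ((f ω).jv (h ω)).1⌋ : ℤ)) Z := rfl
    have d4 : CH p (fun ω => (jV w (NV + i 0) f h ω).2) Z =
        CH p (fun ω => (⌊2 ^ (NV + i 0) / 2 ^ w * ((f ω).jv (h ω)).2⌋ : ℤ)) Z := rfl
    have c1' : CH p (fun ω => (jU w (NU + i 0) f h ω, jV w (NV + i 0) f h ω)) Z ≤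
        CH p (jU w (NU + i 0) f h) Z + CH p (jV w (NV + i 0) f h) Z := c1
    have c2' : CH p (jU w (NU + i 0) f h) Z ≤ CH p (fun ω => (jU w (NU + i 0) f h ω).1) Z +
        CH p (fun ω => (jU w (NU + i 0) f h ω).2) Z := c2
    have c3' : CH p (jV w (NV + i 0) f h) Z ≤ CH p (fun ω => (jV w (NV + i 0) f h ω).1) Z +
        CH p (fun ω => (jV w (NV + i 0) f h ω).2) Z := c3
    linarith

end

end Pool.OWN17
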