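import Pool.Agent.H17.COR.Cra

/-!
# The numbers of a law at finitely many windows of a box

`nump_box`: `nump_cls` (helper83) for the quantities `gX`, `gD` (helper91) at a finite list of
windows.
-/

set_option autoImplicit false

namespace Pool.OWN17

open Finset Real MvPolynomial
open Pool.Agent.H49.Ent Pool.Agent.H32.Dense Pool.STK Pool.KA Pool.KSAT Pool.K2S Pool.PB Pool.S6C
  Pool.GEN Pool.RCD Pool.LA91 Pool.MIC6 Pool.OWN83

variable {m : ℕ}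

/-- **The numbers of a law at finitely many windows.** -/
theorem nump_box {S : PCl m} {C₀ : ℝ} (htm : TmC S C₀)
    (hpos : ∀ (τ : ℝ) (J : ℕ) (F : Fam m J) (A : F.Ω → Prop), S.St τ J F A → 0 < Pe F.p A)
    {I : Finset (Fin m)} {κ k' : Fin m} {G : Set ℚ} {s : ℝ} {U D : ℚ → ℝ}
    (H : WinG S I κ k' G s U D) {A B : ℝ} (hG : ∀ q : ℚ, A < q → (q : ℝ) < B → q ∈ G)
    {α γ δ : ∀ J : ℕ, Fam m J → Type} {f : ∀ (J : ℕ) (F : Fam m J), F.Ω → α J F}
    (hf : ∀ (J : ℕ) (F : Fam m J), ∃ φ : α J F → PtT F, ∀ ω, ptr F J ω = φ (f J F ω))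
    {y : ∀ (J : ℕ) (F : Fam m J), F.Ω → γ J F} {lam : ℝ} (hy : Kn I 1 lam y)
    {v₀ : ∀ (J : ℕ) (F : Fam m J), F.Ω → δ J F}
    {ι : Type} [Finite ι] (q : ι → ℚ) (hq : ∀ i, A < q i ∧ (q i : ℝ) < B)
    {x : ι → ℝ} (hx : ∀ i, x i = (q i : ℝ) + s) {g : ℚ}
    (hgc : ∀ i j, q i ≤ q j → GC U D g (q i) (q j))
    (hcl : ∀ i j, q i ≤ q j → U (q j) < U (q i) + min lam (1 - ((q j : ℝ) + s)))
    (hη : ∀ i, ∃ η, RNum S f (vg (x i)) η) {θJ θD : ι → ι → ℝ}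
    (nJ : ∀ i j, q i ≤ q j → NN S f (vg (x i)) y
      ((gX m I κ k' s U g (q i) (q j)).prod (gD m I κ k' s U g (q i) (q j))) (θJ i j))
    (nD : ∀ i j, q i ≤ q j → NN S f (vg (x i)) y (gD m I κ k' s U g (q i) (q j)) (θD i j))
    {κ₀ : ℝ} (hκ : 0 ≤ κ₀)
    (haJ : ∀ i j k, q i ≤ q j → q j ≤ q k → |θJ i k - θJ i j - θJ j k| ≤ κ₀)
    (haD : ∀ i j k, q i ≤ q j → q j ≤ q k → |θD i k - θD i j - θD j k| ≤ κ₀)
    {QE : Qt m ℤ} (a b : ι) {θa θb k₀ : ℝ} (na : NN S f (vg (x a)) v₀ QE θa)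
    (nb : NN S f (vg (x b)) v₀ QE θb) (hk₀ : 0 ≤ k₀) (hab : θa - θb ≤ k₀)
    {c₀ : ℝ} (hc₀ : 0 < c₀) {e : ℝ} (he : 0 < e) :
    ∃ k : ℝ, 0 < k ∧ ∃ e₀ : ℝ, 0 < e₀ ∧ ∀ K : ℕ, Bas S (fun J F A' =>
      ∀ (Z : Type) (z : ι → F.Ω → Z), (∀ i, Mx f (vg (x i)) k F A' (z i)) →
      ∀ u v : ι → ι → F.Ω → ℤ × ℤ,
      (∀ i j, q i ≤ q j → (gX m I κ k' s U g (q i) (q j)).P K e₀ J F A' (u i j)) →
      (∀ i j, q i ≤ q j → (gD m I κ k' s U g (q i) (q j)).P K e₀ J F A' (v i j)) →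
      ∀ el, QE.P K e₀ J F A' el → ∀ B' : F.Ω → Prop, Sub B' A' → c₀ * Pe F.p A' ≤ Pe F.p B' →
      ∀ (𝒮 𝒵 : Type) (cs : F.Ω → 𝒮) (z' : F.Ω → 𝒵) (T : F.Ω → ℕ) (Y : F.Ω → ℤ),
      CH (Pool.Agent.H49.Ent.cond F.p B' True) (fun ω => (z a ω, v₀ J F ω))
        (fun ω => (cs ω, (T ω, Y ω))) ≤ e * J →
      CH (Pool.Agent.H49.Ent.cond F.p B' True) (fun ω => (z' ω, (cs ω, (T ω, Y ω))))
        (fun ω => (z b ω, v₀ J F ω)) ≤ e * J →
      NumP (Pool.Agent.H49.Ent.cond F.p B' True) x z (y J F) u v (fun i j => θJ i j * J)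
        (fun i j => θD i j * J) ((κ₀ + e) * J) ((k₀ + 4 * e) * J) el z' cs T Y) := by
  have hle : ∀ {i j : ι}, x i ≤ x j ↔ q i ≤ q j := fun {i j} => by
    rw [hx, hx]
    constructor
    · intro h
      exact_mod_cast (by linarith : (q i : ℝ) ≤ q j)
    · intro h
      have : (q i : ℝ) ≤ q j := by exact_mod_cast h
      linarith
  have hQ : ∀ i, q i ∈ G := fun i => hG _ (hq i).1 (hq i).2
  have l0 : (0 : ℕ) ≤ 1 := by norm_num
  have row : ∀ (j' : ℕ), j' ≤ 1 → ∀ i j k, x i ≤ x j → x j ≤ x k →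
      Few S f (vg (x i)) y (gP m I κ k' j' s U g (q i) (q k)) (gP m I κ k' j' s U g (q i) (q j)) :=
    fun j' hj' i j k hij hjk => by
    have hij' := hle.1 hij
    have hjk' := hle.1 hjk
    have hum := H.um (q j) (hQ j) (q k) (hQ k) hjk'
    have hjkr : (q j : ℝ) ≤ q k := by exact_mod_cast hjk'
    rw [hx]
    exact row_gP htm hpos hf hy H hj' (hQ i) (hQ j) (hQ k) hij' hjk' le_rfl (by linarith)
      (by linarith) (hcl i k (hij'.trans hjk'))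
  have chg : ∀ (j' : ℕ), j' ≤ 1 → ∀ i j k, x i ≤ x j → x j ≤ x k →
      Few S f (vg (x j)) y (gP m I κ k' j' s U g (q i) (q k)) (gP m I κ k' j' s U g (q j) (q k)) :=
    fun j' hj' i j k hij hjk => by
    have hij' := hle.1 hij
    have hjk' := hle.1 hjk
    rw [hx]
    exact chg_gP htm hpos hf hy H hG hj' (hq i).1 hij' hjk' (hq k).2 (hgc i j hij')
      (hcl i k (hij'.trans hjk'))
  have own : ∀ (j' : ℕ), j' ≤ 1 → ∀ i j, x i ≤ x j →
      Few0 S f (vg (x j)) y (gP m I κ k' j' s U g (q i) (q j)) := fun j' hj' i j hij => by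
    have hij' := hle.1 hij
    rw [hx]
    exact own_gP htm hpos hf hy H hG hj' (hq i).1 hij' (hq j).2 (hgc i j hij') (hcl i j hij')
  obtain ⟨k, hk, e₀, he₀, hN⟩ := nump_cls hpos x (fun i => by
      rw [hx]
      exact (H.w1 _ (hQ i)).le)
    (QX := fun i j => gX m I κ k' s U g (q i) (q j)) (QD := fun i j => gD m I κ k' s U g (q i) (q j))
    (by
      have := row 0 l0
      simpa only [gX_eq] using this)
    (by
      have := chg 0 l0
      simpa only [gX_eq] using this)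
    (by
      have := own 0 l0
      simpa only [gX_eq] using this)
    (by
      have := row 1 le_rfl
      simpa only [gD_eq] using this)
    (by
      have := chg 1 le_rfl
      simpa only [gD_eq] using this)
    (by
      have := own 1 le_rfl
      simpa only [gD_eq] using this)
    hη (fun i j h => nJ i j (hle.1 h)) (fun i j h => nD i j (hle.1 h)) hκ
    (fun i j k h h' => haJ i j k (hle.1 h) (hle.1 h')) (fun i j k h h' => haD i j k (hle.1 h)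
      (hle.1 h')) a b na nb hk₀ hab hc₀ he
  refine ⟨k, hk, e₀, he₀, fun K => Bas.mono 0 (hN K) ?_⟩
  intro J _ F A' h Z z hz u v hu hv
  exact h Z z hz u v (fun i j hij => hu i j (hle.1 hij)) (fun i j hij => hv i j (hle.1 hij))

end Pool.OWN17
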