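import Pool.Agent.H17.COR.Nat4
import Pool.Agent.H43.OWN.Sat3

/-!
# The numbers of one law

`drop_E`: a quantity which is free may be dropped from the condition up to its first digits. `conv`,
`fl_few`, `pr_few`: change of the precision of digits.
-/

set_option autoImplicit false

namespace Pool.OWN17

open Finset Real
open Pool.Agent.H49.Ent Pool.Agent.H32.Dense Pool.STK Pool.CH30 Pool.KM7 Pool.OWN68

section

variable {Ω : Type} [Fintype Ω] {p : Ω → ℝ} {S₀ S₁ S₂ S₃ S₄ S₅ S₆ S₇ : Type}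

/-- **The free digits may be dropped.** -/
theorem drop_E (hp : IsLaw p) {X₁ : Ω → S₁} {X₀ : Ω → S₀} {D : Ω → S₂} {E : Ω → S₃} {Ei : Ω → S₄}
    {R : Ω → S₅} {z : Ω → S₆} (hE : Det p E Ei) {e₁ e₂ : ℝ}
    (h1 : CH p (fun ω => (X₁ ω, (X₀ ω, D ω))) (fun ω => (z ω, (Ei ω, R ω))) ≤ e₁)
    (h2 : CH p E R - CH p E (fun ω => (z ω, R ω)) ≤ e₂) :
    CH p X₁ (fun ω => (X₀ ω, (D ω, (Ei ω, R ω)))) ≤
      CH p X₁ (fun ω => (X₀ ω, (D ω, (E ω, R ω)))) + e₁ + e₂ := by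
  have h0 := hp.nonneg
  have b := CH_bayes h0 X₁ E (fun ω => (X₀ ω, (D ω, (Ei ω, R ω))))
  have c1 : CH p X₁ (fun ω => (E ω, (X₀ ω, (D ω, (Ei ω, R ω))))) =
      CH p X₁ (fun ω => (X₀ ω, (D ω, (E ω, R ω)))) := by
    refine CH_congr h0 ?_ ?_ ?_ ?_
    · intro a a' _ _ h
      simp only [Prod.mk.injEq] at h
      exact h.1
    · intro a a' _ _ h
      simp only [Prod.mk.injEq] at h
      exact h.1
    · intro a a' h1 h2 h
      simp only [Prod.mk.injEq] at h ⊢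
      tauto
    · intro a a' h1 h2 h
      simp only [Prod.mk.injEq] at h ⊢
      have := hE a a' h1 h2 h.2.2.1
      tauto
  have c2 : CH p E (fun ω => (X₀ ω, (D ω, (Ei ω, R ω)))) ≤ CH p E (fun ω => (Ei ω, R ω)) :=
    CH_mono_cond h0 fun a a' _ _ h => by
      simp only [Prod.mk.injEq] at h ⊢
      tauto
  have c3 : CH p E (fun ω => (z ω, (Ei ω, R ω))) ≤
      e₁ + CH p E (fun ω => (X₁ ω, (X₀ ω, (D ω, (Ei ω, R ω))))) := by
    have d1 := CH_le_add h0 E (fun ω => (X₁ ω, (X₀ ω, D ω))) (fun ω => (z ω, (Ei ω, R ω)))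
    have d2 : CH p E (fun ω => ((X₁ ω, (X₀ ω, D ω)), (z ω, (Ei ω, R ω)))) ≤
        CH p E (fun ω => (X₁ ω, (X₀ ω, (D ω, (Ei ω, R ω))))) :=
      CH_mono_cond h0 fun a a' _ _ h => by
        simp only [Prod.mk.injEq] at h ⊢
        tauto
    linarith
  have c4 : CH p E R = CH p Ei R + CH p E (fun ω => (Ei ω, R ω)) := by
    have d1 := CH_bayes h0 E Ei R
    have d2 : CH p Ei (fun ω => (E ω, R ω)) = 0 := CH_eq_zero h0 fun a a' h1 h2 h => by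
      simp only [Prod.mk.injEq] at h
      exact hE a a' h1 h2 h.1
    linarith
  have c5 : CH p E (fun ω => (z ω, R ω)) = CH p Ei (fun ω => (z ω, R ω)) +
      CH p E (fun ω => (z ω, (Ei ω, R ω))) := by
    have d1 := CH_bayes h0 E Ei (fun ω => (z ω, R ω))
    have d2 : CH p Ei (fun ω => (E ω, (z ω, R ω))) = 0 := CH_eq_zero h0 fun a a' h1 h2 h => by
      simp only [Prod.mk.injEq] at h
      exact hE a a' h1 h2 h.1
    have d3 : CH p E (fun ω => (Ei ω, (z ω, R ω))) = CH p E (fun ω => (z ω, (Ei ω, R ω))) := by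
      refine CH_congr h0 ?_ ?_ ?_ ?_ <;>
      · intro a a' _ _ h
        simp only [Prod.mk.injEq] at h ⊢
        tauto
    linarith
  have c6 : CH p Ei (fun ω => (z ω, R ω)) ≤ CH p Ei R :=
    CH_mono_cond h0 fun a a' _ _ h => by
      simp only [Prod.mk.injEq] at h ⊢
      tauto
  linarith

/-- **Change of the variables** and of the conditions, up to few bits. -/
theorem conv (hp : IsLaw p) {X₁ : Ω → S₁} {X₀ : Ω → S₀} {D : Ω → S₂} {X₁' : Ω → S₃} {X₀' : Ω → S₄}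
    {D' : Ω → S₅} {R : Ω → S₆} {e₁ e₀ eD : ℝ} (h1 : CH p X₁ (fun ω => (X₁' ω, R ω)) ≤ e₁)
    (h2 : CH p X₀' (fun ω => (X₀ ω, R ω)) ≤ e₀) (h3 : CH p D' (fun ω => (D ω, R ω)) ≤ eD) :
    CH p X₁ (fun ω => (X₀ ω, (D ω, R ω))) ≤
      CH p X₁' (fun ω => (X₀' ω, (D' ω, R ω))) + (e₁ + e₀ + eD) := by
  have h0 := hp.nonneg
  have k1 := CH_le_add h0 X₁ (fun ω => (X₀' ω, D' ω)) (fun ω => (X₀ ω, (D ω, R ω)))
  have k2 := CH_subadd h0 X₀' D' (fun ω => (X₀ ω, (D ω, R ω)))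
  have k3 : CH p X₀' (fun ω => (X₀ ω, (D ω, R ω))) ≤ CH p X₀' (fun ω => (X₀ ω, R ω)) :=
    CH_mono_cond h0 fun a a' _ _ h => by
      simp only [Prod.mk.injEq] at h ⊢
      tauto
  have k4 : CH p D' (fun ω => (X₀ ω, (D ω, R ω))) ≤ CH p D' (fun ω => (D ω, R ω)) :=
    CH_mono_cond h0 fun a a' _ _ h => by
      simp only [Prod.mk.injEq] at h ⊢
      tauto
  have k5 := CH_le_add h0 X₁ X₁' (fun ω => ((X₀' ω, D' ω), (X₀ ω, (D ω, R ω))))
  have k6 : CH p X₁' (fun ω => ((X₀' ω, D' ω), (X₀ ω, (D ω, R ω)))) ≤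
      CH p X₁' (fun ω => (X₀' ω, (D' ω, R ω))) := CH_mono_cond h0 fun a a' _ _ h => by
      simp only [Prod.mk.injEq] at h ⊢
      tauto
  have k7 : CH p X₁ (fun ω => (X₁' ω, ((X₀' ω, D' ω), (X₀ ω, (D ω, R ω))))) ≤
      CH p X₁ (fun ω => (X₁' ω, R ω)) := CH_mono_cond h0 fun a a' _ _ h => by
      simp only [Prod.mk.injEq] at h ⊢
      tauto
  linarith

/-- Digits of a real variable, real exponents. -/
noncomputable def fd (a : ℝ) (X : Ω → ℝ) (ω : Ω) : ℤ := ⌊(2 : ℝ) ^ a * X ω⌋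

/-- **Change of the precision.** -/
theorem fl_few (hp : IsLaw p) {X : Ω → ℝ} {a a' δ : ℝ} (hδ : 0 ≤ δ) (ha : a ≤ a' + δ) {Z : Ω → S₁}
    (hZ : Det p Z (fd a' X)) : CH p (fd a X) Z ≤ δ * Real.log 2 + Real.log 9 := by
  have hs : (0 : ℝ) < 2 ^ a := Real.rpow_pos_of_pos two_pos a
  have hs' : (0 : ℝ) < 2 ^ a' := Real.rpow_pos_of_pos two_pos a'
  obtain ⟨t, ht⟩ : ∃ t : ℝ, t = 2 ^ a / 2 ^ a' := ⟨_, rfl⟩
  have ht0 : 0 < t := by rw [ht]; positivity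
  have ht1 : t ≤ 2 ^ δ := by
    rw [ht, ← Real.rpow_sub two_pos]
    exact Real.rpow_le_rpow_of_exponent_le one_le_two (by linarith)
  have h2 : (1 : ℝ) ≤ 2 ^ δ := Real.one_le_rpow one_le_two hδ
  obtain ⟨R, hR⟩ : ∃ R : ℕ, R = ⌈t⌉₊ + 1 := ⟨_, rfl⟩
  have hR1 : t + 1 ≤ R := by
    rw [hR]
    push_cast
    linarith [Nat.le_ceil t]
  have hR2 : (R : ℝ) ≤ t + 2 := by
    rw [hR]
    push_cast
    linarith [Nat.ceil_lt_add_one ht0.le]
  have h1 : CH p (fd a X) Z ≤ Real.log (2 * (R + 1) + 1) := by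
    refine cnt_det hp (c := fun ω => t * (fd a' X ω : ℝ)) ?_ R fun ω _ => ?_
    · intro ω ω' h1 h2 hh
      have := hZ ω ω' h1 h2 hh
      simp only [this]
    · unfold fd
      have f1 := fl_err ((2 : ℝ) ^ a * X ω)
      have f2 := fl_err ((2 : ℝ) ^ a' * X ω)
      have e1 : ((⌊(2 : ℝ) ^ a * X ω⌋ : ℤ) : ℝ) - t * ((⌊(2 : ℝ) ^ a' * X ω⌋ : ℤ) : ℝ) =
          (((⌊(2 : ℝ) ^ a * X ω⌋ : ℤ) : ℝ) - 2 ^ a * X ω) -
          t * (((⌊(2 : ℝ) ^ a' * X ω⌋ : ℤ) : ℝ) - 2 ^ a' * X ω) := by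
        rw [ht]
        field_simp
        ring
      rw [e1]
      have t1 := abs_sub (((⌊(2 : ℝ) ^ a * X ω⌋ : ℤ) : ℝ) - 2 ^ a * X ω)
        (t * (((⌊(2 : ℝ) ^ a' * X ω⌋ : ℤ) : ℝ) - 2 ^ a' * X ω))
      have t2 : |t * (((⌊(2 : ℝ) ^ a' * X ω⌋ : ℤ) : ℝ) - 2 ^ a' * X ω)| ≤ t * 1 := by
        rw [abs_mul, abs_of_pos ht0]
        exact mul_le_mul_of_nonneg_left f2 ht0.le
      linarith
  refine h1.trans ?_
  have h3 : (2 * ((R : ℝ) + 1) + 1) ≤ 2 ^ δ * 9 := by nlinarith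
  have h4 : Real.log (2 * (R + 1) + 1) ≤ Real.log (2 ^ δ * 9) :=
    Real.log_le_log (by positivity) h3
  rw [Real.log_mul (by positivity) (by norm_num), Real.log_rpow two_pos] at h4
  exact h4

/-- Two variables. -/
theorem pr_few (hp : IsLaw p) {X Y : Ω → ℝ} {a a' b b' δ : ℝ} (hδ : 0 ≤ δ) (ha : a ≤ a' + δ)
    (hb : b ≤ b' + δ) {Z : Ω → S₁} (hX : Det p Z (fd a' X)) (hY : Det p Z (fd b' Y)) :
    CH p (fun ω => (fd a X ω, fd b Y ω)) Z ≤ 2 * (δ * Real.log 2 + Real.log 9) := by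
  have h1 := CH_subadd hp.nonneg (fd a X) (fd b Y) Z
  have h2 := fl_few hp hδ ha hX
  have h3 := fl_few hp hδ hb hY
  linarith

end

section add

open Pool.SAT43

variable {Ω : Type} [Fintype Ω] {p : Ω → ℝ} {ι Z Y 𝒰 𝒱 S₀ S₁ S₂ S₃ S₄ S₅ S₆ : Type}
  {x : ι → ℝ} {z : ι → Ω → Z} {y : Ω → Y} {u : ι → ι → Ω → 𝒰} {v : ι → ι → Ω → 𝒱}
  {f g : ι → ι → ℝ} {κ e : ℝ}

/-- **Upper bound** of the near digits, only the first digits of `E` in the condition. -/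
theorem near_up (hp : IsLaw p)
    (hJ : Add p x z y (fun i k ω => (u i k ω, v i k ω)) g κ e) (hA : Add p x z y v f κ e)
    (hz : Nest p x z y e)
    (hu : ∀ i j k, x i ≤ x j → x j ≤ x k → CH p (u i j) (fun ω => (u i k ω, (z i ω, y ω))) ≤ e)
    {i j j' k : ι} (hij : x i ≤ x j) (hjj : x j ≤ x j') (hjk : x j' ≤ x k)
    {X₁ : Ω → S₁} {X₀ : Ω → S₀} {D : Ω → S₂} {E : Ω → S₃} {Ei : Ω → S₄} {R : Ω → S₅} {z' : Ω → S₆}
    (hR : Det p (fun ω => (E ω, R ω)) (fun ω => (z i ω, y ω))) (hE : Det p E Ei)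
    {e₁ e₀ eD e₃ e₄ : ℝ} (h1 : CH p X₁ (fun ω => (u i j' ω, (E ω, R ω))) ≤ e₁)
    (h2 : CH p (u i j) (fun ω => (X₀ ω, (E ω, R ω))) ≤ e₀)
    (h3 : CH p (v i k) (fun ω => (D ω, (E ω, R ω))) ≤ eD)
    (h4 : CH p (fun ω => (X₁ ω, (X₀ ω, D ω))) (fun ω => (z' ω, (Ei ω, R ω))) ≤ e₃)
    (h5 : CH p E R - CH p E (fun ω => (z' ω, R ω)) ≤ e₄) :
    CH p X₁ (fun ω => (X₀ ω, (D ω, (Ei ω, R ω)))) ≤
      g j j' - f j j' + ((8 * κ + 6 * e) + (e₁ + e₀ + eD) + e₃ + e₄) := by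
  have h0 := hp.nonneg
  have k1 := drop_E hp hE h4 h5
  have k2 := conv hp h1 h2 h3
  have k3 := (near_two h0 hJ hA hz hu hij hjj hjk).1
  have k4 : CH p (u i j') (fun ω => (u i j ω, (v i k ω, (E ω, R ω)))) ≤
      CH p (u i j') (fun ω => (u i j ω, (v i k ω, (z i ω, y ω)))) :=
    CH_mono_cond h0 fun a a' a1 a2 h => by
      simp only [Prod.mk.injEq] at h ⊢
      have h6 := hR a a' a1 a2 (by simp only [h.2.2.1, h.2.2.2])
      simp only [Prod.mk.injEq] at h6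
      exact ⟨h.1, h.2.1, h6⟩
  linarith

/-- **Lower bound** of the near digits, with the record of the ball `j` in the condition. -/
theorem near_lo (hp : IsLaw p)
    (hJ : Add p x z y (fun i k ω => (u i k ω, v i k ω)) g κ e) (hA : Add p x z y v f κ e)
    (hz : Nest p x z y e)
    (hu2 : ∀ i j k, x i ≤ x j → x j ≤ x k →
      CH p (u j k) (fun ω => (u i k ω, (z j ω, (z i ω, y ω)))) ≤ e)
    {i j j' k : ι} (hij : x i ≤ x j) (hjj : x j ≤ x j') (hjk : x j' ≤ x k)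
    {X₁ : Ω → S₁} {C : Ω → S₀} {e₁ e₂ : ℝ}
    (h1 : CH p C (fun ω => (u i j ω, (v i k ω, (z j ω, (z i ω, y ω))))) ≤ e₁)
    (h2 : CH p (u i j') (fun ω => (X₁ ω, (u i j ω, (v i k ω, (z j ω, (z i ω, y ω)))))) ≤ e₂) :
    g j j' - f j j' - ((8 * κ + 13 * e) + e₁ + e₂) ≤ CH p X₁ C := by
  have h0 := hp.nonneg
  have k1 := near_learn h0 hJ hA hz hu2 hij hjj hjk
  have k2 := CH_le_add h0 (u i j') C (fun ω => (u i j ω, (v i k ω, (z j ω, (z i ω, y ω)))))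
  have k3 := CH_le_add h0 (u i j') X₁
    (fun ω => (C ω, (u i j ω, (v i k ω, (z j ω, (z i ω, y ω))))))
  have k4 : CH p X₁ (fun ω => (C ω, (u i j ω, (v i k ω, (z j ω, (z i ω, y ω)))))) ≤
      CH p X₁ C := CH_mono_cond h0 fun a a' _ _ h => by
      simp only [Prod.mk.injEq] at h ⊢
      exact h.1
  have k5 : CH p (u i j') (fun ω => (X₁ ω, (C ω, (u i j ω, (v i k ω, (z j ω, (z i ω, y ω))))))) ≤
      CH p (u i j') (fun ω => (X₁ ω, (u i j ω, (v i k ω, (z j ω, (z i ω, y ω)))))) :=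
    CH_mono_cond h0 fun a a' _ _ h => by
      simp only [Prod.mk.injEq] at h ⊢
      tauto
  linarith

/-- **The free digits at the last place.** -/
theorem fre_of (hp : IsLaw p) {E : Ω → S₀} {Q : Ω → S₁} {K : Ω → S₂} {R : Ω → S₃} {z' : Ω → S₄}
    (hQ : Det p Q R) {e₁ e₂ : ℝ} (h1 : CH p K (fun ω => (z' ω, R ω)) ≤ e₁)
    (h2 : CH p E R - CH p E (fun ω => (z' ω, R ω)) ≤ e₂) : CH p E Q - CH p E K ≤ e₁ + e₂ := by
  have h0 := hp.nonneg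
  have k1 : CH p E Q ≤ CH p E R := CH_mono_cond h0 hQ
  have k2 := CH_le_add h0 E K (fun ω => (z' ω, R ω))
  have k3 : CH p E (fun ω => (K ω, (z' ω, R ω))) ≤ CH p E K :=
    CH_mono_cond h0 fun a a' _ _ h => by
      simp only [Prod.mk.injEq] at h
      exact h.1
  linarith

end add

end Pool.OWN17
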