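import Pool.Agent.H17.COR.Vk
import Pool.Agent.H6.OWN.Zlb
import Pool.Agent.H62.P3.Def

/-!
# The label of a place as a class function

`Lbk`: the data of the label of a tube. `lab_root`: the label is a class function. `tie_root`: the
label and the frame agree. `rdt_sub`, `actZ_sub`.
-/

set_option autoImplicit false

namespace Pool.OWN17

open Finset Real MvPolynomial
open Pool.Agent.H49.Ent Pool.Agent.H32.Dense Pool.STK Pool.KA Pool.KSAT Pool.K2S Pool.PB Pool.S6C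
  Pool.GEN Pool.RCD Pool.LA91 Pool.MIC6 Pool.REX Pool.REX83
open Pool.GRD (LbP)

variable {m n : ℕ}

theorem actZ_sub {S S' : PCl m} (hs : ∀ (τ : ℝ) (J : ℕ) (F : Fam m J) (A : F.Ω → Prop),
    S'.St τ J F A → S.St τ J F A) {v : Vz m} {ε : Fin n → Fin m} {κ : Fin n} (h : ActZ S v ε κ) :
    ActZ S' v ε κ := fun g hg => by
  obtain ⟨c, hc, h⟩ := h g hg
  exact ⟨c, hc, Bas.sub hs h⟩

theorem rdt_sub {S S' : PCl m} (hs : ∀ (τ : ℝ) (J : ℕ) (F : Fam m J) (A : F.Ω → Prop),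
    S'.St τ J F A → S.St τ J F A) {v : Vz m} {ε : Fin n → Fin m} {p : ℝ} {κ : Fin n}
    {L : Finset (Fin n) → Fin n → ℝ → ℝ → ℝ} (h : RDt S v ε p κ L) : RDt S' v ε p κ L := by
  obtain ⟨p0, p1, hL, ⟨Na, al, g₀, hal, hg₀, hM, hB⟩, D, hD, hex⟩ := h
  refine ⟨p0, p1, lamW_of_bas (fun Φ hb => recv_le _ _ (sub_le hs) hb) hL,
    ⟨Na, al, g₀, hal, hg₀, hM, actB_of_bas (fun Φ hb => recv_le _ _ (sub_le hs) hb) hB⟩, D, hD,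
    fun w h0 h1 h2 => ?_⟩
  obtain ⟨σ, a1, a2, a3⟩ := hex w h0 h1 h2
  exact ⟨σ, a1, a2, fun ρ hρ => Bas.sub hs (a3 ρ hρ)⟩

/-- **The data of the label of a tube.** -/
structure Lbk {J : ℕ} (F : Fam m J) (v : Vz m) (y u k : Fin m) (w E M : ℕ)
    (f : LnT F → Fin 4 → ℝ) (A : F.Ω → Prop) : Prop where
  cls : ∀ hP : v.P J ≤ J - v.B J, ∃ φ : PtT (zmV F hP (v.y J F) (id : Fin m → Fin m)) →
    Fin 4 → ℝ, ∀ ω, A ω → f (slam F w ω) =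
      φ (ptr (zmV F hP (v.y J F) (id : Fin m → Fin m)) (J - v.B J - v.P J) ω)
  bnd : ∀ ω, A ω → ∀ i : Fin 4, i ≠ 0 → |f (slam F w ω) i| ≤ 2 ^ E
  pos : ∀ ω, A ω → |(lnF F y u k w ω).v - ((lbF (tw0 F w ω) (f (slam F w ω))).f0 +
    f (slam F w ω) 2 * (lnF F y u k w ω).y + f (slam F w ω) 3 * (lnF F y u k w ω).u)| ≤ 1 / 2 ^ M
  vel : ∀ ω, A ω → |F.d ω k - (f (slam F w ω) 1 + f (slam F w ω) 2 * F.d ω y +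
    f (slam F w ω) 3 * F.d ω u)| ≤ 2 ^ w / 2 ^ M

theorem Lbk.sub {J : ℕ} {F : Fam m J} {v : Vz m} {y u k : Fin m} {w E M : ℕ}
    {f : LnT F → Fin 4 → ℝ} {A B : F.Ω → Prop} (h : Lbk F v y u k w E M f A) (hB : Sub B A) :
    Lbk F v y u k w E M f B :=
  ⟨fun hP => (h.cls hP).imp fun _ hφ ω hω => hφ ω (hB ω hω), fun ω hω => h.bnd ω (hB ω hω),
    fun ω hω => h.pos ω (hB ω hω), fun ω hω => h.vel ω (hB ω hω)⟩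

/-- **The label of a tube as a class function.** -/
theorem lab_root {S : PCl m} (hS : S.Ne) {v : Vz m} {y u k : Fin m} {Cp t x M : ℝ} (J₀ : ℕ)
    (h : Bas S (fun J F A => ∀ hP : v.P J ≤ J - v.B J,
      ∃ (f : LnT F → Fin 4 → ℝ) (φ : PtT (zmV F hP (v.y J F) (id : Fin m → Fin m)) → Fin 4 → ℝ)
        (B : F.Ω → Prop), Sub B A ∧ Pe F.p A ≤ Cp * Pe F.p B ∧ ∀ ω, B ω →
        f (slam F ⌊t * J⌋₊ ω) = φ (ptr (zmV F hP (v.y J F) id) (J - v.B J - v.P J) ω) ∧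
        (∀ i : Fin 4, i ≠ 0 → |f (slam F ⌊t * J⌋₊ ω) i| ≤ 2 ^ ⌊x * J⌋₊) ∧
        |(lnF F y u k ⌊t * J⌋₊ ω).v - ((lbF (tw0 F ⌊t * J⌋₊ ω) (f (slam F ⌊t * J⌋₊ ω))).f0 +
          f (slam F ⌊t * J⌋₊ ω) 2 * (lnF F y u k ⌊t * J⌋₊ ω).y +
          f (slam F ⌊t * J⌋₊ ω) 3 * (lnF F y u k ⌊t * J⌋₊ ω).u)| ≤ 1 / 2 ^ ⌊M * J⌋₊ ∧
        |F.d ω k - (f (slam F ⌊t * J⌋₊ ω) 1 + f (slam F ⌊t * J⌋₊ ω) 2 * F.d ω y +
          f (slam F ⌊t * J⌋₊ ω) 3 * F.d ω u)| ≤ 2 ^ ⌊t * J⌋₊ / 2 ^ ⌊M * J⌋₊)) :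
    ∃ (S' : PCl m) (f : ∀ (J : ℕ) (F : Fam m J), LnT F → Fin 4 → ℝ), S'.Ne ∧
      (∀ (τ : ℝ) (J : ℕ) (F : Fam m J) (A : F.Ω → Prop), S'.St τ J F A → S.St τ J F A) ∧
      ∀ (τ : ℝ) (J : ℕ) (F : Fam m J) (A : F.Ω → Prop), S'.St τ J F A → J₀ ≤ J ∧
        Lbk F v y u k ⌊t * J⌋₊ ⌊x * J⌋₊ ⌊M * J⌋₊ (f J F) A := by
  classical
  obtain ⟨Q, hQ⟩ : ∃ Q : ∀ (J : ℕ) (F : Fam m J), (LnT F → Fin 4 → ℝ) → (F.Ω → Prop) → Prop,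
      Q = fun J F f A => J₀ ≤ J ∧ Lbk F v y u k ⌊t * J⌋₊ ⌊x * J⌋₊ ⌊M * J⌋₊ f A := ⟨_, rfl⟩
  have hne : ∀ (J : ℕ) (F : Fam m J), Nonempty (LnT F → Fin 4 → ℝ) := fun J F => ⟨fun _ _ => 0⟩
  obtain ⟨S', f, h1, h2, h3⟩ := root_fix (C := Cp) hS Q (by
      intro J F f A B hA hB
      rw [hQ] at hA ⊢
      exact ⟨hA.1, hA.2.sub hB⟩) (by
      refine Bas.mono J₀ h ?_
      intro J hJ F A hA
      obtain ⟨-, hP, -⟩ := v.floor_le J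
      obtain ⟨f, φ, B, a1, a2, a3⟩ := hA hP
      rw [hQ]
      exact ⟨f, B, a1, a2, hJ, fun hP' => ⟨φ, fun ω hω => (a3 ω hω).1⟩,
        fun ω hω => (a3 ω hω).2.1, fun ω hω => (a3 ω hω).2.2.1, fun ω hω => (a3 ω hω).2.2.2⟩)
  rw [hQ] at h3
  exact ⟨S', f, h1, h2, h3⟩

/-- The velocity relation of a label and of a frame. -/
theorem tie_alg {e du dv : ℝ} {a b f : Fin 4 → ℝ} {δu δv δl B : ℝ} (hB : 0 ≤ B)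
    (hu : |du - (a 1 + a 2 * e)| ≤ δu) (hv : |dv - (b 1 + b 2 * e + b 3 * du)| ≤ δv)
    (hl : |dv - (f 1 + f 2 * e + f 3 * du)| ≤ δl) (hf : |f 3| ≤ B) (hb : |b 3| ≤ B) :
    |((f 1 - b 1) + (f 3 - b 3) * a 1) + ((f 2 - b 2) + (f 3 - b 3) * a 2) * e| ≤
      δl + δv + 2 * B * δu := by
  have e1 : ((f 1 - b 1) + (f 3 - b 3) * a 1) + ((f 2 - b 2) + (f 3 - b 3) * a 2) * e =
      -(dv - (f 1 + f 2 * e + f 3 * du)) + (dv - (b 1 + b 2 * e + b 3 * du)) -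
        (f 3 - b 3) * (du - (a 1 + a 2 * e)) := by ring
  rw [e1]
  have h1 : |(f 3 - b 3) * (du - (a 1 + a 2 * e))| ≤ 2 * B * δu := by
    rw [abs_mul]
    refine mul_le_mul ?_ hu (abs_nonneg _) (by linarith)
    have := abs_sub (f 3) (b 3)
    linarith
  have h2 := abs_add_le (-(dv - (f 1 + f 2 * e + f 3 * du)) + (dv - (b 1 + b 2 * e + b 3 * du)))
    (-((f 3 - b 3) * (du - (a 1 + a 2 * e))))
  have h3 := abs_add_le (-(dv - (f 1 + f 2 * e + f 3 * du))) (dv - (b 1 + b 2 * e + b 3 * du))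
  rw [abs_neg] at h2 h3
  rw [← sub_eq_add_neg] at h2
  linarith

/-- **The label and the frame agree**, on all events of a subclass. -/
theorem tie_root {S : PCl m} (hS : S.Ne) {C₀ : ℝ} (htm : TmC S C₀) {v : Vz m} {y u k : Fin m}
    (hact : ActZ S v (id : Fin m → Fin m) y) {t x M x₀ O : ℝ} {f a b : ∀ (J : ℕ) (F : Fam m J),
      LnT F → Fin 4 → ℝ} {MU MV E : ℕ → ℕ} (hx : 0 < x) (J₀ : ℕ)
    (hf : ∀ (τ : ℝ) (J : ℕ) (F : Fam m J) (A : F.Ω → Prop), S.St τ J F A →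
      Lbk F v y u k ⌊t * J⌋₊ ⌊x₀ * J⌋₊ ⌊M * J⌋₊ (f J F) A)
    (ha : ∀ (τ : ℝ) (J : ℕ) (F : Fam m J) (A : F.Ω → Prop), S.St τ J F A →
      ChA F y y u ⌊O * J⌋₊ (MU J) (E J) (a J F) A ∧ (∀ s, a J F s 3 = 0) ∧
      ChA F y u k ⌊O * J⌋₊ (MV J) (E J) (b J F) A) :
    ∃ S' : PCl m, S'.Ne ∧
      (∀ (τ : ℝ) (J : ℕ) (F : Fam m J) (A : F.Ω → Prop), S'.St τ J F A → S.St τ J F A) ∧
      ∀ (τ : ℝ) (J : ℕ) (F : Fam m J) (A : F.Ω → Prop), S'.St τ J F A → J₀ ≤ J ∧ ∀ ω, A ω →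
        |(f J F (slam F ⌊t * J⌋₊ ω) 2 - b J F (slam F ⌊O * J⌋₊ ω) 2) +
          (f J F (slam F ⌊t * J⌋₊ ω) 3 - b J F (slam F ⌊O * J⌋₊ ω) 3) *
            a J F (slam F ⌊O * J⌋₊ ω) 2| ≤
          2 ^ (⌊x * J⌋₊ + 1) * 2 ^ v.P J * (2 ^ ⌊t * J⌋₊ / 2 ^ ⌊M * J⌋₊ +
            2 ^ ⌊O * J⌋₊ / 2 ^ MV J + 2 * 2 ^ (max ⌊x₀ * J⌋₊ (E J)) * (2 ^ ⌊O * J⌋₊ / 2 ^ MU J)) := by
  refine prop_root (C := 2) hS (fun J F ω =>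
    |(f J F (slam F ⌊t * J⌋₊ ω) 2 - b J F (slam F ⌊O * J⌋₊ ω) 2) +
      (f J F (slam F ⌊t * J⌋₊ ω) 3 - b J F (slam F ⌊O * J⌋₊ ω) 3) *
        a J F (slam F ⌊O * J⌋₊ ω) 2| ≤
      2 ^ (⌊x * J⌋₊ + 1) * 2 ^ v.P J * (2 ^ ⌊t * J⌋₊ / 2 ^ ⌊M * J⌋₊ +
        2 ^ ⌊O * J⌋₊ / 2 ^ MV J + 2 * 2 ^ (max ⌊x₀ * J⌋₊ (E J)) * (2 ^ ⌊O * J⌋₊ / 2 ^ MU J))) J₀ ?_
  have hst : Bas S (fun J F A => Lbk F v y u k ⌊t * J⌋₊ ⌊x₀ * J⌋₊ ⌊M * J⌋₊ (f J F) A ∧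
      ChA F y y u ⌊O * J⌋₊ (MU J) (E J) (a J F) A ∧ (∀ s, a J F s 3 = 0) ∧
      ChA F y u k ⌊O * J⌋₊ (MV J) (E J) (b J F) A) :=
    ⟨1, one_pos, 0, fun J _ F A hA => ⟨hf 1 J F A hA, ha 1 J F A hA⟩⟩
  refine Bas.mono 0 ((act_z htm hact hx).and hst) ?_
  rintro J - F A ⟨hz, hl, hu, hu3, hv⟩
  obtain ⟨-, hP, -⟩ := v.floor_le J
  obtain ⟨φ, hφ⟩ := hl.cls hP
  obtain ⟨φu, hφu⟩ := hu.cls
  obtain ⟨φv, hφv⟩ := hv.cls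
  obtain ⟨s, hs⟩ : ∃ s : F.Ω → LnT F, s = slam F ⌊O * J⌋₊ := ⟨_, rfl⟩
  obtain ⟨r, hr⟩ : ∃ r : F.Ω → LnT F, r = slam F ⌊t * J⌋₊ := ⟨_, rfl⟩
  have hE : 0 < (2 : ℝ) ^ ⌊t * J⌋₊ / 2 ^ ⌊M * J⌋₊ + 2 ^ ⌊O * J⌋₊ / 2 ^ MV J +
      2 * 2 ^ (max ⌊x₀ * J⌋₊ (E J)) * (2 ^ ⌊O * J⌋₊ / 2 ^ MU J) := by positivity
  obtain ⟨B, b1, b2, b3⟩ := hz hP (fun ω => (f J F (r ω) 1 - b J F (s ω) 1) +
    (f J F (r ω) 3 - b J F (s ω) 3) * a J F (s ω) 1) (fun ω => (f J F (r ω) 2 - b J F (s ω) 2) +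
    (f J F (r ω) 3 - b J F (s ω) 3) * a J F (s ω) 2) _ hE (by
      intro ω ω' h1 h2 h3
      obtain ⟨k1, k2, -⟩ := phz_ptr F hP (v.y J F) (id : Fin m → Fin m) h3
      have e1 : f J F (r ω) = f J F (r ω') := by
        rw [hr, hφ ω h1, hφ ω' h2, k2]
      have e2 : a J F (s ω) = a J F (s ω') := by
        rw [hs, hφu ω h1, hφu ω' h2, k1]
      have e3 : b J F (s ω) = b J F (s ω') := by
        rw [hs, hφv ω h1, hφv ω' h2, k1]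
      simp only [e1, e2, e3]
      exact ⟨trivial, trivial⟩) (by
      intro ω hω
      have h1 := hu.vel ω hω
      have h2 := hv.vel ω hω
      have h3 := hl.vel ω hω
      unfold ov at h1 h2
      rw [hu3, zero_mul, add_zero] at h1
      have h4 := hl.bnd ω hω 3 (by decide)
      have h5 := hv.bnd ω hω 3 (by decide)
      rw [← hs] at h1 h2 h5
      rw [← hr] at h3 h4
      refine tie_alg (by positivity) h1 h2 h3 (h4.trans ?_) (h5.trans ?_)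
      · exact pow_le_pow_right₀ (by norm_num) (le_max_left _ _)
      · exact pow_le_pow_right₀ (by norm_num) (le_max_right _ _))
  refine ⟨B, b1, b2, fun ω hω => ?_⟩
  have h1 := b3 ω hω
  simp only [hr, hs] at h1
  exact h1

end Pool.OWN17
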