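import Pool.Agent.H17.COR.Lin

/-!
# Chains of windows

`U w`, `D w`: two numbers of the window `w`. `GC U D g w o`: there is a chain of windows from `w` to
`o` with `g + U v' ≤ D v` for consecutive windows. `Gs w o`: the supremum of these `g`. It is the
minimum of `Gs w v` and `Gs v o`.
-/

set_option autoImplicit false

namespace Pool.OWN17

open Set

/-- Chains of windows for the constant `g`. -/
inductive GC (U D : ℚ → ℝ) (g : ℝ) : ℚ → ℚ → Prop
  | nil (w : ℚ) : g + U w ≤ D w → GC U D g w w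
  | cons {w v o : ℚ} : w < v → g + U v ≤ D w → GC U D g v o → GC U D g w o

section

variable {U D : ℚ → ℝ} {g g' : ℝ} {w v o : ℚ}

theorem GC.le (h : GC U D g w o) : w ≤ o := by
  induction h with
  | nil w _ => exact le_rfl
  | cons h1 _ _ ih => exact h1.le.trans ih

theorem GC.mono (hg : g' ≤ g) (h : GC U D g w o) : GC U D g' w o := by
  induction h with
  | nil w h => exact GC.nil w (by linarith)
  | cons h1 h2 _ ih => exact GC.cons h1 (by linarith) ih

theorem GC.last (h : GC U D g w o) : g + U o ≤ D o := by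
  induction h with
  | nil w h => exact h
  | cons _ _ _ ih => exact ih

theorem GC.trans (h : GC U D g w v) (h' : GC U D g v o) : GC U D g w o := by
  induction h with
  | nil w _ => exact h'
  | cons h1 h2 _ ih => exact GC.cons h1 h2 (ih h')

/-- The numbers on the interval `(A, B)`. -/
structure UD (U D : ℚ → ℝ) (A B : ℝ) : Prop where
  u0 : ∀ w : ℚ, A < w → (w : ℝ) < B → 0 ≤ U w ∧ U w ≤ 1
  d0 : ∀ w : ℚ, A < w → (w : ℝ) < B → 0 ≤ D w ∧ D w ≤ 1
  um : ∀ w v : ℚ, A < w → w ≤ v → (v : ℝ) < B → U w + (v - w) ≤ U v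
  dm : ∀ w v : ℚ, A < w → w ≤ v → (v : ℝ) < B → D w + (v - w) ≤ D v

variable {A B : ℝ}

theorem UD.umon (H : UD U D A B) (hw : A < w) (hwv : w ≤ v) (hv : (v : ℝ) < B) : U w ≤ U v := by
  have h1 := H.um w v hw hwv hv
  have h2 : (w : ℝ) ≤ v := by exact_mod_cast hwv
  linarith

theorem UD.dmon (H : UD U D A B) (hw : A < w) (hwv : w ≤ v) (hv : (v : ℝ) < B) : D w ≤ D v := by
  have h1 := H.dm w v hw hwv hv
  have h2 : (w : ℝ) ≤ v := by exact_mod_cast hwv
  linarith

theorem GC.first (H : UD U D A B) (hw : A < w) (ho : (o : ℝ) < B) (h : GC U D g w o) :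
    g + U w ≤ D w := by
  cases h with
  | nil w h => exact h
  | @cons _ v' _ h1 h2 h3 =>
    have h4 : (v' : ℝ) ≤ o := by exact_mod_cast h3.le
    have h5 := H.umon hw h1.le (lt_of_le_of_lt h4 ho)
    linarith

theorem GC.split (H : UD U D A B) (hw : A < w) (ho : (o : ℝ) < B) (h : GC U D g w o)
    (hwv : w ≤ v) (hvo : v ≤ o) : GC U D g w v ∧ GC U D g v o := by
  induction h with
  | nil w h =>
    have : v = w := le_antisymm hvo hwv
    rw [this]
    exact ⟨GC.nil w h, GC.nil w h⟩
  | @cons w v' o h1 h2 h3 ih =>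
    have hv'o : ((v' : ℚ) : ℝ) ≤ o := by exact_mod_cast h3.le
    have hv'B : (v' : ℝ) < B := lt_of_le_of_lt hv'o ho
    have h1' : (w : ℝ) < v' := by exact_mod_cast h1
    have hwv' : (w : ℝ) ≤ v := by exact_mod_cast hwv
    have hvo' : (v : ℝ) ≤ o := by exact_mod_cast hvo
    have hfirst := GC.first H (by linarith) ho h3
    rcases lt_or_ge v v' with h4 | h4
    · have h4' : (v : ℝ) < v' := by exact_mod_cast h4
      have hU := H.umon (w := v) (v := v') (by linarith) h4.le hv'B
      have hD := H.dmon hw hwv (by linarith)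
      refine ⟨?_, GC.cons h4 (by linarith) h3⟩
      rcases eq_or_lt_of_le hwv with h5 | h5
      · rw [← h5] at hU ⊢
        exact GC.nil w (by linarith)
      · exact GC.cons h5 (by linarith) (GC.nil v (by linarith))
    · obtain ⟨i1, i2⟩ := ih (by linarith) ho h4 hvo
      exact ⟨GC.cons h1 h2 i1, i2⟩

theorem GC.neg_one (H : UD U D A B) (hw : A < w) (ho : (o : ℝ) < B) (hwo : w ≤ o) :
    GC U D (-1) w o := by
  have hwo' : (w : ℝ) ≤ o := by exact_mod_cast hwo
  have h1 := (H.d0 w hw (by linarith)).1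
  have h2 := (H.u0 o (by linarith) ho).2
  have h3 := (H.d0 o (by linarith) ho).1
  rcases eq_or_lt_of_le hwo with h | h
  · rw [h]
    exact GC.nil o (by linarith)
  · exact GC.cons h (by linarith) (GC.nil o (by linarith))

/-- The supremum of the constants. -/
noncomputable def Gs (U D : ℚ → ℝ) (w o : ℚ) : ℝ := sSup {g | GC U D g w o}

theorem Gs_bdd : BddAbove {g | GC U D g w o} :=
  ⟨D o - U o, fun g hg => by
    have := hg.last
    linarith⟩

theorem le_Gs (h : GC U D g w o) : g ≤ Gs U D w o := le_csSup Gs_bdd h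

theorem Gs_le (H : UD U D A B) (hw : A < w) (ho : (o : ℝ) < B) (hwo : w ≤ o) :
    Gs U D w o ≤ D o - U o := by
  refine csSup_le ⟨-1, GC.neg_one H hw ho hwo⟩ fun g hg => ?_
  have := GC.last hg
  linarith

theorem Gs_le' (H : UD U D A B) (hw : A < w) (ho : (o : ℝ) < B) (hwo : w ≤ o) :
    Gs U D w o ≤ D w - U w := by
  refine csSup_le ⟨-1, GC.neg_one H hw ho hwo⟩ fun g hg => ?_
  have := GC.first H hw ho hg
  linarith

theorem GC_of_lt (H : UD U D A B) (hw : A < w) (ho : (o : ℝ) < B) (hwo : w ≤ o)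
    (hg : g < Gs U D w o) : GC U D g w o := by
  have hne : {g : ℝ | GC U D g w o}.Nonempty := ⟨-1, GC.neg_one H hw ho hwo⟩
  obtain ⟨g', h1, h2⟩ := exists_lt_of_lt_csSup hne hg
  exact GC.mono h2.le h1

theorem Gs_self (H : UD U D A B) (hw : A < w) (ho : (w : ℝ) < B) :
    Gs U D w w = D w - U w :=
  le_antisymm (Gs_le H hw ho le_rfl) (le_Gs (GC.nil w (by linarith)))

theorem Gs_min (H : UD U D A B) (hw : A < w) (ho : (o : ℝ) < B) (hwv : w ≤ v) (hvo : v ≤ o) :
    Gs U D w o = min (Gs U D w v) (Gs U D v o) := by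
  have hwv' : (w : ℝ) ≤ v := by exact_mod_cast hwv
  have hvo' : (v : ℝ) ≤ o := by exact_mod_cast hvo
  apply le_antisymm
  · refine csSup_le ⟨-1, GC.neg_one H hw ho (hwv.trans hvo)⟩ fun g hg => ?_
    obtain ⟨h1, h2⟩ := GC.split H hw ho hg hwv hvo
    exact le_min (le_Gs h1) (le_Gs h2)
  · refine le_of_forall_lt fun g hg => ?_
    obtain ⟨g', h1, h2⟩ := exists_between hg
    obtain ⟨h3, h4⟩ := lt_min_iff.1 h2
    exact h1.trans_le (le_Gs ((GC_of_lt H hw (by linarith) hwv h3).trans
      (GC_of_lt H (by linarith) ho hvo h4)))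

theorem Gs_mono_left (H : UD U D A B) (hw : A < w) (ho : (o : ℝ) < B) (hwv : w ≤ v)
    (hvo : v ≤ o) : Gs U D w o ≤ Gs U D v o := by
  rw [Gs_min H hw ho hwv hvo]
  exact min_le_right _ _

theorem Gs_mono_right (H : UD U D A B) (hw : A < w) (ho : (o : ℝ) < B) (hwv : w ≤ v)
    (hvo : v ≤ o) : Gs U D w o ≤ Gs U D w v := by
  rw [Gs_min H hw ho hwv hvo]
  exact min_le_left _ _

/-- **Fine chains.** -/
theorem GC_fine {h : ℚ} (hh : 0 < h) {a b : ℚ}
    (hstep : ∀ x : ℚ, a ≤ x → x + h ≤ b → g + U (x + h) ≤ D x)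
    (hend : g + U b ≤ D b) (n : ℕ) :
    ∀ x : ℚ, a ≤ x → x + n * h = b → GC U D g x b := by
  induction n with
  | zero =>
    intro x _ hx
    have : x = b := by
      rw [← hx]
      push_cast
      ring
    rw [this]
    exact GC.nil b hend
  | succ n ih =>
    intro x hx hb
    have e1 : x + h + n * h = b := by
      rw [← hb]
      push_cast
      ring
    have hn : (0 : ℚ) ≤ n * h := by positivity
    exact GC.cons (by linarith) (hstep x hx (by linarith)) (ih (x + h) (by linarith) e1)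

theorem GC_fine' {a b : ℚ} (hab : a ≤ b) {c s : ℝ}
    (hstep : ∀ x y : ℚ, a ≤ x → x ≤ y → y ≤ b → c + U y ≤ D x + s * (y - x)) (hs : 0 ≤ s) :
    c ≤ Gs U D a b := by
  by_contra hcon
  push Not at hcon
  obtain ⟨n, hn⟩ := exists_nat_gt (s * (b - a) / (c - Gs U D a b))
  have hc : 0 < c - Gs U D a b := by linarith
  have hab' : (a : ℝ) ≤ b := by exact_mod_cast hab
  have hsb : 0 ≤ s * ((b : ℝ) - a) := mul_nonneg hs (by linarith)
  have hn0 : (0 : ℝ) < n := lt_of_le_of_lt (div_nonneg hsb hc.le) hn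
  have hn1 : n ≠ 0 := by
    rintro rfl
    simp at hn0
  rw [div_lt_iff₀ hc] at hn
  rcases eq_or_lt_of_le hab with h | h
  · subst h
    have h1 := hstep a a le_rfl le_rfl le_rfl
    have h2 : GC U D c a a := GC.nil a (by simpa using h1)
    have := le_Gs h2
    linarith
  · obtain ⟨d, hd⟩ : ∃ d : ℚ, d = (b - a) / n := ⟨_, rfl⟩
    have hnq : (0 : ℚ) < n := by exact_mod_cast hn0
    have hd0 : 0 < d := by
      rw [hd]
      exact div_pos (by linarith) hnq
    have hdn : (n : ℚ) * d = b - a := by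
      rw [hd]
      field_simp
    have hdr : (n : ℝ) * d = b - a := by exact_mod_cast hdn
    have hgc := GC_fine (U := U) (D := D) (g := c - s * d) hd0 (a := a) (b := b)
      (fun x hx hxb => by
        have h1 := hstep x (x + d) hx (by linarith) hxb
        push_cast at h1
        have e1 : s * ((x : ℝ) + d - x) = s * d := by ring
        rw [e1] at h1
        linarith) (by
        have h1 := hstep b b hab le_rfl le_rfl
        have h2 : 0 ≤ s * (d : ℝ) := mul_nonneg hs (by exact_mod_cast hd0.le)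
        have e1 : s * ((b : ℝ) - b) = 0 := by ring
        rw [e1] at h1
        linarith) n a le_rfl (by rw [hdn]; ring)
    have h3 := le_Gs hgc
    have h4 : (n : ℝ) * (s * d) = s * (b - a) := by
      rw [← hdr]
      ring
    have h5 : c - Gs U D a b ≤ s * d := by linarith
    have h6 : (n : ℝ) * (c - Gs U D a b) ≤ n * (s * d) := mul_le_mul_of_nonneg_left h5 hn0.le
    rw [h4] at h6
    linarith

/-- **The digits of a later window.** -/
theorem Gs_row (H : UD U D A B) (hv : A < v) (ho : (o : ℝ) < B) (hvo : v ≤ o) {j : ℝ}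
    (hj0 : 0 ≤ j) (hj1 : j ≤ 1) : D v - j * v ≤ U o - j * o + Gs U D v o := by
  have hvo' : (v : ℝ) ≤ o := by exact_mod_cast hvo
  have h1 := GC_fine' (U := U) (D := D) hvo (c := D v - j * v - (U o - j * o)) (s := j)
    (fun x y hx hxy hy => by
      have hx' : (v : ℝ) ≤ x := by exact_mod_cast hx
      have hxy' : (x : ℝ) ≤ y := by exact_mod_cast hxy
      have hy' : (y : ℝ) ≤ o := by exact_mod_cast hy
      have a1 := H.dm v x hv hx (by linarith)
      have a2 := H.um y o (by linarith) hy ho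
      have b1 : j * ((x : ℝ) - v) ≤ x - v := mul_le_of_le_one_left (by linarith) hj1
      have b2 : j * ((o : ℝ) - y) ≤ o - y := mul_le_of_le_one_left (by linarith) hj1
      nlinarith) hj0
  linarith

/-- **The digits of a later window**, two constants. -/
theorem Gs_row' (H : UD U D A B) (hw : A < w) (ho : (o : ℝ) < B) (hwv : w ≤ v) (hvo : v ≤ o)
    {j : ℝ} (hj0 : 0 ≤ j) (hj1 : j ≤ 1) :
    U v - j * v + Gs U D w v ≤ U o - j * o + Gs U D w o := by
  have hwv' : (w : ℝ) ≤ v := by exact_mod_cast hwv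
  have hvo' : (v : ℝ) ≤ o := by exact_mod_cast hvo
  have h1 := Gs_row H (by linarith) ho hvo hj0 hj1
  have h2 := Gs_le H hw (by linarith) hwv
  have h3 := H.um v o (by linarith) hvo ho
  have b1 : j * ((o : ℝ) - v) ≤ o - v := mul_le_of_le_one_left (by linarith) hj1
  rw [Gs_min H hw ho hwv hvo]
  rcases le_total (Gs U D w v) (Gs U D v o) with h | h
  · rw [min_eq_left h]
    nlinarith
  · rw [min_eq_right h]
    nlinarith

/-- **The constants near a point** where the two numbers have the same derivative. -/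
theorem Gs_near (H : UD U D A B) (hw : A < w) (ho : (o : ℝ) < B) (hwo : w ≤ o)
    {x₀ u φ s e : ℝ} (hs : 0 ≤ s)
    (hU : ∀ x : ℚ, w ≤ x → x ≤ o → |U x - (u + s * (x - x₀))| ≤ e)
    (hD : ∀ x : ℚ, w ≤ x → x ≤ o → |D x - (u + φ + s * (x - x₀))| ≤ e) :
    φ - 2 * e ≤ Gs U D w o ∧ Gs U D w o ≤ φ + 2 * e := by
  constructor
  · refine GC_fine' hwo (s := s) (fun x y hx hxy hy => ?_) hs
    have a1 := (abs_le.1 (hU y (hx.trans hxy) hy)).2
    have a2 := (abs_le.1 (hD x hx (hxy.trans hy))).1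
    nlinarith
  · have a1 := (abs_le.1 (hU o hwo le_rfl)).1
    have a2 := (abs_le.1 (hD o hwo le_rfl)).2
    have a3 := Gs_le H hw ho hwo
    linarith

end

end Pool.OWN17
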