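import Pool.Agent.H17.COR.Fin

/-!
# The corner, rounding

Normalised real numbers (for one sample): `xu`, `xv` = the own heights of `u`, `v` relative to the
reference line in natural units of the tube, `xb` = the slope of `v` over `u` relative to the chart,
`r0 + τ r1` = the affine label at the reference line, `z` = the part of the label which comes from
the exact coordinate `y`.

* `n_rel`: the relation of `Plc` between the digits;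
* `n_s`, `n_sc`: the functional of the velocities, and its few digits;
* `n_fin`: the raw positions.
-/

set_option autoImplicit false

namespace Pool.OWN17

open Finset Real

section

/-- A product of rounded numbers. -/
theorem fl_mul {x y : ℝ} : |((⌊x⌋ : ℤ) : ℝ) * ((⌊y⌋ : ℤ) : ℝ) - x * y| ≤ |x| + |y| + 1 := by
  have h1 := Int.floor_le x
  have h2 := Int.lt_floor_add_one x
  have h3 := Int.floor_le y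
  have h4 := Int.lt_floor_add_one y
  obtain ⟨a, ha⟩ : ∃ a : ℝ, a = x - ⌊x⌋ := ⟨_, rfl⟩
  obtain ⟨b, hb⟩ : ∃ b : ℝ, b = y - ⌊y⌋ := ⟨_, rfl⟩
  have e1 : ((⌊x⌋ : ℤ) : ℝ) = x - a := by rw [ha]; ring
  have e2 : ((⌊y⌋ : ℤ) : ℝ) = y - b := by rw [hb]; ring
  have a0 : |a| ≤ 1 := by rw [abs_le]; constructor <;> linarith
  have b0 : |b| ≤ 1 := by rw [abs_le]; constructor <;> linarith
  rw [e1, e2]
  have e3 : (x - a) * (y - b) - x * y = -(x * b) - a * y + a * b := by ring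
  rw [e3]
  calc |-(x * b) - a * y + a * b| ≤ |-(x * b) - a * y| + |a * b| := abs_add_le _ _
    _ ≤ (|-(x * b)| + |a * y|) + |a * b| := by
        have := abs_sub (-(x * b)) (a * y)
        linarith
    _ = |x| * |b| + |a| * |y| + |a| * |b| := by rw [abs_neg, abs_mul, abs_mul, abs_mul]
    _ ≤ |x| * 1 + 1 * |y| + 1 * 1 := by
        gcongr
    _ = |x| + |y| + 1 := by ring

theorem fl_err (x : ℝ) : |((⌊x⌋ : ℤ) : ℝ) - x| ≤ 1 := by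
  have h1 := Int.floor_le x
  have h2 := Int.lt_floor_add_one x
  rw [abs_le]
  constructor <;> linarith

theorem fl_abs (x : ℝ) : |((⌊x⌋ : ℤ) : ℝ)| ≤ |x| + 1 := by
  have h1 := fl_err x
  have h2 := abs_add_le (((⌊x⌋ : ℤ) : ℝ) - x) x
  have h3 : ((⌊x⌋ : ℤ) : ℝ) - x + x = ⌊x⌋ := by ring
  rw [h3] at h2
  linarith

/-- **The relation between the digits.** -/
theorem n_rel {g : ℕ} {c : ℝ} (hc : 1 ≤ c) {xu xv xb r0 r1 z z' t : ℝ} {cc : ℤ}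
    (hxu : |xu| ≤ 2 * c) (hxb : |xb| ≤ c) (hr1 : |r1| ≤ 6 * c ^ 3)
    (hz : |z - z'| * 2 ^ g ≤ 6 * c ^ 2)
    (hrel : |xv - (r0 + t * r1 + z + xb * xu)| * 2 ^ g ≤ 2 * c)
    (ht : |2 ^ g * t - cc| ≤ 1) (hcc : |(cc : ℝ)| ≤ 2 ^ g) :
    |2 ^ g * ((⌊2 ^ g * xv⌋ : ℤ) : ℝ) - (2 ^ g * ((⌊2 ^ g * (r0 + z')⌋ : ℤ) : ℝ) +
      ((⌊2 ^ g * r1⌋ : ℤ) : ℝ) * cc + ((⌊2 ^ g * xb⌋ : ℤ) : ℝ) * ((⌊2 ^ g * xu⌋ : ℤ) : ℝ))| ≤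
      30 * c ^ 3 * 2 ^ g := by
  have hG : (1 : ℝ) ≤ 2 ^ g := one_le_pow₀ (by norm_num)
  have hG0 : (0 : ℝ) < 2 ^ g := by positivity
  have c2 : c ≤ c ^ 2 := by nlinarith
  have c3 : c ^ 2 ≤ c ^ 3 := by nlinarith
  obtain ⟨d1, hd1⟩ : ∃ d1 : ℝ, d1 = ((⌊2 ^ g * xv⌋ : ℤ) : ℝ) - 2 ^ g * xv := ⟨_, rfl⟩
  obtain ⟨d2, hd2⟩ : ∃ d2 : ℝ, d2 = ((⌊2 ^ g * (r0 + z')⌋ : ℤ) : ℝ) - 2 ^ g * (r0 + z') :=
    ⟨_, rfl⟩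
  obtain ⟨d3, hd3⟩ : ∃ d3 : ℝ, d3 = ((⌊2 ^ g * r1⌋ : ℤ) : ℝ) - 2 ^ g * r1 := ⟨_, rfl⟩
  obtain ⟨d4, hd4⟩ : ∃ d4 : ℝ, d4 = ((⌊2 ^ g * xb⌋ : ℤ) : ℝ) * ((⌊2 ^ g * xu⌋ : ℤ) : ℝ) -
    (2 ^ g * xb) * (2 ^ g * xu) := ⟨_, rfl⟩
  obtain ⟨d5, hd5⟩ : ∃ d5 : ℝ, d5 = 2 ^ g * t - cc := ⟨_, rfl⟩
  have k1 : |d1| ≤ 1 := by rw [hd1]; exact fl_err _
  have k2 : |d2| ≤ 1 := by rw [hd2]; exact fl_err _
  have k3 : |d3| ≤ 1 := by rw [hd3]; exact fl_err _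
  have k4 : |d4| ≤ 3 * c * 2 ^ g + 1 := by
    rw [hd4]
    refine fl_mul.trans ?_
    rw [abs_mul, abs_mul, abs_of_pos hG0]
    nlinarith
  have k5 : |d5| ≤ 1 := by rw [hd5]; exact ht
  obtain ⟨d6, hd6⟩ : ∃ d6 : ℝ, d6 = xv - (r0 + t * r1 + z + xb * xu) := ⟨_, rfl⟩
  rw [← hd6] at hrel
  have e1 : 2 ^ g * ((⌊2 ^ g * xv⌋ : ℤ) : ℝ) - (2 ^ g * ((⌊2 ^ g * (r0 + z')⌋ : ℤ) : ℝ) +
      ((⌊2 ^ g * r1⌋ : ℤ) : ℝ) * cc + ((⌊2 ^ g * xb⌋ : ℤ) : ℝ) * ((⌊2 ^ g * xu⌋ : ℤ) : ℝ)) =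
      2 ^ g * (d6 * 2 ^ g) + 2 ^ g * d1 - 2 ^ g * d2 + 2 ^ g * ((z - z') * 2 ^ g) + 2 ^ g * (r1 * d5)
        - d3 * cc - d4 := by
    rw [hd1, hd2, hd3, hd4, hd5, hd6]
    ring
  rw [e1]
  have hr : |r1 * d5| ≤ 6 * c ^ 3 := by
    rw [abs_mul]
    have := mul_le_mul hr1 k5 (abs_nonneg _) (by positivity)
    linarith
  have hd3c : |d3 * cc| ≤ 2 ^ g := by
    rw [abs_mul]
    have := mul_le_mul k3 hcc (abs_nonneg _) (by norm_num)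
    linarith
  have hz' : |(z - z') * 2 ^ g| ≤ 6 * c ^ 2 := by
    rw [abs_mul, abs_of_pos hG0]
    exact hz
  have h6' : |d6 * 2 ^ g| ≤ 2 * c := by
    rw [abs_mul, abs_of_pos hG0]
    exact hrel
  have m1 := mul_le_mul_of_nonneg_left h6' hG0.le
  have m2 := mul_le_mul_of_nonneg_left k1 hG0.le
  have m3 := mul_le_mul_of_nonneg_left k2 hG0.le
  have m4 := mul_le_mul_of_nonneg_left hz' hG0.le
  have m5 := mul_le_mul_of_nonneg_left hr hG0.le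
  have a1 : |2 ^ g * (d6 * 2 ^ g)| = 2 ^ g * |d6 * 2 ^ g| := by rw [abs_mul, abs_of_pos hG0]
  have a2 : |2 ^ g * d1| = 2 ^ g * |d1| := by rw [abs_mul, abs_of_pos hG0]
  have a3 : |2 ^ g * d2| = 2 ^ g * |d2| := by rw [abs_mul, abs_of_pos hG0]
  have a4 : |2 ^ g * ((z - z') * 2 ^ g)| = 2 ^ g * |(z - z') * 2 ^ g| := by
    rw [abs_mul, abs_of_pos hG0]
  have a5 : |2 ^ g * (r1 * d5)| = 2 ^ g * |r1 * d5| := by rw [abs_mul, abs_of_pos hG0]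
  have s1 : |2 ^ g * (d6 * 2 ^ g) + 2 ^ g * d1 - 2 ^ g * d2 + 2 ^ g * ((z - z') * 2 ^ g) +
      2 ^ g * (r1 * d5) - d3 * cc - d4| ≤ |2 ^ g * (d6 * 2 ^ g)| + |2 ^ g * d1| + |2 ^ g * d2| +
      |2 ^ g * ((z - z') * 2 ^ g)| + |2 ^ g * (r1 * d5)| + |d3 * cc| + |d4| := by
    have t1 := abs_sub (2 ^ g * (d6 * 2 ^ g) + 2 ^ g * d1 - 2 ^ g * d2 + 2 ^ g * ((z - z') * 2 ^ g) +
      2 ^ g * (r1 * d5) - d3 * cc) d4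
    have t2 := abs_sub (2 ^ g * (d6 * 2 ^ g) + 2 ^ g * d1 - 2 ^ g * d2 + 2 ^ g * ((z - z') * 2 ^ g) +
      2 ^ g * (r1 * d5)) (d3 * cc)
    have t3 := abs_add_le (2 ^ g * (d6 * 2 ^ g) + 2 ^ g * d1 - 2 ^ g * d2 +
      2 ^ g * ((z - z') * 2 ^ g)) (2 ^ g * (r1 * d5))
    have t4 := abs_add_le (2 ^ g * (d6 * 2 ^ g) + 2 ^ g * d1 - 2 ^ g * d2)
      (2 ^ g * ((z - z') * 2 ^ g))
    have t5 := abs_sub (2 ^ g * (d6 * 2 ^ g) + 2 ^ g * d1) (2 ^ g * d2)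
    have t6 := abs_add_le (2 ^ g * (d6 * 2 ^ g)) (2 ^ g * d1)
    linarith
  have q1 : c * 2 ^ g ≤ c ^ 3 * 2 ^ g := mul_le_mul_of_nonneg_right (by linarith) hG0.le
  have q2 : c ^ 2 * 2 ^ g ≤ c ^ 3 * 2 ^ g := mul_le_mul_of_nonneg_right (by linarith) hG0.le
  have q3 : 1 * 2 ^ g ≤ c ^ 3 * 2 ^ g := mul_le_mul_of_nonneg_right (by linarith) hG0.le
  nlinarith

/-- The size of a rounded slope. -/
theorem fl_slope {g : ℕ} {xb c : ℝ} (hxb : |xb| ≤ c) :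
    |((⌊2 ^ g * xb⌋ : ℤ) : ℝ) / 2 ^ g| ≤ c + 1 := by
  have hG : (1 : ℝ) ≤ 2 ^ g := one_le_pow₀ (by norm_num)
  have hG0 : (0 : ℝ) < 2 ^ g := by positivity
  rw [abs_div, abs_of_pos hG0, div_le_iff₀ hG0]
  have h1 := fl_abs (2 ^ g * xb)
  rw [abs_mul, abs_of_pos hG0] at h1
  nlinarith

/-- **The functional of the velocities.** -/
theorem n_s {g : ℕ} {c : ℝ} (hc : 1 ≤ c) {qu qv qur qvr r1 zz xb : ℝ} (hxb : |xb| ≤ c)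
    (hq : |qu - qur| ≤ c) (hrel : |qv - (qvr + r1 + zz + xb * (qu - qur))| * 2 ^ g ≤ c) :
    |((⌊2 ^ g * qv⌋ : ℤ) : ℝ) - (((⌊2 ^ g * (qvr + r1 + zz) -
      ((⌊2 ^ g * xb⌋ : ℤ) : ℝ) * qur⌋ : ℤ) : ℝ) +
        ((⌊2 ^ g * xb⌋ : ℤ) : ℝ) / 2 ^ g * ((⌊2 ^ g * qu⌋ : ℤ) : ℝ))| ≤ 6 * c := by
  have hG : (1 : ℝ) ≤ 2 ^ g := one_le_pow₀ (by norm_num)
  have hG0 : (0 : ℝ) < 2 ^ g := by positivity
  have hB := fl_slope (g := g) hxb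
  obtain ⟨B, hBd⟩ : ∃ B : ℝ, B = ((⌊2 ^ g * xb⌋ : ℤ) : ℝ) := ⟨_, rfl⟩
  rw [← hBd] at hB ⊢
  have hBe : |B - 2 ^ g * xb| ≤ 1 := by rw [hBd]; exact fl_err _
  obtain ⟨d1, hd1⟩ : ∃ d1 : ℝ, d1 = ((⌊2 ^ g * qv⌋ : ℤ) : ℝ) - 2 ^ g * qv := ⟨_, rfl⟩
  obtain ⟨d2, hd2⟩ : ∃ d2 : ℝ, d2 = ((⌊2 ^ g * (qvr + r1 + zz) - B * qur⌋ : ℤ) : ℝ) -
    (2 ^ g * (qvr + r1 + zz) - B * qur) := ⟨_, rfl⟩
  obtain ⟨d3, hd3⟩ : ∃ d3 : ℝ, d3 = ((⌊2 ^ g * qu⌋ : ℤ) : ℝ) - 2 ^ g * qu := ⟨_, rfl⟩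
  have k1 : |d1| ≤ 1 := by rw [hd1]; exact fl_err _
  have k2 : |d2| ≤ 1 := by rw [hd2]; exact fl_err _
  have k3 : |d3| ≤ 1 := by rw [hd3]; exact fl_err _
  obtain ⟨d4, hd4⟩ : ∃ d4 : ℝ, d4 = qv - (qvr + r1 + zz + xb * (qu - qur)) := ⟨_, rfl⟩
  rw [← hd4] at hrel
  have e1 : ((⌊2 ^ g * qv⌋ : ℤ) : ℝ) - (((⌊2 ^ g * (qvr + r1 + zz) - B * qur⌋ : ℤ) : ℝ) +
      B / 2 ^ g * ((⌊2 ^ g * qu⌋ : ℤ) : ℝ)) =
      d1 - d2 + d4 * 2 ^ g - (B - 2 ^ g * xb) * (qu - qur) - B / 2 ^ g * d3 := by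
    rw [hd1, hd2, hd3, hd4]
    field_simp
    ring
  rw [e1]
  have a1 : |(B - 2 ^ g * xb) * (qu - qur)| ≤ c := by
    rw [abs_mul]
    have := mul_le_mul hBe hq (abs_nonneg _) (by norm_num)
    linarith
  have a2 : |B / 2 ^ g * d3| ≤ c + 1 := by
    rw [abs_mul]
    have := mul_le_mul hB k3 (abs_nonneg _) (by linarith)
    linarith
  have a3 : |d4 * 2 ^ g| ≤ c := by
    rw [abs_mul, abs_of_pos hG0]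
    exact hrel
  have t1 := abs_sub (d1 - d2 + d4 * 2 ^ g - (B - 2 ^ g * xb) * (qu - qur)) (B / 2 ^ g * d3)
  have t2 := abs_sub (d1 - d2 + d4 * 2 ^ g) ((B - 2 ^ g * xb) * (qu - qur))
  have t3 := abs_add_le (d1 - d2) (d4 * 2 ^ g)
  have t4 := abs_sub d1 d2
  linarith

/-- **The functional of the velocities is few digits** given the functional at the reference
velocity and the frame. -/
theorem n_sc {g i lam : ℕ} (hgi : g ≤ i) (hl : i + g ≤ lam) {c : ℝ} (hc : 1 ≤ c)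
    {qur qvr r1 k xe xe' xb jv ju tn : ℝ}
    (hxb : |xb| ≤ c) (hxe : |xe| ≤ c) (hxe' : |xe - xe'| * 2 ^ lam ≤ 2 ^ i) (hjv : |jv| ≤ c)
    (hju : |ju| ≤ c) (hk : k = tn + jv - xb * ju) (htn : |tn| * 2 ^ g ≤ c) :
    |((⌊2 ^ g * (qvr + r1 + k * xe) - ((⌊2 ^ g * xb⌋ : ℤ) : ℝ) * qur⌋ : ℤ) : ℝ) -
      (2 ^ g * qvr + ((⌊2 ^ g * r1⌋ : ℤ) : ℝ) + 2 ^ g * ((((⌊2 ^ i * jv⌋ : ℤ) : ℝ) / 2 ^ i -
        ((⌊2 ^ g * xb⌋ : ℤ) : ℝ) / 2 ^ g * (((⌊2 ^ i * ju⌋ : ℤ) : ℝ) / 2 ^ i)) * xe') -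
        ((⌊2 ^ g * xb⌋ : ℤ) : ℝ) * qur)| ≤ 13 * c ^ 2 := by
  have hG : (1 : ℝ) ≤ 2 ^ g := one_le_pow₀ (by norm_num)
  have hG0 : (0 : ℝ) < 2 ^ g := by positivity
  have hI0 : (0 : ℝ) < 2 ^ i := by positivity
  have hI1 : (1 : ℝ) ≤ 2 ^ i := one_le_pow₀ (by norm_num)
  have hGI : (2 : ℝ) ^ g ≤ 2 ^ i := pow_le_pow_right₀ (by norm_num) hgi
  have hL0 : (0 : ℝ) < 2 ^ lam := by positivity
  have hL : (2 : ℝ) ^ i * 2 ^ g ≤ 2 ^ lam := by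
    rw [← pow_add]
    exact pow_le_pow_right₀ (by norm_num) hl
  have hB := fl_slope (g := g) hxb
  have c2 : c ≤ c ^ 2 := by nlinarith
  obtain ⟨B, hBd⟩ : ∃ B : ℝ, B = ((⌊2 ^ g * xb⌋ : ℤ) : ℝ) / 2 ^ g := ⟨_, rfl⟩
  have hBd' : ((⌊2 ^ g * xb⌋ : ℤ) : ℝ) = 2 ^ g * B := by
    rw [hBd]
    field_simp
  rw [← hBd] at hB
  have hBe : |B - xb| * 2 ^ g ≤ 1 := by
    have h1 := fl_err (2 ^ g * xb)
    rw [hBd', show (2 : ℝ) ^ g * B - 2 ^ g * xb = (B - xb) * 2 ^ g by ring, abs_mul,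
      abs_of_pos hG0] at h1
    exact h1
  obtain ⟨V, hVd⟩ : ∃ V : ℝ, V = ((⌊2 ^ i * jv⌋ : ℤ) : ℝ) / 2 ^ i := ⟨_, rfl⟩
  have hVe : |V - jv| * 2 ^ i ≤ 1 := by
    have h1 := fl_err (2 ^ i * jv)
    have h2 : ((⌊2 ^ i * jv⌋ : ℤ) : ℝ) = 2 ^ i * V := by
      rw [hVd]
      field_simp
    rw [h2, show (2 : ℝ) ^ i * V - 2 ^ i * jv = (V - jv) * 2 ^ i by ring, abs_mul,
      abs_of_pos hI0] at h1
    exact h1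
  obtain ⟨U, hUd⟩ : ∃ U : ℝ, U = ((⌊2 ^ i * ju⌋ : ℤ) : ℝ) / 2 ^ i := ⟨_, rfl⟩
  have hUe : |U - ju| * 2 ^ i ≤ 1 := by
    have h1 := fl_err (2 ^ i * ju)
    have h2 : ((⌊2 ^ i * ju⌋ : ℤ) : ℝ) = 2 ^ i * U := by
      rw [hUd]
      field_simp
    rw [h2, show (2 : ℝ) ^ i * U - 2 ^ i * ju = (U - ju) * 2 ^ i by ring, abs_mul,
      abs_of_pos hI0] at h1
    exact h1
  rw [← hBd, ← hVd, ← hUd, hBd']
  -- sizes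
  have b1 : |B - xb| ≤ 1 := by
    have := abs_nonneg (B - xb)
    nlinarith
  have v1 : |V - jv| ≤ 1 := by
    have := abs_nonneg (V - jv)
    nlinarith
  have u1 : |U - ju| ≤ 1 := by
    have := abs_nonneg (U - ju)
    nlinarith
  have hV : |V| ≤ c + 1 := by
    have := abs_add_le (V - jv) jv
    rw [sub_add_cancel] at this
    linarith
  have hU : |U| ≤ c + 1 := by
    have := abs_add_le (U - ju) ju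
    rw [sub_add_cancel] at this
    linarith
  obtain ⟨k', hk'⟩ : ∃ k' : ℝ, k' = V - B * U := ⟨_, rfl⟩
  rw [← hk']
  have hv2 : |V - jv| * 2 ^ g ≤ 1 := by
    have := abs_nonneg (V - jv)
    nlinarith
  have hu2 : |U - ju| * 2 ^ g ≤ 1 := by
    have := abs_nonneg (U - ju)
    nlinarith
  have hkk : |k - k'| * 2 ^ g ≤ 3 * c + 2 := by
    have e1 : k - k' = tn - (V - jv) + (B - xb) * U + xb * (U - ju) := by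
      rw [hk, hk']
      ring
    have t1 := abs_add_le (tn - (V - jv) + (B - xb) * U) (xb * (U - ju))
    have t2 := abs_add_le (tn - (V - jv)) ((B - xb) * U)
    have t3 := abs_sub tn (V - jv)
    have m1 : |(B - xb) * U| * 2 ^ g ≤ c + 1 := by
      rw [abs_mul]
      have := mul_le_mul hBe hU (abs_nonneg _) (by norm_num)
      linarith [this]
    have m2 : |xb * (U - ju)| * 2 ^ g ≤ c := by
      rw [abs_mul, mul_assoc]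
      have := mul_le_mul hxb hu2 (by positivity) (by linarith)
      linarith
    rw [e1]
    have m3 : |tn - (V - jv) + (B - xb) * U + xb * (U - ju)| ≤
        |tn| + |V - jv| + |(B - xb) * U| + |xb * (U - ju)| := by linarith
    have m4 := mul_le_mul_of_nonneg_right m3 hG0.le
    linarith
  have hk'a : |k'| ≤ 6 * c ^ 2 := by
    rw [hk']
    have t1 := abs_sub V (B * U)
    have t2 : |B * U| ≤ (c + 1) * (c + 1) := by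
      rw [abs_mul]
      exact mul_le_mul hB hU (abs_nonneg _) (by linarith)
    nlinarith
  obtain ⟨d1, hd1⟩ : ∃ d1 : ℝ, d1 = ((⌊2 ^ g * (qvr + r1 + k * xe) - 2 ^ g * B * qur⌋ : ℤ) : ℝ) -
    (2 ^ g * (qvr + r1 + k * xe) - 2 ^ g * B * qur) := ⟨_, rfl⟩
  obtain ⟨d2, hd2⟩ : ∃ d2 : ℝ, d2 = ((⌊2 ^ g * r1⌋ : ℤ) : ℝ) - 2 ^ g * r1 := ⟨_, rfl⟩
  have k1 : |d1| ≤ 1 := by rw [hd1]; exact fl_err _
  have k2 : |d2| ≤ 1 := by rw [hd2]; exact fl_err _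
  have e1 : ((⌊2 ^ g * (qvr + r1 + k * xe) - 2 ^ g * B * qur⌋ : ℤ) : ℝ) -
      (2 ^ g * qvr + ((⌊2 ^ g * r1⌋ : ℤ) : ℝ) + 2 ^ g * (k' * xe') - 2 ^ g * B * qur) =
      d1 - d2 + ((k - k') * 2 ^ g) * xe + k' * ((xe - xe') * 2 ^ g) := by
    rw [hd1, hd2]
    ring
  rw [e1]
  have a1 : |((k - k') * 2 ^ g) * xe| ≤ (3 * c + 2) * c := by
    rw [abs_mul, abs_mul, abs_of_pos hG0]
    exact mul_le_mul hkk hxe (abs_nonneg _) (by linarith)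
  have a2 : |k' * ((xe - xe') * 2 ^ g)| ≤ 6 * c ^ 2 := by
    rw [abs_mul, abs_mul, abs_of_pos hG0]
    have h1 : |xe - xe'| * 2 ^ g ≤ 1 := by
      have h2 : |xe - xe'| * 2 ^ g * 2 ^ i ≤ 1 * 2 ^ i := by
        have := mul_le_mul_of_nonneg_left hL (abs_nonneg (xe - xe'))
        nlinarith
      exact le_of_mul_le_mul_right h2 hI0
    have := mul_le_mul hk'a h1 (by positivity) (by positivity)
    linarith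
  have t1 := abs_add_le (d1 - d2 + ((k - k') * 2 ^ g) * xe) (k' * ((xe - xe') * 2 ^ g))
  have t2 := abs_add_le (d1 - d2) (((k - k') * 2 ^ g) * xe)
  have t3 := abs_sub d1 d2
  nlinarith

/-- **The raw positions.** -/
theorem n_fin {g : ℕ} {c : ℝ} (hc : 1 ≤ c) {xu xv xb hr ur : ℝ} {K0 K1 cc : ℤ} (hxb : |xb| ≤ c)
    (hrel : |2 ^ g * ((⌊2 ^ g * xv⌋ : ℤ) : ℝ) - (2 ^ g * (K0 : ℝ) + (K1 : ℝ) * cc +
      ((⌊2 ^ g * xb⌋ : ℤ) : ℝ) * ((⌊2 ^ g * xu⌋ : ℤ) : ℝ))| ≤ 30 * c ^ 3 * 2 ^ g) :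
    |((⌊2 ^ g * (xv + hr)⌋ : ℤ) : ℝ) - (((⌊(((K0 + K1 * cc / 2 ^ g : ℤ) : ℤ) : ℝ) + 2 ^ g * hr -
      ((⌊2 ^ g * xb⌋ : ℤ) : ℝ) * ur⌋ : ℤ) : ℝ) +
        ((⌊2 ^ g * xb⌋ : ℤ) : ℝ) / 2 ^ g * ((⌊2 ^ g * (xu + ur)⌋ : ℤ) : ℝ))| ≤ 40 * c ^ 3 := by
  have hG : (1 : ℝ) ≤ 2 ^ g := one_le_pow₀ (by norm_num)
  have hG0 : (0 : ℝ) < 2 ^ g := by positivity
  have hB := fl_slope (g := g) hxb
  have c2 : c ≤ c ^ 2 := by nlinarith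
  have c3 : c ^ 2 ≤ c ^ 3 := by nlinarith
  obtain ⟨B, hBd⟩ : ∃ B : ℝ, B = ((⌊2 ^ g * xb⌋ : ℤ) : ℝ) / 2 ^ g := ⟨_, rfl⟩
  have hBd' : ((⌊2 ^ g * xb⌋ : ℤ) : ℝ) = 2 ^ g * B := by
    rw [hBd]
    field_simp
  rw [← hBd] at hB ⊢
  rw [hBd'] at hrel ⊢
  -- integer division
  obtain ⟨D, hD⟩ : ∃ D : ℝ, D = (((K1 * cc / 2 ^ g : ℤ) : ℤ) : ℝ) := ⟨_, rfl⟩
  have hDe : |D - (K1 : ℝ) * cc / 2 ^ g| ≤ 1 := by
    have hg' : (0 : ℤ) < 2 ^ g := by positivity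
    have h3 := Int.mul_ediv_self_le (x := K1 * cc) hg'.ne'
    have h4 := Int.lt_mul_ediv_self_add (x := K1 * cc) hg'
    have h3' : (2 : ℝ) ^ g * D ≤ (K1 : ℝ) * cc := by
      rw [hD]
      exact_mod_cast h3
    have h4' : (K1 : ℝ) * cc < 2 ^ g * D + 2 ^ g := by
      rw [hD]
      exact_mod_cast h4
    have e1 : D - (K1 : ℝ) * cc / 2 ^ g = (2 ^ g * D - (K1 : ℝ) * cc) / 2 ^ g := by
      field_simp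
    rw [e1, abs_div, abs_of_pos hG0, div_le_one hG0, abs_le]
    constructor <;> linarith
  have hrel' : |((⌊2 ^ g * xv⌋ : ℤ) : ℝ) - ((K0 : ℝ) + (K1 : ℝ) * cc / 2 ^ g +
      B * ((⌊2 ^ g * xu⌋ : ℤ) : ℝ))| ≤ 30 * c ^ 3 := by
    have e1 : 2 ^ g * ((⌊2 ^ g * xv⌋ : ℤ) : ℝ) - (2 ^ g * (K0 : ℝ) + (K1 : ℝ) * cc +
        2 ^ g * B * ((⌊2 ^ g * xu⌋ : ℤ) : ℝ)) = (((⌊2 ^ g * xv⌋ : ℤ) : ℝ) -
        ((K0 : ℝ) + (K1 : ℝ) * cc / 2 ^ g + B * ((⌊2 ^ g * xu⌋ : ℤ) : ℝ))) * 2 ^ g := by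
      field_simp
    rw [e1, abs_mul, abs_of_pos hG0] at hrel
    exact le_of_mul_le_mul_right hrel hG0
  obtain ⟨d1, hd1⟩ : ∃ d1 : ℝ, d1 = ((⌊2 ^ g * (xv + hr)⌋ : ℤ) : ℝ) - 2 ^ g * (xv + hr) :=
    ⟨_, rfl⟩
  obtain ⟨d2, hd2⟩ : ∃ d2 : ℝ, d2 = ((⌊2 ^ g * xv⌋ : ℤ) : ℝ) - 2 ^ g * xv := ⟨_, rfl⟩
  obtain ⟨d3, hd3⟩ : ∃ d3 : ℝ, d3 = ((⌊2 ^ g * (xu + ur)⌋ : ℤ) : ℝ) - 2 ^ g * (xu + ur) :=
    ⟨_, rfl⟩
  obtain ⟨d4, hd4⟩ : ∃ d4 : ℝ, d4 = ((⌊2 ^ g * xu⌋ : ℤ) : ℝ) - 2 ^ g * xu := ⟨_, rfl⟩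
  obtain ⟨d5, hd5⟩ : ∃ d5 : ℝ, d5 = ((⌊(((K0 + K1 * cc / 2 ^ g : ℤ) : ℤ) : ℝ) + 2 ^ g * hr -
      2 ^ g * B * ur⌋ : ℤ) : ℝ) - ((((K0 + K1 * cc / 2 ^ g : ℤ) : ℤ) : ℝ) + 2 ^ g * hr -
      2 ^ g * B * ur) := ⟨_, rfl⟩
  have k1 : |d1| ≤ 1 := by rw [hd1]; exact fl_err _
  have k2 : |d2| ≤ 1 := by rw [hd2]; exact fl_err _
  have k3 : |d3| ≤ 1 := by rw [hd3]; exact fl_err _
  have k4 : |d4| ≤ 1 := by rw [hd4]; exact fl_err _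
  have k5 : |d5| ≤ 1 := by rw [hd5]; exact fl_err _
  have e0 : (((K0 + K1 * cc / 2 ^ g : ℤ) : ℤ) : ℝ) = (K0 : ℝ) + D := by
    rw [hD]
    push_cast
    ring
  obtain ⟨d6, hd6⟩ : ∃ d6 : ℝ, d6 = ((⌊2 ^ g * xv⌋ : ℤ) : ℝ) - ((K0 : ℝ) + (K1 : ℝ) * cc / 2 ^ g +
      B * ((⌊2 ^ g * xu⌋ : ℤ) : ℝ)) := ⟨_, rfl⟩
  rw [← hd6] at hrel'
  have e1 : ((⌊2 ^ g * (xv + hr)⌋ : ℤ) : ℝ) - (((⌊(((K0 + K1 * cc / 2 ^ g : ℤ) : ℤ) : ℝ) +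
      2 ^ g * hr - 2 ^ g * B * ur⌋ : ℤ) : ℝ) + B * ((⌊2 ^ g * (xu + ur)⌋ : ℤ) : ℝ)) =
      d1 - d2 - d5 + d6 - (D - (K1 : ℝ) * cc / 2 ^ g) - B * (d3 - d4) := by
    have f1 : ((⌊2 ^ g * (xv + hr)⌋ : ℤ) : ℝ) = d1 + 2 ^ g * (xv + hr) := by rw [hd1]; ring
    have f2 : ((⌊2 ^ g * (xu + ur)⌋ : ℤ) : ℝ) = d3 + 2 ^ g * (xu + ur) := by rw [hd3]; ring
    have f3 : ((⌊(((K0 + K1 * cc / 2 ^ g : ℤ) : ℤ) : ℝ) + 2 ^ g * hr -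
      2 ^ g * B * ur⌋ : ℤ) : ℝ) = d5 + (((K0 : ℝ) + D) + 2 ^ g * hr - 2 ^ g * B * ur) := by
      rw [hd5, e0]
      ring
    have f4 : ((⌊2 ^ g * xv⌋ : ℤ) : ℝ) = d2 + 2 ^ g * xv := by rw [hd2]; ring
    have f5 : ((⌊2 ^ g * xu⌋ : ℤ) : ℝ) = d4 + 2 ^ g * xu := by rw [hd4]; ring
    rw [f1, f2, f3, hd6, f4, f5]
    ring
  rw [e1]
  have a1 : |B * (d3 - d4)| ≤ (c + 1) * 2 := by
    rw [abs_mul]
    have := abs_sub d3 d4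
    exact mul_le_mul hB (by linarith) (abs_nonneg _) (by linarith)
  have t1 := abs_sub (d1 - d2 - d5 + d6 - (D - (K1 : ℝ) * cc / 2 ^ g)) (B * (d3 - d4))
  have t2 := abs_sub (d1 - d2 - d5 + d6) (D - (K1 : ℝ) * cc / 2 ^ g)
  have t3 := abs_add_le (d1 - d2 - d5) d6
  have t4 := abs_sub (d1 - d2) d5
  have t5 := abs_sub d1 d2
  linarith

end

end Pool.OWN17
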