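import Pool.Agent.H72.OWN.Low

/-!
# Data of a class

`root_fix`: a hereditary property of a datum which holds, for some datum, on a part of each event
of a class, holds for one datum of the family on all events of a nonempty subclass.
-/

set_option autoImplicit false

namespace Pool.OWN17

open Finset Real
open Pool.Agent.H49.Ent Pool.Agent.H32.Dense Pool.STK Pool.KA Pool.KSAT Pool.K2S Pool.PB Pool.S6C
  Pool.GEN Pool.RCD

universe uu

variable {m : ℕ}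

/-- **Data of a class.** -/
theorem root_fix {S : PCl m} (hS : S.Ne) {Δ : ∀ J : ℕ, Fam m J → Type uu}
    (V : ∀ (J : ℕ) (F : Fam m J), Δ J F → (F.Ω → Prop) → Prop)
    (hV : ∀ (J : ℕ) (F : Fam m J) (d : Δ J F) (A B : F.Ω → Prop), V J F d A → Sub B A →
      V J F d B) [hΔ : ∀ (J : ℕ) (F : Fam m J), Nonempty (Δ J F)] {C : ℝ}
    (h : Bas S (fun J F A => ∃ (d : Δ J F) (B : F.Ω → Prop), Sub B A ∧
      Pe F.p A ≤ C * Pe F.p B ∧ V J F d B)) :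
    ∃ (S' : PCl m) (d : ∀ (J : ℕ) (F : Fam m J), Δ J F), S'.Ne ∧
      (∀ (τ : ℝ) (J : ℕ) (F : Fam m J) (A : F.Ω → Prop), S'.St τ J F A → S.St τ J F A) ∧
      ∀ (τ : ℝ) (J : ℕ) (F : Fam m J) (A : F.Ω → Prop), S'.St τ J F A → V J F (d J F) A := by
  classical
  obtain ⟨Rt, hRt⟩ : ∃ Rt : ℕ → ∀ (J : ℕ) (F : Fam m J), Δ J F → (F.Ω → Prop) → Prop,
    Rt = fun (k : ℕ) J F d B => S.St (2 / ((k : ℝ) + 1)) J F B ∧ V J F d B := ⟨_, rfl⟩
  have hroot : ∀ k J₁ : ℕ, ∃ J ≥ J₁, ∃ (F : Fam m J) (d : Δ J F) (B : F.Ω → Prop),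
      Rt k J F d B := by
    intro k J₁
    obtain ⟨τ₀, hτ₀, J₀, hb⟩ := h
    obtain ⟨τ, hτ⟩ : ∃ τ : ℝ, τ = min τ₀ (1 / ((k : ℝ) + 1)) := ⟨_, rfl⟩
    have hk1 : (0 : ℝ) < 1 / ((k : ℝ) + 1) := by positivity
    have hτ0 : 0 < τ := by rw [hτ]; exact lt_min hτ₀ hk1
    have t1 : τ ≤ τ₀ := by rw [hτ]; exact min_le_left _ _
    have t2 : τ ≤ 1 / ((k : ℝ) + 1) := by rw [hτ]; exact min_le_right _ _
    obtain ⟨C', hC'⟩ : ∃ C', C' = max 1 C := ⟨_, rfl⟩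
    have hC1 : 1 ≤ C' := by rw [hC']; exact le_max_left _ _
    have hC2 : C ≤ C' := by rw [hC']; exact le_max_right _ _
    obtain ⟨J₂, hJ₂⟩ := exp_small' hτ0 hC1
    obtain ⟨J, hJ, F, A, hA⟩ := hS τ hτ0 (max (max J₁ J₀) J₂)
    have j1 : J₁ ≤ J := ((le_max_left _ _).trans (le_max_left _ _)).trans hJ
    have j2 : J₀ ≤ J := ((le_max_right _ _).trans (le_max_left _ _)).trans hJ
    have j3 : J₂ ≤ J := (le_max_right _ _).trans hJ
    obtain ⟨d, B, hBA, hPB, hVB⟩ := hb J j2 F A (S.mono t1 hA)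
    refine ⟨J, j1, F, d, B, ?_⟩
    rw [hRt]
    refine ⟨?_, hVB⟩
    have e1 := hJ₂ J j3
    have hB0 := Pe_nonneg F.isLaw B
    have hC0 : 0 < C' := by linarith
    have e2 : Real.exp (-(τ * J)) * Pe F.p A ≤ Pe F.p B := by
      have a1 : Pe F.p A ≤ C' * Pe F.p B :=
        hPB.trans (mul_le_mul_of_nonneg_right hC2 hB0)
      calc Real.exp (-(τ * J)) * Pe F.p A ≤ 1 / C' * (C' * Pe F.p B) :=
            mul_le_mul e1 a1 (Pe_nonneg F.isLaw A) (by positivity)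
        _ = Pe F.p B := by field_simp
    have h2 := S.res hτ0.le hA hBA e2
    refine S.mono ?_ h2
    have : 2 / ((k : ℝ) + 1) = 1 / ((k : ℝ) + 1) + 1 / ((k : ℝ) + 1) := by ring
    rw [this]
    linarith
  -- the choice
  obtain ⟨E, hE⟩ : ∃ E : ∀ (J : ℕ) (F : Fam m J), ℕ → Prop, E = fun J F k =>
    k ≤ J ∧ ∃ (d : Δ J F) (B : F.Ω → Prop), Rt k J F d B := ⟨_, rfl⟩
  obtain ⟨kk, hkk⟩ : ∃ kk : ∀ J : ℕ, Fam m J → ℕ, kk = fun J F => Nat.findGreatest (E J F) J :=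
    ⟨_, rfl⟩
  have hmax : ∀ (J : ℕ) (F : Fam m J) (k : ℕ), E J F k → E J F (kk J F) ∧ k ≤ kk J F := by
    intro J F k hk
    have hkJ : k ≤ J := by rw [hE] at hk; exact hk.1
    rw [hkk]
    exact ⟨Nat.findGreatest_spec hkJ hk, Nat.le_findGreatest hkJ hk⟩
  have hch : ∀ (J : ℕ) (F : Fam m J), ∃ (d : Δ J F) (B : F.Ω → Prop),
      E J F (kk J F) → Rt (kk J F) J F d B := by
    intro J F
    by_cases h1 : E J F (kk J F)
    · have h2 := h1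
      rw [hE] at h2
      obtain ⟨-, d, B, h3⟩ := h2
      exact ⟨d, B, fun _ => h3⟩
    · exact ⟨Classical.choice (hΔ J F), fun _ => False, fun h => absurd h h1⟩
  choose d B hdB using hch
  obtain ⟨S', hS'⟩ : ∃ S' : PCl m, S' = Pool.OWN72.rootC S (fun J F => 2 / ((kk J F : ℝ) + 1)) B
    (fun J F => E J F (kk J F)) := ⟨_, rfl⟩
  refine ⟨S', d, ?_, ?_, ?_⟩
  · intro τ hτ J₁
    obtain ⟨k₀, hk₀⟩ := exists_nat_ge (2 / τ)
    obtain ⟨J, hJ, F, d₀, B₀, h1⟩ := hroot k₀ (max J₁ k₀)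
    have h2 : E J F k₀ := by
      rw [hE]
      exact ⟨(le_max_right _ _).trans hJ, d₀, B₀, h1⟩
    obtain ⟨h3, h4⟩ := hmax J F k₀ h2
    have h5 := hdB J F h3
    rw [hRt] at h5
    refine ⟨J, (le_max_left _ _).trans hJ, F, B J F, ?_⟩
    rw [hS']
    have h6 : 2 / ((kk J F : ℝ) + 1) ≤ τ := by
      rw [div_le_iff₀ (by positivity)]
      rw [div_le_iff₀ hτ] at hk₀
      have h7 : (k₀ : ℝ) ≤ kk J F := by exact_mod_cast h4
      nlinarith
    refine ⟨h3, h5.1, h6, fun _ hω => hω, ?_⟩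
    have h8 : Real.exp (-((τ - 2 / ((kk J F : ℝ) + 1)) * J)) ≤ 1 := by
      rw [Real.exp_le_one_iff]
      have : (0 : ℝ) ≤ J := Nat.cast_nonneg J
      have : 0 ≤ (τ - 2 / ((kk J F : ℝ) + 1)) * J := mul_nonneg (by linarith) this
      linarith
    exact mul_le_of_le_one_left (Pe_nonneg F.isLaw _) h8
  · rw [hS']
    exact Pool.OWN72.rootC_sub _ _ _ _
  · intro τ J F A hA
    rw [hS'] at hA
    obtain ⟨h1, -, -, h2, -⟩ := hA
    have h3 := hdB J F h1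
    rw [hRt] at h3
    exact hV J F _ _ _ h3.2 h2

end Pool.OWN17
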