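import Pool.Agent.H17.COR.Cnl

/-!
# The scheme of the places

`cor_unif`: the contradiction for all defects `τ ≥ τ₀` with one bound of the errors. `exists_sch`:
the numbers of the places.
-/

set_option autoImplicit false

namespace Pool.OWN17

open Finset Real Filter Topology
open Pool.Agent.H49.Ent Pool.Agent.H32.Dense Pool.STK Pool.CH30 Pool.KM7 Pool.OWN68

/-- The bound of the errors. -/
noncomputable def dl (τ : ℝ) (m : ℕ) : ℝ := τ / (4 * Kt τ m)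

theorem Kt_pos {τ : ℝ} (hτ : 0 < τ) (m : ℕ) : 0 < Kt τ m := by
  unfold Kt
  positivity

theorem dl_pos {τ : ℝ} (hτ : 0 < τ) (m : ℕ) : 0 < dl τ m := by
  have := Kt_pos hτ m
  unfold dl
  positivity

/-- **The corner at one ball is impossible**, uniformly for the defects `τ ≥ τ₀`. -/
theorem cor_unif {τ₀ : ℝ} (hτ₀ : 0 < τ₀) {τ : ℝ} (hτ : τ₀ ≤ τ) {m : ℕ}
    {Ω 𝒮 𝒵 𝒵' : Type} [Fintype Ω] {p : Ω → ℝ} (hp : IsLaw p)
    {c J w NU NV lam x D b : ℕ} {i g : ℕ → ℕ}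
    {c₀ e₁ eU ec eF eL η : ℝ} {l : Ω → Ln} {h : Ω → Cht} {f : Ω → Frm} {T : Ω → ℕ}
    {Y el : Ω → ℤ} {q : ℕ → Ω → Lbl} {cs : Ω → 𝒮} {zz : ℕ → Ω → 𝒵} {zd : Ω → 𝒵'} {A : ℝ}
    (hs : Sml c m b x D i g (dl τ₀ m) A c₀ e₁ eU ec eF eL η) :
    ¬ CorN p c J w NU NV lam x D m b i g τ c₀ e₁ eU ec eF eL η l h f T Y el q cs zz zd := by
  intro H
  have hK := Kt_pos hτ₀ m
  have h1 := cor_sml hp (lt_of_lt_of_le hτ₀ hτ) (dl_pos hτ₀ m) hs H
  have hG : (0 : ℝ) < g m := by exact_mod_cast hs.G0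
  have hKK : Kt τ m ≤ Kt τ₀ m := by
    unfold Kt
    have : (283 : ℝ) / τ ≤ 283 / τ₀ := div_le_div_of_nonneg_left (by norm_num) hτ₀ hτ
    have h2 : (2 + 9 * (m : ℝ)) * (121 + 283 / τ) ≤ (2 + 9 * m) * (121 + 283 / τ₀) :=
      mul_le_mul_of_nonneg_left (by linarith) (by positivity)
    linarith
  have h2 : Kt τ₀ m * (dl τ₀ m * g m) = τ₀ / 4 * g m := by
    unfold dl
    field_simp
  have h3 : Kt τ m * (dl τ₀ m * g m) ≤ τ₀ / 4 * g m := by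
    rw [← h2]
    have := dl_pos hτ₀ m
    exact mul_le_mul_of_nonneg_right hKK (by positivity)
  have h4 : (1 : ℝ) / 2 ≤ Real.log 2 := by
    have := Real.log_two_gt_d9
    linarith
  have hτp : 0 < τ := lt_of_lt_of_le hτ₀ hτ
  have h5 : τ * (g m * (1 / 2)) ≤ τ * (g m * Real.log 2) :=
    mul_le_mul_of_nonneg_left (mul_le_mul_of_nonneg_left h4 hG.le) hτp.le
  have h6 : τ₀ * (g m : ℝ) ≤ τ * g m := mul_le_mul_of_nonneg_right hτ hG.le
  have h7 : 0 < τ₀ * (g m : ℝ) := by positivity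
  nlinarith

/-- The places. -/
noncomputable def nS (t : ℝ) (n₀ : ℕ) : ℕ → ℕ
  | 0 => n₀
  | k + 1 => nS t n₀ k + ⌊t * nS t n₀ k⌋₊

/-- The lengths of the places. -/
noncomputable def gS (t : ℝ) (n₀ : ℕ) (k : ℕ) : ℕ := ⌊t * nS t n₀ k⌋₊

theorem nS_succ (t : ℝ) (n₀ k : ℕ) : nS t n₀ (k + 1) = nS t n₀ k + gS t n₀ k := rfl

theorem gS_le {t : ℝ} (ht0 : 0 ≤ t) (n₀ k : ℕ) : (gS t n₀ k : ℝ) ≤ t * nS t n₀ k :=
  Nat.floor_le (by positivity)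

theorem gS_le' {t : ℝ} (ht0 : 0 ≤ t) (ht1 : t ≤ 1) (n₀ k : ℕ) : gS t n₀ k ≤ nS t n₀ k := by
  have h1 := gS_le ht0 n₀ k
  have h2 : (gS t n₀ k : ℝ) ≤ nS t n₀ k := h1.trans (mul_le_of_le_one_left (Nat.cast_nonneg _) ht1)
  exact_mod_cast h2

theorem nS_ge {t : ℝ} (ht0 : 0 < t) {n₀ : ℕ} (hn : 2 ≤ t * n₀) (k : ℕ) :
    n₀ * (1 + t / 2) ^ k ≤ nS t n₀ k ∧ (n₀ : ℝ) ≤ nS t n₀ k ∧
      t / 2 * nS t n₀ k ≤ gS t n₀ k := by
  have step : ∀ k, (n₀ : ℝ) ≤ nS t n₀ k → t / 2 * nS t n₀ k ≤ gS t n₀ k := by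
    intro k hk
    have h1 := Nat.sub_one_lt_floor (t * nS t n₀ k)
    have h2 : t * n₀ ≤ t * nS t n₀ k := mul_le_mul_of_nonneg_left hk ht0.le
    unfold gS
    nlinarith
  induction k with
  | zero =>
    refine ⟨?_, ?_, step 0 ?_⟩ <;> simp [nS]
  | succ k ih =>
    obtain ⟨a, b, c⟩ := ih
    have h1 : (nS t n₀ (k + 1) : ℝ) = nS t n₀ k + gS t n₀ k := by
      rw [nS_succ]
      push_cast
      ring
    have h2 : (n₀ : ℝ) ≤ nS t n₀ (k + 1) := by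
      rw [h1]
      have : (0 : ℝ) ≤ gS t n₀ k := Nat.cast_nonneg _
      linarith
    refine ⟨?_, h2, step _ h2⟩
    rw [h1, pow_succ]
    have h3 : (n₀ : ℝ) * ((1 + t / 2) ^ k * (1 + t / 2)) ≤ nS t n₀ k * (1 + t / 2) := by
      rw [← mul_assoc]
      exact mul_le_mul_of_nonneg_right a (by linarith)
    nlinarith

/-- **The scheme of the places.** -/
theorem exists_sch {τ t : ℝ} (hτ : 0 < τ) (ht0 : 0 < t) (ht1 : t ≤ 1) :
    ∃ (m N : ℕ) (n γ : ℕ → ℕ), (∀ k, n (k + 1) = n k + γ k) ∧ (∀ k, γ k ≤ n k) ∧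
      (∀ k, (γ k : ℝ) ≤ t * n k) ∧ (∀ k, 1 ≤ γ k) ∧ (∀ k ≤ m, n k + γ k ≤ N) ∧
      1 ≤ dl τ m * γ m ∧ (n 0 : ℝ) ≤ dl τ m * γ m := by
  obtain ⟨n₀, hn₀⟩ := exists_nat_ge (2 / t)
  have hn : 2 ≤ t * n₀ := by
    rw [div_le_iff₀ ht0] at hn₀
    linarith
  have hn1 : (1 : ℝ) ≤ n₀ := by
    have h1 : (0 : ℝ) < n₀ := by
      by_contra h
      push Not at h
      nlinarith
    exact_mod_cast Nat.one_le_iff_ne_zero.2 (by
      intro h
      rw [h] at h1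
      simp at h1)
  -- the exponential growth
  obtain ⟨a, ha⟩ : ∃ a, a = 1 + t / 2 := ⟨_, rfl⟩
  have ha1 : 1 < a := by rw [ha]; linarith
  have hlim : Tendsto (fun k : ℕ => (k : ℝ) / a ^ k) atTop (𝓝 0) := by
    have h1 := tendsto_pow_const_div_const_pow_of_one_lt 1 ha1
    simpa using h1
  have hlim2 : Tendsto (fun k : ℕ => (1 : ℝ) / a ^ k) atTop (𝓝 0) := by
    have h1 := tendsto_pow_const_div_const_pow_of_one_lt 0 ha1
    simpa using h1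
  obtain ⟨P, hP⟩ : ∃ P : ℝ, P = 2 * (121 + 283 / τ) + 181 := ⟨_, rfl⟩
  obtain ⟨R, hR⟩ : ∃ R : ℝ, R = 9 * (121 + 283 / τ) + 181 := ⟨_, rfl⟩
  have hlim3 : Tendsto (fun k : ℕ => P * (1 / a ^ k) + R * ((k : ℝ) / a ^ k)) atTop (𝓝 0) := by
    have := (hlim2.const_mul P).add (hlim.const_mul R)
    simpa using this
  have hpos : 0 < τ * t / 8 := by positivity
  obtain ⟨m, hm⟩ := (hlim3.eventually (gt_mem_nhds hpos)).exists
  have ham : 0 < a ^ m := by positivity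
  have hKt : Kt τ m = P + R * m := by
    rw [hP, hR]
    unfold Kt
    ring
  have hKm : Kt τ m ≤ τ * t / 8 * a ^ m := by
    rw [hKt]
    have h1 : P + R * m = (P * (1 / a ^ m) + R * ((m : ℝ) / a ^ m)) * a ^ m := by
      field_simp
    rw [h1]
    exact mul_le_mul_of_nonneg_right hm.le ham.le
  have key : (n₀ : ℝ) ≤ dl τ m * gS t n₀ m := by
    obtain ⟨k1, k2, k3⟩ := nS_ge ht0 hn m
    have hK := Kt_pos hτ m
    rw [← ha] at k1
    have h1 : t / 2 * (n₀ * a ^ m) ≤ gS t n₀ m := le_trans (mul_le_mul_of_nonneg_left k1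
      (by linarith)) k3
    have h2 : (n₀ : ℝ) * (4 * Kt τ m) ≤ τ * gS t n₀ m := by
      have h3 : (n₀ : ℝ) * (4 * Kt τ m) ≤ n₀ * (4 * (τ * t / 8 * a ^ m)) :=
        mul_le_mul_of_nonneg_left (by linarith) (Nat.cast_nonneg _)
      have h4 : (n₀ : ℝ) * (4 * (τ * t / 8 * a ^ m)) = τ * (t / 2 * (n₀ * a ^ m)) := by ring
      rw [h4] at h3
      exact h3.trans (mul_le_mul_of_nonneg_left h1 hτ.le)
    unfold dl
    rw [div_mul_eq_mul_div, le_div_iff₀ (by positivity)]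
    exact h2
  refine ⟨m, nS t n₀ (m + 1), nS t n₀, gS t n₀, nS_succ t n₀, gS_le' ht0.le ht1 n₀,
    gS_le ht0.le n₀, fun k => ?_, fun k hk => ?_, hn1.trans key, key⟩
  · obtain ⟨-, k2, k3⟩ := nS_ge ht0 hn k
    have h1 : (1 : ℝ) ≤ gS t n₀ k := by
      have : t / 2 * n₀ ≤ t / 2 * nS t n₀ k := mul_le_mul_of_nonneg_left k2 (by linarith)
      linarith
    exact_mod_cast h1
  · have h1 : nS t n₀ k + gS t n₀ k = nS t n₀ (k + 1) := (nS_succ t n₀ k).symm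
    rw [h1]
    have : Monotone (nS t n₀) := monotone_nat_of_le_succ fun k => by
      rw [nS_succ]
      omega
    exact this (by omega)

end Pool.OWN17
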