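import Pool.Agent.H17.COR.Nat4

/-!
# The slope of the label of a tube

`sl_law`: if the slope of the label differs from the slope of the chart by `2 ^ s` natural units,
then the label and the tube give `s` more digits of the own height of `u`.
-/

set_option autoImplicit false

namespace Pool.OWN17

open Finset Real
open Pool.Agent.H49.Ent Pool.Agent.H32.Dense Pool.STK Pool.CH30 Pool.KM7 Pool.OWN68

section

variable {Ω 𝒮 : Type} [Fintype Ω] {p : Ω → ℝ}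
  {J w NU NV i : ℕ} {l : Ω → Ln} {h : Ω → Cht} {T : Ω → ℕ} {Y : Ω → ℤ} {cs : Ω → 𝒮}

/-- **The slope of the label.** -/
theorem sl_law (hp : IsLaw p) {c g s E : ℕ} {q : Ω → Lbl} (hs : s ≤ g) (hw : w ≤ J)
    (hJ : NV + i + E ≤ J) (dh : Det p cs h)
    (yc : ∀ ω, 0 < p ω → |(Y ω : ℝ) / 2 ^ J - ((l ω).y + tT J w (T ω) * (l ω).e)| ≤ 1 / 2 ^ J)
    (hσ : ∀ ω, 0 < p ω → |((q ω).f2 - (h ω).b2) + ((q ω).f3 - (h ω).b3) * (h ω).a2| ≤ 2 ^ E)
    (lab : ∀ ω, 0 < p ω → |(l ω).v - ((q ω).f0 + (q ω).f2 * (l ω).y + (q ω).f3 * (l ω).u)| ≤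
      c / 2 ^ (NV + i + g))
    (lab' : ∀ ω, 0 < p ω → |(l ω).dv - ((q ω).f1 + (q ω).f2 * (l ω).e + (q ω).f3 * (l ω).du)| ≤
      c * (2 ^ w / 2 ^ (NV + i + g)))
    (bad : ∀ ω, 0 < p ω → 2 ^ s * (2 ^ NU / 2 ^ NV) ≤ |(q ω).f3 - (h ω).b3|) :
    CH p (hgU J w (NU + i + g) l h T) (fun ω => (q ω, (Rd J w NU NV i l h T cs ω, (T ω, Y ω)))) ≤
      ((g : ℝ) - s) * Real.log 2 + (Real.log (4 * c + 9) + 2 * Real.log 11) := by
  have h0 := hp.nonneg
  have hc0 : (0 : ℝ) ≤ c := Nat.cast_nonneg c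
  obtain ⟨Z, hZ⟩ : ∃ Z : Ω → Lbl × (_ × (ℕ × ℤ)), Z = fun ω =>
    (q ω, (Rd J w NU NV i l h T cs ω, (T ω, Y ω))) := ⟨_, rfl⟩
  rw [← hZ]
  have k1 : CH p (Nd J w NU NV i l h T Y cs) Z ≤ 2 * Real.log 11 :=
    Nd_few hp hw fun ω ω' _ _ hh => by
      rw [hZ] at hh
      exact (Prod.mk.inj hh).2
  have k2 := CH_le_add h0 (hgU J w (NU + i + g) l h T) (Nd J w NU NV i l h T Y cs) Z
  obtain ⟨B, hB⟩ : ∃ B : ℕ, B = 2 ^ (g - s) * (2 * c + 2) + 1 := ⟨_, rfl⟩
  have k3 : CH p (hgU J w (NU + i + g) l h T) (fun ω => (Nd J w NU NV i l h T Y cs ω, Z ω)) ≤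
      Real.log (2 * ((B : ℕ) + 1) + 1) := by
    refine cnt_det hp (c := fun ω => 2 ^ (NU + i + g) *
      (((hgV J w (NV + i) l h T ω : ℝ) / 2 ^ (NV + i) -
        (((q ω).f0 - (h ω).b0) + ((q ω).f3 - (h ω).b3) * (h ω).a0 +
          (((q ω).f1 - (h ω).b1) + ((q ω).f3 - (h ω).b3) * (h ω).a1) * tT J w (T ω)) -
        (((q ω).f2 - (h ω).b2) + ((q ω).f3 - (h ω).b3) * (h ω).a2) * ((Y ω : ℝ) / 2 ^ J)) /
        ((q ω).f3 - (h ω).b3))) ?_ B fun ω hω => ?_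
    · intro ω ω' h1 h2 hh
      rw [hZ] at hh
      simp only [Nd, Rd, Prod.mk.injEq] at hh
      obtain ⟨⟨⟨⟨-, a1⟩, -⟩, -⟩, a2, ⟨a3, -⟩, a4, a5⟩ := hh
      have a6 := dh ω ω' h1 h2 a3
      simp only [a1, a2, a4, a5, a6]
    · obtain ⟨t, ht⟩ : ∃ t, t = tT J w (T ω) := ⟨_, rfl⟩
      have t0 : 0 ≤ t := by rw [ht]; exact tT_nonneg _
      have t1 : t * 2 ^ w ≤ 1 := by rw [ht]; exact tT_lt hw _
      obtain ⟨θ, hθ⟩ : ∃ θ, θ = (q ω).f3 - (h ω).b3 := ⟨_, rfl⟩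
      obtain ⟨σ, hσd⟩ : ∃ σ, σ = ((q ω).f2 - (h ω).b2) + θ * (h ω).a2 := ⟨_, rfl⟩
      obtain ⟨κ, hκ⟩ : ∃ κ, κ = ((q ω).f0 - (h ω).b0) + θ * (h ω).a0 +
        (((q ω).f1 - (h ω).b1) + θ * (h ω).a1) * t := ⟨_, rfl⟩
      obtain ⟨ε, hε⟩ : ∃ ε, ε = ((l ω).v - ((q ω).f0 + (q ω).f2 * (l ω).y + (q ω).f3 * (l ω).u)) +
        t * ((l ω).dv - ((q ω).f1 + (q ω).f2 * (l ω).e + (q ω).f3 * (l ω).du)) := ⟨_, rfl⟩
      have hσ' := hσ ω hω
      have hbad := bad ω hω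
      rw [← hθ, ← hσd] at hσ'
      rw [← hθ] at hbad
      have hθ0 : 0 < |θ| := lt_of_lt_of_le (by positivity) hbad
      have hθne : θ ≠ 0 := abs_pos.1 hθ0
      rw [← ht, ← hθ, ← hσd, ← hκ]
      have e1 : θ * (l ω).hu (h ω) t = (l ω).hv (h ω) t - ε - κ -
          σ * ((l ω).y + t * (l ω).e) := by
        rw [hε, hκ, hσd, hθ]
        unfold Ln.hu Ln.hv
        ring
      have hεb : |ε| ≤ 2 * c / 2 ^ (NV + i + g) := by
        rw [hε]
        refine (abs_add_le _ _).trans ?_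
        rw [abs_mul, abs_of_nonneg t0]
        have m1 := lab ω hω
        have m2 : t * |(l ω).dv - ((q ω).f1 + (q ω).f2 * (l ω).e + (q ω).f3 * (l ω).du)| ≤
            t * (c * (2 ^ w / 2 ^ (NV + i + g))) := mul_le_mul_of_nonneg_left (lab' ω hω) t0
        have m3 : t * (c * (2 ^ w / 2 ^ (NV + i + g))) = (t * 2 ^ w) * (c / 2 ^ (NV + i + g)) := by
          ring
        have m4 : (t * 2 ^ w) * ((c : ℝ) / 2 ^ (NV + i + g)) ≤ 1 * (c / 2 ^ (NV + i + g)) :=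
          mul_le_mul_of_nonneg_right t1 (by positivity)
        have m5 : 2 * (c : ℝ) / 2 ^ (NV + i + g) = c / 2 ^ (NV + i + g) + 1 * (c / 2 ^ (NV + i + g)) := by
          ring
        linarith
      have hyb := yc ω hω
      rw [← ht] at hyb
      obtain ⟨yt, hyt⟩ : ∃ yt, yt = (l ω).y + t * (l ω).e := ⟨_, rfl⟩
      rw [← hyt] at hyb e1
      have hhv : |(hgV J w (NV + i) l h T ω : ℝ) / 2 ^ (NV + i) - (l ω).hv (h ω) t| ≤
          1 / 2 ^ (NV + i) := by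
        have := fl_div (n := NV + i) ((l ω).hv (h ω) t)
        rw [abs_sub_comm]
        unfold hgV
        rw [← ht]
        exact this
      have hsum : |((hgV J w (NV + i) l h T ω : ℝ) / 2 ^ (NV + i) - κ -
          σ * ((Y ω : ℝ) / 2 ^ J)) - θ * (l ω).hu (h ω) t| ≤ (2 * c + 2) / 2 ^ (NV + i) := by
        have e2 : ((hgV J w (NV + i) l h T ω : ℝ) / 2 ^ (NV + i) - κ -
            σ * ((Y ω : ℝ) / 2 ^ J)) - θ * (l ω).hu (h ω) t =
            ((hgV J w (NV + i) l h T ω : ℝ) / 2 ^ (NV + i) - (l ω).hv (h ω) t) + ε -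
            σ * ((Y ω : ℝ) / 2 ^ J - yt) := by
          rw [e1]
          ring
        rw [e2]
        have m1 := abs_sub (((hgV J w (NV + i) l h T ω : ℝ) / 2 ^ (NV + i) - (l ω).hv (h ω) t) + ε)
          (σ * ((Y ω : ℝ) / 2 ^ J - yt))
        have m2 := abs_add_le ((hgV J w (NV + i) l h T ω : ℝ) / 2 ^ (NV + i) -
          (l ω).hv (h ω) t) ε
        have m3 : |σ * ((Y ω : ℝ) / 2 ^ J - yt)| ≤ 1 / 2 ^ (NV + i) := by
          rw [abs_mul]
          calc |σ| * |(Y ω : ℝ) / 2 ^ J - yt| ≤ 2 ^ E * (1 / 2 ^ J) :=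
                mul_le_mul hσ' hyb (abs_nonneg _) (by positivity)
            _ = 2 ^ E / 2 ^ J := by ring
            _ ≤ 1 / 2 ^ (NV + i) := by
              rw [div_le_div_iff₀ (by positivity) (by positivity), one_mul, ← pow_add]
              exact pow_le_pow_right₀ (by norm_num) (by omega)
        have m4 : 2 * (c : ℝ) / 2 ^ (NV + i + g) ≤ 2 * c / 2 ^ (NV + i) :=
          div_le_div_of_nonneg_left (by positivity) (by positivity)
            (pow_le_pow_right₀ (by norm_num) (by omega))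
        have m5 : (2 * (c : ℝ) + 2) / 2 ^ (NV + i) = 1 / 2 ^ (NV + i) + 2 * c / 2 ^ (NV + i) +
            1 / 2 ^ (NV + i) := by ring
        linarith
      obtain ⟨X, hX⟩ : ∃ X, X = (hgV J w (NV + i) l h T ω : ℝ) / 2 ^ (NV + i) - κ -
          σ * ((Y ω : ℝ) / 2 ^ J) := ⟨_, rfl⟩
      rw [← hX] at hsum ⊢
      have hdiv : |X / θ - (l ω).hu (h ω) t| ≤ (2 * c + 2) / 2 ^ (NV + i) / |θ| := by
        have e3 : X / θ - (l ω).hu (h ω) t = (X - θ * (l ω).hu (h ω) t) / θ := by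
          field_simp
        rw [e3, abs_div]
        exact div_le_div_of_nonneg_right hsum hθ0.le
      have hfin : 2 ^ (NU + i + g) * |X / θ - (l ω).hu (h ω) t| ≤ 2 ^ (g - s) * (2 * c + 2) := by
        calc 2 ^ (NU + i + g) * |X / θ - (l ω).hu (h ω) t| ≤
              2 ^ (NU + i + g) * ((2 * c + 2) / 2 ^ (NV + i) / |θ|) :=
                mul_le_mul_of_nonneg_left hdiv (by positivity)
          _ ≤ 2 ^ (NU + i + g) * ((2 * c + 2) / 2 ^ (NV + i) / (2 ^ s * (2 ^ NU / 2 ^ NV))) := by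
                refine mul_le_mul_of_nonneg_left ?_ (by positivity)
                exact div_le_div_of_nonneg_left (by positivity) (by positivity) hbad
          _ = 2 ^ (g - s) * (2 * c + 2) := by
                have e4 : (2 : ℝ) ^ (NU + i + g) = 2 ^ NU * 2 ^ i * (2 ^ (g - s) * 2 ^ s) := by
                  rw [← pow_add, ← pow_add, ← pow_add]
                  congr 1
                  omega
                rw [e4, pow_add 2 NV i]
                field_simp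
      have f1 := fl_err (2 ^ (NU + i + g) * (l ω).hu (h ω) t)
      have e5 : (hgU J w (NU + i + g) l h T ω : ℝ) - 2 ^ (NU + i + g) * (X / θ) =
          (((⌊2 ^ (NU + i + g) * (l ω).hu (h ω) t⌋ : ℤ) : ℝ) -
            2 ^ (NU + i + g) * (l ω).hu (h ω) t) -
          2 ^ (NU + i + g) * (X / θ - (l ω).hu (h ω) t) := by
        unfold hgU
        rw [← ht]
        ring
      rw [e5]
      have m1 := abs_sub ((((⌊2 ^ (NU + i + g) * (l ω).hu (h ω) t⌋ : ℤ) : ℝ) -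
            2 ^ (NU + i + g) * (l ω).hu (h ω) t))
          (2 ^ (NU + i + g) * (X / θ - (l ω).hu (h ω) t))
      rw [abs_mul, abs_of_pos (by positivity : (0 : ℝ) < 2 ^ (NU + i + g))] at m1
      rw [hB]
      push_cast
      linarith
  have k4 : Real.log (2 * ((B : ℕ) + 1) + 1) ≤ ((g : ℝ) - s) * Real.log 2 +
      Real.log (4 * c + 9) := by
    have e1 : (2 : ℝ) * ((B : ℕ) + 1) + 1 ≤ 2 ^ (g - s) * (4 * c + 9) := by
      rw [hB]
      push_cast
      have : (1 : ℝ) ≤ 2 ^ (g - s) := one_le_pow₀ (by norm_num)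
      nlinarith
    have e2 : Real.log (2 ^ (g - s) * (4 * c + 9)) = ((g : ℝ) - s) * Real.log 2 +
        Real.log (4 * c + 9) := by
      rw [Real.log_mul (by positivity) (by positivity), Real.log_pow, Nat.cast_sub hs]
    rw [← e2]
    exact Real.log_le_log (by positivity) e1
  have k5 : CH p (hgU J w (NU + i + g) l h T) (fun ω => (Nd J w NU NV i l h T Y cs ω, Z ω)) ≤
      ((g : ℝ) - s) * Real.log 2 + Real.log (4 * c + 9) := k3.trans k4
  linarith

end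

end Pool.OWN17
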