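import Pool.Agent.H17.COR.Plc
import Pool.Agent.H17.COR.Sl

/-!
# The slope of the label of a place is natural

`sl_root`: the slope of the label and the slope of the chart of the ball differ by a small natural
number of digits, on all events of a subclass.
-/

set_option autoImplicit false

namespace Pool.OWN17

open Finset Real MvPolynomial
open Pool.Agent.H49.Ent Pool.Agent.H32.Dense Pool.STK Pool.KA Pool.KSAT Pool.K2S Pool.PB Pool.S6C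
  Pool.GEN Pool.RCD Pool.LA91 Pool.MIC6 Pool.REX Pool.REX83
open Pool.GRD (LbP)

variable {m n : ℕ}

theorem sup_cond {J : ℕ} {F : Fam m J} {A : F.Ω → Prop} {ω : F.Ω}
    (hω : 0 < Pool.Agent.H49.Ent.cond F.p A True ω) : A ω :=
  of_eq_true ((cond_pos_iff F.isLaw.nonneg A True ω).1 hω).2

/-- **The slope of the label is natural.** -/
theorem sl_root {S : PCl m} (hS : S.Ne)
    (hpos : ∀ (τ : ℝ) (J : ℕ) (F : Fam m J) (A : F.Ω → Prop), S.St τ J F A → 0 < Pe F.p A)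
    {v : Vz m} {y u k : Fin m} {t W x₀ M eU : ℝ} {NU NV iN gN sN E : ℕ → ℕ}
    {f a b : ∀ (J : ℕ) (F : Fam m J), LnT F → Fin 4 → ℝ} {𝒮 : ∀ J : ℕ, Fam m J → Type}
    {cs : ∀ (J : ℕ) (F : Fam m J), LnT F → 𝒮 J F} (ht : t ≤ 1)
    (hf : ∀ (τ : ℝ) (J : ℕ) (F : Fam m J) (A : F.Ω → Prop), S.St τ J F A →
      Lbk F v y u k ⌊t * J⌋₊ ⌊x₀ * J⌋₊ ⌊M * J⌋₊ (f J F) A)
    (hb : ∀ (τ : ℝ) (J : ℕ) (F : Fam m J) (A : F.Ω → Prop), S.St τ J F A → ∀ ω, A ω →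
      |a J F (slam F ⌊W * J⌋₊ ω) 2| ≤ 2 ^ E J ∧ |b J F (slam F ⌊W * J⌋₊ ω) 2| ≤ 2 ^ E J ∧
        |b J F (slam F ⌊W * J⌋₊ ω) 3| ≤ 2 ^ E J)
    (hcs : ∀ (J : ℕ) (F : Fam m J) (ω ω' : F.Ω), cs J F (slam F ⌊t * J⌋₊ ω) =
      cs J F (slam F ⌊t * J⌋₊ ω') → a J F (slam F ⌊W * J⌋₊ ω) = a J F (slam F ⌊W * J⌋₊ ω') ∧
        b J F (slam F ⌊W * J⌋₊ ω) = b J F (slam F ⌊W * J⌋₊ ω') ∧
        tw0 F ⌊t * J⌋₊ ω = tw0 F ⌊t * J⌋₊ ω')
    (hU : Bas S (fun J F A => (gN J : ℝ) * Real.log 2 - eU * J ≤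
      CH (Pool.Agent.H49.Ent.cond F.p A True)
        (hgU J ⌊t * J⌋₊ (NU J + iN J + gN J) (lnF F y u k ⌊t * J⌋₊)
          (hC F ⌊t * J⌋₊ ⌊W * J⌋₊ (a J F) (b J F)) F.T)
        (fun ω => (lbF (tw0 F ⌊t * J⌋₊ ω) (f J F (slam F ⌊t * J⌋₊ ω)),
          (Rd J ⌊t * J⌋₊ (NU J) (NV J) (iN J) (lnF F y u k ⌊t * J⌋₊)
            (hC F ⌊t * J⌋₊ ⌊W * J⌋₊ (a J F) (b J F)) F.T
            (fun ω => cs J F (slam F ⌊t * J⌋₊ ω)) ω, (F.T ω, F.X J ω y))))))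
    {J₁ : ℕ} (hs : ∀ J ≥ J₁, sN J ≤ gN J) (hJ1 : ∀ J ≥ J₁,
      NV J + iN J + (max ⌊x₀ * J⌋₊ (E J) + (E J + 2)) ≤ J)
    (hM : ∀ J ≥ J₁, NV J + iN J + gN J ≤ ⌊M * J⌋₊)
    (he : ∀ J ≥ J₁, eU * J + (Real.log 13 + 2 * Real.log 11) < sN J * Real.log 2) :
    ∃ S' : PCl m, S'.Ne ∧
      (∀ (τ : ℝ) (J : ℕ) (F : Fam m J) (A : F.Ω → Prop), S'.St τ J F A → S.St τ J F A) ∧
      ∀ (τ : ℝ) (J : ℕ) (F : Fam m J) (A : F.Ω → Prop), S'.St τ J F A → ∀ ω, A ω →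
        |f J F (slam F ⌊t * J⌋₊ ω) 3 - b J F (slam F ⌊W * J⌋₊ ω) 3| ≤
          2 ^ sN J * (2 ^ NU J / 2 ^ NV J) := by
  classical
  obtain ⟨S', h1, h2, h3⟩ := bad_root hS hpos (fun J F ω => 2 ^ sN J * (2 ^ NU J / 2 ^ NV J) <
    |f J F (slam F ⌊t * J⌋₊ ω) 3 - b J F (slam F ⌊W * J⌋₊ ω) 3|) (by
    have hst : Bas S (fun J F A => 0 < Pe F.p A ∧
        Lbk F v y u k ⌊t * J⌋₊ ⌊x₀ * J⌋₊ ⌊M * J⌋₊ (f J F) A ∧ ∀ ω, A ω →
      |a J F (slam F ⌊W * J⌋₊ ω) 2| ≤ 2 ^ E J ∧ |b J F (slam F ⌊W * J⌋₊ ω) 2| ≤ 2 ^ E J ∧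
        |b J F (slam F ⌊W * J⌋₊ ω) 3| ≤ 2 ^ E J) :=
      ⟨1, one_pos, 0, fun J _ F A hA => ⟨hpos 1 J F A hA, hf 1 J F A hA, hb 1 J F A hA⟩⟩
    refine Bas.mono J₁ (hU.and hst) ?_
    rintro J hJ F A ⟨k1, k0, k2, k3⟩ hbad
    obtain ⟨w, hw⟩ : ∃ w, w = ⌊t * (J : ℝ)⌋₊ := ⟨_, rfl⟩
    rw [← hw] at k1 k2 hbad
    obtain ⟨E₁, hE₁⟩ : ∃ E₁, E₁ = max ⌊x₀ * (J : ℝ)⌋₊ (E J) := ⟨_, rfl⟩
    have hq := isLaw_cond F.isLaw k0
    have hwJ : w ≤ J := by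
      rw [hw]
      exact floor_le ht J
    have hMp : (2 : ℝ) ^ (NV J + iN J + gN J) ≤ 2 ^ ⌊M * (J : ℝ)⌋₊ :=
      pow_le_pow_right₀ (by norm_num) (hM J hJ)
    have hb1 : (1 : ℝ) ≤ 2 ^ E J := one_le_pow₀ (by norm_num)
    have hE1a : (2 : ℝ) ^ ⌊x₀ * (J : ℝ)⌋₊ ≤ 2 ^ E₁ := pow_le_pow_right₀ (by norm_num)
      (by rw [hE₁]; exact le_max_left _ _)
    have hE1b : (2 : ℝ) ^ E J ≤ 2 ^ E₁ := pow_le_pow_right₀ (by norm_num)
      (by rw [hE₁]; exact le_max_right _ _)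
    have key := sl_law hq (J := J) (w := w) (NU := NU J) (NV := NV J) (i := iN J)
      (l := lnF F y u k w) (h := hC F w ⌊W * J⌋₊ (a J F) (b J F)) (T := F.T)
      (Y := fun ω => F.X J ω y) (cs := fun ω => cs J F (slam F w ω)) (c := 1) (g := gN J)
      (s := sN J) (E := E₁ + (E J + 2)) (q := fun ω => lbF (tw0 F w ω) (f J F (slam F w ω)))
      (hs J hJ) hwJ (by rw [hE₁]; exact hJ1 J hJ) (by
        intro ω ω' _ _ hh
        have hh' : cs J F (slam F w ω) = cs J F (slam F w ω') := hh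
        rw [hw] at hh'
        obtain ⟨e1, e2, e3⟩ := hcs J F ω ω' hh'
        rw [← hw] at e3
        unfold hC
        rw [e1, e2, e3]) (fun ω _ => yc_of F y u k hwJ ω) (by
        intro ω hω
        have hA := sup_cond hω
        obtain ⟨c1, c2, c3⟩ := k3 ω hA
        have d2 := (k2.bnd ω hA 2 (by decide)).trans hE1a
        have d3 := (k2.bnd ω hA 3 (by decide)).trans hE1a
        have c2' := c2.trans hE1b
        have c3' := c3.trans hE1b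
        show |(f J F (slam F w ω) 2 - b J F (slam F ⌊W * J⌋₊ ω) 2) +
          (f J F (slam F w ω) 3 - b J F (slam F ⌊W * J⌋₊ ω) 3) *
            a J F (slam F ⌊W * J⌋₊ ω) 2| ≤ 2 ^ (E₁ + (E J + 2))
        have f1 : |f J F (slam F w ω) 2 - b J F (slam F ⌊W * J⌋₊ ω) 2| ≤ 2 * 2 ^ E₁ := by
          have := abs_sub (f J F (slam F w ω) 2) (b J F (slam F ⌊W * J⌋₊ ω) 2)
          linarith
        have f2 : |(f J F (slam F w ω) 3 - b J F (slam F ⌊W * J⌋₊ ω) 3) *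
            a J F (slam F ⌊W * J⌋₊ ω) 2| ≤ 2 * 2 ^ E₁ * 2 ^ E J := by
          rw [abs_mul]
          refine mul_le_mul ?_ c1 (abs_nonneg _) (by positivity)
          have := abs_sub (f J F (slam F w ω) 3) (b J F (slam F ⌊W * J⌋₊ ω) 3)
          linarith
        have f3 := abs_add_le (f J F (slam F w ω) 2 - b J F (slam F ⌊W * J⌋₊ ω) 2)
          ((f J F (slam F w ω) 3 - b J F (slam F ⌊W * J⌋₊ ω) 3) *
            a J F (slam F ⌊W * J⌋₊ ω) 2)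
        have f4 : (2 : ℝ) ^ (E₁ + (E J + 2)) = 4 * 2 ^ E₁ * 2 ^ E J := by
          rw [pow_add, pow_add]
          ring
        rw [f4]
        have f5 : 2 * (2 : ℝ) ^ E₁ * 1 ≤ 2 * 2 ^ E₁ * 2 ^ E J :=
          mul_le_mul_of_nonneg_left hb1 (by positivity)
        linarith) (by
        intro ω hω
        refine (k2.pos ω (sup_cond hω)).trans ?_
        simp only [Nat.cast_one]
        exact div_le_div_of_nonneg_left (by norm_num) (by positivity) hMp) (by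
        intro ω hω
        refine (k2.vel ω (sup_cond hω)).trans ?_
        simp only [Nat.cast_one, one_mul]
        exact div_le_div_of_nonneg_left (by positivity) (by positivity) hMp) (by
        intro ω hω
        exact (hbad ω (sup_cond hω)).le)
    have h5 := he J hJ
    have h6 : Real.log (4 * ((1 : ℕ) : ℝ) + 9) = Real.log 13 := by norm_num
    rw [h6] at key
    linarith)
  exact ⟨S', h1, h2, fun τ J F A hA ω hω => not_lt.1 (h3 τ J F A hA ω hω)⟩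

end Pool.OWN17
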