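import Pool.Agent.H17.COR.Chr

/-!
# The zooms of the places

`vkZ`: the zoom at the window `b` with the record of the tube of `i` natural digits and a further
function of the line. `csF`: the codes.
-/

set_option autoImplicit false

namespace Pool.OWN17

open Finset Real MvPolynomial
open Pool.Agent.H49.Ent Pool.Agent.H32.Dense Pool.STK Pool.KA Pool.KSAT Pool.K2S Pool.PB Pool.S6C
  Pool.GEN Pool.RCD Pool.LA91 Pool.MIC6 Pool.REX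
open Pool.GRD (LbP)

variable {m : ℕ}

/-- The line in a coarser window is a function of the line in the window. -/
theorem slam_le {J : ℕ} (F : Fam m J) {w w' : ℕ} (h : w ≤ w') (h' : w' ≤ J) {ω ω' : F.Ω}
    (hh : slam F w' ω = slam F w' ω') : slam F w ω = slam F w ω' := by
  rw [← crs_slam F h h' ω, ← crs_slam F h h' ω', hh]

theorem lnF_slam {J : ℕ} (F : Fam m J) (y u v : Fin m) {w : ℕ} {ω ω' : F.Ω}
    (hh : slam F w ω = slam F w ω') : lnF F y u v w ω = lnF F y u v w ω' ∧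
      tw0 F w ω = tw0 F w ω' ∧ F.T ω / 2 ^ (J - w) = F.T ω' / 2 ^ (J - w) := by
  have h1 : F.l ω = F.l ω' := congrArg Prod.fst hh
  have h2 : F.T1 w ω = F.T1 w ω' := congrArg (fun s => s.2.2) hh
  have h3 : F.u ω = F.u ω' := congrArg Prod.fst h1
  have h4 : F.d ω = F.d ω' := congrArg Prod.snd h1
  have h5 : tw0 F w ω = tw0 F w ω' := by
    unfold tw0
    rw [h2]
  refine ⟨?_, h5, h2⟩
  unfold lnF
  rw [h3, h4, h5]

/-- The record of the tube is a function of the line in the window. -/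
theorem Rd_slam {J : ℕ} {F : Fam m J} {y u v : Fin m} {w w₀ NU NV i : ℕ} (hw : w₀ ≤ w)
    (hwJ : w ≤ J) {a b : LnT F → Fin 4 → ℝ} {𝒮 : Type} {cs : F.Ω → 𝒮} {ω ω' : F.Ω}
    (hh : slam F w ω = slam F w ω') (hcs : cs ω = cs ω') :
    Rd J w NU NV i (lnF F y u v w) (hC F w w₀ a b) F.T cs ω =
      Rd J w NU NV i (lnF F y u v w) (hC F w w₀ a b) F.T cs ω' := by
  obtain ⟨h1, h2, h3⟩ := lnF_slam F y u v hh
  have h4 : hC F w w₀ a b ω = hC F w w₀ a b ω' := by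
    unfold hC
    rw [h2, slam_le F hw hwJ hh]
  unfold Rd
  rw [h1, h3, h4, hcs]

/-- **The zoom of a place**: the record of the tube of `i` natural digits and a further function `q`
of the line. -/
noncomputable def vkZ (y u v : Fin m) (b W : ℝ) (hb0 : 0 ≤ b) (hb1 : b < 1) (hWb : W ≤ b)
    (NU NV iN : ℕ → ℕ) (a b' : ∀ (J : ℕ) (F : Fam m J), LnT F → Fin 4 → ℝ)
    {𝒮 𝒬 : ∀ J : ℕ, Fam m J → Type} (cs : ∀ (J : ℕ) (F : Fam m J), LnT F → 𝒮 J F)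
    (q : ∀ (J : ℕ) (F : Fam m J), LnT F → 𝒬 J F) : Vz m where
  b := b
  p := 0
  b0 := hb0
  b1 := hb1
  p0 := le_rfl
  p1 := one_pos
  κ J F := 𝒬 J F × (𝒮 J F × (ℕ × ((ℤ × ℤ) × ((ℤ × ℤ) × (ℤ × ℤ)))))
  y J F ω := (q J F (slam F ⌊b * J⌋₊ ω), Rd J ⌊b * J⌋₊ (NU J) (NV J) (iN J)
    (lnF F y u v ⌊b * J⌋₊) (hC F ⌊b * J⌋₊ ⌊W * J⌋₊ (a J F) (b' J F)) F.T
    (fun ω => cs J F (slam F ⌊b * J⌋₊ ω)) ω)
  line J F ω ω' hh := by
    have h1 : ⌊W * (J : ℝ)⌋₊ ≤ ⌊b * (J : ℝ)⌋₊ :=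
      Nat.floor_le_floor (mul_le_mul_of_nonneg_right hWb (Nat.cast_nonneg J))
    have h2 : ⌊b * (J : ℝ)⌋₊ ≤ J := floor_le hb1.le J
    rw [hh, Rd_slam h1 h2 hh (congrArg (cs J F) hh)]

/-- **The codes** of the ball with the window, as a function of the line in the window `b`. -/
noncomputable def csF {ι : Type} {V : ∀ J : ℕ, Fam m J → Type} (x : ι → ℝ) (b : ℝ) (iW : ι)
    (z : ∀ (J : ℕ) (F : Fam m J), ι → LnT F → V J F)
    (a a' : ι → ∀ (J : ℕ) (F : Fam m J), LnT F → Fin 4 → ℝ) (J : ℕ) (F : Fam m J) (s : LnT F) :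
    ((V J F × (((Fin 4 → ℝ) × (Fin 4 → ℝ)) × Option ((Fin 4 → ℝ) × (Fin 4 → ℝ)))) × F.ζ) × ℕ :=
  (((z J F iW (crs ⌊x iW * J⌋₊ ⌊b * J⌋₊ s), ((a iW J F (crs ⌊x iW * J⌋₊ ⌊b * J⌋₊ s),
    a' iW J F (crs ⌊x iW * J⌋₊ ⌊b * J⌋₊ s)), none)), s.2.1), s.2.2)

theorem csF_zp {ι : Type} [DecidableEq ι] {V : ∀ J : ℕ, Fam m J → Type} {iW iO : ι} (hWO : iW ≠ iO)
    (z : ∀ (J : ℕ) (F : Fam m J), ι → LnT F → V J F)
    (a a' : ι → ∀ (J : ℕ) (F : Fam m J), LnT F → Fin 4 → ℝ) {x : ι → ℝ} {b : ℝ} (hb : x iW ≤ b)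
    (hb1 : b ≤ 1) (J : ℕ) (F : Fam m J) (ω : F.Ω) : csF x b iW z a a' J F (slam F ⌊b * J⌋₊ ω) =
      ((zpF F x iW iO (z J F) (fun i => a i J F) (fun i => a' i J F) iW ω, F.Z ω),
        F.T ω / 2 ^ (J - ⌊b * J⌋₊)) := by
  have h1 : ⌊x iW * (J : ℝ)⌋₊ ≤ ⌊b * (J : ℝ)⌋₊ :=
    Nat.floor_le_floor (mul_le_mul_of_nonneg_right hb (Nat.cast_nonneg J))
  have h2 : ⌊b * (J : ℝ)⌋₊ ≤ J := floor_le hb1 J
  unfold csF zpF
  rw [if_neg hWO, crs_slam F h1 h2]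
  rfl

end Pool.OWN17
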